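import Pool.Agent.M3.S3.Law
import Pool.Agent.M3.FPPoE

/-!
# M3.S3.Thm3: the statement of Theorem 3 (section 3) in product form (helper11)

* `Hyp3 D dg prf prg al K Lam` : the hypotheses: digits `dg t` (`qa (t+1)` = `qa t` and the digit, balanced on every cell),
  cells of the known points halved or unchanged, labels cumulative (`prf t`, `prg t` : label of the time `t+1` -> label of
  the time `t`), (H1) `al >= exp (-Lam)` (thickness is `D.Thick al`), (H2) entropy of the labels without classes,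
  (H3) number of updates;
* `nd`, `m3`, `x3`, `y3`, `z3` : the state map of a public class map `U`, the four conditional means of the digit;
* `Thm3 κ` : THEOREM 3 with the exponent `κ`.
-/

set_option autoImplicit false
set_option linter.unusedSectionVars false

namespace Pool.Agent.M3.S3

open Finset Pool.Agent.PWZ Pool.Agent.M3

noncomputable section

section defs

variable {X β γ ι φ : Type} [Fintype X] [Fintype β] [Fintype γ] [Fintype φ]

/-- the hypotheses of Theorem 3 besides the thickness `D.Thick al` -/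
structure Hyp3 (D : Dat X β γ ι φ) (dg : ℕ → X → ℝ) (prf prg : ℕ → φ → φ) (al : ℝ) (K : ℕ) (Lam : ℝ) : Prop where
  Lam1 : 1 ≤ Lam
  /-- (H1) -/
  alL : Real.exp (-Lam) ≤ al
  dg_val : ∀ t x, dg t x = 1 ∨ dg t x = -1
  dg_cell : ∀ t < K, ∀ x x', D.qa (t + 1) x = D.qa (t + 1) x' ↔ D.qa t x = D.qa t x' ∧ dg t x = dg t x'
  dg_bal : ∀ t < K, ∀ x, ∑ y ∈ D.cA t x, dg t y = 0
  halfB : ∀ t < K, (∀ b, D.cB (t + 1) b = D.cB t b) ∨ ∀ b, 2 * (D.cB (t + 1) b).card = (D.cB t b).card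
  halfC : ∀ t < K, (∀ c, D.cC (t + 1) c = D.cC t c) ∨ ∀ c, 2 * (D.cC (t + 1) c).card = (D.cC t c).card
  /-- cumulative labels -/
  kf_pr : ∀ t < K, ∀ x b c F, D.kf t x b c F = ∑ F', ind (prf t F' = F) * D.kf (t + 1) x b c F'
  kg_pr : ∀ t < K, ∀ x b c G, D.kg t x b c G = ∑ G', ind (prg t G' = G) * D.kg (t + 1) x b c G'
  /-- (H2) -/
  Hf2 : Hf D 0 (fun x _ _ => D.cA 0 x) +
    ∑ t ∈ range K, (Hf D (t + 1) (fun x _ _ => D.cA (t + 1) x) - Hf D t (fun x _ _ => D.cA (t + 1) x)) ≤ Lam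
  Hg2 : Hg D 0 (fun x _ _ => D.cA 0 x) +
    ∑ t ∈ range K, (Hg D (t + 1) (fun x _ _ => D.cA (t + 1) x) - Hg D t (fun x _ _ => D.cA (t + 1) x)) ≤ Lam
  /-- (H3) -/
  cf3 : ∀ x b c, ∑ t ∈ range K, ind (∃ y ∈ D.cA (t + 1) x, D.kf (t + 1) y b c ≠ D.kf t y b c) ≤ Real.exp Lam
  cg3 : ∀ x b c, ∑ t ∈ range K, ind (∃ y ∈ D.cA (t + 1) x, D.kg (t + 1) y b c ≠ D.kg t y b c) ≤ Real.exp Lam

/-- the state map of a public class map -/
def nd (D : Dat X β γ ι φ) (U : ℕ → X → β → γ → Finset X) (t : ℕ) (w : Sp X β γ φ) : ι × ι × ι × Finset X :=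
  (D.qa t w.1, D.qb t w.2.1, D.qc t w.2.2.1, U t w.1 w.2.1 w.2.2.1)

variable [Nonempty X] [Nonempty β] [Nonempty γ] {D : Dat X β γ ι φ} {al : ℝ}

/-- bias of the digit at the state -/
def m3 (T : D.Thick al) (dg : ℕ → X → ℝ) (U : ℕ → X → β → γ → Finset X) (t : ℕ) (w : Sp X β γ φ) : ℝ :=
  (D.kp T t).P.ce (nd D U t) (fun v => dg t v.1) w

/-- bias given the first letter -/
def x3 (T : D.Thick al) (dg : ℕ → X → ℝ) (U : ℕ → X → β → γ → Finset X) (t : ℕ) (w : Sp X β γ φ) : ℝ :=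
  (D.kp T t).P.ce (fun v => (xF v, nd D U t v)) (fun v => dg t v.1) w

/-- bias given the second letter -/
def y3 (T : D.Thick al) (dg : ℕ → X → ℝ) (U : ℕ → X → β → γ → Finset X) (t : ℕ) (w : Sp X β γ φ) : ℝ :=
  (D.kp T t).P.ce (fun v => (xG v, nd D U t v)) (fun v => dg t v.1) w

/-- bias given both letters -/
def z3 (T : D.Thick al) (dg : ℕ → X → ℝ) (U : ℕ → X → β → γ → Finset X) (t : ℕ) (w : Sp X β γ φ) : ℝ :=
  (D.kp T t).P.ce (fun v => (xF v, xG v, nd D U t v)) (fun v => dg t v.1) w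

/-- the conclusion of Theorem 3 for the class map `U` -/
structure Concl3 (T : D.Thick al) (dg : ℕ → X → ℝ) (K : ℕ) (Lam n κ : ℝ) (C : ℕ)
    (U : ℕ → X → β → γ → Finset X) : Prop where
  ref : RefCl D U
  m2 : ∑ t ∈ range K, (D.kp T t).P.E (fun w => m3 T dg U t w ^ 2) ≤ (C : ℝ) * n * Lam ^ C
  x2 : ∑ t ∈ range K, (D.kp T t).P.E (fun w => (x3 T dg U t w - m3 T dg U t w) ^ 2) ≤ (C : ℝ) * Lam
  y2 : ∑ t ∈ range K, (D.kp T t).P.E (fun w => (y3 T dg U t w - m3 T dg U t w) ^ 2) ≤ (C : ℝ) * Lam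
  syn : ∑ t ∈ range K, (D.kp T t).P.E (fun w => ind (|m3 T dg U t w| ≤ 1 / 2) *
    (z3 T dg U t w - poe (m3 T dg U t w) (x3 T dg U t w) (y3 T dg U t w)) ^ 2) ≤ (C : ℝ) * Lam ^ C * n ^ (-κ)

end defs

/-- THEOREM 3 with the exponent `κ` -/
def Thm3 (κ : ℝ) : Prop :=
  ∃ C : ℕ, ∀ (X β γ ι φ : Type) [Fintype X] [Fintype β] [Fintype γ] [Fintype φ] [Nonempty X] [Nonempty β] [Nonempty γ]
    (D : Dat X β γ ι φ) (al : ℝ) (T : D.Thick al) (dg : ℕ → X → ℝ) (prf prg : ℕ → φ → φ) (K : ℕ) (Lam n : ℝ),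
    Hyp3 D dg prf prg al K Lam → (2 * Lam) ^ C ≤ n →
    ∃ U : ℕ → X → β → γ → Finset X, Concl3 T dg K Lam n κ C U

end

end Pool.Agent.M3.S3
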