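import Pool.Agent.M3.Mix
import Pool.Agent.M3.NVD
import Pool.Agent.M3.S3.Thm3

/-!
# M3.S3.MdlDef: the model of section 0 in product form, definitions (helper34)

View `i`, known vertices `j`, `l`, raw model `Sp k N 3 Θ Ξ`.  TOP `τ = (θ, z) : Θ × V k`, `z = v i + w` (= `(Zn i N ω).1`).
Given the top the sample point is `(x, b, c)`, `x = (ξ i, w) : XM = Ξ × Fin (2^N)`, `b = vx j`, `c = vx l : YM = Ξ × V k`.
* `tpM i ω`, `xM i ω` : top, hidden point; `ptM i j τ x b c` = the sample point; `topEquiv`;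
* `qaM N t x = (w / 2^(N-t), 0)`, `qbM N h t b = (0, flr (ex N t - (h+3)) b.2)` : the cells, values in `ℕ × V k`;
* `dgM N t x` : the digit of the step `t → t+1`;
* `Qn_iff` : same public node iff same top and same cells.
-/

set_option autoImplicit false
set_option linter.unusedSectionVars false

namespace Pool.Agent.M3.Mod

open Finset Pool.Agent.PWZ Pool.Agent.M3.Bin Pool.Agent.M3

noncomputable section

variable {k N : ℕ} {Θ Ξ : Type}

/-- hidden points of a top -/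
abbrev XM (N : ℕ) (Ξ : Type) := Ξ × Fin (2 ^ N)

/-- known points -/
abbrev YM (k : ℕ) (Ξ : Type) := Ξ × V k

/-- tops -/
abbrev TM (k : ℕ) (Θ : Type) := Θ × V k

/-- the top of a sample point -/
def tpM (i : Fin 3) (ω : Sp k N 3 Θ Ξ) : TM k Θ := (th ω, (vx i ω).2 + (nz ω : V k))

/-- the hidden point of a sample point -/
def xM (i : Fin 3) (ω : Sp k N 3 Θ Ξ) : XM N Ξ := ((vx i ω).1, ω.2.2)

/-- the sample point of a top, a hidden point and two known points -/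
def ptM (i j : Fin 3) (τ : TM k Θ) (x : XM N Ξ) (b c : YM k Ξ) : Sp k N 3 Θ Ξ :=
  (τ.1, fun a => if a = i then (x.1, τ.2 - ((x.2.val : ℕ) : V k)) else if a = j then b else c, x.2)

/-- position of the hidden point at the time `t` -/
def qaM (k N : ℕ) {Ξ : Type} (t : ℕ) (x : XM N Ξ) : ℕ × V k := (x.2.val / 2 ^ ex N t, 0)

/-- cell of a known point at the time `t` -/
def qbM (N h : ℕ) {k : ℕ} {Ξ : Type} (t : ℕ) (b : YM k Ξ) : ℕ × V k := (0, flr (ex N t - (h + 3)) b.2)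

/-- digit of the step `t → t+1` -/
def dgM (N : ℕ) {Ξ : Type} (t : ℕ) (x : XM N Ξ) : ℝ := dg (ex N (t + 1)) x.2.val

variable {i j l : Fin 3}

theorem th_ptM (τ : TM k Θ) (x : XM N Ξ) (b c : YM k Ξ) : th (ptM i j τ x b c) = τ.1 := rfl

theorem nz_ptM (τ : TM k Θ) (x : XM N Ξ) (b c : YM k Ξ) : nz (ptM i j τ x b c) = x.2.val := rfl

theorem vi_ptM (τ : TM k Θ) (x : XM N Ξ) (b c : YM k Ξ) :
    vx i (ptM i j τ x b c) = (x.1, τ.2 - ((x.2.val : ℕ) : V k)) := by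
  unfold vx ptM
  simp

theorem vj_ptM (hij : j ≠ i) (τ : TM k Θ) (x : XM N Ξ) (b c : YM k Ξ) : vx j (ptM i j τ x b c) = b := by
  unfold vx ptM
  simp [hij]

theorem vl_ptM (hli : l ≠ i) (hlj : l ≠ j) (τ : TM k Θ) (x : XM N Ξ) (b c : YM k Ξ) :
    vx l (ptM i j τ x b c) = c := by
  unfold vx ptM
  simp [hli, hlj]

theorem tp_ptM (τ : TM k Θ) (x : XM N Ξ) (b c : YM k Ξ) : tpM i (ptM i j τ x b c) = τ := by
  unfold tpM
  rw [vi_ptM, nz_ptM, th_ptM]
  refine Prod.ext rfl ?_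
  show τ.2 - ((x.2.val : ℕ) : V k) + ((x.2.val : ℕ) : V k) = τ.2
  abel

theorem x_ptM (τ : TM k Θ) (x : XM N Ξ) (b c : YM k Ξ) : xM i (ptM i j τ x b c) = x := by
  unfold xM
  rw [vi_ptM]
  rfl

theorem ptM_eq (hij : j ≠ i) (hli : l ≠ i) (hlj : l ≠ j) (ω : Sp k N 3 Θ Ξ) :
    ptM i j (tpM i ω) (xM i ω) (vx j ω) (vx l ω) = ω := by
  refine Prod.ext rfl (Prod.ext ?_ rfl)
  funext a
  show (if a = i then ((xM i ω).1, (tpM i ω).2 - (((xM i ω).2.val : ℕ) : V k)) else if a = j then vx j ω else vx l ω) =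
    ω.2.1 a
  rcases fin3_cover3 hij hli hlj a with h | h | h
  · subst h
    rw [if_pos rfl]
    refine Prod.ext rfl ?_
    show (vx a ω).2 + (nz ω : V k) - (((xM a ω).2.val : ℕ) : V k) = (ω.2.1 a).2
    have : (((xM a ω).2.val : ℕ) : V k) = (nz ω : V k) := rfl
    rw [this]
    unfold vx
    abel
  · subst h
    rw [if_neg hij, if_pos rfl]
    rfl
  · subst h
    rw [if_neg hli, if_neg hlj]
    rfl

/-- THE PRODUCT FORM of the sample space -/
def topEquiv (hij : j ≠ i) (hli : l ≠ i) (hlj : l ≠ j) :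
    Sp k N 3 Θ Ξ ≃ TM k Θ × (XM N Ξ × YM k Ξ × YM k Ξ) where
  toFun ω := (tpM i ω, xM i ω, vx j ω, vx l ω)
  invFun q := ptM i j q.1 q.2.1 q.2.2.1 q.2.2.2
  left_inv ω := ptM_eq hij hli hlj ω
  right_inv q := by
    obtain ⟨τ, x, b, c⟩ := q
    refine Prod.ext (tp_ptM τ x b c) (Prod.ext (x_ptM τ x b c) (Prod.ext (vj_ptM hij τ x b c) (vl_ptM hli hlj τ x b c)))

/-- the path of the view in terms of the top -/
theorem Zn_top {e : ℕ} (ω : Sp k N 3 Θ Ξ) :
    Zn i e ω = ((tpM i ω).2 - ((nz ω / 2 ^ e * 2 ^ e : ℕ) : V k), nz ω / 2 ^ e) := by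
  unfold Zn nd tpM
  refine Prod.ext ?_ rfl
  show (vx i ω).2 + ((nz ω % 2 ^ e : ℕ) : V k) = (vx i ω).2 + (nz ω : V k) - ((nz ω / 2 ^ e * 2 ^ e : ℕ) : V k)
  have h1 : ((nz ω : ℕ) : V k) = ((nz ω / 2 ^ e * 2 ^ e + nz ω % 2 ^ e : ℕ) : V k) := by
    rw [Nat.div_add_mod']
  rw [h1]
  push_cast
  abel

/-- same public node iff same top and same cells -/
theorem Qn_iff (hij : j ≠ i) (hli : l ≠ i) (hlj : l ≠ j) (h t : ℕ) (v w : Sp k N 3 Θ Ξ) :
    Qn i h (ex N t) v = Qn i h (ex N t) w ↔ tpM i v = tpM i w ∧ qaM k N t (xM i v) = qaM k N t (xM i w) ∧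
      qbM N h t (vx j v) = qbM N h t (vx j w) ∧ qbM N h t (vx l v) = qbM N h t (vx l w) := by
  unfold Qn qaM qbM
  constructor
  · intro hq
    simp only [Prod.mk.injEq] at hq
    obtain ⟨h1, h2, h3⟩ := hq
    rw [Zn_top (e := ex N t) v, Zn_top (e := ex N t) w] at h2
    simp only [Prod.mk.injEq] at h2
    refine ⟨Prod.ext h1 ?_, ?_, ?_, ?_⟩
    · have h4 := h2.1
      rw [h2.2] at h4
      exact sub_left_injective h4
    · exact Prod.ext h2.2 rfl
    · exact Prod.ext rfl (congrFun h3 ⟨j, hij⟩)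
    · exact Prod.ext rfl (congrFun h3 ⟨l, hli⟩)
  · rintro ⟨h1, h2, h3, h4⟩
    have h2' : nz v / 2 ^ ex N t = nz w / 2 ^ ex N t := (Prod.mk.inj h2).1
    refine Prod.ext (Prod.mk.inj h1).1 (Prod.ext ?_ ?_)
    · rw [Zn_top (e := ex N t) v, Zn_top (e := ex N t) w, h1, h2']
    · funext a
      rcases fin3_cover3 hij hli hlj a.1 with h5 | h5 | h5
      · exact absurd h5 a.2
      · show flr (ex N t - (h + 3)) (vx a.1 v).2 = flr (ex N t - (h + 3)) (vx a.1 w).2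
        rw [h5]
        exact (Prod.mk.inj h3).2
      · show flr (ex N t - (h + 3)) (vx a.1 v).2 = flr (ex N t - (h + 3)) (vx a.1 w).2
        rw [h5]
        exact (Prod.mk.inj h4).2

theorem Dg_top (t : ℕ) (ω : Sp k N 3 Θ Ξ) : Dg (ex N (t + 1)) ω = dgM N t (xM i ω) := rfl

end

end Pool.Agent.M3.Mod
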