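import Pool.Agent.M3.S3.Doob

/-!
# M3.S3.CntChg: counts of the tests (h2) and (s2) (helper94; stub by helper15)

PROOF (3445 (5)).  BOX: the tests are functions of the node at `s+1`, the epoch and the class are public, and `(b,c)` is
uniform in `B_(s+1) x C_(s+1)` given the node and `x` (`box_H2`, `box_S2`), so
`kap E 1[hit at s] ≤ E 1[hit at s] (chg of the TRUE pair (b,c))`.
(s2): the updates of the true pair in different epochs are different (`upd_path`).
(h2): for fixed `(b,c)` the law of the labels of the time `t0` on the class of the point is a martingale; Doob with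
restarts in pathwise form (`tel_path`): `rr`, `rp` = displacement before and after the step, `mm` = largest displacement;
`aa` = no update of the true pair.  The collision probability `cpr` of the current labels is `≤ 1`, increases by the
variance of the step, and falls by at most `1` for every update (`sum_dc`).
* `UpdOk`, `cnt_S2`, `cnt_H2`; `updC`, `updC_ok` : canonical counters (number of changes of the kernel on the cell).
-/

set_option autoImplicit false
set_option linter.unusedSectionVars false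

namespace Pool.Agent.M3.S3

open Finset Pool.Agent.PWZ Pool.Agent.M3

noncomputable section

variable {X β γ ι φ : Type*} [Fintype X] [Fintype β] [Fintype γ] [Fintype φ]

/-- hypotheses on the counters of the updates -/
structure UpdOk (D : Dat X β γ ι φ) (Up : Upd D) (K : ℕ) (J : ℝ) : Prop where
  f_mono : ∀ t x b c, Up.cf t x b c ≤ Up.cf (t + 1) x b c
  g_mono : ∀ t x b c, Up.cg t x b c ≤ Up.cg (t + 1) x b c
  f_le : ∀ x b c, (Up.cf K x b c : ℝ) ≤ J
  g_le : ∀ x b c, (Up.cg K x b c : ℝ) ≤ J
  f_eq : ∀ t x b c y, D.qa (t + 1) y = D.qa (t + 1) x → Up.cf (t + 1) x b c = Up.cf t x b c →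
    D.kf (t + 1) y b c = D.kf t y b c
  g_eq : ∀ t x b c y, D.qa (t + 1) y = D.qa (t + 1) x → Up.cg (t + 1) x b c = Up.cg t x b c →
    D.kg (t + 1) y b c = D.kg t y b c

variable {D : Dat X β γ ι φ}

/-! ## laws and distances -/

/-- kernel of the pair of labels of the time `t` -/
def kk (D : Dat X β γ ι φ) (t : ℕ) (b : β) (c : γ) (z : X) (q : φ × φ) : ℝ := D.kf t z b c q.1 * D.kg t z b c q.2

theorem dst_eq (t : ℕ) (b : β) (c : γ) (K K' : Finset X) : dst D t b c K K' b c =
    nsq (fun q : φ × φ => avg K (fun z => kk D t b c z q) - avg K' (fun z => kk D t b c z q)) := by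
  unfold dst nsq pl kk
  rw [Fintype.sum_prod_type]

theorem dst_nonneg (t : ℕ) (b : β) (c : γ) (K K' : Finset X) (b' : β) (c' : γ) : 0 ≤ dst D t b c K K' b' c' :=
  Finset.sum_nonneg fun _ _ => Finset.sum_nonneg fun _ _ => sq_nonneg _

theorem dst_self (t : ℕ) (b : β) (c : γ) (K : Finset X) (b' : β) (c' : γ) : dst D t b c K K b' c' = 0 := by
  unfold dst
  simp

theorem md_start {R : Rm D} {e : Epo X} {s : ℕ} (h : s ≤ e.t0) (x : X) (b : β) (c : γ) (b' : β) (c' : γ) :
    md R e s x b c b' c' = 0 := by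
  cases s with
  | zero => rfl
  | succ s =>
    show (if s + 1 ≤ e.t0 then (0 : ℝ) else _) = 0
    rw [if_pos h]

theorem md_succ {R : Rm D} {e : Epo X} {s : ℕ} (h : e.t0 ≤ s) (x : X) (b : β) (c : γ) (b' : β) (c' : γ) :
    md R e (s + 1) x b c b' c' =
      max (md R e s x b c b' c') (dst D e.t0 b c (R.om e (s + 1) x b c) e.om0 b' c') := by
  show (if s + 1 ≤ e.t0 then (0 : ℝ) else _) = _
  rw [if_neg (by omega)]

theorem md_nonneg {R : Rm D} {e : Epo X} (s : ℕ) (x : X) (b : β) (c : γ) (b' : β) (c' : γ) :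
    0 ≤ md R e s x b c b' c' := by
  induction s with
  | zero => exact le_rfl
  | succ s ih =>
    rcases Nat.lt_or_ge s e.t0 with h | h
    · rw [md_start (by omega)]
    · rw [md_succ h]
      exact le_max_of_le_left ih

section bounds

variable {al : ℝ} (T : D.Thick al)

include T

theorem pl_nonneg (t : ℕ) (b : β) (c : γ) (K : Finset X) (b' : β) (c' : γ) (F G : φ) :
    0 ≤ pl D t b c K b' c' F G :=
  div_nonneg (Finset.sum_nonneg fun _ _ => mul_nonneg (T.f_nn _ _ _ _ _) (T.g_nn _ _ _ _ _)) (Nat.cast_nonneg _)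

theorem sum_pl_le (t : ℕ) (b : β) (c : γ) (K : Finset X) (b' : β) (c' : γ) :
    ∑ F, ∑ G, pl D t b c K b' c' F G ≤ 1 := by
  have h1 : ∑ F, ∑ G, pl D t b c K b' c' F G = avg K (fun _ => (1 : ℝ)) := by
    unfold pl
    have e1 : ∀ F, ∑ G, avg K (fun y => D.kf t y b' c F * D.kg t y b c' G) =
        avg K (fun y => D.kf t y b' c F) := by
      intro F
      rw [← avg_sum_comm]
      congr 1
      funext y
      rw [← Finset.mul_sum, T.g_one, mul_one]
    rw [Finset.sum_congr rfl fun F _ => e1 F, ← avg_sum_comm]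
    congr 1
    funext y
    exact T.f_one _ _ _ _
  rw [h1]
  exact avg_le_const zero_le_one fun _ _ => le_rfl

theorem sq_pl_le (t : ℕ) (b : β) (c : γ) (K : Finset X) (b' : β) (c' : γ) :
    ∑ F, ∑ G, pl D t b c K b' c' F G ^ 2 ≤ 1 := by
  refine le_trans (Finset.sum_le_sum fun F _ => Finset.sum_le_sum fun G _ => ?_) (sum_pl_le T t b c K b' c')
  have h0 := pl_nonneg T t b c K b' c' F G
  have h1 : pl D t b c K b' c' F G ≤ 1 := by
    refine le_trans ?_ (sum_pl_le T t b c K b' c')
    refine le_trans ?_ (Finset.single_le_sum (f := fun F => ∑ G, pl D t b c K b' c' F G)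
      (fun F _ => Finset.sum_nonneg fun G _ => pl_nonneg T t b c K b' c' F G) (Finset.mem_univ F))
    exact Finset.single_le_sum (f := fun G => pl D t b c K b' c' F G)
      (fun G _ => pl_nonneg T t b c K b' c' F G) (Finset.mem_univ G)
  nlinarith

theorem dst_le_two (t : ℕ) (b : β) (c : γ) (K K' : Finset X) (b' : β) (c' : γ) : dst D t b c K K' b' c' ≤ 2 := by
  have h1 : dst D t b c K K' b' c' ≤ ∑ F, ∑ G, (pl D t b c K b' c' F G ^ 2 + pl D t b c K' b' c' F G ^ 2) := by
    unfold dst
    refine Finset.sum_le_sum fun F _ => Finset.sum_le_sum fun G _ => ?_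
    nlinarith [pl_nonneg T t b c K b' c' F G, pl_nonneg T t b c K' b' c' F G,
      mul_nonneg (pl_nonneg T t b c K b' c' F G) (pl_nonneg T t b c K' b' c' F G)]
  have h2 : ∑ F, ∑ G, (pl D t b c K b' c' F G ^ 2 + pl D t b c K' b' c' F G ^ 2) =
      ∑ F, ∑ G, pl D t b c K b' c' F G ^ 2 + ∑ F, ∑ G, pl D t b c K' b' c' F G ^ 2 := by
    rw [← Finset.sum_add_distrib]
    exact Finset.sum_congr rfl fun F _ => Finset.sum_add_distrib
  linarith [sq_pl_le T t b c K b' c', sq_pl_le T t b c K' b' c']

theorem md_le_two {R : Rm D} {e : Epo X} (s : ℕ) (x : X) (b : β) (c : γ) (b' : β) (c' : γ) :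
    md R e s x b c b' c' ≤ 2 := by
  induction s with
  | zero =>
    show (0 : ℝ) ≤ 2
    norm_num
  | succ s ih =>
    rcases Nat.lt_or_ge s e.t0 with h | h
    · rw [md_start (by omega)]
      norm_num
    · rw [md_succ h]
      exact max_le ih (dst_le_two T _ _ _ _ _ _ _)

end bounds

/-! ## the counters -/

section counters

variable {Up : Upd D} {K : ℕ} {J : ℝ} (hU : UpdOk D Up K J)

include hU

theorem UpdOk.cf_le {s t : ℕ} (h : s ≤ t) (x : X) (b : β) (c : γ) : Up.cf s x b c ≤ Up.cf t x b c := by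
  induction t, h using Nat.le_induction with
  | base => exact le_rfl
  | succ n _ ih => exact ih.trans (hU.f_mono n x b c)

theorem UpdOk.cg_le {s t : ℕ} (h : s ≤ t) (x : X) (b : β) (c : γ) : Up.cg s x b c ≤ Up.cg t x b c := by
  induction t, h using Nat.le_induction with
  | base => exact le_rfl
  | succ n _ ih => exact ih.trans (hU.g_mono n x b c)

/-- no update: the kernels are the same -/
theorem UpdOk.kf_eq {s t : ℕ} (h : s ≤ t) {x : X} {b : β} {c : γ} (he : Up.cf t x b c = Up.cf s x b c) {y : X}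
    (hy : D.qa t y = D.qa t x) : D.kf t y b c = D.kf s y b c := by
  induction t, h using Nat.le_induction with
  | base => rfl
  | succ n hn ih =>
    have h1 := hU.f_mono n x b c
    have h2 := hU.cf_le hn x b c
    have h3 : Up.cf (n + 1) x b c = Up.cf n x b c := by omega
    rw [hU.f_eq n x b c y hy h3]
    exact ih (by omega) (D.ra n y x hy)

theorem UpdOk.kg_eq {s t : ℕ} (h : s ≤ t) {x : X} {b : β} {c : γ} (he : Up.cg t x b c = Up.cg s x b c) {y : X}
    (hy : D.qa t y = D.qa t x) : D.kg t y b c = D.kg s y b c := by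
  induction t, h using Nat.le_induction with
  | base => rfl
  | succ n hn ih =>
    have h1 := hU.g_mono n x b c
    have h2 := hU.cg_le hn x b c
    have h3 : Up.cg (n + 1) x b c = Up.cg n x b c := by omega
    rw [hU.g_eq n x b c y hy h3]
    exact ih (by omega) (D.ra n y x hy)

end counters

/-- number of updates of the true pair in the step from `s` to `s+1` -/
def du (Up : Upd D) (s : ℕ) (x : X) (b : β) (c : γ) : ℝ :=
  ((Up.cf (s + 1) x b c : ℝ) - Up.cf s x b c) + ((Up.cg (s + 1) x b c : ℝ) - Up.cg s x b c)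

theorem du_nonneg {Up : Upd D} {K : ℕ} {J : ℝ} (hU : UpdOk D Up K J) (s : ℕ) (x : X) (b : β) (c : γ) :
    0 ≤ du Up s x b c := by
  have h1 : (Up.cf s x b c : ℝ) ≤ Up.cf (s + 1) x b c := by exact_mod_cast hU.f_mono s x b c
  have h2 : (Up.cg s x b c : ℝ) ≤ Up.cg (s + 1) x b c := by exact_mod_cast hU.g_mono s x b c
  unfold du
  linarith

theorem du_ge_one {Up : Upd D} {K : ℕ} {J : ℝ} (hU : UpdOk D Up K J) {s : ℕ} {x : X} {b : β} {c : γ}
    (h : Up.cf (s + 1) x b c ≠ Up.cf s x b c ∨ Up.cg (s + 1) x b c ≠ Up.cg s x b c) : 1 ≤ du Up s x b c := by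
  have h1 := hU.f_mono s x b c
  have h2 := hU.g_mono s x b c
  have h3 : Up.cf s x b c + Up.cg s x b c + 1 ≤ Up.cf (s + 1) x b c + Up.cg (s + 1) x b c := by
    rcases h with h | h <;> omega
  have h4 : (Up.cf s x b c : ℝ) + Up.cg s x b c + 1 ≤ Up.cf (s + 1) x b c + Up.cg (s + 1) x b c := by
    exact_mod_cast h3
  unfold du
  linarith

theorem sum_du {Up : Upd D} {K : ℕ} {J : ℝ} (hU : UpdOk D Up K J) (x : X) (b : β) (c : γ) :
    ∑ s ∈ range K, du Up s x b c ≤ 2 * J := by
  have h1 : ∀ m, ∑ s ∈ range m, du Up s x b c =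
      ((Up.cf m x b c : ℝ) - Up.cf 0 x b c) + ((Up.cg m x b c : ℝ) - Up.cg 0 x b c) := by
    intro m
    induction m with
    | zero => simp
    | succ m ih =>
      rw [Finset.sum_range_succ, ih]
      unfold du
      ring
  rw [h1]
  have h2 : (0 : ℝ) ≤ Up.cf 0 x b c := Nat.cast_nonneg _
  have h3 : (0 : ℝ) ≤ Up.cg 0 x b c := Nat.cast_nonneg _
  linarith [hU.f_le x b c, hU.g_le x b c]

theorem upd_start {Up : Upd D} {e : Epo X} {s : ℕ} (h : e.t0 = s) (x : X) (b : β) (c : γ) :
    ¬ upd Up e s x b c b c := by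
  unfold upd
  rw [h]
  simp

theorem upd_step {Up : Upd D} {K : ℕ} {J : ℝ} (hU : UpdOk D Up K J) (e : Epo X) (s : ℕ) (x : X) (b : β) (c : γ) :
    ind (upd Up e s x b c b c ∨ upd Up e (s + 1) x b c b c) ≤ ind (upd Up e s x b c b c) + du Up s x b c := by
  by_cases h : upd Up e s x b c b c
  · rw [ind_of (Or.inl h), ind_of h]
    linarith [du_nonneg hU s x b c]
  · by_cases h' : upd Up e (s + 1) x b c b c
    · rw [ind_of (Or.inr h'), ind_not h]
      have h1 : Up.cf (s + 1) x b c ≠ Up.cf s x b c ∨ Up.cg (s + 1) x b c ≠ Up.cg s x b c := by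
        unfold upd at h h'
        push Not at h
        rw [h.1, h.2]
        exact h'
      linarith [du_ge_one hU h1]
    · rw [ind_not (not_or.2 ⟨h, h'⟩), ind_not h]
      linarith [du_nonneg hU s x b c]

section process

variable (R : Rl D) {Up : Upd D} {N : Nums}

theorem pubx {s : ℕ} {x y : X} {b : β} {c : γ} (hy : y ∈ R.U s x b c) :
    R.ep s y b c = R.ep s x b c ∧ R.U s y b c = R.U s x b c :=
  R.pub s ⟨(D.mem_cA.1 (R.U_sub s x b c hy)).symm, rfl, rfl⟩ hy

theorem same_x {s : ℕ} {x y : X} {b : β} {c : γ} (hy : y ∈ R.U s x b c) : D.Same s x b c y b c :=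
  ⟨(D.mem_cA.1 (R.U_sub s x b c hy)).symm, rfl, rfl⟩

/-- the updates in different epochs are different -/
theorem upd_path {K : ℕ} {J : ℝ} (hU : UpdOk D Up K J) (x : X) (b : β) (c : γ) (m : ℕ) :
    ∑ s ∈ range m, ind (R.nw (R.ep s x b c) s x b c) *
      ind (upd Up (R.ep s x b c) s x b c b c ∨ upd Up (R.ep s x b c) (s + 1) x b c b c) +
      ind (upd Up (R.ep m x b c) m x b c b c) ≤ ∑ s ∈ range m, du Up s x b c := by
  induction m with
  | zero =>
    have h0 := R.t0_le 0 x b c
    rw [ind_not (upd_start (by omega) x b c)]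
    simp
  | succ m ih =>
    rw [Finset.sum_range_succ, Finset.sum_range_succ]
    have h1 := upd_step hU (R.ep m x b c) m x b c
    by_cases hn : R.nw (R.ep m x b c) m x b c
    · have h2 : (R.ep (m + 1) x b c).t0 = m + 1 := by rw [R.ep_new hn]
      rw [ind_of hn, ind_not (upd_start h2 x b c)]
      linarith
    · rw [ind_not hn, R.ep_old hn]
      have h3 : ind (upd Up (R.ep m x b c) (m + 1) x b c b c) ≤
          ind (upd Up (R.ep m x b c) m x b c b c ∨ upd Up (R.ep m x b c) (m + 1) x b c b c) := ind_mono Or.inr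
      linarith

/-- classes of the next time in the class -/
theorem U_POn (s : ℕ) (x : X) (b : β) (c : γ) : POn (R.U s x b c) (fun y => R.U (s + 1) y b c) where
  self y _ := R.self_U (s + 1) y b c
  sub y hy := by
    rw [← (pubx R hy).2]
    exact R.U_succ_sub s y b c
  pub y _ z hz := (pubx R hz).2

/-- classes of the next time in the half step class -/
theorem hcl_POn (s : ℕ) (x : X) (b : β) (c : γ) : POn (hcl R s x b c) (fun y => R.U (s + 1) y b c) where
  self y _ := R.self_U (s + 1) y b c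
  sub y hy := by
    have h1 := (mem_hcl R).1 hy
    rw [← hcl_pub R s ⟨h1.2.symm, rfl, rfl⟩ h1.1]
    exact U_sub_hcl R s y b c
  pub y _ z hz := (pubx R hz).2

/-- squared displacement of the class `K` from the start of the epoch, true pair, labels of the start -/
def dd (s : ℕ) (x : X) (b : β) (c : γ) (K : Finset X) : ℝ :=
  dst D (R.ep s x b c).t0 b c K (R.ep s x b c).om0 b c

/-- displacement at the time `s` -/
def rr (s : ℕ) (x : X) (b : β) (c : γ) : ℝ := Real.sqrt (dd R s x b c (R.U s x b c))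

/-- displacement at the time `s+1` from the start of the epoch of the time `s` -/
def rp (s : ℕ) (x : X) (b : β) (c : γ) : ℝ := Real.sqrt (dd R s x b c (R.U (s + 1) x b c))

/-- largest displacement up to the time `s` -/
def mm (s : ℕ) (x : X) (b : β) (c : γ) : ℝ := Real.sqrt (md R.toRm (R.ep s x b c) s x b c b c)

/-- no update of the true pair in the epoch -/
def aa (Up : Upd D) (s : ℕ) (x : X) (b : β) (c : γ) : ℝ := ind (¬ upd Up (R.ep s x b c) s x b c b c)

theorem rr_sq (s : ℕ) (x : X) (b : β) (c : γ) : rr R s x b c ^ 2 = dd R s x b c (R.U s x b c) :=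
  Real.sq_sqrt (dst_nonneg _ _ _ _ _ _ _)

theorem rp_sq (s : ℕ) (x : X) (b : β) (c : γ) : rp R s x b c ^ 2 = dd R s x b c (R.U (s + 1) x b c) :=
  Real.sq_sqrt (dst_nonneg _ _ _ _ _ _ _)

theorem mm_sq (s : ℕ) (x : X) (b : β) (c : γ) : mm R s x b c ^ 2 = md R.toRm (R.ep s x b c) s x b c b c :=
  Real.sq_sqrt (md_nonneg _ _ _ _ _ _)

theorem aa_nonneg (s : ℕ) (x : X) (b : β) (c : γ) : 0 ≤ aa R Up s x b c := ind_nonneg _

theorem mm_cls (s : ℕ) {x y : X} {b : β} {c : γ} (hy : y ∈ R.U s x b c) : mm R s y b c = mm R s x b c := by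
  unfold mm
  rw [(pubx R hy).1, md_inv (R.t0_le s x b c) (same_x R hy)]

theorem aa_cls (s : ℕ) {x y : X} {b : β} {c : γ} (hy : y ∈ R.U s x b c) : aa R Up s y b c = aa R Up s x b c := by
  unfold aa
  rw [(pubx R hy).1, upd_inv (R.t0_le s x b c) (same_x R hy)]

theorem rr_cls (s : ℕ) {x y : X} {b : β} {c : γ} (hy : y ∈ R.U s x b c) : rr R s y b c = rr R s x b c := by
  unfold rr dd
  rw [(pubx R hy).1, (pubx R hy).2]

/-- a new epoch: everything starts at `0` -/
theorem start_zero {s : ℕ} {x : X} {b : β} {c : γ} (h : (R.ep s x b c).t0 = s) :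
    mm R s x b c = 0 ∧ rr R s x b c = 0 := by
  constructor
  · unfold mm
    rw [md_start (by rw [h]), Real.sqrt_zero]
  · unfold rr dd
    have h1 : R.U s x b c = (R.ep s x b c).om0 := by
      unfold Rl.U
      exact R.om_old (by rw [h]) x b c
    rw [h1, dst_self, Real.sqrt_zero]

/-- the epoch goes on -/
theorem keep_step {s : ℕ} {x : X} {b : β} {c : γ} (hn : ¬ R.nw (R.ep s x b c) s x b c) :
    mm R (s + 1) x b c = max (mm R s x b c) (rp R s x b c) ∧ rr R (s + 1) x b c = rp R s x b c := by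
  have h1 : R.U (s + 1) x b c = R.om (R.ep s x b c) (s + 1) x b c := R.U_keep hn
  constructor
  · unfold mm rp dd
    rw [R.ep_old hn, md_succ (R.t0_le s x b c), h1]
    exact (show Monotone Real.sqrt from fun _ _ h => Real.sqrt_le_sqrt h).map_max
  · unfold rr rp dd
    rw [R.ep_old hn]

/-! ### martingale facts -/

theorem avg_sub_const {S : Finset X} (hS : S.Nonempty) (f : X → ℝ) (a : ℝ) :
    avg S (fun y => f y - a) = avg S f - a := by
  have h1 : (fun y => f y - a) = fun y => f y + (fun _ : X => -a) y := by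
    funext y
    ring
  rw [h1, avg_add, avg_const hS]
  ring

theorem U_ne (s : ℕ) (x : X) (b : β) (c : γ) : (R.U s x b c).Nonempty := ⟨x, R.self_U s x b c⟩

/-- the mean displacement does not decrease -/
theorem rr_le_avg (s : ℕ) (x : X) (b : β) (c : γ) :
    rr R s x b c ≤ avg (R.U s x b c) (fun y => rp R s y b c) := by
  have h1 := nrm_avg_le (S := R.U s x b c) (v := fun y (q : φ × φ) =>
    avg (R.U (s + 1) y b c) (fun z => kk D (R.ep s x b c).t0 b c z q) -
      avg (R.ep s x b c).om0 (fun z => kk D (R.ep s x b c).t0 b c z q))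
  have h2 : (fun q : φ × φ => avg (R.U s x b c) (fun y =>
      avg (R.U (s + 1) y b c) (fun z => kk D (R.ep s x b c).t0 b c z q) -
        avg (R.ep s x b c).om0 (fun z => kk D (R.ep s x b c).t0 b c z q))) =
      fun q => avg (R.U s x b c) (fun z => kk D (R.ep s x b c).t0 b c z q) -
        avg (R.ep s x b c).om0 (fun z => kk D (R.ep s x b c).t0 b c z q) := by
    funext q
    rw [avg_sub_const (U_ne R s x b c), (U_POn R s x b c).avg_avg]
  rw [h2] at h1
  unfold rr dd
  rw [dst_eq]
  refine h1.trans (le_of_eq (avg_congr' fun y hy => ?_))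
  unfold rp dd
  rw [dst_eq, (pubx R hy).1]

/-- the squared step, labels of the start of the epoch -/
def ds (s : ℕ) (x : X) (b : β) (c : γ) : ℝ :=
  dst D (R.ep s x b c).t0 b c (R.U (s + 1) x b c) (R.U s x b c) b c

/-- the squared step, current labels -/
def dc (s : ℕ) (x : X) (b : β) (c : γ) : ℝ := dst D s b c (R.U (s + 1) x b c) (R.U s x b c) b c

theorem avg_sq (s : ℕ) (x : X) (b : β) (c : γ) :
    avg (R.U s x b c) (fun y => rp R s y b c ^ 2 - rr R s y b c ^ 2) = avg (R.U s x b c) (fun y => ds R s y b c) := by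
  have h1 := pyth (U_ne R s x b c) (U_POn R s x b c) (fun z (q : φ × φ) => kk D (R.ep s x b c).t0 b c z q)
    (fun q => avg (R.ep s x b c).om0 (fun z => kk D (R.ep s x b c).t0 b c z q))
  have h2 : avg (R.U s x b c) (fun y => rp R s y b c ^ 2 - rr R s y b c ^ 2) =
      avg (R.U s x b c) (fun y => nsq (fun q : φ × φ =>
        avg (R.U (s + 1) y b c) (fun z => kk D (R.ep s x b c).t0 b c z q) -
        avg (R.ep s x b c).om0 (fun z => kk D (R.ep s x b c).t0 b c z q)) - rr R s x b c ^ 2) := by
    refine avg_congr' fun y hy => ?_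
    rw [rr_cls R s hy, rp_sq]
    unfold dd
    rw [dst_eq, (pubx R hy).1]
  have h3 : avg (R.U s x b c) (fun y => ds R s y b c) =
      avg (R.U s x b c) (fun y => nsq (fun q : φ × φ =>
        avg (R.U (s + 1) y b c) (fun z => kk D (R.ep s x b c).t0 b c z q) -
        avg (R.U s x b c) (fun z => kk D (R.ep s x b c).t0 b c z q))) := by
    refine avg_congr' fun y hy => ?_
    unfold ds
    rw [dst_eq, (pubx R hy).1, (pubx R hy).2]
  rw [h2, h3, avg_sub_const (U_ne R s x b c), h1, rr_sq]
  unfold dd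
  rw [dst_eq]
  ring

/-- `E aa m (r' - r) ≥ 0` -/
theorem E3_M1 (s : ℕ) : 0 ≤ E3 (fun x b c => (rp R s x b c - rr R s x b c) * (aa R Up s x b c * mm R s x b c)) := by
  rw [E3_cls (U_pv R s) (fun x b c y hy => by rw [aa_cls R s hy, mm_cls R s hy])]
  refine E3_nonneg fun x b c => mul_nonneg ?_ (mul_nonneg (aa_nonneg R s x b c) (Real.sqrt_nonneg _))
  have h1 : avg (R.U s x b c) (fun y => rp R s y b c - rr R s y b c) =
      avg (R.U s x b c) (fun y => rp R s y b c) - rr R s x b c := by
    rw [← avg_sub_const (U_ne R s x b c)]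
    exact avg_congr' fun y hy => by rw [rr_cls R s hy]
  rw [h1]
  linarith [rr_le_avg R s x b c]

/-- `E aa (r'^2 - r^2) = E aa ds` -/
theorem E3_M2 (s : ℕ) : E3 (fun x b c => (rp R s x b c ^ 2 - rr R s x b c ^ 2) * aa R Up s x b c) =
    E3 (fun x b c => ds R s x b c * aa R Up s x b c) := by
  have h1 := E3_cls (U_pv R s) (f := fun x b c => rp R s x b c ^ 2 - rr R s x b c ^ 2) (w := aa R Up s)
    (fun x b c y hy => aa_cls R s hy)
  have h2 := E3_cls (U_pv R s) (f := ds R s) (w := aa R Up s) (fun x b c y hy => aa_cls R s hy)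
  rw [h1, h2]
  congr 1
  funext x b c
  rw [avg_sq]

/-- the half step class: Jensen -/
theorem E3_M3 (s : ℕ) {w : X → β → γ → ℝ} (hw0 : ∀ x b c, 0 ≤ w x b c)
    (hw : ∀ x b c, ∀ y ∈ hcl R s x b c, w y b c = w x b c) :
    E3 (fun x b c => dd R s x b c (hcl R s x b c) * w x b c) ≤ E3 (fun x b c => rp R s x b c ^ 2 * w x b c) := by
  rw [E3_cls (hcl_pv R s) (f := fun x b c => rp R s x b c ^ 2) hw]
  refine E3_mono fun x b c => mul_le_mul_of_nonneg_right ?_ (hw0 x b c)
  have hne : (hcl R s x b c).Nonempty := ⟨x, R.self_hc s x b c⟩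
  have h1 := nsq_avg_le hne (hcl_POn R s x b c) (fun z (q : φ × φ) => kk D (R.ep s x b c).t0 b c z q)
    (fun q => avg (R.ep s x b c).om0 (fun z => kk D (R.ep s x b c).t0 b c z q))
  unfold dd
  rw [dst_eq]
  refine h1.trans (le_of_eq (avg_congr' fun y hy => ?_))
  rw [rp_sq]
  unfold dd
  rw [dst_eq, (pubx R ((mem_hcl R).1 hy).1).1]

/-! ### the collision probability -/

/-- collision probability of the current labels of the true pair -/
def cpr (s : ℕ) (x : X) (b : β) (c : γ) : ℝ :=
  nsq (fun q : φ × φ => avg (R.U s x b c) (fun z => kk D s b c z q))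

theorem cpr_step (s : ℕ) : E3 (fun x b c => dc R s x b c) =
    E3 (fun x b c => nsq (fun q : φ × φ => avg (R.U (s + 1) x b c) (fun z => kk D s b c z q))) -
      E3 (fun x b c => cpr R s x b c) := by
  rw [eq_sub_iff_add_eq, ← E3_add]
  rw [E3_mean (U_pv R s) (fun x b c => dc R s x b c + cpr R s x b c), E3_mean (U_pv R s)
    (fun x b c => nsq (fun q : φ × φ => avg (R.U (s + 1) x b c) (fun z => kk D s b c z q)))]
  congr 1
  funext x b c
  have h1 := pyth (U_ne R s x b c) (U_POn R s x b c) (fun z (q : φ × φ) => kk D s b c z q) (fun _ => 0)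
  simp only [sub_zero] at h1
  rw [h1, avg_add, add_comm]
  congr 1
  · rw [← avg_const (U_ne R s x b c) (nsq (fun q : φ × φ => avg (R.U s x b c) (fun z => kk D s b c z q)))]
    refine avg_congr' fun y hy => ?_
    unfold cpr
    rw [(pubx R hy).2]
  · refine avg_congr' fun y hy => ?_
    unfold dc
    rw [dst_eq, (pubx R hy).2]

variable {K : ℕ} {J : ℝ} (hU : UpdOk D Up K J)

include hU

theorem aa_ds_le (s : ℕ) (x : X) (b : β) (c : γ) : ds R s x b c * aa R Up s x b c ≤ dc R s x b c := by
  have hdc : 0 ≤ dc R s x b c := dst_nonneg _ _ _ _ _ _ _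
  by_cases h : upd Up (R.ep s x b c) s x b c b c
  · have h1 : aa R Up s x b c = 0 := ind_not (not_not.2 h)
    rw [h1, mul_zero]
    exact hdc
  · have h1 : aa R Up s x b c = 1 := ind_of h
    rw [h1, mul_one]
    unfold upd at h
    push Not at h
    have ht := R.t0_le s x b c
    have hk : ∀ z ∈ R.U s x b c, kk D (R.ep s x b c).t0 b c z = kk D s b c z := by
      intro z hz
      have hq : D.qa s z = D.qa s x := D.mem_cA.1 (R.U_sub s x b c hz)
      funext q
      unfold kk
      rw [hU.kf_eq ht h.1 hq, hU.kg_eq ht h.2 hq]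
    have hk' : ∀ z ∈ R.U (s + 1) x b c, kk D (R.ep s x b c).t0 b c z = kk D s b c z := fun z hz =>
      hk z (R.U_succ_sub s x b c hz)
    unfold ds dc
    rw [dst_eq, dst_eq]
    refine le_of_eq ?_
    congr 1
    funext q
    rw [avg_congr' fun z hz => congrFun (hk z hz) q, avg_congr' fun z hz => congrFun (hk' z hz) q]

theorem sum_dc {al : ℝ} (T : D.Thick al) (hJ : 0 ≤ J) :
    ∑ s ∈ range K, E3 (fun x b c => dc R s x b c) ≤ 1 + 2 * J := by
  have hcpr : ∀ s t x b c, nsq (fun q : φ × φ => avg (R.U s x b c) (fun z => kk D t b c z q)) ≤ 1 := by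
    intro s t x b c
    have h1 := sq_pl_le T t b c (R.U s x b c) b c
    unfold nsq
    rw [Fintype.sum_prod_type]
    exact h1
  have hcpr0 : ∀ s t x b c, 0 ≤ nsq (fun q : φ × φ => avg (R.U s x b c) (fun z => kk D t b c z q)) := fun _ _ _ _ _ =>
    nsq_nonneg _
  have hstep : ∀ s x b c, nsq (fun q : φ × φ => avg (R.U (s + 1) x b c) (fun z => kk D s b c z q)) ≤
      cpr R (s + 1) x b c + du Up s x b c := by
    intro s x b c
    by_cases h : Up.cf (s + 1) x b c = Up.cf s x b c ∧ Up.cg (s + 1) x b c = Up.cg s x b c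
    · have h1 : nsq (fun q : φ × φ => avg (R.U (s + 1) x b c) (fun z => kk D s b c z q)) =
          cpr R (s + 1) x b c := by
        unfold cpr
        congr 1
        funext q
        refine avg_congr' fun z hz => ?_
        have hq : D.qa (s + 1) z = D.qa (s + 1) x := D.mem_cA.1 (R.U_sub (s + 1) x b c hz)
        unfold kk
        rw [hU.f_eq s x b c z hq h.1, hU.g_eq s x b c z hq h.2]
      rw [h1]
      linarith [du_nonneg hU s x b c]
    · have h1 : 1 ≤ du Up s x b c := du_ge_one hU (by
        by_contra hc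
        push Not at hc
        exact h hc)
      have h2 : 0 ≤ cpr R (s + 1) x b c := nsq_nonneg _
      linarith [hcpr (s + 1) s x b c]
  have hind : ∀ m, ∑ s ∈ range m, E3 (fun x b c => dc R s x b c) ≤
      E3 (fun x b c => cpr R m x b c) - E3 (fun x b c => cpr R 0 x b c) +
        ∑ s ∈ range m, E3 (fun x b c => du Up s x b c) := by
    intro m
    induction m with
    | zero => simp
    | succ m ih =>
      rw [Finset.sum_range_succ, Finset.sum_range_succ, cpr_step]
      have h1 : E3 (fun x b c => nsq (fun q : φ × φ => avg (R.U (m + 1) x b c) (fun z => kk D m b c z q))) ≤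
          E3 (fun x b c => cpr R (m + 1) x b c) + E3 (fun x b c => du Up m x b c) := by
        rw [← E3_add]
        exact E3_mono (hstep m)
      linarith
  have h1 := hind K
  have h2 : E3 (fun x b c => cpr R K x b c) ≤ 1 := E3_le_const zero_le_one fun x b c => hcpr K K x b c
  have h3 : 0 ≤ E3 (fun x b c => cpr R 0 x b c) := E3_nonneg fun x b c => nsq_nonneg _
  have h4 : ∑ s ∈ range K, E3 (fun x b c => du Up s x b c) ≤ 2 * J := by
    rw [← E3_sum]
    exact E3_le_const (by linarith) fun x b c => sum_du hU x b c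
  linarith

/-- the pathwise inequality -/
theorem path_doob (x : X) (b : β) (c : γ) (m : ℕ) :
    ∑ s ∈ range m, ind (R.nw (R.ep s x b c) s x b c) *
      (aa R Up s x b c * Yf (max (mm R s x b c) (rp R s x b c)) (rp R s x b c)) ≤
      ∑ s ∈ range m, aa R Up s x b c *
        (Yf (max (mm R s x b c) (rp R s x b c)) (rp R s x b c) - Yf (mm R s x b c) (rr R s x b c)) := by
  have h1 := tel_path (nw := fun s => R.nw (R.ep s x b c) s x b c) (A := fun s => aa R Up s x b c)
    (y := fun s => Yf (mm R s x b c) (rr R s x b c))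
    (y' := fun s => Yf (max (mm R s x b c) (rp R s x b c)) (rp R s x b c)) ?_ ?_ ?_ m
  · have h2 : 0 ≤ aa R Up m x b c * Yf (mm R m x b c) (rr R m x b c) :=
      mul_nonneg (aa_nonneg R m x b c) (Yf_nonneg _ _)
    beta_reduce at h1
    linarith
  · have h0 := R.t0_le 0 x b c
    obtain ⟨h2, h3⟩ := start_zero R (s := 0) (x := x) (b := b) (c := c) (by omega)
    beta_reduce
    rw [h2, h3]
    unfold Yf
    norm_num
  · intro s hn
    have h2 : (R.ep (s + 1) x b c).t0 = s + 1 := by rw [R.ep_new hn]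
    obtain ⟨h3, h4⟩ := start_zero R h2
    beta_reduce
    rw [h3, h4]
    unfold Yf
    norm_num
  · intro s hn
    obtain ⟨h3, h4⟩ := keep_step R hn
    beta_reduce
    rw [h3, h4]
    refine mul_le_mul_of_nonneg_right ?_ (Yf_nonneg _ _)
    unfold aa
    rw [R.ep_old hn]
    refine ind_mono fun h5 h6 => h5 ?_
    have ht := R.t0_le s x b c
    have a1 := hU.cf_le ht x b c
    have a2 := hU.f_mono s x b c
    have a3 := hU.cg_le ht x b c
    have a4 := hU.g_mono s x b c
    unfold upd at h6 ⊢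
    rcases h6 with h6 | h6
    · left; omega
    · right; omega

omit hU in
theorem hcl_eq_om' (s : ℕ) (x : X) (b : β) (c : γ) : om' R.toRm (R.ep s x b c) s x b c = hcl R s x b c := by
  classical
  ext y
  rw [mem_hcl]
  simp only [om', mem_inter, D.mem_cA]
  rfl

/-- the main sum of (h2) -/
theorem sum_Y {al : ℝ} (T : D.Thick al) (hJ : 0 ≤ J) :
    ∑ s ∈ range K, E3 (fun x b c => ind (R.nw (R.ep s x b c) s x b c) *
      (aa R Up s x b c * Yf (max (mm R s x b c) (rp R s x b c)) (rp R s x b c))) ≤ 4 * (1 + 2 * J) := by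
  have h1 : ∑ s ∈ range K, E3 (fun x b c => ind (R.nw (R.ep s x b c) s x b c) *
      (aa R Up s x b c * Yf (max (mm R s x b c) (rp R s x b c)) (rp R s x b c))) ≤
      ∑ s ∈ range K, E3 (fun x b c => aa R Up s x b c *
        (Yf (max (mm R s x b c) (rp R s x b c)) (rp R s x b c) - Yf (mm R s x b c) (rr R s x b c))) := by
    rw [← E3_sum, ← E3_sum]
    exact E3_mono fun x b c => path_doob R hU x b c K
  refine h1.trans ?_
  have h2 : ∀ s, E3 (fun x b c => aa R Up s x b c *
        (Yf (max (mm R s x b c) (rp R s x b c)) (rp R s x b c) - Yf (mm R s x b c) (rr R s x b c))) ≤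
      4 * E3 (fun x b c => dc R s x b c) := by
    intro s
    have e1 : E3 (fun x b c => aa R Up s x b c *
        (Yf (max (mm R s x b c) (rp R s x b c)) (rp R s x b c) - Yf (mm R s x b c) (rr R s x b c))) ≤
        E3 (fun x b c => 4 * ((rp R s x b c ^ 2 - rr R s x b c ^ 2) * aa R Up s x b c) -
          4 * ((rp R s x b c - rr R s x b c) * (aa R Up s x b c * mm R s x b c))) := by
      refine E3_mono fun x b c => ?_
      have h3 := mul_le_mul_of_nonneg_left (Yf_step (mm R s x b c) (rr R s x b c) (rp R s x b c))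
        (aa_nonneg R (Up := Up) s x b c)
      refine h3.trans (le_of_eq ?_)
      ring
    rw [E3_sub, E3_smul, E3_smul, E3_M2] at e1
    have e2 := E3_M1 R (Up := Up) s
    have e3 : E3 (fun x b c => ds R s x b c * aa R Up s x b c) ≤ E3 (fun x b c => dc R s x b c) :=
      E3_mono fun x b c => aa_ds_le R hU s x b c
    linarith
  refine (Finset.sum_le_sum fun s _ => h2 s).trans ?_
  rw [← Finset.mul_sum]
  exact mul_le_mul_of_nonneg_left (sum_dc R hU T hJ) (by norm_num)

omit hU in
/-- the box for (h2) -/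
theorem box_H2 (s : ℕ) :
    E3 (fun x b c => ind (H2 R.toRm Up N (R.ep s x b c) s x b c) *
      av2 D (s + 1) b c (chg R.toRm Up (R.ep s x b c) s x b c)) =
    E3 (fun x b c => ind (H2 R.toRm Up N (R.ep s x b c) s x b c) *
      chg R.toRm Up (R.ep s x b c) s x b c b c) := by
  rw [E3_cells D (s + 1) (s + 1) (fun x b c => ind (H2 R.toRm Up N (R.ep s x b c) s x b c) *
      chg R.toRm Up (R.ep s x b c) s x b c b c)]
  congr 1
  funext x b c
  unfold av2
  rw [← avg_smul]
  refine avg_congr' fun b' hb' => ?_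
  rw [← avg_smul]
  refine avg_congr' fun c' hc' => ?_
  have hS : D.Same (s + 1) x b c x b' c' := ⟨rfl, (D.mem_cB.1 hb').symm, (D.mem_cC.1 hc').symm⟩
  have he : R.ep s x b' c' = R.ep s x b c := (R.pub s (hS.le (Nat.le_succ s)) (R.self_U s x b c)).1
  have ht := R.t0_le s x b c
  rw [he, ← chg_inv ht hS]
  have h1 := H2_q (R := R.toRm) (Up := Up) (N := N) ht hS
  by_cases h : H2 R.toRm Up N (R.ep s x b c) s x b c
  · rw [ind_of h, ind_of (h1.1 h)]
  · rw [ind_not h, ind_not (fun h' => h (h1.2 h'))]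

omit hU in
/-- the box for (s2) -/
theorem box_S2 (s : ℕ) :
    E3 (fun x b c => ind (¬ R.th (R.ep s x b c) (s + 1) x b c ∧ S2 Up N (R.ep s x b c) s x b c) *
      av2 D (s + 1) b c (fun b' c' => ind (upd Up (R.ep s x b c) (s + 1) x b c b' c'))) =
    E3 (fun x b c => ind (¬ R.th (R.ep s x b c) (s + 1) x b c ∧ S2 Up N (R.ep s x b c) s x b c) *
      ind (upd Up (R.ep s x b c) (s + 1) x b c b c)) := by
  rw [E3_cells D (s + 1) (s + 1) (fun x b c =>
      ind (¬ R.th (R.ep s x b c) (s + 1) x b c ∧ S2 Up N (R.ep s x b c) s x b c) *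
      ind (upd Up (R.ep s x b c) (s + 1) x b c b c))]
  congr 1
  funext x b c
  unfold av2
  rw [← avg_smul]
  refine avg_congr' fun b' hb' => ?_
  rw [← avg_smul]
  refine avg_congr' fun c' hc' => ?_
  have hS : D.Same (s + 1) x b c x b' c' := ⟨rfl, (D.mem_cB.1 hb').symm, (D.mem_cC.1 hc').symm⟩
  have he : R.ep s x b' c' = R.ep s x b c := (R.pub s (hS.le (Nat.le_succ s)) (R.self_U s x b c)).1
  have ht := R.t0_le s x b c
  rw [he, ← upd_inv (ht.trans (Nat.le_succ s)) hS]
  have h1 := S2_q (Up := Up) (N := N) ht hS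
  have h2 := R.th_q (R.ep s x b c) (s + 1) x b c x b' c' (ht.trans (Nat.le_succ s)) hS
  by_cases h : ¬ R.th (R.ep s x b c) (s + 1) x b c ∧ S2 Up N (R.ep s x b c) s x b c
  · rw [ind_of h, ind_of ⟨fun h' => h.1 (h2.2 h'), h1.1 h.2⟩]
  · rw [ind_not h, ind_not (fun h' => h ⟨fun h'' => h'.1 (h2.1 h''), h1.2 h'.2⟩)]

/-- mean number of updates of the true pair before the end of an epoch -/
theorem sum_upd (hJ : 0 ≤ J) :
    ∑ s ∈ range K, E3 (fun x b c => ind (R.nw (R.ep s x b c) s x b c) *
      ind (upd Up (R.ep s x b c) s x b c b c ∨ upd Up (R.ep s x b c) (s + 1) x b c b c)) ≤ 2 * J := by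
  rw [← E3_sum]
  refine E3_le_const (by linarith) fun x b c => ?_
  have h1 := upd_path R hU x b c K
  have h2 := sum_du hU x b c
  have h3 := ind_nonneg (upd Up (R.ep K x b c) K x b c b c)
  linarith

/-- **the test (s2)** -/
theorem cnt_S2 (T : Tst R Up N) (hJ : 0 ≤ J) :
    N.kap * ∑ s ∈ range K, E3 (fun x b c => ind (¬ R.th (R.ep s x b c) (s + 1) x b c ∧
      S2 Up N (R.ep s x b c) s x b c)) ≤ 2 * J := by
  refine le_trans ?_ (sum_upd R hU hJ)
  rw [Finset.mul_sum]
  refine Finset.sum_le_sum fun s _ => ?_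
  rw [← E3_smul]
  have h1 : E3 (fun x b c => N.kap * ind (¬ R.th (R.ep s x b c) (s + 1) x b c ∧ S2 Up N (R.ep s x b c) s x b c)) ≤
      E3 (fun x b c => ind (¬ R.th (R.ep s x b c) (s + 1) x b c ∧ S2 Up N (R.ep s x b c) s x b c) *
      av2 D (s + 1) b c (fun b' c' => ind (upd Up (R.ep s x b c) (s + 1) x b c b' c'))) := by
    refine E3_mono fun x b c => ?_
    by_cases h : ¬ R.th (R.ep s x b c) (s + 1) x b c ∧ S2 Up N (R.ep s x b c) s x b c
    · rw [ind_of h, mul_one, one_mul]
      exact h.2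
    · rw [ind_not h, mul_zero, zero_mul]
  refine h1.trans ?_
  rw [box_S2]
  refine E3_mono fun x b c => mul_le_mul (ind_mono fun h => ?_) (ind_mono Or.inr) (ind_nonneg _) (ind_nonneg _)
  exact Or.inr (Or.inr ((T.ts _ s x b c (R.t0_le s x b c)).2 (Or.inr h.2)))

/-- **the test (h2)** -/
theorem cnt_H2 (T : Tst R Up N) {al : ℝ} (TH : D.Thick al) (hJ : 0 ≤ J) :
    N.kap * ∑ s ∈ range K, E3 (fun x b c => ind (H2 R.toRm Up N (R.ep s x b c) s x b c)) ≤ 8 + 22 * J := by
  have hnw : ∀ s x b c, H2 R.toRm Up N (R.ep s x b c) s x b c → R.nw (R.ep s x b c) s x b c := fun s x b c h =>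
    Or.inl ((T.th _ s x b c (R.t0_le s x b c)).2 (Or.inr (Or.inl h)))
  have hstep : ∀ s, N.kap * E3 (fun x b c => ind (H2 R.toRm Up N (R.ep s x b c) s x b c)) ≤
      2 * E3 (fun x b c => ind (R.nw (R.ep s x b c) s x b c) *
        (aa R Up s x b c * Yf (max (mm R s x b c) (rp R s x b c)) (rp R s x b c))) +
      3 * E3 (fun x b c => ind (R.nw (R.ep s x b c) s x b c) *
        ind (upd Up (R.ep s x b c) s x b c b c ∨ upd Up (R.ep s x b c) (s + 1) x b c b c)) := by
    intro s
    rw [← E3_smul]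
    have h1 : E3 (fun x b c => N.kap * ind (H2 R.toRm Up N (R.ep s x b c) s x b c)) ≤
        E3 (fun x b c => ind (H2 R.toRm Up N (R.ep s x b c) s x b c) *
          av2 D (s + 1) b c (chg R.toRm Up (R.ep s x b c) s x b c)) := by
      refine E3_mono fun x b c => ?_
      by_cases h : H2 R.toRm Up N (R.ep s x b c) s x b c
      · rw [ind_of h, mul_one, one_mul]
        exact h
      · rw [ind_not h, mul_zero, zero_mul]
    refine h1.trans ?_
    rw [box_H2]
    -- the weight
    set w : X → β → γ → ℝ := fun x b c => ind (H2 R.toRm Up N (R.ep s x b c) s x b c) * aa R Up s x b c with hw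
    have hw0 : ∀ x b c, 0 ≤ w x b c := fun x b c => mul_nonneg (ind_nonneg _) (ind_nonneg _)
    have hwc : ∀ x b c, ∀ y ∈ hcl R s x b c, w y b c = w x b c := by
      intro x b c y hy
      have hy' := (mem_hcl R).1 hy
      have hS : D.Same (s + 1) x b c y b c := ⟨hy'.2.symm, rfl, rfl⟩
      show ind (H2 R.toRm Up N (R.ep s y b c) s y b c) * aa R Up s y b c =
        ind (H2 R.toRm Up N (R.ep s x b c) s x b c) * aa R Up s x b c
      rw [aa_cls R s hy'.1, (pubx R hy'.1).1]
      have h2 := H2_q (R := R.toRm) (Up := Up) (N := N) (R.t0_le s x b c) hS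
      by_cases h : H2 R.toRm Up N (R.ep s x b c) s x b c
      · rw [ind_of h, ind_of (h2.1 h)]
      · rw [ind_not h, ind_not (fun h' => h (h2.2 h'))]
    have h3 := E3_M3 R s hw0 hwc
    -- pointwise
    have h4 : E3 (fun x b c => ind (H2 R.toRm Up N (R.ep s x b c) s x b c) *
        chg R.toRm Up (R.ep s x b c) s x b c b c) ≤
        E3 (fun x b c => (dd R s x b c (hcl R s x b c) * w x b c + mm R s x b c ^ 2 * w x b c) +
          3 * (ind (R.nw (R.ep s x b c) s x b c) *
            ind (upd Up (R.ep s x b c) s x b c b c ∨ upd Up (R.ep s x b c) (s + 1) x b c b c))) := by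
      refine E3_mono fun x b c => ?_
      by_cases h : H2 R.toRm Up N (R.ep s x b c) s x b c
      · show _ ≤ (dd R s x b c (hcl R s x b c) * (ind (H2 R.toRm Up N (R.ep s x b c) s x b c) * aa R Up s x b c) +
          mm R s x b c ^ 2 * (ind (H2 R.toRm Up N (R.ep s x b c) s x b c) * aa R Up s x b c)) + _
        rw [ind_of h, ind_of (hnw s x b c h), one_mul, one_mul, one_mul, mm_sq]
        unfold chg
        rw [hcl_eq_om']
        have hdd : dst D (R.ep s x b c).t0 b c (hcl R s x b c) (R.ep s x b c).om0 b c =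
          dd R s x b c (hcl R s x b c) := rfl
        rw [hdd]
        have d0 : 0 ≤ dd R s x b c (hcl R s x b c) := dst_nonneg _ _ _ _ _ _ _
        have m0 := md_nonneg (R := R.toRm) (e := R.ep s x b c) s x b c b c
        by_cases hu : upd Up (R.ep s x b c) s x b c b c
        · have ha : aa R Up s x b c = 0 := ind_not (not_not.2 hu)
          rw [ha, ind_of hu, ind_of (Or.inl hu)]
          have d2 : dd R s x b c (hcl R s x b c) ≤ 2 := dst_le_two TH _ _ _ _ _ _ _
          have m2 := md_le_two TH (R := R.toRm) (e := R.ep s x b c) s x b c b c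
          have := max_le m2 d2
          linarith
        · have ha : aa R Up s x b c = 1 := ind_of hu
          rw [ha, ind_not hu]
          have h5 := ind_nonneg (upd Up (R.ep s x b c) s x b c b c ∨ upd Up (R.ep s x b c) (s + 1) x b c b c)
          have h6 : max (md R.toRm (R.ep s x b c) s x b c b c) (dd R s x b c (hcl R s x b c)) ≤
              md R.toRm (R.ep s x b c) s x b c b c + dd R s x b c (hcl R s x b c) :=
            max_le (by linarith) (by linarith)
          linarith
      · show _ ≤ (dd R s x b c (hcl R s x b c) * (ind (H2 R.toRm Up N (R.ep s x b c) s x b c) * aa R Up s x b c) +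
          mm R s x b c ^ 2 * (ind (H2 R.toRm Up N (R.ep s x b c) s x b c) * aa R Up s x b c)) + _
        rw [ind_not h]
        have h5 : 0 ≤ ind (R.nw (R.ep s x b c) s x b c) *
            ind (upd Up (R.ep s x b c) s x b c b c ∨ upd Up (R.ep s x b c) (s + 1) x b c b c) :=
          mul_nonneg (ind_nonneg _) (ind_nonneg _)
        linarith
    refine h4.trans ?_
    rw [E3_add, E3_add, E3_smul]
    have h7 : E3 (fun x b c => dd R s x b c (hcl R s x b c) * w x b c) + E3 (fun x b c => mm R s x b c ^ 2 * w x b c) ≤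
        E3 (fun x b c => 2 * (ind (R.nw (R.ep s x b c) s x b c) *
        (aa R Up s x b c * Yf (max (mm R s x b c) (rp R s x b c)) (rp R s x b c)))) := by
      refine (add_le_add h3 le_rfl).trans ?_
      rw [← E3_add]
      refine E3_mono fun x b c => ?_
      have h8 : w x b c ≤ ind (R.nw (R.ep s x b c) s x b c) * aa R Up s x b c :=
        mul_le_mul_of_nonneg_right (ind_mono (hnw s x b c)) (ind_nonneg _)
      have h9 : rp R s x b c ^ 2 + mm R s x b c ^ 2 ≤
          2 * Yf (max (mm R s x b c) (rp R s x b c)) (rp R s x b c) := by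
        have g0 := Yf_ge (max (mm R s x b c) (rp R s x b c)) (rp R s x b c)
        have g1 : rp R s x b c ^ 2 ≤ max (mm R s x b c) (rp R s x b c) ^ 2 :=
          pow_le_pow_left₀ (Real.sqrt_nonneg _) (le_max_right _ _) 2
        have g2 : mm R s x b c ^ 2 ≤ max (mm R s x b c) (rp R s x b c) ^ 2 :=
          pow_le_pow_left₀ (Real.sqrt_nonneg _) (le_max_left _ _) 2
        linarith
      calc rp R s x b c ^ 2 * w x b c + mm R s x b c ^ 2 * w x b c =
          (rp R s x b c ^ 2 + mm R s x b c ^ 2) * w x b c := by ring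
        _ ≤ (2 * Yf (max (mm R s x b c) (rp R s x b c)) (rp R s x b c)) *
            (ind (R.nw (R.ep s x b c) s x b c) * aa R Up s x b c) :=
          mul_le_mul h9 h8 (hw0 x b c) (mul_nonneg (by norm_num) (Yf_nonneg _ _))
        _ = _ := by ring
    rw [E3_smul] at h7
    linarith
  rw [Finset.mul_sum]
  refine (Finset.sum_le_sum fun s _ => hstep s).trans ?_
  rw [Finset.sum_add_distrib, ← Finset.mul_sum, ← Finset.mul_sum]
  have h1 := sum_Y R hU TH hJ
  have h2 := sum_upd R hU hJ
  linarith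

end process

/-! ## canonical counters -/

/-- the kernel of the first label changes on the cell of `x` in the step from `r` to `r+1` -/
def chf (D : Dat X β γ ι φ) (r : ℕ) (x : X) (b : β) (c : γ) : Prop :=
  ∃ y, D.qa (r + 1) y = D.qa (r + 1) x ∧ D.kf (r + 1) y b c ≠ D.kf r y b c

/-- the kernel of the second label changes on the cell of `x` in the step from `r` to `r+1` -/
def chl (D : Dat X β γ ι φ) (r : ℕ) (x : X) (b : β) (c : γ) : Prop :=
  ∃ y, D.qa (r + 1) y = D.qa (r + 1) x ∧ D.kg (r + 1) y b c ≠ D.kg r y b c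

omit [Fintype X] [Fintype β] [Fintype γ] [Fintype φ] in
theorem chf_inv {r : ℕ} {x x' : X} {b : β} {c c' : γ} (hx : D.qa (r + 1) x = D.qa (r + 1) x')
    (hc : D.qc (r + 1) c = D.qc (r + 1) c') : chf D r x b c ↔ chf D r x' b c' := by
  unfold chf
  have e1 : ∀ y, D.kf (r + 1) y b c = D.kf (r + 1) y b c' := fun y => D.kf_c (r + 1) y b c c' hc
  have e2 : ∀ y, D.kf r y b c = D.kf r y b c' := fun y => D.kf_c r y b c c' (D.rc r c c' hc)
  simp only [hx, e1, e2]

omit [Fintype X] [Fintype β] [Fintype γ] [Fintype φ] in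
theorem chl_inv {r : ℕ} {x x' : X} {b b' : β} {c : γ} (hx : D.qa (r + 1) x = D.qa (r + 1) x')
    (hb : D.qb (r + 1) b = D.qb (r + 1) b') : chl D r x b c ↔ chl D r x' b' c := by
  unfold chl
  have e1 : ∀ y, D.kg (r + 1) y b c = D.kg (r + 1) y b' c := fun y => D.kg_b (r + 1) y b b' c hb
  have e2 : ∀ y, D.kg r y b c = D.kg r y b' c := fun y => D.kg_b r y b b' c (D.rb r b b' hb)
  simp only [hx, e1, e2]

open Classical in
/-- CANONICAL COUNTERS: the number of changes of the kernel on the cell of `x` -/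
def updC (D : Dat X β γ ι φ) : Upd D where
  cf t x b c := ∑ r ∈ range t, if chf D r x b c then 1 else 0
  cg t x b c := ∑ r ∈ range t, if chl D r x b c then 1 else 0
  cf_q t x x' b c c' hx hc := by
    refine Finset.sum_congr rfl fun r hr => ?_
    have h1 : r + 1 ≤ t := Finset.mem_range.1 hr
    simp only [chf_inv (b := b) (D.qa_le h1 hx) (D.qc_le h1 hc)]
  cg_q t x x' b b' c hx hb := by
    refine Finset.sum_congr rfl fun r hr => ?_
    have h1 : r + 1 ≤ t := Finset.mem_range.1 hr
    simp only [chl_inv (c := c) (D.qa_le h1 hx) (D.qb_le h1 hb)]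

open Classical in
theorem updC_cf_succ (t : ℕ) (x : X) (b : β) (c : γ) :
    (updC D).cf (t + 1) x b c = (updC D).cf t x b c + if chf D t x b c then 1 else 0 := by
  show ∑ r ∈ range (t + 1), (if chf D r x b c then 1 else 0) = _
  rw [Finset.sum_range_succ]
  rfl

open Classical in
theorem updC_cg_succ (t : ℕ) (x : X) (b : β) (c : γ) :
    (updC D).cg (t + 1) x b c = (updC D).cg t x b c + if chl D t x b c then 1 else 0 := by
  show ∑ r ∈ range (t + 1), (if chl D r x b c then 1 else 0) = _
  rw [Finset.sum_range_succ]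
  rfl

theorem updC_cf (t : ℕ) (x : X) (b : β) (c : γ) :
    ((updC D).cf t x b c : ℝ) = ∑ r ∈ range t, ind (chf D r x b c) := by
  induction t with
  | zero =>
    show ((0 : ℕ) : ℝ) = _
    simp
  | succ t ih =>
    rw [updC_cf_succ, Finset.sum_range_succ, Nat.cast_add, ih]
    by_cases h : chf D t x b c
    · rw [if_pos h, ind_of h]; simp
    · rw [if_neg h, ind_not h]; simp

theorem updC_cg (t : ℕ) (x : X) (b : β) (c : γ) :
    ((updC D).cg t x b c : ℝ) = ∑ r ∈ range t, ind (chl D r x b c) := by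
  induction t with
  | zero =>
    show ((0 : ℕ) : ℝ) = _
    simp
  | succ t ih =>
    rw [updC_cg_succ, Finset.sum_range_succ, Nat.cast_add, ih]
    by_cases h : chl D t x b c
    · rw [if_pos h, ind_of h]; simp
    · rw [if_neg h, ind_not h]; simp

/-- the canonical counters: only the bound of the number of changes is needed -/
theorem updC_ok {K : ℕ} {J : ℝ} (hf : ∀ x b c, ∑ r ∈ range K, ind (chf D r x b c) ≤ J)
    (hg : ∀ x b c, ∑ r ∈ range K, ind (chl D r x b c) ≤ J) : UpdOk D (updC D) K J where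
  f_mono t x b c := by rw [updC_cf_succ]; exact Nat.le_add_right _ _
  g_mono t x b c := by rw [updC_cg_succ]; exact Nat.le_add_right _ _
  f_le x b c := by rw [updC_cf]; exact hf x b c
  g_le x b c := by rw [updC_cg]; exact hg x b c
  f_eq t x b c y hy h := by
    classical
    rw [updC_cf_succ] at h
    by_contra hne
    have h1 : chf D t x b c := ⟨y, hy, hne⟩
    rw [if_pos h1] at h
    omega
  g_eq t x b c y hy h := by
    classical
    rw [updC_cg_succ] at h
    by_contra hne
    have h1 : chl D t x b c := ⟨y, hy, hne⟩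
    rw [if_pos h1] at h
    omega

end

end Pool.Agent.M3.S3
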