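import Pool.Agent.M3.S3.Prod

/-!
# M3.S3.FComp: comparison of the gain functional of a partition on a class and on a slightly smaller class
(3445 (5), count of (h3))

`K` a class (finite set of positions), `r` a partition of `K`, `k x F` = probability of the label `F` at the position `x`
(one owner), `fblk K r x` the block of `x`.
* `info_part` : `|K| I_K(f;r) ≤ |K'| I_K'(f;r) + |K - K'| (Lam + 1)` for `K' ⊆ K` nonempty, as sums over positions;
* `ent_part` : `- |K| H_K(r) ≤ - |K'| H_K'(r) + |K - K'|`;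
* `gainF n k K Bs r = |K| (n E_b I_K(f_b;r) - H_K(r))`, `gainF_le`; `klf_map_le`, `infoN_map_le` (data processing);
* `gain2` (two families), `h3_static` : the surplus of the complete split at a node of type (h3).
The kernel is thick on its support (`Thick` of `Prod`): `k x F ≠ 0 → exp (-Lam) ≤ k x' F` for `x, x' ∈ K`.
-/

set_option autoImplicit false
set_option linter.unusedSectionVars false
set_option linter.unusedVariables false

namespace Pool.Agent.M3.S3

open Finset Pool.Agent.PWZ

variable {X β γ Φ Φ' ι : Type*}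

noncomputable section

open Classical in
/-- the block of `x` in the partition `r` of `K` -/
def fblk (K : Finset X) (r : X → ι) (x : X) : Finset X := K.filter (fun y => r y = r x)

/-- `|K| I_K(f;r)` for one owner -/
def infoN [Fintype Φ] (k : X → Φ → ℝ) (K : Finset X) (r : X → ι) : ℝ :=
  ∑ x ∈ K, ∑ F, k x F * Real.log (law (fblk K r x) k F / law K k F)

/-- `|K| H_K(r)` -/
def entN (K : Finset X) (r : X → ι) : ℝ := ∑ x ∈ K, Real.log ((K.card : ℝ) / (fblk K r x).card)

/-- `|K| (n E_b I_K(f_b;r) - H_K(r))` -/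
def gainF [Fintype Φ] (n : ℝ) (k : X → β → Φ → ℝ) (K : Finset X) (Bs : Finset β) (r : X → ι) : ℝ :=
  n * avg Bs (fun b => infoN (fun x => k x b) K r) - entN K r

end

theorem mem_fblk {K : Finset X} {r : X → ι} {x y : X} : y ∈ fblk K r x ↔ y ∈ K ∧ r y = r x := by
  classical
  unfold fblk; rw [Finset.mem_filter]

theorem self_fblk {K : Finset X} {r : X → ι} {x : X} (hx : x ∈ K) : x ∈ fblk K r x := mem_fblk.2 ⟨hx, rfl⟩

theorem fblk_subset (K : Finset X) (r : X → ι) (x : X) : fblk K r x ⊆ K := fun _ hy => (mem_fblk.1 hy).1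

theorem fblk_congr {K : Finset X} {r : X → ι} {x y : X} (h : r y = r x) : fblk K r y = fblk K r x := by
  ext z; rw [mem_fblk, mem_fblk, h]

theorem avg_mono {α : Type*} {s : Finset α} {f g : α → ℝ} (h : ∀ a ∈ s, f a ≤ g a) : avg s f ≤ avg s g :=
  div_le_div_of_nonneg_right (Finset.sum_le_sum h) (Nat.cast_nonneg _)

theorem avg_add {α : Type*} (s : Finset α) (f g : α → ℝ) : avg s (fun a => f a + g a) = avg s f + avg s g := by
  unfold avg; rw [Finset.sum_add_distrib, add_div]

theorem avg_const {α : Type*} {s : Finset α} (hs : s.Nonempty) (c : ℝ) : avg s (fun _ => c) = c := by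
  unfold avg
  have : (0 : ℝ) < s.card := by exact_mod_cast Finset.card_pos.2 hs
  rw [Finset.sum_const, nsmul_eq_mul]
  field_simp

theorem avg_smul {α : Type*} (s : Finset α) (c : ℝ) (f : α → ℝ) : avg s (fun a => c * f a) = c * avg s f := by
  unfold avg; rw [← Finset.mul_sum, mul_div_assoc]

/-- the mean of a function over the own block: double counting -/
theorem sum_blk_mean [DecidableEq ι] (K : Finset X) (r : X → ι) (f : X → ℝ) (g : ι → ℝ) :
    ∑ x ∈ K, f x * g (r x) = ∑ x ∈ K, avg (fblk K r x) f * g (r x) := by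
  classical
  have e1 : ∀ x ∈ K, avg (fblk K r x) f * g (r x) =
      ∑ y ∈ K, if r y = r x then f y * g (r x) / (fblk K r x).card else 0 := by
    intro x _
    have h1 : fblk K r x = K.filter (fun y => r y = r x) := by
      ext y; rw [mem_fblk, Finset.mem_filter]
    rw [← Finset.sum_filter, ← h1]
    unfold avg
    rw [div_mul_eq_mul_div, Finset.sum_mul, Finset.sum_div]
  rw [Finset.sum_congr rfl e1, Finset.sum_comm]
  refine Finset.sum_congr rfl (fun y hy => ?_)
  have e2 : ∀ x ∈ K, (if r y = r x then f y * g (r x) / (fblk K r x).card else 0) =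
      if r x = r y then f y * g (r y) / (fblk K r y).card else 0 := by
    intro x _
    by_cases h : r y = r x
    · rw [if_pos h, if_pos h.symm, fblk_congr h, h]
    · rw [if_neg h, if_neg (fun h' => h h'.symm)]
  rw [Finset.sum_congr rfl e2, ← Finset.sum_filter, Finset.sum_const, nsmul_eq_mul]
  have hc : (0 : ℝ) < (fblk K r y).card := by
    exact_mod_cast Finset.card_pos.2 ⟨y, self_fblk hy⟩
  have h1 : K.filter (fun x => r x = r y) = fblk K r y := by
    ext x; rw [mem_fblk, Finset.mem_filter]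
  rw [h1]
  field_simp

/-! ## laws -/

section

variable {k : X → Φ → ℝ} {K S : Finset X} {F : Φ}

theorem law_le {c : ℝ} (hS : S.Nonempty) (h : ∀ x ∈ S, k x F ≤ c) : law S k F ≤ c := by
  unfold law
  rw [← avg_const hS c]
  exact avg_mono h

theorem le_law {c : ℝ} (hS : S.Nonempty) (h : ∀ x ∈ S, c ≤ k x F) : c ≤ law S k F := by
  unfold law
  rw [← avg_const hS c]
  exact avg_mono h

theorem law_sum [Fintype Φ] (hS : S.Nonempty) (h1 : ∀ x ∈ S, ∑ F, k x F = 1) : ∑ F, law S k F = 1 := by
  unfold law avg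
  rw [← Finset.sum_div, Finset.sum_comm, Finset.sum_congr rfl h1]
  have : (0 : ℝ) < S.card := by exact_mod_cast Finset.card_pos.2 hS
  rw [Finset.sum_const, nsmul_eq_mul, mul_one, div_self this.ne']

/-- Gibbs for nonnegative laws -/
theorem gibbs_law [Fintype Φ] {p q : Φ → ℝ} (hp : ∀ F, 0 ≤ p F) (hq : ∀ F, 0 ≤ q F)
    (hpq : ∀ F, p F ≠ 0 → 0 < q F) (hp1 : ∑ F, p F = 1) (hq1 : ∑ F, q F ≤ 1) :
    ∑ F, p F * Real.log (q F / p F) ≤ 0 := by
  calc ∑ F, p F * Real.log (q F / p F) ≤ ∑ F, (q F - p F) := by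
        refine Finset.sum_le_sum (fun F _ => ?_)
        by_cases h : p F = 0
        · rw [h, zero_mul, sub_zero]; exact hq F
        · have hp' : 0 < p F := lt_of_le_of_ne (hp F) (Ne.symm h)
          have h2 := Real.log_le_sub_one_of_pos (div_pos (hpq F h) hp')
          calc p F * Real.log (q F / p F) ≤ p F * (q F / p F - 1) := mul_le_mul_of_nonneg_left h2 hp'.le
            _ = q F - p F := by field_simp
    _ = ∑ F, q F - ∑ F, p F := Finset.sum_sub_distrib _ _
    _ ≤ 0 := by rw [hp1]; linarith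

end

/-! ## sizes of the blocks -/

/-- double counting for the sizes of the blocks -/
theorem sum_blk_card_le {K K' : Finset X} [DecidableEq X] (h : K' ⊆ K) (r : X → ι) :
    ∑ x ∈ K', (((fblk K r x).card : ℝ) / (fblk K' r x).card - 1) ≤ ((K \ K').card : ℝ) := by
  classical
  have e1 : ∀ x ∈ K', (((fblk K r x).card : ℝ) / (fblk K' r x).card - 1) =
      ∑ y ∈ K \ K', if r y = r x then (1 : ℝ) / (fblk K' r x).card else 0 := by
    intro x hx
    have hc : (0 : ℝ) < (fblk K' r x).card := by
      exact_mod_cast Finset.card_pos.2 ⟨x, self_fblk hx⟩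
    have e2 : ((fblk K r x).card : ℝ) = (fblk K' r x).card + ((K \ K').filter (fun y => r y = r x)).card := by
      have : fblk K r x = fblk K' r x ∪ (K \ K').filter (fun y => r y = r x) := by
        ext y
        rw [mem_fblk, Finset.mem_union, mem_fblk, Finset.mem_filter, Finset.mem_sdiff]
        constructor
        · rintro ⟨h1, h2⟩
          by_cases h3 : y ∈ K'
          · exact Or.inl ⟨h3, h2⟩
          · exact Or.inr ⟨⟨h1, h3⟩, h2⟩
        · rintro (⟨h1, h2⟩ | ⟨⟨h1, _⟩, h2⟩)
          · exact ⟨h h1, h2⟩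
          · exact ⟨h1, h2⟩
      rw [this, Finset.card_union_of_disjoint, Nat.cast_add]
      rw [Finset.disjoint_left]
      intro y hy hy2
      rw [mem_fblk] at hy
      rw [Finset.mem_filter, Finset.mem_sdiff] at hy2
      exact hy2.1.2 hy.1
    rw [e2, ← Finset.sum_filter, Finset.sum_const, nsmul_eq_mul]
    field_simp
    ring
  rw [Finset.sum_congr rfl e1, Finset.sum_comm]
  calc ∑ y ∈ K \ K', ∑ x ∈ K', (if r y = r x then (1 : ℝ) / (fblk K' r x).card else 0)
      ≤ ∑ y ∈ K \ K', (1 : ℝ) := by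
        refine Finset.sum_le_sum (fun y _ => ?_)
        have e3 : ∀ x ∈ K', (if r y = r x then (1 : ℝ) / (fblk K' r x).card else 0) =
            if r x = r y then (1 : ℝ) / (fblk K' r y).card else 0 := by
          intro x _
          by_cases h : r y = r x
          · rw [if_pos h, if_pos h.symm, fblk_congr h]
          · rw [if_neg h, if_neg (fun h' => h h'.symm)]
        rw [Finset.sum_congr rfl e3, ← Finset.sum_filter, Finset.sum_const, nsmul_eq_mul]
        have e4 : K'.filter (fun x => r x = r y) = fblk K' r y := by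
          ext x; rw [mem_fblk, Finset.mem_filter]
        rw [e4, mul_one_div]
        exact div_self_le_one _
    _ = _ := by rw [Finset.sum_const, nsmul_eq_mul, mul_one]

/-- the entropy part -/
theorem ent_part {K K' : Finset X} [DecidableEq X] (h : K' ⊆ K) (hK' : K'.Nonempty) (r : X → ι) :
    entN K' r ≤ entN K r + ((K \ K').card : ℝ) := by
  have hcK : (0 : ℝ) < K.card := by exact_mod_cast Finset.card_pos.2 (hK'.mono h)
  have hcK' : (0 : ℝ) < K'.card := by exact_mod_cast Finset.card_pos.2 hK'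
  have hcb : ∀ {S : Finset X} {x : X}, x ∈ S → (0 : ℝ) < (fblk S r x).card := fun hx => by
    exact_mod_cast Finset.card_pos.2 ⟨_, self_fblk hx⟩
  unfold entN
  have r1 : ∑ x ∈ K', Real.log ((K.card : ℝ) / (fblk K r x).card) ≤
      ∑ x ∈ K, Real.log ((K.card : ℝ) / (fblk K r x).card) := by
    refine Finset.sum_le_sum_of_subset_of_nonneg h (fun x hx _ => Real.log_nonneg ?_)
    rw [le_div_iff₀ (hcb hx), one_mul]
    exact_mod_cast Finset.card_le_card (fblk_subset K r x)
  have r2 : ∑ x ∈ K', Real.log ((K'.card : ℝ) / (fblk K' r x).card) ≤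
      ∑ x ∈ K', Real.log ((K.card : ℝ) / (fblk K r x).card) +
        ∑ x ∈ K', (((fblk K r x).card : ℝ) / (fblk K' r x).card - 1) := by
    rw [← Finset.sum_add_distrib]
    refine Finset.sum_le_sum (fun x hx => ?_)
    have a1 := hcb hx
    have a2 := hcb (h hx)
    have e1 := Real.log_le_sub_one_of_pos (div_pos a2 a1)
    have e2 : Real.log (K'.card : ℝ) ≤ Real.log (K.card : ℝ) :=
      Real.log_le_log hcK' (by exact_mod_cast Finset.card_le_card h)
    rw [Real.log_div hcK'.ne' a1.ne', Real.log_div hcK.ne' a2.ne']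
    rw [Real.log_div a2.ne' a1.ne'] at e1
    linarith
  have r3 := sum_blk_card_le h r
  linarith

/-- the entropy is nonnegative -/
theorem entN_nonneg (K : Finset X) (r : X → ι) : 0 ≤ entN K r := by
  unfold entN
  refine Finset.sum_nonneg (fun x hx => Real.log_nonneg ?_)
  have hc : (0 : ℝ) < (fblk K r x).card := by exact_mod_cast Finset.card_pos.2 ⟨x, self_fblk hx⟩
  rw [le_div_iff₀ hc, one_mul]
  exact_mod_cast Finset.card_le_card (fblk_subset K r x)

/-! ## the information part -/

/-- the information part for one owner -/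
theorem info_part [Fintype Φ] [DecidableEq X] {k : X → Φ → ℝ} {Lam : ℝ} (hL : 0 ≤ Lam) {K K' : Finset X}
    (h0 : ∀ x ∈ K, ∀ F, 0 ≤ k x F) (ht : ∀ x ∈ K, ∀ x' ∈ K, ∀ F, k x F ≠ 0 → Real.exp (-Lam) ≤ k x' F)
    (h1 : ∀ x ∈ K, ∑ F, k x F = 1) (h : K' ⊆ K) (hK' : K'.Nonempty) (r : X → ι) :
    infoN k K r ≤ infoN k K' r + ((K \ K').card : ℝ) * (Lam + 1) := by
  classical
  have hal : 0 < Real.exp (-Lam) := Real.exp_pos _
  have hK : K.Nonempty := hK'.mono h
  obtain ⟨x0, hx0⟩ := hK
  -- a value is either impossible or thick on the whole class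
  have dich : ∀ F, (∀ x ∈ K, k x F = 0) ∨ (∀ x ∈ K, Real.exp (-Lam) ≤ k x F) := by
    intro F
    by_cases hF : k x0 F = 0
    · left
      intro x hx
      by_contra hne
      have := ht x hx x0 hx0 F hne
      linarith
    · right
      exact fun x hx => ht x0 hx0 x hx F hF
  have hle1 : ∀ x ∈ K, ∀ F, k x F ≤ 1 := fun x hx F => by
    rw [← h1 x hx]
    exact Finset.single_le_sum (f := fun F => k x F) (fun F _ => h0 x hx F) (Finset.mem_univ F)
  have lawpos : ∀ {S : Finset X}, S ⊆ K → S.Nonempty → ∀ F, (∀ x ∈ K, Real.exp (-Lam) ≤ k x F) →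
      0 < law S k F := fun hS hne F hF => hal.trans_le (le_law hne (fun x hx => hF x (hS hx)))
  have lawnn : ∀ {S : Finset X}, S ⊆ K → S.Nonempty → ∀ F, 0 ≤ law S k F := fun hS hne F =>
    le_law hne (fun x hx => h0 x (hS hx) F)
  unfold infoN
  rw [← Finset.sum_sdiff h]
  -- the part of `K \ K'`
  have p1 : ∑ x ∈ K \ K', ∑ F, k x F * Real.log (law (fblk K r x) k F / law K k F) ≤
      ((K \ K').card : ℝ) * Lam := by
    rw [← nsmul_eq_mul, ← Finset.sum_const]
    refine Finset.sum_le_sum (fun x hx => ?_)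
    have hxK : x ∈ K := (Finset.mem_sdiff.1 hx).1
    calc ∑ F, k x F * Real.log (law (fblk K r x) k F / law K k F) ≤ ∑ F, k x F * Lam := by
          refine Finset.sum_le_sum (fun F _ => ?_)
          rcases dich F with hF | hF
          · rw [hF x hxK, zero_mul, zero_mul]
          · refine mul_le_mul_of_nonneg_left ?_ (h0 x hxK F)
            have hb : (fblk K r x).Nonempty := ⟨x, self_fblk hxK⟩
            have q1 := lawpos (fblk_subset K r x) hb F hF
            have q2 := lawpos (Finset.Subset.refl K) ⟨x0, hx0⟩ F hF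
            have e1 : law (fblk K r x) k F / law K k F ≤ 1 / Real.exp (-Lam) :=
              div_le_div₀ zero_le_one (law_le hb (fun y hy => hle1 y (fblk_subset K r x hy) F)) hal
                (le_law ⟨x0, hx0⟩ (fun y hy => hF y hy))
            have e2 := Real.log_le_log (div_pos q1 q2) e1
            rw [one_div, Real.log_inv, Real.log_exp, neg_neg] at e2
            exact e2
      _ = Lam := by rw [← Finset.sum_mul, h1 x hxK, one_mul]
  -- the part of `K'`
  have p2 : ∑ x ∈ K', ∑ F, k x F * Real.log (law (fblk K r x) k F / law K k F) =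
      ∑ x ∈ K', ∑ F, k x F * Real.log (law (fblk K' r x) k F / law K' k F) +
      (∑ x ∈ K', ∑ F, k x F * Real.log (law (fblk K r x) k F / law (fblk K' r x) k F) +
        ∑ x ∈ K', ∑ F, k x F * Real.log (law K' k F / law K k F)) := by
    rw [← Finset.sum_add_distrib, ← Finset.sum_add_distrib]
    refine Finset.sum_congr rfl (fun x hx => ?_)
    rw [← Finset.sum_add_distrib, ← Finset.sum_add_distrib]
    refine Finset.sum_congr rfl (fun F _ => ?_)
    rcases dich F with hF | hF
    · rw [hF x (h hx)]; ring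
    · have a1 := (lawpos (fblk_subset K r x) ⟨x, self_fblk (h hx)⟩ F hF).ne'
      have a2 := (lawpos ((fblk_subset K' r x).trans h) ⟨x, self_fblk hx⟩ F hF).ne'
      have a3 := (lawpos (Finset.Subset.refl K) ⟨x0, hx0⟩ F hF).ne'
      have a4 := (lawpos h hK' F hF).ne'
      rw [Real.log_div a1 a3, Real.log_div a2 a4, Real.log_div a1 a2, Real.log_div a4 a3]
      ring
  -- blocks: Gibbs
  have p3 : ∑ x ∈ K', ∑ F, k x F * Real.log (law (fblk K r x) k F / law (fblk K' r x) k F) ≤ 0 := by
    have e1 : ∑ x ∈ K', ∑ F, k x F * Real.log (law (fblk K r x) k F / law (fblk K' r x) k F) =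
        ∑ x ∈ K', ∑ F, law (fblk K' r x) k F *
          Real.log (law (fblk K r x) k F / law (fblk K' r x) k F) := by
      rw [Finset.sum_comm, Finset.sum_comm (s := K')]
      refine Finset.sum_congr rfl (fun F _ => ?_)
      exact sum_blk_mean K' r (fun x => k x F)
        (fun i => Real.log (law (K.filter (fun y => r y = i)) k F / law (K'.filter (fun y => r y = i)) k F))
    rw [e1]
    refine Finset.sum_nonpos (fun x hx => ?_)
    have s1 : (fblk K' r x) ⊆ K := (fblk_subset K' r x).trans h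
    have n1 : (fblk K' r x).Nonempty := ⟨x, self_fblk hx⟩
    have n2 : (fblk K r x).Nonempty := ⟨x, self_fblk (h hx)⟩
    refine gibbs_law (lawnn s1 n1) (lawnn (fblk_subset K r x) n2) (fun F hne => ?_)
      (law_sum n1 (fun y hy => h1 y (s1 hy))) (law_sum n2 (fun y hy => h1 y (fblk_subset K r x hy))).le
    rcases dich F with hF | hF
    · exfalso
      apply hne
      unfold law avg
      rw [Finset.sum_eq_zero (fun y hy => hF y (s1 hy)), zero_div]
    · exact lawpos (fblk_subset K r x) n2 F hF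
  -- the global ratio
  have p4 : ∑ x ∈ K', ∑ F, k x F * Real.log (law K' k F / law K k F) ≤ ((K \ K').card : ℝ) := by
    have hcK : (0 : ℝ) < K.card := by exact_mod_cast Finset.card_pos.2 ⟨x0, hx0⟩
    have hcK' : (0 : ℝ) < K'.card := by exact_mod_cast Finset.card_pos.2 hK'
    have e0 : ((K \ K').card : ℝ) = K.card - K'.card := by
      rw [Finset.card_sdiff_of_subset h, Nat.cast_sub (Finset.card_le_card h)]
    have e1 : ∀ x ∈ K', ∀ F, k x F * Real.log (law K' k F / law K k F) ≤
        k x F * ((K.card : ℝ) / K'.card - 1) := by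
      intro x hx F
      rcases dich F with hF | hF
      · rw [hF x (h hx), zero_mul, zero_mul]
      · have q1 := lawpos h hK' F hF
        have q2 := lawpos (Finset.Subset.refl K) ⟨x0, hx0⟩ F hF
        have e2 : law K' k F / law K k F ≤ (K.card : ℝ) / K'.card := by
          rw [div_le_iff₀ q2]
          unfold law avg
          rw [div_mul_div_comm, div_le_div_iff₀ hcK' (mul_pos hcK' hcK)]
          have e3 : ∑ x ∈ K', k x F ≤ ∑ x ∈ K, k x F :=
            Finset.sum_le_sum_of_subset_of_nonneg h (fun x hx _ => h0 x hx F)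
          nlinarith [mul_pos hcK' hcK]
        exact mul_le_mul_of_nonneg_left ((Real.log_le_sub_one_of_pos (div_pos q1 q2)).trans
          (sub_le_sub_right e2 1)) (h0 x (h hx) F)
    calc ∑ x ∈ K', ∑ F, k x F * Real.log (law K' k F / law K k F)
        ≤ ∑ x ∈ K', ∑ F, k x F * ((K.card : ℝ) / K'.card - 1) :=
          Finset.sum_le_sum (fun x hx => Finset.sum_le_sum (fun F _ => e1 x hx F))
      _ = ∑ x ∈ K', ((K.card : ℝ) / K'.card - 1) := by
          refine Finset.sum_congr rfl (fun x hx => ?_)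
          rw [← Finset.sum_mul, h1 x (h hx), one_mul]
      _ = ((K \ K').card : ℝ) := by
          rw [Finset.sum_const, nsmul_eq_mul, e0]
          field_simp
  rw [p2]
  linarith

/-- the information is nonnegative -/
theorem infoN_nonneg [Fintype Φ] [DecidableEq X] {k : X → Φ → ℝ} {Lam : ℝ} {K : Finset X}
    (h0 : ∀ x ∈ K, ∀ F, 0 ≤ k x F) (ht : ∀ x ∈ K, ∀ x' ∈ K, ∀ F, k x F ≠ 0 → Real.exp (-Lam) ≤ k x' F)
    (h1 : ∀ x ∈ K, ∑ F, k x F = 1) (r : X → ι) : 0 ≤ infoN k K r := by
  classical
  have hal : 0 < Real.exp (-Lam) := Real.exp_pos _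
  unfold infoN
  have e1 : ∑ x ∈ K, ∑ F, k x F * Real.log (law (fblk K r x) k F / law K k F) =
      ∑ x ∈ K, ∑ F, law (fblk K r x) k F * Real.log (law (fblk K r x) k F / law K k F) := by
    rw [Finset.sum_comm, Finset.sum_comm (s := K)]
    refine Finset.sum_congr rfl (fun F _ => ?_)
    exact sum_blk_mean K r (fun x => k x F)
      (fun i => Real.log (law (K.filter (fun y => r y = i)) k F / law K k F))
  rw [e1]
  refine Finset.sum_nonneg (fun x hx => ?_)
  have s1 := fblk_subset K r x
  have n1 : (fblk K r x).Nonempty := ⟨x, self_fblk hx⟩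
  have n2 : K.Nonempty := ⟨x, hx⟩
  have g := gibbs_law (p := fun F => law (fblk K r x) k F) (q := fun F => law K k F)
    (fun F => le_law n1 (fun y hy => h0 y (s1 hy) F)) (fun F => le_law n2 (fun y hy => h0 y hy F))
    (fun F hne => by
      by_cases hF : k x F = 0
      · exfalso
        apply hne
        have hz : ∀ y ∈ fblk K r x, k y F = 0 := by
          intro y hy
          by_contra hc
          have := ht y (s1 hy) x hx F hc
          linarith
        show law (fblk K r x) k F = 0
        unfold law avg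
        rw [Finset.sum_eq_zero hz, zero_div]
      · exact hal.trans_le (le_law n2 (fun y hy => ht x hx y hy F hF)))
    (law_sum n1 (fun y hy => h1 y (s1 hy))) (law_sum n2 h1).le
  have e2 : ∑ F, law (fblk K r x) k F * Real.log (law (fblk K r x) k F / law K k F) =
      - ∑ F, law (fblk K r x) k F * Real.log (law K k F / law (fblk K r x) k F) := by
    rw [← Finset.sum_neg_distrib]
    refine Finset.sum_congr rfl (fun F _ => ?_)
    rw [← mul_neg, ← Real.log_inv, inv_div]
  rw [e2]
  linarith

/-- the count of (h3), one family: `gainF` on the class and on a slightly smaller class -/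
theorem gainF_le [Fintype Φ] [DecidableEq X] {n : ℝ} (hn : 0 ≤ n) {k : X → β → Φ → ℝ} {Lam : ℝ} (hL : 0 ≤ Lam)
    {K K' : Finset X} {Bs : Finset β} (hB : Bs.Nonempty) (h0 : ∀ x ∈ K, ∀ b ∈ Bs, ∀ F, 0 ≤ k x b F)
    (ht : ∀ x ∈ K, ∀ x' ∈ K, ∀ b ∈ Bs, ∀ F, k x b F ≠ 0 → Real.exp (-Lam) ≤ k x' b F)
    (h1 : ∀ x ∈ K, ∀ b ∈ Bs, ∑ F, k x b F = 1) (h : K' ⊆ K) (hK' : K'.Nonempty) (r : X → ι) :
    gainF n k K Bs r ≤ gainF n k K' Bs r + ((K \ K').card : ℝ) * (n * (Lam + 1) + 1) := by
  unfold gainF
  have q1 : avg Bs (fun b => infoN (fun x => k x b) K r) ≤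
      avg Bs (fun b => infoN (fun x => k x b) K' r) + ((K \ K').card : ℝ) * (Lam + 1) := by
    rw [← avg_const hB (((K \ K').card : ℝ) * (Lam + 1)), ← avg_add]
    exact avg_mono (fun b hb => info_part hL (fun x hx => h0 x hx b hb)
      (fun x hx x' hx' => ht x hx x' hx' b hb) (fun x hx => h1 x hx b hb) h hK' r)
  have q2 := ent_part h hK' r
  have q3 := mul_le_mul_of_nonneg_left q1 hn
  have e : ((K \ K').card : ℝ) * (n * (Lam + 1) + 1) =
      n * (((K \ K').card : ℝ) * (Lam + 1)) + ((K \ K').card : ℝ) := by ring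
  rw [e]
  rw [mul_add] at q3
  linarith

/-! ## data processing -/

/-- log-sum inequality: relative entropy decreases under a map -/
theorem klf_map_le [Fintype Φ] [Fintype Φ'] [DecidableEq Φ'] (π : Φ → Φ') {p q : Φ → ℝ} (hp : ∀ F, 0 ≤ p F)
    (hq : ∀ F, 0 ≤ q F) (hpq : ∀ F, p F ≠ 0 → 0 < q F) :
    ∑ G, (∑ F, if π F = G then p F else 0) *
        Real.log ((∑ F, if π F = G then p F else 0) / (∑ F, if π F = G then q F else 0)) ≤
      ∑ F, p F * Real.log (p F / q F) := by
  set P : Φ' → ℝ := fun G => ∑ F, if π F = G then p F else 0 with hP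
  set Q : Φ' → ℝ := fun G => ∑ F, if π F = G then q F else 0 with hQ
  have hP0 : ∀ G, 0 ≤ P G := fun G => Finset.sum_nonneg (fun F _ => by
    by_cases h : π F = G
    · rw [if_pos h]; exact hp F
    · rw [if_neg h])
  have hQ0 : ∀ G, 0 ≤ Q G := fun G => Finset.sum_nonneg (fun F _ => by
    by_cases h : π F = G
    · rw [if_pos h]; exact hq F
    · rw [if_neg h])
  have hpP : ∀ F, p F ≤ P (π F) := fun F => by
    have h := Finset.single_le_sum (f := fun F' => if π F' = π F then p F' else 0)
      (fun F' _ => by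
        by_cases h : π F' = π F
        · rw [if_pos h]; exact hp F'
        · rw [if_neg h]) (Finset.mem_univ F)
    rw [if_pos rfl] at h
    exact h
  have hqQ : ∀ F, q F ≤ Q (π F) := fun F => by
    have h := Finset.single_le_sum (f := fun F' => if π F' = π F then q F' else 0)
      (fun F' _ => by
        by_cases h : π F' = π F
        · rw [if_pos h]; exact hq F'
        · rw [if_neg h]) (Finset.mem_univ F)
    rw [if_pos rfl] at h
    exact h
  have swap : ∀ (g : Φ' → ℝ) (v : Φ → ℝ), ∑ G, (∑ F, if π F = G then v F else 0) * g G =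
      ∑ F, v F * g (π F) := by
    intro g v
    calc ∑ G, (∑ F, if π F = G then v F else 0) * g G
        = ∑ G, ∑ F, (if π F = G then v F * g (π F) else 0) := by
          refine Finset.sum_congr rfl (fun G _ => ?_)
          rw [Finset.sum_mul]
          refine Finset.sum_congr rfl (fun F _ => ?_)
          by_cases h : π F = G
          · rw [if_pos h, if_pos h, h]
          · rw [if_neg h, if_neg h, zero_mul]
      _ = ∑ F, ∑ G, (if π F = G then v F * g (π F) else 0) := Finset.sum_comm
      _ = ∑ F, v F * g (π F) := by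
          refine Finset.sum_congr rfl (fun F _ => ?_)
          rw [Finset.sum_ite_eq, if_pos (Finset.mem_univ _)]
  have e1 : ∑ G, P G * Real.log (P G / Q G) = ∑ F, p F * Real.log (P (π F) / Q (π F)) :=
    swap (fun G => Real.log (P G / Q G)) p
  rw [e1, ← sub_nonneg, ← Finset.sum_sub_distrib]
  -- pointwise lower bound
  have e2 : ∀ F, p F - q F * (P (π F) / Q (π F)) ≤
      p F * Real.log (p F / q F) - p F * Real.log (P (π F) / Q (π F)) := by
    intro F
    by_cases h : p F = 0
    · rw [h]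
      have := mul_nonneg (hq F) (div_nonneg (hP0 (π F)) (hQ0 (π F)))
      linarith
    · have hpF : 0 < p F := lt_of_le_of_ne (hp F) (Ne.symm h)
      have hqF := hpq F h
      have hPF : 0 < P (π F) := hpF.trans_le (hpP F)
      have hQF : 0 < Q (π F) := hqF.trans_le (hqQ F)
      have h3 := Real.log_le_sub_one_of_pos (x := q F * P (π F) / (p F * Q (π F))) (by positivity)
      have h4 : Real.log (q F * P (π F) / (p F * Q (π F))) =
          Real.log (P (π F) / Q (π F)) - Real.log (p F / q F) := by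
        rw [Real.log_div (by positivity) (by positivity), Real.log_mul hqF.ne' hPF.ne',
          Real.log_mul hpF.ne' hQF.ne', Real.log_div hPF.ne' hQF.ne', Real.log_div hpF.ne' hqF.ne']
        ring
      rw [h4] at h3
      have h5 := mul_le_mul_of_nonneg_left h3 hpF.le
      have h6 : p F * (q F * P (π F) / (p F * Q (π F)) - 1) = q F * (P (π F) / Q (π F)) - p F := by
        field_simp
      rw [h6] at h5
      linarith
  refine le_trans ?_ (Finset.sum_le_sum (fun F _ => e2 F))
  rw [Finset.sum_sub_distrib]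
  have e3 : ∑ F, q F * (P (π F) / Q (π F)) = ∑ G, Q G * (P G / Q G) :=
    (swap (fun G => P G / Q G) q).symm
  have e4 : ∑ G, Q G * (P G / Q G) ≤ ∑ G, P G := by
    refine Finset.sum_le_sum (fun G _ => ?_)
    by_cases h : Q G = 0
    · rw [h, zero_mul]; exact hP0 G
    · rw [mul_div_cancel₀ _ h]
  have e5 : ∑ G, P G = ∑ F, p F := by
    have := swap (fun _ => (1 : ℝ)) p
    simp only [mul_one] at this
    exact this
  rw [e3, sub_nonneg, ← e5]
  exact e4

/-- the information through the laws of the blocks -/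
theorem infoN_eq [Fintype Φ] (k : X → Φ → ℝ) (K : Finset X) (r : X → ι) :
    infoN k K r = ∑ x ∈ K, klf (law (fblk K r x) k) (law K k) := by
  classical
  unfold infoN klf
  rw [Finset.sum_comm, Finset.sum_comm (s := K)]
  refine Finset.sum_congr rfl (fun F _ => ?_)
  exact sum_blk_mean K r (fun x => k x F)
    (fun i => Real.log (law (K.filter (fun y => r y = i)) k F / law K k F))

/-- data processing: coarser labels have less information -/
theorem infoN_map_le [Fintype Φ] [Fintype Φ'] [DecidableEq Φ'] {k : X → Φ → ℝ} {k0 : X → Φ' → ℝ} (π : Φ → Φ')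
    {Lam : ℝ} {K : Finset X} (h0 : ∀ x ∈ K, ∀ F, 0 ≤ k x F)
    (ht : ∀ x ∈ K, ∀ x' ∈ K, ∀ F, k x F ≠ 0 → Real.exp (-Lam) ≤ k x' F)
    (hπ : ∀ x ∈ K, ∀ G, k0 x G = ∑ F, if π F = G then k x F else 0) (r : X → ι) :
    infoN k0 K r ≤ infoN k K r := by
  rw [infoN_eq, infoN_eq]
  refine Finset.sum_le_sum (fun x hx => ?_)
  have s1 := fblk_subset K r x
  have n1 : (fblk K r x).Nonempty := ⟨x, self_fblk hx⟩
  have n2 : K.Nonempty := ⟨x, hx⟩
  have lm : ∀ {S : Finset X}, S ⊆ K → ∀ G, law S k0 G = ∑ F, if π F = G then law S k F else 0 := by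
    intro S hS G
    unfold law avg
    rw [Finset.sum_congr rfl (fun y hy => hπ y (hS hy) G), Finset.sum_comm, Finset.sum_div]
    refine Finset.sum_congr rfl (fun F _ => ?_)
    by_cases h : π F = G
    · simp only [if_pos h]
    · simp only [if_neg h, Finset.sum_const_zero, zero_div]
  unfold klf
  simp only [lm s1, lm (Finset.Subset.refl K)]
  exact klf_map_le π (fun F => le_law n1 (fun y hy => h0 y (s1 hy) F))
    (fun F => le_law n2 (fun y hy => h0 y hy F))
    (fun F hne => by
      by_cases hF : k x F = 0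
      · exfalso
        apply hne
        have hz : ∀ y ∈ fblk K r x, k y F = 0 := by
          intro y hy
          by_contra hc
          have h1 := ht y (s1 hy) x hx F hc
          have h2 := Real.exp_pos (-Lam)
          linarith
        unfold law avg
        rw [Finset.sum_eq_zero hz, zero_div]
      · exact (Real.exp_pos (-Lam)).trans_le (le_law n2 (fun y hy => ht x hx y hy F hF)))

/-! ## the static part of (h3) -/

/-- the value of a partition for the complete split: `|K| (n (E_b I_K(f_b;r) + E_c I_K(g_c;r)) - H_K(r))` -/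
noncomputable def gain2 [Fintype Φ] (n : ℝ) (k : X → β → Φ → ℝ) (l : X → γ → Φ → ℝ) (K : Finset X)
    (Bs : Finset β) (Cs : Finset γ) (r : X → ι) : ℝ :=
  n * (avg Bs (fun b => infoN (fun x => k x b) K r) + avg Cs (fun c => infoN (fun x => l x c) K r)) - entN K r

/-- (h3): if the main block of the argmin removal of `K` (old labels `k0`) misses the proportion `e4` of `K`, then the
complete split `rs` (current labels `k`, `l`) of a subset `K'` of nearly full size has a definite surplus. -/
theorem h3_static [Fintype Φ] [Fintype Φ'] [DecidableEq X] [DecidableEq Φ'] {n : ℝ} (hn : 0 ≤ n)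
    {k0 : X → β → Φ' → ℝ} {k : X → β → Φ → ℝ} {l : X → γ → Φ → ℝ} {Lam Lr e e4 : ℝ} (hL : 0 ≤ Lam)
    {K K' : Finset X} {Bs : Finset β} {Cs : Finset γ} (hB : Bs.Nonempty)
    (h00 : ∀ x ∈ K, ∀ b ∈ Bs, ∀ F, 0 ≤ k0 x b F)
    (ht0 : ∀ x ∈ K, ∀ x' ∈ K, ∀ b ∈ Bs, ∀ F, k0 x b F ≠ 0 → Real.exp (-Lam) ≤ k0 x' b F)
    (h10 : ∀ x ∈ K, ∀ b ∈ Bs, ∑ F, k0 x b F = 1)
    (h0 : ∀ x ∈ K', ∀ b ∈ Bs, ∀ F, 0 ≤ k x b F)
    (ht : ∀ x ∈ K', ∀ x' ∈ K', ∀ b ∈ Bs, ∀ F, k x b F ≠ 0 → Real.exp (-Lam) ≤ k x' b F)
    (hl0 : ∀ x ∈ K', ∀ c ∈ Cs, ∀ F, 0 ≤ l x c F)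
    (hlt : ∀ x ∈ K', ∀ x' ∈ K', ∀ c ∈ Cs, ∀ F, l x c F ≠ 0 → Real.exp (-Lam) ≤ l x' c F)
    (hl1 : ∀ x ∈ K', ∀ c ∈ Cs, ∑ F, l x c F = 1)
    (π : β → Φ → Φ') (hπ : ∀ x ∈ K', ∀ b ∈ Bs, ∀ G, k0 x b G = ∑ F, if π b F = G then k x b F else 0)
    (h : K' ⊆ K) (hK' : K'.Nonempty) (hc : ((K \ K').card : ℝ) ≤ e * K.card)
    (hnum : e * (n * (Lam + 1) + 1) ≤ Lr * e4 / 2)
    {r rs : X → ι} {M : Finset X} (harg : Lr * (K \ M).card ≤ gainF n k0 K Bs r) (hLr : 0 ≤ Lr)
    (hM : e4 * K.card ≤ ((K \ M).card : ℝ))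
    (hrs : gain2 n k l K' Bs Cs r ≤ gain2 n k l K' Bs Cs rs) :
    Lr * e4 / 2 * K.card ≤ gain2 n k l K' Bs Cs rs := by
  have a1 := gainF_le hn hL hB h00 ht0 h10 h hK' r
  have a2 : gainF n k0 K' Bs r ≤ gain2 n k l K' Bs Cs r := by
    unfold gainF gain2
    have b1 : avg Bs (fun b => infoN (fun x => k0 x b) K' r) ≤ avg Bs (fun b => infoN (fun x => k x b) K' r) :=
      avg_mono (fun b hb => infoN_map_le (π b) (fun x hx => h0 x hx b hb)
        (fun x hx x' hx' => ht x hx x' hx' b hb) (fun x hx => hπ x hx b hb) r)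
    have b2 : 0 ≤ avg Cs (fun c => infoN (fun x => l x c) K' r) :=
      div_nonneg (Finset.sum_nonneg (fun c hc' => infoN_nonneg (fun x hx => hl0 x hx c hc')
        (fun x hx x' hx' => hlt x hx x' hx' c hc') (fun x hx => hl1 x hx c hc') r)) (Nat.cast_nonneg _)
    have b3 := mul_le_mul_of_nonneg_left b1 hn
    have b4 := mul_nonneg hn b2
    rw [mul_add]
    linarith
  have a3 : ((K \ K').card : ℝ) * (n * (Lam + 1) + 1) ≤ Lr * e4 / 2 * K.card := by
    have p : 0 ≤ n * (Lam + 1) + 1 := by positivity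
    calc ((K \ K').card : ℝ) * (n * (Lam + 1) + 1) ≤ e * K.card * (n * (Lam + 1) + 1) :=
          mul_le_mul_of_nonneg_right hc p
      _ = e * (n * (Lam + 1) + 1) * K.card := by ring
      _ ≤ _ := mul_le_mul_of_nonneg_right hnum (Nat.cast_nonneg _)
  have a4 : Lr * (e4 * K.card) ≤ Lr * ((K \ M).card : ℝ) := mul_le_mul_of_nonneg_left hM hLr
  have a5 : Lr * (e4 * K.card) = Lr * e4 / 2 * K.card + Lr * e4 / 2 * K.card := by ring
  linarith

end Pool.Agent.M3.S3
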