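import Pool.Agent.M3.S3.Tower
import Pool.Agent.M3.S3.FComp

/-!
# M3.S3.Flux: Lemma P along the process (3.8, 3.9 (al) of section 3) (helper26)

`P : Prc D`, horizon `K`, threshold `q`, `z : Bool` (strict order of the two hits), `big e s x b c` = the cell of the `f`-hit
at the time `s` is big (depends on `c` only through `qc e.t0 c`).
* `ff s` : big `f`-fall at the time `s+1` which is not at an end of type E; `fl s` : fall at the time `s+1`;
* `flux_static` : Lemma P at a fixed start `σ`, fixed hidden point, averages over the cells of `b` and `c` at `σ`;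
* `flux` : `∑_{s<K} E3 (1[ff s] Ψ (sb s)) ≤ 2/q lam ∑ E3 1[ff s] + 2 q lam ∑ E3 1[fl s]
    + M ∑_{σ<K} E3 (1[start σ] (1[lam < E_c Ψ σ] + 1[lam < E_b Ψ σ]))`.
The `g`-system is the same theorem for `P.swap` with `z = true`.
-/

set_option autoImplicit false
set_option linter.unusedSectionVars false
set_option linter.unusedVariables false

namespace Pool.Agent.M3.S3

open Finset Pool.Agent.PWZ Pool.Agent.M3

noncomputable section

variable {X β γ ι φ : Type*} [Fintype X] [Fintype β] [Fintype γ] {D : Dat X β γ ι φ}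

namespace Prc

variable (P : Prc D) (K : ℕ) (q : ℝ) (z : Bool) (big : Epo X → ℕ → X → β → γ → Prop)

/-- time of the virtual `f`-hit after `σ` -/
def sfT (e : Epo X) (σ : ℕ) (x : X) (b : β) (c : γ) : ℕ := fst1 K fun s => σ < s ∧ x ∉ P.KF e s x b c

/-- time of the virtual `g`-hit after `σ` -/
def sgT (e : Epo X) (σ : ℕ) (x : X) (b : β) (c : γ) : ℕ := fst1 K fun s => σ < s ∧ x ∉ P.KG e s x b c

/-- test time of the epoch -/
def teT (e : Epo X) (x : X) (b : β) (c : γ) : ℕ := fst1 K fun s => P.ST e s x b c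

/-- `E^B(b)` -/
def EBT (e : Epo X) (σ : ℕ) (x : X) (b : β) (c : γ) : ℕ := fst1 K fun s => P.EBp q e σ s x b c

/-- `E^A` -/
def EAT (e : Epo X) (σ : ℕ) (x : X) (b : β) (c : γ) : ℕ := fst1 K fun s => P.EAp q e σ s x b c

/-- order of the two hits -/
def tie (z : Bool) (s t : ℕ) : Prop := if z = true then s < t else s ≤ t

/-- big `f`-fall in the sub-epoch which starts at `σ` -/
def Fp (e : Epo X) (σ : ℕ) (x : X) (b : β) (c : γ) : Prop :=
  big e (P.sfT K e σ x b c) x b c ∧ P.sfT K e σ x b c < P.teT K e x b c ∧ P.sfT K e σ x b c < P.EBT K q e σ x b c ∧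
    P.sfT K e σ x b c < P.EAT K q e σ x b c ∧ tie z (P.sfT K e σ x b c) (P.sgT K e σ x b c)

/-- fall in the sub-epoch which starts at `σ` -/
def Xp (e : Epo X) (σ : ℕ) (x : X) (b : β) (c : γ) : Prop :=
  (P.sfT K e σ x b c < P.teT K e x b c ∧ P.sfT K e σ x b c < P.EBT K q e σ x b c ∧
    P.sfT K e σ x b c < P.EAT K q e σ x b c) ∨
  (P.sgT K e σ x b c < P.teT K e x b c ∧ P.sgT K e σ x b c < P.EBT K q e σ x b c ∧
    P.sgT K e σ x b c < P.EAT K q e σ x b c)

variable {P K q z big}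

theorem EBp_inv' {e : Epo X} {σ s : ℕ} {x x' : X} {b b' : β} {c c' : γ} (hx : D.qa s x = D.qa s x')
    (hb : D.qb s b = D.qb s b') (hc : D.qc σ c = D.qc σ c') : P.EBp q e σ s x b c ↔ P.EBp q e σ s x' b' c' := by
  classical
  unfold EBp
  rw [D.cC_congr hc]
  have : (D.cC σ c').filter (fun c'' => P.ST e s x b c'') = (D.cC σ c').filter (fun c'' => P.ST e s x' b' c'') :=
    filter_congr fun c'' _ => ST_inv ⟨hx, hb, rfl⟩
  rw [this]

theorem sfT_c {e : Epo X} {σ : ℕ} (hσ : e.t0 ≤ σ) {x : X} {b : β} {c c' : γ} (hc : D.qc σ c = D.qc σ c') :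
    P.sfT K e σ x b c = P.sfT K e σ x b c' := by
  unfold sfT
  refine fst1_congr fun s _ => and_congr_right fun h => ?_
  rw [P.KF_inv e s x x b b c c' (by omega) rfl rfl (D.qc_le hσ hc)]

theorem sgT_b {e : Epo X} {σ : ℕ} (hσ : e.t0 ≤ σ) {x : X} {b b' : β} {c : γ} (hb : D.qb σ b = D.qb σ b') :
    P.sgT K e σ x b c = P.sgT K e σ x b' c := by
  unfold sgT
  refine fst1_congr fun s _ => and_congr_right fun h => ?_
  rw [P.KG_inv e s x x b b' c c (by omega) rfl (D.qb_le hσ hb) rfl]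

theorem EBT_c {e : Epo X} {σ : ℕ} {x : X} {b : β} {c c' : γ} (hc : D.qc σ c = D.qc σ c') :
    P.EBT K q e σ x b c = P.EBT K q e σ x b c' := by
  unfold EBT
  exact fst1_congr fun s _ => EBp_inv' rfl rfl hc

theorem EAp_inv' {e : Epo X} {σ s : ℕ} {x : X} {b b' : β} {c c' : γ}
    (hb : D.qb σ b = D.qb σ b') (hc : D.qc σ c = D.qc σ c') : P.EAp q e σ s x b c ↔ P.EAp q e σ s x b' c' := by
  unfold EAp
  rw [D.cC_congr hc, D.cB_congr hb]

theorem EAT_bc {e : Epo X} {σ : ℕ} {x : X} {b b' : β} {c c' : γ} (hb : D.qb σ b = D.qb σ b')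
    (hc : D.qc σ c = D.qc σ c') : P.EAT K q e σ x b c = P.EAT K q e σ x b' c' := by
  unfold EAT
  exact fst1_congr fun s _ => EAp_inv' hb hc

theorem ind_avg_card {α : Type*} [Fintype α] (s : Finset α) (p : α → Prop) :
    avg s (fun a => ind (p a)) = (by classical exact ((s.filter p).card : ℝ)) / s.card := by
  classical
  unfold avg
  congr 1
  rw [Finset.card_filter]
  push_cast
  refine sum_congr rfl fun a _ => ?_
  by_cases h : p a
  · rw [ind_of h, if_pos h]
  · rw [ind_not h, if_neg h]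

/-- LEMMA P at a fixed start and a fixed hidden point -/
theorem flux_static (hq : 0 < q) (hq1 : q ≤ 1 / 4) {lam M : ℝ} (hlam : 0 ≤ lam)
    (hbig : ∀ (e : Epo X) s x b c c', D.qc e.t0 c = D.qc e.t0 c' → (big e s x b c ↔ big e s x b c'))
    {e : Epo X} {σ : ℕ} (hσ : e.t0 ≤ σ) (x : X) (b : β) (c : γ) (Ψ : β → γ → ℝ) (h0 : ∀ b c, 0 ≤ Ψ b c)
    (hM : ∀ b c, Ψ b c ≤ M) :
    avg (D.cB σ b) (fun b' => avg (D.cC σ c) fun c' => ind (P.Fp K q z big e σ x b' c') * Ψ b' c') ≤
      2 / q * lam * avg (D.cB σ b) (fun b' => avg (D.cC σ c) fun c' => ind (P.Fp K q z big e σ x b' c')) +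
      2 * q * lam * avg (D.cB σ b) (fun b' => avg (D.cC σ c) fun c' => ind (P.Xp K q e σ x b' c')) +
      M * (avg (D.cB σ b) (fun b' => ind (lam < avg (D.cC σ c) fun c' => Ψ b' c')) +
        avg (D.cC σ c) (fun c' => ind (lam < avg (D.cB σ b) fun b' => Ψ b' c'))) := by
  classical
  have hBn : (D.cB σ b).Nonempty := ⟨b, D.self_cB σ b⟩
  have hCn : (D.cC σ c).Nonempty := ⟨c, D.self_cC σ c⟩
  set o1 : ℕ := if z = true then 1 else 0 with ho1
  set o2 : ℕ := if z = true then 0 else 1 with ho2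
  let E : M3.Ep β γ ℕ :=
    { sf := fun b' => 2 * P.sfT K e σ x b' c + o1
      sg := fun c' => 2 * P.sgT K e σ x b c' + o2
      su := fun _ _ => 2 * K + 10
      te := fun b' c' => 2 * P.teT K e x b' c'
      EB := fun b' => 2 * P.EBT K q e σ x b' c
      EC := fun _ => 2 * P.EAT K q e σ x b c
      EA := 2 * P.EAT K q e σ x b c
      big := fun b' => big e (P.sfT K e σ x b' c) x b' c }
  have htie : ∀ s t : ℕ, tie z s t ↔ 2 * s + o1 ≤ 2 * t + o2 := by
    intro s t
    unfold tie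
    rw [ho1, ho2]
    cases z
    · simp only [Bool.false_eq_true, if_false]; omega
    · simp only [if_true]; omega
  have ho : ∀ s t : ℕ, 2 * s + o1 < 2 * t ↔ s < t := by
    intro s t
    rw [ho1]
    split_ifs <;> omega
  have ho' : ∀ s t : ℕ, 2 * s + o2 < 2 * t ↔ s < t := by
    intro s t
    rw [ho2]
    split_ifs <;> omega
  -- translation of the events
  have hF : ∀ b' ∈ D.cB σ b, ∀ c' ∈ D.cC σ c, (E.F b' c' ↔ P.Fp K q z big e σ x b' c') := by
    intro b' hb' c' hc'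
    have kb := D.mem_cB.1 hb'
    have kc := D.mem_cC.1 hc'
    unfold Ep.F Ep.al Fp
    simp only [E]
    rw [ho, ho, ho, P.sfT_c hσ kc, P.sgT_b hσ kb, P.EBT_c kc, P.EAT_bc kb kc, htie]
    have e1 := hbig e (P.sfT K e σ x b' c) x b' c' c (D.qc_le hσ kc)
    rw [e1]
    constructor
    · rintro ⟨h1, ⟨h2, h3, h4, -⟩, h5, -⟩
      exact ⟨h1, h2, h3, h4, h5⟩
    · rintro ⟨h1, h2, h3, h4, h5⟩
      refine ⟨h1, ⟨h2, h3, h4, h4⟩, h5, ?_⟩
      have h6 : P.teT K e x b' c' ≤ K + 1 := fst1_le K _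
      have h7 : o1 ≤ 1 := by rw [ho1]; split_ifs <;> omega
      omega
  have hXu : ∀ b' c', ¬ E.Xu b' c' := by
    intro b' c' h
    have h1 := h.1.1
    simp only [E] at h1
    have h6 : P.teT K e x b' c' ≤ K + 1 := fst1_le K _
    omega
  have hX : ∀ b' ∈ D.cB σ b, ∀ c' ∈ D.cC σ c, (E.X b' c' ↔ P.Xp K q e σ x b' c') := by
    intro b' hb' c' hc'
    have kb := D.mem_cB.1 hb'
    have kc := D.mem_cC.1 hc'
    have h6 : P.teT K e x b' c' ≤ K + 1 := fst1_le K _
    unfold Ep.X Ep.al Xp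
    simp only [E]
    rw [ho, ho, ho, ho', ho', ho', P.sfT_c hσ kc, P.sgT_b hσ kb, P.EBT_c kc, P.EAT_bc kb kc]
    constructor
    · rintro (⟨h2, h3, h4, -⟩ | ⟨h2, h3, h4, -⟩ | ⟨h2, -⟩)
      · exact Or.inl ⟨h2, h3, h4⟩
      · exact Or.inr ⟨h2, h3, h4⟩
      · omega
    · rintro (⟨h2, h3, h4⟩ | ⟨h2, h3, h4⟩)
      · exact Or.inl ⟨h2, h3, h4, h4⟩
      · exact Or.inr (Or.inl ⟨h2, h3, h4, h4⟩)
  have hST : ∀ b' c' s, s ≤ K → (P.teT K e x b' c' ≤ s ↔ P.ST e s x b' c') := fun b' c' s hs =>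
    fst1_le_iff (fun _ _ h => ST_mono h) hs
  have hEB : ∀ b' c' s, s ≤ K → (P.EBT K q e σ x b' c' ≤ s ↔ P.EBp q e σ s x b' c') := fun b' c' s hs =>
    fst1_le_iff (fun _ _ h => EBp_mono h) hs
  have hEA : ∀ b' c' s, s ≤ K → (P.EAT K q e σ x b' c' ≤ s ↔ P.EAp q e σ s x b' c') := fun b' c' s hs =>
    fst1_le_iff (fun _ _ h => EAp_mono h) hs
  have cCpos : (0 : ℝ) < (D.cC σ c).card := by exact_mod_cast hCn.card_pos
  have cBpos : (0 : ℝ) < (D.cB σ b).card := by exact_mod_cast hBn.card_pos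
  have key := FP.lemmaP' (unifOn (D.cB σ b) hBn) (unifOn (D.cC σ c) hCn) E hq hq1 hlam (fun _ => rfl)
    (by
      intro b' s h1 h2
      simp only [E] at h1 h2
      have hr : s / 2 < P.EBT K q e σ x b' c := by omega
      have hrK : s / 2 ≤ K := by
        have : P.EBT K q e σ x b' c ≤ K + 1 := fst1_le K _
        omega
      have hn : ¬ P.EBp q e σ (s / 2) x b' c := fun h => absurd ((hEB b' c _ hrK).2 h) (by omega)
      unfold EBp at hn
      rw [not_lt] at hn
      unfold FP.Pr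
      rw [unifOn_E]
      calc avg (D.cC σ c) (fun c' => ind (E.te b' c' ≤ s)) ≤ avg (D.cC σ c) (fun c' => ind (P.ST e (s / 2) x b' c')) := by
            refine Tw.avg_le_avg fun c' _ => ind_mono fun h => ?_
            simp only [E] at h
            exact (hST b' c' _ hrK).1 (by omega)
        _ ≤ q / 2 := by
            rw [ind_avg_card, div_le_iff₀ cCpos]
            exact hn)
    (by
      intro s h2
      simp only [E] at h2
      have hr : s / 2 < P.EAT K q e σ x b c := by omega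
      have hrK : s / 2 ≤ K := by
        have : P.EAT K q e σ x b c ≤ K + 1 := fst1_le K _
        omega
      have hn : ¬ P.EAp q e σ (s / 2) x b c := fun h => absurd ((hEA b c _ hrK).2 h) (by omega)
      unfold EAp at hn
      rw [not_lt] at hn
      unfold FP.Pr
      rw [unifOn_E]
      simp only [unifOn_E]
      calc avg (D.cB σ b) (fun b' => avg (D.cC σ c) fun c' => ind (E.te b' c' ≤ s ∨ E.EB b' ≤ s))
          ≤ avg (D.cB σ b) (fun b' => avg (D.cC σ c) fun c' =>
              ind (P.ST e (s / 2) x b' c' ∨ P.EBp q e σ (s / 2) x b' c')) := by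
            refine Tw.avg_le_avg fun b' _ => Tw.avg_le_avg fun c' hc' => ind_mono fun h => ?_
            simp only [E] at h
            rcases h with h | h
            · exact Or.inl ((hST b' c' _ hrK).1 (by omega))
            · refine Or.inr ((EBp_inv' rfl rfl (D.mem_cC.1 hc')).2 ((hEB b' c _ hrK).1 (by omega)))
        _ = avg (D.cB σ b ×ˢ D.cC σ c) (fun w => ind (P.ST e (s / 2) x w.1 w.2 ∨ P.EBp q e σ (s / 2) x w.1 w.2)) :=
            (avg_prod (D.cB σ b) (D.cC σ c)
              (fun b' c' => ind (P.ST e (s / 2) x b' c' ∨ P.EBp q e σ (s / 2) x b' c'))).symm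
        _ ≤ 1 / 4 := by
            rw [ind_avg_card, card_product, div_le_iff₀ (by push_cast; positivity)]
            push_cast
            convert hn)
    Ψ h0 hM (fun b' => (unifOn (D.cC σ c) hCn).E (fun c' => Ψ b' c') ≤ lam)
    (fun c' => (unifOn (D.cB σ b) hBn).E (fun b' => Ψ b' c') ≤ lam) (fun _ h => h) (fun _ h => h)
  unfold FP.Pr at key
  simp only [unifOn_E] at key
  have e1 : avg (D.cB σ b) (fun b' => avg (D.cC σ c) fun c' => ind (E.F b' c') * Ψ b' c') =
      avg (D.cB σ b) (fun b' => avg (D.cC σ c) fun c' => ind (P.Fp K q z big e σ x b' c') * Ψ b' c') :=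
    Tw.avg_congr fun b' hb' => Tw.avg_congr fun c' hc' => by rw [propext (hF b' hb' c' hc')]
  have e2 : avg (D.cB σ b) (fun b' => avg (D.cC σ c) fun c' => ind (E.F b' c')) =
      avg (D.cB σ b) (fun b' => avg (D.cC σ c) fun c' => ind (P.Fp K q z big e σ x b' c')) :=
    Tw.avg_congr fun b' hb' => Tw.avg_congr fun c' hc' => by rw [propext (hF b' hb' c' hc')]
  have e3 : avg (D.cB σ b) (fun b' => avg (D.cC σ c) fun c' => ind (E.X b' c')) =
      avg (D.cB σ b) (fun b' => avg (D.cC σ c) fun c' => ind (P.Xp K q e σ x b' c')) :=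
    Tw.avg_congr fun b' hb' => Tw.avg_congr fun c' hc' => by rw [propext (hX b' hb' c' hc')]
  have e4 : avg (D.cB σ b) (fun b' => avg (D.cC σ c) fun c' => ind (E.Xu b' c')) = 0 := by
    have : ∀ b' c', ind (E.Xu b' c') = 0 := fun b' c' => ind_not (hXu b' c')
    simp only [this]
    simp [avg]
  rw [e1, e2, e3, e4, add_zero] at key
  have e5 : ∀ t : ℝ, (¬ t ≤ lam) = (lam < t) := fun t => propext not_le
  simp only [e5] at key
  exact key

/-! ## along the process -/

variable (P K q z big)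

/-- big `f`-fall at the time `s+1`, not at an end of type E (with `z`: no simultaneous `g`-hit) -/
def ff (s : ℕ) (x : X) (b : β) (c : γ) : Prop :=
  ¬ P.th (P.ep s x b c) (s + 1) x b c ∧ x ∉ P.KF (P.ep s x b c) (s + 1) x b c ∧
    (z = true → x ∈ P.KG (P.ep s x b c) (s + 1) x b c) ∧ big (P.ep s x b c) (s + 1) x b c ∧ ¬ P.Eend q s x b c

/-- fall at the time `s+1` -/
def fl (s : ℕ) (x : X) (b : β) (c : γ) : Prop :=
  ¬ P.th (P.ep s x b c) (s + 1) x b c ∧
    (x ∉ P.KF (P.ep s x b c) (s + 1) x b c ∨ x ∉ P.KG (P.ep s x b c) (s + 1) x b c)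

variable {P K q z big}

theorem ff.fl {s : ℕ} {x : X} {b : β} {c : γ} (h : P.ff q z big s x b c) : P.fl s x b c := ⟨h.1, Or.inl h.2.1⟩

theorem sb_mono {s t : ℕ} (h : s ≤ t) (x : X) (b : β) (c : γ) : P.sb q s x b c ≤ P.sb q t x b c := by
  induction t, h using Nat.le_induction with
  | base => exact le_rfl
  | succ n hn ih =>
    rcases P.sb_cases (q := q) n x b c with h1 | h1
    · rw [h1.1]
      exact ih.trans ((P.sb_le n x b c).trans (Nat.le_succ n))
    · rw [h1.1]; exact ih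

theorem fl_sb {s : ℕ} {x : X} {b : β} {c : γ} (h : P.fl s x b c) : P.sb q (s + 1) x b c = s + 1 := by
  rcases P.ep_cases s x b c with h1 | h1
  · rcases P.sb_cases (q := q) s x b c with h2 | h2
    · exact h2.1
    · have := P.t0_le s x b c
      rw [← h2.2.1, h1.1] at this
      omega
  · rcases h.2 with h2 | h2
    · exact absurd h1.2.2.1 h2
    · exact absurd h1.2.2.2.1 h2

/-- different falls lie in different sub-epochs -/
theorem fl_inj {s s' : ℕ} {x : X} {b : β} {c : γ} (h : P.fl s x b c) (h' : P.fl s' x b c)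
    (he : P.sb q s x b c = P.sb q s' x b c) : s = s' := by
  rcases lt_trichotomy s s' with h1 | h1 | h1
  · have h2 := P.sb_mono (q := q) (show s + 1 ≤ s' from h1) x b c
    rw [fl_sb h, ← he] at h2
    have := P.sb_le (q := q) s x b c
    omega
  · exact h1
  · have h2 := P.sb_mono (q := q) (show s' + 1 ≤ s from h1) x b c
    rw [fl_sb h', he] at h2
    have := P.sb_le (q := q) s' x b c
    omega

theorem sb_start (s : ℕ) (x : X) (b : β) (c : γ) :
    P.sb q (P.sb q s x b c) x b c = P.sb q s x b c ∧ P.ep (P.sb q s x b c) x b c = P.ep s x b c := by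
  have := P.run (q := q) s x b c (P.sb q s x b c) le_rfl (P.sb_le s x b c)
  exact ⟨this.1, this.2.1⟩

/-- (T1) a real big fall is a big fall of its sub-epoch -/
theorem T1 {s : ℕ} (hs : s < K) {x : X} {b : β} {c : γ} (h : P.ff q z big s x b c) :
    P.sfT K (P.ep s x b c) (P.sb q s x b c) x b c = s + 1 ∧
      P.Fp K q z big (P.ep s x b c) (P.sb q s x b c) x b c := by
  set e := P.ep s x b c with he
  set σ := P.sb q s x b c with hσ
  have hle : σ ≤ s := P.sb_le s x b c
  have hin : ∀ r, σ ≤ r → r ≤ s → x ∈ P.KF e r x b c ∧ x ∈ P.KG e r x b c := by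
    intro r h1 h2
    have h3 := (P.run (q := q) s x b c r h1 h2).2.1
    have h4 := P.self_F r x b c
    have h5 := P.self_G r x b c
    rw [h3] at h4 h5
    exact ⟨h4, h5⟩
  have hsf : P.sfT K e σ x b c = s + 1 := by
    refine le_antisymm (fst1_le_of hs ⟨by omega, h.2.1⟩) ?_
    by_contra hlt
    rw [not_le] at hlt
    have h1 := fst1_spec (K := K) (p := fun s => σ < s ∧ x ∉ P.KF e s x b c) (show P.sfT K e σ x b c ≤ K by omega)
    exact h1.2 (hin _ h1.1.le (show P.sfT K e σ x b c ≤ s by omega)).1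
  refine ⟨hsf, ?_⟩
  unfold Fp
  rw [hsf]
  refine ⟨h.2.2.2.1, ?_, ?_, ?_, ?_⟩
  · by_contra hlt
    rw [not_lt] at hlt
    have h1 : P.ST e (s + 1) x b c := (fst1_le_iff (fun _ _ h => ST_mono h) (show s + 1 ≤ K from hs)).1 hlt
    exact h.1 ((P.ST_succ s x b c).1 h1)
  · by_contra hlt
    rw [not_lt] at hlt
    exact h.2.2.2.2 (Or.inl ((fst1_le_iff (fun _ _ h => EBp_mono h) (show s + 1 ≤ K from hs)).1 hlt))
  · by_contra hlt
    rw [not_lt] at hlt
    exact h.2.2.2.2 (Or.inr ((fst1_le_iff (fun _ _ h => EAp_mono h) (show s + 1 ≤ K from hs)).1 hlt))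
  · have hge : s + 1 ≤ P.sgT K e σ x b c := by
      by_contra hlt
      rw [not_le] at hlt
      have h1 := fst1_spec (K := K) (p := fun s => σ < s ∧ x ∉ P.KG e s x b c) (show P.sgT K e σ x b c ≤ K by omega)
      exact h1.2 (hin _ h1.1.le (show P.sgT K e σ x b c ≤ s by omega)).2
    unfold tie
    split_ifs with hz
    · rcases Nat.lt_or_ge (s + 1) (P.sgT K e σ x b c) with h1 | h1
      · exact h1
      · have h2 : P.sgT K e σ x b c = s + 1 := le_antisymm h1 hge
        have h3 := fst1_spec (K := K) (p := fun s => σ < s ∧ x ∉ P.KG e s x b c)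
          (show P.sgT K e σ x b c ≤ K by omega)
        have h4 : x ∉ P.KG e (s + 1) x b c := by
          have := h3.2
          change x ∉ P.KG e (P.sgT K e σ x b c) x b c at this
          rwa [h2] at this
        exact absurd (h.2.2.1 hz) h4
    · exact hge

/-- the sub-epoch goes on until the first hit -/
theorem T23 {σ m : ℕ} {x : X} {b : β} {c : γ} (h0 : P.sb q σ x b c = σ)
    (h1 : σ < m) (hm : m ≤ K) (h2 : m < P.teT K (P.ep σ x b c) x b c) (h3 : m < P.EBT K q (P.ep σ x b c) σ x b c)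
    (h4 : m < P.EAT K q (P.ep σ x b c) σ x b c) (h5 : m ≤ P.sfT K (P.ep σ x b c) σ x b c)
    (h6 : m ≤ P.sgT K (P.ep σ x b c) σ x b c) :
    ∃ s, σ ≤ s ∧ s < K ∧ m = s + 1 ∧ P.sb q s x b c = σ ∧ P.ep s x b c = P.ep σ x b c ∧
      ¬ P.th (P.ep s x b c) (s + 1) x b c ∧ ¬ P.Eend q s x b c := by
  obtain ⟨s, rfl⟩ : ∃ s, m = s + 1 := ⟨m - 1, by omega⟩
  set e := P.ep σ x b c with he
  have hST : ¬ P.ST e (s + 1) x b c := fun h =>
    absurd ((fst1_le_iff (fun _ _ h => ST_mono h) hm).2 h) (not_le.2 h2)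
  have ht0 : e.t0 ≤ σ := P.t0_le σ x b c
  have hr := P.reach (q := q) (σ := σ) (s := s) (by omega) h0 (by
    intro r k1 k2
    refine ⟨fun h => hST (Or.inl ⟨r, by omega, by omega, h⟩), fun h => hST (Or.inr ⟨r, by omega, by omega, h⟩),
      ?_, ?_, ?_, ?_⟩
    · by_contra h
      exact not_of_lt_fst1 (K := K) (p := fun s => σ < s ∧ x ∉ P.KF e s x b c) (by omega)
        (show r < P.sfT K e σ x b c by omega) ⟨k1, h⟩
    · by_contra h
      exact not_of_lt_fst1 (K := K) (p := fun s => σ < s ∧ x ∉ P.KG e s x b c) (by omega)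
        (show r < P.sgT K e σ x b c by omega) ⟨k1, h⟩
    · exact not_of_lt_fst1 (K := K) (p := fun s => P.EBp q e σ s x b c) (by omega)
        (show r < P.EBT K q e σ x b c by omega)
    · exact not_of_lt_fst1 (K := K) (p := fun s => P.EAp q e σ s x b c) (by omega)
        (show r < P.EAT K q e σ x b c by omega))
  refine ⟨s, by omega, by omega, rfl, hr.2, hr.1, ?_, ?_⟩
  · rw [hr.1]
    exact fun h => hST (Or.inl ⟨s + 1, by omega, le_rfl, h⟩)
  · unfold Eend
    rw [hr.1, hr.2]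
    rintro (h | h)
    · exact not_of_lt_fst1 (K := K) (p := fun s => P.EBp q e σ s x b c) hm h3 h
    · exact not_of_lt_fst1 (K := K) (p := fun s => P.EAp q e σ s x b c) hm h4 h

/-- (T2) a big fall of a sub-epoch is a real big fall -/
theorem T2 {σ : ℕ} {x : X} {b : β} {c : γ} (h0 : P.sb q σ x b c = σ)
    (h : P.Fp K q z big (P.ep σ x b c) σ x b c) :
    ∃ s, s < K ∧ P.sb q s x b c = σ ∧ P.ff q z big s x b c := by
  obtain ⟨h1, h2, h3, h4, h5⟩ := h
  have hK : P.sfT K (P.ep σ x b c) σ x b c ≤ K := by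
    have : P.teT K (P.ep σ x b c) x b c ≤ K + 1 := fst1_le K _
    omega
  have hsp := fst1_spec (K := K) (p := fun s => σ < s ∧ x ∉ P.KF (P.ep σ x b c) s x b c) hK
  have hle : P.sfT K (P.ep σ x b c) σ x b c ≤ P.sgT K (P.ep σ x b c) σ x b c := by
    unfold tie at h5
    split_ifs at h5 <;> omega
  obtain ⟨s, k1, k2, k3, k4, k5, k6, k7⟩ := T23 (m := P.sfT K (P.ep σ x b c) σ x b c) h0 hsp.1 hK h2 h3 h4 le_rfl hle
  refine ⟨s, k2, k4, k6, ?_, ?_, ?_, k7⟩
  · have := hsp.2
    change x ∉ P.KF (P.ep σ x b c) (P.sfT K (P.ep σ x b c) σ x b c) x b c at this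
    rwa [k3, ← k5] at this
  · intro hz
    rw [k5, ← k3]
    by_contra hg
    unfold tie at h5
    rw [if_pos hz] at h5
    exact not_of_lt_fst1 (K := K) (p := fun s => σ < s ∧ x ∉ P.KG (P.ep σ x b c) s x b c) hK h5 ⟨hsp.1, hg⟩
  · rw [k5, ← k3]
    exact h1

/-- (T3) a fall of a sub-epoch is a real fall -/
theorem T3 {σ : ℕ} {x : X} {b : β} {c : γ} (h0 : P.sb q σ x b c = σ) (h : P.Xp K q (P.ep σ x b c) σ x b c) :
    ∃ s, s < K ∧ P.sb q s x b c = σ ∧ P.fl s x b c := by
  have hte : P.teT K (P.ep σ x b c) x b c ≤ K + 1 := fst1_le K _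
  rcases le_or_gt (P.sfT K (P.ep σ x b c) σ x b c) (P.sgT K (P.ep σ x b c) σ x b c) with hle | hlt
  · have h' : P.sfT K (P.ep σ x b c) σ x b c < P.teT K (P.ep σ x b c) x b c ∧
        P.sfT K (P.ep σ x b c) σ x b c < P.EBT K q (P.ep σ x b c) σ x b c ∧
        P.sfT K (P.ep σ x b c) σ x b c < P.EAT K q (P.ep σ x b c) σ x b c := by
      rcases h with h | h
      · exact h
      · exact ⟨by omega, by omega, by omega⟩
    have hK : P.sfT K (P.ep σ x b c) σ x b c ≤ K := by omega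
    have hsp := fst1_spec (K := K) (p := fun s => σ < s ∧ x ∉ P.KF (P.ep σ x b c) s x b c) hK
    obtain ⟨s, k1, k2, k3, k4, k5, k6, k7⟩ := T23 (m := P.sfT K (P.ep σ x b c) σ x b c) h0 hsp.1 hK h'.1 h'.2.1
      h'.2.2 le_rfl hle
    refine ⟨s, k2, k4, k6, Or.inl ?_⟩
    have := hsp.2
    change x ∉ P.KF (P.ep σ x b c) (P.sfT K (P.ep σ x b c) σ x b c) x b c at this
    rwa [k3, ← k5] at this
  · have h' : P.sgT K (P.ep σ x b c) σ x b c < P.teT K (P.ep σ x b c) x b c ∧
        P.sgT K (P.ep σ x b c) σ x b c < P.EBT K q (P.ep σ x b c) σ x b c ∧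
        P.sgT K (P.ep σ x b c) σ x b c < P.EAT K q (P.ep σ x b c) σ x b c := by
      rcases h with h | h
      · exact ⟨by omega, by omega, by omega⟩
      · exact h
    have hK : P.sgT K (P.ep σ x b c) σ x b c ≤ K := by omega
    have hsp := fst1_spec (K := K) (p := fun s => σ < s ∧ x ∉ P.KG (P.ep σ x b c) s x b c) hK
    obtain ⟨s, k1, k2, k3, k4, k5, k6, k7⟩ := T23 (m := P.sgT K (P.ep σ x b c) σ x b c) h0 hsp.1 hK h'.1 h'.2.1
      h'.2.2 hlt.le le_rfl
    refine ⟨s, k2, k4, k6, Or.inr ?_⟩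
    have := hsp.2
    change x ∉ P.KG (P.ep σ x b c) (P.sgT K (P.ep σ x b c) σ x b c) x b c at this
    rwa [k3, ← k5] at this

end Prc

/-- sums along an injection -/
theorem sum_inj_le {K : ℕ} {A B : ℕ → Prop} {f g : ℕ → ℝ} (hg : ∀ σ, 0 ≤ g σ) (φ : ℕ → ℕ)
    (h1 : ∀ s, s < K → A s → φ s < K ∧ B (φ s) ∧ f s ≤ g (φ s))
    (h2 : ∀ s s', s < K → s' < K → A s → A s' → φ s = φ s' → s = s') :
    ∑ s ∈ range K, ind (A s) * f s ≤ ∑ σ ∈ range K, ind (B σ) * g σ := by
  classical
  have e1 : ∑ s ∈ range K, ind (A s) * f s = ∑ s ∈ (range K).filter A, f s := by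
    rw [sum_filter]
    refine sum_congr rfl fun s _ => ?_
    by_cases h : A s
    · rw [ind_of h, if_pos h, one_mul]
    · rw [ind_not h, if_neg h, zero_mul]
  have e2 : ∑ σ ∈ range K, ind (B σ) * g σ = ∑ σ ∈ (range K).filter B, g σ := by
    rw [sum_filter]
    refine sum_congr rfl fun s _ => ?_
    by_cases h : B s
    · rw [ind_of h, if_pos h, one_mul]
    · rw [ind_not h, if_neg h, zero_mul]
  rw [e1, e2]
  calc ∑ s ∈ (range K).filter A, f s ≤ ∑ s ∈ (range K).filter A, g (φ s) := by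
        refine sum_le_sum fun s hs => ?_
        rw [mem_filter, mem_range] at hs
        exact (h1 s hs.1 hs.2).2.2
    _ = ∑ σ ∈ ((range K).filter A).image φ, g σ := by
        rw [sum_image]
        intro s hs s' hs' he
        rw [mem_coe, mem_filter, mem_range] at hs hs'
        exact h2 s s' hs.1 hs'.1 hs.2 hs'.2 he
    _ ≤ ∑ σ ∈ (range K).filter B, g σ := by
        refine sum_le_sum_of_subset_of_nonneg ?_ fun σ _ _ => hg σ
        intro σ hσ
        rw [mem_image] at hσ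
        obtain ⟨s, hs, rfl⟩ := hσ
        rw [mem_filter, mem_range] at hs ⊢
        exact ⟨(h1 s hs.1 hs.2).1, (h1 s hs.1 hs.2).2.1⟩

namespace Prc

variable {P : Prc D} {K : ℕ} {q : ℝ} {z : Bool} {big : Epo X → ℕ → X → β → γ → Prop}

/-- THE FLUX THROUGH THE BIG FALLS -/
theorem flux (hq : 0 < q) (hq1 : q ≤ 1 / 4) {lam M : ℝ} (hlam : 0 ≤ lam)
    (hbig : ∀ (e : Epo X) s x b c c', D.qc e.t0 c = D.qc e.t0 c' → (big e s x b c ↔ big e s x b c'))
    (Ψ : ℕ → X → β → γ → ℝ) (h0 : ∀ σ x b c, 0 ≤ Ψ σ x b c) (hM : ∀ σ x b c, Ψ σ x b c ≤ M) :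
    ∑ s ∈ range K, E3 (fun x b c => ind (P.ff q z big s x b c) * Ψ (P.sb q s x b c) x b c) ≤
      2 / q * lam * ∑ s ∈ range K, E3 (fun x b c => ind (P.ff q z big s x b c)) +
      2 * q * lam * ∑ s ∈ range K, E3 (fun x b c => ind (P.fl s x b c)) +
      M * ∑ σ ∈ range K, E3 (fun x b c => ind (P.sb q σ x b c = σ) *
        (ind (lam < avg (D.cC σ c) fun c' => Ψ σ x b c') + ind (lam < avg (D.cB σ b) fun b' => Ψ σ x b' c))) := by
  classical
  set e : ℕ → X → β → γ → Epo X := P.ep with he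
  -- real falls against falls of sub-epochs
  have s1 : ∑ s ∈ range K, E3 (fun x b c => ind (P.ff q z big s x b c) * Ψ (P.sb q s x b c) x b c) ≤
      ∑ σ ∈ range K, E3 (fun x b c => ind (P.sb q σ x b c = σ) *
        (ind (P.Fp K q z big (P.ep σ x b c) σ x b c) * Ψ σ x b c)) := by
    rw [← Tw.E3_sum, ← Tw.E3_sum]
    refine Tw.E3_mono fun x b c => ?_
    have := sum_inj_le (K := K) (A := fun s => P.ff q z big s x b c)
      (B := fun σ => P.sb q σ x b c = σ ∧ P.Fp K q z big (P.ep σ x b c) σ x b c)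
      (f := fun s => Ψ (P.sb q s x b c) x b c) (g := fun σ => Ψ σ x b c) (fun σ => h0 σ x b c)
      (fun s => P.sb q s x b c)
      (fun s hs h => by
        have k1 := P.sb_start (q := q) s x b c
        have k2 := (T1 hs h).2
        refine ⟨(P.sb_le s x b c).trans_lt hs, ⟨k1.1, ?_⟩, le_rfl⟩
        rw [k1.2]
        exact k2)
      (fun s s' _ _ h h' => fl_inj h.fl h'.fl)
    refine this.trans (sum_le_sum fun σ _ => ?_)
    by_cases h1 : P.sb q σ x b c = σ
    · by_cases h2 : P.Fp K q z big (P.ep σ x b c) σ x b c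
      · rw [ind_of (show _ ∧ _ from ⟨h1, h2⟩), ind_of h1, ind_of h2]
        linarith
      · rw [ind_not (fun h : _ ∧ _ => h2 h.2), ind_not h2]
        simp
    · rw [ind_not (fun h : _ ∧ _ => h1 h.1), ind_not h1]
      simp
  have s2 : ∑ σ ∈ range K, E3 (fun x b c => ind (P.sb q σ x b c = σ) *
        ind (P.Fp K q z big (P.ep σ x b c) σ x b c)) ≤ ∑ s ∈ range K, E3 (fun x b c => ind (P.ff q z big s x b c)) := by
    rw [← Tw.E3_sum, ← Tw.E3_sum]
    refine Tw.E3_mono fun x b c => ?_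
    choose! f hf using fun σ (h : P.sb q σ x b c = σ ∧ P.Fp K q z big (P.ep σ x b c) σ x b c) => T2 h.1 h.2
    have := sum_inj_le (K := K) (A := fun σ => P.sb q σ x b c = σ ∧ P.Fp K q z big (P.ep σ x b c) σ x b c)
      (B := fun s => P.ff q z big s x b c) (f := fun _ => (1 : ℝ)) (g := fun _ => 1) (fun _ => zero_le_one) f
      (fun σ _ h => ⟨(hf σ h).1, (hf σ h).2.2, le_rfl⟩)
      (fun σ σ' _ _ h h' heq => by rw [← (hf σ h).2.1, ← (hf σ' h').2.1, heq])
    simp only [mul_one] at this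
    refine le_trans (sum_le_sum fun σ _ => ?_) this
    by_cases h1 : P.sb q σ x b c = σ
    · by_cases h2 : P.Fp K q z big (P.ep σ x b c) σ x b c
      · rw [ind_of (show _ ∧ _ from ⟨h1, h2⟩), ind_of h1, ind_of h2, one_mul]
      · rw [ind_not (fun h : _ ∧ _ => h2 h.2), ind_not h2, mul_zero]
    · rw [ind_not (fun h : _ ∧ _ => h1 h.1), ind_not h1, zero_mul]
  have s3 : ∑ σ ∈ range K, E3 (fun x b c => ind (P.sb q σ x b c = σ) *
        ind (P.Xp K q (P.ep σ x b c) σ x b c)) ≤ ∑ s ∈ range K, E3 (fun x b c => ind (P.fl s x b c)) := by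
    rw [← Tw.E3_sum, ← Tw.E3_sum]
    refine Tw.E3_mono fun x b c => ?_
    choose! f hf using fun σ (h : P.sb q σ x b c = σ ∧ P.Xp K q (P.ep σ x b c) σ x b c) => T3 h.1 h.2
    have := sum_inj_le (K := K) (A := fun σ => P.sb q σ x b c = σ ∧ P.Xp K q (P.ep σ x b c) σ x b c)
      (B := fun s => P.fl s x b c) (f := fun _ => (1 : ℝ)) (g := fun _ => 1) (fun _ => zero_le_one) f
      (fun σ _ h => ⟨(hf σ h).1, (hf σ h).2.2, le_rfl⟩)
      (fun σ σ' _ _ h h' heq => by rw [← (hf σ h).2.1, ← (hf σ' h').2.1, heq])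
    simp only [mul_one] at this
    refine le_trans (sum_le_sum fun σ _ => ?_) this
    by_cases h1 : P.sb q σ x b c = σ
    · by_cases h2 : P.Xp K q (P.ep σ x b c) σ x b c
      · rw [ind_of (show _ ∧ _ from ⟨h1, h2⟩), ind_of h1, ind_of h2, one_mul]
      · rw [ind_not (fun h : _ ∧ _ => h2 h.2), ind_not h2, mul_zero]
    · rw [ind_not (fun h : _ ∧ _ => h1 h.1), ind_not h1, zero_mul]
  -- Lemma P at every start
  have s4 : ∀ σ, E3 (fun x b c => ind (P.sb q σ x b c = σ) *
        (ind (P.Fp K q z big (P.ep σ x b c) σ x b c) * Ψ σ x b c)) ≤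
      2 / q * lam * E3 (fun x b c => ind (P.sb q σ x b c = σ) * ind (P.Fp K q z big (P.ep σ x b c) σ x b c)) +
      2 * q * lam * E3 (fun x b c => ind (P.sb q σ x b c = σ) * ind (P.Xp K q (P.ep σ x b c) σ x b c)) +
      M * E3 (fun x b c => ind (P.sb q σ x b c = σ) *
        (ind (lam < avg (D.cC σ c) fun c' => Ψ σ x b c') + ind (lam < avg (D.cB σ b) fun b' => Ψ σ x b' c))) := by
    intro σ
    rw [← Tw.E3_smul, ← Tw.E3_smul, ← Tw.E3_smul, ← Tw.E3_add, ← Tw.E3_add,
      ← P.tower σ (fun x b c => ind (P.sb q σ x b c = σ) *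
        (ind (P.Fp K q z big (P.ep σ x b c) σ x b c) * Ψ σ x b c)),
      ← P.tower σ (fun x b c => 2 / q * lam * (ind (P.sb q σ x b c = σ) *
          ind (P.Fp K q z big (P.ep σ x b c) σ x b c)) +
        2 * q * lam * (ind (P.sb q σ x b c = σ) * ind (P.Xp K q (P.ep σ x b c) σ x b c)) +
        M * (ind (P.sb q σ x b c = σ) * (ind (lam < avg (D.cC σ c) fun c' => Ψ σ x b c') +
          ind (lam < avg (D.cB σ b) fun b' => Ψ σ x b' c))))]
    refine Tw.E3_mono fun x b c => Tw.avg_le_avg fun y hy => ?_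
    have hBn : (D.cB σ b).Nonempty := ⟨b, D.self_cB σ b⟩
    have hCn : (D.cC σ c).Nonempty := ⟨c, D.self_cC σ c⟩
    -- the start and the epoch are constant on the product
    have k1 : ∀ b' ∈ D.cB σ b, ∀ c' ∈ D.cC σ c, P.ep σ y b' c' = P.ep σ x b c ∧
        P.sb q σ y b' c' = P.sb q σ x b c := fun b' hb' c' hc' =>
      ⟨(P.U_pub (P.same_of_mem hy hb' hc') hy).1, P.sb_pub σ (P.same_of_mem hy hb' hc') hy⟩
    by_cases hst : P.sb q σ x b c = σ
    · have e1 : avg (D.cB σ b) (fun b' => avg (D.cC σ c) fun c' => ind (P.sb q σ y b' c' = σ) *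
          (ind (P.Fp K q z big (P.ep σ y b' c') σ y b' c') * Ψ σ y b' c')) =
          avg (D.cB σ b) (fun b' => avg (D.cC σ c) fun c' =>
            ind (P.Fp K q z big (P.ep σ x b c) σ y b' c') * Ψ σ y b' c') :=
        Tw.avg_congr fun b' hb' => Tw.avg_congr fun c' hc' => by
          rw [(k1 b' hb' c' hc').1, (k1 b' hb' c' hc').2, ind_of hst, one_mul]
      have e2 : avg (D.cB σ b) (fun b' => avg (D.cC σ c) fun c' =>
          2 / q * lam * (ind (P.sb q σ y b' c' = σ) * ind (P.Fp K q z big (P.ep σ y b' c') σ y b' c')) +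
          2 * q * lam * (ind (P.sb q σ y b' c' = σ) * ind (P.Xp K q (P.ep σ y b' c') σ y b' c')) +
          M * (ind (P.sb q σ y b' c' = σ) * (ind (lam < avg (D.cC σ c') fun c'' => Ψ σ y b' c'') +
            ind (lam < avg (D.cB σ b') fun b'' => Ψ σ y b'' c')))) =
          2 / q * lam * avg (D.cB σ b) (fun b' => avg (D.cC σ c) fun c' =>
            ind (P.Fp K q z big (P.ep σ x b c) σ y b' c')) +
          2 * q * lam * avg (D.cB σ b) (fun b' => avg (D.cC σ c) fun c' => ind (P.Xp K q (P.ep σ x b c) σ y b' c')) +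
          M * (avg (D.cB σ b) (fun b' => ind (lam < avg (D.cC σ c) fun c' => Ψ σ y b' c')) +
            avg (D.cC σ c) (fun c' => ind (lam < avg (D.cB σ b) fun b' => Ψ σ y b' c'))) := by
        have e3 : avg (D.cB σ b) (fun b' => avg (D.cC σ c) fun c' =>
            2 / q * lam * (ind (P.sb q σ y b' c' = σ) * ind (P.Fp K q z big (P.ep σ y b' c') σ y b' c')) +
            2 * q * lam * (ind (P.sb q σ y b' c' = σ) * ind (P.Xp K q (P.ep σ y b' c') σ y b' c')) +
            M * (ind (P.sb q σ y b' c' = σ) * (ind (lam < avg (D.cC σ c') fun c'' => Ψ σ y b' c'') +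
              ind (lam < avg (D.cB σ b') fun b'' => Ψ σ y b'' c')))) =
            avg (D.cB σ b) (fun b' => avg (D.cC σ c) fun c' =>
              2 / q * lam * ind (P.Fp K q z big (P.ep σ x b c) σ y b' c') +
              2 * q * lam * ind (P.Xp K q (P.ep σ x b c) σ y b' c') +
              M * (ind (lam < avg (D.cC σ c) fun c'' => Ψ σ y b' c'') +
                ind (lam < avg (D.cB σ b) fun b'' => Ψ σ y b'' c'))) :=
          Tw.avg_congr fun b' hb' => Tw.avg_congr fun c' hc' => by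
            rw [(k1 b' hb' c' hc').1, (k1 b' hb' c' hc').2, ind_of hst, one_mul, one_mul, one_mul,
              D.cC_congr (D.mem_cC.1 hc'), D.cB_congr (D.mem_cB.1 hb')]
        rw [e3]
        simp only [avg_add, avg_smul, avg_const hBn, avg_const hCn]
      rw [e1, e2]
      exact flux_static hq hq1 hlam hbig (P.t0_le σ x b c) y b c (Ψ σ y) (fun b c => h0 σ y b c)
        (fun b c => hM σ y b c)
    · have e1 : avg (D.cB σ b) (fun b' => avg (D.cC σ c) fun c' => ind (P.sb q σ y b' c' = σ) *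
          (ind (P.Fp K q z big (P.ep σ y b' c') σ y b' c') * Ψ σ y b' c')) =
          avg (D.cB σ b) (fun b' => avg (D.cC σ c) fun c' => (0 : ℝ)) :=
        Tw.avg_congr fun b' hb' => Tw.avg_congr fun c' hc' => by
          rw [(k1 b' hb' c' hc').2, ind_not hst, zero_mul]
      have e2 : avg (D.cB σ b) (fun b' => avg (D.cC σ c) fun c' =>
          2 / q * lam * (ind (P.sb q σ y b' c' = σ) * ind (P.Fp K q z big (P.ep σ y b' c') σ y b' c')) +
          2 * q * lam * (ind (P.sb q σ y b' c' = σ) * ind (P.Xp K q (P.ep σ y b' c') σ y b' c')) +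
          M * (ind (P.sb q σ y b' c' = σ) * (ind (lam < avg (D.cC σ c') fun c'' => Ψ σ y b' c'') +
            ind (lam < avg (D.cB σ b') fun b'' => Ψ σ y b'' c')))) =
          avg (D.cB σ b) (fun b' => avg (D.cC σ c) fun c' => (0 : ℝ)) :=
        Tw.avg_congr fun b' hb' => Tw.avg_congr fun c' hc' => by
          rw [(k1 b' hb' c' hc').2, ind_not hst, zero_mul, zero_mul, zero_mul, mul_zero, mul_zero, mul_zero]
          ring
      rw [e1, e2]
  have hM0 : 0 ≤ 2 / q * lam := mul_nonneg (by positivity) hlam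
  have hM1 : 0 ≤ 2 * q * lam := mul_nonneg (by positivity) hlam
  calc _ ≤ _ := s1
    _ ≤ ∑ σ ∈ range K, (2 / q * lam * E3 (fun x b c => ind (P.sb q σ x b c = σ) *
          ind (P.Fp K q z big (P.ep σ x b c) σ x b c)) +
        2 * q * lam * E3 (fun x b c => ind (P.sb q σ x b c = σ) * ind (P.Xp K q (P.ep σ x b c) σ x b c)) +
        M * E3 (fun x b c => ind (P.sb q σ x b c = σ) *
          (ind (lam < avg (D.cC σ c) fun c' => Ψ σ x b c') + ind (lam < avg (D.cB σ b) fun b' => Ψ σ x b' c)))) :=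
        sum_le_sum fun σ _ => s4 σ
    _ ≤ _ := by
        rw [sum_add_distrib, sum_add_distrib, ← mul_sum, ← mul_sum, ← mul_sum]
        have k2 := mul_le_mul_of_nonneg_left s2 hM0
        have k3 := mul_le_mul_of_nonneg_left s3 hM1
        linarith

end Prc

end

end Pool.Agent.M3.S3
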