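import Pool.Agent.M3.S3.Acc
import Pool.Agent.M3.S3.Flux

/-!
# M3.S3.Starts: averages over the boxes of a public class; the number of sub-epochs

* `E3_box` : the mean of `g` is the mean of the averages of `g` over the boxes `V x b c × cB t b × cC t c` of a public
  class `V` (`PubC`).
* `starts_le` : `∑_(σ ≤ K) P(sb q σ = σ) ≤ 1 + (1 + 24 / q) ∑_(s < K) P(a new epoch starts at s+1)`.
-/

set_option autoImplicit false
set_option linter.unusedSectionVars false

namespace Pool.Agent.M3.S3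

open Finset Pool.Agent.PWZ Pool.Agent.M3

noncomputable section

/-! ## averages -/

namespace St

/-- double counting over the blocks of an equivalence relation -/
theorem sum_avg_block {Ω : Type*} [Fintype Ω] (W : Ω → Finset Ω) (h1 : ∀ w, w ∈ W w)
    (h2 : ∀ w w', w' ∈ W w → W w' = W w) (g : Ω → ℝ) : ∑ w, avg (W w) g = ∑ w, g w := by
  classical
  have hsym : ∀ v w, v ∈ W w ↔ w ∈ W v := fun v w =>
    ⟨fun h => by rw [h2 w v h]; exact h1 w, fun h => by rw [h2 v w h]; exact h1 v⟩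
  have e : ∀ w, avg (W w) g = ∑ v, if v ∈ W w then g v / (W w).card else 0 := by
    intro w
    unfold avg
    rw [← Finset.sum_filter, Finset.filter_mem_eq_inter, Finset.univ_inter, Finset.sum_div]
  rw [Finset.sum_congr rfl fun w _ => e w, Finset.sum_comm]
  refine Finset.sum_congr rfl fun v _ => ?_
  have e2 : ∀ w ∈ (Finset.univ : Finset Ω), (if v ∈ W w then g v / ((W w).card : ℝ) else 0) =
      if w ∈ W v then g v / ((W v).card : ℝ) else 0 := by
    intro w _
    by_cases h : v ∈ W w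
    · rw [if_pos h, if_pos ((hsym v w).1 h), h2 w v h]
    · rw [if_neg h, if_neg (fun h' => h ((hsym v w).2 h'))]
  rw [Finset.sum_congr rfl e2, ← Finset.sum_filter, Finset.filter_mem_eq_inter, Finset.univ_inter,
    Finset.sum_const, nsmul_eq_mul]
  have hc : ((W v).card : ℝ) ≠ 0 := by exact_mod_cast (Finset.card_pos.2 ⟨v, h1 v⟩).ne'
  field_simp

theorem avg_prod {α δ : Type*} (s : Finset α) (t : Finset δ) (f : α × δ → ℝ) :
    avg (s ×ˢ t) f = avg s fun a => avg t fun b => f (a, b) := by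
  unfold avg
  rw [Finset.sum_product, Finset.card_product, Nat.cast_mul, ← Finset.sum_div, div_div, mul_comm]

section box

variable {X β γ ι φ : Type*} [Fintype X] [Fintype β] [Fintype γ] {D : Dat X β γ ι φ}

theorem E3_eq (f : X → β → γ → ℝ) : E3 f = avg (univ : Finset (X × β × γ)) fun w => f w.1 w.2.1 w.2.2 := by
  unfold E3
  rw [← Finset.univ_product_univ, avg_prod]
  congr 1
  funext x
  rw [← Finset.univ_product_univ, avg_prod]

theorem E3_mono {f g : X → β → γ → ℝ} (h : ∀ x b c, f x b c ≤ g x b c) : E3 f ≤ E3 g := by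
  rw [E3_eq, E3_eq]
  unfold avg
  exact div_le_div_of_nonneg_right (Finset.sum_le_sum fun w _ => h _ _ _) (Nat.cast_nonneg _)

theorem E3_nonneg {f : X → β → γ → ℝ} (h : ∀ x b c, 0 ≤ f x b c) : 0 ≤ E3 f := by
  rw [E3_eq]
  exact div_nonneg (Finset.sum_nonneg fun w _ => h _ _ _) (Nat.cast_nonneg _)

theorem E3_add (f g : X → β → γ → ℝ) : E3 (fun x b c => f x b c + g x b c) = E3 f + E3 g := by
  rw [E3_eq, E3_eq, E3_eq]
  unfold avg
  rw [Finset.sum_add_distrib, add_div]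

theorem E3_mul (r : ℝ) (f : X → β → γ → ℝ) : E3 (fun x b c => r * f x b c) = r * E3 f := by
  rw [E3_eq, E3_eq]
  unfold avg
  rw [← Finset.mul_sum, mul_div_assoc]

theorem E3_sum {α : Type*} (s : Finset α) (f : α → X → β → γ → ℝ) :
    E3 (fun x b c => ∑ i ∈ s, f i x b c) = ∑ i ∈ s, E3 (f i) := by
  rw [E3_eq, Finset.sum_congr rfl fun i _ => E3_eq (f i)]
  unfold avg
  rw [Finset.sum_comm, Finset.sum_div]

theorem E3_le_one {f : X → β → γ → ℝ} (h : ∀ x b c, f x b c ≤ 1) : E3 f ≤ 1 := by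
  rw [E3_eq]
  unfold avg
  rcases (Nat.cast_nonneg (α := ℝ) (univ : Finset (X × β × γ)).card).eq_or_lt with h0 | h0
  · rw [← h0, div_zero]
    exact zero_le_one
  · rw [div_le_one h0]
    calc ∑ w : X × β × γ, f w.1 w.2.1 w.2.2 ≤ ∑ _w : X × β × γ, (1 : ℝ) :=
          Finset.sum_le_sum fun w _ => h _ _ _
      _ = _ := by rw [Finset.sum_const, nsmul_eq_mul, mul_one]

/-- a public class at the time `t` -/
structure PubC (D : Dat X β γ ι φ) (t : ℕ) (V : X → β → γ → Finset X) : Prop where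
  self : ∀ x b c, x ∈ V x b c
  cell : ∀ x b c, ∀ y ∈ V x b c, D.qa t y = D.qa t x
  pub : ∀ x b c x' b' c', D.Same t x b c x' b' c' → x' ∈ V x b c → V x' b' c' = V x b c

/-- BOX FORMULA -/
theorem E3_box {t : ℕ} {V : X → β → γ → Finset X} (hV : PubC D t V) (g : X → β → γ → ℝ) :
    E3 (fun x b c => avg (V x b c) fun x' => avg (D.cB t b) fun b' => avg (D.cC t c) fun c' => g x' b' c') =
      E3 g := by
  rw [E3_eq, E3_eq]
  have e : ∀ w : X × β × γ, (avg (V w.1 w.2.1 w.2.2) fun x' => avg (D.cB t w.2.1) fun b' => avg (D.cC t w.2.2)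
      fun c' => g x' b' c') =
      avg (V w.1 w.2.1 w.2.2 ×ˢ (D.cB t w.2.1 ×ˢ D.cC t w.2.2)) fun v => g v.1 v.2.1 v.2.2 := by
    intro w
    rw [avg_prod]
    congr 1
    funext x'
    rw [avg_prod]
  have h := sum_avg_block (fun w : X × β × γ => V w.1 w.2.1 w.2.2 ×ˢ (D.cB t w.2.1 ×ˢ D.cC t w.2.2))
    (fun w => by
      rw [Finset.mem_product, Finset.mem_product]
      exact ⟨hV.self _ _ _, D.self_cB t _, D.self_cC t _⟩)
    (fun w w' hw => by
      rw [Finset.mem_product, Finset.mem_product, D.mem_cB, D.mem_cC] at hw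
      obtain ⟨k1, k2, k3⟩ := hw
      rw [hV.pub w.1 w.2.1 w.2.2 w'.1 w'.2.1 w'.2.2 ⟨(hV.cell _ _ _ _ k1).symm, k2.symm, k3.symm⟩ k1,
        D.cB_congr k2, D.cC_congr k3])
    (fun v => g v.1 v.2.1 v.2.2)
  have h' : ∑ w : X × β × γ, (avg (V w.1 w.2.1 w.2.2) fun x' => avg (D.cB t w.2.1) fun b' => avg (D.cC t w.2.2)
      fun c' => g x' b' c') = ∑ w : X × β × γ, g w.1 w.2.1 w.2.2 := by
    rw [← h]
    exact Finset.sum_congr rfl fun w _ => e w
  show (∑ w : X × β × γ, _) / _ = (∑ w : X × β × γ, _) / _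
  rw [h']

/-- uniform law on a nonempty finite set -/
def ufp {α : Type*} [Fintype α] (s : Finset α) (h : s.Nonempty) : FP α where
  p a := by classical exact if a ∈ s then 1 / (s.card : ℝ) else 0
  nn a := by
    classical
    show 0 ≤ (if a ∈ s then 1 / (s.card : ℝ) else 0)
    split_ifs
    · positivity
    · exact le_rfl
  tot := by
    classical
    show ∑ a, (if a ∈ s then 1 / (s.card : ℝ) else 0) = 1
    rw [← Finset.sum_filter, Finset.filter_mem_eq_inter, Finset.univ_inter, Finset.sum_const, nsmul_eq_mul]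
    have : (s.card : ℝ) ≠ 0 := by exact_mod_cast h.card_pos.ne'
    field_simp

theorem ufp_E {α : Type*} [Fintype α] {s : Finset α} (h : s.Nonempty) (f : α → ℝ) : (ufp s h).E f = avg s f := by
  classical
  unfold FP.E avg ufp
  have e : ∀ a ∈ (univ : Finset α), (if a ∈ s then 1 / (s.card : ℝ) else 0) * f a =
      if a ∈ s then f a / s.card else 0 := by
    intro a _
    split_ifs
    · ring
    · ring
  show ∑ a, (if a ∈ s then 1 / (s.card : ℝ) else 0) * f a = _
  rw [Finset.sum_congr rfl e, ← Finset.sum_filter, Finset.filter_mem_eq_inter, Finset.univ_inter, Finset.sum_div]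

theorem ufp_Pr {α : Type*} [Fintype α] {s : Finset α} (h : s.Nonempty) (p : α → Prop) [DecidablePred p] :
    (ufp s h).Pr p = ((s.filter p).card : ℝ) / s.card := by
  unfold FP.Pr
  rw [ufp_E]
  unfold avg
  congr 1
  have : ∀ a ∈ s, ind (p a) = if p a then 1 else 0 := fun a _ => by
    by_cases ha : p a
    · rw [ind_of ha, if_pos ha]
    · rw [ind_not ha, if_neg ha]
  rw [Finset.sum_congr rfl this, ← Finset.sum_filter, Finset.sum_const, nsmul_eq_mul, mul_one]

theorem ufp_pr2 {α δ : Type*} [Fintype α] [Fintype δ] {s : Finset α} {t : Finset δ} (hs : s.Nonempty)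
    (ht : t.Nonempty) (p : α → δ → Prop) [DecidablePred fun z : α × δ => p z.1 z.2] :
    pr2 (ufp s hs) (ufp t ht) p =
      (((s ×ˢ t).filter fun z => p z.1 z.2).card : ℝ) / ((s.card : ℝ) * (t.card : ℝ)) := by
  unfold pr2 FP.Pr
  rw [ufp_E]
  have e : (fun b => (ufp t ht).E fun w => ind (p b w)) = fun b => avg t fun w => ind (p b w) := by
    funext b
    rw [ufp_E]
  rw [e, ← avg_prod s t (fun z => ind (p z.1 z.2))]
  unfold avg
  rw [Finset.card_product, Nat.cast_mul]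
  congr 1
  have : ∀ a ∈ s ×ˢ t, ind (p a.1 a.2) = if p a.1 a.2 then 1 else 0 := fun a _ => by
    by_cases ha : p a.1 a.2
    · rw [ind_of ha, if_pos ha]
    · rw [ind_not ha, if_neg ha]
  rw [Finset.sum_congr rfl this, ← Finset.sum_filter, Finset.sum_const, nsmul_eq_mul, mul_one]

theorem sum_ind_card {α : Type*} (s : Finset α) (p : α → Prop) [DecidablePred p] :
    ∑ a ∈ s, ind (p a) = ((s.filter p).card : ℝ) := by
  have : ∀ a ∈ s, ind (p a) = if p a then 1 else 0 := fun a _ => by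
    by_cases ha : p a
    · rw [ind_of ha, if_pos ha]
    · rw [ind_not ha, if_neg ha]
  rw [Finset.sum_congr rfl this, ← Finset.sum_filter, Finset.sum_const, nsmul_eq_mul, mul_one]

theorem avg_le_avg {α : Type*} {s : Finset α} {f g : α → ℝ} (h : ∀ a ∈ s, f a ≤ g a) : avg s f ≤ avg s g :=
  div_le_div_of_nonneg_right (Finset.sum_le_sum h) (Nat.cast_nonneg _)

theorem avg_mul {α : Type*} (s : Finset α) (r : ℝ) (f : α → ℝ) : avg s (fun a => r * f a) = r * avg s f := by
  unfold avg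
  rw [← Finset.mul_sum, mul_div_assoc]

theorem avg_congr {α : Type*} {s : Finset α} {f g : α → ℝ} (h : ∀ a ∈ s, f a = g a) : avg s f = avg s g := by
  unfold avg
  rw [Finset.sum_congr rfl h]

end box

end St

open St

/-! ## the sub-epochs -/

namespace Prc

variable {X β γ ι φ : Type*} [Fintype X] [Fintype β] [Fintype γ] {D : Dat X β γ ι φ} (P : Prc D) (q : ℝ) (K : ℕ)

theorem pubU (t : ℕ) : PubC D t (P.U t) :=
  ⟨P.self_U t, fun _ _ _ _ hy => P.U_node hy, fun _ _ _ _ _ _ hS hx => (P.U_pub hS hx).2⟩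

/-- time of the test -/
def tT (e : Epo X) (x : X) (b : β) (c : γ) : ℕ := fst1 K fun s => P.ST e s x b c

/-- time of the fall -/
def tX (e : Epo X) (x : X) (b : β) (c : γ) : ℕ := fst1 K fun s => x ∉ P.KF e s x b c ∨ x ∉ P.KG e s x b c

/-- `E^B` -/
def tB (e : Epo X) (σ : ℕ) (x : X) (b : β) (c : γ) : ℕ := fst1 K fun s => P.EBp q e σ s x b c

/-- `E^A` -/
def tA (e : Epo X) (σ : ℕ) (x : X) (b : β) (c : γ) : ℕ := fst1 K fun s => P.EAp q e σ s x b c

/-- the sub-epoch from `σ` is ended by `E^B` or `E^A` (base point `b0`, `c0` of the cells) -/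
def GEnd (e : Epo X) (σ : ℕ) (x : X) (b0 : β) (c0 : γ) (b : β) (c : γ) : Prop :=
  GB (P.tT K e x) (P.tX K e x) (fun b => P.tB q K e σ x b c0) (P.tA q K e σ x b0 c0) (K + 1) b c ∨
    GA (P.tT K e x) (P.tX K e x) (fun b => P.tB q K e σ x b c0) (P.tA q K e σ x b0 c0) (K + 1) b c

/-- the sub-epoch from `σ` is ended by a test or by a fall -/
def GReal (e : Epo X) (σ : ℕ) (x : X) (b0 : β) (c0 : γ) (b : β) (c : γ) : Prop :=
  GG (P.tT K e x) (P.tX K e x) (fun b => P.tB q K e σ x b c0) (P.tA q K e σ x b0 c0) (K + 1) b c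

variable {P q K}

theorem tB_congr {e : Epo X} {σ : ℕ} {x : X} {b b' : β} {c c' : γ} (hb : b = b') (hc : D.qc σ c = D.qc σ c') :
    P.tB q K e σ x b c = P.tB q K e σ x b' c' := by
  subst hb
  unfold tB
  refine fst1_congr fun s _ => ?_
  unfold EBp
  rw [D.cC_congr hc]

theorem tA_congr {e : Epo X} {σ : ℕ} {x : X} {b b' : β} {c c' : γ} (hb : D.qb σ b = D.qb σ b')
    (hc : D.qc σ c = D.qc σ c') : P.tA q K e σ x b c = P.tA q K e σ x b' c' := by
  classical
  unfold tA
  refine fst1_congr fun s _ => ?_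
  unfold EAp
  rw [D.cC_congr hc, D.cB_congr hb]

theorem GEnd_base {e : Epo X} {σ : ℕ} {x : X} {b0 b : β} {c0 c : γ} (hb : D.qb σ b0 = D.qb σ b)
    (hc : D.qc σ c0 = D.qc σ c) : P.GEnd q K e σ x b0 c0 b c ↔ P.GEnd q K e σ x b c b c := by
  unfold GEnd
  rw [tA_congr hb hc, show (fun b => P.tB q K e σ x b c0) = fun b => P.tB q K e σ x b c from
    funext fun _ => tB_congr rfl hc]

theorem GReal_base {e : Epo X} {σ : ℕ} {x : X} {b0 b : β} {c0 c : γ} (hb : D.qb σ b0 = D.qb σ b)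
    (hc : D.qc σ c0 = D.qc σ c) : P.GReal q K e σ x b0 c0 b c ↔ P.GReal q K e σ x b c b c := by
  unfold GReal
  rw [tA_congr hb hc, show (fun b => P.tB q K e σ x b c0) = fun b => P.tB q K e σ x b c from
    funext fun _ => tB_congr rfl hc]

/-- the count in one box, for a fixed hidden point -/
theorem box_le (hq : 0 < q) (hq2 : q ≤ 2) (e : Epo X) (σ : ℕ) (x : X) (b0 : β) (c0 : γ) :
    avg (D.cB σ b0) (fun b => avg (D.cC σ c0) fun c => ind (P.GEnd q K e σ x b0 c0 b c)) ≤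
      24 / q * avg (D.cB σ b0) (fun b => avg (D.cC σ c0) fun c => ind (P.GReal q K e σ x b0 c0 b c)) := by
  classical
  have hB : (D.cB σ b0).Nonempty := ⟨b0, D.self_cB σ b0⟩
  have hC : (D.cC σ c0).Nonempty := ⟨c0, D.self_cC σ c0⟩
  have cB : (0 : ℝ) < (D.cB σ b0).card := by exact_mod_cast hB.card_pos
  have cC : (0 : ℝ) < (D.cC σ c0).card := by exact_mod_cast hC.card_pos
  have h1 : ∀ b, P.tB q K e σ x b c0 < K + 1 → P.tB q K e σ x b c0 ≤ P.tA q K e σ x b0 c0 →
      q / 2 ≤ (ufp (D.cC σ c0) hC).Pr (fun c => P.tT K e x b c ≤ P.tB q K e σ x b c0) := by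
    intro b hb _
    have hle : P.tB q K e σ x b c0 ≤ K := by omega
    have h2 : P.EBp q e σ (P.tB q K e σ x b c0) x b c0 := fst1_spec hle
    unfold EBp at h2
    rw [ufp_Pr, le_div_iff₀ cC]
    refine h2.le.trans (Nat.cast_le.2 (card_le_card fun c hc => ?_))
    rw [mem_filter] at hc ⊢
    exact ⟨hc.1, fst1_le_of hle hc.2⟩
  have h2 : P.tA q K e σ x b0 c0 < K + 1 → 1 / 4 ≤ pr2 (ufp (D.cB σ b0) hB) (ufp (D.cC σ c0) hC)
      (fun b c => P.tT K e x b c ≤ P.tA q K e σ x b0 c0 ∨ P.tB q K e σ x b c0 ≤ P.tA q K e σ x b0 c0) := by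
    intro hA
    have hle : P.tA q K e σ x b0 c0 ≤ K := by omega
    have h3 : P.EAp q e σ (P.tA q K e σ x b0 c0) x b0 c0 := fst1_spec hle
    unfold EAp at h3
    rw [ufp_pr2, le_div_iff₀ (mul_pos cB cC)]
    refine h3.le.trans (Nat.cast_le.2 (card_le_card fun z hz => ?_))
    rw [mem_filter, mem_product] at hz ⊢
    refine ⟨hz.1, hz.2.imp (fun h => fst1_le_of hle h) fun h => fst1_le_of hle ?_⟩
    have hc : D.qc σ z.2 = D.qc σ c0 := D.mem_cC.1 hz.1.2
    unfold EBp at h ⊢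
    rw [D.cC_congr hc] at h
    exact h
  have key := gE_le (ufp (D.cB σ b0) hB) (ufp (D.cC σ c0) hC) (P.tT K e x) (P.tX K e x)
    (fun b => P.tB q K e σ x b c0) (P.tA q K e σ x b0 c0) (K + 1) h1 h2 (by linarith) (by linarith)
    (by norm_num) (by norm_num)
  have e3 : 3 / (q / 2 * (1 / 4)) = 24 / q := by
    field_simp
    norm_num
  rw [e3] at key
  have conv : ∀ p : β → γ → Prop, pr2 (ufp (D.cB σ b0) hB) (ufp (D.cC σ c0) hC) p =
      avg (D.cB σ b0) (fun b => avg (D.cC σ c0) fun c => ind (p b c)) := by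
    intro p
    unfold pr2 FP.Pr
    rw [ufp_E]
    congr 1
    funext b
    rw [ufp_E]
  rw [conv, conv] at key
  exact key

/-- nothing has happened at the start -/
theorem no_E_start (hq : 0 < q) (s : ℕ) (x : X) (b : β) (c : γ) (σ : ℕ) (hσ : σ ≤ s) :
    ¬ P.EBp q (P.ep s x b c) σ σ x b c ∧ ¬ P.EAp q (P.ep s x b c) σ σ x b c := by
  classical
  have h0 : ¬ P.ST (P.ep s x b c) σ x b c := fun h => P.not_ST_ep s x b c (ST_mono hσ h)
  have h1 : ∀ b' c', D.qb σ b' = D.qb σ b → D.qc σ c' = D.qc σ c → ¬ P.ST (P.ep s x b c) σ x b' c' :=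
    fun b' c' hb hc h => h0 ((ST_inv ⟨rfl, hb, hc⟩).1 h)
  have h2 : ∀ b' c', D.qb σ b' = D.qb σ b → D.qc σ c' = D.qc σ c →
      ¬ P.EBp q (P.ep s x b c) σ σ x b' c' := by
    intro b' c' hb hc h
    unfold EBp at h
    have e : ((D.cC σ c').filter fun c'' => P.ST (P.ep s x b c) σ x b' c'') = ∅ := by
      rw [filter_eq_empty_iff]
      intro c'' hc''
      exact h1 b' c'' hb ((D.mem_cC.1 hc'').trans hc)
    rw [e, card_empty, Nat.cast_zero] at h
    have : 0 ≤ q / 2 * ((D.cC σ c').card : ℝ) := by positivity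
    linarith
  refine ⟨h2 b c rfl rfl, fun h => ?_⟩
  unfold EAp at h
  have e : ((D.cB σ b ×ˢ D.cC σ c).filter fun z => P.ST (P.ep s x b c) σ x z.1 z.2 ∨
      P.EBp q (P.ep s x b c) σ σ x z.1 z.2) = ∅ := by
    rw [filter_eq_empty_iff]
    intro z hz
    rw [mem_product, D.mem_cB, D.mem_cC] at hz
    exact not_or.2 ⟨h1 _ _ hz.1 hz.2, h2 _ _ hz.1 hz.2⟩
  rw [e, card_empty, Nat.cast_zero] at h
  have : (0 : ℝ) ≤ 1 / 4 * (((D.cB σ b).card : ℝ) * ((D.cC σ c).card : ℝ)) := by positivity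
  linarith

/-- an end by rarity is an end in the sense of the box -/
theorem end_of (hq : 0 < q) {s : ℕ} (hs : s < K) {x : X} {b : β} {c : γ} (hE : P.Eend q s x b c)
    (hn : (P.ep (s + 1) x b c).t0 ≠ s + 1) :
    P.GEnd q K (P.ep s x b c) (P.sb q s x b c) x b c b c := by
  have hc : P.ep (s + 1) x b c = P.ep s x b c ∧ ¬ P.th (P.ep s x b c) (s + 1) x b c ∧
      x ∈ P.KF (P.ep s x b c) (s + 1) x b c ∧ x ∈ P.KG (P.ep s x b c) (s + 1) x b c ∧
      ¬ P.ts (P.ep s x b c) (s + 1) x b c := by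
    rcases P.ep_cases s x b c with h | h
    · exact absurd h.1 hn
    · exact h
  obtain ⟨-, hth, hF, hG, -⟩ := hc
  have hσ := P.sb_le (q := q) s x b c
  have hT : s + 1 < P.tT K (P.ep s x b c) x b c := by
    by_contra h
    have h1 := not_lt.1 h
    have h2 : P.ST (P.ep s x b c) (P.tT K (P.ep s x b c) x b c) x b c := fst1_spec (h1.trans hs)
    exact hth ((P.ST_succ s x b c).1 (ST_mono h1 h2))
  have hX : s + 1 < P.tX K (P.ep s x b c) x b c := by
    by_contra h
    have h1 := not_lt.1 h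
    have h2 : x ∉ P.KF (P.ep s x b c) (P.tX K (P.ep s x b c) x b c) x b c ∨
        x ∉ P.KG (P.ep s x b c) (P.tX K (P.ep s x b c) x b c) x b c :=
      fst1_spec (p := fun s' => x ∉ P.KF (P.ep s x b c) s' x b c ∨ x ∉ P.KG (P.ep s x b c) s' x b c) (h1.trans hs)
    rcases h2 with h2 | h2
    · exact h2 (P.KF_sub _ _ _ x b c h1 hF)
    · exact h2 (P.KG_sub _ _ _ x b c h1 hG)
  have hno : ¬ P.EBp q (P.ep s x b c) (P.sb q s x b c) s x b c ∧
      ¬ P.EAp q (P.ep s x b c) (P.sb q s x b c) s x b c := by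
    rcases hσ.eq_or_lt with h | h
    · have := P.no_E_start hq s x b c (P.sb q s x b c) hσ
      rwa [h] at this ⊢
    · exact (P.run s x b c s hσ le_rfl).2.2 h
  have hB : s < P.tB q K (P.ep s x b c) (P.sb q s x b c) x b c := by
    by_contra h
    have h1 := not_lt.1 h
    exact hno.1 (EBp_mono h1 (fst1_spec (p := fun s' => P.EBp q (P.ep s x b c) (P.sb q s x b c) s' x b c)
      (h1.trans hs.le)))
  have hA : s < P.tA q K (P.ep s x b c) (P.sb q s x b c) x b c := by
    by_contra h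
    have h1 := not_lt.1 h
    exact hno.2 (EAp_mono h1 (fst1_spec (p := fun s' => P.EAp q (P.ep s x b c) (P.sb q s x b c) s' x b c)
      (h1.trans hs.le)))
  unfold GEnd GB GA
  beta_reduce
  rcases hE with hE | hE
  · have h1 : P.tB q K (P.ep s x b c) (P.sb q s x b c) x b c ≤ s + 1 := fst1_le_of hs hE
    exact Or.inl ⟨by omega, by omega, by omega, by omega⟩
  · have h1 : P.tA q K (P.ep s x b c) (P.sb q s x b c) x b c ≤ s + 1 := fst1_le_of hs hE
    rcases Nat.lt_or_ge (P.tA q K (P.ep s x b c) (P.sb q s x b c) x b c)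
      (P.tB q K (P.ep s x b c) (P.sb q s x b c) x b c) with h2 | h2
    · exact Or.inr ⟨by omega, by omega, by omega, h2⟩
    · exact Or.inl ⟨by omega, by omega, by omega, h2⟩

/-- a test or a fall in the box is a new epoch -/
theorem real_of {σ : ℕ} {x : X} {b : β} {c : γ} (h0 : P.sb q σ x b c = σ)
    (h : P.GReal q K (P.ep σ x b c) σ x b c b c) :
    ∃ s, s < K ∧ P.sb q s x b c = σ ∧ (P.ep (s + 1) x b c).t0 = s + 1 := by
  classical
  set e := P.ep σ x b c with he
  have ht0 := P.t0_le σ x b c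
  rw [← he] at ht0
  unfold GReal GG at h
  beta_reduce at h
  obtain ⟨h1, h2⟩ := h
  let trig : ℕ → Prop := fun r => P.th e r x b c ∨ (x ∉ P.KF e r x b c ∨ x ∉ P.KG e r x b c) ∨ P.ts e r x b c
  have hex : ∃ r, σ < r ∧ r ≤ min (P.tT K e x b c) (P.tX K e x b c) ∧ trig r := by
    rcases le_or_gt (P.tT K e x b c) (P.tX K e x b c) with h3 | h3
    · rw [min_eq_left h3] at h2 ⊢
      have h4 : P.ST e (P.tT K e x b c) x b c := fst1_spec (by show P.tT K e x b c ≤ K; omega)
      rcases h4 with ⟨r, r1, r2, r3⟩ | ⟨r, r1, r2, r3⟩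
      · refine ⟨r, ?_, r2, Or.inl r3⟩
        by_contra hr
        exact ((P.noT σ x b c r r1.le (not_lt.1 hr)).2 r1).1 r3
      · refine ⟨r, ?_, r2.le, Or.inr (Or.inr r3)⟩
        by_contra hr
        exact ((P.noT σ x b c r r1.le (not_lt.1 hr)).2 r1).2 r3
    · rw [min_eq_right h3.le] at h2 ⊢
      have h4 : x ∉ P.KF e (P.tX K e x b c) x b c ∨ x ∉ P.KG e (P.tX K e x b c) x b c :=
        fst1_spec (p := fun s => x ∉ P.KF e s x b c ∨ x ∉ P.KG e s x b c) (by show P.tX K e x b c ≤ K; omega)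
      refine ⟨P.tX K e x b c, ?_, le_rfl, Or.inr (Or.inl h4)⟩
      by_contra hr
      rcases h4 with h4 | h4
      · exact h4 (P.KF_sub _ _ _ x b c (not_lt.1 hr) (P.self_F σ x b c))
      · exact h4 (P.KG_sub _ _ _ x b c (not_lt.1 hr) (P.self_G σ x b c))
  have hex' : ∃ r, σ < r ∧ trig r := by
    obtain ⟨r, r1, -, r3⟩ := hex
    exact ⟨r, r1, r3⟩
  set r0 := Nat.find hex' with hr0
  obtain ⟨k1, k2⟩ := Nat.find_spec hex'
  rw [← hr0] at k1 k2
  have k3 : r0 ≤ min (P.tT K e x b c) (P.tX K e x b c) := by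
    obtain ⟨r, r1, r2, r3⟩ := hex
    exact (Nat.find_min' hex' ⟨r1, r3⟩).trans r2
  have k4 : ∀ r, σ < r → r < r0 → ¬ trig r := fun r hr hlt ht => Nat.find_min hex' hlt ⟨hr, ht⟩
  have hK : r0 ≤ K := by omega
  obtain ⟨m, hm⟩ : ∃ m, r0 = m + 1 := ⟨r0 - 1, by omega⟩
  rw [hm] at k1 k2 k3 k4 hK
  have hr := P.reach (q := q) (σ := σ) (s := m) (by omega) h0 (by
    intro r j1 j2
    have j3 := k4 r j1 (by omega)
    have j4 : ¬ P.th e r x b c ∧ ¬ (x ∉ P.KF e r x b c ∨ x ∉ P.KG e r x b c) ∧ ¬ P.ts e r x b c :=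
      ⟨fun h => j3 (Or.inl h), fun h => j3 (Or.inr (Or.inl h)), fun h => j3 (Or.inr (Or.inr h))⟩
    have j5 := not_or.1 j4.2.1
    refine ⟨j4.1, j4.2.2, not_not.1 j5.1, not_not.1 j5.2, ?_, ?_⟩
    · exact not_of_lt_fst1 (K := K) (p := fun s => P.EBp q e σ s x b c) (by omega)
        (show r < P.tB q K e σ x b c by omega)
    · exact not_of_lt_fst1 (K := K) (p := fun s => P.EAp q e σ s x b c) (by omega)
        (show r < P.tA q K e σ x b c by omega))
  refine ⟨m, by omega, hr.2, P.ep_new m x b c ?_⟩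
  rw [hr.1]
  exact k2

/-- ends against virtual ends, at one point -/
theorem ends_pt (hq : 0 < q) (x : X) (b : β) (c : γ) :
    ∑ s ∈ range K, ind (P.Eend q s x b c ∧ (P.ep (s + 1) x b c).t0 ≠ s + 1) ≤
      ∑ σ ∈ range K, ind (P.sb q σ x b c = σ) * ind (P.GEnd q K (P.ep σ x b c) σ x b c b c) := by
  have hsucc : ∀ s, P.Eend q s x b c → P.sb q (s + 1) x b c = s + 1 := by
    intro s h
    rcases P.sb_cases (q := q) s x b c with h1 | h1
    · exact h1.1
    · exact absurd h h1.2.2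
  have := sum_inj_le (K := K) (A := fun s => P.Eend q s x b c ∧ (P.ep (s + 1) x b c).t0 ≠ s + 1)
    (B := fun σ => P.sb q σ x b c = σ ∧ P.GEnd q K (P.ep σ x b c) σ x b c b c) (f := fun _ => (1 : ℝ))
    (g := fun _ => 1) (fun _ => zero_le_one) (fun s => P.sb q s x b c)
    (fun s hs h => by
      have k1 := P.sb_start (q := q) s x b c
      refine ⟨(P.sb_le s x b c).trans_lt hs, ⟨k1.1, ?_⟩, le_rfl⟩
      rw [k1.2]
      exact end_of hq hs h.1 h.2)
    (fun s s' _ _ h h' he => by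
      rcases lt_trichotomy s s' with h1 | h1 | h1
      · have h2 := P.sb_mono (q := q) (show s + 1 ≤ s' from h1) x b c
        rw [hsucc s h.1, ← he] at h2
        have := P.sb_le (q := q) s x b c
        omega
      · exact h1
      · have h2 := P.sb_mono (q := q) (show s' + 1 ≤ s from h1) x b c
        rw [hsucc s' h'.1, he] at h2
        have := P.sb_le (q := q) s' x b c
        omega)
  simp only [mul_one] at this
  refine this.trans (sum_le_sum fun σ _ => ?_)
  by_cases h1 : P.sb q σ x b c = σ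
  · by_cases h2 : P.GEnd q K (P.ep σ x b c) σ x b c b c
    · rw [ind_of (show _ ∧ _ from ⟨h1, h2⟩), ind_of h1, ind_of h2, mul_one]
    · rw [ind_not (fun h : _ ∧ _ => h2 h.2), ind_not h2, mul_zero]
  · rw [ind_not (fun h : _ ∧ _ => h1 h.1), ind_not h1, zero_mul]

/-- virtual tests and falls against new epochs, at one point -/
theorem reals_pt (x : X) (b : β) (c : γ) :
    ∑ σ ∈ range K, ind (P.sb q σ x b c = σ) * ind (P.GReal q K (P.ep σ x b c) σ x b c b c) ≤
      ∑ s ∈ range K, ind ((P.ep (s + 1) x b c).t0 = s + 1) := by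
  choose! f hf using fun σ (h : P.sb q σ x b c = σ ∧ P.GReal q K (P.ep σ x b c) σ x b c b c) => real_of h.1 h.2
  have := sum_inj_le (K := K) (A := fun σ => P.sb q σ x b c = σ ∧ P.GReal q K (P.ep σ x b c) σ x b c b c)
    (B := fun s => (P.ep (s + 1) x b c).t0 = s + 1) (f := fun _ => (1 : ℝ)) (g := fun _ => 1)
    (fun _ => zero_le_one) f (fun σ _ h => ⟨(hf σ h).1, (hf σ h).2.2, le_rfl⟩)
    (fun σ σ' _ _ h h' he => by rw [← (hf σ h).2.1, ← (hf σ' h').2.1, he])
  simp only [mul_one] at this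
  refine le_trans (sum_le_sum fun σ _ => ?_) this
  by_cases h1 : P.sb q σ x b c = σ
  · by_cases h2 : P.GReal q K (P.ep σ x b c) σ x b c b c
    · rw [ind_of (show _ ∧ _ from ⟨h1, h2⟩), ind_of h1, ind_of h2, mul_one]
    · rw [ind_not (fun h : _ ∧ _ => h2 h.2), ind_not h2, mul_zero]
  · rw [ind_not (fun h : _ ∧ _ => h1 h.1), ind_not h1, zero_mul]

/-- starts against new epochs and ends, at one point -/
theorem starts_pt (x : X) (b : β) (c : γ) :
    ∑ σ ∈ range (K + 1), ind (P.sb q σ x b c = σ) ≤ 1 + (∑ s ∈ range K, ind ((P.ep (s + 1) x b c).t0 = s + 1) +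
      ∑ s ∈ range K, ind (P.Eend q s x b c ∧ (P.ep (s + 1) x b c).t0 ≠ s + 1)) := by
  rw [sum_range_succ', add_comm, ← sum_add_distrib]
  refine add_le_add (ind_le_one _) (sum_le_sum fun s _ => ?_)
  have n1 := ind_nonneg ((P.ep (s + 1) x b c).t0 = s + 1)
  have n2 := ind_nonneg (P.Eend q s x b c ∧ (P.ep (s + 1) x b c).t0 ≠ s + 1)
  by_cases h1 : P.sb q (s + 1) x b c = s + 1
  · rw [ind_of h1]
    by_cases h2 : (P.ep (s + 1) x b c).t0 = s + 1
    · rw [ind_of h2]
      linarith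
    · rcases P.sb_cases (q := q) s x b c with h3 | h3
      · rcases h3.2 with h4 | h4
        · exact absurd h4 h2
        · rw [ind_of (show _ ∧ _ from ⟨h4, h2⟩)]
          linarith
      · have := P.sb_le (q := q) s x b c
        rw [h3.1] at h1
        omega
  · rw [ind_not h1]
    linarith

/-- the comparison in mean for one start -/
theorem start_box (hq : 0 < q) (hq2 : q ≤ 2) (σ : ℕ) :
    E3 (fun x b c => ind (P.sb q σ x b c = σ) * ind (P.GEnd q K (P.ep σ x b c) σ x b c b c)) ≤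
      24 / q * E3 (fun x b c => ind (P.sb q σ x b c = σ) * ind (P.GReal q K (P.ep σ x b c) σ x b c b c)) := by
  rw [← E3_box (P.pubU σ) fun x b c => ind (P.sb q σ x b c = σ) * ind (P.GEnd q K (P.ep σ x b c) σ x b c b c),
    ← E3_box (P.pubU σ) fun x b c => ind (P.sb q σ x b c = σ) * ind (P.GReal q K (P.ep σ x b c) σ x b c b c),
    ← E3_mul]
  refine E3_mono fun x b c => ?_
  rw [← avg_mul]
  refine avg_le_avg fun x' hx' => ?_
  have hpub : ∀ b' ∈ D.cB σ b, ∀ c' ∈ D.cC σ c, P.sb q σ x' b' c' = P.sb q σ x b c ∧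
      P.ep σ x' b' c' = P.ep σ x b c ∧ D.qb σ b = D.qb σ b' ∧ D.qc σ c = D.qc σ c' := by
    intro b' hb' c' hc'
    have e1 := (D.mem_cB.1 hb').symm
    have e2 := (D.mem_cC.1 hc').symm
    have hS : D.Same σ x b c x' b' c' := ⟨(P.U_node hx').symm, e1, e2⟩
    exact ⟨P.sb_pub σ hS hx', (P.U_pub hS hx').1, e1, e2⟩
  have l1 : avg (D.cB σ b) (fun b' => avg (D.cC σ c) fun c' => ind (P.sb q σ x' b' c' = σ) *
      ind (P.GEnd q K (P.ep σ x' b' c') σ x' b' c' b' c')) = ind (P.sb q σ x b c = σ) *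
      avg (D.cB σ b) (fun b' => avg (D.cC σ c) fun c' => ind (P.GEnd q K (P.ep σ x b c) σ x' b c b' c')) := by
    rw [← avg_mul]
    refine avg_congr fun b' hb' => ?_
    rw [← avg_mul]
    refine avg_congr fun c' hc' => ?_
    obtain ⟨k1, k2, k3, k4⟩ := hpub b' hb' c' hc'
    rw [k1, k2]
    congr 1
    exact congrArg ind (propext (GEnd_base k3 k4)).symm
  have l2 : avg (D.cB σ b) (fun b' => avg (D.cC σ c) fun c' => ind (P.sb q σ x' b' c' = σ) *
      ind (P.GReal q K (P.ep σ x' b' c') σ x' b' c' b' c')) = ind (P.sb q σ x b c = σ) *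
      avg (D.cB σ b) (fun b' => avg (D.cC σ c) fun c' => ind (P.GReal q K (P.ep σ x b c) σ x' b c b' c')) := by
    rw [← avg_mul]
    refine avg_congr fun b' hb' => ?_
    rw [← avg_mul]
    refine avg_congr fun c' hc' => ?_
    obtain ⟨k1, k2, k3, k4⟩ := hpub b' hb' c' hc'
    rw [k1, k2]
    congr 1
    exact congrArg ind (propext (GReal_base k3 k4)).symm
  rw [l1, l2]
  have := mul_le_mul_of_nonneg_left (box_le hq hq2 (P.ep σ x b c) σ x' b c (P := P) (K := K))
    (ind_nonneg (P.sb q σ x b c = σ))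
  linarith

/-- THE NUMBER OF SUB-EPOCHS -/
theorem starts_le (hq : 0 < q) (hq2 : q ≤ 2) :
    ∑ σ ∈ range (K + 1), E3 (fun x b c => ind (P.sb q σ x b c = σ)) ≤
      1 + (1 + 24 / q) * ∑ s ∈ range K, E3 (fun x b c => ind ((P.ep (s + 1) x b c).t0 = s + 1)) := by
  have a1 : ∑ σ ∈ range (K + 1), E3 (fun x b c => ind (P.sb q σ x b c = σ)) ≤
      1 + (∑ s ∈ range K, E3 (fun x b c => ind ((P.ep (s + 1) x b c).t0 = s + 1)) +
        ∑ s ∈ range K, E3 (fun x b c => ind (P.Eend q s x b c ∧ (P.ep (s + 1) x b c).t0 ≠ s + 1))) := by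
    rw [← E3_sum, ← E3_sum, ← E3_sum, ← E3_add]
    refine (E3_mono fun x b c => starts_pt (K := K) x b c).trans ?_
    rw [E3_add]
    exact add_le_add (E3_le_one fun _ _ _ => le_rfl) le_rfl
  have a2 : ∑ s ∈ range K, E3 (fun x b c => ind (P.Eend q s x b c ∧ (P.ep (s + 1) x b c).t0 ≠ s + 1)) ≤
      ∑ σ ∈ range K, E3 (fun x b c => ind (P.sb q σ x b c = σ) *
        ind (P.GEnd q K (P.ep σ x b c) σ x b c b c)) := by
    rw [← E3_sum, ← E3_sum]
    exact E3_mono fun x b c => ends_pt hq x b c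
  have a3 : ∑ σ ∈ range K, E3 (fun x b c => ind (P.sb q σ x b c = σ) *
        ind (P.GEnd q K (P.ep σ x b c) σ x b c b c)) ≤ 24 / q *
      ∑ σ ∈ range K, E3 (fun x b c => ind (P.sb q σ x b c = σ) *
        ind (P.GReal q K (P.ep σ x b c) σ x b c b c)) := by
    rw [mul_sum]
    exact sum_le_sum fun σ _ => start_box hq hq2 σ
  have a4 : ∑ σ ∈ range K, E3 (fun x b c => ind (P.sb q σ x b c = σ) *
        ind (P.GReal q K (P.ep σ x b c) σ x b c b c)) ≤
      ∑ s ∈ range K, E3 (fun x b c => ind ((P.ep (s + 1) x b c).t0 = s + 1)) := by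
    rw [← E3_sum, ← E3_sum]
    exact E3_mono fun x b c => reals_pt x b c
  have a5 : 0 ≤ 24 / q := by positivity
  have a6 := mul_le_mul_of_nonneg_left a4 a5
  linarith

end Prc

end

end Pool.Agent.M3.S3
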