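import Pool.Agent.M3.S3.LossDef
import Pool.Agent.M3.S3.Starts
import Pool.Agent.M3.S3.CntChg

/-!
# M3.S3.AL: the big falls, part (al) of 3.9 (helper26), route A

* `iof_close` : two classes with nearly the same law of the pair of labels have nearly the same `iota`;
* `Pst_close` : comparison of `psi` of the half step state with `psi` of an earlier state of the same epoch, for a pair
  without update and without displacement;
* `al_cmp` : along an event `F` without half step test, a function of the hidden point and of the node of the time `s+1`;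
* `al_f`, `al_g` : the big falls of both systems.
-/

set_option autoImplicit false
set_option linter.unusedSectionVars false
set_option linter.unusedVariables false

namespace Pool.Agent.M3.S3

open Finset Pool.Agent.PWZ Pool.Agent.M3

noncomputable section

namespace AL

/-! ## two classes with nearly the same law -/

theorem log_sub_le {a b m η : ℝ} (hm : 0 < m) (ha : m ≤ a) (hb : m ≤ b) (h : |a - b| ≤ η) :
    Real.log a - Real.log b ≤ η / m := by
  have ha0 : 0 < a := hm.trans_le ha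
  have hb0 : 0 < b := hm.trans_le hb
  rw [← Real.log_div ha0.ne' hb0.ne']
  calc Real.log (a / b) ≤ a / b - 1 := Real.log_le_sub_one_of_pos (by positivity)
    _ = (a - b) / b := by field_simp
    _ ≤ |a - b| / b := div_le_div_of_nonneg_right (le_abs_self _) hb0.le
    _ ≤ |a - b| / m := div_le_div_of_nonneg_left (abs_nonneg _) hm hb
    _ ≤ η / m := div_le_div_of_nonneg_right h hm.le

/-- density of the pair, function form -/
def iof {X φ : Type*} (V : Finset X) (u v : X → φ → ℝ) (F G : φ) : ℝ :=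
  Real.log (avg V (fun y => u y F * v y G) / (law V u F * law V v G))

section close

variable {X φ : Type*} [Fintype φ] {u v : X → φ → ℝ} {al η : ℝ} {W : Finset X}

theorem avg_ge {V : Finset X} (hV : V.Nonempty) {f : X → ℝ} {m : ℝ} (h : ∀ y ∈ V, m ≤ f y) : m ≤ avg V f := by
  have h1 := Tw.avg_le_avg (s := V) (f := fun _ => m) (g := f) h
  rwa [avg_const hV] at h1

/-- the number of values of a thick label -/
theorem supp_card (h0 : 0 < al) (vn : ∀ y F, 0 ≤ v y F) (vs : ∀ y, ∑ F, v y F = 1)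
    (vt : ∀ y ∈ W, ∀ y' ∈ W, ∀ F, v y F ≠ 0 → al ≤ v y' F) {x : X} (hx : x ∈ W) {V : Finset X} (hV : V ⊆ W)
    {p1 p2 : φ → ℝ} (h : ∀ G, v x G ≠ 0 → |p1 G - p2 G| ≤ η) (h' : ∀ G, v x G = 0 → p1 G = 0 ∧ p2 G = 0) :
    |∑ G, p1 G - ∑ G, p2 G| ≤ η / al := by
  classical
  rw [← sum_sub_distrib]
  refine (abs_sum_le_sum_abs _ _).trans ?_
  by_cases hη : ∃ G, v x G ≠ 0
  · have hη0 : 0 ≤ η := by
      obtain ⟨G, hG⟩ := hη
      exact (abs_nonneg _).trans (h G hG)
    have h1 : ∀ G, |p1 G - p2 G| ≤ η / al * v x G := by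
      intro G
      by_cases hG : v x G = 0
      · rw [(h' G hG).1, (h' G hG).2, hG]
        simp
      · have h2 : al ≤ v x G := vt x hx x hx G hG
        calc |p1 G - p2 G| ≤ η := h G hG
          _ = η / al * al := by field_simp
          _ ≤ η / al * v x G := mul_le_mul_of_nonneg_left h2 (by positivity)
    calc ∑ G, |p1 G - p2 G| ≤ ∑ G, η / al * v x G := sum_le_sum fun G _ => h1 G
      _ = η / al := by rw [← mul_sum, vs, mul_one]
  · push Not at hη
    have := vs x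
    rw [sum_eq_zero fun G _ => hη G] at this
    exact absurd this (by norm_num)

/-- TWO CLASSES WITH NEARLY THE SAME LAW OF THE PAIR -/
theorem iof_close (h0 : 0 < al) (un : ∀ y F, 0 ≤ u y F) (vn : ∀ y F, 0 ≤ v y F) (us : ∀ y, ∑ F, u y F = 1)
    (vs : ∀ y, ∑ F, v y F = 1) (ut : ∀ y ∈ W, ∀ y' ∈ W, ∀ F, u y F ≠ 0 → al ≤ u y' F)
    (vt : ∀ y ∈ W, ∀ y' ∈ W, ∀ F, v y F ≠ 0 → al ≤ v y' F) {x : X} (hx : x ∈ W) {V1 V2 : Finset X} (h1 : V1 ⊆ W)
    (h2 : V2 ⊆ W) (n1 : V1.Nonempty) (n2 : V2.Nonempty)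
    (hd : ∀ F G, |avg V1 (fun y => u y F * v y G) - avg V2 (fun y => u y F * v y G)| ≤ η) {F G : φ}
    (hF : u x F ≠ 0) (hG : v x G ≠ 0) : iof V1 u v F G ≤ iof V2 u v F G + 3 * η / al ^ 2 := by
  have zu : ∀ y ∈ W, ∀ F', u x F' = 0 → u y F' = 0 := by
    intro y hy F' h
    by_contra hne
    have := ut y hy x hx F' hne
    rw [h] at this
    linarith
  have zv : ∀ y ∈ W, ∀ F', v x F' = 0 → v y F' = 0 := by
    intro y hy F' h
    by_contra hne
    have := vt y hy x hx F' hne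
    rw [h] at this
    linarith
  have gu : ∀ y ∈ W, al ≤ u y F := fun y hy => ut x hx y hy F hF
  have gv : ∀ y ∈ W, al ≤ v y G := fun y hy => vt x hx y hy G hG
  -- marginals as sums
  have mu : ∀ V : Finset X, law V u F = ∑ G', avg V fun y => u y F * v y G' := by
    intro V
    rw [← avg_sum_comm]
    unfold law
    congr 1
    funext y
    rw [← mul_sum, vs, mul_one]
  have mv : ∀ V : Finset X, law V v G = ∑ F', avg V fun y => u y F' * v y G := by
    intro V
    rw [← avg_sum_comm]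
    unfold law
    congr 1
    funext y
    rw [← sum_mul, us, one_mul]
  have lu : ∀ V ⊆ W, V.Nonempty → al ≤ law V u F := fun V hV hn => avg_ge hn fun y hy => gu y (hV hy)
  have lv : ∀ V ⊆ W, V.Nonempty → al ≤ law V v G := fun V hV hn => avg_ge hn fun y hy => gv y (hV hy)
  have lp : ∀ V ⊆ W, V.Nonempty → al ^ 2 ≤ avg V (fun y => u y F * v y G) := fun V hV hn =>
    avg_ge hn fun y hy => by
      rw [sq]
      exact mul_le_mul (gu y (hV hy)) (gv y (hV hy)) h0.le (un _ _)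
  have a0 : 0 < al ^ 2 := by positivity
  -- differences
  have d1 := log_sub_le a0 (lp V1 h1 n1) (lp V2 h2 n2) (hd F G)
  have e2 : |law V2 u F - law V1 u F| ≤ η / al := by
    rw [mu, mu]
    refine supp_card (W := W) h0 vn vs vt hx h1 (fun G' _ => ?_) (fun G' hG' => ?_)
    · rw [abs_sub_comm]
      exact hd F G'
    · constructor <;>
      · unfold avg
        rw [sum_eq_zero, zero_div]
        intro y hy
        rw [zv y (by first | exact h1 hy | exact h2 hy) G' hG', mul_zero]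
  have e3 : |law V2 v G - law V1 v G| ≤ η / al := by
    rw [mv, mv]
    refine supp_card (W := W) h0 un us ut hx h1 (fun F' _ => ?_) (fun F' hF' => ?_)
    · rw [abs_sub_comm]
      exact hd F' G
    · constructor <;>
      · unfold avg
        rw [sum_eq_zero, zero_div]
        intro y hy
        rw [zu y (by first | exact h1 hy | exact h2 hy) F' hF', zero_mul]
  have d2 := log_sub_le h0 (lu V2 h2 n2) (lu V1 h1 n1) e2
  have d3 := log_sub_le h0 (lv V2 h2 n2) (lv V1 h1 n1) e3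
  have p1 := a0.trans_le (lp V1 h1 n1)
  have p2 := a0.trans_le (lp V2 h2 n2)
  have q1 := h0.trans_le (lu V1 h1 n1)
  have q2 := h0.trans_le (lu V2 h2 n2)
  have r1 := h0.trans_le (lv V1 h1 n1)
  have r2 := h0.trans_le (lv V2 h2 n2)
  unfold iof
  rw [Real.log_div p1.ne' (mul_pos q1 r1).ne', Real.log_mul q1.ne' r1.ne', Real.log_div p2.ne' (mul_pos q2 r2).ne',
    Real.log_mul q2.ne' r2.ne']
  have e4 : η / al / al = η / al ^ 2 := by rw [div_div, sq]
  rw [e4] at d2 d3
  have e5 : 3 * η / al ^ 2 = η / al ^ 2 + η / al ^ 2 + η / al ^ 2 := by ring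
  rw [e5]
  linarith

/-- the density is at most `1/al` -/
theorem iof_le (h0 : 0 < al) (h1 : al ≤ 1) (un : ∀ y F, 0 ≤ u y F) (vn : ∀ y F, 0 ≤ v y F)
    (vs : ∀ y, ∑ F, v y F = 1) (ut : ∀ y ∈ W, ∀ y' ∈ W, ∀ F, u y F ≠ 0 → al ≤ u y' F)
    (vt : ∀ y ∈ W, ∀ y' ∈ W, ∀ F, v y F ≠ 0 → al ≤ v y' F) {x : X} (hx : x ∈ W) {V : Finset X} (hV : V ⊆ W)
    (hn : V.Nonempty) {F G : φ} (hF : u x F ≠ 0) (hG : v x G ≠ 0) : iof V u v F G ≤ Real.log (1 / al) := by
  have gu : ∀ y ∈ W, al ≤ u y F := fun y hy => ut x hx y hy F hF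
  have gv : ∀ y ∈ W, al ≤ v y G := fun y hy => vt x hx y hy G hG
  have lu : al ≤ law V u F := avg_ge hn fun y hy => gu y (hV hy)
  have lv : al ≤ law V v G := avg_ge hn fun y hy => gv y (hV hy)
  have lp : al ^ 2 ≤ avg V (fun y => u y F * v y G) := avg_ge hn fun y hy => by
    rw [sq]
    exact mul_le_mul (gu y (hV hy)) (gv y (hV hy)) h0.le (un _ _)
  have v1 : ∀ y, v y G ≤ 1 := fun y => by
    rw [← vs y]
    exact single_le_sum (fun G' _ => vn y G') (mem_univ G)
  have up : avg V (fun y => u y F * v y G) ≤ law V u F := Tw.avg_le_avg fun y _ => by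
    have := mul_le_mul_of_nonneg_left (v1 y) (un y F)
    rwa [mul_one] at this
  have q1 : 0 < law V u F := h0.trans_le lu
  have r1 : 0 < law V v G := h0.trans_le lv
  have p1 : 0 < avg V (fun y => u y F * v y G) := lt_of_lt_of_le (by positivity) lp
  unfold iof
  refine Real.log_le_log (by positivity) ?_
  rw [div_le_div_iff₀ (mul_pos q1 r1) h0, one_mul]
  calc avg V (fun y => u y F * v y G) * al ≤ law V u F * al := mul_le_mul_of_nonneg_right up h0.le
    _ ≤ law V u F * law V v G := mul_le_mul_of_nonneg_left lv q1.le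

end close

/-! ## the half step state against an earlier state of the epoch -/

section states

variable {X β γ ι φ : Type*} [Fintype X] [Fintype β] [Fintype γ] [Fintype φ] {D : Dat X β γ ι φ} {al : ℝ}

theorem iof_congr {V : Finset X} {u u' v v' : X → φ → ℝ} (hu : ∀ y ∈ V, u y = u' y) (hv : ∀ y ∈ V, v y = v' y)
    (F G : φ) : iof V u v F G = iof V u' v' F G := by
  unfold iof law
  rw [Tw.avg_congr (f := fun y => u y F * v y G) (g := fun y => u' y F * v' y G) fun y hy => by rw [hu y hy, hv y hy],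
    Tw.avg_congr (f := fun y => u y F) (g := fun y => u' y F) fun y hy => by rw [hu y hy],
    Tw.avg_congr (f := fun y => v y G) (g := fun y => v' y G) fun y hy => by rw [hv y hy]]

theorem sum_w {u v : φ → ℝ} (hu : ∑ F, u F = 1) (hv : ∑ F, v F = 1) (a : ℝ) : ∑ F, ∑ G, u F * v G * a = a := by
  have : ∀ F, ∑ G, u F * v G * a = u F * a := fun F => by
    rw [← sum_mul, ← mul_sum, hv, mul_one]
  rw [sum_congr rfl fun F _ => this F, ← sum_mul, hu, one_mul]

theorem Psi_nn (k : KP X β γ φ) (del : ℝ) (V : Finset X) (x : X) (b : β) (c : γ) : 0 ≤ Psi del k V x b c :=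
  sum_nonneg fun _ _ => sum_nonneg fun _ _ =>
    mul_nonneg (mul_nonneg (k.f_nn _ _ _ _) (k.g_nn _ _ _ _)) (le_max_right _ _)

/-- `psi` of a class is at most `log (1/al)` -/
theorem Psi_le (T : D.Thick al) (h1 : al ≤ 1) {del : ℝ} (hdel : 0 ≤ del) (t : ℕ) {V : Finset X} {x : X} (hx : x ∈ V)
    (hV : V ⊆ D.cA t x) (b : β) (c : γ) : Psi del (D.kp T t) V x b c ≤ Real.log (1 / al) := by
  have hM : 0 ≤ Real.log (1 / al) := Real.log_nonneg (by rw [le_div_iff₀ T.pos]; linarith)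
  unfold Psi
  calc ∑ F, ∑ G, (D.kp T t).f x b c F * (D.kp T t).g x b c G * psi del (D.kp T t) V b c F G
      ≤ ∑ F, ∑ G, (D.kp T t).f x b c F * (D.kp T t).g x b c G * Real.log (1 / al) := by
        refine sum_le_sum fun F _ => sum_le_sum fun G _ => ?_
        by_cases hF : D.kf t x b c F = 0
        · show D.kf t x b c F * _ * _ ≤ D.kf t x b c F * _ * _
          rw [hF]; simp
        by_cases hG : D.kg t x b c G = 0
        · show _ * D.kg t x b c G * _ ≤ _ * D.kg t x b c G * _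
          rw [hG]; simp
        refine mul_le_mul_of_nonneg_left ?_ (mul_nonneg (T.f_nn _ _ _ _ _) (T.g_nn _ _ _ _ _))
        unfold psi
        refine max_le ?_ hM
        have := iof_le (W := D.cA t x) (V := V) (u := fun y => D.kf t y b c) (v := fun y => D.kg t y b c) (x := x)
          (F := F) (G := G) T.pos h1 (fun y F => T.f_nn t y b c F) (fun y F => T.g_nn t y b c F)
          (fun y => T.g_one t y b c)
          (fun y hy y' hy' F hne => T.f_thick t y y' b c F ((D.mem_cA.1 hy).trans (D.mem_cA.1 hy').symm) hne)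
          (fun y hy y' hy' F hne => T.g_thick t y y' b c F ((D.mem_cA.1 hy).trans (D.mem_cA.1 hy').symm) hne)
          (D.self_cA t x) hV ⟨x, hx⟩ hF hG
        have e : io (D.kp T t) V b c F G = iof V (fun y => D.kf t y b c) (fun y => D.kg t y b c) F G := rfl
        rw [e]
        linarith
    _ = Real.log (1 / al) := sum_w (T.f_one t x b c) (T.g_one t x b c) _

/-- comparison of two states with the same kernels -/
theorem Psi_close (T : D.Thick al) {del η : ℝ} {τ s σ : ℕ} {V1 V2 : Finset X} {x : X} {b : β} {c : γ}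
    (hx1 : x ∈ V1) (hx2 : x ∈ V2) (h1 : V1 ⊆ D.cA τ x) (h2 : V2 ⊆ D.cA τ x)
    (k1 : ∀ y ∈ V1, D.kf s y b c = D.kf τ y b c) (l1 : ∀ y ∈ V1, D.kg s y b c = D.kg τ y b c)
    (k2 : ∀ y ∈ V2, D.kf σ y b c = D.kf τ y b c) (l2 : ∀ y ∈ V2, D.kg σ y b c = D.kg τ y b c) (hη : 0 ≤ η)
    (hd : ∀ F G, |avg V1 (fun y => D.kf τ y b c F * D.kg τ y b c G) -
      avg V2 (fun y => D.kf τ y b c F * D.kg τ y b c G)| ≤ η) :
    Psi del (D.kp T s) V1 x b c ≤ Psi del (D.kp T σ) V2 x b c + 3 * η / al ^ 2 := by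
  have ha := T.pos
  have h0 : 0 ≤ 3 * η / al ^ 2 := by positivity
  unfold Psi
  rw [← sum_w (T.f_one τ x b c) (T.g_one τ x b c) (3 * η / al ^ 2), ← sum_add_distrib]
  refine sum_le_sum fun F _ => ?_
  rw [← sum_add_distrib]
  refine sum_le_sum fun G _ => ?_
  show D.kf s x b c F * D.kg s x b c G * _ ≤ D.kf σ x b c F * D.kg σ x b c G * _ + _
  rw [k1 x hx1, l1 x hx1, k2 x hx2, l2 x hx2]
  by_cases hF : D.kf τ x b c F = 0
  · rw [hF]; simp
  by_cases hG : D.kg τ x b c G = 0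
  · rw [hG]; simp
  rw [← mul_add]
  refine mul_le_mul_of_nonneg_left ?_ (mul_nonneg (T.f_nn _ _ _ _ _) (T.g_nn _ _ _ _ _))
  have e1 : io (D.kp T s) V1 b c F G = iof V1 (fun y => D.kf τ y b c) (fun y => D.kg τ y b c) F G := by
    show iof V1 (fun y => D.kf s y b c) (fun y => D.kg s y b c) F G = _
    exact iof_congr k1 l1 F G
  have e2 : io (D.kp T σ) V2 b c F G = iof V2 (fun y => D.kf τ y b c) (fun y => D.kg τ y b c) F G := by
    show iof V2 (fun y => D.kf σ y b c) (fun y => D.kg σ y b c) F G = _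
    exact iof_congr k2 l2 F G
  have key := iof_close (W := D.cA τ x) (V1 := V1) (V2 := V2) (u := fun y => D.kf τ y b c)
    (v := fun y => D.kg τ y b c) (x := x) (F := F) (G := G) T.pos (fun y F => T.f_nn τ y b c F)
    (fun y F => T.g_nn τ y b c F) (fun y => T.f_one τ y b c) (fun y => T.g_one τ y b c)
    (fun y hy y' hy' F hne => T.f_thick τ y y' b c F ((D.mem_cA.1 hy).trans (D.mem_cA.1 hy').symm) hne)
    (fun y hy y' hy' F hne => T.g_thick τ y y' b c F ((D.mem_cA.1 hy).trans (D.mem_cA.1 hy').symm) hne)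
    (D.self_cA τ x) h1 h2 ⟨x, hx1⟩ ⟨x, hx2⟩ hd hF hG
  unfold psi
  rw [e1, e2]
  refine max_le ?_ ?_
  · have := le_max_left (iof V2 (fun y => D.kf τ y b c) (fun y => D.kg τ y b c) F G - del) 0
    linarith
  · have := le_max_right (iof V2 (fun y => D.kf τ y b c) (fun y => D.kg τ y b c) F G - del) 0
    linarith

theorem dst_abs {t : ℕ} {b : β} {c : γ} {K K' : Finset X} {b' : β} {c' : γ} {θ : ℝ} (hθ : 0 ≤ θ)
    (h : dst D t b c K K' b' c' ≤ θ ^ 2) (F G : φ) : |pl D t b c K b' c' F G - pl D t b c K' b' c' F G| ≤ θ := by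
  refine abs_le_of_sq_le_sq ?_ hθ
  refine le_trans ?_ h
  unfold dst
  refine le_trans ?_ (single_le_sum (f := fun F => ∑ G, (pl D t b c K b' c' F G - pl D t b c K' b' c' F G) ^ 2)
    (fun F _ => sum_nonneg fun G _ => sq_nonneg _) (mem_univ F))
  exact single_le_sum (f := fun G => (pl D t b c K b' c' F G - pl D t b c K' b' c' F G) ^ 2)
    (fun G _ => sq_nonneg _) (mem_univ G)

theorem md_ge {R : Rm D} {e : Epo X} {r s : ℕ} (h0 : e.t0 < r) (hr : r ≤ s) (x : X) (b : β) (c : γ) (b' : β) (c' : γ) :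
    dst D e.t0 b c (R.om e r x b c) e.om0 b' c' ≤ md R e s x b c b' c' := by
  induction s, hr using Nat.le_induction with
  | base =>
    obtain ⟨r', rfl⟩ : ∃ r', r = r' + 1 := ⟨r - 1, by omega⟩
    rw [md_succ (by omega)]
    exact le_max_right _ _
  | succ n hn ih =>
    rw [md_succ (by omega)]
    exact ih.trans (le_max_left _ _)

variable {R : Rl D} {Up : Upd D} {N : Nums} {K : ℕ} {J : ℝ}

/-- the class of an earlier time of the same epoch -/
theorem ep_back {s σ : ℕ} {x : X} {b : β} {c : γ} (h1 : (R.ep s x b c).t0 ≤ σ) (h2 : σ ≤ s) :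
    R.ep σ x b c = R.ep s x b c := ((R.prc).noT s x b c σ h1 h2).1

theorem hcl_eq {s : ℕ} {x : X} {b b' : β} {c c' : γ} (hb : D.qb (s + 1) b = D.qb (s + 1) b')
    (hc : D.qc (s + 1) c = D.qc (s + 1) c') : hcl R s x b' c' = R.hc (R.ep s x b c) s x b c := by
  have hS : D.Same (s + 1) x b c x b' c' := ⟨rfl, hb, hc⟩
  unfold hcl
  rw [(R.pub s (hS.le (Nat.le_succ s)) (R.self_U s x b c)).1]
  exact (R.hc_inv (R.t0_le s x b c) hS).symm

theorem U_eq {s σ : ℕ} {x : X} {b b' : β} {c c' : γ} (h1 : (R.ep s x b c).t0 ≤ σ) (h2 : σ ≤ s)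
    (hb : D.qb s b = D.qb s b') (hc : D.qc s c = D.qc s c') :
    R.U σ x b' c' = R.om (R.ep s x b c) σ x b c := by
  have hS : D.Same s x b c x b' c' := ⟨rfl, hb, hc⟩
  have e1 := (R.pub s hS (R.self_U s x b c)).1
  have e2 : R.ep σ x b' c' = R.ep s x b c := by
    rw [ep_back (R := R) (s := s) (by rw [e1]; exact h1) h2, e1]
  unfold Rl.U
  rw [e2]
  exact (R.om_inv h1 (hS.le h2)).symm

/-- A PAIR WITHOUT UPDATE AND WITHOUT DISPLACEMENT -/
theorem Pst_close (T : D.Thick al) (hU : UpdOk D Up K J) {del θ : ℝ} (hθ : 0 < θ) (hθ1 : θ ≤ 1) {s σ : ℕ} {x : X}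
    {b b' : β} {c c' : γ} (h1 : (R.ep s x b c).t0 ≤ σ) (h2 : σ ≤ s) (hb : D.qb (s + 1) b = D.qb (s + 1) b')
    (hc : D.qc (s + 1) c = D.qc (s + 1) c')
    (hg : chg R.toRm Up (R.ep s x b c) s x b c b' c' < θ ^ 2) :
    Pst T del R s x b' c' ≤ Psg T del R σ x b' c' + 6 * θ / al ^ 2 := by
  classical
  set e := R.ep s x b c with he
  have hbs := D.rb s b b' hb
  have hcs := D.rc s c c' hc
  have ht0 : e.t0 ≤ s := R.t0_le s x b c
  have hmd : md R.toRm e s x b c b' c' ≤ chg R.toRm Up e s x b c b' c' := by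
    unfold chg
    have := ind_nonneg (upd Up e s x b c b' c')
    linarith [le_max_left (md R.toRm e s x b c b' c') (dst D e.t0 b c (om' R.toRm e s x b c) e.om0 b' c')]
  have hds : dst D e.t0 b c (om' R.toRm e s x b c) e.om0 b' c' ≤ chg R.toRm Up e s x b c b' c' := by
    unfold chg
    have := ind_nonneg (upd Up e s x b c b' c')
    linarith [le_max_right (md R.toRm e s x b c b' c') (dst D e.t0 b c (om' R.toRm e s x b c) e.om0 b' c')]
  have hnu : ¬ upd Up e s x b c b' c' := by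
    intro h
    have h3 : (1 : ℝ) ≤ chg R.toRm Up e s x b c b' c' := by
      unfold chg
      rw [ind_of h]
      have := md_nonneg (R := R.toRm) (e := e) s x b c b' c'
      linarith [le_max_left (md R.toRm e s x b c b' c') (dst D e.t0 b c (om' R.toRm e s x b c) e.om0 b' c')]
    have h4 : θ ^ 2 ≤ 1 := by nlinarith
    linarith
  unfold upd at hnu
  push Not at hnu
  -- kernels
  have cf0 : Up.cf s x b' c' = Up.cf e.t0 x b' c' := by
    rw [← Up.cf_q s x x b' c c' rfl hcs, ← Up.cf_q e.t0 x x b' c c' rfl (D.qc_le ht0 hcs)]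
    exact hnu.1
  have cg0 : Up.cg s x b' c' = Up.cg e.t0 x b' c' := by
    rw [← Up.cg_q s x x b b' c' rfl hbs, ← Up.cg_q e.t0 x x b b' c' rfl (D.qb_le ht0 hbs)]
    exact hnu.2
  have kf0 : ∀ r, e.t0 ≤ r → r ≤ s → ∀ y, D.qa r y = D.qa r x → D.kf r y b' c' = D.kf e.t0 y b' c' := by
    intro r k1 k2 y hy
    have m1 := hU.cf_le k1 x b' c'
    have m2 := hU.cf_le k2 x b' c'
    exact hU.kf_eq k1 (by omega) hy
  have kg0 : ∀ r, e.t0 ≤ r → r ≤ s → ∀ y, D.qa r y = D.qa r x → D.kg r y b' c' = D.kg e.t0 y b' c' := by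
    intro r k1 k2 y hy
    have m1 := hU.cg_le k1 x b' c'
    have m2 := hU.cg_le k2 x b' c'
    exact hU.kg_eq k1 (by omega) hy
  -- classes
  have eV1 : hcl R s x b' c' = om' R.toRm e s x b c := by
    rw [hcl_eq (R := R) hb hc]
    rfl
  have eV2 : R.U σ x b' c' = R.om e σ x b c := U_eq h1 h2 hbs hcs
  have hV1a : ∀ y ∈ om' R.toRm e s x b c, D.qa s y = D.qa s x := by
    intro y hy
    rw [← eV1, mem_hcl] at hy
    exact D.mem_cA.1 (R.U_sub s x b' c' hy.1)
  have hV2a : ∀ y ∈ R.om e σ x b c, D.qa σ y = D.qa σ x := by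
    intro y hy
    rw [← eV2] at hy
    exact D.mem_cA.1 (R.U_sub σ x b' c' hy)
  have hx1 : x ∈ om' R.toRm e s x b c := by
    rw [← eV1, mem_hcl]
    exact ⟨R.self_U s x b' c', rfl⟩
  have hx2 : x ∈ R.om e σ x b c := by
    rw [← eV2]
    exact R.self_U σ x b' c'
  -- laws
  have epl : ∀ (V : Finset X) F G, pl D e.t0 b c V b' c' F G =
      avg V (fun y => D.kf e.t0 y b' c' F * D.kg e.t0 y b' c' G) := by
    intro V F G
    unfold pl
    refine Tw.avg_congr fun y _ => ?_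
    rw [D.kf_c e.t0 y b' c c' (D.qc_le ht0 hcs), D.kg_b e.t0 y b b' c' (D.qb_le ht0 hbs)]
  have d1 := dst_abs (D := D) hθ.le (hds.trans hg.le)
  have d2 : ∀ F G, |pl D e.t0 b c (R.om e σ x b c) b' c' F G - pl D e.t0 b c e.om0 b' c' F G| ≤ θ := by
    rcases h1.eq_or_lt with h3 | h3
    · intro F G
      rw [R.om_old (by omega)]
      simp [hθ.le]
    · exact dst_abs (D := D) hθ.le (((md_ge h3 h2 x b c b' c').trans hmd).trans hg.le)
  have hd : ∀ F G, |avg (om' R.toRm e s x b c) (fun y => D.kf e.t0 y b' c' F * D.kg e.t0 y b' c' G) -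
      avg (R.om e σ x b c) (fun y => D.kf e.t0 y b' c' F * D.kg e.t0 y b' c' G)| ≤ 2 * θ := by
    intro F G
    rw [← epl, ← epl]
    have a1 := abs_le.1 (d1 F G)
    have a2 := abs_le.1 (d2 F G)
    rw [abs_le]
    constructor <;> linarith
  unfold Pst Psg
  rw [eV1, eV2]
  have key := Psi_close T (del := del) (τ := e.t0) (s := s) (σ := σ) hx1 hx2
    (fun y hy => D.mem_cA.2 (D.qa_le ht0 (hV1a y hy))) (fun y hy => D.mem_cA.2 (D.qa_le h1 (hV2a y hy)))
    (fun y hy => kf0 s ht0 le_rfl y (hV1a y hy)) (fun y hy => kg0 s ht0 le_rfl y (hV1a y hy))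
    (fun y hy => kf0 σ h1 h2 y (hV2a y hy)) (fun y hy => kg0 σ h1 h2 y (hV2a y hy)) (by positivity) hd
  have e6 : 3 * (2 * θ) / al ^ 2 = 6 * θ / al ^ 2 := by ring
  rw [e6] at key
  exact key

/-- COMPARISON ALONG AN EVENT WITHOUT HALF STEP TEST -/
theorem al_cmp (T : D.Thick al) (hT : Tst R Up N) (hU : UpdOk D Up K J) (ha : al ≤ 1) {del θ : ℝ} (hdel : 0 ≤ del)
    (hθ : 0 < θ) (hθ1 : θ ≤ 1) (s : ℕ) (F : X → β → γ → Prop)
    (hF : ∀ x b c, F x b c → ¬ R.th (R.ep s x b c) (s + 1) x b c)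
    (hFq : ∀ x b c b' c', D.qb (s + 1) b = D.qb (s + 1) b' → D.qc (s + 1) c = D.qc (s + 1) c' →
      (F x b c ↔ F x b' c'))
    (S : X → β → γ → ℕ) (hS1 : ∀ x b c, (R.ep s x b c).t0 ≤ S x b c) (hS2 : ∀ x b c, S x b c ≤ s)
    (hS3 : ∀ x b c b' c', D.qb s b = D.qb s b' → D.qc s c = D.qc s c' → S x b' c' = S x b c) :
    E3 (fun x b c => ind (F x b c) * Pst T del R s x b c) ≤
      E3 (fun x b c => ind (F x b c) * Psg T del R (S x b c) x b c) +
      (6 * θ / al ^ 2 + Real.log (1 / al) / θ ^ 2 * N.kap) * E3 (fun x b c => ind (F x b c)) := by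
  classical
  have ha0 := T.pos
  have hM : 0 ≤ Real.log (1 / al) := Real.log_nonneg (by rw [le_div_iff₀ ha0]; linarith)
  rw [← Tw.E3_smul, ← Tw.E3_add, E3_cells D (s + 1) (s + 1) (fun x b c => ind (F x b c) * Pst T del R s x b c),
    E3_cells D (s + 1) (s + 1) (fun x b c => ind (F x b c) * Psg T del R (S x b c) x b c +
      (6 * θ / al ^ 2 + Real.log (1 / al) / θ ^ 2 * N.kap) * ind (F x b c))]
  refine Tw.E3_mono fun x b c => ?_
  have hBn : (D.cB (s + 1) b).Nonempty := ⟨b, D.self_cB _ b⟩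
  have hCn : (D.cC (s + 1) c).Nonempty := ⟨c, D.self_cC _ c⟩
  by_cases hx : F x b c
  · have hall : ∀ b' ∈ D.cB (s + 1) b, ∀ c' ∈ D.cC (s + 1) c, F x b' c' := fun b' hb' c' hc' =>
      (hFq x b c b' c' (D.mem_cB.1 hb').symm (D.mem_cC.1 hc').symm).1 hx
    have hn : ¬ H2 R.toRm Up N (R.ep s x b c) s x b c := fun h =>
      hF x b c hx ((hT.th _ s x b c (R.t0_le s x b c)).2 (Or.inr (Or.inl h)))
    unfold H2 at hn
    rw [not_le] at hn
    unfold av2 at hn
    have hp : ∀ b' ∈ D.cB (s + 1) b, ∀ c' ∈ D.cC (s + 1) c,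
        ind (F x b' c') * Pst T del R s x b' c' ≤ Psg T del R (S x b c) x b' c' + 6 * θ / al ^ 2 +
          Real.log (1 / al) / θ ^ 2 * chg R.toRm Up (R.ep s x b c) s x b c b' c' := by
      intro b' hb' c' hc'
      have kb := (D.mem_cB.1 hb').symm
      have kc := (D.mem_cC.1 hc').symm
      rw [ind_of (hall b' hb' c' hc'), one_mul]
      have hc0 : 0 ≤ chg R.toRm Up (R.ep s x b c) s x b c b' c' := by
        unfold chg
        have h1 := ind_nonneg (upd Up (R.ep s x b c) s x b c b' c')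
        have h2 := md_nonneg (R := R.toRm) (e := R.ep s x b c) s x b c b' c'
        linarith [le_max_left (md R.toRm (R.ep s x b c) s x b c b' c')
          (dst D (R.ep s x b c).t0 b c (om' R.toRm (R.ep s x b c) s x b c) (R.ep s x b c).om0 b' c')]
      have h3 : 0 ≤ Real.log (1 / al) / θ ^ 2 := by positivity
      rcases lt_or_ge (chg R.toRm Up (R.ep s x b c) s x b c b' c') (θ ^ 2) with h4 | h4
      · have h5 := Pst_close (R := R) T hU (del := del) hθ hθ1 (hS1 x b c) (hS2 x b c) kb kc h4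
        have h6 := mul_nonneg h3 hc0
        linarith
      · have h5 : Pst T del R s x b' c' ≤ Real.log (1 / al) := by
          unfold Pst
          refine Psi_le T ha hdel s (V := hcl R s x b' c') (x := x) ?_ ?_ b' c'
          · rw [mem_hcl]
            exact ⟨R.self_U s x b' c', rfl⟩
          · intro y hy
            exact R.U_sub s x b' c' (hcl_sub R s x b' c' hy)
        have h6 : 0 ≤ Psg T del R (S x b c) x b' c' := Psi_nn _ _ _ _ _ _
        have h7 : 0 ≤ 6 * θ / al ^ 2 := by positivity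
        have h8 : Real.log (1 / al) ≤ Real.log (1 / al) / θ ^ 2 * chg R.toRm Up (R.ep s x b c) s x b c b' c' := by
          calc Real.log (1 / al) = Real.log (1 / al) / θ ^ 2 * θ ^ 2 := by field_simp
            _ ≤ _ := mul_le_mul_of_nonneg_left h4 h3
        linarith
    have hr : ∀ b' ∈ D.cB (s + 1) b, ∀ c' ∈ D.cC (s + 1) c,
        ind (F x b' c') * Psg T del R (S x b' c') x b' c' +
          (6 * θ / al ^ 2 + Real.log (1 / al) / θ ^ 2 * N.kap) * ind (F x b' c') =
        Psg T del R (S x b c) x b' c' + (6 * θ / al ^ 2 + Real.log (1 / al) / θ ^ 2 * N.kap) := by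
      intro b' hb' c' hc'
      rw [ind_of (hall b' hb' c' hc'), one_mul, mul_one, hS3 x b c b' c' (D.rb s _ _ (D.mem_cB.1 hb').symm)
        (D.rc s _ _ (D.mem_cC.1 hc').symm)]
    rw [Tw.avg_congr (fun b' hb' => Tw.avg_congr (fun c' hc' => hr b' hb' c' hc'))]
    refine (Tw.avg_le_avg fun b' hb' => Tw.avg_le_avg fun c' hc' => hp b' hb' c' hc').trans ?_
    simp only [avg_add, avg_smul, avg_const hBn, avg_const hCn]
    have h3 : 0 ≤ Real.log (1 / al) / θ ^ 2 := by positivity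
    have h4 := mul_le_mul_of_nonneg_left hn.le h3
    linarith
  · have hall : ∀ b' ∈ D.cB (s + 1) b, ∀ c' ∈ D.cC (s + 1) c, ¬ F x b' c' := fun b' hb' c' hc' h =>
      hx ((hFq x b c b' c' (D.mem_cB.1 hb').symm (D.mem_cC.1 hc').symm).2 h)
    refine le_of_eq (Tw.avg_congr fun b' hb' => Tw.avg_congr fun c' hc' => ?_)
    rw [ind_not (hall b' hb' c' hc')]
    ring

end states

/-! ## invariance of the events -/

section inv

variable {X β γ ι φ : Type*} [Fintype X] [Fintype β] [Fintype γ] {D : Dat X β γ ι φ}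

theorem ff_inv {P : Prc D} {q : ℝ} {z : Bool} {big : Epo X → ℕ → X → β → γ → Prop} {s : ℕ} {x : X} {b b' : β}
    {c c' : γ} (hb : D.qb (s + 1) b = D.qb (s + 1) b') (hc : D.qc (s + 1) c = D.qc (s + 1) c')
    (hbig : big (P.ep s x b c) (s + 1) x b c ↔ big (P.ep s x b c) (s + 1) x b' c') :
    P.ff q z big s x b c ↔ P.ff q z big s x b' c' := by
  have hS : D.Same (s + 1) x b c x b' c' := ⟨rfl, hb, hc⟩
  have hs := hS.le (Nat.le_succ s)
  have e1 := (P.U_pub hs (P.self_U s x b c)).1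
  have e2 := P.sb_pub (q := q) s hs (P.self_U s x b c)
  have ht := P.t0_le s x b c
  have hσ := P.sb_le (q := q) s x b c
  have ht' : (P.ep s x b c).t0 ≤ s + 1 := by omega
  unfold Prc.ff Prc.Eend
  rw [e1, e2, ← hbig, P.KF_inv (P.ep s x b c) (s + 1) x x b b' c c' ht' rfl hb (D.qc_le ht' hc),
    P.KG_inv (P.ep s x b c) (s + 1) x x b b' c c' ht' rfl (D.qb_le ht' hb) hc,
    P.th_q (P.ep s x b c) (s + 1) x b c x b' c' ht' hS,
    Prc.EBp_inv' (P := P) (q := q) (e := P.ep s x b c) (σ := P.sb q s x b c) (s := s + 1) (x := x) (x' := x) rfl hb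
      (D.qc_le (show P.sb q s x b c ≤ s + 1 by omega) hc),
    Prc.EAp_inv' (P := P) (q := q) (e := P.ep s x b c) (σ := P.sb q s x b c) (s := s + 1) (x := x)
      (D.qb_le (show P.sb q s x b c ≤ s + 1 by omega) hb) (D.qc_le (show P.sb q s x b c ≤ s + 1 by omega) hc)]

theorem E3_swap (f : X → β → γ → ℝ) : E3 (fun (x : X) (c : γ) (b : β) => f x b c) = E3 f := by
  rw [Tw.E3_eq, Tw.E3_eq]
  congr 1
  · rw [Fintype.sum_prod_type, Fintype.sum_prod_type]
    refine sum_congr rfl fun x _ => ?_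
    rw [Fintype.sum_prod_type, Fintype.sum_prod_type]
    exact sum_comm
  · ring

theorem P_pv (P : Prc D) (σ : ℕ) : PV (P.U σ) := fun b c =>
  ⟨fun x => P.self_U σ x b c, fun x x' hx => (P.U_pub ⟨(P.U_node hx).symm, rfl, rfl⟩ hx).2⟩

/-- number of new epochs -/
def nnew (P : Prc D) (K : ℕ) : ℝ := ∑ s ∈ range K, E3 fun x b c => ind ((P.ep (s + 1) x b c).t0 = s + 1)

/-- FLUX WITH RARITY AT THE STARTS -/
theorem flux_fin (P : Prc D) {K : ℕ} {q : ℝ} {z : Bool} {big : Epo X → ℕ → X → β → γ → Prop} (hq : 0 < q)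
    (hq1 : q ≤ 1 / 4) {lam M rr : ℝ} (hlam : 0 ≤ lam) (hM0 : 0 ≤ M) (hrr : 0 ≤ rr)
    (hbig : ∀ (e : Epo X) s x b c c', D.qc e.t0 c = D.qc e.t0 c' → (big e s x b c ↔ big e s x b c'))
    (Ψ : ℕ → X → β → γ → ℝ) (h0 : ∀ σ x b c, 0 ≤ Ψ σ x b c) (hM : ∀ σ x b c, Ψ σ x b c ≤ M)
    (r1 : ∀ σ < K, ∀ x b c, avg (P.U σ x b c) (fun x' => ind (lam < avg (D.cC σ c) fun c' => Ψ σ x' b c')) ≤ rr)
    (r2 : ∀ σ < K, ∀ x b c, avg (P.U σ x b c) (fun x' => ind (lam < avg (D.cB σ b) fun b' => Ψ σ x' b' c)) ≤ rr) :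
    ∑ s ∈ range K, E3 (fun x b c => ind (P.ff q z big s x b c) * Ψ (P.sb q s x b c) x b c) ≤
      2 / q * lam * ∑ s ∈ range K, E3 (fun x b c => ind (P.ff q z big s x b c)) +
      2 * q * lam * ∑ s ∈ range K, E3 (fun x b c => ind (P.fl s x b c)) +
      M * (2 * rr * (1 + (1 + 24 / q) * nnew P K)) := by
  have key := Prc.flux (P := P) (K := K) (z := z) hq hq1 hlam hbig Ψ h0 hM
  have hst : ∑ σ ∈ range K, E3 (fun x b c => ind (P.sb q σ x b c = σ) *
        (ind (lam < avg (D.cC σ c) fun c' => Ψ σ x b c') + ind (lam < avg (D.cB σ b) fun b' => Ψ σ x b' c))) ≤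
      2 * rr * (1 + (1 + 24 / q) * nnew P K) := by
    calc ∑ σ ∈ range K, E3 (fun x b c => ind (P.sb q σ x b c = σ) *
        (ind (lam < avg (D.cC σ c) fun c' => Ψ σ x b c') + ind (lam < avg (D.cB σ b) fun b' => Ψ σ x b' c)))
        ≤ ∑ σ ∈ range K, 2 * rr * E3 (fun x b c => ind (P.sb q σ x b c = σ)) := by
          refine sum_le_sum fun σ hσ => ?_
          have hσ' := mem_range.1 hσ
          rw [← Tw.E3_smul, E3_mean (P_pv P σ) (fun x b c => ind (P.sb q σ x b c = σ) *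
            (ind (lam < avg (D.cC σ c) fun c' => Ψ σ x b c') + ind (lam < avg (D.cB σ b) fun b' => Ψ σ x b' c)))]
          refine Tw.E3_mono fun x b c => ?_
          have e1 : avg (P.U σ x b c) (fun x' => ind (P.sb q σ x' b c = σ) *
              (ind (lam < avg (D.cC σ c) fun c' => Ψ σ x' b c') + ind (lam < avg (D.cB σ b) fun b' => Ψ σ x' b' c))) =
              ind (P.sb q σ x b c = σ) * (avg (P.U σ x b c) (fun x' => ind (lam < avg (D.cC σ c) fun c' => Ψ σ x' b c')) +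
                avg (P.U σ x b c) (fun x' => ind (lam < avg (D.cB σ b) fun b' => Ψ σ x' b' c))) := by
            rw [← avg_add, ← avg_smul]
            refine Tw.avg_congr fun x' hx' => ?_
            rw [P.sb_pub (q := q) σ ⟨(P.U_node hx').symm, rfl, rfl⟩ hx']
          rw [e1]
          have a1 := r1 σ hσ' x b c
          have a2 := r2 σ hσ' x b c
          calc _ ≤ ind (P.sb q σ x b c = σ) * (rr + rr) :=
                mul_le_mul_of_nonneg_left (add_le_add a1 a2) (ind_nonneg _)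
            _ = _ := by ring
      _ = 2 * rr * ∑ σ ∈ range K, E3 (fun x b c => ind (P.sb q σ x b c = σ)) := by rw [mul_sum]
      _ ≤ 2 * rr * ∑ σ ∈ range (K + 1), E3 (fun x b c => ind (P.sb q σ x b c = σ)) := by
          refine mul_le_mul_of_nonneg_left ?_ (by positivity)
          refine sum_le_sum_of_subset_of_nonneg (range_mono (Nat.le_succ K)) fun σ _ _ => ?_
          exact E3_nonneg fun _ _ _ => ind_nonneg _
      _ ≤ _ := by
          refine mul_le_mul_of_nonneg_left ?_ (by positivity)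
          exact Prc.starts_le hq (by linarith)
  exact key.trans (add_le_add le_rfl (mul_le_mul_of_nonneg_left hst hM0))

end inv

/-! ## the two systems -/

section fin

variable {X β γ ι φ : Type*} [Fintype X] [Fintype β] [Fintype γ] [Fintype φ] {D : Dat X β γ ι φ} {al : ℝ}
  {R : Rl D} {Up : Upd D} {N : Nums} {K : ℕ} {J : ℝ}

theorem fl_iff {s : ℕ} {x : X} {b : β} {c : γ} : R.prc.fl s x b c ↔ fall R s x b c := by
  unfold Prc.fl fall
  show (¬ R.th (R.ep s x b c) (s + 1) x b c ∧ (x ∉ R.KF (R.ep s x b c) (s + 1) x b c ∨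
    x ∉ R.KG (R.ep s x b c) (s + 1) x b c)) ↔ _
  rw [R.mem_om, not_and_or]

theorem sum_fl : ∑ s ∈ range K, E3 (fun x b c => ind (R.prc.fl s x b c)) = nfall R K := by
  unfold nfall
  refine sum_congr rfl fun s _ => ?_
  congr 1
  funext x b c
  rw [propext fl_iff]

theorem new_iff {s : ℕ} {x : X} {b : β} {c : γ} :
    (R.ep (s + 1) x b c).t0 = s + 1 ↔ fall R s x b c ∨ tpr R s x b c := by
  rw [← nw_iff]
  constructor
  · intro h
    by_contra hn
    rw [R.ep_old hn] at h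
    have := R.t0_le s x b c
    omega
  · intro h
    rw [R.ep_new h]

theorem nnew_le : nnew R.prc K ≤ nfall R K + ntpr R K := by
  unfold nnew nfall ntpr
  rw [← sum_add_distrib]
  refine sum_le_sum fun s _ => ?_
  rw [← Tw.E3_add]
  refine Tw.E3_mono fun x b c => ?_
  show ind ((R.ep (s + 1) x b c).t0 = s + 1) ≤ _
  rw [propext new_iff]
  exact ind_or_le _ _

theorem nnew_nonneg (P : Prc D) (K : ℕ) : 0 ≤ nnew P K := sum_nonneg fun _ _ => E3_nonneg fun _ _ _ => ind_nonneg _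

theorem U_prc (s : ℕ) (x : X) (b : β) (c : γ) : R.prc.U s x b c = R.U s x b c := by
  ext y
  rw [Prc.mem_U]
  show y ∈ R.KF (R.ep s x b c) s x b c ∧ y ∈ R.KG (R.ep s x b c) s x b c ↔ y ∈ R.om (R.ep s x b c) s x b c
  rw [R.mem_om]

theorem Psg_nn (T : D.Thick al) (del : ℝ) (σ : ℕ) (x : X) (b : β) (c : γ) : 0 ≤ Psg T del R σ x b c :=
  Psi_nn _ _ _ _ _ _

theorem Psg_le (T : D.Thick al) (ha : al ≤ 1) {del : ℝ} (hdel : 0 ≤ del) (σ : ℕ) (x : X) (b : β) (c : γ) :
    Psg T del R σ x b c ≤ Real.log (1 / al) := by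
  unfold Psg
  exact Psi_le T ha hdel σ (R.self_U σ x b c) (R.U_sub σ x b c) b c

theorem blkf_inv {e : Epo X} {s : ℕ} (h : e.t0 ≤ s) {x : X} {b b' : β} {c c' : γ}
    (hb : D.qb (s + 1) b = D.qb (s + 1) b') (hc : D.qc (s + 1) c = D.qc (s + 1) c') :
    blkf R e s x b c = blkf R e s x b' c' := by
  have hS : D.Same (s + 1) x b c x b' c' := ⟨rfl, hb, hc⟩
  unfold blkf
  rw [KF'_inv (R := R.toRm) h hS, R.pf_c e (s + 1) x x b b' c c' _ (by omega) rfl hb (D.qc_le (by omega) hc)]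

theorem blkg_inv {e : Epo X} {s : ℕ} (h : e.t0 ≤ s) {x : X} {b b' : β} {c c' : γ}
    (hb : D.qb (s + 1) b = D.qb (s + 1) b') (hc : D.qc (s + 1) c = D.qc (s + 1) c') :
    blkg R e s x b c = blkg R e s x b' c' := by
  have hS : D.Same (s + 1) x b c x b' c' := ⟨rfl, hb, hc⟩
  unfold blkg
  rw [KG'_inv (R := R.toRm) h hS, R.pg_b e (s + 1) x x b b' c c' _ (by omega) rfl (D.qb_le (by omega) hb) hc]

theorem bigf_inv (l : ℝ) {e : Epo X} {s : ℕ} (h : e.t0 ≤ s) {x : X} {b b' : β} {c c' : γ}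
    (hb : D.qb (s + 1) b = D.qb (s + 1) b') (hc : D.qc (s + 1) c = D.qc (s + 1) c') :
    bigf R l e (s + 1) x b c ↔ bigf R l e (s + 1) x b' c' := by
  show (e.t0 ≤ s ∧ _) ↔ (e.t0 ≤ s ∧ _)
  rw [blkf_inv h hb hc, R.KF_inv (e := e) (s := s + 1) (by omega) rfl hb (D.qc_le (by omega) hc)]

theorem bigg_inv (l : ℝ) {e : Epo X} {s : ℕ} (h : e.t0 ≤ s) {x : X} {b b' : β} {c c' : γ}
    (hb : D.qb (s + 1) b = D.qb (s + 1) b') (hc : D.qc (s + 1) c = D.qc (s + 1) c') :
    bigg R l e (s + 1) x b c ↔ bigg R l e (s + 1) x b' c' := by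
  show (e.t0 ≤ s ∧ _) ↔ (e.t0 ≤ s ∧ _)
  rw [blkg_inv h hb hc, R.KG_inv (e := e) (s := s + 1) (by omega) rfl (D.qb_le (by omega) hb) hc]

/-- THE BIG FALLS OF THE f-SYSTEM -/
theorem al_f [Nonempty X] [Nonempty β] [Nonempty γ] (T : D.Thick al) (hT : Tst R Up N) (hU : UpdOk D Up K J) (ha : al ≤ 1) {del θ q l lam rr : ℝ}
    (hdel : 0 ≤ del) (hθ : 0 < θ) (hθ1 : θ ≤ 1) (hq : 0 < q) (hq1 : q ≤ 1 / 4) (hlam : 0 ≤ lam) (hrr : 0 ≤ rr)
    (r1 : ∀ σ < K, ∀ x b c,
      avg (R.U σ x b c) (fun x' => ind (lam < avg (D.cC σ c) fun c' => Psg T del R σ x' b c')) ≤ rr)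
    (r2 : ∀ σ < K, ∀ x b c,
      avg (R.U σ x b c) (fun x' => ind (lam < avg (D.cB σ b) fun b' => Psg T del R σ x' b' c)) ≤ rr) :
    ∑ s ∈ range K, E3 (fun x b c => ind (ffF R q l s x b c) * Pst T del R s x b c) ≤
      (2 / q * lam + (6 * θ / al ^ 2 + Real.log (1 / al) / θ ^ 2 * N.kap)) *
        ∑ s ∈ range K, E3 (fun x b c => ind (ffF R q l s x b c)) +
      2 * q * lam * nfall R K +
      Real.log (1 / al) * (2 * rr * (1 + (1 + 24 / q) * (nfall R K + ntpr R K))) := by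
  have hM : 0 ≤ Real.log (1 / al) := Real.log_nonneg (by rw [le_div_iff₀ T.pos]; linarith [T.pos])
  have s1 : ∀ s ∈ range K, E3 (fun x b c => ind (ffF R q l s x b c) * Pst T del R s x b c) ≤
      E3 (fun x b c => ind (ffF R q l s x b c) * Psg T del R (R.prc.sb q s x b c) x b c) +
      (6 * θ / al ^ 2 + Real.log (1 / al) / θ ^ 2 * N.kap) * E3 (fun x b c => ind (ffF R q l s x b c)) :=
    fun s _ => al_cmp T hT hU ha hdel hθ hθ1 s (ffF R q l s) (fun x b c h => h.1)
      (fun x b c b' c' hb hc => ff_inv (P := R.prc) hb hc (bigf_inv l (R.t0_le s x b c) hb hc))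
      (fun x b c => R.prc.sb q s x b c) (fun x b c => Prc.t0_le_sb (P := R.prc) s x b c)
      (fun x b c => Prc.sb_le (P := R.prc) s x b c)
      (fun x b c b' c' hb hc => Prc.sb_pub (P := R.prc) s ⟨rfl, hb, hc⟩ (R.prc.self_U s x b c))
  have s2 := flux_fin R.prc (K := K) (q := q) (z := false) (big := bigf R l) hq hq1 (lam := lam)
    (M := Real.log (1 / al)) (rr := rr) hlam hM hrr (fun e s x b c c' h => bigf_c R l e s x b c c' h)
    (Psg T del R) (Psg_nn T del) (Psg_le T ha hdel)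
    (fun σ hσ x b c => by rw [U_prc]; exact r1 σ hσ x b c) (fun σ hσ x b c => by rw [U_prc]; exact r2 σ hσ x b c)
  rw [sum_fl] at s2
  have s3 := sum_le_sum s1
  rw [sum_add_distrib, ← mul_sum] at s3
  have h24 : 0 ≤ 1 + 24 / q := by positivity
  have s4 : Real.log (1 / al) * (2 * rr * (1 + (1 + 24 / q) * nnew R.prc K)) ≤
      Real.log (1 / al) * (2 * rr * (1 + (1 + 24 / q) * (nfall R K + ntpr R K))) := by
    refine mul_le_mul_of_nonneg_left ?_ hM
    refine mul_le_mul_of_nonneg_left ?_ (by positivity)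
    linarith [mul_le_mul_of_nonneg_left (nnew_le (R := R) (K := K)) h24]
  have s5 : ∑ s ∈ range K, E3 (fun x b c => ind (R.prc.ff q false (bigf R l) s x b c)) =
      ∑ s ∈ range K, E3 (fun x b c => ind (ffF R q l s x b c)) := rfl
  have s6 : ∑ s ∈ range K, E3 (fun x b c => ind (R.prc.ff q false (bigf R l) s x b c) *
      Psg T del R (R.prc.sb q s x b c) x b c) =
      ∑ s ∈ range K, E3 (fun x b c => ind (ffF R q l s x b c) * Psg T del R (R.prc.sb q s x b c) x b c) := rfl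
  rw [s5, s6] at s2
  generalize ∑ s ∈ range K, E3 (fun x b c => ind (ffF R q l s x b c)) = A at *
  rw [add_mul]
  linarith

/-- THE BIG FALLS OF THE g-SYSTEM -/
theorem al_g [Nonempty X] [Nonempty β] [Nonempty γ] (T : D.Thick al) (hT : Tst R Up N) (hU : UpdOk D Up K J) (ha : al ≤ 1) {del θ q l lam rr : ℝ}
    (hdel : 0 ≤ del) (hθ : 0 < θ) (hθ1 : θ ≤ 1) (hq : 0 < q) (hq1 : q ≤ 1 / 4) (hlam : 0 ≤ lam) (hrr : 0 ≤ rr)
    (r1 : ∀ σ < K, ∀ x b c,
      avg (R.U σ x b c) (fun x' => ind (lam < avg (D.cC σ c) fun c' => Psg T del R σ x' b c')) ≤ rr)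
    (r2 : ∀ σ < K, ∀ x b c,
      avg (R.U σ x b c) (fun x' => ind (lam < avg (D.cB σ b) fun b' => Psg T del R σ x' b' c)) ≤ rr) :
    ∑ s ∈ range K, E3 (fun x b c => ind (ffG R q l s x b c) * Pst T del R s x b c) ≤
      (2 / q * lam + (6 * θ / al ^ 2 + Real.log (1 / al) / θ ^ 2 * N.kap)) *
        ∑ s ∈ range K, E3 (fun x b c => ind (ffG R q l s x b c)) +
      2 * q * lam * nfall R K +
      Real.log (1 / al) * (2 * rr * (1 + (1 + 24 / q) * (nfall R K + ntpr R K))) := by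
  have hM : 0 ≤ Real.log (1 / al) := Real.log_nonneg (by rw [le_div_iff₀ T.pos]; linarith [T.pos])
  set Q : Prc D.swap := R.prc.swap with hQ
  have s1 : ∀ s ∈ range K, E3 (fun x b c => ind (ffG R q l s x b c) * Pst T del R s x b c) ≤
      E3 (fun x b c => ind (ffG R q l s x b c) * Psg T del R (Q.sb q s x c b) x b c) +
      (6 * θ / al ^ 2 + Real.log (1 / al) / θ ^ 2 * N.kap) * E3 (fun x b c => ind (ffG R q l s x b c)) :=
    fun s _ => al_cmp T hT hU ha hdel hθ hθ1 s (ffG R q l s) (fun x b c h => h.1)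
      (fun x b c b' c' hb hc => ff_inv (P := Q) (b := c) (b' := c') (c := b) (c' := b') hc hb
        (bigg_inv l (R.t0_le s x b c) hb hc))
      (fun x b c => Q.sb q s x c b) (fun x b c => Prc.t0_le_sb (P := Q) s x c b)
      (fun x b c => Prc.sb_le (P := Q) s x c b)
      (fun x b c b' c' hb hc => Prc.sb_pub (P := Q) s ⟨rfl, hc, hb⟩ (Q.self_U s x c b))
  have s2 := flux_fin Q (K := K) (q := q) (z := true) (big := fun e s x c b => bigg R l e s x b c) hq hq1
    (lam := lam) (M := Real.log (1 / al)) (rr := rr) hlam hM hrr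
    (fun e s x c b b' h => bigg_b R l e s x b b' c h)
    (fun σ x c b => Psg T del R σ x b c) (fun σ x c b => Psg_nn T del σ x b c)
    (fun σ x c b => Psg_le T ha hdel σ x b c)
    (fun σ hσ x c b => by
      have hUQ : Q.U σ x c b = R.U σ x b c := by
        ext y
        rw [Prc.mem_U]
        show y ∈ R.KG (R.ep σ x b c) σ x b c ∧ y ∈ R.KF (R.ep σ x b c) σ x b c ↔ y ∈ R.om (R.ep σ x b c) σ x b c
        rw [R.mem_om, and_comm]
      rw [hUQ]
      exact r2 σ hσ x b c)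
    (fun σ hσ x c b => by
      have hUQ : Q.U σ x c b = R.U σ x b c := by
        ext y
        rw [Prc.mem_U]
        show y ∈ R.KG (R.ep σ x b c) σ x b c ∧ y ∈ R.KF (R.ep σ x b c) σ x b c ↔ y ∈ R.om (R.ep σ x b c) σ x b c
        rw [R.mem_om, and_comm]
      rw [hUQ]
      exact r1 σ hσ x b c)
  -- order of the variables
  have t1 : ∑ s ∈ range K, E3 (fun x c b => ind (Q.fl s x c b)) = nfall R K := by
    rw [← sum_fl]
    refine sum_congr rfl fun s _ => ?_
    rw [← E3_swap (fun x b c => ind (R.prc.fl s x b c))]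
    congr 1
    funext x c b
    refine congrArg ind (propext ?_)
    unfold Prc.fl
    exact and_congr Iff.rfl or_comm
  have t2 : nnew Q K = nnew R.prc K := by
    unfold nnew
    refine sum_congr rfl fun s _ => ?_
    exact E3_swap (fun x b c => ind ((R.prc.ep (s + 1) x b c).t0 = s + 1))
  have t3 : ∑ s ∈ range K, E3 (fun x c b => ind (Q.ff q true (fun e s x c b => bigg R l e s x b c) s x c b)) =
      ∑ s ∈ range K, E3 (fun x b c => ind (ffG R q l s x b c)) :=
    sum_congr rfl fun s _ => E3_swap (fun x b c => ind (ffG R q l s x b c))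
  have t4 : ∑ s ∈ range K, E3 (fun x c b => ind (Q.ff q true (fun e s x c b => bigg R l e s x b c) s x c b) *
      Psg T del R (Q.sb q s x c b) x b c) =
      ∑ s ∈ range K, E3 (fun x b c => ind (ffG R q l s x b c) * Psg T del R (Q.sb q s x c b) x b c) :=
    sum_congr rfl fun s _ => E3_swap (fun x b c => ind (ffG R q l s x b c) * Psg T del R (Q.sb q s x c b) x b c)
  rw [t1, t2, t3] at s2
  have s2' := t4 ▸ s2
  have s3 := sum_le_sum s1
  rw [sum_add_distrib, ← mul_sum] at s3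
  have h24 : 0 ≤ 1 + 24 / q := by positivity
  have s4 : Real.log (1 / al) * (2 * rr * (1 + (1 + 24 / q) * nnew R.prc K)) ≤
      Real.log (1 / al) * (2 * rr * (1 + (1 + 24 / q) * (nfall R K + ntpr R K))) := by
    refine mul_le_mul_of_nonneg_left ?_ hM
    refine mul_le_mul_of_nonneg_left ?_ (by positivity)
    linarith [mul_le_mul_of_nonneg_left (nnew_le (R := R) (K := K)) h24]
  generalize ∑ s ∈ range K, E3 (fun x b c => ind (ffG R q l s x b c)) = A at *
  rw [add_mul]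
  linarith

end fin

end AL

end

end Pool.Agent.M3.S3
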