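import Pool.Agent.M3.S3.Law

/-!
# M3.S3.CntOut: epochs which end at nodes where a proportion of the start class has fallen (helper15)

* `E3_zero`, `E3_le_of_fibre` (comparison for fixed `b`, `c`);
* `al e s` = no test at the times `t0 < r ≤ s`; `ep_start`, `ep_iff` : `ep s ω = e ↔ x ∈ om e s ∧ al e s` for `e = ep τ ω`
  started at `τ`;
* `sym_count` : counting in a partition;
* `cnt_out` : if at every node of the event `hit` (a test) at least the proportion `eps` of `om0 ∩ A_(s+1)` has left the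
  class by falls, then `eps * ∑_(s<K) E 1[hit] ≤ nfall R K`;
* `cnt_H1`, `cnt_S1` : the tests (h1) and (s1).
-/

set_option autoImplicit false
set_option linter.unusedSectionVars false

namespace Pool.Agent.M3.S3

open Finset Pool.Agent.PWZ Pool.Agent.M3

noncomputable section

variable {X β γ ι φ : Type*} [Fintype X] [Fintype β] [Fintype γ] [Fintype φ] {D : Dat X β γ ι φ}

/-! ## means -/

/-- comparison for fixed `b`, `c` -/
theorem E3_le_of_fibre {f g : X → β → γ → ℝ} (h : ∀ b c, ∑ x, f x b c ≤ ∑ x, g x b c) : E3 f ≤ E3 g := by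
  rw [E3_eq, E3_eq]
  have h1 : ∑ b, ∑ c, ∑ x, f x b c ≤ ∑ b, ∑ c, ∑ x, g x b c :=
    Finset.sum_le_sum fun b _ => Finset.sum_le_sum fun c _ => h b c
  gcongr

theorem E3_zero : E3 (fun (_ : X) (_ : β) (_ : γ) => (0 : ℝ)) = 0 := by
  rw [E3_eq]; simp

theorem E3_sum {T : Type*} (I : Finset T) (f : T → X → β → γ → ℝ) :
    E3 (fun x b c => ∑ t ∈ I, f t x b c) = ∑ t ∈ I, E3 (f t) := E3_finsum I f

/-! ## counting in a partition -/

/-- `Rl x` = block of `x`; if at every point of `P` at least the proportion `eps` of the block is in `Q`, then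
`eps * #P ≤ #Q` -/
theorem sym_count {Rl : X → Finset X} (self : ∀ x, x ∈ Rl x) (eq : ∀ x y, y ∈ Rl x → Rl y = Rl x)
    {P Q : X → Prop} {eps : ℝ}
    (h : ∀ x, P x → eps * (Rl x).card ≤ ∑ y ∈ Rl x, ind (Q y)) :
    eps * ∑ x, ind (P x) ≤ ∑ x, ind (Q x) := by
  classical
  have h1 : ∀ x, eps * ind (P x) ≤ ∑ y ∈ Rl x, ind (Q y) / (Rl y).card := by
    intro x
    have hc : (0 : ℝ) < (Rl x).card := by exact_mod_cast card_pos.2 ⟨x, self x⟩
    have e1 : ∑ y ∈ Rl x, ind (Q y) / (Rl y).card = (∑ y ∈ Rl x, ind (Q y)) / (Rl x).card := by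
      rw [Finset.sum_div]
      exact Finset.sum_congr rfl fun y hy => by rw [eq x y hy]
    rw [e1]
    by_cases hp : P x
    · rw [ind_of hp, mul_one, le_div_iff₀ hc]
      exact h x hp
    · rw [ind_not hp, mul_zero]
      exact div_nonneg (Finset.sum_nonneg fun y _ => ind_nonneg _) hc.le
  have h2 : ∑ x, ∑ y ∈ Rl x, ind (Q y) / (Rl y).card = ∑ y, ind (Q y) := by
    have e2 : ∀ x, ∑ y ∈ Rl x, ind (Q y) / (Rl y).card =
        ∑ y, if y ∈ Rl x then ind (Q y) / (Rl y).card else 0 := by
      intro x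
      rw [Finset.sum_ite_mem, Finset.univ_inter]
    rw [Finset.sum_congr rfl fun x _ => e2 x, Finset.sum_comm]
    refine Finset.sum_congr rfl fun y _ => ?_
    have hc : (0 : ℝ) < (Rl y).card := by exact_mod_cast card_pos.2 ⟨y, self y⟩
    have e3 : ∀ x, (if y ∈ Rl x then ind (Q y) / (Rl y).card else 0 : ℝ) =
        if x ∈ Rl y then ind (Q y) / (Rl y).card else 0 := by
      intro x
      have : y ∈ Rl x ↔ x ∈ Rl y := by
        constructor
        · intro hy; rw [eq x y hy]; exact self x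
        · intro hx; rw [eq y x hx]; exact self y
      simp only [this]
    rw [Finset.sum_congr rfl fun x _ => e3 x, Finset.sum_ite_mem, Finset.univ_inter, Finset.sum_const,
      nsmul_eq_mul]
    field_simp
  rw [Finset.mul_sum]
  exact (Finset.sum_le_sum fun x _ => h1 x).trans (le_of_eq h2)

/-! ## the epochs -/

section epoch

variable (R : Rl D)

/-- no test at the times `t0 < r ≤ s` -/
def al (e : Epo X) (s : ℕ) (x : X) (b : β) (c : γ) : Prop :=
  ∀ r, e.t0 < r → r ≤ s → ¬ R.th e r x b c ∧ ¬ R.ts e r x b c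

theorem al_inv {e : Epo X} {s : ℕ} {x x' : X} {b b' : β} {c c' : γ} (hS : D.Same s x b c x' b' c') :
    al R e s x b c ↔ al R e s x' b' c' := by
  unfold al
  constructor
  · intro h r h1 h2
    rw [← R.th_q e r x b c x' b' c' h1.le (hS.le h2), ← R.ts_q e r x b c x' b' c' h1.le (hS.le h2)]
    exact h r h1 h2
  · intro h r h1 h2
    rw [R.th_q e r x b c x' b' c' h1.le (hS.le h2), R.ts_q e r x b c x' b' c' h1.le (hS.le h2)]
    exact h r h1 h2

theorem ep_start (s : ℕ) (x : X) (b : β) (c : γ) : R.ep (R.ep s x b c).t0 x b c = R.ep s x b c := by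
  induction s with
  | zero =>
    have := R.t0_le 0 x b c
    have h0 : (R.ep 0 x b c).t0 = 0 := by omega
    rw [h0]
  | succ s ih =>
    by_cases hn : R.nw (R.ep s x b c) s x b c
    · have h1 : (R.ep (s + 1) x b c).t0 = s + 1 := by rw [R.ep_new hn]
      rw [h1]
    · rw [R.ep_old hn]; exact ih

/-- the epoch started at `τ` is the epoch of the point at the time `s` if and only if the point is in its class and
there was no test -/
theorem ep_iff {τ s : ℕ} (h : τ ≤ s) {x : X} {b : β} {c : γ} (h0 : (R.ep τ x b c).t0 = τ) :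
    R.ep s x b c = R.ep τ x b c ↔ x ∈ R.om (R.ep τ x b c) s x b c ∧ al R (R.ep τ x b c) s x b c := by
  induction s, h using Nat.le_induction with
  | base =>
    refine ⟨fun _ => ⟨R.self_U τ x b c, fun r h1 h2 => ?_⟩, fun _ => rfl⟩
    omega
  | succ s hs ih =>
    constructor
    · intro he
      have hn : ¬ R.nw (R.ep s x b c) s x b c := by
        intro hn
        have h1 : (R.ep (s + 1) x b c).t0 = s + 1 := by rw [R.ep_new hn]
        rw [he, h0] at h1
        omega
      have he' := R.ep_old hn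
      have e1 : R.ep s x b c = R.ep τ x b c := by rw [← he', he]
      obtain ⟨h1, h2⟩ := ih.1 e1
      rw [e1] at hn
      unfold Rl.nw at hn
      push Not at hn
      refine ⟨hn.2.1, fun r h3 h4 => ?_⟩
      rcases Nat.lt_or_ge r (s + 1) with h5 | h5
      · exact h2 r h3 (by omega)
      · have : r = s + 1 := by omega
        rw [this]
        exact ⟨hn.1, hn.2.2⟩
    · rintro ⟨h1, h2⟩
      have e1 : R.ep s x b c = R.ep τ x b c :=
        ih.2 ⟨R.om_sub (Nat.le_succ s) x b c h1, fun r h3 h4 => h2 r h3 (by omega)⟩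
      have hn : ¬ R.nw (R.ep s x b c) s x b c := by
        rw [e1]
        unfold Rl.nw
        push Not
        obtain ⟨h3, h4⟩ := h2 (s + 1) (by omega) le_rfl
        exact ⟨h3, h1, h4⟩
      rw [R.ep_old hn, e1]

/-- the point has left the class of `e` by a fall at a time `≤ s`, or falls at the time `s+1` -/
def gone (e : Epo X) (s : ℕ) (x : X) (b : β) (c : γ) : Prop :=
  x ∉ R.om e s x b c ∨ (¬ R.th e (s + 1) x b c ∧ x ∉ R.om e (s + 1) x b c)

/-- a point which is gone has fallen in this epoch -/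
theorem fall_of_gone {τ s : ℕ} (h : τ ≤ s) {x : X} {b : β} {c : γ} (h0 : (R.ep τ x b c).t0 = τ)
    (ha : al R (R.ep τ x b c) s x b c) (hg : gone R (R.ep τ x b c) s x b c) :
    ∃ r, τ ≤ r ∧ r ≤ s ∧ R.ep r x b c = R.ep τ x b c ∧ fall R r x b c := by
  rcases hg with hg | ⟨h1, h2⟩
  · induction s, h using Nat.le_induction with
    | base => exact absurd (R.self_U τ x b c) hg
    | succ s hs ih =>
      have ha' : al R (R.ep τ x b c) s x b c := fun r h3 h4 => ha r h3 (by omega)
      by_cases h3 : x ∈ R.om (R.ep τ x b c) s x b c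
      · have e1 : R.ep s x b c = R.ep τ x b c := (ep_iff R hs h0).2 ⟨h3, ha'⟩
        refine ⟨s, hs, by omega, e1, ?_⟩
        unfold fall
        rw [e1]
        exact ⟨(ha (s + 1) (by omega) le_rfl).1, hg⟩
      · obtain ⟨r, k1, k2, k3, k4⟩ := ih ha' h3
        exact ⟨r, k1, by omega, k3, k4⟩
  · by_cases h3 : x ∈ R.om (R.ep τ x b c) s x b c
    · have e1 : R.ep s x b c = R.ep τ x b c := (ep_iff R h h0).2 ⟨h3, ha⟩
      refine ⟨s, h, le_rfl, e1, ?_⟩
      unfold fall
      rw [e1]
      exact ⟨h1, h2⟩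
    · clear h1 h2
      induction s, h using Nat.le_induction with
      | base => exact absurd (R.self_U τ x b c) h3
      | succ s hs ih =>
        have ha' : al R (R.ep τ x b c) s x b c := fun r h3 h4 => ha r h3 (by omega)
        by_cases h4 : x ∈ R.om (R.ep τ x b c) s x b c
        · have e1 : R.ep s x b c = R.ep τ x b c := (ep_iff R hs h0).2 ⟨h4, ha'⟩
          refine ⟨s, hs, by omega, e1, ?_⟩
          unfold fall
          rw [e1]
          exact ⟨(ha (s + 1) (by omega) le_rfl).1, h3⟩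
        · obtain ⟨r, k1, k2, k3, k4⟩ := ih ha' h4
          exact ⟨r, k1, by omega, k3, k4⟩

/-- THE COUNT.  `hit e s` = an event of the node of the time `s+1` which is a test, at which at least the proportion `eps`
of the start class in the cell is gone -/
theorem cnt_out {eps : ℝ} (hit : Epo X → ℕ → X → β → γ → Prop)
    (hq : ∀ (e : Epo X) s x b c x' b' c', e.t0 ≤ s → D.Same (s + 1) x b c x' b' c' →
      (hit e s x b c ↔ hit e s x' b' c'))
    (ht : ∀ (e : Epo X) s x b c, e.t0 ≤ s → hit e s x b c → R.th e (s + 1) x b c ∨ R.ts e (s + 1) x b c)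
    (hp : ∀ (e : Epo X) s x b c, e.t0 ≤ s → x ∈ e.om0 → hit e s x b c →
      eps * (rs D e (s + 1) x).card ≤ ∑ y ∈ rs D e (s + 1) x, ind (gone R e s y b c)) (K : ℕ) :
    eps * ∑ s ∈ range K, E3 (fun x b c => ind (hit (R.ep s x b c) s x b c)) ≤ nfall R K := by
  classical
  -- the events of the epoch started at `τ`
  set A : ℕ → ℕ → X → β → γ → Prop := fun τ s x b c =>
    (R.ep τ x b c).t0 = τ ∧ al R (R.ep τ x b c) s x b c ∧ hit (R.ep τ x b c) s x b c with hA
  set O : ℕ → ℕ → X → β → γ → Prop := fun τ s x b c => A τ s x b c ∧ gone R (R.ep τ x b c) s x b c with hO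
  have step1 : ∀ s x b c, ind (hit (R.ep s x b c) s x b c) ≤ ∑ τ ∈ range (s + 1), ind (A τ s x b c) := by
    intro s x b c
    by_cases h : hit (R.ep s x b c) s x b c
    · rw [ind_of h]
      have h0 := R.t0_le s x b c
      have e1 := ep_start R s x b c
      have h1 : A (R.ep s x b c).t0 s x b c := by
        have h2 := (ep_iff R h0 (x := x) (b := b) (c := c) (by rw [e1])).1 e1.symm
        rw [e1] at h2
        show (R.ep (R.ep s x b c).t0 x b c).t0 = (R.ep s x b c).t0 ∧ _ ∧ _
        rw [e1]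
        exact ⟨rfl, h2.2, h⟩
      have h3 := Finset.single_le_sum (f := fun τ => ind (A τ s x b c)) (fun τ _ => ind_nonneg _)
        (mem_range.2 (Nat.lt_succ_of_le h0))
      beta_reduce at h3
      rw [ind_of h1] at h3
      exact h3
    · rw [ind_not h]
      exact Finset.sum_nonneg fun τ _ => ind_nonneg _
  -- comparison in the cells
  have step2 : ∀ τ s b c, τ ≤ s → eps * ∑ x, ind (A τ s x b c) ≤ ∑ x, ind (O τ s x b c) := by
    intro τ s b c hs
    set Bl : X → Finset X := fun x => R.U τ x b c ∩ D.cA (s + 1) x with hBl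
    have self : ∀ x, x ∈ Bl x := fun x => mem_inter.2 ⟨R.self_U τ x b c, D.self_cA _ _⟩
    have hsame : ∀ x y, y ∈ Bl x → D.Same (s + 1) x b c y b c := fun x y hy =>
      ⟨(D.mem_cA.1 (mem_inter.1 hy).2).symm, rfl, rfl⟩
    have eq : ∀ x y, y ∈ Bl x → Bl y = Bl x := by
      intro x y hy
      show R.U τ y b c ∩ D.cA (s + 1) y = R.U τ x b c ∩ D.cA (s + 1) x
      rw [(R.pub τ ((hsame x y hy).le (by omega)) (mem_inter.1 hy).1).2, D.cA_congr (hsame x y hy).1]
    refine sym_count self eq fun x hx => ?_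
    obtain ⟨h0, h1, h2⟩ := hx
    have hU : R.U τ x b c = (R.ep τ x b c).om0 := by
      unfold Rl.U
      exact R.om_old (by rw [h0]) x b c
    have hR : Bl x = rs D (R.ep τ x b c) (s + 1) x := by
      show R.U τ x b c ∩ D.cA (s + 1) x = _
      rw [hU]
      rfl
    have hx0 : x ∈ (R.ep τ x b c).om0 := by rw [← hU]; exact R.self_U τ x b c
    have h3 := hp (R.ep τ x b c) s x b c (by rw [h0]; exact hs) hx0 h2
    rw [hR]
    refine h3.trans (Finset.sum_le_sum fun y hy => ?_)
    rw [← hR] at hy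
    have hy1 := hsame x y hy
    have he : R.ep τ y b c = R.ep τ x b c := (R.pub τ (hy1.le (by omega)) (mem_inter.1 hy).1).1
    have hy2 : A τ s y b c := by
      show (R.ep τ y b c).t0 = τ ∧ al R (R.ep τ y b c) s y b c ∧ hit (R.ep τ y b c) s y b c
      rw [he]
      exact ⟨h0, (al_inv R (hy1.le (Nat.le_succ s))).1 h1, (hq _ s x b c y b c (by rw [h0]; exact hs) hy1).1 h2⟩
    refine ind_mono fun hg => ⟨hy2, ?_⟩
    rw [he]
    exact hg
  -- every point is counted once in an epoch
  have step3 : ∀ x b c, ∑ s ∈ range K, ∑ τ ∈ range (s + 1), ind (O τ s x b c) ≤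
      ∑ s ∈ range K, ind (fall R s x b c) := by
    intro x b c
    -- exchange the sums
    have e1 : ∑ s ∈ range K, ∑ τ ∈ range (s + 1), ind (O τ s x b c) =
        ∑ τ ∈ range K, ∑ s ∈ (range K).filter (fun s => τ ≤ s), ind (O τ s x b c) := by
      refine Finset.sum_comm' fun s τ => ?_
      simp only [mem_range, mem_filter]
      omega
    have e2 : ∑ s ∈ range K, ind (fall R s x b c) =
        ∑ τ ∈ range K, ∑ s ∈ (range K).filter (fun s => (R.ep s x b c).t0 = τ), ind (fall R s x b c) := by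
      rw [Finset.sum_fiberwise_of_maps_to]
      intro s hs
      exact mem_range.2 ((R.t0_le s x b c).trans_lt (mem_range.1 hs))
    rw [e1, e2]
    refine Finset.sum_le_sum fun τ hτ => ?_
    by_cases hex : ∃ s ∈ (range K).filter (fun s => τ ≤ s), O τ s x b c
    · obtain ⟨s, hs, hOs⟩ := hex
      have hs' := mem_filter.1 hs
      have huniq : ∀ s' ∈ (range K).filter (fun s => τ ≤ s), s' ≠ s → ind (O τ s' x b c) = 0 := by
        intro s' hs1 hne
        refine ind_not fun hO' => ?_
        have hs2 := mem_filter.1 hs1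
        rcases lt_or_gt_of_ne hne with hlt | hlt
        · -- s' < s : a test at `s'+1 ≤ s`
          have h1 := ht _ s' x b c (by rw [hO'.1.1]; exact hs2.2) hO'.1.2.2
          have h2 := hOs.1.2.1 (s' + 1) (by rw [hOs.1.1]; omega) (by omega)
          rcases h1 with h1 | h1
          · exact h2.1 h1
          · exact h2.2 h1
        · have h1 := ht _ s x b c (by rw [hOs.1.1]; exact hs'.2) hOs.1.2.2
          have h2 := hO'.1.2.1 (s + 1) (by rw [hOs.1.1]; omega) (by omega)
          rcases h1 with h1 | h1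
          · exact h2.1 h1
          · exact h2.2 h1
      rw [Finset.sum_eq_single_of_mem s hs huniq, ind_of hOs]
      obtain ⟨r, k1, k2, k3, k4⟩ := fall_of_gone R hs'.2 hOs.1.1 hOs.1.2.1 hOs.2
      have hr : r ∈ (range K).filter (fun s => (R.ep s x b c).t0 = τ) := by
        refine mem_filter.2 ⟨mem_range.2 (k2.trans_lt (mem_range.1 hs'.1)), ?_⟩
        rw [k3]; exact hOs.1.1
      have h3 := Finset.single_le_sum (f := fun s => ind (fall R s x b c)) (fun s _ => ind_nonneg _) hr
      beta_reduce at h3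
      rw [ind_of k4] at h3
      exact h3
    · push Not at hex
      rw [Finset.sum_eq_zero fun s hs => ind_not (hex s hs)]
      exact Finset.sum_nonneg fun s _ => ind_nonneg _
  -- conclusion
  rcases le_or_gt eps 0 with he | he
  · have h1 : 0 ≤ ∑ s ∈ range K, E3 (fun x b c => ind (hit (R.ep s x b c) s x b c)) :=
      Finset.sum_nonneg fun s _ => E3_nonneg fun x b c => ind_nonneg _
    have h2 : 0 ≤ nfall R K := Finset.sum_nonneg fun s _ => E3_nonneg fun x b c => ind_nonneg _
    nlinarith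
  · unfold nfall
    rw [← E3_sum, ← E3_sum, ← E3_smul]
    refine (E3_le_of_fibre (g := fun x b c => ∑ s ∈ range K, ∑ τ ∈ range (s + 1), ind (O τ s x b c))
      fun b c => ?_).trans (E3_mono step3)
    have e1 : ∑ x, eps * ∑ s ∈ range K, ind (hit (R.ep s x b c) s x b c) ≤
        ∑ x, ∑ s ∈ range K, ∑ τ ∈ range (s + 1), eps * ind (A τ s x b c) := by
      refine Finset.sum_le_sum fun x _ => ?_
      rw [Finset.mul_sum]
      refine Finset.sum_le_sum fun s _ => ?_
      rw [← Finset.mul_sum]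
      exact mul_le_mul_of_nonneg_left (step1 s x b c) he.le
    refine e1.trans ?_
    rw [Finset.sum_comm, Finset.sum_comm (s := univ)]
    refine Finset.sum_le_sum fun s _ => ?_
    rw [Finset.sum_comm, Finset.sum_comm (s := univ)]
    refine Finset.sum_le_sum fun τ hτ => ?_
    rw [← Finset.mul_sum]
    exact step2 τ s b c (Nat.lt_succ_iff.1 (mem_range.1 hτ))

/-- a set `K'` which misses the proportion `eps` of `T` -/
theorem miss_count {T K' : Finset X} (hK : K' ⊆ T) {eps : ℝ} (h : (K'.card : ℝ) < (1 - eps) * T.card)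
    {g : X → Prop} (hg : ∀ y ∈ T, y ∉ K' → g y) : eps * T.card ≤ ∑ y ∈ T, ind (g y) := by
  classical
  have h1 : ∑ y ∈ T \ K', (1 : ℝ) ≤ ∑ y ∈ T, ind (g y) := by
    refine (Finset.sum_le_sum fun y hy => ?_).trans
      (Finset.sum_le_sum_of_subset_of_nonneg (Finset.sdiff_subset (s := T) (t := K'))
        (f := fun y => ind (g y)) fun y _ _ => ind_nonneg _)
    rw [ind_of (hg y (mem_sdiff.1 hy).1 (mem_sdiff.1 hy).2)]
  rw [Finset.sum_const, nsmul_eq_mul, mul_one, Finset.card_sdiff_of_subset hK,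
    Nat.cast_sub (Finset.card_le_card hK)] at h1
  linarith

variable {Up : Upd D} {N : Nums}

/-- **the test (h1)** -/
theorem cnt_H1 (T : Tst R Up N) (K : ℕ) :
    4 * N.eps3 * ∑ s ∈ range K, E3 (fun x b c => ind (H1 R.toRm N (R.ep s x b c) s x b c)) ≤ nfall R K := by
  classical
  refine cnt_out R (fun e s x b c => H1 R.toRm N e s x b c) (fun e s x b c x' b' c' h hS => H1_q h hS)
    (fun e s x b c h hh => Or.inl ((T.th e s x b c h).2 (Or.inl hh))) (fun e s x b c h _ hh => ?_) K
  rcases hh with hh | hh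
  · refine miss_count (K' := KF' R.toRm e s x b c) ?_ hh fun y hy hyK => ?_
    · intro y hy
      have hy' := mem_inter.1 hy
      refine mem_inter.2 ⟨?_, hy'.2⟩
      have := R.KF_sub h x b c hy'.1
      rwa [R.KF_old le_rfl] at this
    · left
      intro hyo
      refine hyK (mem_inter.2 ⟨?_, (mem_inter.1 hy).2⟩)
      have hq := D.qa_le (Nat.le_succ s) (D.mem_cA.1 (mem_inter.1 hy).2)
      rw [R.KF_inv h hq.symm rfl rfl]
      exact ((R.mem_om e).1 hyo).1
  · refine miss_count (K' := KG' R.toRm e s x b c) ?_ hh fun y hy hyK => ?_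
    · intro y hy
      have hy' := mem_inter.1 hy
      refine mem_inter.2 ⟨?_, hy'.2⟩
      have := R.KG_sub h x b c hy'.1
      rwa [R.KG_old le_rfl] at this
    · left
      intro hyo
      refine hyK (mem_inter.2 ⟨?_, (mem_inter.1 hy).2⟩)
      have hq := D.qa_le (Nat.le_succ s) (D.mem_cA.1 (mem_inter.1 hy).2)
      rw [R.KG_inv h hq.symm rfl rfl]
      exact ((R.mem_om e).1 hyo).2

/-- **the test (s1)** -/
theorem cnt_S1 (T : Tst R Up N) (K : ℕ) :
    N.eps3 * ∑ s ∈ range K, E3 (fun x b c => ind (¬ R.th (R.ep s x b c) (s + 1) x b c ∧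
      S1 R.toRm N (R.ep s x b c) s x b c)) ≤ nfall R K := by
  classical
  refine cnt_out R (fun e s x b c => ¬ R.th e (s + 1) x b c ∧ S1 R.toRm N e s x b c)
    (fun e s x b c x' b' c' h hS => ?_)
    (fun e s x b c h hh => Or.inr ((T.ts e s x b c h).2 (Or.inl hh.2))) (fun e s x b c h _ hh => ?_) K
  · rw [S1_q h hS, R.th_q e (s + 1) x b c x' b' c' (h.trans (Nat.le_succ s)) hS]
  have h' : e.t0 ≤ s + 1 := h.trans (Nat.le_succ s)
  have hth : ∀ y ∈ rs D e (s + 1) x, ¬ R.th e (s + 1) y b c := fun y hy => by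
    rw [← R.th_q e (s + 1) x b c y b c h' ⟨(D.mem_cA.1 (mem_inter.1 hy).2).symm, rfl, rfl⟩]
    exact hh.1
  rcases hh.2 with h2 | h2
  · refine miss_count (K' := R.KF e (s + 1) x b c) ?_ h2 fun y hy hyK => ?_
    · intro y hy
      refine mem_inter.2 ⟨?_, ((R.mem_KF_succ h).1 hy).1.2⟩
      have := R.KF_sub h' x b c hy
      rwa [R.KF_old le_rfl] at this
    · right
      refine ⟨hth y hy, fun hyo => hyK ?_⟩
      rw [R.KF_inv h' (D.mem_cA.1 (mem_inter.1 hy).2).symm rfl rfl]
      exact ((R.mem_om e).1 hyo).1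
  · refine miss_count (K' := R.KG e (s + 1) x b c) ?_ h2 fun y hy hyK => ?_
    · intro y hy
      refine mem_inter.2 ⟨?_, ((R.mem_KG_succ h).1 hy).1.2⟩
      have := R.KG_sub h' x b c hy
      rwa [R.KG_old le_rfl] at this
    · right
      refine ⟨hth y hy, fun hyo => hyK ?_⟩
      rw [R.KG_inv h' (D.mem_cA.1 (mem_inter.1 hy).2).symm rfl rfl]
      exact ((R.mem_om e).1 hyo).2

end epoch

end

end Pool.Agent.M3.S3
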