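import Pool.Agent.M3.S3.FComp

/-!
# M3.S3.Fall: saturation inside an epoch and gain of a fall (3445 (3), (4)), in the notation of Prod / FComp

`KOn k R al` : `k x F` (one owner) is a kernel on the class `R`, thick on its support.  Base class `R` = unremoved class;
main block `M`, class `om`, removed block `S`.  `k` = labels at the start of the epoch, `k'` = current labels, equal for
the owners outside `Ch`, `|Ch| ≤ kap |Bs|`.

* `klf_law_nonneg`, `klf_law_le` : `0 ≤ KL ≤ log (1/al)`;
* `law_ge_of_sub`, `law_le_of_sub`, `klf_base_le` : change of the base class;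
* `klf_fall` : `KL(law v | law om) ≥ E_v log (law S / law M) - (2 e + e / al)` for all `v ⊆ om`;
* `avg_klf_change_le`, `avg_klf_change_ge` : change of the labels;
* `sat_in` : **SAT INSIDE**; `gain_fall` : **GAIN OF A FALL**.
-/

set_option autoImplicit false
set_option linter.unusedSectionVars false

namespace Pool.Agent.M3.S3

open Finset Pool.Agent.PWZ

variable {X β Φ : Type*} [Fintype Φ]

/-- a kernel (one owner) on the class `R`, thick on its support -/
structure KOn (k : X → Φ → ℝ) (R : Finset X) (al : ℝ) : Prop where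
  pos : 0 < al
  nn : ∀ x ∈ R, ∀ F, 0 ≤ k x F
  thick : ∀ x ∈ R, ∀ x' ∈ R, ∀ F, k x F ≠ 0 → al ≤ k x' F
  one : ∀ x ∈ R, ∑ F, k x F = 1

section one

variable {k : X → Φ → ℝ} {R S om M v : Finset X} {al : ℝ}

theorem KOn.mono (h : KOn k R al) (hS : S ⊆ R) : KOn k S al :=
  ⟨h.pos, fun x hx => h.nn x (hS hx), fun x hx x' hx' => h.thick x (hS hx) x' (hS hx'),
    fun x hx => h.one x (hS hx)⟩

theorem law_zero {F : Φ} (h : ∀ x ∈ S, k x F = 0) : law S k F = 0 := by
  unfold law avg
  rw [Finset.sum_eq_zero h, zero_div]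

/-- a value is impossible or thick on the whole class -/
theorem KOn.dich (h : KOn k R al) (F : Φ) : (∀ x ∈ R, k x F = 0) ∨ (∀ x ∈ R, al ≤ k x F) := by
  by_cases hz : ∀ x ∈ R, k x F = 0
  · exact Or.inl hz
  · obtain ⟨x0, hx0, hne⟩ : ∃ x ∈ R, k x F ≠ 0 := by
      by_contra hcon
      exact hz (fun x hx => by_contra fun hne => hcon ⟨x, hx, hne⟩)
    exact Or.inr (fun x hx => h.thick x0 hx0 x hx F hne)

theorem KOn.law_nn (h : KOn k R al) (hS : S ⊆ R) (F : Φ) : 0 ≤ law S k F := by
  unfold law avg
  exact div_nonneg (Finset.sum_nonneg (fun x hx => h.nn x (hS hx) F)) (Nat.cast_nonneg _)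

theorem KOn.law_tot (h : KOn k R al) (hS : S ⊆ R) (hne : S.Nonempty) : ∑ F, law S k F = 1 :=
  law_sum hne (fun x hx => h.one x (hS hx))

theorem KOn.law_le_one (h : KOn k R al) (hS : S ⊆ R) (hne : S.Nonempty) (F : Φ) : law S k F ≤ 1 := by
  rw [← h.law_tot hS hne]
  exact Finset.single_le_sum (f := fun F => law S k F) (fun F _ => h.law_nn hS F) (Finset.mem_univ F)

theorem law_low {F : Φ} (hF : ∀ x ∈ R, al ≤ k x F) (hS : S ⊆ R) (hne : S.Nonempty) : al ≤ law S k F :=
  le_law hne (fun x hx => hF x (hS hx))

theorem klf_law_nonneg (h : KOn k R al) (hS : S ⊆ R) (hSne : S.Nonempty) (hM : M ⊆ R) (hMne : M.Nonempty) :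
    0 ≤ klf (law S k) (law M k) := by
  have h1 : ∀ F, law S k F - law M k F ≤ law S k F * Real.log (law S k F / law M k F) := by
    intro F
    rcases h.dich F with hF | hF
    · rw [law_zero (fun x hx => hF x (hS hx)), law_zero (fun x hx => hF x (hM hx))]
      simp
    · have p := h.pos.trans_le (law_low hF hS hSne)
      have q := h.pos.trans_le (law_low hF hM hMne)
      have h2 := Real.log_le_sub_one_of_pos (x := law M k F / law S k F) (by positivity)
      have h3 : Real.log (law S k F / law M k F) = - Real.log (law M k F / law S k F) := by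
        rw [← Real.log_inv, inv_div]
      rw [h3]
      have h4 : law S k F * (law M k F / law S k F) = law M k F := by field_simp
      nlinarith
  have h2 := Finset.sum_le_sum (s := (Finset.univ : Finset Φ)) (fun F _ => h1 F)
  rw [Finset.sum_sub_distrib, h.law_tot hM hMne, h.law_tot hS hSne, sub_self] at h2
  exact h2

theorem klf_law_le (h : KOn k R al) (hS : S ⊆ R) (hSne : S.Nonempty) (hM : M ⊆ R) (hMne : M.Nonempty) :
    klf (law S k) (law M k) ≤ Real.log (1 / al) := by
  have h1 : klf (law S k) (law M k) ≤ ∑ F, law S k F * Real.log (1 / al) := by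
    refine Finset.sum_le_sum (fun F _ => ?_)
    rcases h.dich F with hF | hF
    · rw [law_zero (fun x hx => hF x (hS hx))]
      simp
    · have p := h.pos.trans_le (law_low hF hS hSne)
      have q := h.pos.trans_le (law_low hF hM hMne)
      refine mul_le_mul_of_nonneg_left (Real.log_le_log (by positivity) ?_) p.le
      exact div_le_div₀ zero_le_one (h.law_le_one hS hSne F) h.pos (law_low hF hM hMne)
  rw [← Finset.sum_mul, h.law_tot hS hSne, one_mul] at h1
  exact h1

theorem KOn.log_nonneg (h : KOn k R al) (hR : R.Nonempty) : 0 ≤ Real.log (1 / al) :=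
  (klf_law_nonneg h Subset.rfl hR Subset.rfl hR).trans (klf_law_le h Subset.rfl hR Subset.rfl hR)

/-- the averages of a class and of a large subclass: lower bound -/
theorem law_ge_of_sub (h : KOn k R al) (hom : om ⊆ R) (hne : om.Nonempty) {e : ℝ}
    (hc : (1 - e) * R.card ≤ om.card) (F : Φ) : (1 - e) * law om k F ≤ law R k F := by
  have hR : R.Nonempty := hne.mono hom
  have c1 : (0 : ℝ) < R.card := by exact_mod_cast hR.card_pos
  have c2 : (0 : ℝ) < om.card := by exact_mod_cast hne.card_pos
  have h1 : ∑ x ∈ om, k x F ≤ ∑ x ∈ R, k x F :=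
    Finset.sum_le_sum_of_subset_of_nonneg hom (fun x hx _ => h.nn x hx F)
  have h0 : 0 ≤ ∑ x ∈ om, k x F := Finset.sum_nonneg (fun x hx => h.nn x (hom hx) F)
  unfold law avg
  rw [← mul_div_assoc, div_le_div_iff₀ c2 c1]
  calc (1 - e) * (∑ x ∈ om, k x F) * R.card = ((1 - e) * R.card) * ∑ x ∈ om, k x F := by ring
    _ ≤ om.card * ∑ x ∈ om, k x F := mul_le_mul_of_nonneg_right hc h0
    _ ≤ om.card * ∑ x ∈ R, k x F := mul_le_mul_of_nonneg_left h1 c2.le
    _ = (∑ x ∈ R, k x F) * om.card := by ring

/-- the averages of a class and of a large subclass: upper bound -/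
theorem law_le_of_sub (h : KOn k R al) (hom : om ⊆ R) (hne : om.Nonempty) {e : ℝ} (he : 0 ≤ e)
    (hc : (1 - e) * R.card ≤ om.card) (F : Φ) : law R k F ≤ (1 + e / al) * law om k F := by
  classical
  have hR : R.Nonempty := hne.mono hom
  have c1 : (0 : ℝ) < R.card := by exact_mod_cast hR.card_pos
  have c2 : (0 : ℝ) < om.card := by exact_mod_cast hne.card_pos
  rcases h.dich F with hF | hF
  · rw [law_zero hF, law_zero (fun x hx => hF x (hom hx)), mul_zero]
  have hle1 : ∀ x ∈ R, k x F ≤ 1 := fun x hx => by
    rw [← h.one x hx]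
    exact Finset.single_le_sum (f := fun F => k x F) (fun F _ => h.nn x hx F) (Finset.mem_univ F)
  have hcc : (om.card : ℝ) ≤ R.card := by exact_mod_cast Finset.card_le_card hom
  have h1 : ∑ x ∈ R, k x F ≤ ∑ x ∈ om, k x F + e * R.card := by
    rw [← Finset.sum_sdiff hom]
    have h2 : ∑ x ∈ R \ om, k x F ≤ ∑ _x ∈ R \ om, (1 : ℝ) :=
      Finset.sum_le_sum (fun x hx => hle1 x (Finset.mem_sdiff.1 hx).1)
    rw [Finset.sum_const, nsmul_eq_mul, mul_one] at h2
    have h3 : ((R \ om).card : ℝ) = R.card - om.card := by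
      rw [Finset.card_sdiff_of_subset hom, Nat.cast_sub (Finset.card_le_card hom)]
    rw [h3] at h2
    linarith
  have hlow := law_low hF hom hne
  have h0 : 0 ≤ ∑ x ∈ om, k x F := Finset.sum_nonneg (fun x hx => h.nn x (hom hx) F)
  have h4 : law R k F ≤ law om k F + e := by
    unfold law avg
    rw [div_add' _ _ _ c2.ne', div_le_div_iff₀ c1 c2]
    calc (∑ x ∈ R, k x F) * om.card ≤ (∑ x ∈ om, k x F + e * R.card) * om.card :=
          mul_le_mul_of_nonneg_right h1 c2.le
      _ = (∑ x ∈ om, k x F) * om.card + e * om.card * R.card := by ring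
      _ ≤ (∑ x ∈ om, k x F) * R.card + e * om.card * R.card := by
          have := mul_le_mul_of_nonneg_left hcc h0
          linarith
      _ = (∑ x ∈ om, k x F + e * om.card) * R.card := by ring
  have h5 : e ≤ e / al * law om k F := by
    rw [div_mul_eq_mul_div, le_div_iff₀ h.pos]
    exact mul_le_mul_of_nonneg_left hlow he
  linarith

/-- change of the base class, upper bound -/
theorem klf_base_le (h : KOn k R al) (hom : om ⊆ R) (hne : om.Nonempty) {e : ℝ} (he : 0 ≤ e)
    (hc : (1 - e) * R.card ≤ om.card) (hS : S ⊆ R) (hSne : S.Nonempty) :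
    klf (law S k) (law om k) ≤ klf (law S k) (law R k) + e / al := by
  have hR : R.Nonempty := hne.mono hom
  have h1 : klf (law S k) (law om k) ≤
      ∑ F, (law S k F * Real.log (law S k F / law R k F) + law S k F * (e / al)) := by
    refine Finset.sum_le_sum (fun F _ => ?_)
    rcases h.dich F with hF | hF
    · rw [law_zero (fun x hx => hF x (hS hx))]
      simp
    · have p := h.pos.trans_le (law_low hF hS hSne)
      have q := h.pos.trans_le (law_low hF Subset.rfl hR)
      have r := h.pos.trans_le (law_low hF hom hne)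
      have h2 := law_le_of_sub h hom hne he hc F
      have h3 : Real.log (law S k F / law om k F) =
          Real.log (law S k F / law R k F) + Real.log (law R k F / law om k F) := by
        rw [← Real.log_mul (by positivity) (by positivity)]
        congr 1
        field_simp
      have h4 : Real.log (law R k F / law om k F) ≤ e / al := by
        have h5 := Real.log_le_sub_one_of_pos (x := law R k F / law om k F) (by positivity)
        have h6 : law R k F / law om k F ≤ 1 + e / al := by
          rw [div_le_iff₀ r]; exact h2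
        linarith
      rw [h3, mul_add]
      have := mul_le_mul_of_nonneg_left h4 p.le
      linarith
  rw [Finset.sum_add_distrib, ← Finset.sum_mul, h.law_tot hS hSne, one_mul] at h1
  exact h1

/-- ratio of the laws of two large subclasses -/
theorem log_ratio_le (h : KOn k R al) (hM : M ⊆ R) (hMne : M.Nonempty) {e : ℝ} (he : 0 ≤ e) (he1 : e ≤ 1 / 2)
    (hMc : (1 - e) * R.card ≤ M.card) (hom : om ⊆ R) (hne : om.Nonempty) (hc : (1 - e) * R.card ≤ om.card)
    {F : Φ} (hF : ∀ x ∈ R, al ≤ k x F) : Real.log (law om k F / law M k F) ≤ 2 * e + e / al := by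
  have hR : R.Nonempty := hne.mono hom
  have r := h.pos.trans_le (law_low hF hM hMne)
  have t := h.pos.trans_le (law_low hF hom hne)
  have u := h.pos.trans_le (law_low hF Subset.rfl hR)
  have h5 : Real.log (law om k F / law M k F) =
      Real.log (law om k F / law R k F) + Real.log (law R k F / law M k F) := by
    rw [← Real.log_mul (by positivity) (by positivity)]
    congr 1
    field_simp
  have h6 : Real.log (law om k F / law R k F) ≤ 2 * e := by
    have h7 := Real.log_le_sub_one_of_pos (x := law om k F / law R k F) (by positivity)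
    have h8 := law_ge_of_sub h hom hne hc F
    have h9 : law om k F / law R k F ≤ 1 + 2 * e := by
      rw [div_le_iff₀ u]
      have h10 : (1 + 2 * e) * ((1 - e) * law om k F) ≤ (1 + 2 * e) * law R k F :=
        mul_le_mul_of_nonneg_left h8 (by linarith)
      have h11 : law om k F ≤ (1 + 2 * e) * ((1 - e) * law om k F) := by
        have : (1 : ℝ) ≤ (1 + 2 * e) * (1 - e) := by nlinarith
        nlinarith
      linarith
    linarith
  have h12 : Real.log (law R k F / law M k F) ≤ e / al := by
    have h7 := Real.log_le_sub_one_of_pos (x := law R k F / law M k F) (by positivity)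
    have h8 := law_le_of_sub h hM hMne he hMc F
    have h9 : law R k F / law M k F ≤ 1 + e / al := by
      rw [div_le_iff₀ r]; exact h8
    linarith
  linarith

/-- **fall, one owner**: Gibbs and change of the base class -/
theorem klf_fall (h : KOn k R al) (hM : M ⊆ R) (hMne : M.Nonempty) {e : ℝ} (he : 0 ≤ e) (he1 : e ≤ 1 / 2)
    (hMc : (1 - e) * R.card ≤ M.card) (hom : om ⊆ R) (hc : (1 - e) * R.card ≤ om.card)
    (hS : S ⊆ R) (hSne : S.Nonempty) (hv : v ⊆ om) (hvne : v.Nonempty) :
    ∑ F, law v k F * Real.log (law S k F / law M k F) - (2 * e + e / al) ≤ klf (law v k) (law om k) := by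
  have hne : om.Nonempty := hvne.mono hv
  have hvR : v ⊆ R := hv.trans hom
  have h2 : ∑ F, (law v k F * Real.log (law S k F / law M k F) - law v k F * (2 * e + e / al) +
      (law v k F - law S k F)) ≤ klf (law v k) (law om k) := by
    refine Finset.sum_le_sum (fun F _ => ?_)
    rcases h.dich F with hF | hF
    · rw [law_zero (fun x hx => hF x (hvR hx)), law_zero (fun x hx => hF x (hS hx))]
      simp
    · have p := h.pos.trans_le (law_low hF hvR hvne)
      have q := h.pos.trans_le (law_low hF hS hSne)
      have r := h.pos.trans_le (law_low hF hM hMne)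
      have t := h.pos.trans_le (law_low hF hom hne)
      have h3 : Real.log (law v k F / law om k F) = Real.log (law S k F / law M k F) -
          Real.log (law om k F / law M k F) - Real.log (law S k F / law v k F) := by
        rw [← Real.log_div (by positivity) (by positivity), ← Real.log_div (by positivity) (by positivity)]
        congr 1
        field_simp
      have h4 := log_ratio_le h hM hMne he he1 hMc hom hne hc hF
      have h13 : law v k F * Real.log (law S k F / law v k F) ≤ law S k F - law v k F := by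
        have h14 := Real.log_le_sub_one_of_pos (x := law S k F / law v k F) (by positivity)
        have h15 : law v k F * (law S k F / law v k F) = law S k F := by field_simp
        nlinarith
      rw [h3]
      have h16 := mul_le_mul_of_nonneg_left h4 p.le
      nlinarith
  rw [Finset.sum_add_distrib, Finset.sum_sub_distrib, Finset.sum_sub_distrib, ← Finset.sum_mul,
    h.law_tot hvR hvne, h.law_tot hS hSne] at h2
  linarith

end one

/-! ## change of the labels -/

section labels

variable {k k' : X → β → Φ → ℝ} {R S om M v : Finset X} {Bs Ch : Finset β} {al : ℝ}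

theorem law_congr {k k' : X → Φ → ℝ} {S : Finset X} (hS : ∀ x ∈ S, k' x = k x) : law S k' = law S k := by
  funext F
  unfold law avg
  congr 1
  exact Finset.sum_congr rfl (fun x hx => congrFun (hS x hx) F)

/-- labels changed for owners of proportion at most `kap` -/
theorem avg_klf_change_le (hk : ∀ b ∈ Bs, KOn (fun x => k x b) R al) (hk' : ∀ b ∈ Bs, KOn (fun x => k' x b) R al)
    (hB : Bs.Nonempty) (hS : S ⊆ R) (hSne : S.Nonempty) (hM : M ⊆ R) (hMne : M.Nonempty)
    {kap : ℝ} (hCh : (Ch.card : ℝ) ≤ kap * Bs.card)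
    (hun : ∀ b ∈ Bs, b ∉ Ch → ∀ x ∈ R, k' x b = k x b) :
    avg Bs (fun b => klf (law S fun x => k' x b) (law M fun x => k' x b)) ≤
      avg Bs (fun b => klf (law S fun x => k x b) (law M fun x => k x b)) + kap * Real.log (1 / al) := by
  classical
  obtain ⟨b0, hb0⟩ := hB
  have hal : 0 ≤ Real.log (1 / al) := (hk b0 hb0).log_nonneg (hSne.mono hS)
  have hc : (0 : ℝ) < Bs.card := by exact_mod_cast Finset.card_pos.2 ⟨b0, hb0⟩
  have h1 : ∑ b ∈ Bs, klf (law S fun x => k' x b) (law M fun x => k' x b) ≤
      ∑ b ∈ Bs, (klf (law S fun x => k x b) (law M fun x => k x b) +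
        (if b ∈ Ch then Real.log (1 / al) else 0)) := by
    refine Finset.sum_le_sum (fun b hb => ?_)
    by_cases h : b ∈ Ch
    · rw [if_pos h]
      have h2 := klf_law_le (hk' b hb) hS hSne hM hMne
      have h3 := klf_law_nonneg (hk b hb) hS hSne hM hMne
      linarith
    · rw [if_neg h, add_zero, law_congr (fun x hx => hun b hb h x (hS hx)),
        law_congr (fun x hx => hun b hb h x (hM hx))]
  have h2 : ∑ b ∈ Bs, (if b ∈ Ch then Real.log (1 / al) else 0) ≤ Ch.card * Real.log (1 / al) := by
    rw [← Finset.sum_filter, Finset.sum_const, nsmul_eq_mul]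
    refine mul_le_mul_of_nonneg_right ?_ hal
    have : (Bs.filter fun b => b ∈ Ch).card ≤ Ch.card :=
      Finset.card_le_card (fun b hb => (Finset.mem_filter.1 hb).2)
    exact_mod_cast this
  rw [Finset.sum_add_distrib] at h1
  have h3 := mul_le_mul_of_nonneg_right hCh hal
  unfold avg
  rw [div_add' _ _ _ hc.ne', div_le_div_iff_of_pos_right hc]
  linarith

theorem avg_klf_change_ge (hk : ∀ b ∈ Bs, KOn (fun x => k x b) R al) (hk' : ∀ b ∈ Bs, KOn (fun x => k' x b) R al)
    (hB : Bs.Nonempty) (hS : S ⊆ R) (hSne : S.Nonempty) (hM : M ⊆ R) (hMne : M.Nonempty)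
    {kap : ℝ} (hCh : (Ch.card : ℝ) ≤ kap * Bs.card)
    (hun : ∀ b ∈ Bs, b ∉ Ch → ∀ x ∈ R, k' x b = k x b) :
    avg Bs (fun b => klf (law S fun x => k x b) (law M fun x => k x b)) - kap * Real.log (1 / al) ≤
      avg Bs (fun b => klf (law S fun x => k' x b) (law M fun x => k' x b)) := by
  have := avg_klf_change_le hk' hk hB hS hSne hM hMne hCh (fun b hb h x hx => (hun b hb h x hx).symm)
  linarith

/-- **SAT INSIDE**: `om ⊆ M` large, `M` saturated for the old labels with constant `c` -/
theorem sat_in {n e kap c : ℝ} (hn : 0 < n) (he : 0 ≤ e) (he1 : e ≤ 1 / 2)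
    (hk : ∀ b ∈ Bs, KOn (fun x => k x b) M al) (hk' : ∀ b ∈ Bs, KOn (fun x => k' x b) om al)
    (hB : Bs.Nonempty) (hom : om ⊆ M) (hc : (1 - e) * M.card ≤ om.card)
    (hCh : (Ch.card : ℝ) ≤ kap * Bs.card) (hun : ∀ b ∈ Bs, b ∉ Ch → ∀ x ∈ om, k' x b = k x b)
    (hS : S ⊆ om) (hSne : S.Nonempty)
    (hsat : avg Bs (fun b => klf (law S fun x => k x b) (law M fun x => k x b)) ≤
      (Real.log (M.card / S.card) + c) / n) :
    avg Bs (fun b => klf (law S fun x => k' x b) (law om fun x => k' x b)) ≤
      (Real.log (om.card / S.card) + c + 2 * e) / n + e / al + kap * Real.log (1 / al) := by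
  have hne : om.Nonempty := hSne.mono hS
  have c2 : (0 : ℝ) < om.card := by exact_mod_cast hne.card_pos
  have c3 : (0 : ℝ) < S.card := by exact_mod_cast hSne.card_pos
  have hM : M.Nonempty := hne.mono hom
  have c1 : (0 : ℝ) < M.card := by exact_mod_cast hM.card_pos
  have h2 : avg Bs (fun b => klf (law S fun x => k x b) (law om fun x => k x b)) ≤
      avg Bs (fun b => klf (law S fun x => k x b) (law M fun x => k x b)) + e / al := by
    rw [← avg_const hB (e / al), ← avg_add]
    exact avg_mono (fun b hb => klf_base_le (hk b hb) hom hne he hc (hS.trans hom) hSne)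
  have h3 := avg_klf_change_le (fun b hb => (hk b hb).mono hom) hk' hB hS hSne Subset.rfl hne hCh hun
  have h4 : Real.log (M.card / S.card) ≤ Real.log (om.card / S.card) + 2 * e := by
    have h5 : Real.log (M.card / S.card) = Real.log (om.card / S.card) + Real.log (M.card / om.card) := by
      rw [← Real.log_mul (by positivity) (by positivity)]
      congr 1
      field_simp
    have h6 := Real.log_le_sub_one_of_pos (x := (M.card : ℝ) / om.card) (by positivity)
    have h7 : (M.card : ℝ) / om.card ≤ 1 + 2 * e := by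
      rw [div_le_iff₀ c2]
      have h8 : (1 + 2 * e) * ((1 - e) * M.card) ≤ (1 + 2 * e) * om.card :=
        mul_le_mul_of_nonneg_left hc (by linarith)
      have h9 : (M.card : ℝ) ≤ (1 + 2 * e) * ((1 - e) * M.card) := by
        have : (1 : ℝ) ≤ (1 + 2 * e) * (1 - e) := by nlinarith
        nlinarith
      linarith
    linarith
  have h10 : (Real.log (M.card / S.card) + c) / n ≤ (Real.log (om.card / S.card) + c + 2 * e) / n :=
    div_le_div_of_nonneg_right (by linarith) hn.le
  linarith

/-- **GAIN OF A FALL**: `v ⊆ om` any nonempty subset of a removed block `S` (hypothesis `hgain` = (1)(a) of 3445) -/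
theorem gain_fall {e kap L : ℝ} (he : 0 ≤ e) (he1 : e ≤ 1 / 2)
    (hk : ∀ b ∈ Bs, KOn (fun x => k x b) R al) (hk' : ∀ b ∈ Bs, KOn (fun x => k' x b) om al)
    (hB : Bs.Nonempty) (hM : M ⊆ R) (hMne : M.Nonempty) (hMc : (1 - e) * R.card ≤ M.card)
    (hom : om ⊆ R) (hc : (1 - e) * R.card ≤ om.card)
    (hCh : (Ch.card : ℝ) ≤ kap * Bs.card) (hun : ∀ b ∈ Bs, b ∉ Ch → ∀ x ∈ om, k' x b = k x b)
    (hS : S ⊆ R) (hSne : S.Nonempty) (hv : v ⊆ om) (hvne : v.Nonempty)
    (hgain : L ≤ avg Bs (fun b => ∑ F, law v (fun x => k x b) F *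
      Real.log (law S (fun x => k x b) F / law M (fun x => k x b) F))) :
    L - (2 * e + e / al + kap * Real.log (1 / al)) ≤
      avg Bs (fun b => klf (law v fun x => k' x b) (law om fun x => k' x b)) := by
  have hne : om.Nonempty := hvne.mono hv
  have h2 : avg Bs (fun b => ∑ F, law v (fun x => k x b) F *
      Real.log (law S (fun x => k x b) F / law M (fun x => k x b) F)) ≤
      avg Bs (fun b => klf (law v fun x => k x b) (law om fun x => k x b)) + (2 * e + e / al) := by
    rw [← avg_const hB (2 * e + e / al), ← avg_add]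
    refine avg_mono (fun b hb => ?_)
    have := klf_fall (hk b hb) hM hMne he he1 hMc hom hc hS hSne hv hvne
    linarith
  have h3 := avg_klf_change_ge (fun b hb => (hk b hb).mono hom) hk' hB hv hvne Subset.rfl hne hCh hun
  linarith

end labels

end Pool.Agent.M3.S3
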