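import Pool.Agent.M3.S3.V2
import Pool.Agent.M3.S3.CntOut
import Pool.Agent.M3.S3.Fall

/-!
# M3.S3.Cost: falls, gains and bits along the process of section 3 (note 3445; helper60)

`Con R n Lr` = the maps of the rule `R` are the removals `rem` and the complete split `cspN` (instance `v2_con`).
`ffall`, `gfall` = the point falls by the `f`-rule, by the `g`-rule (`fall_iff`); `pcf`, `pcg` = the piece of the removal.
* `ch_side`, `ch_f`, `ch_g` : for every `W` with `0 ≤ W a S`, `a W(a,S) ≤ δ S` (`0 < a ≤ S`):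
  `∑_s E3 (1[ffall] W(|vcl|,|pcf|)) ≤ δ nfall`;
* `cost_f`, `cost_g` : `∑_s E3 (1[ffall] (log (|KF|/|pcf|) + Lr/2)) ≤ n Lam`; `nfall_le` : `Lr nfall ≤ 4 n Lam`;
* `bits_le` : `bits R K ≤ 4 n Lam`.
-/

set_option autoImplicit false
set_option linter.unusedSectionVars false
set_option linter.unusedVariables false

namespace Pool.Agent.M3.S3

open Finset Pool.Agent.PWZ Pool.Agent.M3

noncomputable section

variable {X β γ ι φ : Type*} [Fintype X] [Fintype β] [Fintype γ] [Fintype φ] {D : Dat X β γ ι φ}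

/-- the maps of the rule -/
structure Con (R : Rl D) (n Lr : ℝ) : Prop where
  pf : ∀ (e : Epo X) s x b c K, R.pf e s x b c K = rem n Lr (kfc D e.t0 c) (D.cB s b) K
  pg : ∀ (e : Epo X) s x b c K, R.pg e s x b c K = rem n Lr (kgb D e.t0 b) (D.cC s c) K
  sp : ∀ s x b c v, R.sp s x b c v = cspN n (kfc D s c) (D.cB s b) (kgb D s b) (D.cC s c) v

theorem v2_con {Up : Upd D} {N : Nums} {n Lr : ℝ} : Con (v2 D Up N n Lr) n Lr :=
  ⟨fun _ _ _ _ _ _ => rfl, fun _ _ _ _ _ _ => rfl, fun _ _ _ _ _ => rfl⟩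

section defs

variable (R : Rl D)

/-! ## the coarse cells are public -/

theorem vcl_sub (s : ℕ) (x : X) (b : β) (c : γ) : vcl R s x b c ⊆ hcl R s x b c := R.vc_sub

theorem self_vcl (s : ℕ) (x : X) (b : β) (c : γ) : x ∈ vcl R s x b c := R.self_vc (R.self_hc s x b c)

theorem hcl_same {s : ℕ} {x y : X} {b : β} {c : γ} (h : y ∈ hcl R s x b c) : D.Same (s + 1) x b c y b c :=
  ⟨((mem_hcl R).1 h).2.symm, rfl, rfl⟩

theorem ep_of_hcl {s : ℕ} {x x' : X} {b b' : β} {c c' : γ} (hS : D.Same (s + 1) x b c x' b' c')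
    (hx : x' ∈ hcl R s x b c) : R.ep s x' b' c' = R.ep s x b c :=
  (R.pub s (hS.le (Nat.le_succ s)) ((mem_hcl R).1 hx).1).1

theorem vcl_pub {s : ℕ} {x x' : X} {b b' : β} {c c' : γ} (hS : D.Same (s + 1) x b c x' b' c')
    (hx : x' ∈ vcl R s x b c) : vcl R s x' b' c' = vcl R s x b c := by
  have e1 := ep_of_hcl R hS (vcl_sub R s x b c hx)
  unfold vcl
  rw [e1]
  exact R.vc_congr (R.t0_le s x b c) hS hx

theorem vcl_pv (s : ℕ) : PV (vcl R s) := fun b c =>
  ⟨fun x => self_vcl R s x b c, fun x x' hx => vcl_pub R (hcl_same R (vcl_sub R s x b c hx)) hx⟩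

theorem U_sub_vcl (s : ℕ) (x : X) (b : β) (c : γ) : R.U (s + 1) x b c ⊆ vcl R s x b c := by
  by_cases hn : R.nw (R.ep s x b c) s x b c
  · rw [R.U_new hn]
    exact R.fin_sub
  · rw [R.U_keep hn]
    have h1 : x ∈ R.om (R.ep s x b c) (s + 1) x b c := by
      by_contra h4
      exact hn (Or.inr (Or.inl h4))
    unfold vcl
    rw [R.vc_main (R.t0_le s x b c) (fun h => hn (Or.inl h)) h1 (R.self_hc s x b c)]

theorem U_of_nw {s : ℕ} {x : X} {b : β} {c : γ} (hn : R.nw (R.ep s x b c) s x b c) :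
    R.U (s + 1) x b c = R.fin (s + 1) x b c (vcl R s x b c) := R.U_new hn

theorem U_of_keep {s : ℕ} {x : X} {b : β} {c : γ} (hn : ¬ R.nw (R.ep s x b c) s x b c) :
    R.U (s + 1) x b c = vcl R s x b c := by
  rw [R.U_keep hn]
  have h1 : x ∈ R.om (R.ep s x b c) (s + 1) x b c := by
    by_contra h4
    exact hn (Or.inr (Or.inl h4))
  unfold vcl
  rw [R.vc_main (R.t0_le s x b c) (fun h => hn (Or.inl h)) h1 (R.self_hc s x b c)]

/-! ## falls by the two rules -/

/-- code of the `f`-removal at the step from `s` to `s+1` -/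
def rf (e : Epo X) (s : ℕ) (x : X) (b : β) (c : γ) : X → ℕ :=
  R.pf e (s + 1) x b c (KF' R.toRm e s x b c)

/-- code of the `g`-removal at the step from `s` to `s+1` -/
def rg (e : Epo X) (s : ℕ) (x : X) (b : β) (c : γ) : X → ℕ :=
  R.pg e (s + 1) x b c (KG' R.toRm e s x b c)

/-- the point falls by the `f`-rule -/
def ffall (s : ℕ) (x : X) (b : β) (c : γ) : Prop :=
  ¬ R.th (R.ep s x b c) (s + 1) x b c ∧ rf R (R.ep s x b c) s x b c x ≠ 0

/-- the point falls by the `g`-rule -/
def gfall (s : ℕ) (x : X) (b : β) (c : γ) : Prop :=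
  ¬ R.th (R.ep s x b c) (s + 1) x b c ∧ rf R (R.ep s x b c) s x b c x = 0 ∧ rg R (R.ep s x b c) s x b c x ≠ 0

theorem code_f {e : Epo X} {s : ℕ} {x : X} {b : β} {c : γ} {y : X} (h : rf R e s x b c y ≠ 0) :
    R.code e s x b c y = (rf R e s x b c y, 0) := by
  classical
  unfold Rl.code
  exact if_pos h

theorem code_g {e : Epo X} {s : ℕ} {x : X} {b : β} {c : γ} {y : X} (h : rf R e s x b c y = 0) :
    R.code e s x b c y = (0, rg R e s x b c y) := by
  classical
  unfold Rl.code
  exact if_neg (fun h' => h' h)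

theorem fall_iff (s : ℕ) (x : X) (b : β) (c : γ) : fall R s x b c ↔ ffall R s x b c ∨ gfall R s x b c := by
  classical
  have h1 := R.code_eq_main (R.t0_le s x b c) (R.self_hc s x b c)
  unfold fall ffall gfall
  rw [h1]
  by_cases h : rf R (R.ep s x b c) s x b c x = 0
  · rw [code_g R h]
    simp [h]
  · rw [code_f R h]
    simp [h]

theorem ffall_not_gfall {s : ℕ} {x : X} {b : β} {c : γ} (h : ffall R s x b c) : ¬ gfall R s x b c :=
  fun h' => h.2 h'.2.1

theorem ind_fall (s : ℕ) (x : X) (b : β) (c : γ) :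
    ind (fall R s x b c) = ind (ffall R s x b c) + ind (gfall R s x b c) := by
  by_cases h1 : ffall R s x b c
  · rw [ind_of ((fall_iff R s x b c).2 (Or.inl h1)), ind_of h1, ind_not (ffall_not_gfall R h1)]; norm_num
  · by_cases h2 : gfall R s x b c
    · rw [ind_of ((fall_iff R s x b c).2 (Or.inr h2)), ind_of h2, ind_not h1]; norm_num
    · rw [ind_not (fun h => ((fall_iff R s x b c).1 h).elim h1 h2), ind_not h1, ind_not h2]; norm_num

theorem mem_vcl_f {s : ℕ} {x : X} {b : β} {c : γ} (h : ffall R s x b c) {y : X} :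
    y ∈ vcl R s x b c ↔ y ∈ hcl R s x b c ∧ rf R (R.ep s x b c) s x b c y = rf R (R.ep s x b c) s x b c x := by
  unfold vcl hcl
  rw [R.mem_vc, code_f R h.2]
  refine and_congr_right fun _ => ?_
  rw [or_iff_right h.1]
  by_cases h2 : rf R (R.ep s x b c) s x b c y = 0
  · rw [code_g R h2, h2]
    have h3 := h.2
    constructor
    · intro h4; exact (Prod.mk.inj h4).1
    · intro h4; exact absurd h4.symm h3
  · rw [code_f R h2]
    simp

theorem mem_vcl_g {s : ℕ} {x : X} {b : β} {c : γ} (h : gfall R s x b c) {y : X} :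
    y ∈ vcl R s x b c ↔ y ∈ hcl R s x b c ∧ rf R (R.ep s x b c) s x b c y = 0 ∧
      rg R (R.ep s x b c) s x b c y = rg R (R.ep s x b c) s x b c x := by
  unfold vcl hcl
  rw [R.mem_vc, code_g R h.2.1]
  refine and_congr_right fun _ => ?_
  rw [or_iff_right h.1]
  by_cases h2 : rf R (R.ep s x b c) s x b c y = 0
  · rw [code_g R h2]
    simp [h2]
  · rw [code_f R h2]
    simp [h2]

end defs

/-! ## one side of the removals -/

/-- one side: half step class, code -/
structure Side (R : Rl D) where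
  K : Epo X → ℕ → X → β → γ → Finset X
  r : Epo X → ℕ → X → β → γ → X → ℕ
  sub : ∀ (e : Epo X) s x b c, e.t0 ≤ s → K e s x b c ⊆ rs D e (s + 1) x
  inv : ∀ (e : Epo X) s x b c x' b' c', e.t0 ≤ s → D.Same (s + 1) x b c x' b' c' →
    K e s x b c = K e s x' b' c' ∧ r e s x b c = r e s x' b' c'
  out : ∀ (e : Epo X) s x b c, e.t0 ≤ s → x ∈ K e s x b c → r e s x b c x ≠ 0 → x ∉ R.om e (s + 1) x b c
  uniq : ∀ (e : Epo X) s s' x b c, e.t0 ≤ s → s < s' → x ∈ K e s x b c → r e s x b c x ≠ 0 → x ∉ K e s' x b c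

variable {R : Rl D}

theorem mem_rs {e : Epo X} {s : ℕ} {x y : X} : y ∈ rs D e s x ↔ y ∈ e.om0 ∧ D.qa s y = D.qa s x := by
  classical
  unfold rs
  rw [mem_inter, D.mem_cA]

theorem mem_KF' {e : Epo X} {s : ℕ} {x : X} {b : β} {c : γ} {y : X} :
    y ∈ KF' R.toRm e s x b c ↔ y ∈ R.KF e s x b c ∧ D.qa (s + 1) y = D.qa (s + 1) x := by
  classical
  unfold KF'
  rw [mem_inter, D.mem_cA]

theorem mem_KG' {e : Epo X} {s : ℕ} {x : X} {b : β} {c : γ} {y : X} :
    y ∈ KG' R.toRm e s x b c ↔ y ∈ R.KG e s x b c ∧ D.qa (s + 1) y = D.qa (s + 1) x := by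
  classical
  unfold KG'
  rw [mem_inter, D.mem_cA]

theorem mem_KFs {e : Epo X} {s : ℕ} (h : e.t0 ≤ s) {x : X} {b : β} {c : γ} {y : X} :
    y ∈ R.KF e (s + 1) x b c ↔ y ∈ KF' R.toRm e s x b c ∧ rf R e s x b c y = 0 := by
  classical
  rw [R.mem_KF_succ h, mem_KF', D.mem_cA]
  rfl

theorem mem_KGs {e : Epo X} {s : ℕ} (h : e.t0 ≤ s) {x : X} {b : β} {c : γ} {y : X} :
    y ∈ R.KG e (s + 1) x b c ↔ y ∈ KG' R.toRm e s x b c ∧ rg R e s x b c y = 0 := by
  classical
  rw [R.mem_KG_succ h, mem_KG', D.mem_cA]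
  rfl

theorem KFh_sub_rs {e : Epo X} {s : ℕ} (h : e.t0 ≤ s) (x : X) (b : β) (c : γ) :
    KF' R.toRm e s x b c ⊆ rs D e (s + 1) x := fun y hy => by
  rw [mem_KF'] at hy
  refine mem_rs.2 ⟨?_, hy.2⟩
  have := R.KF_sub h x b c hy.1
  rwa [R.KF_old le_rfl] at this

theorem KGh_sub_rs {e : Epo X} {s : ℕ} (h : e.t0 ≤ s) (x : X) (b : β) (c : γ) :
    KG' R.toRm e s x b c ⊆ rs D e (s + 1) x := fun y hy => by
  rw [mem_KG'] at hy
  refine mem_rs.2 ⟨?_, hy.2⟩
  have := R.KG_sub h x b c hy.1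
  rwa [R.KG_old le_rfl] at this

theorem KF'_inv_t {e : Epo X} {s : ℕ} (h : e.t0 ≤ s) {x x' : X} {b b' : β} {c c' : γ}
    (hS : D.Same (s + 1) x b c x' b' c') : KF' R.toRm e s x b c = KF' R.toRm e s x' b' c' := KF'_inv h hS

theorem rf_inv {e : Epo X} {s : ℕ} (h : e.t0 ≤ s) {x x' : X} {b b' : β} {c c' : γ}
    (hS : D.Same (s + 1) x b c x' b' c') : rf R e s x b c = rf R e s x' b' c' := by
  funext y
  unfold rf
  rw [KF'_inv h hS, R.pf_c e (s + 1) x x' b b' c c' _ (by omega) hS.1 hS.2.1 (D.qc_le (by omega) hS.2.2)]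

theorem rg_inv {e : Epo X} {s : ℕ} (h : e.t0 ≤ s) {x x' : X} {b b' : β} {c c' : γ}
    (hS : D.Same (s + 1) x b c x' b' c') : rg R e s x b c = rg R e s x' b' c' := by
  funext y
  unfold rg
  rw [KG'_inv h hS, R.pg_b e (s + 1) x x' b b' c c' _ (by omega) hS.1 (D.qb_le (by omega) hS.2.1) hS.2.2]

/-- the `f`-side -/
def sdf (R : Rl D) : Side R where
  K := KF' R.toRm
  r := rf R
  sub e s x b c h := KFh_sub_rs h x b c
  inv e s x b c x' b' c' h hS := ⟨KF'_inv h hS, rf_inv h hS⟩
  out e s x b c h hx h0 hc := h0 ((mem_KFs h).1 ((R.mem_om e).1 hc).1).2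
  uniq e s s' x b c h hs hx h0 hc := by
    have h1 := R.KF_sub (show s + 1 ≤ s' by omega) x b c (mem_KF'.1 hc).1
    exact h0 ((mem_KFs h).1 h1).2

/-- the `g`-side -/
def sdg (R : Rl D) : Side R where
  K := KG' R.toRm
  r := rg R
  sub e s x b c h := KGh_sub_rs h x b c
  inv e s x b c x' b' c' h hS := ⟨KG'_inv h hS, rg_inv h hS⟩
  out e s x b c h hx h0 hc := h0 ((mem_KGs h).1 ((R.mem_om e).1 hc).2).2
  uniq e s s' x b c h hs hx h0 hc := by
    have h1 := R.KG_sub (show s + 1 ≤ s' by omega) x b c (mem_KG'.1 hc).1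
    exact h0 ((mem_KGs h).1 h1).2

namespace Side

variable (sd : Side R)

/-- the piece of the point -/
def pc (e : Epo X) (s : ℕ) (x : X) (b : β) (c : γ) : Finset X := fblk (sd.K e s x b c) (sd.r e s x b c) x

/-- the point leaves the class of this side -/
def lv (e : Epo X) (s : ℕ) (x : X) (b : β) (c : γ) : Prop := x ∈ sd.K e s x b c ∧ sd.r e s x b c x ≠ 0

theorem pc_same {e : Epo X} {s : ℕ} (h : e.t0 ≤ s) {x y : X} {b : β} {c : γ} (hy : y ∈ sd.pc e s x b c) :
    D.Same (s + 1) x b c y b c :=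
  ⟨(mem_rs.1 (sd.sub e s x b c h (fblk_subset _ _ _ hy))).2.symm, rfl, rfl⟩

theorem pc_om0 {e : Epo X} {s : ℕ} (h : e.t0 ≤ s) {x y : X} {b : β} {c : γ} (hy : y ∈ sd.pc e s x b c) :
    y ∈ e.om0 := (mem_rs.1 (sd.sub e s x b c h (fblk_subset _ _ _ hy))).1

theorem pc_eq {e : Epo X} {s : ℕ} (h : e.t0 ≤ s) {x y : X} {b : β} {c : γ} (hy : y ∈ sd.pc e s x b c) :
    sd.pc e s y b c = sd.pc e s x b c := by
  have h1 := sd.inv e s x b c y b c h (sd.pc_same h hy)
  unfold pc at hy ⊢
  rw [← h1.1, ← h1.2]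
  exact fblk_congr (mem_fblk.1 hy).2

theorem pc_lv {e : Epo X} {s : ℕ} (h : e.t0 ≤ s) {x y : X} {b : β} {c : γ} (hx : sd.lv e s x b c)
    (hy : y ∈ sd.pc e s x b c) : sd.lv e s y b c := by
  have h1 := sd.inv e s x b c y b c h (sd.pc_same h hy)
  unfold pc at hy
  unfold lv
  rw [← h1.1, ← h1.2]
  refine ⟨(mem_fblk.1 hy).1, ?_⟩
  rw [(mem_fblk.1 hy).2]
  exact hx.2

theorem self_pc {e : Epo X} {s : ℕ} {x : X} {b : β} {c : γ} (hx : sd.lv e s x b c) : x ∈ sd.pc e s x b c :=
  self_fblk hx.1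

end Side

/-- **COUNT OF THE PIECES** -/
theorem ch_side (sd : Side R) (E : ℕ → X → β → γ → Prop)
    (hE : ∀ s x b c, E s x b c → ¬ R.th (R.ep s x b c) (s + 1) x b c ∧ sd.lv (R.ep s x b c) s x b c)
    (hvS : ∀ s x b c, E s x b c → vcl R s x b c ⊆ sd.pc (R.ep s x b c) s x b c)
    (hvv : ∀ s x y b c, E s x b c → E s y b c → R.ep s y b c = R.ep s x b c →
      y ∈ sd.pc (R.ep s x b c) s x b c → y ∈ vcl R s x b c)
    {W : ℝ → ℝ → ℝ} {δ : ℝ} (hδ : 0 ≤ δ) (hW0 : ∀ a S, 0 < a → a ≤ S → 0 ≤ W a S)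
    (hW : ∀ a S, 0 < a → a ≤ S → a * W a S ≤ δ * S) (K : ℕ) :
    ∑ s ∈ range K, E3 (fun x b c => ind (E s x b c) *
      W (vcl R s x b c).card (sd.pc (R.ep s x b c) s x b c).card) ≤ δ * nfall R K := by
  classical
  set w : ℕ → X → β → γ → ℝ := fun s x b c => ind (E s x b c) *
      W (vcl R s x b c).card (sd.pc (R.ep s x b c) s x b c).card with hw
  set G : ℕ → ℕ → X → β → γ → Prop := fun τ s x b c =>
    (R.ep τ x b c).t0 = τ ∧ al R (R.ep τ x b c) s x b c ∧ ¬ R.th (R.ep τ x b c) (s + 1) x b c ∧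
      sd.lv (R.ep τ x b c) s x b c with hG
  have step1 : ∀ s x b c, w s x b c = ∑ τ ∈ range (s + 1), ind ((R.ep s x b c).t0 = τ) * w s x b c := by
    intro s x b c
    have h0 : (R.ep s x b c).t0 ∈ range (s + 1) := mem_range.2 (Nat.lt_succ_of_le (R.t0_le s x b c))
    rw [Finset.sum_eq_single_of_mem _ h0]
    · rw [ind_of rfl, one_mul]
    · intro τ _ hne
      rw [ind_not (fun h => hne h.symm), zero_mul]
  have step2 : ∀ τ s b c, τ ≤ s → ∑ x, ind ((R.ep s x b c).t0 = τ) * w s x b c ≤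
      δ * ∑ x, ind (G τ s x b c) := by
    intro τ s b c hs
    -- the event is constant on the pieces
    have hpc : ∀ x, G τ s x b c → ∀ y ∈ sd.pc (R.ep τ x b c) s x b c, R.ep τ y b c = R.ep τ x b c ∧ G τ s y b c := by
      intro x hx y hy
      have ht : (R.ep τ x b c).t0 ≤ s := by rw [hx.1]; exact hs
      have hS := sd.pc_same ht hy
      have hU : R.U τ x b c = (R.ep τ x b c).om0 := by
        unfold Rl.U
        exact R.om_old (by rw [hx.1]) x b c
      have hy0 : y ∈ R.U τ x b c := by rw [hU]; exact sd.pc_om0 ht hy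
      have he : R.ep τ y b c = R.ep τ x b c := (R.pub τ (hS.le (by omega)) hy0).1
      refine ⟨he, ?_⟩
      show (R.ep τ y b c).t0 = τ ∧ al R (R.ep τ y b c) s y b c ∧ ¬ R.th (R.ep τ y b c) (s + 1) y b c ∧
        sd.lv (R.ep τ y b c) s y b c
      rw [he]
      refine ⟨hx.1, (al_inv R (hS.le (Nat.le_succ s))).1 hx.2.1, ?_, sd.pc_lv ht hx.2.2.2 hy⟩
      rw [← R.th_q _ (s + 1) x b c y b c (by omega) hS]
      exact hx.2.2.1
    set V2 : X → Finset X := fun x => if G τ s x b c then sd.pc (R.ep τ x b c) s x b c else {x} with hV2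
    have hP : Prt V2 := by
      refine ⟨fun x => ?_, fun x x' hx' => ?_⟩
      · by_cases h : G τ s x b c
        · simp only [hV2, if_pos h]
          exact sd.self_pc h.2.2.2
        · simp only [hV2, if_neg h, mem_singleton]
      · by_cases h : G τ s x b c
        · simp only [hV2, if_pos h] at hx' ⊢
          obtain ⟨h1, h2⟩ := hpc x h x' hx'
          rw [if_pos h2, h1]
          exact sd.pc_eq (by rw [h.1]; exact hs) hx'
        · simp only [hV2, if_neg h, mem_singleton] at hx'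
          rw [hx']
    rw [hP.sum_mean, Finset.mul_sum]
    refine Finset.sum_le_sum fun x _ => ?_
    by_cases hx : G τ s x b c
    · have e1 : V2 x = sd.pc (R.ep τ x b c) s x b c := by simp only [hV2, if_pos hx]
      rw [e1, ind_of hx, mul_one]
      set e := R.ep τ x b c with he
      set S := sd.pc e s x b c with hS
      have hSpos : (0 : ℝ) < S.card := by
        exact_mod_cast card_pos.2 ⟨x, sd.self_pc hx.2.2.2⟩
      have ht : e.t0 ≤ s := by rw [hx.1]; exact hs
      unfold avg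
      rw [div_le_iff₀ hSpos]
      by_cases hex : ∃ y ∈ S, E s y b c ∧ (R.ep s y b c).t0 = τ
      · obtain ⟨y0, hy0, hE0, ht0⟩ := hex
        have hep : ∀ y ∈ S, (R.ep s y b c).t0 = τ → R.ep s y b c = e := by
          intro y hy hyt
          have h1 := ep_start R s y b c
          rw [hyt] at h1
          rw [← h1]
          exact (hpc x hx y hy).1
        have e0 := hep y0 hy0 ht0
        have hpcS : sd.pc e s y0 b c = S := sd.pc_eq ht hy0
        set v0 := vcl R s y0 b c with hv0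
        have hv0S : v0 ⊆ S := by
          have := hvS s y0 b c hE0
          rw [e0, hpcS] at this
          exact this
        have hv0p : (0 : ℝ) < v0.card := by exact_mod_cast card_pos.2 ⟨y0, self_vcl R s y0 b c⟩
        have hv0le : (v0.card : ℝ) ≤ S.card := by exact_mod_cast card_le_card hv0S
        have key : ∀ y ∈ S, ind ((R.ep s y b c).t0 = τ) * w s y b c ≤
            if y ∈ v0 then W v0.card S.card else 0 := by
          intro y hy
          have hnn : 0 ≤ if y ∈ v0 then W v0.card S.card else 0 := by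
            split_ifs
            · exact hW0 _ _ hv0p hv0le
            · exact le_rfl
          by_cases h1 : (R.ep s y b c).t0 = τ
          · by_cases h2 : E s y b c
            · have e2 := hep y hy h1
              have h3 : y ∈ v0 := hvv s y0 y b c hE0 h2 (by rw [e2, e0]) (by rw [e0, hpcS]; exact hy)
              have h4 : vcl R s y b c = v0 := vcl_pub R (hcl_same R (vcl_sub R s y0 b c h3)) h3
              have h5 : sd.pc (R.ep s y b c) s y b c = S := by rw [e2]; exact sd.pc_eq ht hy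
              have h6 : w s y b c = W v0.card S.card := by
                simp only [hw, ind_of h2, one_mul, h4, h5]
              rw [ind_of h1, one_mul, if_pos h3, h6]
            · have h6 : w s y b c = 0 := by simp only [hw, ind_not h2, zero_mul]
              rw [h6, mul_zero]
              exact hnn
          · rw [ind_not h1, zero_mul]
            exact hnn
        refine (Finset.sum_le_sum key).trans ?_
        rw [sum_ite_sub hv0S (fun _ => W v0.card S.card), Finset.sum_const, nsmul_eq_mul]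
        exact hW _ _ hv0p hv0le
      · push Not at hex
        have h0 : ∀ y ∈ S, ind ((R.ep s y b c).t0 = τ) * w s y b c = 0 := by
          intro y hy
          by_cases h2 : E s y b c
          · rw [ind_not (hex y hy h2), zero_mul]
          · have h6 : w s y b c = 0 := by simp only [hw, ind_not h2, zero_mul]
            rw [h6, mul_zero]
        rw [Finset.sum_eq_zero h0]
        exact mul_nonneg hδ hSpos.le
    · have e1 : V2 x = {x} := by simp only [hV2, if_neg hx]
      rw [e1, ind_not hx, mul_zero]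
      unfold avg
      rw [Finset.sum_singleton, card_singleton, Nat.cast_one, div_one]
      by_cases h1 : (R.ep s x b c).t0 = τ
      · by_cases h2 : E s x b c
        · exfalso
          apply hx
          have h3 := ep_start R s x b c
          rw [h1] at h3
          have h4 : (R.ep τ x b c).t0 = τ := by rw [h3]; exact h1
          have h5 := (ep_iff R hs h4).1 h3.symm
          obtain ⟨h6, h7⟩ := hE s x b c h2
          rw [← h3] at h6 h7
          exact ⟨h4, h5.2, h6, h7⟩
        · have h6 : w s x b c = 0 := by simp only [hw, ind_not h2, zero_mul]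
          rw [h6, mul_zero]
      · rw [ind_not h1, zero_mul]
  have step3 : ∀ x b c, ∑ s ∈ range K, ∑ τ ∈ range (s + 1), ind (G τ s x b c) ≤
      ∑ s ∈ range K, ind (fall R s x b c) := by
    intro x b c
    have e1 : ∑ s ∈ range K, ∑ τ ∈ range (s + 1), ind (G τ s x b c) =
        ∑ τ ∈ range K, ∑ s ∈ (range K).filter (fun s => τ ≤ s), ind (G τ s x b c) := by
      refine Finset.sum_comm' fun s τ => ?_
      simp only [mem_range, mem_filter]
      omega
    have e2 : ∑ s ∈ range K, ind (fall R s x b c) =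
        ∑ τ ∈ range K, ∑ s ∈ (range K).filter (fun s => (R.ep s x b c).t0 = τ), ind (fall R s x b c) := by
      rw [Finset.sum_fiberwise_of_maps_to]
      intro s hs
      exact mem_range.2 ((R.t0_le s x b c).trans_lt (mem_range.1 hs))
    rw [e1, e2]
    refine Finset.sum_le_sum fun τ hτ => ?_
    by_cases hex : ∃ s ∈ (range K).filter (fun s => τ ≤ s), G τ s x b c
    · obtain ⟨s, hs, hOs⟩ := hex
      have hs' := mem_filter.1 hs
      have hout := sd.out _ s x b c (by rw [hOs.1]; exact hs'.2) hOs.2.2.2.1 hOs.2.2.2.2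
      have huniq : ∀ s' ∈ (range K).filter (fun s => τ ≤ s), s' ≠ s → ind (G τ s' x b c) = 0 := by
        intro s' hs1 hne
        refine ind_not fun hO' => ?_
        have hs2 := mem_filter.1 hs1
        rcases lt_or_gt_of_ne hne with hlt | hlt
        · exact sd.uniq _ s' s x b c (by rw [hO'.1]; exact hs2.2) hlt hO'.2.2.2.1 hO'.2.2.2.2 hOs.2.2.2.1
        · exact sd.uniq _ s s' x b c (by rw [hOs.1]; exact hs'.2) hlt hOs.2.2.2.1 hOs.2.2.2.2 hO'.2.2.2.1
      rw [Finset.sum_eq_single_of_mem s hs huniq, ind_of hOs]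
      obtain ⟨r, k1, k2, k3, k4⟩ := fall_of_gone R hs'.2 hOs.1 hOs.2.1 (Or.inr ⟨hOs.2.2.1, hout⟩)
      have hr : r ∈ (range K).filter (fun s => (R.ep s x b c).t0 = τ) := by
        refine mem_filter.2 ⟨mem_range.2 (k2.trans_lt (mem_range.1 hs'.1)), ?_⟩
        rw [k3]; exact hOs.1
      have h3 := Finset.single_le_sum (f := fun s => ind (fall R s x b c)) (fun s _ => ind_nonneg _) hr
      beta_reduce at h3
      rw [ind_of k4] at h3
      exact h3
    · push Not at hex
      rw [Finset.sum_eq_zero fun s hs => ind_not (hex s hs)]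
      exact Finset.sum_nonneg fun s _ => ind_nonneg _
  -- conclusion
  unfold nfall
  rw [← E3_sum, ← E3_sum, ← E3_smul]
  refine (E3_le_of_fibre (g := fun x b c => δ * ∑ s ∈ range K, ∑ τ ∈ range (s + 1), ind (G τ s x b c))
    fun b c => ?_).trans (E3_mono fun x b c => mul_le_mul_of_nonneg_left (step3 x b c) hδ)
  have e1 : ∑ x, ∑ s ∈ range K, w s x b c =
      ∑ x, ∑ s ∈ range K, ∑ τ ∈ range (s + 1), ind ((R.ep s x b c).t0 = τ) * w s x b c :=
    Finset.sum_congr rfl fun x _ => Finset.sum_congr rfl fun s _ => step1 s x b c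
  rw [e1, ← Finset.mul_sum, Finset.sum_comm, Finset.sum_comm (s := univ), Finset.mul_sum]
  refine Finset.sum_le_sum fun s _ => ?_
  rw [Finset.sum_comm, Finset.sum_comm (s := univ), Finset.mul_sum]
  refine Finset.sum_le_sum fun τ hτ => ?_
  exact step2 τ s b c (Nat.lt_succ_iff.1 (mem_range.1 hτ))

/-! ## the two rules -/

theorem hcl_sub_KF' {s : ℕ} {x : X} {b : β} {c : γ} :
    hcl R s x b c ⊆ KF' R.toRm (R.ep s x b c) s x b c := fun y hy => by
  rw [mem_KF']
  have h := R.mem_hc.1 hy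
  exact ⟨((R.mem_om _).1 h.1).1, h.2⟩

theorem hcl_sub_KG' {s : ℕ} {x : X} {b : β} {c : γ} :
    hcl R s x b c ⊆ KG' R.toRm (R.ep s x b c) s x b c := fun y hy => by
  rw [mem_KG']
  have h := R.mem_hc.1 hy
  exact ⟨((R.mem_om _).1 h.1).2, h.2⟩

theorem ffall_lv {s : ℕ} {x : X} {b : β} {c : γ} (h : ffall R s x b c) :
    (sdf R).lv (R.ep s x b c) s x b c := ⟨hcl_sub_KF' (R.self_hc s x b c), h.2⟩

theorem gfall_lv {s : ℕ} {x : X} {b : β} {c : γ} (h : gfall R s x b c) :
    (sdg R).lv (R.ep s x b c) s x b c := ⟨hcl_sub_KG' (R.self_hc s x b c), h.2.2⟩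

theorem vcl_sub_f {s : ℕ} {x : X} {b : β} {c : γ} (h : ffall R s x b c) :
    vcl R s x b c ⊆ (sdf R).pc (R.ep s x b c) s x b c := fun y hy => by
  have h1 := (mem_vcl_f R h).1 hy
  exact mem_fblk.2 ⟨hcl_sub_KF' h1.1, h1.2⟩

theorem vcl_sub_g {s : ℕ} {x : X} {b : β} {c : γ} (h : gfall R s x b c) :
    vcl R s x b c ⊆ (sdg R).pc (R.ep s x b c) s x b c := fun y hy => by
  have h1 := (mem_vcl_g R h).1 hy
  exact mem_fblk.2 ⟨hcl_sub_KG' h1.1, h1.2.2⟩

/-- (ch) for the `f`-rule -/
theorem ch_f (R : Rl D) {W : ℝ → ℝ → ℝ} {δ : ℝ} (hδ : 0 ≤ δ) (hW0 : ∀ a S, 0 < a → a ≤ S → 0 ≤ W a S)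
    (hW : ∀ a S, 0 < a → a ≤ S → a * W a S ≤ δ * S) (K : ℕ) :
    ∑ s ∈ range K, E3 (fun x b c => ind (ffall R s x b c) *
      W (vcl R s x b c).card ((sdf R).pc (R.ep s x b c) s x b c).card) ≤ δ * nfall R K := by
  refine ch_side (sdf R) (ffall R) (fun s x b c h => ⟨h.1, ffall_lv h⟩) (fun s x b c h => vcl_sub_f h)
    (fun s x y b c h h' he hy => ?_) hδ hW0 hW K
  refine (mem_vcl_f R h).2 ⟨?_, (mem_fblk.1 hy).2⟩
  have h1 := R.self_hc s y b c
  have hS := (sdf R).pc_same (R.t0_le s x b c) hy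
  unfold hcl
  rw [he, ← R.hc_inv (R.t0_le s x b c) hS] at h1
  exact h1

/-- (ch) for the `g`-rule -/
theorem ch_g (R : Rl D) {W : ℝ → ℝ → ℝ} {δ : ℝ} (hδ : 0 ≤ δ) (hW0 : ∀ a S, 0 < a → a ≤ S → 0 ≤ W a S)
    (hW : ∀ a S, 0 < a → a ≤ S → a * W a S ≤ δ * S) (K : ℕ) :
    ∑ s ∈ range K, E3 (fun x b c => ind (gfall R s x b c) *
      W (vcl R s x b c).card ((sdg R).pc (R.ep s x b c) s x b c).card) ≤ δ * nfall R K := by
  refine ch_side (sdg R) (gfall R) (fun s x b c h => ⟨h.1, gfall_lv h⟩) (fun s x b c h => vcl_sub_g h)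
    (fun s x y b c h h' he hy => ?_) hδ hW0 hW K
  have hS := (sdg R).pc_same (R.t0_le s x b c) hy
  refine (mem_vcl_g R h).2 ⟨?_, ?_, (mem_fblk.1 hy).2⟩
  · have h1 := R.self_hc s y b c
    unfold hcl
    rw [he, ← R.hc_inv (R.t0_le s x b c) hS] at h1
    exact h1
  · have h2 := h'.2.1
    rw [he, ← rf_inv (R.t0_le s x b c) hS] at h2
    exact h2

/-! ## means over the cells of one known point -/

theorem E3_cellB (D : Dat X β γ ι φ) (s : ℕ) (f : X → β → γ → ℝ) :
    E3 f = E3 fun x b c => avg (D.cB s b) fun b' => f x b' c := by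
  classical
  have eB : ∀ b, (Finset.univ.filter fun y => D.qb s y = D.qb s b) = D.cB s b := by
    intro b; ext y; rw [D.mem_cB]; simp
  rw [E3_eq, E3_eq]
  congr 1
  rw [Finset.sum_comm, Finset.sum_comm (s := (Finset.univ : Finset β))]
  refine Finset.sum_congr rfl fun c _ => ?_
  have hb := (prt_fib (D.qb s)).sum_mean (fun b => ∑ x, f x b c)
  simp only [eB] at hb
  rw [hb]
  exact Finset.sum_congr rfl fun b _ => avg_sum_comm _ _ _

theorem E3_cellC (D : Dat X β γ ι φ) (s : ℕ) (f : X → β → γ → ℝ) :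
    E3 f = E3 fun x b c => avg (D.cC s c) fun c' => f x b c' := by
  classical
  have eC : ∀ c, (Finset.univ.filter fun y => D.qc s y = D.qc s c) = D.cC s c := by
    intro c; ext y; rw [D.mem_cC]; simp
  rw [E3_eq, E3_eq]
  congr 1
  refine Finset.sum_congr rfl fun b _ => ?_
  have hb := (prt_fib (D.qc s)).sum_mean (fun c => ∑ x, f x b c)
  simp only [eC] at hb
  rw [hb]
  exact Finset.sum_congr rfl fun c _ => avg_sum_comm _ _ _

/-! ## data processing in time -/

theorem klf_step [DecidableEq φ] {k k0 : X → φ → ℝ} {S V : Finset X} (h0 : ∀ x F, 0 ≤ k x F) (π : φ → φ)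
    (hπ : ∀ y ∈ V, ∀ G, k0 y G = ∑ F, if π F = G then k y F else 0) (hS : S ⊆ V) :
    klf (law S k0) (law V k0) ≤ klf (law S k) (law V k) := by
  have lm : ∀ {S : Finset X}, S ⊆ V → ∀ G, law S k0 G = ∑ F, if π F = G then law S k F else 0 := by
    intro S hS G
    unfold law avg
    rw [Finset.sum_congr rfl (fun y hy => hπ y (hS hy) G), Finset.sum_comm, Finset.sum_div]
    refine Finset.sum_congr rfl (fun F _ => ?_)
    by_cases h : π F = G
    · simp only [if_pos h]
    · simp only [if_neg h, Finset.sum_const_zero, zero_div]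
  unfold klf
  simp only [lm hS, lm (Finset.Subset.refl _)]
  exact klf_map_le π (fun F => bd_law_nn h0 _ F) (fun F => bd_law_nn h0 _ F) (fun F hF => bd_law_sup h0 hS hF)

theorem klf_time_f [DecidableEq φ] {al : ℝ} (T : D.Thick al) (P : Proj D) {t s : ℕ} (h : t ≤ s) {S V : Finset X}
    {x : X} (hV : V ⊆ D.cA s x) (hS : S ⊆ V) (b : β) (c : γ) :
    klf (law S fun y => D.kf t y b c) (law V fun y => D.kf t y b c) ≤
      klf (law S fun y => D.kf s y b c) (law V fun y => D.kf s y b c) := by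
  induction s, h using Nat.le_induction with
  | base => exact le_rfl
  | succ s hs ih =>
    refine (ih (hV.trans (D.cA_mono (Nat.le_succ s) x))).trans ?_
    exact klf_step (fun y F => T.f_nn (s + 1) y b c F) (P.pf s x b c)
      (fun y hy G => P.f s x b c y (D.mem_cA.1 (hV hy)) G) hS

theorem klf_time_g [DecidableEq φ] {al : ℝ} (T : D.Thick al) (P : Proj D) {t s : ℕ} (h : t ≤ s) {S V : Finset X}
    {x : X} (hV : V ⊆ D.cA s x) (hS : S ⊆ V) (b : β) (c : γ) :
    klf (law S fun y => D.kg t y b c) (law V fun y => D.kg t y b c) ≤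
      klf (law S fun y => D.kg s y b c) (law V fun y => D.kg s y b c) := by
  induction s, h using Nat.le_induction with
  | base => exact le_rfl
  | succ s hs ih =>
    refine (ih (hV.trans (D.cA_mono (Nat.le_succ s) x))).trans ?_
    exact klf_step (fun y F => T.g_nn (s + 1) y b c F) (P.pg s x b c)
      (fun y hy G => P.g s x b c y (D.mem_cA.1 (hV hy)) G) hS

/-! ## sizes at a half step without a test -/

/-- numbers -/
structure CNum (N : Nums) (n Lr al : ℝ) : Prop where
  n0 : 0 < n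
  Lr8 : 8 ≤ Lr
  e3 : 0 ≤ N.eps3
  e4 : 0 ≤ N.eps4
  e5 : N.eps4 + 8 * N.eps3 ≤ 1 / 2
  num : n * (2 * (N.eps4 + 8 * N.eps3) + (N.eps4 + 8 * N.eps3) / al) ≤ Lr / 2

section sizes

variable {Up : Upd D} {N : Nums} {n Lr al₀ : ℝ}

theorem sz_not (Ts : Tst R Up N) {e : Epo X} {s : ℕ} (h : e.t0 ≤ s) {x : X} {b : β} {c : γ}
    (ht : ¬ R.th e (s + 1) x b c) :
    ((1 - 4 * N.eps3) * (rs D e (s + 1) x).card ≤ (KF' R.toRm e s x b c).card ∧
      (1 - 4 * N.eps3) * (rs D e (s + 1) x).card ≤ (KG' R.toRm e s x b c).card) ∧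
    ((1 - N.eps4) * (KF' R.toRm e s x b c).card ≤ (R.KF e (s + 1) x b c).card ∧
      (1 - N.eps4) * (KG' R.toRm e s x b c).card ≤ (R.KG e (s + 1) x b c).card) := by
  have h1 := (not_congr (Ts.th e s x b c h)).1 ht
  push Not at h1
  obtain ⟨h2, -, h3⟩ := h1
  unfold H1 at h2
  unfold H3 at h3
  push Not at h2 h3
  exact ⟨h2, h3⟩

theorem mem_hc_inter {e : Epo X} {s : ℕ} {x : X} {b : β} {c : γ} {y : X} :
    y ∈ R.hc e s x b c ↔ y ∈ KF' R.toRm e s x b c ∧ y ∈ KG' R.toRm e s x b c := by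
  rw [R.mem_hc, R.mem_om, mem_KF', mem_KG']
  tauto

theorem sz_hc (Ts : Tst R Up N) {e : Epo X} {s : ℕ} (h : e.t0 ≤ s) {x : X} {b : β} {c : γ}
    (ht : ¬ R.th e (s + 1) x b c) :
    (1 - 8 * N.eps3) * (rs D e (s + 1) x).card ≤ (R.hc e s x b c).card := by
  classical
  obtain ⟨⟨h1, h2⟩, -⟩ := sz_not Ts h ht
  have h3 : KF' R.toRm e s x b c ∪ KG' R.toRm e s x b c ⊆ rs D e (s + 1) x :=
    Finset.union_subset (KFh_sub_rs h x b c) (KGh_sub_rs h x b c)
  have h4 : R.hc e s x b c = KF' R.toRm e s x b c ∩ KG' R.toRm e s x b c := by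
    ext y
    rw [mem_hc_inter, mem_inter]
  have h5 := Finset.card_union_add_card_inter (KF' R.toRm e s x b c) (KG' R.toRm e s x b c)
  have h6 : ((KF' R.toRm e s x b c ∪ KG' R.toRm e s x b c).card : ℝ) ≤ (rs D e (s + 1) x).card := by
    exact_mod_cast Finset.card_le_card h3
  have h7 : ((KF' R.toRm e s x b c ∪ KG' R.toRm e s x b c).card : ℝ) +
      (KF' R.toRm e s x b c ∩ KG' R.toRm e s x b c).card =
      (KF' R.toRm e s x b c).card + (KG' R.toRm e s x b c).card := by exact_mod_cast h5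
  rw [h4]
  nlinarith

theorem hc_sub_rs {e : Epo X} {s : ℕ} (h : e.t0 ≤ s) (x : X) (b : β) (c : γ) :
    R.hc e s x b c ⊆ rs D e (s + 1) x := fun _ hy => KFh_sub_rs h x b c (mem_hc_inter.1 hy).1

theorem rs_sub_cA (e : Epo X) (s : ℕ) (x : X) : rs D e s x ⊆ D.cA s x := fun _ hy =>
  D.mem_cA.2 (mem_rs.1 hy).2

theorem sup_f {al : ℝ} (T : D.Thick al) {t : ℕ} {K : Finset X} {x : X} (hK : K ⊆ D.cA t x) (b : β) (c : γ) :
    Sup (fun y => kfc D t c y b) K where
  nn y _ F := T.f_nn t y b c F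
  sp y hy y' hy' F hF := T.pos.trans_le (T.f_thick t y y' b c F
    ((D.mem_cA.1 (hK hy)).trans (D.mem_cA.1 (hK hy')).symm) hF)
  one y _ := T.f_one t y b c

theorem sup_g {al : ℝ} (T : D.Thick al) {t : ℕ} {K : Finset X} {x : X} (hK : K ⊆ D.cA t x) (b : β) (c : γ) :
    Sup (fun y => kgb D t b y c) K where
  nn y _ F := T.g_nn t y b c F
  sp y hy y' hy' F hF := T.pos.trans_le (T.g_thick t y y' b c F
    ((D.mem_cA.1 (hK hy)).trans (D.mem_cA.1 (hK hy')).symm) hF)
  one y _ := T.g_one t y b c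

theorem kon_f {al : ℝ} (T : D.Thick al) {t : ℕ} {K : Finset X} {x : X} (hK : K ⊆ D.cA t x) (b : β) (c : γ) :
    KOn (fun y => kfc D t c y b) K al where
  pos := T.pos
  nn y _ F := T.f_nn t y b c F
  thick y hy y' hy' F hF := T.f_thick t y y' b c F
    ((D.mem_cA.1 (hK hy)).trans (D.mem_cA.1 (hK hy')).symm) hF
  one y _ := T.f_one t y b c

theorem kon_g {al : ℝ} (T : D.Thick al) {t : ℕ} {K : Finset X} {x : X} (hK : K ⊆ D.cA t x) (b : β) (c : γ) :
    KOn (fun y => kgb D t b y c) K al where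
  pos := T.pos
  nn y _ F := T.g_nn t y b c F
  thick y hy y' hy' F hF := T.g_thick t y y' b c F
    ((D.mem_cA.1 (hK hy)).trans (D.mem_cA.1 (hK hy')).symm) hF
  one y _ := T.g_one t y b c

/-- `log` of the quotient of the sizes of the main block and of the piece, first rule -/
def szf (R : Rl D) (s : ℕ) (x : X) (b : β) (c : γ) : ℝ :=
  Real.log (((R.KF (R.ep s x b c) (s + 1) x b c).card : ℝ) / ((sdf R).pc (R.ep s x b c) s x b c).card)

/-- `log` of the quotient of the sizes of the main block and of the piece, second rule -/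
def szg (R : Rl D) (s : ℕ) (x : X) (b : β) (c : γ) : ℝ :=
  Real.log (((R.KG (R.ep s x b c) (s + 1) x b c).card : ℝ) / ((sdg R).pc (R.ep s x b c) s x b c).card)

/-- gain of the coarse cell, labels of the time `s` -/
def gcf (R : Rl D) (s : ℕ) (x : X) (b : β) (c : γ) : ℝ :=
  klf (law (vcl R s x b c) fun y => D.kf s y b c) (law (hcl R s x b c) fun y => D.kf s y b c)

def gcg (R : Rl D) (s : ℕ) (x : X) (b : β) (c : γ) : ℝ :=
  klf (law (vcl R s x b c) fun y => D.kg s y b c) (law (hcl R s x b c) fun y => D.kg s y b c)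

theorem gcf_nonneg {al : ℝ} (T : D.Thick al) (s : ℕ) (x : X) (b : β) (c : γ) : 0 ≤ gcf R s x b c :=
  bd_klf_law_nonneg (fun y F => T.f_nn s y b c F) (fun y => T.f_one s y b c) ⟨x, self_vcl R s x b c⟩
    (vcl_sub R s x b c)

theorem gcg_nonneg {al : ℝ} (T : D.Thick al) (s : ℕ) (x : X) (b : β) (c : γ) : 0 ≤ gcg R s x b c :=
  bd_klf_law_nonneg (fun y F => T.g_nn s y b c F) (fun y => T.g_one s y b c) ⟨x, self_vcl R s x b c⟩
    (vcl_sub R s x b c)

theorem half_le {N : Nums} {n Lr al : ℝ} (H : CNum N n Lr al) : N.eps4 ≤ 1 / 2 := by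
  have h1 := H.e3
  have h2 := H.e5
  linarith

/-- **gain of a fall**, first rule -/
theorem pt_f [DecidableEq φ] {al : ℝ} (T : D.Thick al) (P : Proj D) (Ts : Tst R Up N) (C : Con R n Lr)
    (H : CNum N n Lr al) {s : ℕ} {x : X} {b : β} {c : γ} (h : ffall R s x b c) :
    (szf R s x b c + Lr / 2) / n ≤ avg (D.cB (s + 1) b) fun b' =>
      klf (law (vcl R s x b c) fun y => D.kf s y b' c) (law (hcl R s x b c) fun y => D.kf s y b' c) := by
  have ht0 := R.t0_le s x b c
  unfold szf
  set e := R.ep s x b c with he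
  have hr : rf R e s x b c = rem n Lr (kfc D e.t0 c) (D.cB (s + 1) b) (KF' R.toRm e s x b c) := by
    unfold rf
    exact C.pf e (s + 1) x b c _
  have hM : R.KF e (s + 1) x b c = mainB (KF' R.toRm e s x b c)
      (rem n Lr (kfc D e.t0 c) (D.cB (s + 1) b) (KF' R.toRm e s x b c)) := by
    ext y
    rw [mem_KFs ht0, mem_mainB, hr]
  obtain ⟨⟨a1, a2⟩, ⟨a3, a4⟩⟩ := sz_not Ts ht0 h.1
  have hxK : x ∈ KF' R.toRm e s x b c := hcl_sub_KF' (R.self_hc s x b c)
  have hx0 : rem n Lr (kfc D e.t0 c) (D.cB (s + 1) b) (KF' R.toRm e s x b c) x ≠ 0 := by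
    rw [← hr]; exact h.2
  have hS : (sdf R).pc e s x b c = fblk (KF' R.toRm e s x b c)
      (rem n Lr (kfc D e.t0 c) (D.cB (s + 1) b) (KF' R.toRm e s x b c)) x := by
    unfold Side.pc
    show fblk (KF' R.toRm e s x b c) (rf R e s x b c) x = _
    rw [hr]
  have hv := vcl_sub_f h
  rw [← he, hS] at hv
  rw [hM] at a3
  rw [hM, hS]
  set r := rem n Lr (kfc D e.t0 c) (D.cB (s + 1) b) (KF' R.toRm e s x b c) with hrd
  have hK'p : (0 : ℝ) < (KF' R.toRm e s x b c).card := by exact_mod_cast card_pos.2 ⟨x, hxK⟩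
  have h4 := half_le H
  have hMp : (0 : ℝ) < (mainB (KF' R.toRm e s x b c) r).card := by nlinarith
  have hMne : (mainB (KF' R.toRm e s x b c) r).Nonempty := by
    rw [← Finset.card_pos]; exact_mod_cast hMp
  have hKrs : KF' R.toRm e s x b c ⊆ rs D e (s + 1) x := KFh_sub_rs ht0 x b c
  have hrsA : rs D e (s + 1) x ⊆ D.cA e.t0 x := (rs_sub_cA e (s + 1) x).trans (D.cA_mono (by omega) x)
  have q1 := rem_fall (n := n) (Lr := Lr) (k := kfc D e.t0 c) (Bs := D.cB (s + 1) b) (K := KF' R.toRm e s x b c)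
    (fun b' _ => sup_f T (hKrs.trans hrsA) b' c) H.n0 hMne hxK hx0 ⟨x, self_vcl R s x b c⟩ hv
  have hBne : (D.cB (s + 1) b).Nonempty := ⟨b, D.self_cB _ _⟩
  have he5 : 0 ≤ N.eps4 + 8 * N.eps3 := by have := H.e3; have := H.e4; positivity
  have hrsc : (0 : ℝ) ≤ (rs D e (s + 1) x).card := Nat.cast_nonneg _
  have hMc : (1 - (N.eps4 + 8 * N.eps3)) * (rs D e (s + 1) x).card ≤ (mainB (KF' R.toRm e s x b c) r).card := by
    have h3 := H.e3
    have h4' := H.e4
    have k1 : (1 - N.eps4) * ((1 - 4 * N.eps3) * (rs D e (s + 1) x).card) ≤ (1 - N.eps4) * (KF' R.toRm e s x b c).card :=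
      mul_le_mul_of_nonneg_left a1 (by linarith)
    have k2 : (1 - (N.eps4 + 8 * N.eps3)) * (rs D e (s + 1) x).card ≤
        (1 - N.eps4) * ((1 - 4 * N.eps3) * (rs D e (s + 1) x).card) := by
      have : 0 ≤ (4 * N.eps3 + 4 * N.eps4 * N.eps3) * (rs D e (s + 1) x).card := by positivity
      nlinarith
    linarith
  have hoc : (1 - (N.eps4 + 8 * N.eps3)) * (rs D e (s + 1) x).card ≤ (hcl R s x b c).card := by
    have k1 := sz_hc Ts ht0 h.1
    have h4' := H.e4
    have k3 : R.hc e s x b c = hcl R s x b c := rfl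
    rw [k3] at k1
    have : 0 ≤ N.eps4 * (rs D e (s + 1) x).card := by positivity
    linarith
  have q2 : avg (D.cB (s + 1) b) (fun b' => ∑ F, law (vcl R s x b c) (fun x => kfc D e.t0 c x b') F *
        Real.log (law (fblk (KF' R.toRm e s x b c) r x) (fun x => kfc D e.t0 c x b') F /
        law (mainB (KF' R.toRm e s x b c) r) (fun x => kfc D e.t0 c x b') F)) ≤
      avg (D.cB (s + 1) b) (fun b' => klf (law (vcl R s x b c) fun y => D.kf s y b' c)
        (law (hcl R s x b c) fun y => D.kf s y b' c)) + (2 * (N.eps4 + 8 * N.eps3) + (N.eps4 + 8 * N.eps3) / al) := by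
    rw [← avg_const hBne (2 * (N.eps4 + 8 * N.eps3) + (N.eps4 + 8 * N.eps3) / al), ← avg_add]
    refine avg_mono fun b' _ => ?_
    have q3 := klf_fall (kon_f T hrsA b' c) ((mainB_subset _ r).trans hKrs) hMne he5 H.e5 hMc
      (hc_sub_rs ht0 x b c) hoc ((fblk_subset _ r x).trans hKrs) ⟨x, self_fblk hxK⟩ (vcl_sub R s x b c)
      ⟨x, self_vcl R s x b c⟩
    have q4 := klf_time_f T P ht0 (x := x) (S := vcl R s x b c) (V := hcl R s x b c)
      ((hcl_sub R s x b c).trans (R.U_sub s x b c)) (vcl_sub R s x b c) b' c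
    have q5 : klf (law (vcl R s x b c) fun y => kfc D e.t0 c y b') (law (R.hc e s x b c) fun y => kfc D e.t0 c y b') =
      klf (law (vcl R s x b c) fun y => D.kf e.t0 y b' c) (law (hcl R s x b c) fun y => D.kf e.t0 y b' c) := rfl
    rw [q5] at q3
    linarith
  have q6 : (2 * (N.eps4 + 8 * N.eps3) + (N.eps4 + 8 * N.eps3) / al) ≤ Lr / 2 / n := by
    rw [le_div_iff₀ H.n0, mul_comm]; exact H.num
  have q7 : ∀ z : ℝ, (z + Lr / 2) / n = (z + Lr) / n - Lr / 2 / n := fun z => by
    rw [← sub_div]; congr 1; ring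
  rw [q7]
  linarith

/-- **gain of a fall**, second rule -/
theorem pt_g [DecidableEq φ] {al : ℝ} (T : D.Thick al) (P : Proj D) (Ts : Tst R Up N) (C : Con R n Lr)
    (H : CNum N n Lr al) {s : ℕ} {x : X} {b : β} {c : γ} (h : gfall R s x b c) :
    (szg R s x b c + Lr / 2) / n ≤ avg (D.cC (s + 1) c) fun c' =>
      klf (law (vcl R s x b c) fun y => D.kg s y b c') (law (hcl R s x b c) fun y => D.kg s y b c') := by
  have ht0 := R.t0_le s x b c
  unfold szg
  set e := R.ep s x b c with he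
  have hr : rg R e s x b c = rem n Lr (kgb D e.t0 b) (D.cC (s + 1) c) (KG' R.toRm e s x b c) := by
    unfold rg
    exact C.pg e (s + 1) x b c _
  have hM : R.KG e (s + 1) x b c = mainB (KG' R.toRm e s x b c)
      (rem n Lr (kgb D e.t0 b) (D.cC (s + 1) c) (KG' R.toRm e s x b c)) := by
    ext y
    rw [mem_KGs ht0, mem_mainB, hr]
  obtain ⟨⟨a1, a2⟩, ⟨a3, a4⟩⟩ := sz_not Ts ht0 h.1
  have hxK : x ∈ KG' R.toRm e s x b c := hcl_sub_KG' (R.self_hc s x b c)
  have hx0 : rem n Lr (kgb D e.t0 b) (D.cC (s + 1) c) (KG' R.toRm e s x b c) x ≠ 0 := by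
    rw [← hr]; exact h.2.2
  have hS : (sdg R).pc e s x b c = fblk (KG' R.toRm e s x b c)
      (rem n Lr (kgb D e.t0 b) (D.cC (s + 1) c) (KG' R.toRm e s x b c)) x := by
    unfold Side.pc
    show fblk (KG' R.toRm e s x b c) (rg R e s x b c) x = _
    rw [hr]
  have hv := vcl_sub_g h
  rw [← he, hS] at hv
  rw [hM] at a4
  rw [hM, hS]
  set r := rem n Lr (kgb D e.t0 b) (D.cC (s + 1) c) (KG' R.toRm e s x b c) with hrd
  have hK'p : (0 : ℝ) < (KG' R.toRm e s x b c).card := by exact_mod_cast card_pos.2 ⟨x, hxK⟩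
  have h4 := half_le H
  have hMp : (0 : ℝ) < (mainB (KG' R.toRm e s x b c) r).card := by nlinarith
  have hMne : (mainB (KG' R.toRm e s x b c) r).Nonempty := by
    rw [← Finset.card_pos]; exact_mod_cast hMp
  have hKrs : KG' R.toRm e s x b c ⊆ rs D e (s + 1) x := KGh_sub_rs ht0 x b c
  have hrsA : rs D e (s + 1) x ⊆ D.cA e.t0 x := (rs_sub_cA e (s + 1) x).trans (D.cA_mono (by omega) x)
  have q1 := rem_fall (n := n) (Lr := Lr) (k := kgb D e.t0 b) (Bs := D.cC (s + 1) c) (K := KG' R.toRm e s x b c)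
    (fun c' _ => sup_g T (hKrs.trans hrsA) b c') H.n0 hMne hxK hx0 ⟨x, self_vcl R s x b c⟩ hv
  have hBne : (D.cC (s + 1) c).Nonempty := ⟨c, D.self_cC _ _⟩
  have he5 : 0 ≤ N.eps4 + 8 * N.eps3 := by have := H.e3; have := H.e4; positivity
  have hrsc : (0 : ℝ) ≤ (rs D e (s + 1) x).card := Nat.cast_nonneg _
  have hMc : (1 - (N.eps4 + 8 * N.eps3)) * (rs D e (s + 1) x).card ≤ (mainB (KG' R.toRm e s x b c) r).card := by
    have h3 := H.e3
    have h4' := H.e4
    have k1 : (1 - N.eps4) * ((1 - 4 * N.eps3) * (rs D e (s + 1) x).card) ≤ (1 - N.eps4) * (KG' R.toRm e s x b c).card :=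
      mul_le_mul_of_nonneg_left a2 (by linarith)
    have k2 : (1 - (N.eps4 + 8 * N.eps3)) * (rs D e (s + 1) x).card ≤
        (1 - N.eps4) * ((1 - 4 * N.eps3) * (rs D e (s + 1) x).card) := by
      have : 0 ≤ (4 * N.eps3 + 4 * N.eps4 * N.eps3) * (rs D e (s + 1) x).card := by positivity
      nlinarith
    linarith
  have hoc : (1 - (N.eps4 + 8 * N.eps3)) * (rs D e (s + 1) x).card ≤ (hcl R s x b c).card := by
    have k1 := sz_hc Ts ht0 h.1
    have h4' := H.e4
    have k3 : R.hc e s x b c = hcl R s x b c := rfl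
    rw [k3] at k1
    have : 0 ≤ N.eps4 * (rs D e (s + 1) x).card := by positivity
    linarith
  have q2 : avg (D.cC (s + 1) c) (fun c' => ∑ F, law (vcl R s x b c) (fun x => kgb D e.t0 b x c') F *
        Real.log (law (fblk (KG' R.toRm e s x b c) r x) (fun x => kgb D e.t0 b x c') F /
        law (mainB (KG' R.toRm e s x b c) r) (fun x => kgb D e.t0 b x c') F)) ≤
      avg (D.cC (s + 1) c) (fun c' => klf (law (vcl R s x b c) fun y => D.kg s y b c')
        (law (hcl R s x b c) fun y => D.kg s y b c')) + (2 * (N.eps4 + 8 * N.eps3) + (N.eps4 + 8 * N.eps3) / al) := by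
    rw [← avg_const hBne (2 * (N.eps4 + 8 * N.eps3) + (N.eps4 + 8 * N.eps3) / al), ← avg_add]
    refine avg_mono fun c' _ => ?_
    have q3 := klf_fall (kon_g T hrsA b c') ((mainB_subset _ r).trans hKrs) hMne he5 H.e5 hMc
      (hc_sub_rs ht0 x b c) hoc ((fblk_subset _ r x).trans hKrs) ⟨x, self_fblk hxK⟩ (vcl_sub R s x b c)
      ⟨x, self_vcl R s x b c⟩
    have q4 := klf_time_g T P ht0 (x := x) (S := vcl R s x b c) (V := hcl R s x b c)
      ((hcl_sub R s x b c).trans (R.U_sub s x b c)) (vcl_sub R s x b c) b c'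
    have q5 : klf (law (vcl R s x b c) fun y => kgb D e.t0 b y c') (law (R.hc e s x b c) fun y => kgb D e.t0 b y c') =
      klf (law (vcl R s x b c) fun y => D.kg e.t0 y b c') (law (hcl R s x b c) fun y => D.kg e.t0 y b c') := rfl
    rw [q5] at q3
    linarith
  have q6 : (2 * (N.eps4 + 8 * N.eps3) + (N.eps4 + 8 * N.eps3) / al) ≤ Lr / 2 / n := by
    rw [le_div_iff₀ H.n0, mul_comm]; exact H.num
  have q7 : ∀ z : ℝ, (z + Lr / 2) / n = (z + Lr) / n - Lr / 2 / n := fun z => by
    rw [← sub_div]; congr 1; ring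
  rw [q7]
  linarith

/-! ## (F1): the sums -/

theorem cells_same {s : ℕ} {x : X} {b b' : β} {c c' : γ} (hS : D.Same (s + 1) x b c x b' c') :
    vcl R s x b' c' = vcl R s x b c ∧ hcl R s x b' c' = hcl R s x b c ∧ R.ep s x b' c' = R.ep s x b c :=
  ⟨vcl_pub R hS (self_vcl R s x b c), hcl_pub R s hS (R.self_U s x b c),
    (R.pub s (hS.le (Nat.le_succ s)) (R.self_U s x b c)).1⟩

theorem Hf_sub_vcl {al : ℝ} (T : D.Thick al) (s : ℕ) :
    E3 (gcf R s) ≤ Hf D s (hcl R s) - Hf D s (R.U (s + 1)) := by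
  have h1 := HH_sub (k := D.kf s) (fun x b c F => T.f_nn s x b c F) (hcl_pv R s) (vcl_pv R s) (vcl_sub R s)
  have h2 := HH_mono (k := D.kf s) (fun x b c F => T.f_nn s x b c F) (fun x b c => T.f_one s x b c)
    (vcl_pv R s) (U_pv R (s + 1)) (U_sub_vcl R s)
  rw [Hf_eq, Hf_eq]
  have h3 : E3 (gcf R s) = E3 fun x b c =>
    klf (law (vcl R s x b c) fun y => D.kf s y b c) (law (hcl R s x b c) fun y => D.kf s y b c) := rfl
  rw [h3, ← h1]
  linarith

theorem Hg_sub_vcl {al : ℝ} (T : D.Thick al) (s : ℕ) :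
    E3 (gcg R s) ≤ Hg D s (hcl R s) - Hg D s (R.U (s + 1)) := by
  have h1 := HH_sub (k := D.kg s) (fun x b c F => T.g_nn s x b c F) (hcl_pv R s) (vcl_pv R s) (vcl_sub R s)
  have h2 := HH_mono (k := D.kg s) (fun x b c F => T.g_nn s x b c F) (fun x b c => T.g_one s x b c)
    (vcl_pv R s) (U_pv R (s + 1)) (U_sub_vcl R s)
  rw [Hg_eq, Hg_eq]
  have h3 : E3 (gcg R s) = E3 fun x b c =>
    klf (law (vcl R s x b c) fun y => D.kg s y b c) (law (hcl R s x b c) fun y => D.kg s y b c) := rfl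
  rw [h3, ← h1]
  linarith

theorem avg_nonneg {α : Type*} {S : Finset α} {f : α → ℝ} (h : ∀ a ∈ S, 0 ≤ f a) : 0 ≤ avg S f :=
  div_nonneg (Finset.sum_nonneg h) (Nat.cast_nonneg _)

theorem cost_f_step [DecidableEq φ] {al : ℝ} (T : D.Thick al) (P : Proj D) (Ts : Tst R Up N) (C : Con R n Lr)
    (H : CNum N n Lr al) (s : ℕ) :
    E3 (fun x b c => ind (ffall R s x b c) * (szf R s x b c + Lr / 2)) ≤
      n * (Hf D s (hcl R s) - Hf D s (R.U (s + 1))) := by
  refine le_trans ?_ (mul_le_mul_of_nonneg_left (Hf_sub_vcl T s) H.n0.le)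
  rw [E3_cellB D (s + 1) (gcf R s), ← E3_smul]
  refine E3_mono fun x b c => ?_
  have e1 : avg (D.cB (s + 1) b) (fun b' => gcf R s x b' c) = avg (D.cB (s + 1) b) fun b' =>
      klf (law (vcl R s x b c) fun y => D.kf s y b' c) (law (hcl R s x b c) fun y => D.kf s y b' c) := by
    unfold avg
    congr 1
    refine Finset.sum_congr rfl fun b' hb' => ?_
    obtain ⟨h1, h2, -⟩ := cells_same (R := R) (s := s) (x := x) (b := b) (b' := b') (c := c) (c' := c)
      ⟨rfl, (D.mem_cB.1 hb').symm, rfl⟩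
    simp only [gcf, h1, h2]
  by_cases h : ffall R s x b c
  · rw [ind_of h, one_mul, e1]
    have h1 := pt_f T P Ts C H h
    rwa [div_le_iff₀ H.n0, mul_comm] at h1
  · rw [ind_not h, zero_mul]
    exact mul_nonneg H.n0.le (avg_nonneg fun b' _ => gcf_nonneg T s x b' c)

theorem cost_g_step [DecidableEq φ] {al : ℝ} (T : D.Thick al) (P : Proj D) (Ts : Tst R Up N) (C : Con R n Lr)
    (H : CNum N n Lr al) (s : ℕ) :
    E3 (fun x b c => ind (gfall R s x b c) * (szg R s x b c + Lr / 2)) ≤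
      n * (Hg D s (hcl R s) - Hg D s (R.U (s + 1))) := by
  refine le_trans ?_ (mul_le_mul_of_nonneg_left (Hg_sub_vcl T s) H.n0.le)
  rw [E3_cellC D (s + 1) (gcg R s), ← E3_smul]
  refine E3_mono fun x b c => ?_
  have e1 : avg (D.cC (s + 1) c) (fun c' => gcg R s x b c') = avg (D.cC (s + 1) c) fun c' =>
      klf (law (vcl R s x b c) fun y => D.kg s y b c') (law (hcl R s x b c) fun y => D.kg s y b c') := by
    unfold avg
    congr 1
    refine Finset.sum_congr rfl fun c' hc' => ?_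
    obtain ⟨h1, h2, -⟩ := cells_same (R := R) (s := s) (x := x) (b := b) (b' := b) (c := c) (c' := c')
      ⟨rfl, rfl, (D.mem_cC.1 hc').symm⟩
    simp only [gcg, h1, h2]
  by_cases h : gfall R s x b c
  · rw [ind_of h, one_mul, e1]
    have h1 := pt_g T P Ts C H h
    rwa [div_le_iff₀ H.n0, mul_comm] at h1
  · rw [ind_not h, zero_mul]
    exact mul_nonneg H.n0.le (avg_nonneg fun c' _ => gcg_nonneg T s x b c')

/-- budget of the gains of the partition step, old labels -/
theorem bud_part_f {al Lam : ℝ} {K : ℕ} (T : D.Thick al) (hB : Birth D K Lam) :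
    ∑ s ∈ range K, (Hf D s (hcl R s) - Hf D s (R.U (s + 1))) ≤ Lam := by
  refine le_trans (Finset.sum_le_sum fun s _ => ?_) (bud_f R T hB)
  have h1 : Hf D s (hcl R s) ≤ Hf D s (R.U s) :=
    HH_mono (fun x b c F => T.f_nn s x b c F) (fun x b c => T.f_one s x b c) (U_pv R s) (hcl_pv R s)
      (fun x b c => hcl_sub R s x b c)
  linarith

theorem bud_part_g {al Lam : ℝ} {K : ℕ} (T : D.Thick al) (hB : Birth D K Lam) :
    ∑ s ∈ range K, (Hg D s (hcl R s) - Hg D s (R.U (s + 1))) ≤ Lam := by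
  refine le_trans (Finset.sum_le_sum fun s _ => ?_) (bud_g R T hB)
  have h1 : Hg D s (hcl R s) ≤ Hg D s (R.U s) :=
    HH_mono (fun x b c F => T.g_nn s x b c F) (fun x b c => T.g_one s x b c) (U_pv R s) (hcl_pv R s)
      (fun x b c => hcl_sub R s x b c)
  linarith

/-- **(F1) first rule** -/
theorem cost_f [DecidableEq φ] {al Lam : ℝ} {K : ℕ} (T : D.Thick al) (P : Proj D) (Ts : Tst R Up N) (C : Con R n Lr)
    (H : CNum N n Lr al) (hB : Birth D K Lam) :
    ∑ s ∈ range K, E3 (fun x b c => ind (ffall R s x b c) * (szf R s x b c + Lr / 2)) ≤ n * Lam := by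
  refine (Finset.sum_le_sum fun s _ => cost_f_step T P Ts C H s).trans ?_
  rw [← Finset.mul_sum]
  exact mul_le_mul_of_nonneg_left (bud_part_f T hB) H.n0.le

/-- **(F1) second rule** -/
theorem cost_g [DecidableEq φ] {al Lam : ℝ} {K : ℕ} (T : D.Thick al) (P : Proj D) (Ts : Tst R Up N) (C : Con R n Lr)
    (H : CNum N n Lr al) (hB : Birth D K Lam) :
    ∑ s ∈ range K, E3 (fun x b c => ind (gfall R s x b c) * (szg R s x b c + Lr / 2)) ≤ n * Lam := by
  refine (Finset.sum_le_sum fun s _ => cost_g_step T P Ts C H s).trans ?_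
  rw [← Finset.mul_sum]
  exact mul_le_mul_of_nonneg_left (bud_part_g T hB) H.n0.le

/-- the main block is larger than the piece -/
theorem szf_nonneg (Ts : Tst R Up N) (h4 : N.eps4 ≤ 1 / 2) {s : ℕ} {x : X} {b : β} {c : γ} (h : ffall R s x b c) :
    0 ≤ szf R s x b c := by
  classical
  have ht0 := R.t0_le s x b c
  obtain ⟨-, a3, -⟩ := sz_not Ts ht0 h.1
  unfold szf
  refine Real.log_nonneg ?_
  have hp : (0 : ℝ) < ((sdf R).pc (R.ep s x b c) s x b c).card := by
    exact_mod_cast card_pos.2 ⟨x, (sdf R).self_pc (ffall_lv h)⟩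
  rw [le_div_iff₀ hp, one_mul]
  have h1 : Disjoint ((sdf R).pc (R.ep s x b c) s x b c) (R.KF (R.ep s x b c) (s + 1) x b c) := by
    rw [Finset.disjoint_left]
    intro y hy hy'
    have h2 := ((mem_KFs ht0).1 hy').2
    have h3 : rf R (R.ep s x b c) s x b c y = rf R (R.ep s x b c) s x b c x := (mem_fblk.1 hy).2
    rw [h2] at h3
    exact h.2 h3.symm
  have h2 : ((sdf R).pc (R.ep s x b c) s x b c) ∪ (R.KF (R.ep s x b c) (s + 1) x b c) ⊆
      KF' R.toRm (R.ep s x b c) s x b c := by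
    refine Finset.union_subset (fblk_subset _ _ _) fun y hy => ((mem_KFs ht0).1 hy).1
  have h3 := Finset.card_le_card h2
  rw [Finset.card_union_of_disjoint h1] at h3
  have h5 : (((sdf R).pc (R.ep s x b c) s x b c).card : ℝ) + (R.KF (R.ep s x b c) (s + 1) x b c).card ≤
      (KF' R.toRm (R.ep s x b c) s x b c).card := by exact_mod_cast h3
  have h6 : (0 : ℝ) ≤ (KF' R.toRm (R.ep s x b c) s x b c).card := Nat.cast_nonneg _
  nlinarith

theorem szg_nonneg (Ts : Tst R Up N) (h4 : N.eps4 ≤ 1 / 2) {s : ℕ} {x : X} {b : β} {c : γ} (h : gfall R s x b c) :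
    0 ≤ szg R s x b c := by
  classical
  have ht0 := R.t0_le s x b c
  obtain ⟨-, -, a3⟩ := sz_not Ts ht0 h.1
  unfold szg
  refine Real.log_nonneg ?_
  have hp : (0 : ℝ) < ((sdg R).pc (R.ep s x b c) s x b c).card := by
    exact_mod_cast card_pos.2 ⟨x, (sdg R).self_pc (gfall_lv h)⟩
  rw [le_div_iff₀ hp, one_mul]
  have h1 : Disjoint ((sdg R).pc (R.ep s x b c) s x b c) (R.KG (R.ep s x b c) (s + 1) x b c) := by
    rw [Finset.disjoint_left]
    intro y hy hy'
    have h2 := ((mem_KGs ht0).1 hy').2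
    have h3 : rg R (R.ep s x b c) s x b c y = rg R (R.ep s x b c) s x b c x := (mem_fblk.1 hy).2
    rw [h2] at h3
    exact h.2.2 h3.symm
  have h2 : ((sdg R).pc (R.ep s x b c) s x b c) ∪ (R.KG (R.ep s x b c) (s + 1) x b c) ⊆
      KG' R.toRm (R.ep s x b c) s x b c := by
    refine Finset.union_subset (fblk_subset _ _ _) fun y hy => ((mem_KGs ht0).1 hy).1
  have h3 := Finset.card_le_card h2
  rw [Finset.card_union_of_disjoint h1] at h3
  have h5 : (((sdg R).pc (R.ep s x b c) s x b c).card : ℝ) + (R.KG (R.ep s x b c) (s + 1) x b c).card ≤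
      (KG' R.toRm (R.ep s x b c) s x b c).card := by exact_mod_cast h3
  have h6 : (0 : ℝ) ≤ (KG' R.toRm (R.ep s x b c) s x b c).card := Nat.cast_nonneg _
  nlinarith

/-- number of falls by the first rule, by the second rule -/
def nff (R : Rl D) (K : ℕ) : ℝ := ∑ s ∈ range K, E3 fun x b c => ind (ffall R s x b c)

def nfg (R : Rl D) (K : ℕ) : ℝ := ∑ s ∈ range K, E3 fun x b c => ind (gfall R s x b c)

theorem nfall_eq (K : ℕ) : nfall R K = nff R K + nfg R K := by
  unfold nfall nff nfg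
  rw [← Finset.sum_add_distrib]
  refine Finset.sum_congr rfl fun s _ => ?_
  rw [← E3_add]
  simp only [ind_fall]

/-- (F1) with the number of falls separated -/
theorem cost_f' [DecidableEq φ] {al Lam : ℝ} {K : ℕ} (T : D.Thick al) (P : Proj D) (Ts : Tst R Up N)
    (C : Con R n Lr) (H : CNum N n Lr al) (hB : Birth D K Lam) :
    ∑ s ∈ range K, E3 (fun x b c => ind (ffall R s x b c) * szf R s x b c) + Lr / 2 * nff R K ≤ n * Lam := by
  refine le_trans (le_of_eq ?_) (cost_f T P Ts C H hB)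
  unfold nff
  rw [Finset.mul_sum, ← Finset.sum_add_distrib]
  refine Finset.sum_congr rfl fun s _ => ?_
  rw [← E3_smul, ← E3_add]
  congr 1
  funext x b c
  ring

theorem cost_g' [DecidableEq φ] {al Lam : ℝ} {K : ℕ} (T : D.Thick al) (P : Proj D) (Ts : Tst R Up N)
    (C : Con R n Lr) (H : CNum N n Lr al) (hB : Birth D K Lam) :
    ∑ s ∈ range K, E3 (fun x b c => ind (gfall R s x b c) * szg R s x b c) + Lr / 2 * nfg R K ≤ n * Lam := by
  refine le_trans (le_of_eq ?_) (cost_g T P Ts C H hB)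
  unfold nfg
  rw [Finset.mul_sum, ← Finset.sum_add_distrib]
  refine Finset.sum_congr rfl fun s _ => ?_
  rw [← E3_smul, ← E3_add]
  congr 1
  funext x b c
  ring

/-- **the number of falls** -/
theorem nfall_le [DecidableEq φ] {al Lam : ℝ} {K : ℕ} (T : D.Thick al) (P : Proj D) (Ts : Tst R Up N)
    (C : Con R n Lr) (H : CNum N n Lr al) (hB : Birth D K Lam) : Lr * nfall R K ≤ 4 * n * Lam := by
  have h1 := cost_f' T P Ts C H hB
  have h2 := cost_g' T P Ts C H hB
  have h3 : 0 ≤ ∑ s ∈ range K, E3 (fun x b c => ind (ffall R s x b c) * szf R s x b c) := by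
    refine Finset.sum_nonneg fun s _ => E3_nonneg fun x b c => ?_
    by_cases h : ffall R s x b c
    · exact mul_nonneg (ind_nonneg _) (szf_nonneg Ts (half_le H) h)
    · rw [ind_not h, zero_mul]
  have h4 : 0 ≤ ∑ s ∈ range K, E3 (fun x b c => ind (gfall R s x b c) * szg R s x b c) := by
    refine Finset.sum_nonneg fun s _ => E3_nonneg fun x b c => ?_
    by_cases h : gfall R s x b c
    · exact mul_nonneg (ind_nonneg _) (szg_nonneg Ts (half_le H) h)
    · rw [ind_not h, zero_mul]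
  rw [nfall_eq]
  linarith

/-! ## (F3): bits of the complete split -/

theorem nw_pub {s : ℕ} {x x' : X} {b b' : β} {c c' : γ} (hS : D.Same (s + 1) x b c x' b' c')
    (hx : x' ∈ vcl R s x b c) :
    (R.nw (R.ep s x' b' c') s x' b' c' ↔ R.nw (R.ep s x b c) s x b c) := by
  have ht0 := R.t0_le s x b c
  have he := ep_of_hcl R hS (vcl_sub R s x b c hx)
  rw [he]
  have hth := R.th_q (R.ep s x b c) (s + 1) x b c x' b' c' (ht0.trans (Nat.le_succ s)) hS
  have hts := R.ts_q (R.ep s x b c) (s + 1) x b c x' b' c' (ht0.trans (Nat.le_succ s)) hS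
  have hom := R.om_inv (ht0.trans (Nat.le_succ s)) hS
  unfold Rl.nw
  rw [← hth, ← hts, ← hom]
  by_cases hnt : R.th (R.ep s x b c) (s + 1) x b c
  · simp [hnt]
  · have hc : R.code (R.ep s x b c) s x b c x' = R.code (R.ep s x b c) s x b c x := by
      rcases (R.mem_vc.1 hx).2 with h | h
      · exact absurd h hnt
      · exact h
    have hmem : x' ∈ R.om (R.ep s x b c) (s + 1) x b c ↔ x ∈ R.om (R.ep s x b c) (s + 1) x b c := by
      rw [R.code_eq_main ht0 (vcl_sub R s x b c hx), R.code_eq_main ht0 (R.self_hc s x b c), hc]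
    rw [hmem]

theorem U_fblk {s : ℕ} {x x' : X} {b b' : β} {c c' : γ} (hS : D.Same (s + 1) x b c x' b' c')
    (hx : x' ∈ vcl R s x b c) (hn : R.nw (R.ep s x b c) s x b c) :
    R.U (s + 1) x' b' c' = fblk (vcl R s x b c) (R.sp (s + 1) x b c (vcl R s x b c)) x' := by
  rw [U_of_nw R ((nw_pub hS hx).2 hn), vcl_pub R hS hx]
  ext y
  rw [R.mem_fin, mem_fblk, R.sp_q (s + 1) x b c x' b' c' _ hS]

theorem log_self {S : Finset X} (h : S.Nonempty) : Real.log ((S.card : ℝ) / S.card) = 0 := by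
  have : (0 : ℝ) < S.card := by exact_mod_cast h.card_pos
  rw [div_self this.ne', Real.log_one]

private theorem avg_congrC {α : Type*} {S : Finset α} {f g : α → ℝ} (h : ∀ a ∈ S, f a = g a) : avg S f = avg S g := by
  unfold avg
  rw [Finset.sum_congr rfl h]

/-- bits of the complete split at the step from `s` to `s+1` -/
theorem cost_split {al : ℝ} (T : D.Thick al) (C : Con R n Lr) (hn : 0 ≤ n) (s : ℕ) :
    E3 (fun x b c => Real.log (((vcl R s x b c).card : ℝ) / (R.U (s + 1) x b c).card)) ≤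
      n * ((Hf D (s + 1) (hcl R s) - Hf D (s + 1) (R.U (s + 1))) +
        (Hg D (s + 1) (hcl R s) - Hg D (s + 1) (R.U (s + 1)))) := by
  set Bf : X → β → γ → ℝ := fun x b c => klf (law (R.U (s + 1) x b c) fun y => D.kf (s + 1) y b c)
    (law (vcl R s x b c) fun y => D.kf (s + 1) y b c) with hBf
  set Bg : X → β → γ → ℝ := fun x b c => klf (law (R.U (s + 1) x b c) fun y => D.kg (s + 1) y b c)
    (law (vcl R s x b c) fun y => D.kg (s + 1) y b c) with hBg
  have hf1 : E3 Bf ≤ Hf D (s + 1) (hcl R s) - Hf D (s + 1) (R.U (s + 1)) := by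
    have h1 := HH_sub (k := D.kf (s + 1)) (fun x b c F => T.f_nn (s + 1) x b c F) (vcl_pv R s) (U_pv R (s + 1))
      (U_sub_vcl R s)
    have h2 := HH_mono (k := D.kf (s + 1)) (fun x b c F => T.f_nn (s + 1) x b c F)
      (fun x b c => T.f_one (s + 1) x b c) (hcl_pv R s) (vcl_pv R s) (vcl_sub R s)
    rw [Hf_eq, Hf_eq]
    have h3 : E3 Bf = HH (D.kf (s + 1)) (vcl R s) - HH (D.kf (s + 1)) (R.U (s + 1)) := h1.symm
    linarith
  have hg1 : E3 Bg ≤ Hg D (s + 1) (hcl R s) - Hg D (s + 1) (R.U (s + 1)) := by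
    have h1 := HH_sub (k := D.kg (s + 1)) (fun x b c F => T.g_nn (s + 1) x b c F) (vcl_pv R s) (U_pv R (s + 1))
      (U_sub_vcl R s)
    have h2 := HH_mono (k := D.kg (s + 1)) (fun x b c F => T.g_nn (s + 1) x b c F)
      (fun x b c => T.g_one (s + 1) x b c) (hcl_pv R s) (vcl_pv R s) (vcl_sub R s)
    rw [Hg_eq, Hg_eq]
    have h3 : E3 Bg = HH (D.kg (s + 1)) (vcl R s) - HH (D.kg (s + 1)) (R.U (s + 1)) := h1.symm
    linarith
  have key : E3 (fun x b c => Real.log (((vcl R s x b c).card : ℝ) / (R.U (s + 1) x b c).card)) ≤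
      n * E3 (fun x b c => Bf x b c + Bg x b c) := by
    rw [E3_pub D (s + 1) (s + 1) (vcl_pv R s), E3_pub D (s + 1) (s + 1) (vcl_pv R s)
      (fun x b c => Bf x b c + Bg x b c), ← E3_smul]
    refine E3_mono fun x b c => ?_
    have hVne : (vcl R s x b c).Nonempty := ⟨x, self_vcl R s x b c⟩
    have hBne : (D.cB (s + 1) b).Nonempty := ⟨b, D.self_cB _ _⟩
    have hCne : (D.cC (s + 1) c).Nonempty := ⟨c, D.self_cC _ _⟩
    have hVc : (0 : ℝ) < (vcl R s x b c).card := by exact_mod_cast hVne.card_pos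
    have hsame : ∀ x' ∈ vcl R s x b c, ∀ b' ∈ D.cB (s + 1) b, ∀ c' ∈ D.cC (s + 1) c,
        D.Same (s + 1) x b c x' b' c' := fun x' hx' b' hb' c' hc' =>
      ⟨(hcl_same R (vcl_sub R s x b c hx')).1, (D.mem_cB.1 hb').symm, (D.mem_cC.1 hc').symm⟩
    by_cases hw : R.nw (R.ep s x b c) s x b c
    · set V := vcl R s x b c with hV
      set r := R.sp (s + 1) x b c V with hr
      have hU : ∀ x' ∈ V, ∀ b' ∈ D.cB (s + 1) b, ∀ c' ∈ D.cC (s + 1) c,
          R.U (s + 1) x' b' c' = fblk V r x' ∧ vcl R s x' b' c' = V := fun x' hx' b' hb' c' hc' =>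
        ⟨U_fblk (hsame x' hx' b' hb' c' hc') hx' hw, vcl_pub R (hsame x' hx' b' hb' c' hc') hx'⟩
      have e1 : avg V (fun x' => avg (D.cB (s + 1) b) fun b' => avg (D.cC (s + 1) c) fun c' =>
          Real.log (((vcl R s x' b' c').card : ℝ) / (R.U (s + 1) x' b' c').card)) = entN V r / V.card := by
        unfold entN
        rw [show (∑ x ∈ V, Real.log ((V.card : ℝ) / (fblk V r x).card)) / (V.card : ℝ) =
          avg V (fun x' => Real.log ((V.card : ℝ) / (fblk V r x').card)) from rfl]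
        refine avg_congrC fun x' hx' => ?_
        rw [← avg_const hBne (Real.log ((V.card : ℝ) / (fblk V r x').card))]
        refine avg_congrC fun b' hb' => ?_
        rw [← avg_const hCne (Real.log ((V.card : ℝ) / (fblk V r x').card))]
        refine avg_congrC fun c' hc' => ?_
        obtain ⟨h1, h2⟩ := hU x' hx' b' hb' c' hc'
        rw [h1, h2]
      have e2 : avg V (fun x' => avg (D.cB (s + 1) b) fun b' => avg (D.cC (s + 1) c) fun c' =>
          (Bf x' b' c' + Bg x' b' c')) =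
          (avg (D.cB (s + 1) b) (fun b' => infoN (fun y => kfc D (s + 1) c y b') V r) +
            avg (D.cC (s + 1) c) (fun c' => infoN (fun y => kgb D (s + 1) b y c') V r)) / V.card := by
        have e3 : ∀ x' ∈ V, (avg (D.cB (s + 1) b) fun b' => avg (D.cC (s + 1) c) fun c' =>
            (Bf x' b' c' + Bg x' b' c')) =
            avg (D.cB (s + 1) b) (fun b' => klf (law (fblk V r x') fun y => kfc D (s + 1) c y b')
              (law V fun y => kfc D (s + 1) c y b')) +
            avg (D.cC (s + 1) c) (fun c' => klf (law (fblk V r x') fun y => kgb D (s + 1) b y c')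
              (law V fun y => kgb D (s + 1) b y c')) := by
          intro x' hx'
          rw [← avg_const hBne (avg (D.cC (s + 1) c) (fun c' => klf (law (fblk V r x') fun y => kgb D (s + 1) b y c')
              (law V fun y => kgb D (s + 1) b y c'))), ← avg_add]
          refine avg_congrC fun b' hb' => ?_
          rw [← avg_const hCne (klf (law (fblk V r x') fun y => kfc D (s + 1) c y b')
              (law V fun y => kfc D (s + 1) c y b')), ← avg_add]
          refine avg_congrC fun c' hc' => ?_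
          obtain ⟨h1, h2⟩ := hU x' hx' b' hb' c' hc'
          have h3 : (fun y => D.kf (s + 1) y b' c') = fun y => kfc D (s + 1) c y b' := by
            funext y
            exact D.kf_c (s + 1) y b' c' c (D.mem_cC.1 hc')
          have h4 : (fun y => D.kg (s + 1) y b' c') = fun y => kgb D (s + 1) b y c' := by
            funext y
            exact D.kg_b (s + 1) y b' b c' (D.mem_cB.1 hb')
          simp only [hBf, hBg, h1, h2, h3, h4]
        rw [avg_congrC e3, avg_add]
        have e4 : ∀ (g : X → β → ℝ), avg V (fun x' => avg (D.cB (s + 1) b) fun b' => g x' b') =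
            avg (D.cB (s + 1) b) (fun b' => ∑ x' ∈ V, g x' b') / V.card := by
          intro g
          unfold avg
          rw [← Finset.sum_div, Finset.sum_comm]
        have e5 : ∀ (g : X → γ → ℝ), avg V (fun x' => avg (D.cC (s + 1) c) fun c' => g x' c') =
            avg (D.cC (s + 1) c) (fun c' => ∑ x' ∈ V, g x' c') / V.card := by
          intro g
          unfold avg
          rw [← Finset.sum_div, Finset.sum_comm]
        rw [e4, e5, add_div]
        simp only [infoN_eq]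
      rw [e1, e2]
      have g1 := csp_gain2_nn (n := n) (K := V) (Bs := D.cB (s + 1) b) (Cs := D.cC (s + 1) c)
        (kf := kfc D (s + 1) c) (kg := kgb D (s + 1) b)
        (fun y _ b' _ F => T.f_nn (s + 1) y b' c F) (fun y _ c' _ F => T.g_nn (s + 1) y b c' F)
      rw [← csp_gain2N] at g1
      have hrr : r = cspN n (kfc D (s + 1) c) (D.cB (s + 1) b) (kgb D (s + 1) b) (D.cC (s + 1) c) V := by
        rw [hr]; exact C.sp (s + 1) x b c V
      rw [← hrr] at g1
      unfold gain2 at g1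
      rw [← mul_div_assoc, div_le_div_iff_of_pos_right hVc]
      linarith
    · have e1 : avg (vcl R s x b c) (fun x' => avg (D.cB (s + 1) b) fun b' => avg (D.cC (s + 1) c) fun c' =>
          Real.log (((vcl R s x' b' c').card : ℝ) / (R.U (s + 1) x' b' c').card)) = 0 := by
        rw [← avg_const hVne (0 : ℝ)]
        refine avg_congrC fun x' hx' => ?_
        rw [← avg_const hBne (0 : ℝ)]
        refine avg_congrC fun b' hb' => ?_
        rw [← avg_const hCne (0 : ℝ)]
        refine avg_congrC fun c' hc' => ?_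
        have h1 : ¬ R.nw (R.ep s x' b' c') s x' b' c' := fun h =>
          hw ((nw_pub (hsame x' hx' b' hb' c' hc') hx').1 h)
        rw [U_of_keep R h1]
        exact log_self ⟨x', self_vcl R s x' b' c'⟩
      rw [e1]
      refine mul_nonneg hn (avg_nonneg fun x' _ => avg_nonneg fun b' _ => avg_nonneg fun c' _ => ?_)
      have h1 : 0 ≤ Bf x' b' c' := bd_klf_law_nonneg (fun y F => T.f_nn (s + 1) y b' c' F)
        (fun y => T.f_one (s + 1) y b' c') ⟨x', R.self_U (s + 1) x' b' c'⟩ (U_sub_vcl R s x' b' c')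
      have h2 : 0 ≤ Bg x' b' c' := bd_klf_law_nonneg (fun y F => T.g_nn (s + 1) y b' c' F)
        (fun y => T.g_one (s + 1) y b' c') ⟨x', R.self_U (s + 1) x' b' c'⟩ (U_sub_vcl R s x' b' c')
      exact add_nonneg h1 h2
  refine key.trans (mul_le_mul_of_nonneg_left ?_ hn)
  rw [E3_add]
  exact add_le_add hf1 hg1

/-! ## (F3): bits of the falls -/

/-- bits of the coarse cell -/
def hv (R : Rl D) (s : ℕ) (x : X) (b : β) (c : γ) : ℝ :=
  Real.log (((hcl R s x b c).card : ℝ) / (vcl R s x b c).card)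

/-- the point survives: no test at the half step, no fall -/
def srv (R : Rl D) (s : ℕ) (x : X) (b : β) (c : γ) : Prop :=
  ¬ R.th (R.ep s x b c) (s + 1) x b c ∧ x ∈ R.om (R.ep s x b c) (s + 1) x b c

theorem vcl_th {s : ℕ} {x : X} {b : β} {c : γ} (h : R.th (R.ep s x b c) (s + 1) x b c) :
    vcl R s x b c = hcl R s x b c := by
  ext y
  unfold vcl hcl
  rw [R.mem_vc]
  exact ⟨fun h' => h'.1, fun h' => ⟨h', Or.inl h⟩⟩

/-- the loss of the main block -/
theorem log_main {e4 K M : ℝ} (h0 : 0 ≤ e4) (h4 : e4 ≤ 1 / 2) (hK : 0 < K) (hM : 0 < M) (h : (1 - e4) * K ≤ M) :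
    Real.log (K / M) ≤ 2 * e4 := by
  have h1 := Real.log_le_sub_one_of_pos (div_pos hK hM)
  have h2 : K / M ≤ 1 + 2 * e4 := by
    rw [div_le_iff₀ hM]
    have h3 : (1 + 2 * e4) * ((1 - e4) * K) ≤ (1 + 2 * e4) * M := mul_le_mul_of_nonneg_left h (by linarith)
    have h5 : (1 + 2 * e4) * (1 - e4) = 1 + e4 * (1 - 2 * e4) := by ring
    have h6 : 0 ≤ e4 * (1 - 2 * e4) * K := mul_nonneg (mul_nonneg h0 (by linarith)) hK.le
    nlinarith
  linarith

theorem log_three {H Mm S v : ℝ} (hH : 0 < H) (hM : 0 < Mm) (hS : 0 < S) (hv : 0 < v) :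
    Real.log (H / v) = Real.log (H / Mm) + Real.log (Mm / S) + Real.log (S / v) := by
  rw [Real.log_div hH.ne' hv.ne', Real.log_div hH.ne' hM.ne', Real.log_div hM.ne' hS.ne',
    Real.log_div hS.ne' hv.ne']
  ring

/-- bits of a fall, first rule -/
theorem hv_f (Ts : Tst R Up N) (h0 : 0 ≤ N.eps4) (h4 : N.eps4 ≤ 1 / 2) {s : ℕ} {x : X} {b : β} {c : γ}
    (h : ffall R s x b c) :
    hv R s x b c ≤ 2 * N.eps4 + szf R s x b c +
      Real.log ((((sdf R).pc (R.ep s x b c) s x b c).card : ℝ) / (vcl R s x b c).card) := by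
  obtain ⟨-, a3, -⟩ := sz_not Ts (R.t0_le s x b c) h.1
  have pH : (0 : ℝ) < (hcl R s x b c).card := by exact_mod_cast card_pos.2 ⟨x, R.self_hc s x b c⟩
  have pv : (0 : ℝ) < (vcl R s x b c).card := by exact_mod_cast card_pos.2 ⟨x, self_vcl R s x b c⟩
  have pS : (0 : ℝ) < ((sdf R).pc (R.ep s x b c) s x b c).card := by
    exact_mod_cast card_pos.2 ⟨x, (sdf R).self_pc (ffall_lv h)⟩
  have hHK : ((hcl R s x b c).card : ℝ) ≤ (KF' R.toRm (R.ep s x b c) s x b c).card := by
    exact_mod_cast card_le_card (hcl_sub_KF' (R := R) (s := s) (x := x) (b := b) (c := c))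
  have pM : (0 : ℝ) < (R.KF (R.ep s x b c) (s + 1) x b c).card := by nlinarith
  have h1 : (1 - N.eps4) * ((hcl R s x b c).card : ℝ) ≤ (R.KF (R.ep s x b c) (s + 1) x b c).card :=
    (mul_le_mul_of_nonneg_left hHK (by linarith)).trans a3
  have h2 := log_main h0 h4 pH pM h1
  unfold hv szf
  rw [log_three pH pM pS pv]
  linarith

/-- bits of a fall, second rule -/
theorem hv_g (Ts : Tst R Up N) (h0 : 0 ≤ N.eps4) (h4 : N.eps4 ≤ 1 / 2) {s : ℕ} {x : X} {b : β} {c : γ}
    (h : gfall R s x b c) :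
    hv R s x b c ≤ 2 * N.eps4 + szg R s x b c +
      Real.log ((((sdg R).pc (R.ep s x b c) s x b c).card : ℝ) / (vcl R s x b c).card) := by
  obtain ⟨-, -, a3⟩ := sz_not Ts (R.t0_le s x b c) h.1
  have pH : (0 : ℝ) < (hcl R s x b c).card := by exact_mod_cast card_pos.2 ⟨x, R.self_hc s x b c⟩
  have pv : (0 : ℝ) < (vcl R s x b c).card := by exact_mod_cast card_pos.2 ⟨x, self_vcl R s x b c⟩
  have pS : (0 : ℝ) < ((sdg R).pc (R.ep s x b c) s x b c).card := by
    exact_mod_cast card_pos.2 ⟨x, (sdg R).self_pc (gfall_lv h)⟩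
  have hHK : ((hcl R s x b c).card : ℝ) ≤ (KG' R.toRm (R.ep s x b c) s x b c).card := by
    exact_mod_cast card_le_card (hcl_sub_KG' (R := R) (s := s) (x := x) (b := b) (c := c))
  have pM : (0 : ℝ) < (R.KG (R.ep s x b c) (s + 1) x b c).card := by nlinarith
  have h1 : (1 - N.eps4) * ((hcl R s x b c).card : ℝ) ≤ (R.KG (R.ep s x b c) (s + 1) x b c).card :=
    (mul_le_mul_of_nonneg_left hHK (by linarith)).trans a3
  have h2 := log_main h0 h4 pH pM h1
  unfold hv szg
  rw [log_three pH pM pS pv]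
  linarith

/-- bits of the survivors -/
theorem hv_srv (s : ℕ) :
    E3 (fun x b c => ind (srv R s x b c) * hv R s x b c) ≤ E3 fun x b c => ind (fall R s x b c) := by
  rw [E3_mean (hcl_pv R s), E3_mean (hcl_pv R s) (fun x b c => ind (fall R s x b c))]
  refine E3_mono fun x b c => ?_
  have hHne : (hcl R s x b c).Nonempty := ⟨x, R.self_hc s x b c⟩
  have pH : (0 : ℝ) < (hcl R s x b c).card := by exact_mod_cast hHne.card_pos
  have ht0 := R.t0_le s x b c
  have hS : ∀ y ∈ hcl R s x b c, D.Same (s + 1) x b c y b c := fun y hy => hcl_same R hy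
  have hE : ∀ y ∈ hcl R s x b c, R.ep s y b c = R.ep s x b c := fun y hy => ep_of_hcl R (hS y hy) hy
  have hT : ∀ y ∈ hcl R s x b c, (R.th (R.ep s y b c) (s + 1) y b c ↔ R.th (R.ep s x b c) (s + 1) x b c) := by
    intro y hy
    rw [hE y hy]
    exact (R.th_q (R.ep s x b c) (s + 1) x b c y b c (by omega) (hS y hy)).symm
  by_cases ht : R.th (R.ep s x b c) (s + 1) x b c
  · have e1 : avg (hcl R s x b c) (fun y => ind (srv R s y b c) * hv R s y b c) = 0 := by
      rw [← avg_const hHne (0 : ℝ)]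
      refine avg_congrC fun y hy => ?_
      rw [ind_not (fun h => h.1 ((hT y hy).2 ht)), zero_mul]
    rw [e1]
    exact avg_nonneg fun y _ => ind_nonneg _
  · set Om := R.om (R.ep s x b c) (s + 1) x b c with hOm
    have hOmy : ∀ y ∈ hcl R s x b c, R.om (R.ep s y b c) (s + 1) y b c = Om := by
      intro y hy
      rw [hE y hy, hOm]
      exact (R.om_inv (by omega) (hS y hy)).symm
    have hOmsub : Om ⊆ hcl R s x b c := by
      intro y hy
      rw [mem_hcl]
      refine ⟨R.om_sub (Nat.le_succ s) x b c hy, ?_⟩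
      exact D.mem_cA.1 ((R.mem_KF_succ ht0).1 ((R.mem_om _).1 hy).1).1.2
    have hsrv : ∀ y ∈ hcl R s x b c, (srv R s y b c ↔ y ∈ Om) := by
      intro y hy
      unfold srv
      rw [hOmy y hy, hT y hy]
      simp [ht]
    have hfall : ∀ y ∈ hcl R s x b c, (fall R s y b c ↔ y ∉ Om) := by
      intro y hy
      unfold fall
      rw [hOmy y hy, hT y hy]
      simp [ht]
    have hhv : ∀ y ∈ Om, hv R s y b c = Real.log (((hcl R s x b c).card : ℝ) / Om.card) := by
      intro y hy
      have hy' := hOmsub hy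
      have e1 : hcl R s y b c = hcl R s x b c := hcl_pub R s (hS y hy') ((mem_hcl R).1 hy').1
      have e2 : vcl R s y b c = Om := by
        have h1 := R.vc_main (e := R.ep s y b c) (R.t0_le s y b c) (fun h => ht ((hT y hy').1 h))
          (by rw [hOmy y hy']; exact hy) (R.self_hc s y b c)
        rw [hOmy y hy'] at h1
        exact h1
      unfold hv
      rw [e1, e2]
    classical
    have s1 : ∑ y ∈ hcl R s x b c, ind (srv R s y b c) * hv R s y b c =
        Om.card * Real.log (((hcl R s x b c).card : ℝ) / Om.card) := by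
      have e1 : ∀ y ∈ hcl R s x b c, ind (srv R s y b c) * hv R s y b c =
          if y ∈ Om then Real.log (((hcl R s x b c).card : ℝ) / Om.card) else 0 := by
        intro y hy
        by_cases h : y ∈ Om
        · rw [if_pos h, ind_of ((hsrv y hy).2 h), one_mul, hhv y h]
        · rw [if_neg h, ind_not (fun h' => h ((hsrv y hy).1 h')), zero_mul]
      rw [Finset.sum_congr rfl e1, sum_ite_sub hOmsub (fun _ => Real.log (((hcl R s x b c).card : ℝ) / Om.card)),
        Finset.sum_const, nsmul_eq_mul]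
    have s2 : ∑ y ∈ hcl R s x b c, ind (fall R s y b c) = (hcl R s x b c).card - Om.card := by
      have e1 : ∀ y ∈ hcl R s x b c, ind (fall R s y b c) = 1 - if y ∈ Om then (1 : ℝ) else 0 := by
        intro y hy
        by_cases h : y ∈ Om
        · rw [if_pos h, ind_not (fun h' => ((hfall y hy).1 h') h), sub_self]
        · rw [if_neg h, ind_of ((hfall y hy).2 h), sub_zero]
      rw [Finset.sum_congr rfl e1, Finset.sum_sub_distrib, sum_ite_sub hOmsub (fun _ => (1 : ℝ)),
        Finset.sum_const, Finset.sum_const, nsmul_eq_mul, nsmul_eq_mul, mul_one, mul_one]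
    unfold avg
    rw [s1, s2, div_le_div_iff_of_pos_right pH]
    rcases Om.eq_empty_or_nonempty with h0 | h0
    · rw [h0]
      simp
    · have pO : (0 : ℝ) < Om.card := by exact_mod_cast h0.card_pos
      have h1 := Real.log_le_sub_one_of_pos (div_pos pH pO)
      have h2 := mul_le_mul_of_nonneg_left h1 pO.le
      have h3 : (Om.card : ℝ) * ((hcl R s x b c).card / Om.card - 1) = (hcl R s x b c).card - Om.card := by
        field_simp
      linarith

theorem hv_cases (Ts : Tst R Up N) (h0 : 0 ≤ N.eps4) (h4 : N.eps4 ≤ 1 / 2) (s : ℕ) (x : X) (b : β) (c : γ) :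
    hv R s x b c ≤
      (2 * N.eps4 * ind (ffall R s x b c) + ind (ffall R s x b c) * szf R s x b c +
        ind (ffall R s x b c) * Real.log ((((sdf R).pc (R.ep s x b c) s x b c).card : ℝ) / (vcl R s x b c).card)) +
      (2 * N.eps4 * ind (gfall R s x b c) + ind (gfall R s x b c) * szg R s x b c +
        ind (gfall R s x b c) * Real.log ((((sdg R).pc (R.ep s x b c) s x b c).card : ℝ) / (vcl R s x b c).card)) +
      ind (srv R s x b c) * hv R s x b c := by
  by_cases hth : R.th (R.ep s x b c) (s + 1) x b c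
  · rw [ind_not (fun h : ffall R s x b c => h.1 hth), ind_not (fun h : gfall R s x b c => h.1 hth),
      ind_not (fun h : srv R s x b c => h.1 hth)]
    unfold hv
    rw [vcl_th hth, log_self (S := hcl R s x b c) ⟨x, R.self_hc s x b c⟩]
    simp
  · by_cases hf : fall R s x b c
    · rw [ind_not (fun h : srv R s x b c => hf.2 h.2)]
      rcases (fall_iff R s x b c).1 hf with h | h
      · rw [ind_of h, ind_not (ffall_not_gfall R h)]
        have := hv_f Ts h0 h4 h
        linarith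
      · rw [ind_of h, ind_not (fun h' => ffall_not_gfall R h' h)]
        have := hv_g Ts h0 h4 h
        linarith
    · rw [ind_not (fun h => hf ((fall_iff R s x b c).2 (Or.inl h))),
        ind_not (fun h => hf ((fall_iff R s x b c).2 (Or.inr h)))]
      have h1 : srv R s x b c := by
        refine ⟨hth, ?_⟩
        by_contra h
        exact hf ⟨hth, h⟩
      rw [ind_of h1]
      linarith

/-- cost of the small falls: `W(a,S) = log (S/a)` -/
theorem ch_log_f (R : Rl D) (K : ℕ) :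
    ∑ s ∈ range K, E3 (fun x b c => ind (ffall R s x b c) *
      Real.log ((((sdf R).pc (R.ep s x b c) s x b c).card : ℝ) / (vcl R s x b c).card)) ≤ nfall R K := by
  have h := ch_f R (W := fun a S => Real.log (S / a)) (δ := 1) zero_le_one
    (fun a S ha haS => Real.log_nonneg (by rw [le_div_iff₀ ha]; linarith))
    (fun a S ha haS => by
      have h1 := Real.log_le_sub_one_of_pos (div_pos (ha.trans_le haS) ha)
      have h2 := mul_le_mul_of_nonneg_left h1 ha.le
      have h3 : a * (S / a - 1) = S - a := by field_simp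
      linarith) K
  rw [one_mul] at h
  exact h

theorem ch_log_g (R : Rl D) (K : ℕ) :
    ∑ s ∈ range K, E3 (fun x b c => ind (gfall R s x b c) *
      Real.log ((((sdg R).pc (R.ep s x b c) s x b c).card : ℝ) / (vcl R s x b c).card)) ≤ nfall R K := by
  have h := ch_g R (W := fun a S => Real.log (S / a)) (δ := 1) zero_le_one
    (fun a S ha haS => Real.log_nonneg (by rw [le_div_iff₀ ha]; linarith))
    (fun a S ha haS => by
      have h1 := Real.log_le_sub_one_of_pos (div_pos (ha.trans_le haS) ha)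
      have h2 := mul_le_mul_of_nonneg_left h1 ha.le
      have h3 : a * (S / a - 1) = S - a := by field_simp
      linarith) K
  rw [one_mul] at h
  exact h

/-- **small falls**: falls with a cell smaller than the proportion `δ` of the piece -/
theorem ch_small_f (R : Rl D) {δ : ℝ} (hδ : 0 ≤ δ) (K : ℕ) :
    ∑ s ∈ range K, E3 (fun x b c => ind (ffall R s x b c) *
      ind (((vcl R s x b c).card : ℝ) < δ * ((sdf R).pc (R.ep s x b c) s x b c).card)) ≤ δ * nfall R K :=
  ch_f R (W := fun a S => ind (a < δ * S)) hδ (fun _ _ _ _ => ind_nonneg _) (fun a S ha haS => by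
    by_cases h : a < δ * S
    · simp only [ind_of h, mul_one]; exact h.le
    · simp only [ind_not h, mul_zero]; exact mul_nonneg hδ (ha.le.trans haS)) K

theorem ch_small_g (R : Rl D) {δ : ℝ} (hδ : 0 ≤ δ) (K : ℕ) :
    ∑ s ∈ range K, E3 (fun x b c => ind (gfall R s x b c) *
      ind (((vcl R s x b c).card : ℝ) < δ * ((sdg R).pc (R.ep s x b c) s x b c).card)) ≤ δ * nfall R K :=
  ch_g R (W := fun a S => ind (a < δ * S)) hδ (fun _ _ _ _ => ind_nonneg _) (fun a S ha haS => by
    by_cases h : a < δ * S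
    · simp only [ind_of h, mul_one]; exact h.le
    · simp only [ind_not h, mul_zero]; exact mul_nonneg hδ (ha.le.trans haS)) K

theorem log_bits (s : ℕ) (x : X) (b : β) (c : γ) :
    Real.log (((hcl R s x b c).card : ℝ) / (R.U (s + 1) x b c).card) =
      hv R s x b c + Real.log (((vcl R s x b c).card : ℝ) / (R.U (s + 1) x b c).card) := by
  have pH : (0 : ℝ) < (hcl R s x b c).card := by exact_mod_cast card_pos.2 ⟨x, R.self_hc s x b c⟩
  have pv : (0 : ℝ) < (vcl R s x b c).card := by exact_mod_cast card_pos.2 ⟨x, self_vcl R s x b c⟩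
  have pU : (0 : ℝ) < (R.U (s + 1) x b c).card := by exact_mod_cast card_pos.2 ⟨x, R.self_U (s + 1) x b c⟩
  unfold hv
  rw [Real.log_div pH.ne' pU.ne', Real.log_div pH.ne' pv.ne', Real.log_div pv.ne' pU.ne']
  ring

/-- bits of the coarse cells -/
theorem hv_sum [DecidableEq φ] {al Lam : ℝ} {K : ℕ} (T : D.Thick al) (P : Proj D) (Ts : Tst R Up N)
    (C : Con R n Lr) (H : CNum N n Lr al) (hB : Birth D K Lam) :
    ∑ s ∈ range K, E3 (hv R s) ≤ 2 * n * Lam := by
  have h4 := half_le H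
  have q : ∀ s, E3 (hv R s) ≤
      (2 * N.eps4 * E3 (fun x b c => ind (ffall R s x b c)) +
        E3 (fun x b c => ind (ffall R s x b c) * szf R s x b c) +
        E3 (fun x b c => ind (ffall R s x b c) *
          Real.log ((((sdf R).pc (R.ep s x b c) s x b c).card : ℝ) / (vcl R s x b c).card))) +
      (2 * N.eps4 * E3 (fun x b c => ind (gfall R s x b c)) +
        E3 (fun x b c => ind (gfall R s x b c) * szg R s x b c) +
        E3 (fun x b c => ind (gfall R s x b c) *
          Real.log ((((sdg R).pc (R.ep s x b c) s x b c).card : ℝ) / (vcl R s x b c).card))) +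
      E3 (fun x b c => ind (fall R s x b c)) := by
    intro s
    refine (E3_mono (hv_cases Ts H.e4 h4 s)).trans ?_
    have := hv_srv (R := R) s
    rw [E3_add, E3_add, E3_add, E3_add, E3_add, E3_add, E3_smul, E3_smul]
    linarith
  refine (Finset.sum_le_sum fun s _ => q s).trans ?_
  simp only [Finset.sum_add_distrib, ← Finset.mul_sum]
  have h1 := cost_f' T P Ts C H hB
  have h2 := cost_g' T P Ts C H hB
  have h3 := ch_log_f R K
  have h5 := ch_log_g R K
  have h6 := nfall_eq (R := R) K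
  have h7 : 0 ≤ nff R K := Finset.sum_nonneg fun s _ => E3_nonneg fun x b c => ind_nonneg _
  have h8 : 0 ≤ nfg R K := Finset.sum_nonneg fun s _ => E3_nonneg fun x b c => ind_nonneg _
  have h9 := H.Lr8
  have h10 : (∑ s ∈ range K, E3 fun x b c => ind (fall R s x b c)) = nfall R K := rfl
  have h11 : (∑ s ∈ range K, E3 fun x b c => ind (ffall R s x b c)) = nff R K := rfl
  have h12 : (∑ s ∈ range K, E3 fun x b c => ind (gfall R s x b c)) = nfg R K := rfl
  rw [h10, h11, h12]
  have h13 : 0 ≤ (Lr / 2 - 4) * nff R K := mul_nonneg (by linarith) h7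
  have h14 : 0 ≤ (Lr / 2 - 4) * nfg R K := mul_nonneg (by linarith) h8
  have h15 : N.eps4 * nff R K ≤ 1 / 2 * nff R K := mul_le_mul_of_nonneg_right h4 h7
  have h16 : N.eps4 * nfg R K ≤ 1 / 2 * nfg R K := mul_le_mul_of_nonneg_right h4 h8
  linarith

/-- **(F3) THE NUMBER OF BITS** -/
theorem bits_le [DecidableEq φ] {al Lam : ℝ} {K : ℕ} (T : D.Thick al) (P : Proj D) (Ts : Tst R Up N)
    (C : Con R n Lr) (H : CNum N n Lr al) (hB : Birth D K Lam) : bits R K ≤ 4 * n * Lam := by
  unfold bits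
  have e1 : ∀ s, E3 (fun x b c => Real.log (((hcl R s x b c).card : ℝ) / (R.U (s + 1) x b c).card)) =
      E3 (hv R s) + E3 (fun x b c => Real.log (((vcl R s x b c).card : ℝ) / (R.U (s + 1) x b c).card)) := by
    intro s
    rw [← E3_add]
    congr 1
    funext x b c
    exact log_bits s x b c
  simp only [e1, Finset.sum_add_distrib]
  have h1 := hv_sum T P Ts C H hB
  have h2 : ∑ s ∈ range K, E3 (fun x b c => Real.log (((vcl R s x b c).card : ℝ) / (R.U (s + 1) x b c).card)) ≤
      n * (Lam + Lam) := by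
    refine (Finset.sum_le_sum fun s _ => cost_split T C H.n0.le s).trans ?_
    rw [← Finset.mul_sum, Finset.sum_add_distrib]
    exact mul_le_mul_of_nonneg_left (add_le_add (bud_new_f R T hB) (bud_new_g R T hB)) H.n0.le
  linarith

end sizes

end

end Pool.Agent.M3.S3
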