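import Pool.Agent.M3.S3.LossDef
import Pool.Agent.M3.S3.Cost
import Pool.Agent.M3.S3.Starts

/-!
# M3.S3.BE: big final cells which are not inside a big fall (row 3.9 (be); helper47), route A

`be_le` : for the steps with a big final cell (`bgc`), half step class not tiny (`ntn`), which are not a big fall
(`ffF`, `ffG`), the loss `Pst` is at most `y ∑ P(bgc)` and `2 log (1/al)` times the mass of the exceptional hidden points,
which is small: at the tests and at the ends of type E by the count of these nodes, at the small falls by the count of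
the falls (cells `vcl` which are small inside their piece are ignored, `ch_f`, `ch_g`).
-/

set_option autoImplicit false
set_option linter.unusedSectionVars false

namespace Pool.Agent.M3.S3

open Finset Pool.Agent.PWZ Pool.Agent.M3

noncomputable section

variable {X β γ ι φ : Type*} [Fintype X] [Fintype β] [Fintype γ] [Fintype φ] [Nonempty X] [Nonempty β] [Nonempty γ]
  {D : Dat X β γ ι φ} {al : ℝ}

/-! ## the bound of `Psi` -/

theorem io_le_two (k : KP X β γ φ) {V : Finset X} (hT : Thk k V al) {x : X} (hx : x ∈ V) (b : β)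
    (c : γ) (F G : φ) (hF : k.f x b c F ≠ 0) (hG : k.g x b c G ≠ 0) : io k V b c F G ≤ 2 * Real.log (1 / al) := by
  have hal := hT.pos
  have hV : (0 : ℝ) < V.card := by exact_mod_cast Finset.card_pos.2 ⟨x, hx⟩
  have f1 : ∀ x' F', k.f x' b c F' ≤ 1 := fun x' F' => by
    rw [← k.f_one x' b c]
    exact Finset.single_le_sum (fun F _ => k.f_nn x' b c F) (Finset.mem_univ F')
  have g1 : ∀ x' F', k.g x' b c F' ≤ 1 := fun x' F' => by
    rw [← k.g_one x' b c]
    exact Finset.single_le_sum (fun F _ => k.g_nn x' b c F) (Finset.mem_univ F')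
  have hf := fun x' hx' => hT.f x hx x' hx' b c F hF
  have hg := fun x' hx' => hT.g x hx x' hx' b c G hG
  have a1 : al ≤ law V (fun x => k.f x b c) F := by
    unfold law avg
    rw [le_div_iff₀ hV]
    calc al * V.card = ∑ _x ∈ V, al := by rw [Finset.sum_const, nsmul_eq_mul, mul_comm]
      _ ≤ _ := Finset.sum_le_sum hf
  have a2 : al ≤ law V (fun x => k.g x b c) G := by
    unfold law avg
    rw [le_div_iff₀ hV]
    calc al * V.card = ∑ _x ∈ V, al := by rw [Finset.sum_const, nsmul_eq_mul, mul_comm]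
      _ ≤ _ := Finset.sum_le_sum hg
  have a3 : avg V (fun x => k.f x b c F * k.g x b c G) ≤ 1 := by
    unfold avg
    rw [div_le_one hV]
    calc ∑ x ∈ V, k.f x b c F * k.g x b c G ≤ ∑ _x ∈ V, (1 : ℝ) :=
          Finset.sum_le_sum fun x' _ => mul_le_one₀ (f1 x' F) (k.g_nn _ _ _ _) (g1 x' G)
      _ = V.card := by rw [Finset.sum_const, nsmul_eq_mul, mul_one]
  have a4 : 0 < avg V (fun x => k.f x b c F * k.g x b c G) := by
    unfold avg
    refine div_pos (Finset.sum_pos (fun x' hx' => ?_) ⟨x, hx⟩) hV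
    exact mul_pos (hal.trans_le (hf x' hx')) (hal.trans_le (hg x' hx'))
  have a5 : 0 < law V (fun x => k.f x b c) F * law V (fun x => k.g x b c) G :=
    mul_pos (hal.trans_le a1) (hal.trans_le a2)
  have e : 2 * Real.log (1 / al) = Real.log (1 / (al * al)) := by
    rw [Real.log_div one_ne_zero hal.ne', Real.log_div one_ne_zero (mul_pos hal hal).ne', Real.log_mul hal.ne' hal.ne',
      Real.log_one]
    ring
  rw [e]
  unfold io
  refine Real.log_le_log (div_pos a4 a5) ?_
  rw [div_le_div_iff₀ a5 (mul_pos hal hal)]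
  have a6 : al * al ≤ law V (fun x => k.f x b c) F * law V (fun x => k.g x b c) G :=
    mul_le_mul a1 a2 hal.le (hal.le.trans a1)
  nlinarith

theorem Psi_le_two (k : KP X β γ φ) {V : Finset X} (hT : Thk k V al) (h1 : al ≤ 1) {del : ℝ} (hd : 0 ≤ del) {x : X}
    (hx : x ∈ V) (b : β) (c : γ) : Psi del k V x b c ≤ 2 * Real.log (1 / al) := by
  have hl : 0 ≤ Real.log (1 / al) := Real.log_nonneg (by rw [le_div_iff₀ hT.pos]; linarith)
  unfold Psi
  have h2 : ∀ F G, k.f x b c F * k.g x b c G * psi del k V b c F G ≤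
      k.f x b c F * k.g x b c G * (2 * Real.log (1 / al)) := by
    intro F G
    by_cases hF : k.f x b c F = 0
    · rw [hF]; simp
    by_cases hG : k.g x b c G = 0
    · rw [hG]; simp
    refine mul_le_mul_of_nonneg_left ?_ (mul_nonneg (k.f_nn _ _ _ _) (k.g_nn _ _ _ _))
    unfold psi
    refine max_le ?_ (by linarith)
    have := io_le_two k hT hx b c F G hF hG
    linarith
  calc ∑ F, ∑ G, k.f x b c F * k.g x b c G * psi del k V b c F G
      ≤ ∑ F, ∑ G, k.f x b c F * k.g x b c G * (2 * Real.log (1 / al)) :=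
        Finset.sum_le_sum fun F _ => Finset.sum_le_sum fun G _ => h2 F G
    _ = (∑ F, k.f x b c F) * (∑ G, k.g x b c G) * (2 * Real.log (1 / al)) := by
        rw [Finset.sum_mul_sum, Finset.sum_mul]
        exact Finset.sum_congr rfl fun F _ => by rw [Finset.sum_mul]
    _ = _ := by rw [k.f_one, k.g_one]; ring

/-! ## means with indicators -/

/-- an event with small proportion inside the classes of `V`, on an event which is constant on the classes -/
theorem E3_part_le {V : X → β → γ → Finset X} (hV : PV V) {P Q : X → β → γ → Prop} {r : ℝ}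
    (hP : ∀ x b c, ∀ x' ∈ V x b c, P x' b c → P x b c)
    (h : ∀ x b c, P x b c → ∑ x' ∈ V x b c, ind (Q x' b c) ≤ r * ((V x b c).card : ℝ)) :
    E3 (fun x b c => ind (P x b c ∧ Q x b c)) ≤ r * E3 (fun x b c => ind (P x b c)) := by
  rw [E3_mean hV, ← E3_smul]
  refine E3_mono fun x b c => ?_
  have hc : (0 : ℝ) < (V x b c).card := by exact_mod_cast Finset.card_pos.2 ⟨x, (hV b c).self x⟩
  unfold avg
  rw [div_le_iff₀ hc]
  by_cases hp : P x b c
  · rw [ind_of hp, mul_one]
    refine le_trans (Finset.sum_le_sum fun x' _ => ?_) (h x b c hp)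
    by_cases hq : Q x' b c
    · rw [ind_of hq]
      exact ind_le_one _
    · rw [ind_not hq, ind_not fun h : _ ∧ _ => hq h.2]
  · rw [ind_not hp, mul_zero, zero_mul]
    refine (Finset.sum_eq_zero fun x' hx' => ?_).le
    exact ind_not fun h : _ ∧ _ => hp (hP x b c x' hx' h.1)

theorem E3_ind_mono {P Q : X → β → γ → Prop} (h : ∀ x b c, P x b c → Q x b c) :
    E3 (fun x b c => ind (P x b c)) ≤ E3 (fun x b c => ind (Q x b c)) := by
  refine E3_mono fun x b c => ?_
  by_cases hp : P x b c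
  · rw [ind_of hp, ind_of (h x b c hp)]
  · rw [ind_not hp]
    exact ind_nonneg _

/-! ## ends of type E -/

namespace Prc

/-- the end of a sub-epoch is public -/
theorem Eend_inv (P : Prc D) {q : ℝ} {s : ℕ} {x x' : X} {b b' : β} {c c' : γ} (hS : D.Same (s + 1) x b c x' b' c')
    (hx : x' ∈ P.U s x b c) : P.Eend q s x' b' c' ↔ P.Eend q s x b c := by
  have hs := hS.le (Nat.le_succ s)
  have e2 := (P.U_pub hs hx).1
  have e3 := P.sb_pub (q := q) s hs hx
  have hle := P.sb_le (q := q) s x b c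
  unfold Eend
  rw [e2, e3]
  refine or_congr ?_ ?_
  · exact (EBp_inv (by omega) hS.1 hS.2.1 (D.qc_le hle hs.2.2)).symm
  · exact (EAp_inv (by omega) hS.1 (D.qb_le hle hs.2.1) (D.qc_le hle hs.2.2)).symm

/-- an end of type E is a start of a sub-epoch -/
theorem Eend_start (P : Prc D) {q : ℝ} {s : ℕ} {x : X} {b : β} {c : γ} (h : P.Eend q s x b c) :
    P.sb q (s + 1) x b c = s + 1 := by
  rcases P.sb_cases (q := q) s x b c with h1 | h1
  · exact h1.1
  · exact absurd h h1.2.2

theorem Eend_count (P : Prc D) (q : ℝ) (K : ℕ) :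
    ∑ s ∈ range K, E3 (fun x b c => ind (P.Eend q s x b c)) ≤
      ∑ σ ∈ range (K + 1), E3 (fun x b c => ind (P.sb q σ x b c = σ)) := by
  rw [Finset.sum_range_succ']
  have h : ∑ s ∈ range K, E3 (fun x b c => ind (P.Eend q s x b c)) ≤
      ∑ s ∈ range K, E3 (fun x b c => ind (P.sb q (s + 1) x b c = s + 1)) :=
    Finset.sum_le_sum fun s _ => E3_ind_mono fun x b c h => P.Eend_start h
  have h0 : 0 ≤ E3 (fun x b c => ind (P.sb q 0 x b c = 0)) := E3_nonneg fun _ _ _ => ind_nonneg _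
  linarith

end Prc

section be

variable (R : Rl D)

/-- half step test of the step `s → s+1` -/
def thn (s : ℕ) (x : X) (b : β) (c : γ) : Prop := R.th (R.ep s x b c) (s + 1) x b c

/-- survivor test at the node, no half step test -/
def tsn (s : ℕ) (x : X) (b : β) (c : γ) : Prop :=
  ¬ R.th (R.ep s x b c) (s + 1) x b c ∧ R.ts (R.ep s x b c) (s + 1) x b c

/-- small `f`-fall -/
def smf (l : ℝ) (s : ℕ) (x : X) (b : β) (c : γ) : Prop :=
  ffall R s x b c ∧ ((R.KF (R.ep s x b c) (s + 1) x b c).card : ℝ) <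
    Real.exp l * (((sdf R).pc (R.ep s x b c) s x b c).card : ℝ)

/-- small `g`-fall -/
def smg (l : ℝ) (s : ℕ) (x : X) (b : β) (c : γ) : Prop :=
  gfall R s x b c ∧ ((R.KG (R.ep s x b c) (s + 1) x b c).card : ℝ) <
    Real.exp l * (((sdg R).pc (R.ep s x b c) s x b c).card : ℝ)

variable {R}

section inv

variable {s : ℕ} {x x' : X} {b b' : β} {c c' : γ}

theorem thn_inv (hS : D.Same (s + 1) x b c x' b' c') (hx : x' ∈ R.U s x b c) : thn R s x' b' c' ↔ thn R s x b c := by
  unfold thn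
  rw [(R.pub s (hS.le (Nat.le_succ s)) hx).1]
  exact (R.th_q _ (s + 1) x b c x' b' c' ((R.t0_le s x b c).trans (Nat.le_succ s)) hS).symm

theorem tsn_inv (hS : D.Same (s + 1) x b c x' b' c') (hx : x' ∈ R.U s x b c) : tsn R s x' b' c' ↔ tsn R s x b c := by
  unfold tsn
  rw [(R.pub s (hS.le (Nat.le_succ s)) hx).1]
  have h0 := (R.t0_le s x b c).trans (Nat.le_succ s)
  rw [R.th_q _ (s + 1) x b c x' b' c' h0 hS, R.ts_q _ (s + 1) x b c x' b' c' h0 hS]

theorem ntn_inv {mu : ℝ} (hS : D.Same (s + 1) x b c x' b' c') (hx : x' ∈ R.U s x b c) :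
    ntn R mu s x' b' c' ↔ ntn R mu s x b c := by
  unfold ntn
  rw [(R.pub s (hS.le (Nat.le_succ s)) hx).2, hcl_pub R s hS hx]

theorem smf_of {l : ℝ} (hS : D.Same (s + 1) x b c x' b' c') (hx : x' ∈ vcl R s x b c) (h : smf R l s x b c) :
    smf R l s x' b' c' ∧ (sdf R).pc (R.ep s x' b' c') s x' b' c' = (sdf R).pc (R.ep s x b c) s x b c := by
  have ht0 := R.t0_le s x b c
  have hU : x' ∈ R.U s x b c := hcl_sub R s x b c (vcl_sub R s x b c hx)
  have e1 : R.ep s x' b' c' = R.ep s x b c := (R.pub s (hS.le (Nat.le_succ s)) hU).1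
  have h2 := ((mem_vcl_f R h.1).1 hx).2
  have e2 : rf R (R.ep s x b c) s x b c = rf R (R.ep s x b c) s x' b' c' := rf_inv ht0 hS
  have e3 : KF' R.toRm (R.ep s x b c) s x b c = KF' R.toRm (R.ep s x b c) s x' b' c' := KF'_inv ht0 hS
  have e4 : (sdf R).pc (R.ep s x' b' c') s x' b' c' = (sdf R).pc (R.ep s x b c) s x b c := by
    rw [e1]
    show fblk (KF' R.toRm (R.ep s x b c) s x' b' c') (rf R (R.ep s x b c) s x' b' c') x' =
      fblk (KF' R.toRm (R.ep s x b c) s x b c) (rf R (R.ep s x b c) s x b c) x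
    rw [← e2, ← e3]
    exact fblk_congr h2
  refine ⟨⟨⟨?_, ?_⟩, ?_⟩, e4⟩
  · exact fun h' => h.1.1 ((thn_inv hS hU).1 h')
  · rw [e1, ← e2, h2]
    exact h.1.2
  · rw [e4, e1, ← R.KF_inv (ht0.trans (Nat.le_succ s)) hS.1 hS.2.1 (D.qc_le (ht0.trans (Nat.le_succ s)) hS.2.2)]
    exact h.2

theorem smg_of {l : ℝ} (hS : D.Same (s + 1) x b c x' b' c') (hx : x' ∈ vcl R s x b c) (h : smg R l s x b c) :
    smg R l s x' b' c' ∧ (sdg R).pc (R.ep s x' b' c') s x' b' c' = (sdg R).pc (R.ep s x b c) s x b c := by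
  have ht0 := R.t0_le s x b c
  have hU : x' ∈ R.U s x b c := hcl_sub R s x b c (vcl_sub R s x b c hx)
  have e1 : R.ep s x' b' c' = R.ep s x b c := (R.pub s (hS.le (Nat.le_succ s)) hU).1
  have h2 := ((mem_vcl_g R h.1).1 hx).2
  have e2 : rg R (R.ep s x b c) s x b c = rg R (R.ep s x b c) s x' b' c' := rg_inv ht0 hS
  have e2' : rf R (R.ep s x b c) s x b c = rf R (R.ep s x b c) s x' b' c' := rf_inv ht0 hS
  have e3 : KG' R.toRm (R.ep s x b c) s x b c = KG' R.toRm (R.ep s x b c) s x' b' c' := KG'_inv ht0 hS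
  have e4 : (sdg R).pc (R.ep s x' b' c') s x' b' c' = (sdg R).pc (R.ep s x b c) s x b c := by
    rw [e1]
    show fblk (KG' R.toRm (R.ep s x b c) s x' b' c') (rg R (R.ep s x b c) s x' b' c') x' =
      fblk (KG' R.toRm (R.ep s x b c) s x b c) (rg R (R.ep s x b c) s x b c) x
    rw [← e2, ← e3]
    exact fblk_congr h2.2
  refine ⟨⟨⟨?_, ?_, ?_⟩, ?_⟩, e4⟩
  · exact fun h' => h.1.1 ((thn_inv hS hU).1 h')
  · rw [e1, ← e2', h2.1]
  · rw [e1, ← e2, h2.2]
    exact h.1.2.2
  · rw [e4, e1, ← R.KG_inv (ht0.trans (Nat.le_succ s)) hS.1 (D.qb_le (ht0.trans (Nat.le_succ s)) hS.2.1) hS.2.2]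
    exact h.2

end inv

/-- sizes of the survivors -/
theorem om_half {Up : Upd D} {N : Nums} (Ts : Tst R Up N) (h3 : 0 ≤ N.eps3) (h4 : 0 ≤ N.eps4)
    (h5 : N.eps4 + 8 * N.eps3 ≤ 1 / 4) {s : ℕ} {x : X} {b : β} {c : γ} (ht : ¬ thn R s x b c) :
    ((hcl R s x b c).card : ℝ) ≤ 2 * ((R.om (R.ep s x b c) (s + 1) x b c).card : ℝ) := by
  classical
  have ht0 := R.t0_le s x b c
  set e := R.ep s x b c with he
  obtain ⟨⟨a1, a2⟩, ⟨a3, a4⟩⟩ := sz_not Ts ht0 ht
  have h6 : R.om e (s + 1) x b c = R.KF e (s + 1) x b c ∩ R.KG e (s + 1) x b c := by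
    ext y
    rw [R.mem_om, mem_inter]
  have h7 : R.KF e (s + 1) x b c ∪ R.KG e (s + 1) x b c ⊆ rs D e (s + 1) x := by
    refine Finset.union_subset (fun y hy => ?_) fun y hy => ?_
    · exact KFh_sub_rs ht0 x b c ((mem_KFs ht0).1 hy).1
    · exact KGh_sub_rs ht0 x b c ((mem_KGs ht0).1 hy).1
  have h8 := Finset.card_union_add_card_inter (R.KF e (s + 1) x b c) (R.KG e (s + 1) x b c)
  have h9 : ((R.KF e (s + 1) x b c ∪ R.KG e (s + 1) x b c).card : ℝ) ≤ (rs D e (s + 1) x).card := by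
    exact_mod_cast Finset.card_le_card h7
  have h10 : ((R.KF e (s + 1) x b c ∪ R.KG e (s + 1) x b c).card : ℝ) +
      (R.KF e (s + 1) x b c ∩ R.KG e (s + 1) x b c).card =
      (R.KF e (s + 1) x b c).card + (R.KG e (s + 1) x b c).card := by exact_mod_cast h8
  have h11 : ((hcl R s x b c).card : ℝ) ≤ (rs D e (s + 1) x).card := by
    exact_mod_cast Finset.card_le_card (hc_sub_rs ht0 x b c)
  rw [h6]
  have hr : (0 : ℝ) ≤ (rs D e (s + 1) x).card := Nat.cast_nonneg _
  have b1 : (1 - N.eps4 - 4 * N.eps3) * (rs D e (s + 1) x).card ≤ (R.KF e (s + 1) x b c).card := by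
    have := mul_le_mul_of_nonneg_left a1 (show 0 ≤ 1 - N.eps4 by linarith)
    have h12 : 0 ≤ N.eps4 * N.eps3 * (rs D e (s + 1) x).card := by positivity
    nlinarith
  have b2 : (1 - N.eps4 - 4 * N.eps3) * (rs D e (s + 1) x).card ≤ (R.KG e (s + 1) x b c).card := by
    have := mul_le_mul_of_nonneg_left a2 (show 0 ≤ 1 - N.eps4 by linarith)
    have h12 : 0 ≤ N.eps4 * N.eps3 * (rs D e (s + 1) x).card := by positivity
    nlinarith
  nlinarith

/-- the cases -/
theorem be_cases {Up : Upd D} {N : Nums} (Ts : Tst R Up N) (h3 : 0 ≤ N.eps3) (h4 : 0 ≤ N.eps4)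
    (h5 : N.eps4 + 8 * N.eps3 ≤ 1 / 4) {q l L0 : ℝ} (hL : 1 ≤ L0) {s : ℕ} {x : X} {b : β} {c : γ}
    (hb : bgc R L0 s x b c) (hf : ¬ ffF R q l s x b c) (hg : ¬ ffG R q l s x b c) :
    thn R s x b c ∨ tsn R s x b c ∨ R.prc.Eend q s x b c ∨ R.prc.swap.Eend q s x c b ∨ smf R l s x b c ∨
      smg R l s x b c := by
  classical
  have ht0 := R.t0_le s x b c
  by_cases k1 : thn R s x b c
  · exact Or.inl k1
  by_cases k2 : tsn R s x b c
  · exact Or.inr (Or.inl k2)
  by_cases k3 : R.prc.Eend q s x b c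
  · exact Or.inr (Or.inr (Or.inl k3))
  by_cases k4 : R.prc.swap.Eend q s x c b
  · exact Or.inr (Or.inr (Or.inr (Or.inl k4)))
  by_cases k5 : x ∈ R.om (R.ep s x b c) (s + 1) x b c
  · exfalso
    have hn : ¬ R.nw (R.ep s x b c) s x b c := by
      rintro (h | h | h)
      · exact k1 h
      · exact h k5
      · exact k2 ⟨k1, h⟩
    have h1 := om_half Ts h3 h4 h5 k1
    have h2 := R.U_keep hn
    unfold bgc at hb
    rw [h2] at hb
    have hpos : (0 : ℝ) < ((R.om (R.ep s x b c) (s + 1) x b c).card : ℝ) := by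
      exact_mod_cast Finset.card_pos.2 ⟨x, k5⟩
    have h6 : (2 : ℝ) < Real.exp L0 := by
      have e1 := Real.add_one_lt_exp (show (1 : ℝ) ≠ 0 by norm_num)
      have e2 : Real.exp 1 ≤ Real.exp L0 := Real.exp_le_exp.2 hL
      linarith
    nlinarith
  · have hfall : fall R s x b c := ⟨k1, k5⟩
    rcases (fall_iff R s x b c).1 hfall with h | h
    · refine Or.inr (Or.inr (Or.inr (Or.inr (Or.inl ⟨h, ?_⟩))))
      by_contra hlt
      rw [not_lt] at hlt
      refine hf ⟨k1, ?_, ?_, ⟨ht0, hlt⟩, k3⟩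
      · intro hx
        exact h.2 ((mem_KFs ht0).1 hx).2
      · intro h'; exact absurd h' (by simp)
    · refine Or.inr (Or.inr (Or.inr (Or.inr (Or.inr ⟨h, ?_⟩))))
      by_contra hlt
      rw [not_lt] at hlt
      refine hg ⟨k1, ?_, ?_, ⟨ht0, hlt⟩, k4⟩
      · intro hx
        exact h.2.2 ((mem_KGs ht0).1 hx).2
      · intro _
        exact (mem_KFs ht0).2 ⟨hcl_sub_KF' (R.self_hc s x b c), h.2.1⟩

/-! ## counts -/

theorem tsn_step {Up : Upd D} {N : Nums} (Ts : Tst R Up N) (h3 : 0 ≤ N.eps3) (h4 : 0 ≤ N.eps4)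
    (h5 : N.eps4 + 8 * N.eps3 ≤ 1 / 4) (s : ℕ) :
    E3 (fun x b c => ind (thn R s x b c)) + E3 (fun x b c => ind (tsn R s x b c)) ≤
      2 * E3 (fun x b c => ind (tpr R s x b c)) := by
  classical
  have a1 : E3 (fun x b c => ind (tsn R s x b c)) ≤
      2 * E3 (fun x b c => ind (tsn R s x b c ∧ x ∈ R.om (R.ep s x b c) (s + 1) x b c)) := by
    rw [E3_mean (hcl_pv R s) fun x b c => ind (tsn R s x b c ∧ x ∈ R.om (R.ep s x b c) (s + 1) x b c), ← E3_smul]
    refine E3_mono fun x b c => ?_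
    by_cases h : tsn R s x b c
    · rw [ind_of h]
      have hpos : (0 : ℝ) < (hcl R s x b c).card := by
        exact_mod_cast Finset.card_pos.2 ⟨x, R.self_hc s x b c⟩
      have h1 : ∀ x' ∈ hcl R s x b c, ind (tsn R s x' b c ∧ x' ∈ R.om (R.ep s x' b c) (s + 1) x' b c) =
          if x' ∈ R.om (R.ep s x b c) (s + 1) x b c then 1 else 0 := by
        intro x' hx'
        have hS := hcl_same R hx'
        have hU : x' ∈ R.U s x b c := hcl_sub R s x b c hx'
        have e1 : R.ep s x' b c = R.ep s x b c := ep_of_hcl R hS hx'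
        have e2 : R.om (R.ep s x b c) (s + 1) x' b c = R.om (R.ep s x b c) (s + 1) x b c :=
          (R.om_inv ((R.t0_le s x b c).trans (Nat.le_succ s)) hS).symm
        rw [e1, e2]
        by_cases h2 : x' ∈ R.om (R.ep s x b c) (s + 1) x b c
        · rw [if_pos h2, ind_of ⟨(tsn_inv hS hU).2 h, h2⟩]
        · rw [if_neg h2, ind_not fun h' : _ ∧ _ => h2 h'.2]
      have h2 := om_half Ts h3 h4 h5 h.1
      have h6 : R.om (R.ep s x b c) (s + 1) x b c ⊆ hcl R s x b c := by
        intro y hy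
        have hy' := (R.mem_om _).1 hy
        refine R.mem_hc.2 ⟨R.om_sub (Nat.le_succ s) x b c hy, ?_⟩
        exact ((mem_KF'.1 ((mem_KFs (R.t0_le s x b c)).1 hy'.1).1)).2
      unfold avg
      rw [Finset.sum_congr rfl h1, ← Finset.sum_filter, Finset.filter_mem_eq_inter,
        Finset.inter_eq_right.2 h6, Finset.sum_const, nsmul_eq_mul, mul_one, ← mul_div_assoc, le_div_iff₀ hpos,
        one_mul]
      exact h2
    · rw [ind_not h]
      exact mul_nonneg (by norm_num) (avg_nonneg fun _ _ => ind_nonneg _)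
  have a2 : E3 (fun x b c => ind (thn R s x b c)) +
      E3 (fun x b c => ind (tsn R s x b c ∧ x ∈ R.om (R.ep s x b c) (s + 1) x b c)) ≤
      E3 (fun x b c => ind (tpr R s x b c)) := by
    rw [← E3_add]
    refine E3_mono fun x b c => ?_
    by_cases h1 : thn R s x b c
    · rw [ind_of h1, ind_of (show tpr R s x b c from Or.inl h1), ind_not fun h : _ ∧ _ => h.1.1 h1, add_zero]
    · by_cases h2 : tsn R s x b c ∧ x ∈ R.om (R.ep s x b c) (s + 1) x b c
      · rw [ind_not h1, ind_of h2, ind_of (show tpr R s x b c from Or.inr ⟨h2.2, h2.1.2⟩), zero_add]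
      · rw [ind_not h1, ind_not h2, zero_add]
        exact ind_nonneg _
  have a3 : 0 ≤ E3 (fun x b c => ind (thn R s x b c)) := E3_nonneg fun _ _ _ => ind_nonneg _
  linarith

variable {rho : ℝ}

/-- node events -/
theorem node_part {B : ℕ → X → β → γ → Prop} {mu : ℝ} (hrho : 0 ≤ rho) {s : ℕ}
    (hbd : ∀ x b c, ntn R mu s x b c → ∑ x' ∈ hcl R s x b c, ind (B s x' b c) ≤ rho * ((hcl R s x b c).card : ℝ))
    {P : X → β → γ → Prop} (hP : ∀ x x' b c, x' ∈ hcl R s x b c → P x' b c → P x b c) :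
    E3 (fun x b c => ind ((ntn R mu s x b c ∧ P x b c) ∧ B s x b c)) ≤ rho * E3 (fun x b c => ind (P x b c)) := by
  refine (E3_part_le (hcl_pv R s) (P := fun x b c => ntn R mu s x b c ∧ P x b c) (Q := B s) (r := rho)
    (fun x b c x' hx' h => ?_) (fun x b c h => hbd x b c h.1)).trans ?_
  · exact ⟨(ntn_inv (hcl_same R hx') (hcl_sub R s x b c hx')).1 h.1, hP x x' b c hx' h.2⟩
  · exact mul_le_mul_of_nonneg_left (E3_ind_mono fun _ _ _ h => h.2) hrho

theorem hcl_le_KF {Up : Upd D} {N : Nums} (Ts : Tst R Up N) (h4 : N.eps4 ≤ 1 / 2) {s : ℕ} {x : X} {b : β} {c : γ}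
    (ht : ¬ thn R s x b c) : ((hcl R s x b c).card : ℝ) ≤ 2 * ((R.KF (R.ep s x b c) (s + 1) x b c).card : ℝ) := by
  obtain ⟨-, a3, -⟩ := sz_not Ts (R.t0_le s x b c) ht
  have h1 : ((hcl R s x b c).card : ℝ) ≤ (KF' R.toRm (R.ep s x b c) s x b c).card :=
    Nat.cast_le.2 (Finset.card_le_card (hcl_sub_KF' (R := R)))
  have h2 : (0 : ℝ) ≤ (KF' R.toRm (R.ep s x b c) s x b c).card := Nat.cast_nonneg _
  nlinarith

theorem hcl_le_KG {Up : Upd D} {N : Nums} (Ts : Tst R Up N) (h4 : N.eps4 ≤ 1 / 2) {s : ℕ} {x : X} {b : β} {c : γ}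
    (ht : ¬ thn R s x b c) : ((hcl R s x b c).card : ℝ) ≤ 2 * ((R.KG (R.ep s x b c) (s + 1) x b c).card : ℝ) := by
  obtain ⟨-, -, a3⟩ := sz_not Ts (R.t0_le s x b c) ht
  have h1 : ((hcl R s x b c).card : ℝ) ≤ (KG' R.toRm (R.ep s x b c) s x b c).card :=
    Nat.cast_le.2 (Finset.card_le_card (hcl_sub_KG' (R := R)))
  have h2 : (0 : ℝ) ≤ (KG' R.toRm (R.ep s x b c) s x b c).card := Nat.cast_nonneg _
  nlinarith

/-- small falls of the first rule -/
theorem smf_part {Up : Upd D} {N : Nums} (Ts : Tst R Up N) (h4 : N.eps4 ≤ 1 / 2) {B : ℕ → X → β → γ → Prop}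
    {mu l dl : ℝ} (hrho : 0 ≤ rho) (hdl : 0 < dl) {s : ℕ}
    (hbd : ∀ x b c, ntn R mu s x b c → ∑ x' ∈ hcl R s x b c, ind (B s x' b c) ≤ rho * ((hcl R s x b c).card : ℝ)) :
    E3 (fun x b c => ind ((ntn R mu s x b c ∧ smf R l s x b c) ∧ B s x b c)) ≤
      rho * (2 * Real.exp l / dl) * E3 (fun x b c => ind (ffall R s x b c)) +
        E3 (fun x b c => ind (ffall R s x b c) * (if ((vcl R s x b c).card : ℝ) ≤
          dl * ((sdf R).pc (R.ep s x b c) s x b c).card then 1 else 0)) := by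
  classical
  set P : X → β → γ → Prop := fun x b c => (ntn R mu s x b c ∧ smf R l s x b c) ∧
    dl * ((sdf R).pc (R.ep s x b c) s x b c).card < ((vcl R s x b c).card : ℝ) with hPd
  have hr : 0 ≤ rho * (2 * Real.exp l / dl) := by positivity
  have key := E3_part_le (vcl_pv R s) (P := P) (Q := B s) (r := rho * (2 * Real.exp l / dl))
    (fun x b c x' hx' h => by
      have hS := hcl_same R (vcl_sub R s x b c hx')
      have hv : vcl R s x' b c = vcl R s x b c := vcl_pub R hS hx'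
      have hx : x ∈ vcl R s x' b c := by rw [hv]; exact self_vcl R s x b c
      have h1 := smf_of hS.symm hx h.1.2
      refine ⟨⟨?_, h1.1⟩, ?_⟩
      · exact (ntn_inv hS.symm (hcl_sub R s x' b c (vcl_sub R s x' b c hx))).2 h.1.1
      · rw [h1.2, ← hv]
        exact h.2)
    (fun x b c h => by
      have hth : ¬ thn R s x b c := h.1.2.1.1
      have k1 := hcl_le_KF Ts h4 hth
      have k2 := hbd x b c h.1.1
      have k3 : ∑ x' ∈ vcl R s x b c, ind (B s x' b c) ≤ ∑ x' ∈ hcl R s x b c, ind (B s x' b c) :=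
        Finset.sum_le_sum_of_subset_of_nonneg (vcl_sub R s x b c) fun _ _ _ => ind_nonneg _
      have k4 := h.1.2.2
      have k5 := h.2
      refine (k3.trans k2).trans ?_
      rw [mul_assoc]
      refine mul_le_mul_of_nonneg_left ?_ hrho
      rw [div_mul_eq_mul_div, le_div_iff₀ hdl]
      have hexp := Real.exp_pos l
      calc ((hcl R s x b c).card : ℝ) * dl ≤ 2 * (Real.exp l * ((sdf R).pc (R.ep s x b c) s x b c).card) * dl := by
            refine mul_le_mul_of_nonneg_right ?_ hdl.le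
            linarith
        _ = 2 * Real.exp l * (dl * ((sdf R).pc (R.ep s x b c) s x b c).card) := by ring
        _ ≤ 2 * Real.exp l * ((vcl R s x b c).card : ℝ) := by
            refine mul_le_mul_of_nonneg_left k5.le (by positivity))
  have h1 : E3 (fun x b c => ind (P x b c)) ≤ E3 (fun x b c => ind (ffall R s x b c)) :=
    E3_ind_mono fun _ _ _ h => h.1.2.1
  refine le_trans ?_ (add_le_add (key.trans (mul_le_mul_of_nonneg_left h1 hr)) le_rfl)
  rw [← E3_add]
  refine E3_mono fun x b c => ?_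
  by_cases h : (ntn R mu s x b c ∧ smf R l s x b c) ∧ B s x b c
  · rw [ind_of h]
    by_cases h2 : ((vcl R s x b c).card : ℝ) ≤ dl * ((sdf R).pc (R.ep s x b c) s x b c).card
    · rw [if_pos h2, ind_of h.1.2.1, mul_one]
      have := ind_nonneg (P x b c ∧ B s x b c)
      linarith
    · rw [if_neg h2, ind_of (show P x b c ∧ B s x b c from ⟨⟨h.1, not_le.1 h2⟩, h.2⟩)]
      simp
  · rw [ind_not h]
    refine add_nonneg (ind_nonneg _) (mul_nonneg (ind_nonneg _) ?_)
    split_ifs <;> norm_num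

/-- small falls of the second rule -/
theorem smg_part {Up : Upd D} {N : Nums} (Ts : Tst R Up N) (h4 : N.eps4 ≤ 1 / 2) {B : ℕ → X → β → γ → Prop}
    {mu l dl : ℝ} (hrho : 0 ≤ rho) (hdl : 0 < dl) {s : ℕ}
    (hbd : ∀ x b c, ntn R mu s x b c → ∑ x' ∈ hcl R s x b c, ind (B s x' b c) ≤ rho * ((hcl R s x b c).card : ℝ)) :
    E3 (fun x b c => ind ((ntn R mu s x b c ∧ smg R l s x b c) ∧ B s x b c)) ≤
      rho * (2 * Real.exp l / dl) * E3 (fun x b c => ind (gfall R s x b c)) +
        E3 (fun x b c => ind (gfall R s x b c) * (if ((vcl R s x b c).card : ℝ) ≤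
          dl * ((sdg R).pc (R.ep s x b c) s x b c).card then 1 else 0)) := by
  classical
  set P : X → β → γ → Prop := fun x b c => (ntn R mu s x b c ∧ smg R l s x b c) ∧
    dl * ((sdg R).pc (R.ep s x b c) s x b c).card < ((vcl R s x b c).card : ℝ) with hPd
  have hr : 0 ≤ rho * (2 * Real.exp l / dl) := by positivity
  have key := E3_part_le (vcl_pv R s) (P := P) (Q := B s) (r := rho * (2 * Real.exp l / dl))
    (fun x b c x' hx' h => by
      have hS := hcl_same R (vcl_sub R s x b c hx')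
      have hv : vcl R s x' b c = vcl R s x b c := vcl_pub R hS hx'
      have hx : x ∈ vcl R s x' b c := by rw [hv]; exact self_vcl R s x b c
      have h1 := smg_of hS.symm hx h.1.2
      refine ⟨⟨?_, h1.1⟩, ?_⟩
      · exact (ntn_inv hS.symm (hcl_sub R s x' b c (vcl_sub R s x' b c hx))).2 h.1.1
      · rw [h1.2, ← hv]
        exact h.2)
    (fun x b c h => by
      have hth : ¬ thn R s x b c := h.1.2.1.1
      have k1 := hcl_le_KG Ts h4 hth
      have k2 := hbd x b c h.1.1
      have k3 : ∑ x' ∈ vcl R s x b c, ind (B s x' b c) ≤ ∑ x' ∈ hcl R s x b c, ind (B s x' b c) :=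
        Finset.sum_le_sum_of_subset_of_nonneg (vcl_sub R s x b c) fun _ _ _ => ind_nonneg _
      have k4 := h.1.2.2
      have k5 := h.2
      refine (k3.trans k2).trans ?_
      rw [mul_assoc]
      refine mul_le_mul_of_nonneg_left ?_ hrho
      rw [div_mul_eq_mul_div, le_div_iff₀ hdl]
      have hexp := Real.exp_pos l
      calc ((hcl R s x b c).card : ℝ) * dl ≤ 2 * (Real.exp l * ((sdg R).pc (R.ep s x b c) s x b c).card) * dl := by
            refine mul_le_mul_of_nonneg_right ?_ hdl.le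
            linarith
        _ = 2 * Real.exp l * (dl * ((sdg R).pc (R.ep s x b c) s x b c).card) := by ring
        _ ≤ 2 * Real.exp l * ((vcl R s x b c).card : ℝ) := by
            refine mul_le_mul_of_nonneg_left k5.le (by positivity))
  have h1 : E3 (fun x b c => ind (P x b c)) ≤ E3 (fun x b c => ind (gfall R s x b c)) :=
    E3_ind_mono fun _ _ _ h => h.1.2.1
  refine le_trans ?_ (add_le_add (key.trans (mul_le_mul_of_nonneg_left h1 hr)) le_rfl)
  rw [← E3_add]
  refine E3_mono fun x b c => ?_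
  by_cases h : (ntn R mu s x b c ∧ smg R l s x b c) ∧ B s x b c
  · rw [ind_of h]
    by_cases h2 : ((vcl R s x b c).card : ℝ) ≤ dl * ((sdg R).pc (R.ep s x b c) s x b c).card
    · rw [if_pos h2, ind_of h.1.2.1, mul_one]
      have := ind_nonneg (P x b c ∧ B s x b c)
      linarith
    · rw [if_neg h2, ind_of (show P x b c ∧ B s x b c from ⟨⟨h.1, not_le.1 h2⟩, h.2⟩)]
      simp
  · rw [ind_not h]
    refine add_nonneg (ind_nonneg _) (mul_nonneg (ind_nonneg _) ?_)
    split_ifs <;> norm_num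

/-! ## the sum -/

theorem thick_le_one (T : D.Thick al) : al ≤ 1 := by
  obtain ⟨x⟩ := (inferInstance : Nonempty X)
  obtain ⟨b⟩ := (inferInstance : Nonempty β)
  obtain ⟨c⟩ := (inferInstance : Nonempty γ)
  have h := T.f_one 0 x b c
  obtain ⟨F, -, hF⟩ : ∃ F ∈ (Finset.univ : Finset φ), D.kf 0 x b c F ≠ 0 := by
    apply Finset.exists_ne_zero_of_sum_ne_zero
    rw [h]
    exact one_ne_zero
  have h1 := T.f_thick 0 x x b c F rfl hF
  have h2 : D.kf 0 x b c F ≤ 1 := by
    rw [← h]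
    exact Finset.single_le_sum (fun F _ => T.f_nn 0 x b c F) (Finset.mem_univ F)
  linarith

theorem thk_of (T : D.Thick al) {s : ℕ} {V : Finset X} {x : X} (hV : V ⊆ D.cA s x) : Thk (D.kp T s) V al where
  pos := T.pos
  f y hy y' hy' b c F hF := T.f_thick s y y' b c F ((D.mem_cA.1 (hV hy)).trans (D.mem_cA.1 (hV hy')).symm) hF
  g y hy y' hy' b c F hF := T.g_thick s y y' b c F ((D.mem_cA.1 (hV hy)).trans (D.mem_cA.1 (hV hy')).symm) hF

theorem Pst_nonneg (T : D.Thick al) (del : ℝ) (s : ℕ) (x : X) (b : β) (c : γ) : 0 ≤ Pst T del R s x b c :=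
  Psi_nonneg _ _ _ _ _ _

theorem Pst_le (T : D.Thick al) {del : ℝ} (hd : 0 ≤ del) (s : ℕ) (x : X) (b : β) (c : γ) :
    Pst T del R s x b c ≤ 2 * Real.log (1 / al) :=
  Psi_le_two _ (thk_of T ((hcl_sub R s x b c).trans (R.U_sub s x b c))) (thick_le_one T) hd (R.self_hc s x b c) b c

/-- the six kinds of nodes and falls -/
def be6 (R : Rl D) (q l : ℝ) (s : ℕ) (x : X) (b : β) (c : γ) : Prop :=
  thn R s x b c ∨ tsn R s x b c ∨ R.prc.Eend q s x b c ∨ R.prc.swap.Eend q s x c b ∨ smf R l s x b c ∨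
    smg R l s x b c

theorem be6_inv {q l : ℝ} {s : ℕ} {x : X} {b b' : β} {c c' : γ} (hS : D.Same (s + 1) x b c x b' c') :
    be6 R q l s x b' c' ↔ be6 R q l s x b c := by
  have hx := R.self_U s x b c
  have hv : x ∈ vcl R s x b c := self_vcl R s x b c
  have hv' : x ∈ vcl R s x b' c' := self_vcl R s x b' c'
  have e1 : smf R l s x b' c' ↔ smf R l s x b c := ⟨fun h => (smf_of hS.symm hv' h).1, fun h => (smf_of hS hv h).1⟩
  have e2 : smg R l s x b' c' ↔ smg R l s x b c := ⟨fun h => (smg_of hS.symm hv' h).1, fun h => (smg_of hS hv h).1⟩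
  have e3 : R.prc.Eend q s x b' c' ↔ R.prc.Eend q s x b c := R.prc.Eend_inv hS (R.prc.self_U s x b c)
  have e4 : R.prc.swap.Eend q s x c' b' ↔ R.prc.swap.Eend q s x c b :=
    R.prc.swap.Eend_inv ⟨hS.1, hS.2.2, hS.2.1⟩ (R.prc.swap.self_U s x c b)
  unfold be6
  rw [thn_inv hS hx, tsn_inv hS hx, e1, e2, e3, e4]

/-- one step -/
theorem be_step (T : D.Thick al) {Up : Upd D} {N : Nums} (Ts : Tst R Up N) (h3 : 0 ≤ N.eps3) (h4 : 0 ≤ N.eps4)
    (h5 : N.eps4 + 8 * N.eps3 ≤ 1 / 4) {del y mu q l L0 : ℝ} (hd : 0 ≤ del) (hy : 0 ≤ y) (hL : 1 ≤ L0) (s : ℕ) :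
    E3 (fun x b c => ind (ntn R mu s x b c ∧ bgc R L0 s x b c ∧ ¬ ffF R q l s x b c ∧ ¬ ffG R q l s x b c) *
      Pst T del R s x b c) ≤ y * E3 (fun x b c => ind (bgc R L0 s x b c)) + 2 * Real.log (1 / al) *
        E3 (fun x b c => ind ((ntn R mu s x b c ∧ be6 R q l s x b c) ∧ bdp T del R y s x b c)) := by
  classical
  have hl : 0 ≤ 2 * Real.log (1 / al) := by
    have := Real.log_nonneg (show 1 ≤ 1 / al by rw [le_div_iff₀ T.pos, one_mul]; exact thick_le_one T)
    linarith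
  have a1 : E3 (fun x b c => ind (ntn R mu s x b c ∧ bgc R L0 s x b c ∧ ¬ ffF R q l s x b c ∧ ¬ ffG R q l s x b c) *
      Pst T del R s x b c) ≤ E3 (fun x b c => ind (ntn R mu s x b c ∧ bgc R L0 s x b c ∧ be6 R q l s x b c) *
      Pst T del R s x b c) := by
    refine E3_mono fun x b c => mul_le_mul_of_nonneg_right ?_ (Pst_nonneg T del s x b c)
    by_cases h : ntn R mu s x b c ∧ bgc R L0 s x b c ∧ ¬ ffF R q l s x b c ∧ ¬ ffG R q l s x b c
    · rw [ind_of h, ind_of (show ntn R mu s x b c ∧ bgc R L0 s x b c ∧ be6 R q l s x b c from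
        ⟨h.1, h.2.1, be_cases Ts h3 h4 h5 hL h.2.1 h.2.2.1 h.2.2.2⟩)]
    · rw [ind_not h]
      exact ind_nonneg _
  refine a1.trans ?_
  rw [E3_cells D (s + 1) (s + 1) fun x b c => ind (ntn R mu s x b c ∧ bgc R L0 s x b c ∧ be6 R q l s x b c) *
      Pst T del R s x b c, ← E3_smul, ← E3_smul, ← E3_add]
  refine E3_mono fun x b c => ?_
  have hcB : (D.cB (s + 1) b).Nonempty := ⟨b, D.self_cB _ b⟩
  have hcC : (D.cC (s + 1) c).Nonempty := ⟨c, D.self_cC _ c⟩
  have e1 : (avg (D.cB (s + 1) b) fun b' => avg (D.cC (s + 1) c) fun c' =>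
      ind (ntn R mu s x b' c' ∧ bgc R L0 s x b' c' ∧ be6 R q l s x b' c') * Pst T del R s x b' c') =
      ind (ntn R mu s x b c ∧ bgc R L0 s x b c ∧ be6 R q l s x b c) *
        avg (D.cB (s + 1) b) fun b' => avg (D.cC (s + 1) c) fun c' => Pst T del R s x b' c' := by
    rw [← St.avg_mul]
    refine St.avg_congr fun b' hb' => ?_
    rw [← St.avg_mul]
    refine St.avg_congr fun c' hc' => ?_
    have hS : D.Same (s + 1) x b c x b' c' := ⟨rfl, (D.mem_cB.1 hb').symm, (D.mem_cC.1 hc').symm⟩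
    have hU := R.self_U s x b c
    have k1 : bgc R L0 s x b' c' ↔ bgc R L0 s x b c := by
      unfold bgc
      rw [(R.pub (s + 1) hS (R.self_U (s + 1) x b c)).2, hcl_pub R s hS hU]
    have k2 : (ntn R mu s x b' c' ∧ bgc R L0 s x b' c' ∧ be6 R q l s x b' c') ↔
        (ntn R mu s x b c ∧ bgc R L0 s x b c ∧ be6 R q l s x b c) := by
      rw [ntn_inv hS hU, k1, be6_inv hS]
    rw [propext k2]
  rw [e1]
  set A := avg (D.cB (s + 1) b) fun b' => avg (D.cC (s + 1) c) fun c' => Pst T del R s x b' c' with hA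
  have hA2 : A ≤ 2 * Real.log (1 / al) := by
    rw [hA]
    refine (avg_mono fun b' _ => avg_mono fun c' _ => Pst_le T hd s x b' c').trans ?_
    rw [avg_const hcC, avg_const hcB]
  by_cases h : ntn R mu s x b c ∧ bgc R L0 s x b c ∧ be6 R q l s x b c
  · rw [ind_of h, ind_of h.2.1, one_mul, mul_one]
    by_cases hb : bdp T del R y s x b c
    · rw [ind_of (show (_ ∧ _) ∧ _ from ⟨⟨h.1, h.2.2⟩, hb⟩), mul_one]
      linarith
    · rw [ind_not fun h' : (_ ∧ _) ∧ _ => hb h'.2, mul_zero, add_zero]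
      exact not_lt.1 hb
  · rw [ind_not h, zero_mul]
    exact add_nonneg (mul_nonneg hy (ind_nonneg _)) (mul_nonneg hl (ind_nonneg _))

/-- **(be)**: the loss at the big final cells which are not inside a big fall -/
theorem be_le (T : D.Thick al) {Up : Upd D} {N : Nums} (Ts : Tst R Up N) (h3 : 0 ≤ N.eps3) (h4 : 0 ≤ N.eps4)
    (h5 : N.eps4 + 8 * N.eps3 ≤ 1 / 4) {del y mu q l L0 dl : ℝ} (hd : 0 ≤ del) (hy : 0 ≤ y) (hL : 1 ≤ L0)
    (hrho : 0 ≤ rho) (hdl : 0 < dl) (K : ℕ)
    (hbd : ∀ s < K, ∀ x b c, ntn R mu s x b c →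
      ∑ x' ∈ hcl R s x b c, ind (bdp T del R y s x' b c) ≤ rho * ((hcl R s x b c).card : ℝ)) :
    ∑ s ∈ range K, E3 (fun x b c => ind (ntn R mu s x b c ∧ bgc R L0 s x b c ∧ ¬ ffF R q l s x b c ∧
        ¬ ffG R q l s x b c) * Pst T del R s x b c) ≤
      y * ∑ s ∈ range K, E3 (fun x b c => ind (bgc R L0 s x b c)) + 2 * Real.log (1 / al) *
        (rho * (2 * ntpr R K + ∑ σ ∈ range (K + 1), E3 (fun x b c => ind (R.prc.sb q σ x b c = σ)) +
          ∑ σ ∈ range (K + 1), E3 (fun x c b => ind (R.prc.swap.sb q σ x c b = σ))) +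
          rho * (2 * Real.exp l / dl) * nfall R K + 2 * dl * nfall R K) := by
  classical
  have hl : 0 ≤ 2 * Real.log (1 / al) := by
    have := Real.log_nonneg (show 1 ≤ 1 / al by rw [le_div_iff₀ T.pos, one_mul]; exact thick_le_one T)
    linarith
  have h4' : N.eps4 ≤ 1 / 2 := by linarith
  refine (Finset.sum_le_sum fun s _ => be_step T Ts h3 h4 h5 hd hy hL s (q := q) (l := l) (mu := mu)).trans ?_
  rw [Finset.sum_add_distrib, ← Finset.mul_sum, ← Finset.mul_sum]
  refine add_le_add le_rfl (mul_le_mul_of_nonneg_left ?_ hl)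
  -- the six kinds
  have six : ∀ s < K, E3 (fun x b c => ind ((ntn R mu s x b c ∧ be6 R q l s x b c) ∧ bdp T del R y s x b c)) ≤
      rho * (2 * E3 (fun x b c => ind (tpr R s x b c)) + E3 (fun x b c => ind (R.prc.Eend q s x b c)) +
        E3 (fun x c b => ind (R.prc.swap.Eend q s x c b))) +
      rho * (2 * Real.exp l / dl) * E3 (fun x b c => ind (fall R s x b c)) +
      (E3 (fun x b c => ind (ffall R s x b c) * (if ((vcl R s x b c).card : ℝ) ≤
          dl * ((sdf R).pc (R.ep s x b c) s x b c).card then 1 else 0)) +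
        E3 (fun x b c => ind (gfall R s x b c) * (if ((vcl R s x b c).card : ℝ) ≤
          dl * ((sdg R).pc (R.ep s x b c) s x b c).card then 1 else 0))) := by
    intro s hs
    have b1 := node_part (R := R) (B := bdp T del R y) (mu := mu) hrho (fun x b c h => hbd s hs x b c h)
      (P := thn R s) fun x x' b c hx' h => (thn_inv (hcl_same R hx') (hcl_sub R s x b c hx')).1 h
    have b2 := node_part (R := R) (B := bdp T del R y) (mu := mu) hrho (fun x b c h => hbd s hs x b c h)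
      (P := tsn R s) fun x x' b c hx' h => (tsn_inv (hcl_same R hx') (hcl_sub R s x b c hx')).1 h
    have b3 := node_part (R := R) (B := bdp T del R y) (mu := mu) hrho (fun x b c h => hbd s hs x b c h)
      (P := R.prc.Eend q s) fun x x' b c hx' h =>
        (R.prc.Eend_inv (hcl_same R hx') (hcl_sub R s x b c hx')).1 h
    have b4 := node_part (R := R) (B := bdp T del R y) (mu := mu) hrho (fun x b c h => hbd s hs x b c h)
      (P := fun x b c => R.prc.swap.Eend q s x c b) fun x x' b c hx' h => by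
        have hS := hcl_same R hx'
        refine (R.prc.swap.Eend_inv ⟨hS.1, hS.2.2, hS.2.1⟩ ?_).1 h
        have h1 := hcl_sub R s x b c hx'
        rw [Prc.mem_U]
        have h2 := (R.mem_om _).1 h1
        exact ⟨h2.2, h2.1⟩
    have b5 := smf_part Ts h4' (B := bdp T del R y) (mu := mu) (l := l) hrho hdl (fun x b c h => hbd s hs x b c h)
    have b6 := smg_part Ts h4' (B := bdp T del R y) (mu := mu) (l := l) hrho hdl (fun x b c h => hbd s hs x b c h)
    have b7 := tsn_step Ts h3 h4 h5 s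
    have b8 : E3 (fun x b c => ind (R.prc.swap.Eend q s x c b)) = E3 (fun x c b => ind (R.prc.swap.Eend q s x c b)) := by
      unfold E3
      congr 1
      funext x
      unfold avg
      simp only [← Finset.sum_div]
      rw [Finset.sum_comm, div_div, div_div, mul_comm]
    have b9 : E3 (fun x b c => ind (fall R s x b c)) = E3 (fun x b c => ind (ffall R s x b c)) +
        E3 (fun x b c => ind (gfall R s x b c)) := by
      rw [← E3_add]
      simp only [ind_fall]
    have u : E3 (fun x b c => ind ((ntn R mu s x b c ∧ be6 R q l s x b c) ∧ bdp T del R y s x b c)) ≤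
        E3 (fun x b c => ind ((ntn R mu s x b c ∧ thn R s x b c) ∧ bdp T del R y s x b c)) +
        (E3 (fun x b c => ind ((ntn R mu s x b c ∧ tsn R s x b c) ∧ bdp T del R y s x b c)) +
        (E3 (fun x b c => ind ((ntn R mu s x b c ∧ R.prc.Eend q s x b c) ∧ bdp T del R y s x b c)) +
        (E3 (fun x b c => ind ((ntn R mu s x b c ∧ R.prc.swap.Eend q s x c b) ∧ bdp T del R y s x b c)) +
        (E3 (fun x b c => ind ((ntn R mu s x b c ∧ smf R l s x b c) ∧ bdp T del R y s x b c)) +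
        E3 (fun x b c => ind ((ntn R mu s x b c ∧ smg R l s x b c) ∧ bdp T del R y s x b c)))))) := by
      rw [← E3_add, ← E3_add, ← E3_add, ← E3_add, ← E3_add]
      refine E3_mono fun x b c => ?_
      have n1 := ind_nonneg ((ntn R mu s x b c ∧ thn R s x b c) ∧ bdp T del R y s x b c)
      have n2 := ind_nonneg ((ntn R mu s x b c ∧ tsn R s x b c) ∧ bdp T del R y s x b c)
      have n3 := ind_nonneg ((ntn R mu s x b c ∧ R.prc.Eend q s x b c) ∧ bdp T del R y s x b c)
      have n4 := ind_nonneg ((ntn R mu s x b c ∧ R.prc.swap.Eend q s x c b) ∧ bdp T del R y s x b c)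
      have n5 := ind_nonneg ((ntn R mu s x b c ∧ smf R l s x b c) ∧ bdp T del R y s x b c)
      have n6 := ind_nonneg ((ntn R mu s x b c ∧ smg R l s x b c) ∧ bdp T del R y s x b c)
      by_cases h : (ntn R mu s x b c ∧ be6 R q l s x b c) ∧ bdp T del R y s x b c
      · rw [ind_of h]
        obtain ⟨⟨m1, m2⟩, m3⟩ := h
        rcases m2 with m | m | m | m | m | m
        · rw [ind_of (show (_ ∧ _) ∧ _ from ⟨⟨m1, m⟩, m3⟩)]; linarith
        · rw [ind_of (show (ntn R mu s x b c ∧ tsn R s x b c) ∧ _ from ⟨⟨m1, m⟩, m3⟩)]; linarith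
        · rw [ind_of (show (ntn R mu s x b c ∧ R.prc.Eend q s x b c) ∧ _ from ⟨⟨m1, m⟩, m3⟩)]; linarith
        · rw [ind_of (show (ntn R mu s x b c ∧ R.prc.swap.Eend q s x c b) ∧ _ from ⟨⟨m1, m⟩, m3⟩)]; linarith
        · rw [ind_of (show (ntn R mu s x b c ∧ smf R l s x b c) ∧ _ from ⟨⟨m1, m⟩, m3⟩)]; linarith
        · rw [ind_of (show (ntn R mu s x b c ∧ smg R l s x b c) ∧ _ from ⟨⟨m1, m⟩, m3⟩)]; linarith
      · rw [ind_not h]
        linarith
    have b10 := mul_le_mul_of_nonneg_left b7 hrho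
    rw [b9]
    rw [b8] at b4
    linarith
  refine (Finset.sum_le_sum fun s hs => six s (Finset.mem_range.1 hs)).trans ?_
  have W0 : ∀ a S : ℝ, 0 < a → a ≤ S → 0 ≤ (if a ≤ dl * S then (1 : ℝ) else 0) := fun a S _ _ => by
    split_ifs <;> norm_num
  have W1 : ∀ a S : ℝ, 0 < a → a ≤ S → a * (if a ≤ dl * S then (1 : ℝ) else 0) ≤ dl * S := fun a S ha hS => by
    split_ifs with h
    · rw [mul_one]; exact h
    · rw [mul_zero]
      have : 0 < S := ha.trans_le hS
      positivity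
  have c1 := ch_f R hdl.le W0 W1 K
  have c2 := ch_g R hdl.le W0 W1 K
  have c3 := R.prc.Eend_count q K
  have c4 := R.prc.swap.Eend_count q K
  have c5 : ∑ s ∈ range K, E3 (fun x b c => ind (tpr R s x b c)) = ntpr R K := rfl
  have c6 : ∑ s ∈ range K, E3 (fun x b c => ind (fall R s x b c)) = nfall R K := rfl
  rw [Finset.sum_add_distrib, Finset.sum_add_distrib, Finset.sum_add_distrib, ← Finset.mul_sum, ← Finset.mul_sum,
    Finset.sum_add_distrib, Finset.sum_add_distrib, ← Finset.mul_sum, c5, c6]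
  have c7 := mul_le_mul_of_nonneg_left (add_le_add c3 c4) hrho
  linarith

end be

end

end Pool.Agent.M3.S3
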