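import Pool.Agent.M3.S3.Acc
import Pool.Agent.M3.S3.FComp

/-!
# M3.S3.Bud: entropy budgets along public classes (rows 3.5, 3.7, 3.9)

`Prt V` = the classes `V x` form a partition of `X`; `Rfn V W` = `W` refines `V`; `PV V` = for all `b`, `c` the classes
`V x b c` form a partition of `X`.  `HH k V` = mean entropy of the label with kernel `k` on the class (`Hf D t V = HH
(D.kf t) V`, `Hg D t V = HH (D.kg t) V` by definition).
* `HH_sub` : `HH k V - HH k W = E3 klf (law W) (law V)` for `W` finer than `V` (gain of a refinement), `HH_mono`,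
  `HH_nonneg`, `HH_upd_anti` (data processing: the entropy of an update decreases under refinement);
* `Proj D` : projections of the labels, `birth_of_cells` : `Birth` from the form without classes;
* `bud_f`, `bud_g` : all gains with old labels `≤ Lam`; `bud_new_f`, `bud_new_g` : gains of the partition step with the
  new labels `≤ Lam`;
* `E3_mean`, `E3_pub` : the mean over the own class and over the own cells of `b`, `c`.
-/

set_option autoImplicit false
set_option linter.unusedSectionVars false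
set_option linter.unusedVariables false

namespace Pool.Agent.M3.S3

open Finset Pool.Agent.PWZ

variable {X β γ ι φ κ : Type*}

/-- the classes `V x` form a partition of `X` -/
structure Prt (V : X → Finset X) : Prop where
  self : ∀ x, x ∈ V x
  pub : ∀ x x', x' ∈ V x → V x' = V x

/-- `W` refines `V` -/
def Rfn (V W : X → Finset X) : Prop := ∀ x, W x ⊆ V x

/-- for all `b`, `c` the classes `V x b c` form a partition of `X` -/
def PV (V : X → β → γ → Finset X) : Prop := ∀ b c, Prt (fun x => V x b c)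

/-! ## partitions -/

theorem Prt.mem_symm {V : X → Finset X} (h : Prt V) {x x' : X} (hx : x' ∈ V x) : x ∈ V x' := by
  rw [h.pub x x' hx]; exact h.self x

/-- a class is a block of the partition by the class map -/
theorem Prt.eq_fblk {V : X → Finset X} (h : Prt V) {K : Finset X} {x : X} (hK : V x ⊆ K) :
    fblk K V x = V x := by
  ext y
  rw [mem_fblk]
  constructor
  · rintro ⟨-, h2⟩
    rw [← h2]; exact h.self y
  · intro hy
    exact ⟨hK hy, h.pub x y hy⟩

/-- the mean of a function over the own class -/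
theorem Prt.sum_mean [Fintype X] {V : X → Finset X} (h : Prt V) (f : X → ℝ) :
    ∑ x, f x = ∑ x, avg (V x) f := by
  classical
  have h1 := sum_blk_mean (Finset.univ : Finset X) V f (fun _ => (1 : ℝ))
  simp only [mul_one] at h1
  rw [h1]
  refine Finset.sum_congr rfl (fun x _ => ?_)
  rw [h.eq_fblk (Finset.subset_univ _)]

/-- the mean of a function over the own class, with a weight which is constant on the classes -/
theorem Prt.sum_mean_mul [Fintype X] {V : X → Finset X} (h : Prt V) (f g : X → ℝ)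
    (hg : ∀ x x', x' ∈ V x → g x' = g x) : ∑ x, f x * g x = ∑ x, avg (V x) f * g x := by
  rw [h.sum_mean (fun x => f x * g x)]
  refine Finset.sum_congr rfl (fun x _ => ?_)
  unfold avg
  rw [div_mul_eq_mul_div, Finset.sum_mul]
  congr 1
  refine Finset.sum_congr rfl (fun y hy => ?_)
  show f y * g y = f y * g x
  rw [hg x y hy]

/-- the classes of the fibres of a map -/
theorem prt_fib [Fintype X] [DecidableEq κ] (q : X → κ) :
    Prt (fun x => (Finset.univ.filter fun y => q y = q x)) where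
  self x := by simp
  pub x x' hx := by
    have h : q x' = q x := by simpa using hx
    simp only [h]

/-! ## laws -/

section laws

variable [Fintype φ] {k : X → φ → ℝ} {V W : X → Finset X}

theorem bd_law_pos (h0 : ∀ x F, 0 ≤ k x F) {S : Finset X} {x : X} (hx : x ∈ S) {F : φ} (hF : k x F ≠ 0) :
    0 < law S k F := by
  unfold law avg
  have hc : (0 : ℝ) < S.card := by exact_mod_cast Finset.card_pos.2 ⟨x, hx⟩
  refine div_pos ?_ hc
  refine lt_of_lt_of_le (lt_of_le_of_ne (h0 x F) (Ne.symm hF)) ?_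
  exact Finset.single_le_sum (f := fun y => k y F) (fun y _ => h0 y F) hx

theorem bd_law_nn (h0 : ∀ x F, 0 ≤ k x F) (S : Finset X) (F : φ) : 0 ≤ law S k F :=
  div_nonneg (Finset.sum_nonneg (fun x _ => h0 x F)) (Nat.cast_nonneg _)

theorem bd_law_sup {S T : Finset X} (h0 : ∀ x F, 0 ≤ k x F) (hST : S ⊆ T) {F : φ} (h : law S k F ≠ 0) :
    0 < law T k F := by
  have : ∃ x ∈ S, k x F ≠ 0 := by
    by_contra hc
    push Not at hc
    apply h
    unfold law avg
    rw [Finset.sum_eq_zero hc, zero_div]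
  obtain ⟨x, hx, hF⟩ := this
  exact bd_law_pos h0 (hST hx) hF

theorem bd_law_le_one (h0 : ∀ x F, 0 ≤ k x F) (h1 : ∀ x, ∑ F, k x F = 1) {S : Finset X} (hS : S.Nonempty)
    (F : φ) : law S k F ≤ 1 := by
  rw [← law_sum (k := k) hS (fun x _ => h1 x)]
  exact Finset.single_le_sum (f := fun F => law S k F) (fun F _ => bd_law_nn h0 S F) (Finset.mem_univ F)

theorem bd_klf_nonneg {p q : φ → ℝ} (hp : ∀ F, 0 ≤ p F) (hq : ∀ F, 0 ≤ q F) (hpq : ∀ F, p F ≠ 0 → 0 < q F)
    (hp1 : ∑ F, p F = 1) (hq1 : ∑ F, q F ≤ 1) : 0 ≤ klf p q := by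
  have g := gibbs_law hp hq hpq hp1 hq1
  have e2 : klf p q = - ∑ F, p F * Real.log (q F / p F) := by
    unfold klf
    rw [← Finset.sum_neg_distrib]
    refine Finset.sum_congr rfl (fun F _ => ?_)
    rw [← mul_neg, ← Real.log_inv, inv_div]
  rw [e2]
  linarith

theorem bd_klf_law_nonneg (h0 : ∀ x F, 0 ≤ k x F) (h1 : ∀ x, ∑ F, k x F = 1) {S T : Finset X}
    (hS : S.Nonempty) (h : S ⊆ T) : 0 ≤ klf (law S k) (law T k) :=
  bd_klf_nonneg (fun F => bd_law_nn h0 S F) (fun F => bd_law_nn h0 T F) (fun F hF => bd_law_sup h0 h hF)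
    (law_sum hS (fun x _ => h1 x)) (law_sum (hS.mono h) (fun x _ => h1 x)).le

theorem bd_ent_nonneg (h0 : ∀ x F, 0 ≤ k x F) (h1 : ∀ x, ∑ F, k x F = 1) {S : Finset X} (hS : S.Nonempty) :
    0 ≤ ent (law S k) :=
  Finset.sum_nonneg (fun F _ => Real.negMulLog_nonneg (bd_law_nn h0 S F) (bd_law_le_one h0 h1 hS F))

/-- one side, fixed `b`, `c`: gain of a refinement -/
theorem bd_sub [Fintype X] (h0 : ∀ x F, 0 ≤ k x F) (hV : Prt V) (hW : Prt W) (h : Rfn V W) :
    ∑ x, ent (law (V x) k) - ∑ x, ent (law (W x) k) = ∑ x, klf (law (W x) k) (law (V x) k) := by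
  -- pass to the values of the label of the point itself
  have keyV : ∀ x x', x' ∈ V x → ∀ F, Real.log (law (V x') k F) = Real.log (law (V x) k F) := fun x x' hx F => by
    rw [hV.pub x x' hx]
  have keyW : ∀ x x', x' ∈ W x → ∀ F, Real.log (law (W x') k F) = Real.log (law (W x) k F) := fun x x' hx F => by
    rw [hW.pub x x' hx]
  have eV : ∑ x, ent (law (V x) k) = - ∑ x, ∑ F, k x F * Real.log (law (V x) k F) := by
    have e1 : ∀ x, ent (law (V x) k) = - ∑ F, law (V x) k F * Real.log (law (V x) k F) := fun x => by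
      unfold ent
      rw [← Finset.sum_neg_distrib]
      exact Finset.sum_congr rfl (fun F _ => by rw [Real.negMulLog]; ring)
    rw [Finset.sum_congr rfl (fun x _ => e1 x), Finset.sum_neg_distrib, neg_inj, Finset.sum_comm,
      Finset.sum_comm (s := (Finset.univ : Finset X))]
    refine Finset.sum_congr rfl (fun F _ => ?_)
    exact (hV.sum_mean_mul (fun x => k x F) (fun x => Real.log (law (V x) k F))
      (fun x x' hx => keyV x x' hx F)).symm
  have eW : ∑ x, ent (law (W x) k) = - ∑ x, ∑ F, k x F * Real.log (law (W x) k F) := by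
    have e1 : ∀ x, ent (law (W x) k) = - ∑ F, law (W x) k F * Real.log (law (W x) k F) := fun x => by
      unfold ent
      rw [← Finset.sum_neg_distrib]
      exact Finset.sum_congr rfl (fun F _ => by rw [Real.negMulLog]; ring)
    rw [Finset.sum_congr rfl (fun x _ => e1 x), Finset.sum_neg_distrib, neg_inj, Finset.sum_comm,
      Finset.sum_comm (s := (Finset.univ : Finset X))]
    refine Finset.sum_congr rfl (fun F _ => ?_)
    exact (hW.sum_mean_mul (fun x => k x F) (fun x => Real.log (law (W x) k F))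
      (fun x x' hx => keyW x x' hx F)).symm
  have eK : ∑ x, klf (law (W x) k) (law (V x) k) =
      ∑ x, ∑ F, k x F * Real.log (law (W x) k F / law (V x) k F) := by
    unfold klf
    rw [Finset.sum_comm, Finset.sum_comm (s := (Finset.univ : Finset X))]
    refine Finset.sum_congr rfl (fun F _ => ?_)
    exact (hW.sum_mean_mul (fun x => k x F) (fun x => Real.log (law (W x) k F / law (V x) k F))
      (fun x x' hx => by rw [hW.pub x x' hx, hV.pub x x' (h x hx)])).symm
  rw [eV, eW, eK, neg_sub_neg, ← Finset.sum_sub_distrib]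
  refine Finset.sum_congr rfl (fun x _ => ?_)
  rw [← Finset.sum_sub_distrib]
  refine Finset.sum_congr rfl (fun F _ => ?_)
  by_cases hF : k x F = 0
  · rw [hF]; ring
  · rw [Real.log_div (bd_law_pos h0 (hW.self x) hF).ne' (bd_law_pos h0 (hV.self x) hF).ne']
    ring

end laws

/-! ## the product -/

section product

variable [Fintype X] [Fintype β] [Fintype γ]

theorem avg_sum_comm {α α' : Type*} (S : Finset α) (T : Finset α') (g : α → α' → ℝ) :
    avg S (fun a => ∑ c ∈ T, g a c) = ∑ c ∈ T, avg S (fun a => g a c) := by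
  unfold avg
  rw [Finset.sum_comm, Finset.sum_div]

/-- the mean through the sums -/
theorem E3_eq (f : X → β → γ → ℝ) :
    E3 f = (∑ b, ∑ c, ∑ x, f x b c) / (Fintype.card X * Fintype.card β * Fintype.card γ) := by
  unfold E3 avg
  simp only [Finset.card_univ]
  have e : ∑ b, ∑ c, ∑ x, f x b c = ∑ x, ∑ b, ∑ c, f x b c := by
    calc ∑ b, ∑ c, ∑ x, f x b c = ∑ b, ∑ x, ∑ c, f x b c :=
          Finset.sum_congr rfl (fun b _ => Finset.sum_comm)
      _ = _ := Finset.sum_comm
  rw [e]
  simp only [← Finset.sum_div]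
  rw [div_div, div_div]
  congr 1
  ring

theorem E3_mono {f g : X → β → γ → ℝ} (h : ∀ x b c, f x b c ≤ g x b c) : E3 f ≤ E3 g :=
  avg_mono (fun x _ => avg_mono (fun b _ => avg_mono (fun c _ => h x b c)))

theorem E3_nonneg {f : X → β → γ → ℝ} (h : ∀ x b c, 0 ≤ f x b c) : 0 ≤ E3 f := by
  rw [E3_eq]
  exact div_nonneg (Finset.sum_nonneg (fun b _ => Finset.sum_nonneg (fun c _ =>
    Finset.sum_nonneg (fun x _ => h x b c)))) (by positivity)

theorem E3_add (f g : X → β → γ → ℝ) : E3 (fun x b c => f x b c + g x b c) = E3 f + E3 g := by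
  unfold E3
  simp only [avg_add]

theorem E3_sub (f g : X → β → γ → ℝ) : E3 (fun x b c => f x b c - g x b c) = E3 f - E3 g := by
  rw [E3_eq, E3_eq, E3_eq, ← sub_div]
  simp only [Finset.sum_sub_distrib]

theorem E3_smul (a : ℝ) (f : X → β → γ → ℝ) : E3 (fun x b c => a * f x b c) = a * E3 f := by
  unfold E3
  simp only [avg_smul]

/-- the mean over the own class -/
theorem E3_mean {V : X → β → γ → Finset X} (hV : PV V) (f : X → β → γ → ℝ) :
    E3 f = E3 fun x b c => avg (V x b c) fun x' => f x' b c := by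
  rw [E3_eq, E3_eq]
  congr 1
  refine Finset.sum_congr rfl (fun b _ => Finset.sum_congr rfl (fun c _ => ?_))
  exact (hV b c).sum_mean (fun x => f x b c)

/-- the mean over the own cells of `b` and `c` -/
theorem E3_cells (D : Dat X β γ ι φ) (s t : ℕ) (f : X → β → γ → ℝ) :
    E3 f = E3 fun x b c => avg (D.cB s b) fun b' => avg (D.cC t c) fun c' => f x b' c' := by
  classical
  have eB : ∀ b, (Finset.univ.filter fun y => D.qb s y = D.qb s b) = D.cB s b := by
    intro b; ext y; rw [D.mem_cB]; simp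
  have eC : ∀ c, (Finset.univ.filter fun y => D.qc t y = D.qc t c) = D.cC t c := by
    intro c; ext y; rw [D.mem_cC]; simp
  have e1 : ∀ x, ∑ b, ∑ c, f x b c =
      ∑ b, ∑ c, avg (D.cB s b) fun b' => avg (D.cC t c) fun c' => f x b' c' := by
    intro x
    have hb := (prt_fib (D.qb s)).sum_mean (fun b => ∑ c, f x b c)
    simp only [eB] at hb
    rw [hb]
    refine Finset.sum_congr rfl (fun b _ => ?_)
    have h2 : ∀ b', ∑ c, f x b' c = ∑ c, avg (D.cC t c) fun c' => f x b' c' := by
      intro b'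
      have hc := (prt_fib (D.qc t)).sum_mean (fun c => f x b' c)
      simp only [eC] at hc
      exact hc
    simp only [h2]
    exact avg_sum_comm (D.cB s b) Finset.univ _
  have e3 : ∀ (g : X → β → γ → ℝ), ∑ b, ∑ c, ∑ x, g x b c = ∑ x, ∑ b, ∑ c, g x b c := by
    intro g
    calc ∑ b, ∑ c, ∑ x, g x b c = ∑ b, ∑ x, ∑ c, g x b c :=
          Finset.sum_congr rfl (fun b _ => Finset.sum_comm)
      _ = _ := Finset.sum_comm
  rw [E3_eq, E3_eq, e3, e3]
  congr 1
  exact Finset.sum_congr rfl (fun x _ => e1 x)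

/-- the mean over the own class and the own cells of `b` and `c` (`V` public at the times `s`, `t`) -/
theorem E3_pub (D : Dat X β γ ι φ) (s t : ℕ) {V : X → β → γ → Finset X} (hV : PV V) (f : X → β → γ → ℝ) :
    E3 f = E3 fun x b c => avg (V x b c) fun x' => avg (D.cB s b) fun b' => avg (D.cC t c) fun c' =>
      f x' b' c' := by
  rw [E3_cells D s t f, E3_mean hV]

end product

/-! ## entropies of labels -/

section HH

variable [Fintype X] [Fintype β] [Fintype γ] [Fintype φ] {k k0 : X → β → γ → φ → ℝ}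
  {V W : X → β → γ → Finset X}

/-- mean entropy of the label with kernel `k` on the class `V x b c` -/
noncomputable def HH (k : X → β → γ → φ → ℝ) (V : X → β → γ → Finset X) : ℝ :=
  E3 fun x b c => ent fun F => law (V x b c) (fun y => k y b c) F

theorem Hf_eq (D : Dat X β γ ι φ) (t : ℕ) (V : X → β → γ → Finset X) : Hf D t V = HH (D.kf t) V := rfl

theorem Hg_eq (D : Dat X β γ ι φ) (t : ℕ) (V : X → β → γ → Finset X) : Hg D t V = HH (D.kg t) V := rfl

theorem HH_nonneg (h0 : ∀ x b c F, 0 ≤ k x b c F) (h1 : ∀ x b c, ∑ F, k x b c F = 1) (hV : PV V) :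
    0 ≤ HH k V :=
  E3_nonneg (fun x b c => bd_ent_nonneg (fun y F => h0 y b c F) (fun y => h1 y b c) ⟨x, (hV b c).self x⟩)

/-- GAIN OF A REFINEMENT -/
theorem HH_sub (h0 : ∀ x b c F, 0 ≤ k x b c F) (hV : PV V) (hW : PV W) (h : ∀ x b c, W x b c ⊆ V x b c) :
    HH k V - HH k W = E3 fun x b c =>
      klf (law (W x b c) fun y => k y b c) (law (V x b c) fun y => k y b c) := by
  unfold HH
  rw [E3_eq, E3_eq, E3_eq, ← sub_div]
  congr 1
  rw [← Finset.sum_sub_distrib]
  refine Finset.sum_congr rfl (fun b _ => ?_)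
  rw [← Finset.sum_sub_distrib]
  refine Finset.sum_congr rfl (fun c _ => ?_)
  exact bd_sub (fun y F => h0 y b c F) (hV b c) (hW b c) (fun x => h x b c)

theorem HH_mono (h0 : ∀ x b c F, 0 ≤ k x b c F) (h1 : ∀ x b c, ∑ F, k x b c F = 1) (hV : PV V) (hW : PV W)
    (h : ∀ x b c, W x b c ⊆ V x b c) : HH k W ≤ HH k V := by
  rw [← sub_nonneg, HH_sub h0 hV hW h]
  exact E3_nonneg (fun x b c => bd_klf_law_nonneg (fun y F => h0 y b c F) (fun y => h1 y b c)
    ⟨x, (hW b c).self x⟩ (h x b c))

/-- DATA PROCESSING: the gain of a refinement is larger for the finer label; in other words the entropy of an update of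
the label decreases under a refinement of the classes -/
theorem HH_upd_anti [DecidableEq φ] (h0 : ∀ x b c F, 0 ≤ k x b c F) (h00 : ∀ x b c F, 0 ≤ k0 x b c F)
    (hV : PV V) (hW : PV W) (h : ∀ x b c, W x b c ⊆ V x b c) (π : X → β → γ → φ → φ)
    (hπ : ∀ x b c, ∀ y ∈ V x b c, ∀ G, k0 y b c G = ∑ F, if π x b c F = G then k y b c F else 0) :
    HH k W - HH k0 W ≤ HH k V - HH k0 V := by
  have e1 := HH_sub h0 hV hW h
  have e2 := HH_sub h00 hV hW h
  have e3 : E3 (fun x b c => klf (law (W x b c) fun y => k0 y b c) (law (V x b c) fun y => k0 y b c)) ≤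
      E3 (fun x b c => klf (law (W x b c) fun y => k y b c) (law (V x b c) fun y => k y b c)) := by
    refine E3_mono (fun x b c => ?_)
    have lm : ∀ {S : Finset X}, S ⊆ V x b c → ∀ G, law S (fun y => k0 y b c) G =
        ∑ F, if π x b c F = G then law S (fun y => k y b c) F else 0 := by
      intro S hS G
      unfold law avg
      rw [Finset.sum_congr rfl (fun y hy => hπ x b c y (hS hy) G), Finset.sum_comm, Finset.sum_div]
      refine Finset.sum_congr rfl (fun F _ => ?_)
      by_cases h : π x b c F = G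
      · simp only [if_pos h]
      · simp only [if_neg h, Finset.sum_const_zero, zero_div]
    unfold klf
    simp only [lm (h x b c), lm (Finset.Subset.refl _)]
    exact klf_map_le (π x b c) (fun F => bd_law_nn (fun y F => h0 y b c F) _ F)
      (fun F => bd_law_nn (fun y F => h0 y b c F) _ F)
      (fun F hF => bd_law_sup (fun y F => h0 y b c F) (h x b c) hF)
  linarith

end HH

/-! ## the budgets -/

section budget

variable [Fintype X] [Fintype β] [Fintype γ] [Fintype φ] {D : Dat X β γ ι φ}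

theorem RefCl.pv {V : ℕ → X → β → γ → Finset X} (h : RefCl D V) (t : ℕ) : PV (V t) := fun b c =>
  ⟨fun x => h.self t x b c, fun x x' hx => h.pub t x b c x' b c
    ⟨(D.mem_cA.1 (h.cell t x b c hx)).symm, rfl, rfl⟩ hx⟩

theorem cA_pv (t : ℕ) : PV (fun x (_ : β) (_ : γ) => D.cA t x) := fun _ _ =>
  ⟨fun x => D.self_cA t x, fun _ _ hx => D.cA_congr (D.mem_cA.1 hx)⟩

/-- the projections of the labels -/
structure Proj [DecidableEq φ] (D : Dat X β γ ι φ) where
  pf : ℕ → X → β → γ → φ → φ
  pg : ℕ → X → β → γ → φ → φ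
  f : ∀ t x b c y, D.qa (t + 1) y = D.qa (t + 1) x → ∀ G,
    D.kf t y b c G = ∑ F, if pf t x b c F = G then D.kf (t + 1) y b c F else 0
  g : ∀ t x b c y, D.qa (t + 1) y = D.qa (t + 1) x → ∀ G,
    D.kg t y b c G = ∑ F, if pg t x b c F = G then D.kg (t + 1) y b c F else 0

/-- (H2) from the form without classes -/
theorem birth_of_cells [DecidableEq φ] {al : ℝ} (T : D.Thick al) (P : Proj D) {K : ℕ} {Lam : ℝ}
    (hf : Hf D 0 (fun x _ _ => D.cA 0 x) + ∑ t ∈ range K,
      (Hf D (t + 1) (fun x _ _ => D.cA (t + 1) x) - Hf D t (fun x _ _ => D.cA (t + 1) x)) ≤ Lam)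
    (hg : Hg D 0 (fun x _ _ => D.cA 0 x) + ∑ t ∈ range K,
      (Hg D (t + 1) (fun x _ _ => D.cA (t + 1) x) - Hg D t (fun x _ _ => D.cA (t + 1) x)) ≤ Lam) :
    Birth D K Lam where
  f V hV := by
    refine le_trans (add_le_add ?_ (Finset.sum_le_sum (fun t _ => ?_))) hf
    · exact HH_mono (fun x b c F => T.f_nn 0 x b c F) (fun x b c => T.f_one 0 x b c) (cA_pv 0) (hV.pv 0)
        (fun x b c => hV.cell 0 x b c)
    · exact HH_upd_anti (fun x b c F => T.f_nn (t + 1) x b c F) (fun x b c F => T.f_nn t x b c F)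
        (cA_pv (t + 1)) (hV.pv (t + 1)) (fun x b c => hV.cell (t + 1) x b c) (P.pf t)
        (fun x b c y hy G => P.f t x b c y (D.mem_cA.1 hy) G)
  g V hV := by
    refine le_trans (add_le_add ?_ (Finset.sum_le_sum (fun t _ => ?_))) hg
    · exact HH_mono (fun x b c F => T.g_nn 0 x b c F) (fun x b c => T.g_one 0 x b c) (cA_pv 0) (hV.pv 0)
        (fun x b c => hV.cell 0 x b c)
    · exact HH_upd_anti (fun x b c F => T.g_nn (t + 1) x b c F) (fun x b c F => T.g_nn t x b c F)
        (cA_pv (t + 1)) (hV.pv (t + 1)) (fun x b c => hV.cell (t + 1) x b c) (P.pg t)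
        (fun x b c y hy G => P.g t x b c y (D.mem_cA.1 hy) G)

section rule

variable (R : Rl D)

theorem hcl_sub (s : ℕ) (x : X) (b : β) (c : γ) : hcl R s x b c ⊆ R.U s x b c := fun y hy =>
  (R.mem_hc.1 hy).1

theorem U_sub_hcl (s : ℕ) (x : X) (b : β) (c : γ) : R.U (s + 1) x b c ⊆ hcl R s x b c := fun y hy =>
  R.mem_hc.2 ⟨R.U_succ_sub s x b c hy, D.mem_cA.1 (R.U_sub (s + 1) x b c hy)⟩

theorem mem_hcl {s : ℕ} {x : X} {b : β} {c : γ} {y : X} :
    y ∈ hcl R s x b c ↔ y ∈ R.U s x b c ∧ D.qa (s + 1) y = D.qa (s + 1) x := R.mem_hc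

theorem hcl_pub (s : ℕ) {x x' : X} {b b' : β} {c c' : γ} (hS : D.Same (s + 1) x b c x' b' c')
    (hx : x' ∈ R.U s x b c) : hcl R s x' b' c' = hcl R s x b c := by
  ext y
  rw [mem_hcl, mem_hcl, (R.pub s (hS.le (Nat.le_succ s)) hx).2, hS.1]

/-- the half step classes, as a refining family: at the time 0 the class itself, at the time `t+1` the half step class -/
noncomputable def hfam (t : ℕ) : X → β → γ → Finset X :=
  match t with
  | 0 => R.U 0
  | t + 1 => hcl R t

theorem hfam_refCl : RefCl D (hfam R) where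
  self t x b c := by
    cases t with
    | zero => exact R.self_U 0 x b c
    | succ t => exact R.self_hc t x b c
  cell t x b c := by
    cases t with
    | zero => exact R.U_sub 0 x b c
    | succ t =>
      intro y hy
      exact D.mem_cA.2 (R.mem_hc.1 hy).2
  pub t x b c x' b' c' hS hx := by
    cases t with
    | zero => exact (R.pub 0 hS hx).2
    | succ t => exact hcl_pub R t hS ((mem_hcl R).1 hx).1
  ref t x b c := by
    cases t with
    | zero => exact hcl_sub R 0 x b c
    | succ t => exact (hcl_sub R (t + 1) x b c).trans (U_sub_hcl R t x b c)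

theorem U_pv (t : ℕ) : PV (R.U t) := (U_refCl R).pv t

theorem hcl_pv (t : ℕ) : PV (hcl R t) := (hfam_refCl R).pv (t + 1)

variable {al Lam : ℝ} {K : ℕ}

/-- BUDGET of all gains with the old labels: digit and partition of the half step class, first labels -/
theorem bud_f (T : D.Thick al) (hB : Birth D K Lam) :
    ∑ t ∈ range K, ((Hf D t (R.U t) - Hf D t (hcl R t)) + (Hf D t (hcl R t) - Hf D t (R.U (t + 1)))) ≤ Lam := by
  have h1 := hB.f R.U (U_refCl R)
  have h2 : 0 ≤ Hf D K (R.U K) := HH_nonneg (fun x b c F => T.f_nn K x b c F) (fun x b c => T.f_one K x b c)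
    (U_pv R K)
  have h3 : ∀ m, ∑ t ∈ range m, ((Hf D t (R.U t) - Hf D t (hcl R t)) + (Hf D t (hcl R t) - Hf D t (R.U (t + 1)))) =
      Hf D 0 (R.U 0) + ∑ t ∈ range m, (Hf D (t + 1) (R.U (t + 1)) - Hf D t (R.U (t + 1))) - Hf D m (R.U m) := by
    intro m
    induction m with
    | zero => simp
    | succ m ih => rw [Finset.sum_range_succ, Finset.sum_range_succ, ih]; ring
  rw [h3]
  linarith

/-- BUDGET of all gains with the old labels, second labels -/
theorem bud_g (T : D.Thick al) (hB : Birth D K Lam) :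
    ∑ t ∈ range K, ((Hg D t (R.U t) - Hg D t (hcl R t)) + (Hg D t (hcl R t) - Hg D t (R.U (t + 1)))) ≤ Lam := by
  have h1 := hB.g R.U (U_refCl R)
  have h2 : 0 ≤ Hg D K (R.U K) := HH_nonneg (fun x b c F => T.g_nn K x b c F) (fun x b c => T.g_one K x b c)
    (U_pv R K)
  have h3 : ∀ m, ∑ t ∈ range m, ((Hg D t (R.U t) - Hg D t (hcl R t)) + (Hg D t (hcl R t) - Hg D t (R.U (t + 1)))) =
      Hg D 0 (R.U 0) + ∑ t ∈ range m, (Hg D (t + 1) (R.U (t + 1)) - Hg D t (R.U (t + 1))) - Hg D m (R.U m) := by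
    intro m
    induction m with
    | zero => simp
    | succ m ih => rw [Finset.sum_range_succ, Finset.sum_range_succ, ih]; ring
  rw [h3]
  linarith

/-- BUDGET of the gains of the partition step with the NEW labels, first labels -/
theorem bud_new_f (T : D.Thick al) (hB : Birth D K Lam) :
    ∑ t ∈ range K, (Hf D (t + 1) (hcl R t) - Hf D (t + 1) (R.U (t + 1))) ≤ Lam := by
  have h1 := hB.f (hfam R) (hfam_refCl R)
  have h2 : 0 ≤ Hf D K (R.U K) := HH_nonneg (fun x b c F => T.f_nn K x b c F) (fun x b c => T.f_one K x b c)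
    (U_pv R K)
  have h4 : ∀ t, Hf D t (hcl R t) ≤ Hf D t (R.U t) := fun t =>
    HH_mono (fun x b c F => T.f_nn t x b c F) (fun x b c => T.f_one t x b c) (U_pv R t) (hcl_pv R t)
      (fun x b c => hcl_sub R t x b c)
  have h3 : ∀ m, ∑ t ∈ range m, (Hf D (t + 1) (hcl R t) - Hf D (t + 1) (R.U (t + 1))) ≤
      Hf D 0 (R.U 0) + ∑ t ∈ range m, (Hf D (t + 1) (hcl R t) - Hf D t (hcl R t)) - Hf D m (R.U m) := by
    intro m
    induction m with
    | zero => simp
    | succ m ih =>
      rw [Finset.sum_range_succ, Finset.sum_range_succ]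
      have := h4 m
      linarith
  have h5 := h3 K
  have h6 : Hf D 0 (hfam R 0) + ∑ t ∈ range K, (Hf D (t + 1) (hfam R (t + 1)) - Hf D t (hfam R (t + 1))) =
      Hf D 0 (R.U 0) + ∑ t ∈ range K, (Hf D (t + 1) (hcl R t) - Hf D t (hcl R t)) := rfl
  linarith

/-- BUDGET of the gains of the partition step with the NEW labels, second labels -/
theorem bud_new_g (T : D.Thick al) (hB : Birth D K Lam) :
    ∑ t ∈ range K, (Hg D (t + 1) (hcl R t) - Hg D (t + 1) (R.U (t + 1))) ≤ Lam := by
  have h1 := hB.g (hfam R) (hfam_refCl R)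
  have h2 : 0 ≤ Hg D K (R.U K) := HH_nonneg (fun x b c F => T.g_nn K x b c F) (fun x b c => T.g_one K x b c)
    (U_pv R K)
  have h4 : ∀ t, Hg D t (hcl R t) ≤ Hg D t (R.U t) := fun t =>
    HH_mono (fun x b c F => T.g_nn t x b c F) (fun x b c => T.g_one t x b c) (U_pv R t) (hcl_pv R t)
      (fun x b c => hcl_sub R t x b c)
  have h3 : ∀ m, ∑ t ∈ range m, (Hg D (t + 1) (hcl R t) - Hg D (t + 1) (R.U (t + 1))) ≤
      Hg D 0 (R.U 0) + ∑ t ∈ range m, (Hg D (t + 1) (hcl R t) - Hg D t (hcl R t)) - Hg D m (R.U m) := by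
    intro m
    induction m with
    | zero => simp
    | succ m ih =>
      rw [Finset.sum_range_succ, Finset.sum_range_succ]
      have := h4 m
      linarith
  have h5 := h3 K
  have h6 : Hg D 0 (hfam R 0) + ∑ t ∈ range K, (Hg D (t + 1) (hfam R (t + 1)) - Hg D t (hfam R (t + 1))) =
      Hg D 0 (R.U 0) + ∑ t ∈ range K, (Hg D (t + 1) (hcl R t) - Hg D t (hcl R t)) := rfl
  linarith

end rule

end budget

end Pool.Agent.M3.S3
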