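import Pool.Agent.M3.S3.Thm3
import Pool.Agent.M3.S3.Bud
import Pool.Agent.M3.S3.CntChg

/-!
# M3.S3.Bal: consequences of the hypotheses `Hyp3` of Theorem 3 (helper96), both routes

* `al_le_one`, `cA_succ`, `card_cA_half`, `card_dg` : the hidden cell is halved by the digit;
* `birth_of_hyp3`, `updOk_of_hyp3`, `HypAll`, `hyp_all`;
* `Dat.frz K` : the data frozen after the time `K`; `frz_thick`, `frz_hyp3`, `projFrz : Proj (D.frz K)`;
* `unfrz`, `concl3_unfrz` : the conclusion of Theorem 3 for the frozen data gives the conclusion for the data;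
* `thm3_of_frz` : it suffices to prove Theorem 3 for frozen data.
-/

set_option autoImplicit false
set_option linter.unusedSectionVars false

namespace Pool.Agent.M3.S3

open Finset Pool.Agent.PWZ Pool.Agent.M3

noncomputable section

/-! ## thickness -/

section al

variable {X β γ ι φ : Type*} [Fintype φ] {D : Dat X β γ ι φ} {al : ℝ}

theorem al_le_one (T : D.Thick al) [Nonempty X] [Nonempty β] [Nonempty γ] : al ≤ 1 := by
  classical
  obtain ⟨x⟩ := ‹Nonempty X›
  obtain ⟨b⟩ := ‹Nonempty β›
  obtain ⟨c⟩ := ‹Nonempty γ›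
  have h1 := T.f_one 0 x b c
  have h2 : ∃ F, D.kf 0 x b c F ≠ 0 := by
    by_contra hn
    push Not at hn
    rw [Finset.sum_eq_zero fun F _ => hn F] at h1
    norm_num at h1
  obtain ⟨F, hF⟩ := h2
  have h3 := T.f_thick 0 x x b c F rfl hF
  have h4 : D.kf 0 x b c F ≤ ∑ F, D.kf 0 x b c F :=
    Finset.single_le_sum (fun F _ => T.f_nn 0 x b c F) (Finset.mem_univ F)
  linarith

/-- thickness is monotone in the constant -/
theorem Dat.Thick.mono (T : D.Thick al) {al' : ℝ} (h0 : 0 < al') (h : al' ≤ al) : D.Thick al' where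
  pos := h0
  f_nn := T.f_nn
  g_nn := T.g_nn
  f_one := T.f_one
  g_one := T.g_one
  f_thick := fun t x x' b c F hx hF => h.trans (T.f_thick t x x' b c F hx hF)
  g_thick := fun t x x' b c F hx hF => h.trans (T.g_thick t x x' b c F hx hF)

end al

/-! ## the digit halves the hidden cell -/

section half

variable {X β γ ι φ : Type} [Fintype X] [Fintype β] [Fintype γ] [Fintype φ] {D : Dat X β γ ι φ} {dg : ℕ → X → ℝ}
  {prf prg : ℕ → φ → φ} {al Lam : ℝ} {K : ℕ}

open Classical in
theorem cA_succ (H : Hyp3 D dg prf prg al K Lam) {t : ℕ} (ht : t < K) (x : X) :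
    D.cA (t + 1) x = (D.cA t x).filter fun y => dg t y = dg t x := by
  ext y
  rw [D.mem_cA, Finset.mem_filter, D.mem_cA, H.dg_cell t ht]

/-- the numbers of the points with the two digits -/
theorem card_dg (H : Hyp3 D dg prf prg al K Lam) {t : ℕ} (ht : t < K) (x : X) [DecidablePred fun y => dg t y = 1]
    [DecidablePred fun y => dg t y = -1] :
    ((D.cA t x).filter fun y => dg t y = 1).card = ((D.cA t x).filter fun y => dg t y = -1).card := by
  classical
  have h1 := H.dg_bal t ht x
  have h2 : ∀ y, dg t y = (if dg t y = 1 then (1 : ℝ) else 0) - (if dg t y = -1 then 1 else 0) := by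
    intro y
    rcases H.dg_val t y with h | h
    · have h' : ¬ dg t y = -1 := by rw [h]; norm_num
      rw [if_pos h, if_neg h', sub_zero]; exact h
    · have h' : ¬ dg t y = 1 := by rw [h]; norm_num
      rw [if_neg h', if_pos h, zero_sub]; exact h
  rw [Finset.sum_congr rfl fun y _ => h2 y, Finset.sum_sub_distrib, Finset.sum_ite, Finset.sum_ite] at h1
  simp only [Finset.sum_const, nsmul_eq_mul, mul_one, Finset.sum_const_zero, add_zero, sub_eq_zero] at h1
  exact_mod_cast h1

/-- the cell is halved -/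
theorem card_cA_half (H : Hyp3 D dg prf prg al K Lam) {t : ℕ} (ht : t < K) (x : X) :
    2 * (D.cA (t + 1) x).card = (D.cA t x).card := by
  classical
  have h1 := card_dg H ht x
  have h2 : (D.cA t x).card = ((D.cA t x).filter fun y => dg t y = 1).card +
      ((D.cA t x).filter fun y => dg t y = -1).card := by
    rw [← Finset.card_filter_add_card_filter_not (s := D.cA t x) (fun y => dg t y = 1)]
    congr 2
    refine Finset.filter_congr fun y _ => ?_
    constructor
    · intro h
      rcases H.dg_val t y with h' | h'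
      · exact absurd h' h
      · exact h'
    · intro h h'
      rw [h] at h'
      norm_num at h'
  rw [cA_succ H ht]
  rcases H.dg_val t x with h | h
  · simp only [h]
    omega
  · simp only [h]
    omega

theorem card_cA_half' (H : Hyp3 D dg prf prg al K Lam) {t : ℕ} (ht : t < K) (x : X) :
    ((D.cA (t + 1) x).card : ℝ) = (D.cA t x).card / 2 := by
  have h := card_cA_half H ht x
  have h' : (2 : ℝ) * (D.cA (t + 1) x).card = (D.cA t x).card := by exact_mod_cast h
  linarith

/-! ## entropies and updates -/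

/-- (H2) for all refining families of classes -/
theorem birth_of_hyp3 (T : D.Thick al) (H : Hyp3 D dg prf prg al K Lam) : Birth D K Lam where
  f V hV := by
    classical
    refine le_trans (add_le_add ?_ (Finset.sum_le_sum (fun t ht => ?_))) H.Hf2
    · exact HH_mono (fun x b c F => T.f_nn 0 x b c F) (fun x b c => T.f_one 0 x b c) (cA_pv 0) (hV.pv 0)
        (fun x b c => hV.cell 0 x b c)
    · refine HH_upd_anti (fun x b c F => T.f_nn (t + 1) x b c F) (fun x b c F => T.f_nn t x b c F)
        (cA_pv (t + 1)) (hV.pv (t + 1)) (fun x b c => hV.cell (t + 1) x b c) (fun _ _ _ => prf t)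
        (fun x b c y _ G => ?_)
      rw [H.kf_pr t (Finset.mem_range.1 ht)]
      refine Finset.sum_congr rfl fun F _ => ?_
      by_cases h : prf t F = G
      · rw [ind_of h, if_pos h, one_mul]
      · rw [ind_not h, if_neg h, zero_mul]
  g V hV := by
    classical
    refine le_trans (add_le_add ?_ (Finset.sum_le_sum (fun t ht => ?_))) H.Hg2
    · exact HH_mono (fun x b c F => T.g_nn 0 x b c F) (fun x b c => T.g_one 0 x b c) (cA_pv 0) (hV.pv 0)
        (fun x b c => hV.cell 0 x b c)
    · refine HH_upd_anti (fun x b c F => T.g_nn (t + 1) x b c F) (fun x b c F => T.g_nn t x b c F)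
        (cA_pv (t + 1)) (hV.pv (t + 1)) (fun x b c => hV.cell (t + 1) x b c) (fun _ _ _ => prg t)
        (fun x b c y _ G => ?_)
      rw [H.kg_pr t (Finset.mem_range.1 ht)]
      refine Finset.sum_congr rfl fun F _ => ?_
      by_cases h : prg t F = G
      · rw [ind_of h, if_pos h, one_mul]
      · rw [ind_not h, if_neg h, zero_mul]

/-- (H3) in the form of the counters -/
theorem updOk_of_hyp3 (H : Hyp3 D dg prf prg al K Lam) : UpdOk D (updC D) K (Real.exp Lam) := by
  refine updC_ok (fun x b c => ?_) (fun x b c => ?_)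
  · refine le_trans (le_of_eq (Finset.sum_congr rfl fun t _ => ?_)) (H.cf3 x b c)
    congr 1
    unfold chf
    refine propext (exists_congr fun y => ?_)
    rw [D.mem_cA]
  · refine le_trans (le_of_eq (Finset.sum_congr rfl fun t _ => ?_)) (H.cg3 x b c)
    congr 1
    unfold chl
    refine propext (exists_congr fun y => ?_)
    rw [D.mem_cA]

/-- all consequences -/
structure HypAll (D : Dat X β γ ι φ) (dg : ℕ → X → ℝ) (al : ℝ) (K : ℕ) (Lam : ℝ) : Prop where
  Lam1 : 1 ≤ Lam
  al0 : 0 < al
  al1 : al ≤ 1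
  alL : Real.exp (-Lam) ≤ al
  loga : Real.log (1 / al) ≤ Lam
  birth : Birth D K Lam
  upd : UpdOk D (updC D) K (Real.exp Lam)
  halfA : ∀ t < K, ∀ x, 2 * (D.cA (t + 1) x).card = (D.cA t x).card
  halfA' : ∀ t < K, ∀ x, ((D.cA (t + 1) x).card : ℝ) = (D.cA t x).card / 2

theorem hyp_all [Nonempty X] [Nonempty β] [Nonempty γ] (T : D.Thick al) (H : Hyp3 D dg prf prg al K Lam) :
    HypAll D dg al K Lam where
  Lam1 := H.Lam1
  al0 := T.pos
  al1 := al_le_one T
  alL := H.alL
  loga := by
    rw [Real.log_div one_ne_zero T.pos.ne', Real.log_one, zero_sub]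
    have h1 := Real.log_le_log (Real.exp_pos _) H.alL
    rw [Real.log_exp] at h1
    linarith
  birth := birth_of_hyp3 T H
  upd := updOk_of_hyp3 H
  halfA := fun t ht x => card_cA_half H ht x
  halfA' := fun t ht x => card_cA_half' H ht x

end half

/-! ## the data frozen after the time `K` -/

section frz

variable {X β γ ι φ : Type}

/-- the data frozen after the time `K` -/
def Dat.frz (D : Dat X β γ ι φ) (K : ℕ) : Dat X β γ ι φ where
  qa t := D.qa (min t K)
  qb t := D.qb (min t K)
  qc t := D.qc (min t K)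
  kf t := D.kf (min t K)
  kg t := D.kg (min t K)
  ra t x x' h := D.qa_le (min_le_min_right K (Nat.le_succ t)) h
  rb t x x' h := D.qb_le (min_le_min_right K (Nat.le_succ t)) h
  rc t x x' h := D.qc_le (min_le_min_right K (Nat.le_succ t)) h
  kf_c t x b c c' h := D.kf_c (min t K) x b c c' h
  kg_b t x b b' c h := D.kg_b (min t K) x b b' c h

variable {D : Dat X β γ ι φ} {K : ℕ}

theorem frz_kf {t : ℕ} (h : t ≤ K) : (D.frz K).kf t = D.kf t := by
  show D.kf (min t K) = D.kf t
  rw [min_eq_left h]

theorem frz_kg {t : ℕ} (h : t ≤ K) : (D.frz K).kg t = D.kg t := by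
  show D.kg (min t K) = D.kg t
  rw [min_eq_left h]

theorem frz_qa {t : ℕ} (h : t ≤ K) : (D.frz K).qa t = D.qa t := by
  show D.qa (min t K) = D.qa t
  rw [min_eq_left h]

theorem frz_qb {t : ℕ} (h : t ≤ K) : (D.frz K).qb t = D.qb t := by
  show D.qb (min t K) = D.qb t
  rw [min_eq_left h]

theorem frz_qc {t : ℕ} (h : t ≤ K) : (D.frz K).qc t = D.qc t := by
  show D.qc (min t K) = D.qc t
  rw [min_eq_left h]

theorem frz_cA [Fintype X] (t : ℕ) : (D.frz K).cA t = D.cA (min t K) := by
  funext x
  ext y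
  rw [Dat.mem_cA, Dat.mem_cA]
  exact Iff.rfl

theorem frz_cB [Fintype β] (t : ℕ) : (D.frz K).cB t = D.cB (min t K) := by
  funext x
  ext y
  rw [Dat.mem_cB, Dat.mem_cB]
  exact Iff.rfl

theorem frz_cC [Fintype γ] (t : ℕ) : (D.frz K).cC t = D.cC (min t K) := by
  funext x
  ext y
  rw [Dat.mem_cC, Dat.mem_cC]
  exact Iff.rfl

theorem frz_thick [Fintype φ] {al : ℝ} (T : D.Thick al) (K : ℕ) : (D.frz K).Thick al where
  pos := T.pos
  f_nn t := T.f_nn (min t K)
  g_nn t := T.g_nn (min t K)
  f_one t := T.f_one (min t K)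
  g_one t := T.g_one (min t K)
  f_thick t := T.f_thick (min t K)
  g_thick t := T.g_thick (min t K)

variable [Fintype X] [Fintype β] [Fintype γ] [Fintype φ] {dg : ℕ → X → ℝ} {prf prg : ℕ → φ → φ} {al Lam : ℝ}

theorem frz_hyp3 (H : Hyp3 D dg prf prg al K Lam) : Hyp3 (D.frz K) dg prf prg al K Lam where
  Lam1 := H.Lam1
  alL := H.alL
  dg_val := H.dg_val
  dg_cell t ht x x' := by
    rw [frz_qa (by omega : t + 1 ≤ K), frz_qa (by omega : t ≤ K)]
    exact H.dg_cell t ht x x'
  dg_bal t ht x := by
    rw [frz_cA, min_eq_left (by omega : t ≤ K)]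
    exact H.dg_bal t ht x
  halfB t ht := by
    rw [frz_cB, frz_cB, min_eq_left (by omega : t ≤ K), min_eq_left (by omega : t + 1 ≤ K)]
    exact H.halfB t ht
  halfC t ht := by
    rw [frz_cC, frz_cC, min_eq_left (by omega : t ≤ K), min_eq_left (by omega : t + 1 ≤ K)]
    exact H.halfC t ht
  kf_pr t ht x b c F := by
    rw [frz_kf (by omega : t + 1 ≤ K), frz_kf (by omega : t ≤ K)]
    exact H.kf_pr t ht x b c F
  kg_pr t ht x b c F := by
    rw [frz_kg (by omega : t + 1 ≤ K), frz_kg (by omega : t ≤ K)]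
    exact H.kg_pr t ht x b c F
  Hf2 := by
    have e0 : Hf (D.frz K) 0 (fun x _ _ => (D.frz K).cA 0 x) = Hf D 0 (fun x _ _ => D.cA 0 x) := by
      unfold Hf
      rw [frz_kf (Nat.zero_le K), frz_cA, min_eq_left (Nat.zero_le K)]
    rw [e0]
    refine le_trans (le_of_eq ?_) H.Hf2
    refine congrArg (fun z => Hf D 0 (fun x _ _ => D.cA 0 x) + z) (Finset.sum_congr rfl fun t ht => ?_)
    have h1 := Finset.mem_range.1 ht
    unfold Hf
    rw [frz_kf (by omega : t ≤ K), frz_kf (by omega : t + 1 ≤ K), frz_cA, min_eq_left (by omega : t + 1 ≤ K)]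
  Hg2 := by
    have e0 : Hg (D.frz K) 0 (fun x _ _ => (D.frz K).cA 0 x) = Hg D 0 (fun x _ _ => D.cA 0 x) := by
      unfold Hg
      rw [frz_kg (Nat.zero_le K), frz_cA, min_eq_left (Nat.zero_le K)]
    rw [e0]
    refine le_trans (le_of_eq ?_) H.Hg2
    refine congrArg (fun z => Hg D 0 (fun x _ _ => D.cA 0 x) + z) (Finset.sum_congr rfl fun t ht => ?_)
    have h1 := Finset.mem_range.1 ht
    unfold Hg
    rw [frz_kg (by omega : t ≤ K), frz_kg (by omega : t + 1 ≤ K), frz_cA, min_eq_left (by omega : t + 1 ≤ K)]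
  cf3 x b c := by
    refine le_trans (le_of_eq (Finset.sum_congr rfl fun t ht => ?_)) (H.cf3 x b c)
    have h1 := Finset.mem_range.1 ht
    rw [frz_kf (by omega : t ≤ K), frz_kf (by omega : t + 1 ≤ K), frz_cA, min_eq_left (by omega : t + 1 ≤ K)]
  cg3 x b c := by
    refine le_trans (le_of_eq (Finset.sum_congr rfl fun t ht => ?_)) (H.cg3 x b c)
    have h1 := Finset.mem_range.1 ht
    rw [frz_kg (by omega : t ≤ K), frz_kg (by omega : t + 1 ≤ K), frz_cA, min_eq_left (by omega : t + 1 ≤ K)]

/-- PROJECTIONS of the labels of the frozen data -/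
def projFrz [DecidableEq φ] (H : Hyp3 D dg prf prg al K Lam) : Proj (D.frz K) where
  pf t _ _ _ := if t < K then prf t else fun F => F
  pg t _ _ _ := if t < K then prg t else fun F => F
  f t x b c y _ G := by
    by_cases ht : t < K
    · rw [if_pos ht, frz_kf (by omega : t + 1 ≤ K), frz_kf (by omega : t ≤ K), H.kf_pr t ht]
      refine Finset.sum_congr rfl fun F _ => ?_
      by_cases h : prf t F = G
      · rw [ind_of h, if_pos h, one_mul]
      · rw [ind_not h, if_neg h, zero_mul]
    · rw [if_neg ht]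
      have e1 : (D.frz K).kf (t + 1) = (D.frz K).kf t := by
        show D.kf (min (t + 1) K) = D.kf (min t K)
        rw [min_eq_right (by omega), min_eq_right (by omega)]
      rw [e1, Finset.sum_ite_eq' univ G, if_pos (Finset.mem_univ G)]
  g t x b c y _ G := by
    by_cases ht : t < K
    · rw [if_pos ht, frz_kg (by omega : t + 1 ≤ K), frz_kg (by omega : t ≤ K), H.kg_pr t ht]
      refine Finset.sum_congr rfl fun F _ => ?_
      by_cases h : prg t F = G
      · rw [ind_of h, if_pos h, one_mul]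
      · rw [ind_not h, if_neg h, zero_mul]
    · rw [if_neg ht]
      have e1 : (D.frz K).kg (t + 1) = (D.frz K).kg t := by
        show D.kg (min (t + 1) K) = D.kg (min t K)
        rw [min_eq_right (by omega), min_eq_right (by omega)]
      rw [e1, Finset.sum_ite_eq' univ G, if_pos (Finset.mem_univ G)]

variable [Nonempty X] [Nonempty β] [Nonempty γ]

open Classical in
/-- classes of the data from classes of the frozen data -/
def unfrz (D : Dat X β γ ι φ) (K : ℕ) (U : ℕ → X → β → γ → Finset X) (t : ℕ) (x : X) (b : β) (c : γ) : Finset X :=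
  U (min t K) x b c ∩ D.cA t x

open Classical in
theorem unfrz_le {U : ℕ → X → β → γ → Finset X} (hU : RefCl (D.frz K) U) {t : ℕ} (ht : t ≤ K) :
    unfrz D K U t = U t := by
  funext x b c
  unfold unfrz
  rw [min_eq_left ht]
  refine Finset.inter_eq_left.2 ?_
  have h1 := hU.cell t x b c
  rw [frz_cA, min_eq_left ht] at h1
  exact h1

open Classical in
theorem unfrz_ref {U : ℕ → X → β → γ → Finset X} (hU : RefCl (D.frz K) U) : RefCl D (unfrz D K U) where
  self t x b c := Finset.mem_inter.2 ⟨hU.self _ x b c, D.self_cA t x⟩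
  cell t x b c := Finset.inter_subset_right
  pub t x b c x' b' c' hs hx := by
    have hx1 := (Finset.mem_inter.1 hx).1
    have hs' : (D.frz K).Same (min t K) x b c x' b' c' := by
      have h1 : D.Same (min (min t K) K) x b c x' b' c' :=
        hs.le (by omega)
      exact h1
    unfold unfrz
    rw [hU.pub (min t K) x b c x' b' c' hs' hx1, D.cA_congr hs.1.symm]
  ref t x b c := by
    refine Finset.inter_subset_inter ?_ (D.cA_mono (Nat.le_succ t) x)
    rcases lt_or_ge t K with h | h
    · rw [min_eq_left (by omega : t + 1 ≤ K), min_eq_left (by omega : t ≤ K)]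
      exact hU.ref t x b c
    · rw [min_eq_right (by omega : K ≤ t + 1), min_eq_right (by omega : K ≤ t)]

theorem kp_frz (T : D.Thick al) {t : ℕ} (ht : t ≤ K) : ((D.frz K).kp (frz_thick T K) t) = D.kp T t := by
  unfold Dat.kp
  have h1 := frz_kf (D := D) ht
  have h2 := frz_kg (D := D) ht
  congr 1

theorem nd_frz {U : ℕ → X → β → γ → Finset X} (hU : RefCl (D.frz K) U) {t : ℕ} (ht : t ≤ K) :
    nd (D.frz K) U t = nd D (unfrz D K U) t := by
  funext w
  unfold nd
  rw [unfrz_le hU ht, frz_qa ht, frz_qb ht, frz_qc ht]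

/-- THE CONCLUSION for the frozen data gives the conclusion for the data -/
theorem concl3_unfrz (T : D.Thick al) {n κ : ℝ} {C : ℕ} {U : ℕ → X → β → γ → Finset X}
    (h : Concl3 (frz_thick T K) dg K Lam n κ C U) : Concl3 T dg K Lam n κ C (unfrz D K U) := by
  have em : ∀ t ∈ range K, m3 (frz_thick T K) dg U t = m3 T dg (unfrz D K U) t := by
    intro t ht
    have h1 := Finset.mem_range.1 ht
    funext w
    unfold m3
    rw [kp_frz T (by omega : t ≤ K), nd_frz h.ref (by omega : t ≤ K)]
  have ex : ∀ t ∈ range K, x3 (frz_thick T K) dg U t = x3 T dg (unfrz D K U) t := by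
    intro t ht
    have h1 := Finset.mem_range.1 ht
    funext w
    unfold x3
    rw [kp_frz T (by omega : t ≤ K), nd_frz h.ref (by omega : t ≤ K)]
  have ey : ∀ t ∈ range K, y3 (frz_thick T K) dg U t = y3 T dg (unfrz D K U) t := by
    intro t ht
    have h1 := Finset.mem_range.1 ht
    funext w
    unfold y3
    rw [kp_frz T (by omega : t ≤ K), nd_frz h.ref (by omega : t ≤ K)]
  have ez : ∀ t ∈ range K, z3 (frz_thick T K) dg U t = z3 T dg (unfrz D K U) t := by
    intro t ht
    have h1 := Finset.mem_range.1 ht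
    funext w
    unfold z3
    rw [kp_frz T (by omega : t ≤ K), nd_frz h.ref (by omega : t ≤ K)]
  have ep : ∀ t ∈ range K, ((D.frz K).kp (frz_thick T K) t).P = (D.kp T t).P := by
    intro t ht
    have h1 := Finset.mem_range.1 ht
    rw [kp_frz T (by omega : t ≤ K)]
  refine ⟨unfrz_ref h.ref, ?_, ?_, ?_, ?_⟩
  · refine le_trans (le_of_eq (Finset.sum_congr rfl fun t ht => ?_)) h.m2
    rw [← em t ht, ep t ht]
  · refine le_trans (le_of_eq (Finset.sum_congr rfl fun t ht => ?_)) h.x2
    rw [← em t ht, ← ex t ht, ep t ht]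
  · refine le_trans (le_of_eq (Finset.sum_congr rfl fun t ht => ?_)) h.y2
    rw [← em t ht, ← ey t ht, ep t ht]
  · refine le_trans (le_of_eq (Finset.sum_congr rfl fun t ht => ?_)) h.syn
    rw [← em t ht, ← ex t ht, ← ey t ht, ← ez t ht, ep t ht]

end frz

/-- IT SUFFICES TO PROVE THEOREM 3 with projections for all times (data frozen after `K`) -/
theorem thm3_of_frz {κ : ℝ} (h : ∃ C : ℕ, ∀ (X β γ ι φ : Type) [Fintype X] [Fintype β] [Fintype γ] [Fintype φ]
    [Nonempty X] [Nonempty β] [Nonempty γ] [DecidableEq φ]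
    (D : Dat X β γ ι φ) (al : ℝ) (T : D.Thick al) (dg : ℕ → X → ℝ) (prf prg : ℕ → φ → φ) (K : ℕ) (Lam n : ℝ),
    Hyp3 D dg prf prg al K Lam → Proj D → (2 * Lam) ^ C ≤ n →
    ∃ U : ℕ → X → β → γ → Finset X, Concl3 T dg K Lam n κ C U) : Thm3 κ := by
  classical
  obtain ⟨C, h⟩ := h
  refine ⟨C, ?_⟩
  intro X β γ ι φ _ _ _ _ _ _ _ D al T dg prf prg K Lam n H hn
  obtain ⟨U, hU⟩ := h X β γ ι φ (D.frz K) al (frz_thick T K) dg prf prg K Lam n (frz_hyp3 H) (projFrz H) hn
  exact ⟨unfrz D K U, concl3_unfrz T hU⟩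

end

end Pool.Agent.M3.S3
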