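import Pool.Agent.M3.S3.CntOut

/-!
# M3.S3.CntAll: sums of the counts (helper15)

* `ntpr_le` : the number of ends of epochs by a test is at most the sum of the five counts;
* `big_le` : `L0 * ∑_(s<K) E 1[log (|half class| / |new class|) > L0] ≤ bits R K`;
* `log_hcl_nonneg`.
-/

set_option autoImplicit false
set_option linter.unusedSectionVars false

namespace Pool.Agent.M3.S3

open Finset Pool.Agent.PWZ Pool.Agent.M3

noncomputable section

variable {X β γ ι φ : Type*} [Fintype X] [Fintype β] [Fintype γ] [Fintype φ] {D : Dat X β γ ι φ} (R : Rl D)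

theorem log_hcl_nonneg (s : ℕ) (x : X) (b : β) (c : γ) :
    0 ≤ Real.log (((hcl R s x b c).card : ℝ) / (R.U (s + 1) x b c).card) := by
  have h1 : (0 : ℝ) < (R.U (s + 1) x b c).card := by
    exact_mod_cast card_pos.2 ⟨x, R.self_U (s + 1) x b c⟩
  refine Real.log_nonneg ?_
  rw [le_div_iff₀ h1, one_mul]
  exact_mod_cast card_le_card (U_sub_hcl R s x b c)

/-- number of the big final cells -/
theorem big_le (L0 : ℝ) (K : ℕ) :
    L0 * ∑ s ∈ range K, E3 (fun x b c =>
      ind (L0 < Real.log (((hcl R s x b c).card : ℝ) / (R.U (s + 1) x b c).card))) ≤ bits R K := by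
  unfold bits
  rw [Finset.mul_sum]
  refine Finset.sum_le_sum fun s _ => ?_
  rw [← E3_smul]
  refine E3_mono fun x b c => ?_
  by_cases h : L0 < Real.log (((hcl R s x b c).card : ℝ) / (R.U (s + 1) x b c).card)
  · rw [ind_of h, mul_one]; exact h.le
  · rw [ind_not h, mul_zero]; exact log_hcl_nonneg R s x b c

variable {R} {Up : Upd D} {N : Nums}

/-- all ends of epochs by a test -/
theorem ntpr_le (T : Tst R Up N) (K : ℕ) :
    ntpr R K ≤ ∑ s ∈ range K, E3 (fun x b c => ind (H1 R.toRm N (R.ep s x b c) s x b c)) +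
      ∑ s ∈ range K, E3 (fun x b c => ind (H2 R.toRm Up N (R.ep s x b c) s x b c)) +
      ∑ s ∈ range K, E3 (fun x b c => ind (¬ H1 R.toRm N (R.ep s x b c) s x b c ∧
        H3 R.toRm N (R.ep s x b c) s x b c)) +
      ∑ s ∈ range K, E3 (fun x b c => ind (¬ R.th (R.ep s x b c) (s + 1) x b c ∧
        S1 R.toRm N (R.ep s x b c) s x b c)) +
      ∑ s ∈ range K, E3 (fun x b c => ind (¬ R.th (R.ep s x b c) (s + 1) x b c ∧
        S2 Up N (R.ep s x b c) s x b c)) := by
  unfold ntpr
  rw [← Finset.sum_add_distrib, ← Finset.sum_add_distrib, ← Finset.sum_add_distrib, ← Finset.sum_add_distrib]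
  refine Finset.sum_le_sum fun s _ => ?_
  rw [← E3_add, ← E3_add, ← E3_add, ← E3_add]
  refine E3_mono fun x b c => ?_
  have h0 := R.t0_le s x b c
  have hth := T.th (R.ep s x b c) s x b c h0
  have hts := T.ts (R.ep s x b c) s x b c h0
  have n1 := ind_nonneg (H1 R.toRm N (R.ep s x b c) s x b c)
  have n2 := ind_nonneg (H2 R.toRm Up N (R.ep s x b c) s x b c)
  have n3 := ind_nonneg (¬ H1 R.toRm N (R.ep s x b c) s x b c ∧ H3 R.toRm N (R.ep s x b c) s x b c)
  have n4 := ind_nonneg (¬ R.th (R.ep s x b c) (s + 1) x b c ∧ S1 R.toRm N (R.ep s x b c) s x b c)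
  have n5 := ind_nonneg (¬ R.th (R.ep s x b c) (s + 1) x b c ∧ S2 Up N (R.ep s x b c) s x b c)
  by_cases ht : tpr R s x b c
  · rw [ind_of ht]
    by_cases hh : R.th (R.ep s x b c) (s + 1) x b c
    · by_cases k1 : H1 R.toRm N (R.ep s x b c) s x b c
      · rw [ind_of k1]; linarith
      · rcases hth.1 hh with k | k | k
        · exact absurd k k1
        · rw [ind_of k]; linarith
        · rw [ind_of (⟨k1, k⟩ : ¬ H1 R.toRm N (R.ep s x b c) s x b c ∧ H3 R.toRm N (R.ep s x b c) s x b c)]
          linarith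
    · rcases ht with k | k
      · exact absurd k hh
      · rcases hts.1 k.2 with k | k
        · rw [ind_of (⟨hh, k⟩ : ¬ R.th (R.ep s x b c) (s + 1) x b c ∧ S1 R.toRm N (R.ep s x b c) s x b c)]
          linarith
        · rw [ind_of (⟨hh, k⟩ : ¬ R.th (R.ep s x b c) (s + 1) x b c ∧ S2 Up N (R.ep s x b c) s x b c)]
          linarith
  · rw [ind_not ht]; linarith

end

end Pool.Agent.M3.S3
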