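import Pool.Agent.M3.S3.Cost
import Pool.Agent.M3.S3.CntAll

/-!
# M3.S3.Bits0: the bits of the classes with the start, and the number of the halvings (helper26)

* `cost_zero` : `E3 log (|cA 0| / |U 0|) ≤ n (gain_f + gain_g)` of the complete split at the time `0`;
* `bud0_f`, `bud0_g` : budget of the gains with the new labels, start included;
* `hv_bits0` : `E3 log (|cA 0| / |U 0|) + bits R K ≤ 4 n Lam`; `bits0_le` : the same with `5 n Lam`;
* `two_le` : `∑_(s<K) E3 1[2 |U (s+1)| ≤ |hcl s|] ≤ 2 bits R K`.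
-/

set_option autoImplicit false
set_option linter.unusedSectionVars false
set_option linter.unusedVariables false

namespace Pool.Agent.M3.S3

open Finset Pool.Agent.PWZ Pool.Agent.M3

noncomputable section

namespace B0

variable {X β γ ι φ : Type*} [Fintype X] [Fintype β] [Fintype γ] [Fintype φ] {D : Dat X β γ ι φ}

theorem avg_cg {α : Type*} {S : Finset α} {f g : α → ℝ} (h : ∀ a ∈ S, f a = g a) : avg S f = avg S g := by
  unfold avg
  rw [Finset.sum_congr rfl h]

/-! ## the cells of the time `0` as classes -/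

/-- the cells -/
def c0 (D : Dat X β γ ι φ) (x : X) (_ : β) (_ : γ) : Finset X := D.cA 0 x

/-- the family: cell at the time `0`, half step classes afterwards -/
def hfam0 (R : Rl D) (t : ℕ) : X → β → γ → Finset X :=
  match t with
  | 0 => c0 D
  | t + 1 => hcl R t

theorem hfam0_refCl (R : Rl D) : RefCl D (hfam0 R) where
  self t x b c := by
    cases t with
    | zero => exact D.self_cA 0 x
    | succ t => exact R.self_hc t x b c
  cell t x b c := by
    cases t with
    | zero => exact Finset.Subset.refl _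
    | succ t =>
      intro y hy
      exact D.mem_cA.2 (R.mem_hc.1 hy).2
  pub t x b c x' b' c' hS hx := by
    cases t with
    | zero => exact (D.cA_congr hS.1).symm
    | succ t => exact hcl_pub R t hS ((mem_hcl R).1 hx).1
  ref t x b c := by
    cases t with
    | zero => exact (hcl_sub R 0 x b c).trans (R.U_sub 0 x b c)
    | succ t => exact (hcl_sub R (t + 1) x b c).trans (U_sub_hcl R t x b c)

theorem c0_pv (R : Rl D) : PV (c0 D : X → β → γ → Finset X) := (hfam0_refCl R).pv 0

theorem U_sub_c0 (R : Rl D) (x : X) (b : β) (c : γ) : R.U 0 x b c ⊆ c0 D x b c := R.U_sub 0 x b c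

variable {al Lam : ℝ} {K : ℕ}

/-- budget of the gains of the partitions with the new labels, start included, first labels -/
theorem bud0_f (R : Rl D) (T : D.Thick al) (hB : Birth D K Lam) :
    (Hf D 0 (c0 D) - Hf D 0 (R.U 0)) + ∑ t ∈ range K, (Hf D (t + 1) (hcl R t) - Hf D (t + 1) (R.U (t + 1))) ≤ Lam := by
  have h1 := hB.f (hfam0 R) (hfam0_refCl R)
  have h2 : 0 ≤ Hf D K (R.U K) := HH_nonneg (fun x b c F => T.f_nn K x b c F) (fun x b c => T.f_one K x b c)
    (U_pv R K)
  have h4 : ∀ t, Hf D t (hcl R t) ≤ Hf D t (R.U t) := fun t =>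
    HH_mono (fun x b c F => T.f_nn t x b c F) (fun x b c => T.f_one t x b c) (U_pv R t) (hcl_pv R t)
      (fun x b c => hcl_sub R t x b c)
  have h3 : ∀ m, ∑ t ∈ range m, (Hf D (t + 1) (hcl R t) - Hf D (t + 1) (R.U (t + 1))) ≤
      Hf D 0 (R.U 0) + ∑ t ∈ range m, (Hf D (t + 1) (hcl R t) - Hf D t (hcl R t)) - Hf D m (R.U m) := by
    intro m
    induction m with
    | zero => simp
    | succ m ih =>
      rw [Finset.sum_range_succ, Finset.sum_range_succ]
      have := h4 m
      linarith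
  have h5 := h3 K
  have h6 : Hf D 0 (hfam0 R 0) + ∑ t ∈ range K, (Hf D (t + 1) (hfam0 R (t + 1)) - Hf D t (hfam0 R (t + 1))) =
      Hf D 0 (c0 D) + ∑ t ∈ range K, (Hf D (t + 1) (hcl R t) - Hf D t (hcl R t)) := rfl
  linarith

/-- budget of the gains of the partitions with the new labels, start included, second labels -/
theorem bud0_g (R : Rl D) (T : D.Thick al) (hB : Birth D K Lam) :
    (Hg D 0 (c0 D) - Hg D 0 (R.U 0)) + ∑ t ∈ range K, (Hg D (t + 1) (hcl R t) - Hg D (t + 1) (R.U (t + 1))) ≤ Lam := by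
  have h1 := hB.g (hfam0 R) (hfam0_refCl R)
  have h2 : 0 ≤ Hg D K (R.U K) := HH_nonneg (fun x b c F => T.g_nn K x b c F) (fun x b c => T.g_one K x b c)
    (U_pv R K)
  have h4 : ∀ t, Hg D t (hcl R t) ≤ Hg D t (R.U t) := fun t =>
    HH_mono (fun x b c F => T.g_nn t x b c F) (fun x b c => T.g_one t x b c) (U_pv R t) (hcl_pv R t)
      (fun x b c => hcl_sub R t x b c)
  have h3 : ∀ m, ∑ t ∈ range m, (Hg D (t + 1) (hcl R t) - Hg D (t + 1) (R.U (t + 1))) ≤
      Hg D 0 (R.U 0) + ∑ t ∈ range m, (Hg D (t + 1) (hcl R t) - Hg D t (hcl R t)) - Hg D m (R.U m) := by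
    intro m
    induction m with
    | zero => simp
    | succ m ih =>
      rw [Finset.sum_range_succ, Finset.sum_range_succ]
      have := h4 m
      linarith
  have h5 := h3 K
  have h6 : Hg D 0 (hfam0 R 0) + ∑ t ∈ range K, (Hg D (t + 1) (hfam0 R (t + 1)) - Hg D t (hfam0 R (t + 1))) =
      Hg D 0 (c0 D) + ∑ t ∈ range K, (Hg D (t + 1) (hcl R t) - Hg D t (hcl R t)) := rfl
  linarith

/-! ## the complete split at the time `0` -/

theorem U_fblk0 (R : Rl D) {x x' : X} {b b' : β} {c c' : γ} (hS : D.Same 0 x b c x' b' c') :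
    R.U 0 x' b' c' = fblk (D.cA 0 x) (R.sp 0 x b c (D.cA 0 x)) x' := by
  have e0 : R.U 0 x' b' c' = R.fin 0 x' b' c' (D.cA 0 x') := by
    unfold Rl.U
    rw [R.om_old (by exact le_rfl)]
    rfl
  rw [e0, ← D.cA_congr hS.1]
  ext y
  rw [R.mem_fin, mem_fblk, R.sp_q 0 x b c x' b' c' _ hS]

/-- bits of the complete split at the time `0` -/
theorem cost_zero {R : Rl D} {n Lr : ℝ} (T : D.Thick al) (C : Con R n Lr) (hn : 0 ≤ n) :
    E3 (fun x b c => Real.log (((D.cA 0 x).card : ℝ) / (R.U 0 x b c).card)) ≤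
      n * ((Hf D 0 (c0 D) - Hf D 0 (R.U 0)) + (Hg D 0 (c0 D) - Hg D 0 (R.U 0))) := by
  set Bf : X → β → γ → ℝ := fun x b c => klf (law (R.U 0 x b c) fun y => D.kf 0 y b c)
    (law (D.cA 0 x) fun y => D.kf 0 y b c) with hBf
  set Bg : X → β → γ → ℝ := fun x b c => klf (law (R.U 0 x b c) fun y => D.kg 0 y b c)
    (law (D.cA 0 x) fun y => D.kg 0 y b c) with hBg
  have hf1 : E3 Bf = Hf D 0 (c0 D) - Hf D 0 (R.U 0) := by
    have h1 := HH_sub (k := D.kf 0) (fun x b c F => T.f_nn 0 x b c F) (c0_pv R) (U_pv R 0) (U_sub_c0 R)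
    rw [Hf_eq, Hf_eq]
    exact h1.symm
  have hg1 : E3 Bg = Hg D 0 (c0 D) - Hg D 0 (R.U 0) := by
    have h1 := HH_sub (k := D.kg 0) (fun x b c F => T.g_nn 0 x b c F) (c0_pv R) (U_pv R 0) (U_sub_c0 R)
    rw [Hg_eq, Hg_eq]
    exact h1.symm
  have key : E3 (fun x b c => Real.log (((D.cA 0 x).card : ℝ) / (R.U 0 x b c).card)) ≤
      n * E3 (fun x b c => Bf x b c + Bg x b c) := by
    rw [E3_pub D 0 0 (c0_pv R), E3_pub D 0 0 (c0_pv R) (fun x b c => Bf x b c + Bg x b c), ← E3_smul]
    refine E3_mono fun x b c => ?_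
    show avg (D.cA 0 x) (fun x' => avg (D.cB 0 b) fun b' => avg (D.cC 0 c) fun c' =>
        Real.log (((D.cA 0 x').card : ℝ) / (R.U 0 x' b' c').card)) ≤
      n * avg (D.cA 0 x) (fun x' => avg (D.cB 0 b) fun b' => avg (D.cC 0 c) fun c' => (Bf x' b' c' + Bg x' b' c'))
    have hVne : (D.cA 0 x).Nonempty := ⟨x, D.self_cA _ _⟩
    have hBne : (D.cB 0 b).Nonempty := ⟨b, D.self_cB _ _⟩
    have hCne : (D.cC 0 c).Nonempty := ⟨c, D.self_cC _ _⟩
    have hVc : (0 : ℝ) < (D.cA 0 x).card := by exact_mod_cast hVne.card_pos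
    have hsame : ∀ x' ∈ D.cA 0 x, ∀ b' ∈ D.cB 0 b, ∀ c' ∈ D.cC 0 c,
        D.Same 0 x b c x' b' c' := fun x' hx' b' hb' c' hc' =>
      ⟨(D.mem_cA.1 hx').symm, (D.mem_cB.1 hb').symm, (D.mem_cC.1 hc').symm⟩
    set V := D.cA 0 x with hV
    set r := R.sp 0 x b c V with hr
    have hU : ∀ x' ∈ V, ∀ b' ∈ D.cB 0 b, ∀ c' ∈ D.cC 0 c,
        R.U 0 x' b' c' = fblk V r x' ∧ D.cA 0 x' = V := fun x' hx' b' hb' c' hc' =>
      ⟨U_fblk0 R (hsame x' hx' b' hb' c' hc'), (D.cA_congr (hsame x' hx' b' hb' c' hc').1).symm⟩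
    have e1 : avg V (fun x' => avg (D.cB 0 b) fun b' => avg (D.cC 0 c) fun c' =>
        Real.log (((D.cA 0 x').card : ℝ) / (R.U 0 x' b' c').card)) = entN V r / V.card := by
      unfold entN
      rw [show (∑ x ∈ V, Real.log ((V.card : ℝ) / (fblk V r x).card)) / (V.card : ℝ) =
        avg V (fun x' => Real.log ((V.card : ℝ) / (fblk V r x').card)) from rfl]
      refine avg_cg fun x' hx' => ?_
      rw [← avg_const hBne (Real.log ((V.card : ℝ) / (fblk V r x').card))]
      refine avg_cg fun b' hb' => ?_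
      rw [← avg_const hCne (Real.log ((V.card : ℝ) / (fblk V r x').card))]
      refine avg_cg fun c' hc' => ?_
      obtain ⟨h1, h2⟩ := hU x' hx' b' hb' c' hc'
      rw [h1, h2]
    have e2 : avg V (fun x' => avg (D.cB 0 b) fun b' => avg (D.cC 0 c) fun c' =>
        (Bf x' b' c' + Bg x' b' c')) =
        (avg (D.cB 0 b) (fun b' => infoN (fun y => kfc D 0 c y b') V r) +
          avg (D.cC 0 c) (fun c' => infoN (fun y => kgb D 0 b y c') V r)) / V.card := by
      have e3 : ∀ x' ∈ V, (avg (D.cB 0 b) fun b' => avg (D.cC 0 c) fun c' =>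
          (Bf x' b' c' + Bg x' b' c')) =
          avg (D.cB 0 b) (fun b' => klf (law (fblk V r x') fun y => kfc D 0 c y b')
            (law V fun y => kfc D 0 c y b')) +
          avg (D.cC 0 c) (fun c' => klf (law (fblk V r x') fun y => kgb D 0 b y c')
            (law V fun y => kgb D 0 b y c')) := by
        intro x' hx'
        rw [← avg_const hBne (avg (D.cC 0 c) (fun c' => klf (law (fblk V r x') fun y => kgb D 0 b y c')
            (law V fun y => kgb D 0 b y c'))), ← avg_add]
        refine avg_cg fun b' hb' => ?_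
        rw [← avg_const hCne (klf (law (fblk V r x') fun y => kfc D 0 c y b')
            (law V fun y => kfc D 0 c y b')), ← avg_add]
        refine avg_cg fun c' hc' => ?_
        obtain ⟨h1, h2⟩ := hU x' hx' b' hb' c' hc'
        have h3 : (fun y => D.kf 0 y b' c') = fun y => kfc D 0 c y b' := by
          funext y
          exact D.kf_c 0 y b' c' c (D.mem_cC.1 hc')
        have h4 : (fun y => D.kg 0 y b' c') = fun y => kgb D 0 b y c' := by
          funext y
          exact D.kg_b 0 y b' b c' (D.mem_cB.1 hb')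
        simp only [hBf, hBg, h1, h2, h3, h4]
      rw [avg_cg e3, avg_add]
      have e4 : ∀ (g : X → β → ℝ), avg V (fun x' => avg (D.cB 0 b) fun b' => g x' b') =
          avg (D.cB 0 b) (fun b' => ∑ x' ∈ V, g x' b') / V.card := by
        intro g
        unfold avg
        rw [← Finset.sum_div, Finset.sum_comm]
      have e5 : ∀ (g : X → γ → ℝ), avg V (fun x' => avg (D.cC 0 c) fun c' => g x' c') =
          avg (D.cC 0 c) (fun c' => ∑ x' ∈ V, g x' c') / V.card := by
        intro g
        unfold avg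
        rw [← Finset.sum_div, Finset.sum_comm]
      rw [e4, e5, add_div]
      simp only [infoN_eq]
    rw [e1, e2]
    have g1 := csp_gain2_nn (n := n) (K := V) (Bs := D.cB 0 b) (Cs := D.cC 0 c)
      (kf := kfc D 0 c) (kg := kgb D 0 b)
      (fun y _ b' _ F => T.f_nn 0 y b' c F) (fun y _ c' _ F => T.g_nn 0 y b c' F)
    rw [← csp_gain2N] at g1
    have hrr : r = cspN n (kfc D 0 c) (D.cB 0 b) (kgb D 0 b) (D.cC 0 c) V := by
      rw [hr]; exact C.sp 0 x b c V
    rw [← hrr] at g1
    unfold gain2 at g1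
    rw [← mul_div_assoc, div_le_div_iff_of_pos_right hVc]
    linarith
  refine key.trans (mul_le_mul_of_nonneg_left ?_ hn)
  rw [E3_add]
  exact (add_le_add hf1.le hg1.le)

/-! ## the bits with the start -/

/-- **THE NUMBER OF BITS, START INCLUDED** -/
theorem hv_bits0 [DecidableEq φ] {R : Rl D} {Up : Upd D} {N : Nums} {n Lr : ℝ} (T : D.Thick al) (P : Proj D)
    (Ts : Tst R Up N) (C : Con R n Lr) (H : CNum N n Lr al) (hB : Birth D K Lam) :
    E3 (fun x b c => Real.log (((D.cA 0 x).card : ℝ) / (R.U 0 x b c).card)) + bits R K ≤ 4 * n * Lam := by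
  unfold bits
  have e1 : ∀ s, E3 (fun x b c => Real.log (((hcl R s x b c).card : ℝ) / (R.U (s + 1) x b c).card)) =
      E3 (hv R s) + E3 (fun x b c => Real.log (((vcl R s x b c).card : ℝ) / (R.U (s + 1) x b c).card)) := by
    intro s
    rw [← E3_add]
    congr 1
    funext x b c
    exact log_bits s x b c
  simp only [e1, Finset.sum_add_distrib]
  have h1 := hv_sum T P Ts C H hB
  have h2 : E3 (fun x b c => Real.log (((D.cA 0 x).card : ℝ) / (R.U 0 x b c).card)) +
      ∑ s ∈ range K, E3 (fun x b c => Real.log (((vcl R s x b c).card : ℝ) / (R.U (s + 1) x b c).card)) ≤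
      n * (Lam + Lam) := by
    refine (add_le_add (cost_zero T C H.n0.le) (Finset.sum_le_sum fun s _ => cost_split T C H.n0.le s)).trans ?_
    rw [← Finset.mul_sum, Finset.sum_add_distrib, ← mul_add]
    have h3 := bud0_f R T hB
    have h4 := bud0_g R T hB
    refine mul_le_mul_of_nonneg_left ?_ H.n0.le
    linarith
  linarith

/-- the same with `5 n Lam` -/
theorem bits0_le [DecidableEq φ] {R : Rl D} {Up : Upd D} {N : Nums} {n Lr : ℝ} (T : D.Thick al) (P : Proj D)
    (Ts : Tst R Up N) (C : Con R n Lr) (H : CNum N n Lr al) (hB : Birth D K Lam) (hL : 0 ≤ Lam) :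
    E3 (fun x b c => Real.log (((D.cA 0 x).card : ℝ) / (R.U 0 x b c).card)) + bits R K ≤ 5 * n * Lam := by
  have h := hv_bits0 T P Ts C H hB
  have h1 : 0 ≤ n * Lam := mul_nonneg H.n0.le hL
  linarith

/-- the number of the steps at which the class loses half of the half step class -/
theorem two_le (R : Rl D) (K : ℕ) :
    ∑ s ∈ range K, E3 (fun x b c => ind (2 * ((R.U (s + 1) x b c).card : ℝ) ≤ (hcl R s x b c).card)) ≤
      2 * bits R K := by
  have h := big_le R (1 / 2) K
  have h1 : ∑ s ∈ range K, E3 (fun x b c => ind (2 * ((R.U (s + 1) x b c).card : ℝ) ≤ (hcl R s x b c).card)) ≤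
      ∑ s ∈ range K, E3 (fun x b c =>
        ind (1 / 2 < Real.log (((hcl R s x b c).card : ℝ) / (R.U (s + 1) x b c).card))) := by
    refine Finset.sum_le_sum fun s _ => E3_mono fun x b c => ?_
    by_cases h2 : 2 * ((R.U (s + 1) x b c).card : ℝ) ≤ (hcl R s x b c).card
    · have h3 : (0 : ℝ) < (R.U (s + 1) x b c).card := by
        exact_mod_cast card_pos.2 ⟨x, R.self_U (s + 1) x b c⟩
      have h4 : (2 : ℝ) ≤ ((hcl R s x b c).card : ℝ) / (R.U (s + 1) x b c).card := by
        rw [le_div_iff₀ h3]; exact h2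
      have h5 : Real.log 2 ≤ Real.log (((hcl R s x b c).card : ℝ) / (R.U (s + 1) x b c).card) :=
        Real.log_le_log (by norm_num) h4
      have h6 : (1 / 2 : ℝ) < Real.log 2 := by
        have := Real.log_two_gt_d9
        linarith
      rw [ind_of h2, ind_of (h6.trans_le h5)]
    · rw [ind_not h2]
      exact ind_nonneg _
  linarith

end B0

end

end Pool.Agent.M3.S3
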