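import Pool.Agent.M3.S3.Rule

/-!
# M3.S3.Acc: accounting in section 3 (helper15)

* `E3 f` = mean of `f x b c` (uniform law on the product); `ent p` entropy of a law;
* `Hf D t V`, `Hg D t V` = mean entropy of the label of the time `t` on the class `V x b c`;
* `RefCl D V` = refining family of public classes; `Birth D K Lam` = hypothesis (H2);
* `bits R K` = `∑_(s<K) E log (|half step class| / |new class|)`;
* `fall R s` = the point falls at the time `s+1`; `tpr R s` = its epoch ends at the time `s+1` by a test;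
* `Upd D` = counters of the updates of the labels; `upd` = one of the labels of `(b',c')` has been updated since `t0`;
* `pl`, `dst`, `md` = law of the pair of labels of the time `t0` on a class, squared distance to the start, largest
  distance up to `s`;
* the tests (`Nums` = numbers `eps3`, `eps4`, `kap`): `H1`, `H2`, `H3` (half step from `s` to `s+1`), `S1`, `S2` (survivors
  at the time `s+1`), all functions of the node at the time `s+1`: `H1_q`, ..., `S2_q`.
-/

set_option autoImplicit false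
set_option linter.unusedSectionVars false

namespace Pool.Agent.M3.S3

open Finset Pool.Agent.PWZ Pool.Agent.M3

noncomputable section

/-- mean over the product -/
def E3 {X β γ : Type*} [Fintype X] [Fintype β] [Fintype γ] (f : X → β → γ → ℝ) : ℝ :=
  avg univ fun x => avg univ fun b => avg univ fun c => f x b c

/-- entropy of a law -/
def ent {φ : Type*} [Fintype φ] (p : φ → ℝ) : ℝ := ∑ F, Real.negMulLog (p F)

/-- numbers of the tests -/
structure Nums where
  eps3 : ℝ
  eps4 : ℝ
  kap : ℝ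

/-- counters of the updates of the labels: `cf t x b c` = number of updates of the label of `b` up to the time `t` -/
structure Upd {X β γ ι φ : Type*} (D : Dat X β γ ι φ) where
  cf : ℕ → X → β → γ → ℕ
  cg : ℕ → X → β → γ → ℕ
  cf_q : ∀ t x x' b c c', D.qa t x = D.qa t x' → D.qc t c = D.qc t c' → cf t x b c = cf t x' b c'
  cg_q : ∀ t x x' b b' c, D.qa t x = D.qa t x' → D.qb t b = D.qb t b' → cg t x b c = cg t x' b' c

variable {X β γ ι φ : Type*} [Fintype X] [Fintype β] [Fintype γ] [Fintype φ] {D : Dat X β γ ι φ}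

/-- mean entropy of the first label of the time `t` on the class `V x b c` -/
def Hf (D : Dat X β γ ι φ) (t : ℕ) (V : X → β → γ → Finset X) : ℝ :=
  E3 fun x b c => ent fun F => law (V x b c) (fun y => D.kf t y b c) F

/-- mean entropy of the second label of the time `t` on the class `V x b c` -/
def Hg (D : Dat X β γ ι φ) (t : ℕ) (V : X → β → γ → Finset X) : ℝ :=
  E3 fun x b c => ent fun F => law (V x b c) (fun y => D.kg t y b c) F

/-- refining family of public classes -/
structure RefCl (D : Dat X β γ ι φ) (V : ℕ → X → β → γ → Finset X) : Prop where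
  self : ∀ t x b c, x ∈ V t x b c
  cell : ∀ t x b c, V t x b c ⊆ D.cA t x
  pub : ∀ t x b c x' b' c', D.Same t x b c x' b' c' → x' ∈ V t x b c → V t x' b' c' = V t x b c
  ref : ∀ t x b c, V (t + 1) x b c ⊆ V t x b c

/-- (H2): the entropy at the start and the entropies of all updates, along any refining family of classes -/
structure Birth (D : Dat X β γ ι φ) (K : ℕ) (Lam : ℝ) : Prop where
  f : ∀ V : ℕ → X → β → γ → Finset X, RefCl D V →
    Hf D 0 (V 0) + ∑ t ∈ range K, (Hf D (t + 1) (V (t + 1)) - Hf D t (V (t + 1))) ≤ Lam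
  g : ∀ V : ℕ → X → β → γ → Finset X, RefCl D V →
    Hg D 0 (V 0) + ∑ t ∈ range K, (Hg D (t + 1) (V (t + 1)) - Hg D t (V (t + 1))) ≤ Lam

section rule

variable (R : Rl D)

theorem U_refCl : RefCl D (R.U) :=
  ⟨R.self_U, R.U_sub, fun t _ _ _ _ _ _ h hx => (R.pub t h hx).2, R.U_succ_sub⟩

/-- the half step class of the point from `s` to `s+1` -/
def hcl (s : ℕ) (x : X) (b : β) (c : γ) : Finset X := R.hc (R.ep s x b c) s x b c

/-- the coarse cell of the point from `s` to `s+1` -/
def vcl (s : ℕ) (x : X) (b : β) (c : γ) : Finset X := R.vc (R.ep s x b c) s x b c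

/-- the number of bits of the classes -/
def bits (K : ℕ) : ℝ :=
  ∑ s ∈ range K, E3 fun x b c => Real.log (((hcl R s x b c).card : ℝ) / (R.U (s + 1) x b c).card)

/-- the point falls at the time `s+1` -/
def fall (s : ℕ) (x : X) (b : β) (c : γ) : Prop :=
  ¬ R.th (R.ep s x b c) (s + 1) x b c ∧ x ∉ R.om (R.ep s x b c) (s + 1) x b c

/-- the epoch of the point ends at the time `s+1` by a test -/
def tpr (s : ℕ) (x : X) (b : β) (c : γ) : Prop :=
  R.th (R.ep s x b c) (s + 1) x b c ∨
    (x ∈ R.om (R.ep s x b c) (s + 1) x b c ∧ R.ts (R.ep s x b c) (s + 1) x b c)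

theorem nw_iff (s : ℕ) (x : X) (b : β) (c : γ) :
    R.nw (R.ep s x b c) s x b c ↔ fall R s x b c ∨ tpr R s x b c := by
  unfold Rl.nw fall tpr
  tauto

/-- expected number of falls up to the time `K` -/
def nfall (K : ℕ) : ℝ := ∑ s ∈ range K, E3 fun x b c => ind (fall R s x b c)

/-- expected number of ends of epochs by a test up to the time `K` -/
def ntpr (K : ℕ) : ℝ := ∑ s ∈ range K, E3 fun x b c => ind (tpr R s x b c)

end rule

/-! ## laws of the labels of the start of an epoch -/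

/-- law on the class `K` of the pair of the labels of the time `t0` of the points `b'`, `c'`; `b`, `c` = points of the
node -/
def pl (D : Dat X β γ ι φ) (t0 : ℕ) (b : β) (c : γ) (K : Finset X) (b' : β) (c' : γ) (F G : φ) : ℝ :=
  avg K fun y => D.kf t0 y b' c F * D.kg t0 y b c' G

/-- squared distance of the laws of the pair on `K` and on `K'` -/
def dst (D : Dat X β γ ι φ) (t0 : ℕ) (b : β) (c : γ) (K K' : Finset X) (b' : β) (c' : γ) : ℝ :=
  ∑ F, ∑ G, (pl D t0 b c K b' c' F G - pl D t0 b c K' b' c' F G) ^ 2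

theorem pl_inv {t0 : ℕ} {b b' : β} {c c' : γ} (hb : D.qb t0 b = D.qb t0 b') (hc : D.qc t0 c = D.qc t0 c')
    (K : Finset X) (b1 : β) (c1 : γ) : pl D t0 b c K b1 c1 = pl D t0 b' c' K b1 c1 := by
  funext F G
  unfold pl
  congr 1
  funext y
  rw [D.kf_c t0 y b1 c c' hc, D.kg_b t0 y b b' c1 hb]

theorem dst_inv {t0 : ℕ} {b b' : β} {c c' : γ} (hb : D.qb t0 b = D.qb t0 b') (hc : D.qc t0 c = D.qc t0 c')
    (K K' : Finset X) : dst D t0 b c K K' = dst D t0 b' c' K K' := by
  funext b1 c1
  unfold dst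
  rw [pl_inv hb hc, pl_inv hb hc]

section tests

variable (R : Rm D) (Up : Upd D) (N : Nums) (e : Epo X)

/-- largest distance to the start up to the time `s` -/
def md : ℕ → X → β → γ → β → γ → ℝ
  | 0, _, _, _, _, _ => 0
  | s + 1, x, b, c, b', c' =>
    if s + 1 ≤ e.t0 then 0 else
      max (md s x b c b' c') (dst D e.t0 b c (R.om e (s + 1) x b c) e.om0 b' c')

/-- the label of `b'` or of `c'` has been updated since the start -/
def upd (s : ℕ) (x : X) (b : β) (c : γ) (b' : β) (c' : γ) : Prop :=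
  Up.cf s x b' c ≠ Up.cf e.t0 x b' c ∨ Up.cg s x b c' ≠ Up.cg e.t0 x b c'

/-- mean over the cells of `b` and `c` at the time `s` -/
def av2 (D : Dat X β γ ι φ) (s : ℕ) (b : β) (c : γ) (f : β → γ → ℝ) : ℝ :=
  avg (D.cB s b) fun b' => avg (D.cC s c) fun c' => f b' c'

open Classical in
/-- the start class in the cell of the time `s` -/
def rs (D : Dat X β γ ι φ) (e : Epo X) (s : ℕ) (x : X) : Finset X := e.om0 ∩ D.cA s x

open Classical in
/-- half step of `KF` from `s` to `s+1` -/
def KF' (s : ℕ) (x : X) (b : β) (c : γ) : Finset X := R.KF e s x b c ∩ D.cA (s + 1) x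

open Classical in
/-- half step of `KG` from `s` to `s+1` -/
def KG' (s : ℕ) (x : X) (b : β) (c : γ) : Finset X := R.KG e s x b c ∩ D.cA (s + 1) x

open Classical in
/-- half step of the class from `s` to `s+1` -/
def om' (s : ℕ) (x : X) (b : β) (c : γ) : Finset X := R.om e s x b c ∩ D.cA (s + 1) x

/-- (h1), half step from `s` to `s+1` -/
def H1 (s : ℕ) (x : X) (b : β) (c : γ) : Prop :=
  ((KF' R e s x b c).card : ℝ) < (1 - 4 * N.eps3) * (rs D e (s + 1) x).card ∨
    ((KG' R e s x b c).card : ℝ) < (1 - 4 * N.eps3) * (rs D e (s + 1) x).card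

/-- what is averaged in (h2) -/
def chg (s : ℕ) (x : X) (b : β) (c : γ) (b' : β) (c' : γ) : ℝ :=
  max (md R e s x b c b' c') (dst D e.t0 b c (om' R e s x b c) e.om0 b' c') + ind (upd Up e s x b c b' c')

/-- (h2), half step from `s` to `s+1` -/
def H2 (s : ℕ) (x : X) (b : β) (c : γ) : Prop := N.kap ≤ av2 D (s + 1) b c (chg R Up e s x b c)

/-- (h3), half step from `s` to `s+1` -/
def H3 (s : ℕ) (x : X) (b : β) (c : γ) : Prop :=
  ((R.KF e (s + 1) x b c).card : ℝ) < (1 - N.eps4) * (KF' R e s x b c).card ∨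
    ((R.KG e (s + 1) x b c).card : ℝ) < (1 - N.eps4) * (KG' R e s x b c).card

/-- (s1), survivors at the time `s+1` -/
def S1 (s : ℕ) (x : X) (b : β) (c : γ) : Prop :=
  ((R.KF e (s + 1) x b c).card : ℝ) < (1 - N.eps3) * (rs D e (s + 1) x).card ∨
    ((R.KG e (s + 1) x b c).card : ℝ) < (1 - N.eps3) * (rs D e (s + 1) x).card

/-- (s2), survivors at the time `s+1` -/
def S2 (s : ℕ) (x : X) (b : β) (c : γ) : Prop :=
  N.kap ≤ av2 D (s + 1) b c fun b' c' => ind (upd Up e (s + 1) x b c b' c')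

variable {R Up N e}

section inv

variable {s : ℕ} {x x' : X} {b b' : β} {c c' : γ}

theorem rs_inv (hS : D.Same s x b c x' b' c') : rs D e s x = rs D e s x' := by
  unfold rs
  rw [D.cA_congr hS.1]

theorem KF'_inv (h : e.t0 ≤ s) (hS : D.Same (s + 1) x b c x' b' c') : KF' R e s x b c = KF' R e s x' b' c' := by
  have hs := hS.le (Nat.le_succ s)
  unfold KF'
  rw [R.KF_inv h hs.1 hs.2.1 (D.qc_le h hs.2.2), D.cA_congr hS.1]

theorem KG'_inv (h : e.t0 ≤ s) (hS : D.Same (s + 1) x b c x' b' c') : KG' R e s x b c = KG' R e s x' b' c' := by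
  have hs := hS.le (Nat.le_succ s)
  unfold KG'
  rw [R.KG_inv h hs.1 (D.qb_le h hs.2.1) hs.2.2, D.cA_congr hS.1]

theorem om'_inv (h : e.t0 ≤ s) (hS : D.Same (s + 1) x b c x' b' c') : om' R e s x b c = om' R e s x' b' c' := by
  unfold om'
  rw [R.om_inv h (hS.le (Nat.le_succ s)), D.cA_congr hS.1]

theorem H1_q (h : e.t0 ≤ s) (hS : D.Same (s + 1) x b c x' b' c') :
    H1 R N e s x b c ↔ H1 R N e s x' b' c' := by
  unfold H1
  rw [KF'_inv h hS, KG'_inv h hS, rs_inv hS]

theorem H3_q (h : e.t0 ≤ s) (hS : D.Same (s + 1) x b c x' b' c') :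
    H3 R N e s x b c ↔ H3 R N e s x' b' c' := by
  have h' : e.t0 ≤ s + 1 := h.trans (Nat.le_succ s)
  unfold H3
  rw [KF'_inv h hS, KG'_inv h hS, R.KF_inv h' hS.1 hS.2.1 (D.qc_le h' hS.2.2),
    R.KG_inv h' hS.1 (D.qb_le h' hS.2.1) hS.2.2]

theorem S1_q (h : e.t0 ≤ s) (hS : D.Same (s + 1) x b c x' b' c') :
    S1 R N e s x b c ↔ S1 R N e s x' b' c' := by
  have h' : e.t0 ≤ s + 1 := h.trans (Nat.le_succ s)
  unfold S1
  rw [rs_inv hS, R.KF_inv h' hS.1 hS.2.1 (D.qc_le h' hS.2.2), R.KG_inv h' hS.1 (D.qb_le h' hS.2.1) hS.2.2]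

theorem md_inv (h : e.t0 ≤ s) (hS : D.Same s x b c x' b' c') : md R e s x b c = md R e s x' b' c' := by
  induction s with
  | zero => rfl
  | succ s ih =>
    funext b1 c1
    show (if s + 1 ≤ e.t0 then (0 : ℝ) else _) = (if s + 1 ≤ e.t0 then (0 : ℝ) else _)
    by_cases h1 : s + 1 ≤ e.t0
    · rw [if_pos h1, if_pos h1]
    · rw [if_neg h1, if_neg h1, ih (by omega) (hS.le (Nat.le_succ s)), R.om_inv h hS,
        dst_inv (D.qb_le h hS.2.1) (D.qc_le h hS.2.2)]

theorem upd_inv (h : e.t0 ≤ s) (hS : D.Same s x b c x' b' c') : upd Up e s x b c = upd Up e s x' b' c' := by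
  funext b1 c1
  have h0 := hS.le h
  unfold upd
  rw [Up.cf_q s x x' b1 c c' hS.1 hS.2.2, Up.cf_q e.t0 x x' b1 c c' h0.1 h0.2.2,
    Up.cg_q s x x' b b' c1 hS.1 hS.2.1, Up.cg_q e.t0 x x' b b' c1 h0.1 h0.2.1]

theorem av2_inv (hS : D.Same s x b c x' b' c') (f : β → γ → ℝ) : av2 D s b c f = av2 D s b' c' f := by
  unfold av2
  rw [D.cB_congr hS.2.1, D.cC_congr hS.2.2]

theorem chg_inv (h : e.t0 ≤ s) (hS : D.Same (s + 1) x b c x' b' c') :
    chg R Up e s x b c = chg R Up e s x' b' c' := by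
  have hs := hS.le (Nat.le_succ s)
  funext b1 c1
  unfold chg
  rw [md_inv h hs, om'_inv h hS, dst_inv (D.qb_le h hs.2.1) (D.qc_le h hs.2.2), upd_inv h hs]

theorem H2_q (h : e.t0 ≤ s) (hS : D.Same (s + 1) x b c x' b' c') :
    H2 R Up N e s x b c ↔ H2 R Up N e s x' b' c' := by
  unfold H2
  rw [chg_inv h hS, av2_inv hS]

theorem S2_q (h : e.t0 ≤ s) (hS : D.Same (s + 1) x b c x' b' c') :
    S2 Up N e s x b c ↔ S2 Up N e s x' b' c' := by
  unfold S2
  rw [upd_inv (h.trans (Nat.le_succ s)) hS, av2_inv hS]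

end inv

end tests

/-- the tests of the rule `R` are (h1)-(h3), (s1), (s2) -/
structure Tst (R : Rl D) (Up : Upd D) (N : Nums) : Prop where
  th : ∀ (e : Epo X) s x b c, e.t0 ≤ s →
    (R.th e (s + 1) x b c ↔ H1 R.toRm N e s x b c ∨ H2 R.toRm Up N e s x b c ∨ H3 R.toRm N e s x b c)
  ts : ∀ (e : Epo X) s x b c, e.t0 ≤ s →
    (R.ts e (s + 1) x b c ↔ S1 R.toRm N e s x b c ∨ S2 Up N e s x b c)

end

end Pool.Agent.M3.S3
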