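import Pool.Agent.M3.S3.Thm3
import Pool.Agent.M3.S3.Acc

/-!
# M3.S3.ParA: the parameters of route A (helper64)

`x = n ^ (1/1000)`, `lg = Lam + log n`.  All parameters are powers of `x` or `exp` of multiples of `lg`.
* `Big Lam n` : `1 ≤ Lam` and `(2 Lam)^1000000 ≤ n`; `Big.x_ge`, `Big.Lam_le`, `Big.lg_le`, `n_eq`.
-/

set_option autoImplicit false

namespace Pool.Agent.M3.S3

noncomputable section

namespace PA

/-- the hypothesis on the size of `n` -/
structure Big (Lam n : ℝ) : Prop where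
  Lam1 : 1 ≤ Lam
  big : (2 * Lam) ^ 1000000 ≤ n

/-- the base of all powers: `n = x ^ 1000` -/
def x (n : ℝ) : ℝ := n ^ (1 / 1000 : ℝ)

/-- `Lam + log n` -/
def lg (Lam n : ℝ) : ℝ := Lam + Real.log n

/-- price of a removal -/
def Lr (Lam n : ℝ) : ℝ := 10 * lg Lam n

/-- thickness -/
def al (Lam : ℝ) : ℝ := Real.exp (-Lam)

/-- the numbers of the tests -/
def Nm (Lam n : ℝ) : Nums where
  eps3 := (al Lam / n) ^ 12
  eps4 := (al Lam / n) ^ 4
  kap := (al Lam / n) ^ 20

/-- saturation of the classes -/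
def sg (Lam n : ℝ) : ℝ := 4 * Lr Lam n / n

/-- tiny half step states: `|half step class| < mu |class|` -/
def mu (Lam n : ℝ) : ℝ := Real.exp (-(50 * lg Lam n))

/-- threshold of the density -/
def del (n : ℝ) : ℝ := (x n)⁻¹ ^ 200

/-- parameter of the sub-epochs -/
def q (n : ℝ) : ℝ := (x n)⁻¹ ^ 300

/-- threshold of the big falls (ratio of blocks) -/
def l (n : ℝ) : ℝ := x n ^ 600 / 2

/-- threshold of the big final cells -/
def L0 (n : ℝ) : ℝ := x n ^ 850

/-- exceptional set of (R2) -/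
def y (n : ℝ) : ℝ := (x n)⁻¹ ^ 380

/-- both strong -/
def eta (n : ℝ) : ℝ := (x n)⁻¹ ^ 25

/-- strong -/
def B (n : ℝ) : ℝ := 8 * x n ^ 25

/-- typicality: exceptional set `exp (-LL/2)` -/
def LL (Lam n : ℝ) : ℝ := 200 * lg Lam n

variable {Lam n : ℝ}

theorem Big.n_ge (h : Big Lam n) : (2 : ℝ) ^ 1000000 ≤ n := by
  refine le_trans ?_ h.big
  exact pow_le_pow_left₀ (by norm_num) (by linarith [h.Lam1]) _

theorem Big.n_pos (h : Big Lam n) : 0 < n := lt_of_lt_of_le (by positivity) h.n_ge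

theorem Big.x_pos (h : Big Lam n) : 0 < x n := Real.rpow_pos_of_pos h.n_pos _

theorem Big.n_eq (h : Big Lam n) : x n ^ 1000 = n := by
  unfold x
  rw [← Real.rpow_natCast, ← Real.rpow_mul h.n_pos.le]
  norm_num

theorem Big.x_big (h : Big Lam n) : (2 * Lam) ^ 1000 ≤ x n := by
  have h0 : 0 ≤ 2 * Lam := by linarith [h.Lam1]
  have h1 : ((2 * Lam) ^ 1000) ^ 1000 ≤ x n ^ 1000 := by
    rw [h.n_eq, ← pow_mul]
    exact h.big
  exact le_of_pow_le_pow_left₀ (by norm_num) h.x_pos.le h1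

theorem Big.x_ge (h : Big Lam n) : (2 : ℝ) ^ 1000 ≤ x n := by
  refine le_trans ?_ h.x_big
  exact pow_le_pow_left₀ (by norm_num) (by linarith [h.Lam1]) _

theorem Big.x_ge1 (h : Big Lam n) : 1 ≤ x n := le_trans (one_le_pow₀ (by norm_num)) h.x_ge

theorem Big.Lam_le (h : Big Lam n) : Lam ≤ x n := by
  refine le_trans ?_ h.x_big
  have h0 : 1 ≤ 2 * Lam := by linarith [h.Lam1]
  calc Lam ≤ 2 * Lam := by linarith [h.Lam1]
    _ = (2 * Lam) ^ 1 := (pow_one _).symm
    _ ≤ (2 * Lam) ^ 1000 := pow_le_pow_right₀ h0 (by norm_num)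

theorem log_le_pow {z : ℝ} (hz : (2 : ℝ) ^ 1000 ≤ z) : 1000 * Real.log z ≤ z := by
  have hz0 : 0 < z := lt_of_lt_of_le (by positivity) hz
  have h1 : Real.log z ≤ 2 * Real.sqrt z := by
    have := Real.log_le_sub_one_of_pos (Real.sqrt_pos.2 hz0)
    rw [Real.log_sqrt hz0.le] at this
    linarith
  have h2 : (2000 : ℝ) ≤ Real.sqrt z := by
    refine Real.le_sqrt_of_sq_le ?_
    refine le_trans ?_ hz
    refine le_trans (?_ : (2000 : ℝ) ^ 2 ≤ 2 ^ 22) (pow_le_pow_right₀ (by norm_num) (by norm_num))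
    norm_num
  have h3 : Real.sqrt z * Real.sqrt z = z := Real.mul_self_sqrt hz0.le
  have h4 := mul_le_mul_of_nonneg_right h2 (Real.sqrt_nonneg z)
  rw [h3] at h4
  linarith

theorem Big.log_le (h : Big Lam n) : Real.log n ≤ x n := by
  have h1 : Real.log n = 1000 * Real.log (x n) := by
    conv_lhs => rw [← h.n_eq]
    rw [Real.log_pow]
    norm_num
  rw [h1]
  exact log_le_pow h.x_ge

theorem Big.log_nonneg (h : Big Lam n) : 0 ≤ Real.log n :=
  Real.log_nonneg (le_trans (one_le_pow₀ (by norm_num)) h.n_ge)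

theorem Big.lg_ge (h : Big Lam n) : 1 ≤ lg Lam n := by
  unfold lg
  linarith [h.Lam1, h.log_nonneg]

theorem Big.lg_le (h : Big Lam n) : lg Lam n ≤ 2 * x n := by
  unfold lg
  linarith [h.Lam_le, h.log_le]

theorem al_pos : 0 < al Lam := Real.exp_pos _

theorem log_al : Real.log (1 / al Lam) = Lam := by
  unfold al
  rw [one_div, Real.log_inv, Real.log_exp]
  ring

theorem Big.aln (h : Big Lam n) : al Lam / n = Real.exp (-lg Lam n) := by
  unfold al lg
  rw [neg_add, Real.exp_add, Real.exp_neg (Real.log n), Real.exp_log h.n_pos]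
  rfl

end PA

end

end Pool.Agent.M3.S3
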