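import Pool.Agent.M3.S3.CntFin
import Pool.Agent.M3.S3.ParA

/-!
# M3.S3.CntPA: the counts of route A for the parameters `PA` (helper49)

* `PA.M0_le` : `M0c ≤ 4 n Lam`, `M0c ≤ exp (3 lg)`;
* `PA.M1_le`, `PA.M2_le` : `M1c, M2c ≤ exp (25 lg)` for `J ≤ exp Lam`;
* `PA.sub_le` : `1 + (1 + 24 / q) M2c ≤ exp (27 lg)`;
* `PA.counts` : all counts together.
-/

set_option autoImplicit false
set_option linter.unusedSectionVars false

namespace Pool.Agent.M3.S3

open Finset Pool.Agent.PWZ Pool.Agent.M3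

noncomputable section

namespace PA

variable {Lam n : ℝ}

theorem Big.lg_big (h : Big Lam n) : 1000 ≤ lg Lam n := by
  have h1 : Real.log ((2 : ℝ) ^ 1000000) ≤ Real.log n := Real.log_le_log (by positivity) h.n_ge
  rw [Real.log_pow] at h1
  have h2 := Real.log_two_gt_d9
  have h3 : ((1000000 : ℕ) : ℝ) = 1000000 := by norm_num
  rw [h3] at h1
  unfold lg
  have := h.Lam1
  nlinarith

theorem Big.n_exp (h : Big Lam n) : n ≤ Real.exp (lg Lam n) := by
  unfold lg
  rw [Real.exp_add, Real.exp_log h.n_pos]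
  have h1 : 1 ≤ Real.exp Lam := Real.one_le_exp (by linarith [h.Lam1])
  nlinarith [h.n_pos]

theorem Big.Lam_exp (h : Big Lam n) : Lam ≤ Real.exp (lg Lam n) := by
  have h1 := Real.add_one_le_exp (lg Lam n)
  have h2 := h.log_nonneg
  have h3 : Lam ≤ lg Lam n := by unfold lg; linarith
  linarith

theorem Big.expLam (h : Big Lam n) : Real.exp Lam ≤ Real.exp (lg Lam n) := by
  refine Real.exp_le_exp.2 ?_
  unfold lg
  linarith [h.log_nonneg]

/-- every number up to 10^6 is at most `exp lg` -/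
theorem Big.num_exp (h : Big Lam n) {c : ℝ} (hc : c ≤ 1000000) : c ≤ Real.exp (lg Lam n) := by
  have h1 := h.lg_big
  have h2 : Real.exp (lg Lam n) = Real.exp (lg Lam n / 2) * Real.exp (lg Lam n / 2) := by
    rw [← Real.exp_add]; congr 1; ring
  have h3 := Real.add_one_le_exp (lg Lam n / 2)
  have h4 : Real.exp (lg Lam n / 2) = Real.exp (lg Lam n / 4) * Real.exp (lg Lam n / 4) := by
    rw [← Real.exp_add]; congr 1; ring
  have h5 := Real.add_one_le_exp (lg Lam n / 4)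
  have h6 : (251 : ℝ) ≤ Real.exp (lg Lam n / 4) := by linarith
  have h7 : (251 : ℝ) * 251 ≤ Real.exp (lg Lam n / 2) := by rw [h4]; exact mul_le_mul h6 h6 (by norm_num) (by linarith)
  have h8 : (63001 : ℝ) * 63001 ≤ Real.exp (lg Lam n) := by
    rw [h2]; exact mul_le_mul (by linarith) (by linarith) (by norm_num) (by linarith)
  linarith

theorem pexp (h : Big Lam n) (k : ℕ) : (al Lam / n) ^ k = Real.exp (-(k * lg Lam n)) := by
  rw [h.aln, ← Real.exp_nat_mul]
  congr 1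
  ring

theorem Lr_ge (h : Big Lam n) : 10000 ≤ Lr Lam n := by
  unfold Lr
  linarith [h.lg_big]

theorem M0_le (h : Big Lam n) : M0c n (Lr Lam n) Lam ≤ 4 * n * Lam := by
  unfold M0c
  refine div_le_self ?_ (by linarith [Lr_ge h])
  have := h.n_pos
  have := h.Lam1
  positivity

theorem M0_exp (h : Big Lam n) : M0c n (Lr Lam n) Lam ≤ Real.exp (3 * lg Lam n) := by
  refine (M0_le h).trans ?_
  have h1 := h.num_exp (c := 4) (by norm_num)
  have h2 : Real.exp (3 * lg Lam n) = Real.exp (lg Lam n) * Real.exp (lg Lam n) * Real.exp (lg Lam n) := by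
    rw [← Real.exp_add, ← Real.exp_add]; congr 1; ring
  have h3 := h.n_pos
  have h4 := h.Lam1
  have h5 := Real.exp_pos (lg Lam n)
  rw [h2]
  exact mul_le_mul (mul_le_mul h1 h.n_exp h3.le h5.le) h.Lam_exp (by linarith) (by positivity)

/-- **the number of ends of epochs by a test** -/
theorem M1_le (h : Big Lam n) {J : ℝ} (hJ : J ≤ Real.exp Lam) :
    M1c (Nm Lam n) n (Lr Lam n) Lam J ≤ Real.exp (24 * lg Lam n) := by
  have hn := h.n_pos
  have hL := h.Lam1
  have hLr := Lr_ge h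
  set E := Real.exp (lg Lam n) with hE
  have hE0 : 0 < E := Real.exp_pos _
  have hE1 : (1 : ℝ) ≤ E := h.num_exp (c := 1) (by norm_num)
  have hp : ∀ k : ℕ, Real.exp (-(k * lg Lam n)) = (E ^ k)⁻¹ := by
    intro k
    rw [Real.exp_neg, hE, ← Real.exp_nat_mul]
  have e24 : Real.exp (24 * lg Lam n) = E ^ 24 := by
    rw [hE, ← Real.exp_nat_mul]
    congr 1
  have h12 : (Nm Lam n).eps3 = (E ^ 12)⁻¹ := by
    show (al Lam / n) ^ 12 = _
    rw [pexp h, hp]
  have h4 : (Nm Lam n).eps4 = (E ^ 4)⁻¹ := by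
    show (al Lam / n) ^ 4 = _
    rw [pexp h, hp]
  have h20 : (Nm Lam n).kap = (E ^ 20)⁻¹ := by
    show (al Lam / n) ^ 20 = _
    rw [pexp h, hp]
  have hnE : n ≤ E := h.n_exp
  have hLE : Lam ≤ E := h.Lam_exp
  have hJE : J ≤ E := hJ.trans h.expLam
  have hnL : n * Lam ≤ E * E := mul_le_mul hnE hLE (by linarith) hE0.le
  have hnL0 : 0 ≤ n * Lam := by positivity
  have t1 : 5 * n * Lam / (Lr Lam n * (E ^ 12)⁻¹) ≤ E ^ 14 := by
    rw [div_le_iff₀ (by positivity)]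
    have e1 : E ^ 14 * (Lr Lam n * (E ^ 12)⁻¹) = Lr Lam n * (E * E) := by
      field_simp
    rw [e1]
    have : 5 * (E * E) ≤ Lr Lam n * (E * E) := mul_le_mul_of_nonneg_right (by linarith) (by positivity)
    linarith
  have t2 : (8 + 24 * J) / (E ^ 20)⁻¹ ≤ E ^ 22 := by
    rw [div_inv_eq_mul]
    have h32 : (8 + 24 * J) ≤ E ^ 2 := by
      have h33 := h.num_exp (c := 32) (by norm_num)
      have : 8 + 24 * J ≤ 32 * E := by linarith
      nlinarith
    calc (8 + 24 * J) * E ^ 20 ≤ E ^ 2 * E ^ 20 := mul_le_mul_of_nonneg_right h32 (by positivity)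
      _ = E ^ 22 := by ring
  have t3 : 4 * n * Lam / (Lr Lam n * (E ^ 4)⁻¹) ≤ E ^ 6 := by
    rw [div_le_iff₀ (by positivity)]
    have e1 : E ^ 6 * (Lr Lam n * (E ^ 4)⁻¹) = Lr Lam n * (E * E) := by
      field_simp
    rw [e1]
    have : 4 * (E * E) ≤ Lr Lam n * (E * E) := mul_le_mul_of_nonneg_right (by linarith) (by positivity)
    linarith
  unfold M1c
  rw [h12, h4, h20, e24]
  have s1 : E ^ 14 ≤ E ^ 23 := pow_le_pow_right₀ hE1 (by norm_num)
  have s2 : E ^ 22 ≤ E ^ 23 := pow_le_pow_right₀ hE1 (by norm_num)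
  have s3 : E ^ 6 ≤ E ^ 23 := pow_le_pow_right₀ hE1 (by norm_num)
  have s4 : 3 * E ^ 23 ≤ E ^ 24 := by
    have h33 := h.num_exp (c := 3) (by norm_num)
    calc 3 * E ^ 23 ≤ E * E ^ 23 := mul_le_mul_of_nonneg_right h33 (by positivity)
      _ = E ^ 24 := by ring
  linarith

theorem M2_le (h : Big Lam n) {J : ℝ} (hJ : J ≤ Real.exp Lam) :
    M2c (Nm Lam n) n (Lr Lam n) Lam J ≤ Real.exp (25 * lg Lam n) := by
  have h0 := M0_exp h
  have h1 := M1_le h hJ
  have h2 : Real.exp (3 * lg Lam n) ≤ Real.exp (24 * lg Lam n) :=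
    Real.exp_le_exp.2 (by linarith [h.lg_ge])
  have h3 : Real.exp (25 * lg Lam n) = Real.exp (lg Lam n) * Real.exp (24 * lg Lam n) := by
    rw [← Real.exp_add]; congr 1; ring
  have h4 := h.num_exp (c := 2) (by norm_num)
  have h5 : 2 * Real.exp (24 * lg Lam n) ≤ Real.exp (25 * lg Lam n) := by
    rw [h3]
    exact mul_le_mul_of_nonneg_right h4 (Real.exp_pos _).le
  unfold M2c
  linarith

theorem x_le_exp (h : Big Lam n) : (x n) ^ 1000 ≤ Real.exp (lg Lam n) := by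
  rw [h.n_eq]
  exact h.n_exp

theorem invq_le (h : Big Lam n) : 24 / q n ≤ Real.exp (lg Lam n) := by
  unfold q
  have h1 := h.x_ge
  have h0 := h.x_ge1
  rw [inv_pow, div_inv_eq_mul]
  have h2 : (24 : ℝ) ≤ x n ^ 700 := by
    refine le_trans ?_ (pow_le_pow_left₀ (by positivity) h1 700)
    rw [← pow_mul]
    refine le_trans (?_ : (24 : ℝ) ≤ 2 ^ 5) (pow_le_pow_right₀ (by norm_num) (by norm_num))
    norm_num
  calc 24 * x n ^ 300 ≤ x n ^ 700 * x n ^ 300 := mul_le_mul_of_nonneg_right h2 (by positivity)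
    _ = x n ^ 1000 := by ring
    _ ≤ _ := x_le_exp h

theorem q_pos (h : Big Lam n) : 0 < q n := by
  unfold q
  have := h.x_pos
  positivity

theorem q_le (h : Big Lam n) : q n ≤ 1 / 4 := by
  unfold q
  have h1 := h.x_ge
  have h2 : (4 : ℝ) ≤ x n := le_trans (by norm_num) (le_trans (pow_le_pow_right₀ (a := (2:ℝ)) (by norm_num)
    (show 2 ≤ 1000 by norm_num)) h1)
  have h3 : (x n)⁻¹ ≤ 1 / 4 := by
    rw [one_div]
    exact inv_anti₀ (by norm_num) h2
  have h4 : 0 ≤ (x n)⁻¹ := by have := h.x_pos; positivity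
  calc (x n)⁻¹ ^ 300 ≤ (x n)⁻¹ ^ 1 := pow_le_pow_of_le_one h4 (by linarith) (by norm_num)
    _ ≤ 1 / 4 := by rw [pow_one]; exact h3

/-- number of sub-epochs -/
theorem sub_le (h : Big Lam n) {J : ℝ} (hJ : J ≤ Real.exp Lam) :
    1 + (1 + 24 / q n) * M2c (Nm Lam n) n (Lr Lam n) Lam J ≤ Real.exp (27 * lg Lam n) := by
  have h1 := M2_le h hJ
  have h2 := invq_le h
  have h3 := h.num_exp (c := 3) (by norm_num)
  have hE0 := Real.exp_pos (lg Lam n)
  have h4 : 0 ≤ 24 / q n := by have := q_pos h; positivity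
  have e25 : Real.exp (25 * lg Lam n) = Real.exp (lg Lam n) ^ 25 := by
    rw [← Real.exp_nat_mul]; congr 1
  have e27 : Real.exp (27 * lg Lam n) = Real.exp (lg Lam n) ^ 27 := by
    rw [← Real.exp_nat_mul]; congr 1
  rw [e25] at h1
  rw [e27]
  set E := Real.exp (lg Lam n) with hE
  have hE1 : (1 : ℝ) ≤ E := by linarith
  calc 1 + (1 + 24 / q n) * M2c (Nm Lam n) n (Lr Lam n) Lam J ≤ 1 + (1 + 24 / q n) * E ^ 25 := by
        have := mul_le_mul_of_nonneg_left h1 (show 0 ≤ 1 + 24 / q n by linarith)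
        linarith
    _ ≤ E ^ 25 + (E + E) * E ^ 25 := by
        have h6 : (1 : ℝ) ≤ E ^ 25 := one_le_pow₀ hE1
        have h7 := mul_le_mul_of_nonneg_right (show 1 + 24 / q n ≤ E + E by linarith) (show 0 ≤ E ^ 25 by positivity)
        linarith
    _ ≤ E ^ 27 := by
        have h8 : E ^ 25 ≤ E ^ 26 := pow_le_pow_right₀ hE1 (by norm_num)
        have h9 : 3 * E ^ 26 ≤ E ^ 27 := by
          calc 3 * E ^ 26 ≤ E * E ^ 26 := mul_le_mul_of_nonneg_right h3 (by positivity)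
            _ = E ^ 27 := by ring
        have h10 : (E + E) * E ^ 25 = 2 * E ^ 26 := by ring
        linarith

variable {X β γ ι φ : Type*} [Fintype X] [Fintype β] [Fintype γ] [Fintype φ] {D : Dat X β γ ι φ}
  {Up : Upd D} {J : ℝ} {K : ℕ}

/-- **ALL COUNTS OF ROUTE A** -/
theorem counts [DecidableEq φ] (h : Big Lam n) (T : D.Thick (al Lam)) (P : Proj D)
    (H : CNum (Nm Lam n) n (Lr Lam n) (al Lam))
    (hnum : 8 * (Nm Lam n).eps3 * (n * (Real.log (1 / al Lam) + 1) + 1) ≤ Lr Lam n * (Nm Lam n).eps4 / 2)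
    (hU : UpdOk D Up K J) (hJ : 0 ≤ J) (hJ' : J ≤ Real.exp Lam) (hB : Birth D K Lam) :
    nfall (v2 D Up (Nm Lam n) n (Lr Lam n)) K ≤ 4 * n * Lam / Lr Lam n ∧
    nfall (v2 D Up (Nm Lam n) n (Lr Lam n)) K ≤ 4 * n * Lam ∧
    ntpr (v2 D Up (Nm Lam n) n (Lr Lam n)) K ≤ Real.exp (25 * lg Lam n) ∧
    nfall (v2 D Up (Nm Lam n) n (Lr Lam n)) K + ntpr (v2 D Up (Nm Lam n) n (Lr Lam n)) K ≤
      Real.exp (25 * lg Lam n) ∧
    1 + (1 + 24 / q n) * (nfall (v2 D Up (Nm Lam n) n (Lr Lam n)) K + ntpr (v2 D Up (Nm Lam n) n (Lr Lam n)) K) ≤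
      Real.exp (27 * lg Lam n) ∧
    ∑ σ ∈ range (K + 1), E3 (fun x b c => ind ((v2 D Up (Nm Lam n) n (Lr Lam n)).prc.sb (q n) σ x b c = σ)) ≤
      Real.exp (27 * lg Lam n) ∧
    ∑ σ ∈ range (K + 1), E3 (fun x c b => ind ((v2 D Up (Nm Lam n) n (Lr Lam n)).prc.swap.sb (q n) σ x c b = σ)) ≤
      Real.exp (27 * lg Lam n) ∧
    bits (v2 D Up (Nm Lam n) n (Lr Lam n)) K ≤ 4 * n * Lam ∧
    ∑ s ∈ range K, E3 (fun x b c => ind (L0 n < Real.log (((hcl (v2 D Up (Nm Lam n) n (Lr Lam n)) s x b c).card : ℝ) /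
      ((v2 D Up (Nm Lam n) n (Lr Lam n)).U (s + 1) x b c).card))) ≤ 4 * n * Lam / L0 n := by
  have hal : al Lam ≤ 1 := by
    unfold al
    rw [Real.exp_le_one_iff]
    linarith [h.Lam1]
  have hp3 : 0 < (Nm Lam n).eps3 := by
    show 0 < (al Lam / n) ^ 12
    have := h.n_pos
    have := al_pos (Lam := Lam)
    positivity
  have hp4 : 0 < (Nm Lam n).eps4 := by
    show 0 < (al Lam / n) ^ 4
    have := h.n_pos
    have := al_pos (Lam := Lam)
    positivity
  have hpk : 0 < (Nm Lam n).kap := by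
    show 0 < (al Lam / n) ^ 20
    have := h.n_pos
    have := al_pos (Lam := Lam)
    positivity
  have f0 := nfall_fin (Up := Up) T P H hB
  have f1 := ntpr_fin (Up := Up) T P hal H hp3 hp4 hpk hnum hU hJ hB
  have f2 := new_fin (Up := Up) T P hal H hp3 hp4 hpk hnum hU hJ hB
  have hq := q_pos h
  have hq2 : q n ≤ 2 := by linarith [q_le h]
  have hL0 : 0 < L0 n := by
    unfold L0
    have := h.x_pos
    positivity
  have hs := sub_le h hJ'
  have h24 : 0 ≤ 1 + 24 / q n := by positivity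
  refine ⟨f0, f0.trans (M0_le h), ?_, f2.trans (M2_le h hJ'), ?_, ?_, ?_, ?_, ?_⟩
  · refine (f1.trans (M1_le h hJ')).trans (Real.exp_le_exp.2 ?_)
    linarith [h.lg_ge]
  · refine le_trans ?_ hs
    linarith [mul_le_mul_of_nonneg_left f2 h24]
  · exact (sub_f T P hal H hp3 hp4 hpk hnum hU hJ hB hq hq2).trans hs
  · exact (sub_g T P hal H hp3 hp4 hpk hnum hU hJ hB hq hq2).trans hs
  · exact bits_le T P v2_tst v2_con H hB
  · exact big_fin T P H hB hL0

end PA

end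

end Pool.Agent.M3.S3
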