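import Pool.Agent.M3.S3.SynF

/-!
# M3.S3.M2: the bias of the digit in the public class, and the conclusions m2, x2, y2 of Theorem 3 (helper15)

`V` a refining family of public classes, digits balanced on the cells (both routes).
* `mdg D V dg t x b c` = mean of the digit over the class; `m3_mdg` : `m3` is `mdg`; `abs_mdg_le`;
* `card_hlf` : `|hlf| = (1 + dg x * mdg) / 2 * |V|`; `card_cA_succ` : the cell is halved;
* `mdg_of_hlf` : `|hlf| < mu |V|` or `(1 - mu) |V| < |hlf|` gives `1 - 2 mu < |mdg|`;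
* `sum_mdg` : `sum E3 mdg^2 <= 2 (E3 log(|cA 0|/|V 0|) + sum E3 log(|hlf t|/|V (t+1)|))`; `sum_mbig` : the times with `|mdg| > 1/2`;
* `concl_m2`, `concl_x2`, `concl_y2`.
-/

set_option autoImplicit false
set_option linter.unusedSectionVars false

namespace Pool.Agent.M3.S3

open Finset Pool.Agent.PWZ Pool.Agent.M3

noncomputable section

section digits

variable {X : Type*}

/-- entropy of a biased digit -/
theorem avg_log_ge {S : Finset X} (hS : S.Nonempty) {d : X → ℝ} (hd : ∀ x ∈ S, d x = 1 ∨ d x = -1) :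
    (avg S d) ^ 2 / 2 ≤ avg S fun x => Real.log (1 + d x * avg S d) := by
  have hc : (0 : ℝ) < S.card := by exact_mod_cast hS.card_pos
  set m : ℝ := avg S d with hm
  have habs : |m| ≤ 1 := by
    rw [hm]
    unfold avg
    rw [abs_div, abs_of_pos hc, div_le_one hc]
    calc |∑ x ∈ S, d x| ≤ ∑ x ∈ S, |d x| := Finset.abs_sum_le_sum_abs _ _
      _ ≤ ∑ _x ∈ S, (1 : ℝ) := Finset.sum_le_sum fun x hx => by
          rcases hd x hx with h | h <;> rw [h] <;> norm_num
      _ = S.card := by simp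
  have h1 : (avg S fun x => Real.log (1 + d x * m)) =
      (1 + m) / 2 * Real.log (1 + m) + (1 - m) / 2 * Real.log (1 - m) := by
    have e : ∀ x ∈ S, Real.log (1 + d x * m) =
        (1 + d x) / 2 * Real.log (1 + m) + (1 - d x) / 2 * Real.log (1 - m) := by
      intro x hx
      rcases hd x hx with h | h
      · rw [h]; ring_nf
      · rw [h, show (1 : ℝ) + -1 * m = 1 - m by ring]; ring
    unfold avg
    rw [Finset.sum_congr rfl e, Finset.sum_add_distrib, ← Finset.sum_mul, ← Finset.sum_mul]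
    have e2 : ∑ x ∈ S, d x = m * S.card := by
      rw [hm]; unfold avg; field_simp
    have e3 : ∑ x ∈ S, (1 + d x) / 2 = (1 + m) / 2 * S.card := by
      rw [← Finset.sum_div, Finset.sum_add_distrib, e2]
      simp only [Finset.sum_const, nsmul_eq_mul, mul_one]
      ring
    have e4 : ∑ x ∈ S, (1 - d x) / 2 = (1 - m) / 2 * S.card := by
      rw [← Finset.sum_div, Finset.sum_sub_distrib, e2]
      simp only [Finset.sum_const, nsmul_eq_mul, mul_one]
      ring
    rw [e3, e4]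
    field_simp
  rw [h1]
  have h2 := FP.bin_pinsker (b := m) (c := 0) habs (by norm_num)
  simp only [sub_zero, add_zero, div_one] at h2
  exact h2

open Classical in
/-- half of a set given by a digit -/
theorem card_dig {S : Finset X} (hS : S.Nonempty) {d : X → ℝ} (hd : ∀ x, d x = 1 ∨ d x = -1) (x : X) :
    ((S.filter fun y => d y = d x).card : ℝ) = (1 + d x * avg S d) / 2 * S.card := by
  have hc : (0 : ℝ) < S.card := by exact_mod_cast hS.card_pos
  have h1 : ((S.filter fun y => d y = d x).card : ℝ) = ∑ y ∈ S, (1 + d x * d y) / 2 := by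
    rw [Finset.card_eq_sum_ones, Nat.cast_sum, Finset.sum_filter]
    refine Finset.sum_congr rfl fun y _ => ?_
    rcases hd x with h | h <;> rcases hd y with h' | h' <;> rw [h, h'] <;> norm_num
  rw [h1, ← Finset.sum_div, Finset.sum_add_distrib, ← Finset.mul_sum]
  have e2 : ∑ x ∈ S, d x = avg S d * S.card := by unfold avg; field_simp
  rw [e2]
  simp only [Finset.sum_const, nsmul_eq_mul, mul_one]
  ring

end digits

section cells

variable {X β γ ι φ : Type*} [Fintype X]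

/-- mean of the digit over the class -/
def mdg (V : ℕ → X → β → γ → Finset X) (dg : ℕ → X → ℝ) (t : ℕ) (x : X) (b : β) (c : γ) : ℝ := avg (V t x b c) (dg t)

variable [Fintype β] [Fintype γ] [Fintype φ] {D : Dat X β γ ι φ} {V : ℕ → X → β → γ → Finset X}

theorem abs_mdg_le {dg : ℕ → X → ℝ} {t : ℕ} (hd : ∀ x, dg t x = 1 ∨ dg t x = -1) (x : X) (b : β) (c : γ) :
    |mdg V dg t x b c| ≤ 1 := by
  unfold mdg avg
  rcases Nat.eq_zero_or_pos (V t x b c).card with h0 | hpos
  · rw [h0]; simp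
  · have hc : (0 : ℝ) < (V t x b c).card := by exact_mod_cast hpos
    rw [abs_div, abs_of_pos hc, div_le_one hc]
    calc |∑ x ∈ V t x b c, dg t x| ≤ ∑ x ∈ V t x b c, |dg t x| := Finset.abs_sum_le_sum_abs _ _
      _ ≤ ∑ _x ∈ V t x b c, (1 : ℝ) := Finset.sum_le_sum fun x hx => by
          rcases hd x with h | h <;> rw [h] <;> norm_num
      _ = (V t x b c).card := by simp

theorem card_hlf (hV : RefCl D V) {dg : ℕ → X → ℝ} {t : ℕ} (hd : ∀ x, dg t x = 1 ∨ dg t x = -1)
    (hcell : ∀ x x', D.qa (t + 1) x = D.qa (t + 1) x' ↔ D.qa t x = D.qa t x' ∧ dg t x = dg t x')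
    (x : X) (b : β) (c : γ) :
    ((hlf D V t x b c).card : ℝ) = (1 + dg t x * mdg V dg t x b c) / 2 * (V t x b c).card := by
  classical
  have h1 : hlf D V t x b c = (V t x b c).filter fun y => dg t y = dg t x := by
    ext y
    rw [mem_hlf, mem_filter]
    refine and_congr_right fun hy => ?_
    have h2 := D.mem_cA.1 (hV.cell t x b c hy)
    rw [hcell]
    exact ⟨fun h => h.2, fun h => ⟨h2, h⟩⟩
  rw [h1]
  unfold mdg
  convert card_dig (S := V t x b c) ⟨x, hV.self t x b c⟩ hd x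

theorem card_cA_succ {dg : ℕ → X → ℝ} {t : ℕ} (hd : ∀ x, dg t x = 1 ∨ dg t x = -1)
    (hcell : ∀ x x', D.qa (t + 1) x = D.qa (t + 1) x' ↔ D.qa t x = D.qa t x' ∧ dg t x = dg t x')
    (hbal : ∀ x, ∑ y ∈ D.cA t x, dg t y = 0) (x : X) :
    ((D.cA (t + 1) x).card : ℝ) = (D.cA t x).card / 2 := by
  classical
  have h1 : D.cA (t + 1) x = (D.cA t x).filter fun y => dg t y = dg t x := by
    ext y
    rw [D.mem_cA, mem_filter, D.mem_cA, hcell]
  have h2 : avg (D.cA t x) (dg t) = 0 := by unfold avg; rw [hbal, zero_div]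
  have h3 : ((D.cA t x).filter fun y => dg t y = dg t x).card =
      (((D.cA t x).filter fun y => dg t y = dg t x).card : ℝ) := rfl
  rw [h1]
  have h4 := card_dig (S := D.cA t x) ⟨x, D.self_cA t x⟩ hd x
  rw [h2, mul_zero, add_zero] at h4
  have h5 : (((D.cA t x).filter fun y => dg t y = dg t x).card : ℝ) = 1 / 2 * (D.cA t x).card := by
    convert h4
  rw [h5]
  ring

/-- a small or a very large half means a large bias -/
theorem mdg_of_hlf (hV : RefCl D V) {dg : ℕ → X → ℝ} {t : ℕ} (hd : ∀ x, dg t x = 1 ∨ dg t x = -1)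
    (hcell : ∀ x x', D.qa (t + 1) x = D.qa (t + 1) x' ↔ D.qa t x = D.qa t x' ∧ dg t x = dg t x')
    {x : X} {b : β} {c : γ} {mu : ℝ}
    (h : ((hlf D V t x b c).card : ℝ) < mu * (V t x b c).card ∨
      (1 - mu) * (V t x b c).card < (hlf D V t x b c).card) :
    1 - 2 * mu < |mdg V dg t x b c| := by
  have hc : (0 : ℝ) < (V t x b c).card := by
    exact_mod_cast Finset.card_pos.2 ⟨x, hV.self t x b c⟩
  rw [card_hlf hV hd hcell] at h
  set m := mdg V dg t x b c
  have h1 : (1 + dg t x * m) / 2 < mu ∨ 1 - mu < (1 + dg t x * m) / 2 := by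
    rcases h with h | h
    · exact Or.inl (lt_of_mul_lt_mul_right h hc.le)
    · exact Or.inr (lt_of_mul_lt_mul_right h hc.le)
  have h2 : |dg t x * m| = |m| := by
    rw [abs_mul]
    rcases hd x with h | h <;> rw [h] <;> simp
  rw [← h2]
  rcases h1 with h1 | h1
  · have := neg_abs_le (dg t x * m)
    linarith
  · have := le_abs_self (dg t x * m)
    linarith

/-- the next class is inside the half step class -/
theorem succ_sub_hlf (hV : RefCl D V) (t : ℕ) (x : X) (b : β) (c : γ) : V (t + 1) x b c ⊆ hlf D V t x b c :=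
  fun _ hy => mem_hlf.2 ⟨hV.ref t x b c hy, D.mem_cA.1 (hV.cell (t + 1) x b c hy)⟩

theorem log_div_card_nonneg {S T : Finset X} (h : S ⊆ T) (hS : S.Nonempty) :
    0 ≤ Real.log ((T.card : ℝ) / S.card) := by
  have hc : (0 : ℝ) < S.card := by exact_mod_cast hS.card_pos
  refine Real.log_nonneg ?_
  rw [le_div_iff₀ hc, one_mul]
  exact_mod_cast Finset.card_le_card h

end cells

section sums

variable {X β γ ι φ : Type*} [Fintype X] [Fintype β] [Fintype γ] [Fintype φ] {D : Dat X β γ ι φ}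
  {V : ℕ → X → β → γ → Finset X}

theorem mdg_step (hV : RefCl D V) {dg : ℕ → X → ℝ} {t : ℕ} (hd : ∀ x, dg t x = 1 ∨ dg t x = -1)
    (hcell : ∀ x x', D.qa (t + 1) x = D.qa (t + 1) x' ↔ D.qa t x = D.qa t x' ∧ dg t x = dg t x')
    (hbal : ∀ x, ∑ y ∈ D.cA t x, dg t y = 0) :
    E3 (fun x b c => mdg V dg t x b c ^ 2) / 2 +
      E3 (fun x b c => Real.log (((D.cA (t + 1) x).card : ℝ) / (V (t + 1) x b c).card)) ≤
    E3 (fun x b c => Real.log (((D.cA t x).card : ℝ) / (V t x b c).card)) +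
      E3 (fun x b c => Real.log (((hlf D V t x b c).card : ℝ) / (V (t + 1) x b c).card)) := by
  have h1 : ∀ x b c, Real.log (((D.cA (t + 1) x).card : ℝ) / (V (t + 1) x b c).card) =
      Real.log (((D.cA t x).card : ℝ) / (V t x b c).card) +
        Real.log (((hlf D V t x b c).card : ℝ) / (V (t + 1) x b c).card) -
        Real.log (1 + dg t x * mdg V dg t x b c) := by
    intro x b c
    have a1 : (0 : ℝ) < (D.cA t x).card := by exact_mod_cast Finset.card_pos.2 ⟨x, D.self_cA t x⟩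
    have a2 : (0 : ℝ) < (V t x b c).card := by exact_mod_cast Finset.card_pos.2 ⟨x, hV.self t x b c⟩
    have a3 : (0 : ℝ) < (V (t + 1) x b c).card := by
      exact_mod_cast Finset.card_pos.2 ⟨x, hV.self (t + 1) x b c⟩
    have a4 : (0 : ℝ) < (hlf D V t x b c).card := by
      exact_mod_cast Finset.card_pos.2 ⟨x, mem_hlf.2 ⟨hV.self t x b c, rfl⟩⟩
    have e1 := card_cA_succ hd hcell hbal x
    have e2 := card_hlf hV hd hcell x b c
    have a5 : 0 < 1 + dg t x * mdg V dg t x b c := by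
      rw [e2] at a4
      by_contra hn
      push Not at hn
      have : (1 + dg t x * mdg V dg t x b c) / 2 * (V t x b c).card ≤ 0 :=
        mul_nonpos_of_nonpos_of_nonneg (by linarith) a2.le
      linarith
    rw [e1, Real.log_div (by positivity) a3.ne', Real.log_div a1.ne' a2.ne', Real.log_div a4.ne' a3.ne', e2,
      Real.log_div a1.ne' (by norm_num), Real.log_mul (by positivity) a2.ne', Real.log_div a5.ne' (by norm_num)]
    ring
  have h2 : E3 (fun x b c => mdg V dg t x b c ^ 2) / 2 ≤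
      E3 (fun x b c => Real.log (1 + dg t x * mdg V dg t x b c)) := by
    rw [E3_mean (hV.pv t) (fun x b c => Real.log (1 + dg t x * mdg V dg t x b c)),
      show E3 (fun x b c => mdg V dg t x b c ^ 2) / 2 = (1 / 2) * E3 (fun x b c => mdg V dg t x b c ^ 2) by ring,
      ← E3_smul]
    refine E3_mono fun x b c => ?_
    have h3 : ∀ x' ∈ V t x b c, Real.log (1 + dg t x' * mdg V dg t x' b c) =
        Real.log (1 + dg t x' * avg (V t x b c) (dg t)) := by
      intro x' hx'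
      unfold mdg
      rw [(hV.pv t b c).pub x x' hx']
    have h4 := avg_log_ge (S := V t x b c) ⟨x, hV.self t x b c⟩ (d := dg t) (fun y _ => hd y)
    have h5 : (avg (V t x b c) fun x' => Real.log (1 + dg t x' * mdg V dg t x' b c)) =
        avg (V t x b c) fun x' => Real.log (1 + dg t x' * avg (V t x b c) (dg t)) := by
      unfold avg
      exact congrArg (· / _) (Finset.sum_congr rfl h3)
    rw [h5]
    show 1 / 2 * (avg (V t x b c) (dg t)) ^ 2 ≤ _
    linarith
  have h3 : E3 (fun x b c => Real.log (((D.cA (t + 1) x).card : ℝ) / (V (t + 1) x b c).card)) =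
      E3 (fun x b c => Real.log (((D.cA t x).card : ℝ) / (V t x b c).card)) +
      E3 (fun x b c => Real.log (((hlf D V t x b c).card : ℝ) / (V (t + 1) x b c).card)) -
      E3 (fun x b c => Real.log (1 + dg t x * mdg V dg t x b c)) := by
    rw [← E3_add, ← E3_sub]
    exact E3_congr fun x b c => h1 x b c
  rw [h3]
  linarith

/-- THE BIASES OF THE DIGITS are paid by the bits of the classes -/
theorem sum_mdg (hV : RefCl D V) {dg : ℕ → X → ℝ} {K : ℕ} (hd : ∀ t x, dg t x = 1 ∨ dg t x = -1)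
    (hcell : ∀ t < K, ∀ x x', D.qa (t + 1) x = D.qa (t + 1) x' ↔ D.qa t x = D.qa t x' ∧ dg t x = dg t x')
    (hbal : ∀ t < K, ∀ x, ∑ y ∈ D.cA t x, dg t y = 0) :
    ∑ t ∈ range K, E3 (fun x b c => mdg V dg t x b c ^ 2) ≤
      2 * (E3 (fun x b c => Real.log (((D.cA 0 x).card : ℝ) / (V 0 x b c).card)) +
        ∑ t ∈ range K, E3 (fun x b c => Real.log (((hlf D V t x b c).card : ℝ) / (V (t + 1) x b c).card))) := by
  have key : ∀ n ≤ K, (∑ t ∈ range n, E3 (fun x b c => mdg V dg t x b c ^ 2)) / 2 +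
      E3 (fun x b c => Real.log (((D.cA n x).card : ℝ) / (V n x b c).card)) ≤
      E3 (fun x b c => Real.log (((D.cA 0 x).card : ℝ) / (V 0 x b c).card)) +
        ∑ t ∈ range n, E3 (fun x b c => Real.log (((hlf D V t x b c).card : ℝ) / (V (t + 1) x b c).card)) := by
    intro n
    induction n with
    | zero => intro _; simp
    | succ n ih =>
      intro hn
      have h1 := ih (by omega)
      have h2 := mdg_step hV (dg := dg) (t := n) (hd n) (hcell n (by omega)) (hbal n (by omega))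
      rw [Finset.sum_range_succ, Finset.sum_range_succ]
      linarith
  have h1 := key K le_rfl
  have h2 : 0 ≤ E3 (fun x b c => Real.log (((D.cA K x).card : ℝ) / (V K x b c).card)) :=
    E3_nonneg fun x b c => log_div_card_nonneg (hV.cell K x b c) ⟨x, hV.self K x b c⟩
  linarith

/-- number of times with a large bias -/
theorem sum_mbig (hV : RefCl D V) {dg : ℕ → X → ℝ} {K : ℕ} (hd : ∀ t x, dg t x = 1 ∨ dg t x = -1)
    (hcell : ∀ t < K, ∀ x x', D.qa (t + 1) x = D.qa (t + 1) x' ↔ D.qa t x = D.qa t x' ∧ dg t x = dg t x')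
    (hbal : ∀ t < K, ∀ x, ∑ y ∈ D.cA t x, dg t y = 0) :
    ∑ t ∈ range K, E3 (fun x b c => ind (1 / 2 < |mdg V dg t x b c|)) ≤
      8 * (E3 (fun x b c => Real.log (((D.cA 0 x).card : ℝ) / (V 0 x b c).card)) +
        ∑ t ∈ range K, E3 (fun x b c => Real.log (((hlf D V t x b c).card : ℝ) / (V (t + 1) x b c).card))) := by
  have h1 := sum_mdg hV hd hcell hbal
  have h2 : ∑ t ∈ range K, E3 (fun x b c => ind (1 / 2 < |mdg V dg t x b c|)) ≤
      4 * ∑ t ∈ range K, E3 (fun x b c => mdg V dg t x b c ^ 2) := by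
    rw [Finset.mul_sum]
    refine Finset.sum_le_sum fun t _ => ?_
    rw [← E3_smul]
    refine E3_mono fun x b c => ?_
    by_cases h : 1 / 2 < |mdg V dg t x b c|
    · rw [ind_of h, ← sq_abs]
      nlinarith [abs_nonneg (mdg V dg t x b c)]
    · rw [ind_not h]
      positivity
  linarith

end sums

section concl

variable {X β γ ι φ : Type} [Fintype X] [Fintype β] [Fintype γ] [Fintype φ] [Nonempty X] [Nonempty β] [Nonempty γ]
  {D : Dat X β γ ι φ} {V : ℕ → X → β → γ → Finset X} {al : ℝ}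

/-- `m3` is the mean of the digit over the class -/
theorem m3_mdg (T : D.Thick al) (hV : RefCl D V) (dg : ℕ → X → ℝ) (t : ℕ) (w : Sp X β γ φ) :
    m3 T dg V t w = mdg V dg t w.1 w.2.1 w.2.2.1 := by
  rw [m3_eq T hV]
  unfold mS FP.ce
  have h1 : (D.kp T t).P.E (fun v => ind ((bxU hV t).map v = (bxU hV t).map w) * dg t v.1) =
      (∑ x ∈ V t w.1 w.2.1 w.2.2.1, dg t x) *
        ((D.cB t w.2.1).card * (D.cC t w.2.2.1).card) / MM X β γ := by
    have e : (D.kp T t).P.E (fun v => ind ((bxU hV t).map v = (bxU hV t).map w) * dg t v.1) =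
        (D.kp T t).P.E (fun v => ind (v.1 ∈ (bxU hV t).V w.1 w.2.1 w.2.2.1 ∧
          v.2.1 ∈ (bxU hV t).B w.1 w.2.1 w.2.2.1 ∧ v.2.2.1 ∈ (bxU hV t).C w.1 w.2.1 w.2.2.1) * dg t v.1) := by
      refine (D.kp T t).P.E_congr fun v _ => ?_
      rw [show (((bxU hV t).map v = (bxU hV t).map w) : Prop) = (v.1 ∈ (bxU hV t).V w.1 w.2.1 w.2.2.1 ∧
          v.2.1 ∈ (bxU hV t).B w.1 w.2.1 w.2.2.1 ∧ v.2.2.1 ∈ (bxU hV t).C w.1 w.2.1 w.2.2.1)
        from propext (bxU hV t).map_eq]
    rw [e, (D.kp T t).E_in, MM]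
    congr 1
    have e2 : ∀ (x : X) (b : β) (c : γ), (∑ F, ∑ G, (D.kp T t).f x b c F * (D.kp T t).g x b c G * dg t x) =
        dg t x := by
      intro x b c
      simp only [← Finset.sum_mul, ← Finset.mul_sum, (D.kp T t).g_one, (D.kp T t).f_one, mul_one, one_mul]
    show (∑ x ∈ V t w.1 w.2.1 w.2.2.1, ∑ b ∈ D.cB t w.2.1, ∑ c ∈ D.cC t w.2.2.1,
      ∑ F, ∑ G, (D.kp T t).f x b c F * (D.kp T t).g x b c G * dg t x) = _
    simp only [e2, Finset.sum_const, nsmul_eq_mul]
    rw [Finset.sum_mul]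
    refine Finset.sum_congr rfl fun x _ => ?_
    ring
  rw [h1, m_N]
  have a1 : (0 : ℝ) < (V t w.1 w.2.1 w.2.2.1).card := by
    exact_mod_cast Finset.card_pos.2 ⟨w.1, hV.self t _ _ _⟩
  have a2 : (0 : ℝ) < (D.cB t w.2.1).card := by exact_mod_cast Finset.card_pos.2 ⟨w.2.1, D.self_cB t _⟩
  have a3 : (0 : ℝ) < (D.cC t w.2.2.1).card := by exact_mod_cast Finset.card_pos.2 ⟨w.2.2.1, D.self_cC t _⟩
  have a4 := MM_pos (X := X) (β := β) (γ := γ)
  show _ / ((V t w.1 w.2.1 w.2.2.1).card * ((D.cB t w.2.1).card * (D.cC t w.2.2.1).card) / MM X β γ) =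
    (∑ x ∈ V t w.1 w.2.1 w.2.2.1, dg t x) / ((V t w.1 w.2.1 w.2.2.1).card : ℝ)
  field_simp

/-- conclusion m2 -/
theorem concl_m2 (T : D.Thick al) (hV : RefCl D V) {dg : ℕ → X → ℝ} {K : ℕ}
    (hd : ∀ t x, dg t x = 1 ∨ dg t x = -1)
    (hcell : ∀ t < K, ∀ x x', D.qa (t + 1) x = D.qa (t + 1) x' ↔ D.qa t x = D.qa t x' ∧ dg t x = dg t x')
    (hbal : ∀ t < K, ∀ x, ∑ y ∈ D.cA t x, dg t y = 0) :
    ∑ t ∈ range K, (D.kp T t).P.E (fun w => m3 T dg V t w ^ 2) ≤
      2 * (E3 (fun x b c => Real.log (((D.cA 0 x).card : ℝ) / (V 0 x b c).card)) +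
        ∑ t ∈ range K, E3 (fun x b c => Real.log (((hlf D V t x b c).card : ℝ) / (V (t + 1) x b c).card))) := by
  refine le_trans (le_of_eq (Finset.sum_congr rfl fun t _ => ?_)) (sum_mdg hV hd hcell hbal)
  rw [← (D.kp T t).E_pts (fun x b c => mdg V dg t x b c ^ 2)]
  exact (D.kp T t).P.E_congr fun w _ => by rw [m3_mdg T hV]

theorem x2_step (T : D.Thick al) (hV : RefCl D V) {dg : ℕ → X → ℝ} {t : ℕ}
    (hd : ∀ x, dg t x = 1 ∨ dg t x = -1)
    (hcell : ∀ x x', D.qa (t + 1) x = D.qa (t + 1) x' ↔ D.qa t x = D.qa t x' ∧ dg t x = dg t x') :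
    (D.kp T t).P.E (fun w => (x3 T dg V t w - m3 T dg V t w) ^ 2) ≤
      2 * (D.kp T t).P.E ((D.kp T t).P.iota xF (bxh hV t).map (bxU hV t).map) ∧
    (D.kp T t).P.E (fun w => (y3 T dg V t w - m3 T dg V t w) ^ 2) ≤
      2 * (D.kp T t).P.E ((D.kp T t).P.iota xG (bxh hV t).map (bxU hV t).map) := by
  set P := (D.kp T t).P with hP
  have fDh : Fac (fun u : Sp X β γ φ => (dg t u.1, (bxU hV t).map u)) (bxh hV t).map := by
    intro v w hvw
    simp only [Prod.mk.injEq] at hvw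
    have h1 := Bx.map_eq.1 hvw.2
    refine Bx.map_eq.2 ⟨?_, h1.2.1, h1.2.2⟩
    refine mem_hlf.2 ⟨h1.1, (hcell _ _).2 ⟨D.mem_cA.1 (hV.cell t _ _ _ h1.1), hvw.1⟩⟩
  have fhD : Fac (bxh hV t).map (fun u : Sp X β γ φ => dg t u.1) := by
    intro v w hvw
    have h1 := Bx.map_eq.1 hvw
    exact ((hcell _ _).1 (mem_hlf.1 h1.1).2).2
  have i5 : ∀ w, P.iota (fun u : Sp X β γ φ => dg t u.1) xF (bxU hV t).map w =
      P.iota xF (bxh hV t).map (bxU hV t).map w :=
    fun w => iota_swap_congr P xF fDh ((Fac.fst (bxh hV t).map (bxU hV t).map).trans fhD) w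
  have i6 : ∀ w, P.iota (fun u : Sp X β γ φ => dg t u.1) xG (bxU hV t).map w =
      P.iota xG (bxh hV t).map (bxU hV t).map w :=
    fun w => iota_swap_congr P xG fDh ((Fac.fst (bxh hV t).map (bxU hV t).map).trans fhD) w
  refine ⟨?_, ?_⟩
  · have h := P.I_digit_ge (D := fun u : Sp X β γ φ => dg t u.1) (fun w _ => hd w.1) xF (bxU hV t).map
    rw [← P.E_iota, P.E_congr fun w _ => i5 w] at h
    refine le_trans (le_of_eq (P.E_congr fun w _ => ?_)) h
    rw [x3_eq T hV, m3_eq T hV]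
    rfl
  · have h := P.I_digit_ge (D := fun u : Sp X β γ φ => dg t u.1) (fun w _ => hd w.1) xG (bxU hV t).map
    rw [← P.E_iota, P.E_congr fun w _ => i6 w] at h
    refine le_trans (le_of_eq (P.E_congr fun w _ => ?_)) h
    rw [y3_eq T hV, m3_eq T hV]
    rfl

/-- conclusions x2 and y2 together -/
theorem concl_xy (T : D.Thick al) (hV : RefCl D V) {dg : ℕ → X → ℝ} {K : ℕ} {Lam : ℝ} (hB : Birth D K Lam)
    (hd : ∀ t x, dg t x = 1 ∨ dg t x = -1)
    (hcell : ∀ t < K, ∀ x x', D.qa (t + 1) x = D.qa (t + 1) x' ↔ D.qa t x = D.qa t x' ∧ dg t x = dg t x') :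
    ∑ t ∈ range K, (D.kp T t).P.E (fun w => (x3 T dg V t w - m3 T dg V t w) ^ 2) +
      ∑ t ∈ range K, (D.kp T t).P.E (fun w => (y3 T dg V t w - m3 T dg V t w) ^ 2) ≤ 4 * Lam := by
  have h1 := gains_le T hV hB
  have h2 : 0 ≤ ∑ t ∈ range K, gainC T hV t := Finset.sum_nonneg fun t _ => gainC_nonneg T hV t
  rw [← Finset.sum_add_distrib]
  have h3 : ∑ t ∈ range K, ((D.kp T t).P.E (fun w => (x3 T dg V t w - m3 T dg V t w) ^ 2) +
      (D.kp T t).P.E (fun w => (y3 T dg V t w - m3 T dg V t w) ^ 2)) ≤ ∑ t ∈ range K, 2 * gainD T hV t := by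
    refine Finset.sum_le_sum fun t ht => ?_
    have h4 := x2_step T hV (hd t) (hcell t (mem_range.1 ht))
    unfold gainD
    linarith [h4.1, h4.2]
  rw [← Finset.mul_sum] at h3
  linarith

theorem concl_x2 (T : D.Thick al) (hV : RefCl D V) {dg : ℕ → X → ℝ} {K : ℕ} {Lam : ℝ} (hB : Birth D K Lam)
    (hd : ∀ t x, dg t x = 1 ∨ dg t x = -1)
    (hcell : ∀ t < K, ∀ x x', D.qa (t + 1) x = D.qa (t + 1) x' ↔ D.qa t x = D.qa t x' ∧ dg t x = dg t x') :
    ∑ t ∈ range K, (D.kp T t).P.E (fun w => (x3 T dg V t w - m3 T dg V t w) ^ 2) ≤ 4 * Lam := by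
  have h1 := concl_xy T hV hB hd hcell
  have h2 : 0 ≤ ∑ t ∈ range K, (D.kp T t).P.E (fun w => (y3 T dg V t w - m3 T dg V t w) ^ 2) :=
    Finset.sum_nonneg fun t _ => (D.kp T t).P.E_nonneg fun w _ => sq_nonneg _
  linarith

theorem concl_y2 (T : D.Thick al) (hV : RefCl D V) {dg : ℕ → X → ℝ} {K : ℕ} {Lam : ℝ} (hB : Birth D K Lam)
    (hd : ∀ t x, dg t x = 1 ∨ dg t x = -1)
    (hcell : ∀ t < K, ∀ x x', D.qa (t + 1) x = D.qa (t + 1) x' ↔ D.qa t x = D.qa t x' ∧ dg t x = dg t x') :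
    ∑ t ∈ range K, (D.kp T t).P.E (fun w => (y3 T dg V t w - m3 T dg V t w) ^ 2) ≤ 4 * Lam := by
  have h1 := concl_xy T hV hB hd hcell
  have h2 : 0 ≤ ∑ t ∈ range K, (D.kp T t).P.E (fun w => (x3 T dg V t w - m3 T dg V t w) ^ 2) :=
    Finset.sum_nonneg fun t _ => (D.kp T t).P.E_nonneg fun w _ => sq_nonneg _
  linarith

end concl

end

end Pool.Agent.M3.S3
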