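import Pool.Agent.M3.S3.SumG
import Pool.Agent.M3.S3.Flux

/-!
# M3.S3.LossDef: definitions for the big cells (row 3.9; helper64), route A

`R : Rl D` the rule, `T : D.Thick al`.
* `Pst T del R s` = mean of `psi` of the half step state (step `s → s+1`, labels of the time `s`), given the three points;
  `Psg T del R σ` = the same for the state of the time `σ` (class `U σ`);
* `bdp T del R y s` = the hidden point is exceptional in the half step state (mean over the cells of the time `s+1`);
* `bgc R L0 s` = big final cell, `ntn R mu s` = the half step class is not tiny;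
* `bigf R l`, `bigg R l` = big `f`-cell, `g`-cell; `ffF`, `ffG` = big falls which are not at an end of type E.
-/

set_option autoImplicit false
set_option linter.unusedSectionVars false

namespace Pool.Agent.M3.S3

open Finset Pool.Agent.PWZ Pool.Agent.M3

noncomputable section

variable {X β γ ι φ : Type*} [Fintype X] [Fintype β] [Fintype γ] [Fintype φ] [Nonempty X] [Nonempty β] [Nonempty γ]
  {D : Dat X β γ ι φ} {al : ℝ}

/-- mean of `psi` of the half step state given the three points -/
def Pst (T : D.Thick al) (del : ℝ) (R : Rl D) (s : ℕ) (x : X) (b : β) (c : γ) : ℝ :=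
  Psi del (D.kp T s) (hcl R s x b c) x b c

/-- mean of `psi` of the state of the time `s` given the three points -/
def Psg (T : D.Thick al) (del : ℝ) (R : Rl D) (s : ℕ) (x : X) (b : β) (c : γ) : ℝ :=
  Psi del (D.kp T s) (R.U s x b c) x b c

/-- exceptional hidden point of the half step state -/
def bdp (T : D.Thick al) (del : ℝ) (R : Rl D) (y : ℝ) (s : ℕ) (x : X) (b : β) (c : γ) : Prop :=
  y < avg (D.cB (s + 1) b) fun b' => avg (D.cC (s + 1) c) fun c' => Pst T del R s x b' c'

/-- big final cell -/
def bgc (R : Rl D) (L0 : ℝ) (s : ℕ) (x : X) (b : β) (c : γ) : Prop :=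
  Real.exp L0 * ((R.U (s + 1) x b c).card : ℝ) ≤ (hcl R s x b c).card

/-- the half step class is not tiny -/
def ntn (R : Rl D) (mu : ℝ) (s : ℕ) (x : X) (b : β) (c : γ) : Prop :=
  mu * ((R.U s x b c).card : ℝ) ≤ (hcl R s x b c).card

/-- the block of the point in the removal of the `f`-rule, step `s → s+1` -/
def blkf (R : Rl D) (e : Epo X) (s : ℕ) (x : X) (b : β) (c : γ) : Finset X :=
  fblk (KF' R.toRm e s x b c) (R.pf e (s + 1) x b c (KF' R.toRm e s x b c)) x

/-- the block of the point in the removal of the `g`-rule, step `s → s+1` -/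
def blkg (R : Rl D) (e : Epo X) (s : ℕ) (x : X) (b : β) (c : γ) : Finset X :=
  fblk (KG' R.toRm e s x b c) (R.pg e (s + 1) x b c (KG' R.toRm e s x b c)) x

/-- big `f`-cell at the time `s` -/
def bigf (R : Rl D) (l : ℝ) (e : Epo X) : ℕ → X → β → γ → Prop
  | 0, _, _, _ => False
  | s + 1, x, b, c => e.t0 ≤ s ∧ Real.exp l * ((blkf R e s x b c).card : ℝ) ≤ (R.KF e (s + 1) x b c).card

/-- big `g`-cell at the time `s` -/
def bigg (R : Rl D) (l : ℝ) (e : Epo X) : ℕ → X → β → γ → Prop
  | 0, _, _, _ => False
  | s + 1, x, b, c => e.t0 ≤ s ∧ Real.exp l * ((blkg R e s x b c).card : ℝ) ≤ (R.KG e (s + 1) x b c).card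

/-- big `f`-fall at `s+1`, not at an end of type E -/
def ffF (R : Rl D) (q l : ℝ) (s : ℕ) (x : X) (b : β) (c : γ) : Prop := R.prc.ff q false (bigf R l) s x b c

/-- big `g`-fall at `s+1`, not at an end of type E of the `g`-system -/
def ffG (R : Rl D) (q l : ℝ) (s : ℕ) (x : X) (b : β) (c : γ) : Prop :=
  R.prc.swap.ff q true (fun e s x c b => bigg R l e s x b c) s x c b

theorem bigf_c (R : Rl D) (l : ℝ) (e : Epo X) (s : ℕ) (x : X) (b : β) (c c' : γ) (h : D.qc e.t0 c = D.qc e.t0 c') :
    bigf R l e s x b c ↔ bigf R l e s x b c' := by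
  cases s with
  | zero => exact Iff.rfl
  | succ s =>
    unfold bigf
    refine and_congr_right fun h0 => ?_
    have e1 : KF' R.toRm e s x b c = KF' R.toRm e s x b c' := by
      unfold KF'
      rw [R.KF_inv h0 rfl rfl h]
    have e2 : blkf R e s x b c = blkf R e s x b c' := by
      unfold blkf
      rw [e1, R.pf_c e (s + 1) x x b b c c' _ (h0.trans (Nat.le_succ s)) rfl rfl h]
    rw [e2, R.KF_inv (h0.trans (Nat.le_succ s)) rfl rfl h]

theorem bigg_b (R : Rl D) (l : ℝ) (e : Epo X) (s : ℕ) (x : X) (b b' : β) (c : γ) (h : D.qb e.t0 b = D.qb e.t0 b') :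
    bigg R l e s x b c ↔ bigg R l e s x b' c := by
  cases s with
  | zero => exact Iff.rfl
  | succ s =>
    unfold bigg
    refine and_congr_right fun h0 => ?_
    have e1 : KG' R.toRm e s x b c = KG' R.toRm e s x b' c := by
      unfold KG'
      rw [R.KG_inv h0 rfl h rfl]
    have e2 : blkg R e s x b c = blkg R e s x b' c := by
      unfold blkg
      rw [e1, R.pg_b e (s + 1) x x b b' c c _ (h0.trans (Nat.le_succ s)) rfl h rfl]
    rw [e2, R.KG_inv (h0.trans (Nat.le_succ s)) rfl h rfl]

end

end Pool.Agent.M3.S3
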