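import Pool.Agent.M3.S3.Law
import Pool.Agent.M3.S3Hel

/-!
# M3.S3.StaB: saturation of a box state (`SatS`, `Thk`) gives a good state `FP.Sta` of the law `k.P`

`Rep Q a L V B kk` : under the law `Q` the point `a` is uniform in `V`, the owner of the letter `L` is uniform in `B` and
independent of `a`, and the label has the kernel `kk`.
* `Rep.cmp`, `Rep.rul` : comparable letters, the rule;
* `sta_of_sat` : `SatS` and `Thk` for the box of `w` imply `Sta` for `k.P.cnd (N.map · = N.map w)`;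
* `hel_le_sat`, `hel_le_sat'`, `iota_le_sat` : closeness and the bound of the density;
* `strong_sat` : the both-strong term (3.4) for boxes.
-/

set_option autoImplicit false
set_option linter.unusedSectionVars false

namespace Pool.Agent.M3.S3

open Finset Pool.Agent.PWZ Pool.Agent.M3

section rep

variable {Om : Type*} [Fintype Om] {X β φ : Type*} [Fintype φ]

theorem avg_ind_single {X : Type*} {V : Finset X} {x0 : X} (hx : x0 ∈ V) (h : X → ℝ) :
    avg V (fun x => ind (x = x0) * h x) = h x0 / V.card := by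
  classical
  unfold avg
  rw [Finset.sum_eq_single x0]
  · rw [ind_of rfl, one_mul]
  · intro x _ hne
    rw [ind_not hne, zero_mul]
  · intro hn; exact absurd hx hn

/-- representation of the law of `(a, L)` -/
structure Rep (Q : FP Om) (a : Om → X) (L : Om → φ × β) (V : Finset X) (B : Finset β) (kk : X → β → φ → ℝ) : Prop where
  E : ∀ h : X → φ × β → ℝ, Q.E (fun v => h (a v) (L v)) =
    avg V fun x => avg B fun b => ∑ F, kk x b F * h x (F, b)
  nn : ∀ x b F, 0 ≤ kk x b F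
  one : ∀ x b, ∑ F, kk x b F = 1
  supp : ∀ v, Q.p v ≠ 0 → a v ∈ V ∧ (L v).2 ∈ B

namespace Rep

variable {Q : FP Om} {a : Om → X} {L : Om → φ × β} {V : Finset X} {B : Finset β} {kk : X → β → φ → ℝ}

theorem posV (R : Rep Q a L V B kk) : 0 < (V.card : ℝ) := by
  obtain ⟨w, hw⟩ := Q.exists_p_ne
  exact_mod_cast Finset.card_pos.2 ⟨_, (R.supp w hw).1⟩

theorem posB (R : Rep Q a L V B kk) : 0 < (B.card : ℝ) := by
  obtain ⟨w, hw⟩ := Q.exists_p_ne
  exact_mod_cast Finset.card_pos.2 ⟨_, (R.supp w hw).2⟩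

/-- mean over the labels of one letter -/
theorem sum_letter (kk : X → β → φ → ℝ) {b0 : β} (hb : b0 ∈ B) (F0 : φ) (x : X) (c : ℝ) :
    avg B (fun b => ∑ F, kk x b F * (ind ((F, b) = (F0, b0)) * c)) = kk x b0 F0 * c / B.card := by
  classical
  have h1 : ∀ b, ∑ F, kk x b F * (ind ((F, b) = (F0, b0)) * c) = ind (b = b0) * (kk x b F0 * c) := by
    intro b
    rw [Finset.sum_eq_single F0]
    · have : ind ((F0, b) = (F0, b0)) = ind (b = b0) := congrArg ind (propext (by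
        rw [Prod.mk.injEq]; exact ⟨fun h => h.2, fun h => ⟨rfl, h⟩⟩))
      rw [this]; ring
    · intro F _ hne
      rw [ind_not (fun h => hne (congrArg Prod.fst h)), zero_mul, mul_zero]
    · intro h; exact absurd (Finset.mem_univ F0) h
  simp only [h1]
  exact avg_ind_single hb _

/-- functions of `a` -/
theorem E_a (R : Rep Q a L V B kk) (h : X → ℝ) : Q.E (fun v => h (a v)) = avg V h := by
  have h1 := R.E (fun x _ => h x)
  rw [h1]
  unfold avg
  have hB := R.posB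
  congr 1
  refine Finset.sum_congr rfl (fun x _ => ?_)
  simp only [← Finset.sum_mul, R.one, one_mul, Finset.sum_const, nsmul_eq_mul]
  field_simp

theorem m_a (R : Rep Q a L V B kk) {v : Om} (hv : a v ∈ V) : Q.m a v = 1 / V.card := by
  have h1 := R.E_a (fun x => ind (x = a v) * 1)
  rw [avg_ind_single hv] at h1
  simp only [mul_one] at h1
  exact h1

theorem ce_letter (R : Rep Q a L V B kk) {v v' : Om} (hv : a v ∈ V) (hv' : (L v').2 ∈ B) :
    Q.ce a (fun u => ind (L u = L v')) v = kk (a v) (L v').2 (L v').1 / B.card := by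
  have hV := R.posV
  have h1 := R.E (fun x l => ind (x = a v) * ind (l = ((L v').1, (L v').2)))
  have h2 : ∀ x, avg B (fun b => ∑ F, kk x b F * (ind (x = a v) * ind ((F, b) = ((L v').1, (L v').2)))) =
      ind (x = a v) * (kk x (L v').2 (L v').1 / B.card) := by
    intro x
    have h3 := sum_letter kk hv' (L v').1 x (ind (x = a v))
    have h4 : ∀ b, ∑ F, kk x b F * (ind (x = a v) * ind ((F, b) = ((L v').1, (L v').2))) =
        ∑ F, kk x b F * (ind ((F, b) = ((L v').1, (L v').2)) * ind (x = a v)) := fun b =>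
      Finset.sum_congr rfl (fun F _ => by ring)
    simp only [h4]
    rw [h3]; ring
  simp only [h2] at h1
  rw [avg_ind_single hv] at h1
  show Q.E (fun u => ind (a u = a v) * ind (L u = L v')) / Q.m a v = _
  rw [R.m_a hv, h1]
  field_simp

/-- comparable letters -/
theorem cmp (R : Rep Q a L V B kk) {al : ℝ} (hal : 0 < al)
    (hth : ∀ x ∈ V, ∀ x' ∈ V, ∀ b F, kk x b F ≠ 0 → al ≤ kk x' b F) : Q.Cmp a L (1 / al) := by
  intro w' w w'' hw' hw hw''
  obtain ⟨h1, -⟩ := R.supp w hw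
  obtain ⟨h2, -⟩ := R.supp w'' hw''
  have h3 := (R.supp w' hw').2
  rw [R.ce_letter h1 h3, R.ce_letter h2 h3, ← mul_div_assoc]
  refine div_le_div_of_nonneg_right ?_ R.posB.le
  have hle1 : kk (a w) (L w').2 (L w').1 ≤ 1 := by
    rw [← R.one (a w) (L w').2]
    exact Finset.single_le_sum (f := fun F => kk (a w) (L w').2 F) (fun F _ => R.nn _ _ F) (Finset.mem_univ _)
  by_cases h0 : kk (a w) (L w').2 (L w').1 = 0
  · rw [h0]
    have := R.nn (a w'') (L w').2 (L w').1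
    positivity
  · have h4 := hth _ h1 _ h2 _ _ h0
    rw [one_div, ← div_eq_inv_mul, le_div_iff₀ hal]
    nlinarith [R.nn (a w) (L w').2 (L w').1]

/-- masses of letters on an event of `a` -/
theorem E_S_letter (R : Rep Q a L V B kk) (S0 : Finset X) (hS0 : S0 ⊆ V) {v' : Om} (hv' : (L v').2 ∈ B) :
    Q.E (fun u => ind (a u ∈ S0) * ind (L u = L v')) =
      (S0.card / V.card) * (law S0 (fun x => kk x (L v').2) (L v').1 / B.card) := by
  classical
  have hV := R.posV
  have hB := R.posB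
  have h1 := R.E (fun x l => ind (x ∈ S0) * ind (l = ((L v').1, (L v').2)))
  have h2 : ∀ x, avg B (fun b => ∑ F, kk x b F * (ind (x ∈ S0) * ind ((F, b) = ((L v').1, (L v').2)))) =
      ind (x ∈ S0) * (kk x (L v').2 (L v').1 / B.card) := by
    intro x
    have h3 := sum_letter kk hv' (L v').1 x (ind (x ∈ S0))
    have h4 : ∀ b, ∑ F, kk x b F * (ind (x ∈ S0) * ind ((F, b) = ((L v').1, (L v').2))) =
        ∑ F, kk x b F * (ind ((F, b) = ((L v').1, (L v').2)) * ind (x ∈ S0)) := fun b =>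
      Finset.sum_congr rfl (fun F _ => by ring)
    simp only [h4]
    rw [h3]; ring
  simp only [h2] at h1
  have e0 : Q.E (fun u => ind (a u ∈ S0) * ind (L u = L v')) = _ := h1
  rw [e0]
  unfold law avg
  have h5 : ∑ x ∈ V, ind (x ∈ S0) * (kk x (L v').2 (L v').1 / B.card) =
      ∑ x ∈ S0, kk x (L v').2 (L v').1 / B.card := by
    rw [← Finset.sum_subset hS0]
    · exact Finset.sum_congr rfl (fun x hx => by rw [ind_of hx, one_mul])
    · intro x _ hx
      rw [ind_not hx, zero_mul]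
  rw [h5, ← Finset.sum_div]
  rcases S0.eq_empty_or_nonempty with he | hne
  · rw [he]; simp
  · have hc : (S0.card : ℝ) ≠ 0 := by exact_mod_cast (Finset.card_pos.2 hne).ne'
    field_simp

/-- the rule from saturation -/
theorem rul (R : Rep Q a L V B kk) {sig : ℝ}
    (hs : ∀ S ⊆ V, S.Nonempty → avg B (fun b => klf (law S fun x => kk x b) (law V fun x => kk x b)) ≤
      sig * (Real.log ((V.card : ℝ) / S.card) + 1)) : Q.Rul a L sig := by
  classical
  intro S hS hSa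
  have hV := R.posV
  have hB := R.posB
  set S0 : Finset X := V.filter (fun x => ∃ u, a u = x ∧ S u) with hS0d
  have hS0 : S0 ⊆ V := Finset.filter_subset _ _
  have hSS : ∀ u, a u ∈ V → ind (S u) = ind (a u ∈ S0) := by
    intro u hu
    refine congrArg ind (propext ?_)
    rw [hS0d, Finset.mem_filter]
    constructor
    · intro h; exact ⟨hu, u, rfl, h⟩
    · rintro ⟨-, u', h1, h2⟩
      exact (hSa u' u h1).1 h2
  have hPr : Q.Pr S = S0.card / V.card := by
    have h1 : Q.Pr S = Q.E (fun u => ind (a u ∈ S0)) := by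
      unfold FP.Pr
      exact Q.E_congr (fun u hu => hSS u (R.supp u hu).1)
    rw [h1, R.E_a (fun x => ind (x ∈ S0))]
    unfold avg
    congr 1
    have : ∑ x ∈ V, ind (x ∈ S0) = ∑ x ∈ S0, (1 : ℝ) := by
      rw [← Finset.sum_subset hS0]
      · exact Finset.sum_congr rfl (fun x hx => ind_of hx)
      · intro x _ hx
        exact ind_not hx
    rw [this, Finset.sum_const, nsmul_eq_mul, mul_one]
  have hne : S0.Nonempty := by
    rw [hPr] at hS
    rcases S0.eq_empty_or_nonempty with he | hne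
    · rw [he] at hS; simp at hS
    · exact hne
  have hc : (0 : ℝ) < S0.card := by exact_mod_cast Finset.card_pos.2 hne
  have hmS : ∀ v, (L v).2 ∈ B → (Q.cnd S hS).m L v = law S0 (fun x => kk x (L v).2) (L v).1 / B.card := by
    intro v hv
    have h1 : (Q.cnd S hS).m L v = Q.E (fun u => ind (S u) * ind (L u = L v)) / Q.Pr S := cnd_E Q S hS _
    have h2 : Q.E (fun u => ind (S u) * ind (L u = L v)) = Q.E (fun u => ind (a u ∈ S0) * ind (L u = L v)) :=
      Q.E_congr (fun u hu => by rw [hSS u (R.supp u hu).1])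
    rw [h1, h2, R.E_S_letter S0 hS0 hv, hPr]
    field_simp
  have hmV : ∀ v, (L v).2 ∈ B → Q.m L v = law V (fun x => kk x (L v).2) (L v).1 / B.card := by
    intro v hv
    have h2 : Q.m L v = Q.E (fun u => ind (a u ∈ V) * ind (L u = L v)) := by
      unfold FP.m
      exact Q.E_congr (fun u hu => by rw [ind_of (R.supp u hu).1, one_mul])
    rw [h2, R.E_S_letter V (Finset.Subset.refl _) hv]
    field_simp
  have hkl : Pool.Agent.M3.kl (Q.cnd S hS) Q L =
      avg B (fun b => klf (law S0 fun x => kk x b) (law V fun x => kk x b)) := by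
    unfold Pool.Agent.M3.kl
    have h1 : (Q.cnd S hS).E (fun w => Real.log (dn (Q.cnd S hS) Q L w)) =
        (Q.cnd S hS).E (fun w => Real.log (law S0 (fun x => kk x (L w).2) (L w).1 /
          law V (fun x => kk x (L w).2) (L w).1)) := by
      refine FP.E_congr _ (fun v hv => ?_)
      have hb := (R.supp v (cnd_ac Q S hS v hv)).2
      unfold dn
      rw [hmS v hb, hmV v hb]
      congr 1
      field_simp
    have h2 : (Q.cnd S hS).E (fun w => Real.log (law S0 (fun x => kk x (L w).2) (L w).1 /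
          law V (fun x => kk x (L w).2) (L w).1)) =
        Q.E (fun u => ind (a u ∈ S0) * Real.log (law S0 (fun x => kk x (L u).2) (L u).1 /
          law V (fun x => kk x (L u).2) (L u).1)) / Q.Pr S := by
      rw [cnd_E]
      congr 1
      exact Q.E_congr (fun u hu => by rw [hSS u (R.supp u hu).1])
    rw [h1, h2, R.E (fun x l => ind (x ∈ S0) * Real.log (law S0 (fun x => kk x l.2) l.1 /
          law V (fun x => kk x l.2) l.1)), hPr]
    set lr : β → φ → ℝ := fun b F => Real.log (law S0 (fun x => kk x b) F / law V (fun x => kk x b) F) with hlr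
    have h3 : avg V (fun x => avg B fun b => ∑ F, kk x b F * (ind (x ∈ S0) * lr b F)) =
        (S0.card / V.card) * avg B (fun b => ∑ F, law S0 (fun x => kk x b) F * lr b F) := by
      have h4 : ∀ x, avg B (fun b => ∑ F, kk x b F * (ind (x ∈ S0) * lr b F)) =
          ind (x ∈ S0) * avg B (fun b => ∑ F, kk x b F * lr b F) := by
        intro x
        unfold avg
        rw [← mul_div_assoc, Finset.mul_sum]
        congr 1
        refine Finset.sum_congr rfl (fun b _ => ?_)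
        rw [Finset.mul_sum]
        exact Finset.sum_congr rfl (fun F _ => by ring)
      simp only [h4]
      unfold avg
      have h5 : ∑ x ∈ V, ind (x ∈ S0) * ((∑ b ∈ B, ∑ F, kk x b F * lr b F) / B.card) =
          ∑ x ∈ S0, (∑ b ∈ B, ∑ F, kk x b F * lr b F) / B.card := by
        rw [← Finset.sum_subset hS0]
        · exact Finset.sum_congr rfl (fun x hx => by rw [ind_of hx, one_mul])
        · intro x _ hx
          rw [ind_not hx, zero_mul]
      have h6 : ∑ b ∈ B, ∑ F, law S0 (fun x => kk x b) F * lr b F =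
          (∑ x ∈ S0, ∑ b ∈ B, ∑ F, kk x b F * lr b F) / S0.card := by
        symm
        rw [Finset.sum_comm, Finset.sum_div]
        refine Finset.sum_congr rfl (fun b _ => ?_)
        rw [Finset.sum_comm, Finset.sum_div]
        refine Finset.sum_congr rfl (fun F _ => ?_)
        unfold law avg
        rw [div_mul_eq_mul_div, Finset.sum_mul]
      rw [h5, h6, ← Finset.sum_div]
      field_simp
    have h7 : avg B (fun b => klf (law S0 fun x => kk x b) (law V fun x => kk x b)) =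
        avg B (fun b => ∑ F, law S0 (fun x => kk x b) F * lr b F) := rfl
    rw [h7]
    have h8 : avg V (fun x => avg B fun b => ∑ F, kk x b F * (ind (x ∈ S0) *
        Real.log (law S0 (fun x => kk x (F, b).2) (F, b).1 / law V (fun x => kk x (F, b).2) (F, b).1))) =
        avg V (fun x => avg B fun b => ∑ F, kk x b F * (ind (x ∈ S0) * lr b F)) := rfl
    rw [h8, h3]
    field_simp
  rw [hkl, hPr]
  have h9 := hs S0 hS0 hne
  have h10 : (1 : ℝ) / (S0.card / V.card) = V.card / S0.card := one_div_div _ _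
  rw [h10]
  exact h9

end Rep

end rep

section state

variable {X β γ φ : Type*} [Fintype X] [Fintype β] [Fintype γ] [Fintype φ] [Nonempty X] [Nonempty β] [Nonempty γ]

/-- the mean over a state: the kernels with the representatives of the box -/
theorem cnd_box_E {k : KP X β γ φ} {N : Bx X β γ} (hN : N.Ok k) (w : Sp X β γ φ)
    (h : 0 < k.P.Pr (fun v => N.map v = N.map w)) (Fn : Sp X β γ φ → ℝ) :
    (k.P.cnd (fun v => N.map v = N.map w) h).E Fn =
      avg (N.V w.1 w.2.1 w.2.2.1) fun x => avg (N.B w.1 w.2.1 w.2.2.1) fun b => avg (N.C w.1 w.2.1 w.2.2.1) fun c =>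
        ∑ F, ∑ G, k.f x b w.2.2.1 F * k.g x w.2.1 c G * Fn (x, b, c, F, G) := by
  obtain ⟨x0, b0, c0, F0, G0⟩ := w
  have hV : ((N.V x0 b0 c0).card : ℝ) ≠ 0 := by
    exact_mod_cast (Finset.card_pos.2 ⟨_, N.sV x0 b0 c0⟩).ne'
  have hB : ((N.B x0 b0 c0).card : ℝ) ≠ 0 := by
    exact_mod_cast (Finset.card_pos.2 ⟨_, N.sB x0 b0 c0⟩).ne'
  have hC : ((N.C x0 b0 c0).card : ℝ) ≠ 0 := by
    exact_mod_cast (Finset.card_pos.2 ⟨_, N.sC x0 b0 c0⟩).ne'
  have hM : MM X β γ ≠ 0 := MM_pos.ne'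
  rw [cnd_E]
  have e1 : k.P.E (fun v => ind (N.map v = N.map (x0, b0, c0, F0, G0)) * Fn v) =
      k.P.E (fun v => ind (v.1 ∈ N.V x0 b0 c0 ∧ v.2.1 ∈ N.B x0 b0 c0 ∧ v.2.2.1 ∈ N.C x0 b0 c0) * Fn v) :=
    k.P.E_congr fun v _ => by
      rw [show (N.map v = N.map (x0, b0, c0, F0, G0)) = (v.1 ∈ N.V x0 b0 c0 ∧ v.2.1 ∈ N.B x0 b0 c0 ∧
        v.2.2.1 ∈ N.C x0 b0 c0) from propext N.map_eq]
  have e2 : k.P.Pr (fun v => N.map v = N.map (x0, b0, c0, F0, G0)) = (N.V x0 b0 c0).card *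
      ((N.B x0 b0 c0).card * (N.C x0 b0 c0).card) / MM X β γ := m_N (N := N) k (x0, b0, c0, F0, G0)
  rw [e1, e2, k.E_in]
  have e3 : ∀ x ∈ N.V x0 b0 c0, ∀ b ∈ N.B x0 b0 c0, ∀ c ∈ N.C x0 b0 c0,
      (∑ F, ∑ G, k.f x b c F * k.g x b c G * Fn (x, b, c, F, G)) =
      ∑ F, ∑ G, k.f x b c0 F * k.g x b0 c G * Fn (x, b, c, F, G) := by
    intro x _ b hb c hc
    have f1 : k.f x b c = k.f x b c0 := by
      have hi := N.inv x0 b0 c0 x0 b c0 (N.sV x0 b0 c0) hb (N.sC x0 b0 c0)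
      exact hN.f x0 b c0 c x (by rw [hi.2.2]; exact hc)
    have f2 : k.g x b c = k.g x b0 c := by
      have hi := N.inv x0 b0 c0 x0 b0 c (N.sV x0 b0 c0) (N.sB x0 b0 c0) hc
      exact hN.g x0 b0 b c x (by rw [hi.2.1]; exact hb)
    rw [f1, f2]
  rw [Finset.sum_congr rfl fun x hx => Finset.sum_congr rfl fun b hb => Finset.sum_congr rfl fun c hc =>
    e3 x hx b hb c hc]
  unfold avg MM
  simp only [← Finset.sum_div]
  unfold MM at hM
  field_simp

theorem cnd_box_supp {k : KP X β γ φ} {N : Bx X β γ} {w : Sp X β γ φ}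
    {h : 0 < k.P.Pr (fun v => N.map v = N.map w)} {v : Sp X β γ φ}
    (hv : (k.P.cnd (fun v => N.map v = N.map w) h).p v ≠ 0) :
    v.1 ∈ N.V w.1 w.2.1 w.2.2.1 ∧ v.2.1 ∈ N.B w.1 w.2.1 w.2.2.1 ∧ v.2.2.1 ∈ N.C w.1 w.2.1 w.2.2.1 :=
  N.map_eq.1 (cnd_supp k.P hv)

theorem avg_smul_of {α : Type*} (s : Finset α) (c : ℝ) (f : α → ℝ) : avg s (fun x => c * f x) = c * avg s f := by
  unfold avg
  rw [← Finset.mul_sum, mul_div_assoc]

theorem avg_const_of {α : Type*} {s : Finset α} (hs : (s.card : ℝ) ≠ 0) (c : ℝ) : avg s (fun _ => c) = c := by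
  unfold avg
  rw [Finset.sum_const, nsmul_eq_mul]
  field_simp

theorem rep_F {k : KP X β γ φ} {N : Bx X β γ} (hN : N.Ok k) (w : Sp X β γ φ)
    (h : 0 < k.P.Pr (fun v => N.map v = N.map w)) :
    Rep (k.P.cnd (fun v => N.map v = N.map w) h) (fun v => v.1) xF (N.V w.1 w.2.1 w.2.2.1)
      (N.B w.1 w.2.1 w.2.2.1) (fun x b => k.f x b w.2.2.1) where
  E := by
    intro hh
    rw [cnd_box_E hN w h]
    have hC : ((N.C w.1 w.2.1 w.2.2.1).card : ℝ) ≠ 0 := by
      exact_mod_cast (Finset.card_pos.2 ⟨_, N.sC w.1 w.2.1 w.2.2.1⟩).ne'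
    have e1 : ∀ x b c, (∑ F, ∑ G, k.f x b w.2.2.1 F * k.g x w.2.1 c G * hh x (F, b)) =
        ∑ F, k.f x b w.2.2.1 F * hh x (F, b) := by
      intro x b c
      refine Finset.sum_congr rfl fun F _ => ?_
      rw [← Finset.sum_mul, ← Finset.mul_sum, k.g_one, mul_one]
    show (avg (N.V w.1 w.2.1 w.2.2.1) fun x => avg (N.B w.1 w.2.1 w.2.2.1) fun b =>
      avg (N.C w.1 w.2.1 w.2.2.1) fun c => ∑ F, ∑ G, k.f x b w.2.2.1 F * k.g x w.2.1 c G * hh x (F, b)) = _
    simp only [e1]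
    simp only [avg_const_of hC]
  nn := fun x b F => k.f_nn x b _ F
  one := fun x b => k.f_one x b _
  supp := fun v hv => ⟨(cnd_box_supp hv).1, (cnd_box_supp hv).2.1⟩

theorem rep_G {k : KP X β γ φ} {N : Bx X β γ} (hN : N.Ok k) (w : Sp X β γ φ)
    (h : 0 < k.P.Pr (fun v => N.map v = N.map w)) :
    Rep (k.P.cnd (fun v => N.map v = N.map w) h) (fun v => v.1) xG (N.V w.1 w.2.1 w.2.2.1)
      (N.C w.1 w.2.1 w.2.2.1) (fun x c => k.g x w.2.1 c) where
  E := by
    intro hh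
    rw [cnd_box_E hN w h]
    have hB : ((N.B w.1 w.2.1 w.2.2.1).card : ℝ) ≠ 0 := by
      exact_mod_cast (Finset.card_pos.2 ⟨_, N.sB w.1 w.2.1 w.2.2.1⟩).ne'
    have e1 : ∀ x b c, (∑ F, ∑ G, k.f x b w.2.2.1 F * k.g x w.2.1 c G * hh x (G, c)) =
        ∑ G, k.g x w.2.1 c G * hh x (G, c) := by
      intro x b c
      rw [Finset.sum_comm]
      refine Finset.sum_congr rfl fun G _ => ?_
      rw [← Finset.sum_mul, ← Finset.sum_mul, k.f_one, one_mul]
    show (avg (N.V w.1 w.2.1 w.2.2.1) fun x => avg (N.B w.1 w.2.1 w.2.2.1) fun b =>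
      avg (N.C w.1 w.2.1 w.2.2.1) fun c => ∑ F, ∑ G, k.f x b w.2.2.1 F * k.g x w.2.1 c G * hh x (G, c)) = _
    simp only [e1]
    simp only [avg_const_of hB]
  nn := fun x c F => k.g_nn x _ c F
  one := fun x c => k.g_one x _ c
  supp := fun v hv => ⟨(cnd_box_supp hv).1, (cnd_box_supp hv).2.2⟩

/-- conditional independence of the two letters given the hidden point -/
theorem ci_box {k : KP X β γ φ} {N : Bx X β γ} (hN : N.Ok k) (w : Sp X β γ φ)
    (h : 0 < k.P.Pr (fun v => N.map v = N.map w)) :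
    (k.P.cnd (fun v => N.map v = N.map w) h).CI (fun v => v.1) xF xG := by
  set Q := k.P.cnd (fun v => N.map v = N.map w) h with hQ
  have hB : ((N.B w.1 w.2.1 w.2.2.1).card : ℝ) ≠ 0 := by
    exact_mod_cast (Finset.card_pos.2 ⟨_, N.sB w.1 w.2.1 w.2.2.1⟩).ne'
  have hC : ((N.C w.1 w.2.1 w.2.2.1).card : ℝ) ≠ 0 := by
    exact_mod_cast (Finset.card_pos.2 ⟨_, N.sC w.1 w.2.1 w.2.2.1⟩).ne'
  have RF := rep_F hN w h
  intro f g hf hg v hv
  obtain ⟨hv1, hv2, hv3⟩ := cnd_box_supp hv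
  -- representatives of the functions
  obtain ⟨f', hff⟩ : ∃ f' : φ → β → ℝ, ∀ x b c F G, f (x, b, c, F, G) = f' F b :=
    ⟨fun F b => f (w.1, b, w.2.2.1, F, w.2.2.2.2), fun x b c F G => hf _ _ rfl⟩
  obtain ⟨g', hgg⟩ : ∃ g' : φ → γ → ℝ, ∀ x b c F G, g (x, b, c, F, G) = g' G c :=
    ⟨fun G c => g (w.1, w.2.1, c, w.2.2.2.1, G), fun x b c F G => hg _ _ rfl⟩
  set A1 : X → ℝ := fun x => avg (N.B w.1 w.2.1 w.2.2.1) fun b => ∑ F, k.f x b w.2.2.1 F * f' F b with hA1
  set A2 : X → ℝ := fun x => avg (N.C w.1 w.2.1 w.2.2.1) fun c => ∑ G, k.g x w.2.1 c G * g' G c with hA2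
  have hm := RF.m_a hv1
  have hVp := RF.posV
  have key : ∀ (Fn : Sp X β γ φ → ℝ) (R : X → ℝ),
      (∀ x, (avg (N.B w.1 w.2.1 w.2.2.1) fun b => avg (N.C w.1 w.2.1 w.2.2.1) fun c =>
        ∑ F, ∑ G, k.f x b w.2.2.1 F * k.g x w.2.1 c G * Fn (x, b, c, F, G)) = R x) →
      Q.ce (fun v => v.1) Fn v = R v.1 := by
    intro Fn R hR
    have h1 := cnd_box_E hN w h (fun u => ind (u.1 = v.1) * Fn u)
    have h2 : ∀ x, (avg (N.B w.1 w.2.1 w.2.2.1) fun b => avg (N.C w.1 w.2.1 w.2.2.1) fun c =>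
        ∑ F, ∑ G, k.f x b w.2.2.1 F * k.g x w.2.1 c G * (ind (x = v.1) * Fn (x, b, c, F, G))) =
        ind (x = v.1) * R x := by
      intro x
      have e : ∀ b c, (∑ F, ∑ G, k.f x b w.2.2.1 F * k.g x w.2.1 c G * (ind (x = v.1) * Fn (x, b, c, F, G))) =
          ind (x = v.1) * ∑ F, ∑ G, k.f x b w.2.2.1 F * k.g x w.2.1 c G * Fn (x, b, c, F, G) := by
        intro b c
        rw [Finset.mul_sum]
        refine Finset.sum_congr rfl fun F _ => ?_
        rw [Finset.mul_sum]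
        exact Finset.sum_congr rfl fun G _ => by ring
      simp only [e, avg_smul_of]
      rw [hR x]
    have h3 : Q.E (fun u => ind (u.1 = v.1) * Fn u) = R v.1 / (N.V w.1 w.2.1 w.2.2.1).card := by
      rw [← avg_ind_single hv1 R]
      refine h1.trans ?_
      show (avg (N.V w.1 w.2.1 w.2.2.1) fun x => avg (N.B w.1 w.2.1 w.2.2.1) fun b =>
        avg (N.C w.1 w.2.1 w.2.2.1) fun c => ∑ F, ∑ G, k.f x b w.2.2.1 F * k.g x w.2.1 c G *
          (ind (x = v.1) * Fn (x, b, c, F, G))) = _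
      simp only [h2]
    show Q.E (fun u => ind (u.1 = v.1) * Fn u) / Q.m (fun v => v.1) v = _
    rw [h3, hm]
    field_simp
  have k1 : Q.ce (fun v => v.1) (fun u => f u * g u) v = A1 v.1 * A2 v.1 := by
    refine key _ (fun x => A1 x * A2 x) (fun x => ?_)
    show (avg (N.B w.1 w.2.1 w.2.2.1) fun b => avg (N.C w.1 w.2.1 w.2.2.1) fun c =>
        ∑ F, ∑ G, k.f x b w.2.2.1 F * k.g x w.2.1 c G * (f (x, b, c, F, G) * g (x, b, c, F, G))) = A1 x * A2 x
    simp only [hff, hgg]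
    have e1 : ∀ b c, (∑ F, ∑ G, k.f x b w.2.2.1 F * k.g x w.2.1 c G * (f' F b * g' G c)) =
        (∑ F, k.f x b w.2.2.1 F * f' F b) * ∑ G, k.g x w.2.1 c G * g' G c := by
      intro b c
      rw [Finset.sum_mul_sum]
      exact Finset.sum_congr rfl fun F _ => Finset.sum_congr rfl fun G _ => by ring
    simp only [e1]
    simp only [hA1, hA2]
    unfold avg
    simp only [← Finset.mul_sum, mul_div_assoc]
    rw [← Finset.sum_mul]
    ring
  have k2 : Q.ce (fun v => v.1) f v = A1 v.1 := by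
    refine key _ A1 (fun x => ?_)
    simp only [hff]
    have e1 : ∀ b c, (∑ F, ∑ G, k.f x b w.2.2.1 F * k.g x w.2.1 c G * f' F b) =
        ∑ F, k.f x b w.2.2.1 F * f' F b := by
      intro b c
      refine Finset.sum_congr rfl fun F _ => ?_
      rw [← Finset.sum_mul, ← Finset.mul_sum, k.g_one, mul_one]
    simp only [e1]
    simp only [avg_const_of hC]
    rfl
  have k3 : Q.ce (fun v => v.1) g v = A2 v.1 := by
    refine key _ A2 (fun x => ?_)
    simp only [hgg]
    have e1 : ∀ b c, (∑ F, ∑ G, k.f x b w.2.2.1 F * k.g x w.2.1 c G * g' G c) =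
        ∑ G, k.g x w.2.1 c G * g' G c := by
      intro b c
      rw [Finset.sum_comm]
      refine Finset.sum_congr rfl fun G _ => ?_
      rw [← Finset.sum_mul, ← Finset.sum_mul, k.f_one, one_mul]
    simp only [e1]
    exact avg_const_of hB _
  rw [k1, k2, k3]

theorem thk_le_one {k : KP X β γ φ} {V : Finset X} {al : ℝ} (ht : Thk k V al) (hV : V.Nonempty) : al ≤ 1 := by
  obtain ⟨x, hx⟩ := hV
  obtain ⟨b⟩ := (inferInstance : Nonempty β)
  obtain ⟨c⟩ := (inferInstance : Nonempty γ)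
  have h1 : ∃ F, k.f x b c F ≠ 0 := by
    by_contra hcon
    push Not at hcon
    have := k.f_one x b c
    simp [hcon] at this
  obtain ⟨F, hF⟩ := h1
  have h2 := ht.f x hx x hx b c F hF
  have h3 : k.f x b c F ≤ 1 := by
    rw [← k.f_one x b c]
    exact Finset.single_le_sum (f := fun F => k.f x b c F) (fun F _ => k.f_nn _ _ _ F) (Finset.mem_univ _)
  linarith

/-- **the state law of a saturated thick box is a good state** -/
theorem sta_of_sat {k : KP X β γ φ} {N : Bx X β γ} (hN : N.Ok k) (w : Sp X β γ φ)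
    (h : 0 < k.P.Pr (fun v => N.map v = N.map w)) {al sig : ℝ}
    (hs : SatS k (N.V w.1 w.2.1 w.2.2.1) (N.B w.1 w.2.1 w.2.2.1) (N.C w.1 w.2.1 w.2.2.1) w.2.1 w.2.2.1 sig)
    (ht : Thk k (N.V w.1 w.2.1 w.2.2.1) al) :
    (k.P.cnd (fun v => N.map v = N.map w) h).Sta (fun v => v.1) xF xG (1 / al) sig where
  ci := ci_box hN w h
  cX := (rep_F hN w h).cmp ht.pos (fun x hx x' hx' b F => ht.f x hx x' hx' b _ F)
  cY := (rep_G hN w h).cmp ht.pos (fun x hx x' hx' c F => ht.g x hx x' hx' _ c F)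
  rX := (rep_F hN w h).rul hs.f
  rY := (rep_G hN w h).rul hs.g

/-- closeness of a saturated state -/
theorem hel_le_sat {k : KP X β γ φ} {N : Bx X β γ} (hN : N.Ok k) {w : Sp X β γ φ} (hw : k.P.p w ≠ 0) {al sig : ℝ}
    (hsig : 0 ≤ sig)
    (hs : SatS k (N.V w.1 w.2.1 w.2.2.1) (N.B w.1 w.2.1 w.2.2.1) (N.C w.1 w.2.1 w.2.2.1) w.2.1 w.2.2.1 sig)
    (ht : Thk k (N.V w.1 w.2.1 w.2.2.1) al) :
    k.P.hel xF N.map xG w ≤ sig * (Real.log (1 / al) + 1) ∧
      k.P.hel xG N.map xF w ≤ sig * (Real.log (1 / al) + 1) := by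
  have h : 0 < k.P.Pr (fun v => N.map v = N.map w) := k.P.m_pos N.map hw
  have hst := sta_of_sat hN w h hs ht
  have hal : 1 ≤ 1 / al := by
    rw [le_div_iff₀ ht.pos, one_mul]
    exact thk_le_one ht ⟨_, N.sV w.1 w.2.1 w.2.2.1⟩
  exact ⟨hel_le_of_sta hw h hst hal hsig, hel_le_of_sta' hw h hst hal hsig⟩

/-- the density is bounded on a thick class -/
theorem iota_le_thk {k : KP X β γ φ} {N : Bx X β γ} (hN : N.Ok k) {w : Sp X β γ φ} (hw : k.P.p w ≠ 0) {al : ℝ}
    (ht : Thk k (N.V w.1 w.2.1 w.2.2.1) al) : k.P.iota xF xG N.map w ≤ Real.log (1 / al) := by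
  have h : 0 < k.P.Pr (fun v => N.map v = N.map w) := k.P.m_pos N.map hw
  exact iota_le_of_sta hw h (ci_box hN w h)
    ((rep_F hN w h).cmp ht.pos (fun x hx x' hx' b F => ht.f x hx x' hx' b _ F))

/-- **the both-strong term** (3.4) for boxes, in the shape of the term of KEY -/
theorem strong_sat {k : KP X β γ φ} {N Z : Bx X β γ} (hN : N.Ok k) (hZ : Z.Sub N) {al sig Bd eta L0 : ℝ}
    {th : X → β → γ → ℝ} {T Tn : X → β → γ → Prop} (hth0 : ∀ x b c, 0 ≤ th x b c)
    (hth : ∀ x b c x' b' c', x' ∈ N.V x b c → b' ∈ N.B x b c → c' ∈ N.C x b c → th x' b' c' = th x b c)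
    (hTn : ∀ x b c x' b' c', x' ∈ N.V x b c → b' ∈ N.B x b c → c' ∈ N.C x b c → (Tn x' b' c' ↔ Tn x b c))
    (hT : ∀ x b c x' b' c', x' ∈ Z.V x b c → b' ∈ N.B x b c → c' ∈ N.C x b c → (T x' b' c' ↔ T x b c))
    (hsub : ∀ x b c, Tn x b c → T x b c)
    (hs : ∀ x b c, th x b c ≠ 0 → ¬ Tn x b c → SatS k (N.V x b c) (N.B x b c) (N.C x b c) b c sig ∧
      Thk k (N.V x b c) al)
    (hal : 0 < al) (hal1 : al ≤ 1) (hB : Real.exp 2 ≤ Bd) (h0 : 0 < eta) (hBe : 2 * Real.exp 1 ≤ Bd * eta)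
    (hsig : 0 < sig)
    (hTm : ∀ x b c, ¬ T x b c → Real.exp (-L0) * (N.V x b c).card ≤ (Z.V x b c).card) :
    k.P.E (fun w => th w.1 w.2.1 w.2.2.1 * (ind (T w.1 w.2.1 w.2.2.1 ∨
      (Bd < k.P.rt xF N.map Z.map w (Z.map w) ∧ Bd < k.P.rt xG N.map Z.map w (Z.map w))) *
        k.P.iota xF xG N.map w)) ≤
      k.P.E (fun w => th w.1 w.2.1 w.2.2.1 * (ind (T w.1 w.2.1 w.2.2.1) * k.P.iota xF xG N.map w)) +
      Real.log (1 / al) * (eta * (2 / Real.log Bd) *
        k.P.E (fun w => th w.1 w.2.1 w.2.2.1 * k.P.iota xF Z.map N.map w) +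
        Real.exp (L0 + 1 - eta / (2 * sig)) *
          E3 (fun x b c => th x b c * ind (2 * ((Z.V x b c).card : ℝ) ≤ (N.V x b c).card))) := by
  have hpv : ∀ w : Sp X β γ φ, k.P.pv N.map Z.map w (Z.map w) =
      (Z.V w.1 w.2.1 w.2.2.1).card / (N.V w.1 w.2.1 w.2.2.1).card := by
    intro w
    rw [FP.pv_self, m_pair k hZ, m_N, m_N, hZ.B, hZ.C]
    have hM : MM X β γ ≠ 0 := MM_pos.ne'
    have hB : ((N.B w.1 w.2.1 w.2.2.1).card : ℝ) ≠ 0 := by
      exact_mod_cast (Finset.card_pos.2 ⟨_, N.sB w.1 w.2.1 w.2.2.1⟩).ne'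
    have hC : ((N.C w.1 w.2.1 w.2.2.1).card : ℝ) ≠ 0 := by
      exact_mod_cast (Finset.card_pos.2 ⟨_, N.sC w.1 w.2.1 w.2.2.1⟩).ne'
    field_simp
  have hVp : ∀ x b c, (0 : ℝ) < (N.V x b c).card := fun x b c => by
    exact_mod_cast Finset.card_pos.2 ⟨_, N.sV x b c⟩
  have h1 := both_strong (P := k.P) (a := fun v => v.1) (X := xF) (Y := xG) (N := N.map) (Z := Z.map)
    (A := 1 / al) (B := Bd) (eta := eta) (sig := sig) (L0 := L0)
    (T := fun w => T w.1 w.2.1 w.2.2.1) (Tn := fun w => Tn w.1 w.2.1 w.2.2.1)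
    (th := fun w => th w.1 w.2.1 w.2.2.1)
    (fun v w hv => by
      obtain ⟨h1, h2, h3⟩ := N.map_eq.1 hv
      exact hth _ _ _ _ _ _ h1 h2 h3)
    (fun w _ => hth0 _ _ _)
    (fun v w hv => by
      have hv' : (v.1, N.map v) = (w.1, N.map w) := hv
      obtain ⟨e1, e1'⟩ := Prod.mk.inj hv'
      obtain ⟨h1, h2, h3⟩ := N.map_eq.1 e1'
      rw [Z.map_eq]
      have hi := Z.inv v.1 v.2.1 v.2.2.1 v.1 w.2.1 w.2.2.1 (Z.sV _ _ _)
        (by
          rw [hZ.B]
          obtain ⟨-, e2, -⟩ := N.inv _ _ _ _ _ _ h1 h2 h3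
          rw [e2]; exact N.sB _ _ _)
        (by
          rw [hZ.C]
          obtain ⟨-, -, e3⟩ := N.inv _ _ _ _ _ _ h1 h2 h3
          rw [e3]; exact N.sC _ _ _)
      rw [e1] at hi
      refine ⟨?_, ?_, ?_⟩
      · rw [e1]; exact Z.sV _ _ _
      · rw [hZ.B]; exact h2
      · rw [hZ.C]; exact h3)
    (fun u v huv => by
      have e1 : Z.map u = Z.map v := congrArg Prod.fst huv
      have e2 : N.map u = N.map v := congrArg Prod.snd huv
      obtain ⟨h1, -, -⟩ := Z.map_eq.1 e1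
      obtain ⟨-, h2, h3⟩ := N.map_eq.1 e2
      exact hT _ _ _ _ _ _ h1 h2 h3)
    (fun u v huv => by
      obtain ⟨h1, h2, h3⟩ := N.map_eq.1 huv
      exact hTn _ _ _ _ _ _ h1 h2 h3)
    (fun w => hsub _ _ _)
    (fun w h _ h2 h3 => by
      obtain ⟨h4, h5⟩ := hs w.1 w.2.1 w.2.2.1 h2 h3
      exact sta_of_sat hN w h h4 h5)
    (by rw [le_div_iff₀ hal, one_mul]; exact hal1) hB h0 hBe hsig
    (fun w _ hTw => by
      rw [hpv w, le_div_iff₀ (hVp _ _ _)]
      exact hTm _ _ _ hTw)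
  have e1 : k.P.E (fun w => th w.1 w.2.1 w.2.2.1 * ind (k.P.pv N.map Z.map w (Z.map w) ≤ 1 / 2)) =
      E3 (fun x b c => th x b c * ind (2 * ((Z.V x b c).card : ℝ) ≤ (N.V x b c).card)) := by
    rw [← k.E_pts]
    refine k.P.E_congr fun w _ => ?_
    show _ = th w.1 w.2.1 w.2.2.1 * ind (2 * ((Z.V w.1 w.2.1 w.2.2.1).card : ℝ) ≤ (N.V w.1 w.2.1 w.2.2.1).card)
    congr 1
    refine congrArg ind (propext ?_)
    rw [hpv w, div_le_iff₀ (hVp _ _ _)]
    constructor <;> intro h <;> linarith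
  rw [e1] at h1
  exact h1

end state

end Pool.Agent.M3.S3
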