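import Pool.Agent.M3.S3.Law
import Pool.Agent.M3.S3.Fall
import Pool.Agent.M3.S3B.RareB
import Pool.Agent.M3.S3Hel

/-!
# M3.S3.State: consequences of the saturation of one box state, in product form (helper97)

Static.  `V` = class, `B`, `C` = cells of the known points, `SatS`, `Thk`, `Psi` of `Law.lean`.

* `St.layers`, `St.wl`, `St.sat_w` : WEIGHTED SATURATION: for every weight `0 ≤ w ≤ 1` on `V`,
  `avg C klf (wl V w g_c) (law V g_c) ≤ sig (log (|V| / ∑ w) + 1)`;
* `St.cl_le` : KL of the law of the second label given a letter of the first: `≤ sig (log (1/al) + 1)`;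
* `St.InB` (the kernels inside the box depend on the own known point only; `inB_of_ok`), `St.swp` (mirror image);
* `St.mean_le` : mean of `psi` for a fixed letter and a weight on the class; `St.row_rare` : rarity of a row;
* `St.rare_rows` : **(ii)** heavy rows and columns, `St.rare_pt` : **(iii)** exceptional hidden points;
* `St.klf_tri` : change of the reference class; `St.sat_child` : **(iv)** the child state is saturated with
  `4 (2 + log (1/al)) sig (2 log (1/mu) + 2)`; `St.io_le`, `St.psi_le`, `St.Psi_le` : bounds by `log (1/al)`.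
-/

set_option autoImplicit false
set_option linter.unusedSectionVars false

namespace Pool.Agent.M3.S3

open Finset Pool.Agent.PWZ Pool.Agent.M3

noncomputable section

namespace St

/-! ## finite layer cake -/

section layer

variable {X : Type*}

/-- a weight with values in `[0, M]` is a combination of indicator functions with total coefficient at most `M` -/
theorem layers (V : Finset X) : ∀ (n : ℕ) (w : X → ℝ) (M : ℝ), 0 ≤ M → (∀ x ∈ V, 0 ≤ w x) → (∀ x ∈ V, w x ≤ M) →
    (V.filter (fun x => 0 < w x)).card ≤ n →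
    ∃ c : Finset X → ℝ, (∀ S, 0 ≤ c S) ∧ (∀ S, c S ≠ 0 → S ⊆ V ∧ S.Nonempty) ∧
      (∀ x ∈ V, w x = ∑ S ∈ V.powerset, c S * ind (x ∈ S)) ∧ ∑ S ∈ V.powerset, c S ≤ M := by
  classical
  have hbase : ∀ (w : X → ℝ) (M : ℝ), 0 ≤ M → (∀ x ∈ V, w x = 0) →
      ∃ c : Finset X → ℝ, (∀ S, 0 ≤ c S) ∧ (∀ S, c S ≠ 0 → S ⊆ V ∧ S.Nonempty) ∧
      (∀ x ∈ V, w x = ∑ S ∈ V.powerset, c S * ind (x ∈ S)) ∧ ∑ S ∈ V.powerset, c S ≤ M := by
    intro w M hM hw
    refine ⟨fun _ => 0, fun _ => le_rfl, fun S h => absurd rfl h, fun x hx => ?_, ?_⟩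
    · simp [hw x hx]
    · simpa using hM
  intro n
  induction n with
  | zero =>
    intro w M hM h0 _ hn
    refine hbase w M hM (fun x hx => ?_)
    have h1 : V.filter (fun x => 0 < w x) = ∅ := Finset.card_eq_zero.1 (Nat.le_zero.1 hn)
    by_contra hne
    have h2 : x ∈ V.filter (fun x => 0 < w x) :=
      Finset.mem_filter.2 ⟨hx, lt_of_le_of_ne (h0 x hx) (Ne.symm hne)⟩
    rw [h1] at h2
    simp at h2
  | succ n ih =>
    intro w M hM h0 h1 hn
    by_cases he : (V.filter (fun x => 0 < w x)).Nonempty
    · obtain ⟨x0, hx0, hmin⟩ := Finset.exists_min_image _ w he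
      set T := V.filter (fun x => 0 < w x) with hT
      have hx0V : x0 ∈ V := (Finset.mem_filter.1 hx0).1
      have hx0p : 0 < w x0 := (Finset.mem_filter.1 hx0).2
      set m := w x0 with hm
      set w' : X → ℝ := fun x => if x ∈ T then w x - m else w x with hw'
      have h0' : ∀ x ∈ V, 0 ≤ w' x := by
        intro x hx
        simp only [hw']
        split_ifs with h
        · have := hmin x h; linarith
        · exact h0 x hx
      have hmM : m ≤ M := h1 x0 hx0V
      have h1' : ∀ x ∈ V, w' x ≤ M - m := by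
        intro x hx
        simp only [hw']
        split_ifs with h
        · have := h1 x hx; linarith
        · have h2 : w x = 0 := by
            by_contra hne
            exact h (Finset.mem_filter.2 ⟨hx, lt_of_le_of_ne (h0 x hx) (Ne.symm hne)⟩)
          rw [h2]; linarith
      have hsub : V.filter (fun x => 0 < w' x) ⊆ T.erase x0 := by
        intro x hx
        obtain ⟨hxV, hxp⟩ := Finset.mem_filter.1 hx
        have hxT : x ∈ T := by
          by_contra h
          simp only [hw', if_neg h] at hxp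
          exact h (Finset.mem_filter.2 ⟨hxV, hxp⟩)
        refine Finset.mem_erase.2 ⟨fun e => ?_, hxT⟩
        simp only [hw', if_pos hxT] at hxp
        rw [e] at hxp
        linarith
      have hn' : (V.filter (fun x => 0 < w' x)).card ≤ n := by
        have h3 := Finset.card_le_card hsub
        rw [Finset.card_erase_of_mem hx0] at h3
        omega
      obtain ⟨c, c0, c1, c2, c3⟩ := ih w' (M - m) (by linarith) h0' h1' hn'
      have hTV : T ∈ V.powerset := Finset.mem_powerset.2 (Finset.filter_subset _ _)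
      refine ⟨fun S => c S + if S = T then m else 0, fun S => ?_, fun S hS => ?_, fun x hx => ?_, ?_⟩
      · have := c0 S
        dsimp only
        split_ifs <;> linarith
      · by_cases hST : S = T
        · rw [hST]
          exact ⟨Finset.filter_subset _ _, he⟩
        · simp only [if_neg hST, add_zero] at hS
          exact c1 S hS
      · simp only [add_mul, Finset.sum_add_distrib, ← c2 x hx]
        have e1 : ∑ S ∈ V.powerset, (if S = T then m else 0) * ind (x ∈ S) = m * ind (x ∈ T) := by
          rw [Finset.sum_eq_single T]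
          · rw [if_pos rfl]
          · intro S _ hne; rw [if_neg hne, zero_mul]
          · intro h; exact absurd hTV h
        rw [e1]
        by_cases hxT : x ∈ T
        · rw [ind_of hxT]
          simp only [hw', if_pos hxT]
          ring
        · rw [ind_not hxT]
          simp only [hw', if_neg hxT]
          ring
      · rw [Finset.sum_add_distrib]
        have e1 : ∑ S ∈ V.powerset, (if S = T then m else 0) = m := by
          rw [Finset.sum_eq_single T]
          · rw [if_pos rfl]
          · intro S _ hne; rw [if_neg hne]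
          · intro h; exact absurd hTV h
        rw [e1]; linarith
    · refine hbase w M hM (fun x hx => ?_)
      by_contra hne
      exact he ⟨x, Finset.mem_filter.2 ⟨hx, lt_of_le_of_ne (h0 x hx) (Ne.symm hne)⟩⟩

end layer

section weight

variable {X γ φ : Type*} [Fintype φ]

/-- weighted law -/
def wl (V : Finset X) (w : X → ℝ) (k : X → φ → ℝ) (F : φ) : ℝ := (∑ x ∈ V, w x * k x F) / ∑ x ∈ V, w x

theorem wl_nn {V : Finset X} {w : X → ℝ} {k : X → φ → ℝ} (hw : ∀ x ∈ V, 0 ≤ w x) (hk : ∀ x ∈ V, ∀ F, 0 ≤ k x F)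
    (F : φ) : 0 ≤ wl V w k F :=
  div_nonneg (Finset.sum_nonneg fun x hx => mul_nonneg (hw x hx) (hk x hx F)) (Finset.sum_nonneg hw)

theorem wl_one {V : Finset X} {w : X → ℝ} {k : X → φ → ℝ} (hk : ∀ x ∈ V, ∑ F, k x F = 1)
    (hW : 0 < ∑ x ∈ V, w x) : ∑ F, wl V w k F = 1 := by
  unfold wl
  rw [← Finset.sum_div, Finset.sum_comm]
  have : ∀ x ∈ V, ∑ F, w x * k x F = w x := fun x hx => by rw [← Finset.mul_sum, hk x hx, mul_one]
  rw [Finset.sum_congr rfl this, div_self hW.ne']

/-- mixture of the laws of the layers -/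
theorem wl_mix {V : Finset X} {w : X → ℝ} {k : X → φ → ℝ} {c : Finset X → ℝ}
    (hc1 : ∀ S, c S ≠ 0 → S ⊆ V ∧ S.Nonempty) (hc2 : ∀ x ∈ V, w x = ∑ S ∈ V.powerset, c S * ind (x ∈ S)) (F : φ) :
    wl V w k F = ∑ S ∈ V.powerset, (c S * S.card / ∑ x ∈ V, w x) * law S k F := by
  classical
  have h1 : ∑ x ∈ V, w x * k x F = ∑ S ∈ V.powerset, c S * ∑ x ∈ S, k x F := by
    have e1 : ∀ x ∈ V, w x * k x F = ∑ S ∈ V.powerset, c S * (ind (x ∈ S) * k x F) := by
      intro x hx
      rw [hc2 x hx, Finset.sum_mul]
      exact Finset.sum_congr rfl fun S _ => by ring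
    rw [Finset.sum_congr rfl e1, Finset.sum_comm]
    refine Finset.sum_congr rfl fun S hS => ?_
    rw [← Finset.mul_sum]
    congr 1
    have hSV := Finset.mem_powerset.1 hS
    rw [← Finset.sum_subset hSV]
    · exact Finset.sum_congr rfl fun x hx => by rw [ind_of hx, one_mul]
    · intro x _ hx
      rw [ind_not hx, zero_mul]
  unfold wl
  rw [h1, Finset.sum_div]
  refine Finset.sum_congr rfl fun S _ => ?_
  by_cases h : c S = 0
  · rw [h]; simp
  · have hne := (hc1 S h).2
    have hcard : (S.card : ℝ) ≠ 0 := by exact_mod_cast hne.card_pos.ne'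
    unfold law avg
    field_simp

theorem layer_mass {V : Finset X} {w : X → ℝ} {c : Finset X → ℝ}
    (hc2 : ∀ x ∈ V, w x = ∑ S ∈ V.powerset, c S * ind (x ∈ S)) :
    ∑ x ∈ V, w x = ∑ S ∈ V.powerset, c S * S.card := by
  classical
  rw [Finset.sum_congr rfl hc2, Finset.sum_comm]
  refine Finset.sum_congr rfl fun S hS => ?_
  rw [← Finset.mul_sum]
  congr 1
  have hSV := Finset.mem_powerset.1 hS
  rw [← Finset.sum_subset hSV (f := fun x => ind (x ∈ S))]
  · rw [Finset.sum_congr rfl fun x hx => ind_of hx, Finset.sum_const, nsmul_eq_mul, mul_one]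
  · intro x _ hx
    rw [ind_not hx]

/-- convexity of the relative entropy -/
theorem klf_mix {ι : Type*} (s : Finset ι) (p : ι → ℝ) (l : ι → φ → ℝ) (m q : φ → ℝ) (hp : ∀ i ∈ s, 0 ≤ p i)
    (hm : ∀ F, m F = ∑ i ∈ s, p i * l i F) (hl : ∀ i ∈ s, p i ≠ 0 → ∀ F, 0 ≤ l i F)
    (hl1 : ∀ i ∈ s, p i ≠ 0 → ∑ F, l i F = 1) (hm1 : ∑ F, m F = 1)
    (hmq : ∀ F, m F ≠ 0 → 0 < q F) :
    klf m q ≤ ∑ i ∈ s, p i * klf (l i) q := by
  have hlm : ∀ i ∈ s, ∀ F, 0 ≤ p i * l i F := by
    intro i hi F
    by_cases h : p i = 0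
    · rw [h, zero_mul]
    · exact mul_nonneg (hp i hi) (hl i hi h F)
  have hm0 : ∀ F, 0 ≤ m F := fun F => by rw [hm F]; exact Finset.sum_nonneg fun i hi => hlm i hi F
  have hac : ∀ i ∈ s, p i ≠ 0 → ∀ F, l i F ≠ 0 → 0 < m F := by
    intro i hi h F hF
    rw [hm F]
    refine lt_of_lt_of_le ?_ (Finset.single_le_sum (fun j hj => hlm j hj F) hi)
    exact lt_of_le_of_ne (hlm i hi F) (Ne.symm (mul_ne_zero h hF))
  have h1 : klf m q = ∑ i ∈ s, p i * ∑ F, l i F * Real.log (m F / q F) := by
    unfold klf
    have e1 : ∀ F, m F * Real.log (m F / q F) = ∑ i ∈ s, p i * (l i F * Real.log (m F / q F)) := by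
      intro F
      conv_lhs => rw [hm F]
      rw [Finset.sum_mul, ← hm F]
      exact Finset.sum_congr rfl fun i _ => by ring
    rw [Finset.sum_congr rfl fun F _ => e1 F, Finset.sum_comm]
    exact Finset.sum_congr rfl fun i _ => by rw [Finset.mul_sum]
  rw [h1]
  refine Finset.sum_le_sum fun i hi => ?_
  by_cases h : p i = 0
  · rw [h, zero_mul, zero_mul]
  · refine mul_le_mul_of_nonneg_left ?_ (hp i hi)
    have hg := gibbs_law (p := l i) (q := m) (hl i hi h) hm0 (hac i hi h) (hl1 i hi h) hm1.le
    have e2 : klf (l i) q - ∑ F, l i F * Real.log (m F / q F) = - ∑ F, l i F * Real.log (m F / l i F) := by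
      unfold klf
      rw [← Finset.sum_sub_distrib, ← Finset.sum_neg_distrib]
      refine Finset.sum_congr rfl fun F _ => ?_
      by_cases hF : l i F = 0
      · rw [hF]; simp
      · have hmF := hac i hi h F hF
        have hqF := hmq F hmF.ne'
        rw [Real.log_div hF hqF.ne', Real.log_div hmF.ne' hqF.ne', Real.log_div hmF.ne' hF]
        ring
    linarith

/-- WEIGHTED SATURATION -/
theorem sat_w {V : Finset X} {C : Finset γ} {kg : X → γ → φ → ℝ} {sig : ℝ}
    (hk0 : ∀ x ∈ V, ∀ c ∈ C, ∀ G, 0 ≤ kg x c G) (hk1 : ∀ x ∈ V, ∀ c ∈ C, ∑ G, kg x c G = 1) (hsig : 0 ≤ sig)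
    (hsat : ∀ S ⊆ V, S.Nonempty → avg C (fun c => klf (law S fun x => kg x c) (law V fun x => kg x c)) ≤
      sig * (Real.log ((V.card : ℝ) / S.card) + 1))
    {w : X → ℝ} (hw0 : ∀ x ∈ V, 0 ≤ w x) (hw1 : ∀ x ∈ V, w x ≤ 1) (hW : 0 < ∑ x ∈ V, w x) :
    avg C (fun c => klf (wl V w fun x => kg x c) (law V fun x => kg x c)) ≤
      sig * (Real.log ((V.card : ℝ) / ∑ x ∈ V, w x) + 1) := by
  classical
  obtain ⟨c, c0, c1, c2, c3⟩ := layers V _ w 1 zero_le_one hw0 hw1 le_rfl
  set W := ∑ x ∈ V, w x with hWd
  have hVne : V.Nonempty := by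
    by_contra h
    rw [Finset.not_nonempty_iff_eq_empty] at h
    rw [hWd, h] at hW
    simp at hW
  have hVc : (0 : ℝ) < V.card := by exact_mod_cast hVne.card_pos
  have hmass : W = ∑ S ∈ V.powerset, c S * S.card := layer_mass c2
  set p : Finset X → ℝ := fun S => c S * S.card / W with hp
  have hp0 : ∀ S, 0 ≤ p S := fun S => div_nonneg (mul_nonneg (c0 S) (Nat.cast_nonneg _)) hW.le
  have hp1 : ∑ S ∈ V.powerset, p S = 1 := by
    simp only [hp]
    rw [← Finset.sum_div, ← hmass, div_self hW.ne']
  have hpc : ∀ S, p S ≠ 0 → S ⊆ V ∧ S.Nonempty := by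
    intro S h
    refine c1 S (fun h0 => h ?_)
    simp only [hp, h0, zero_mul, zero_div]
  have h1 : ∀ d ∈ C, klf (wl V w fun x => kg x d) (law V fun x => kg x d) ≤
      ∑ S ∈ V.powerset, p S * klf (law S fun x => kg x d) (law V fun x => kg x d) := by
    intro d hd
    refine klf_mix _ p (fun S => law S fun x => kg x d) _ _ (fun S _ => hp0 S) (fun F => ?_) ?_ ?_ ?_ ?_
    · exact wl_mix c1 c2 F
    · intro S _ hS F
      exact div_nonneg (Finset.sum_nonneg fun x hx => hk0 x ((hpc S hS).1 hx) d hd F) (Nat.cast_nonneg _)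
    · intro S _ hS
      exact law_sum (hpc S hS).2 fun x hx => hk1 x ((hpc S hS).1 hx) d hd
    · exact wl_one (fun x hx => hk1 x hx d hd) hW
    · intro F hF
      have hl0 : 0 ≤ law V (fun x => kg x d) F :=
        div_nonneg (Finset.sum_nonneg fun x hx => hk0 x hx d hd F) (Nat.cast_nonneg _)
      refine lt_of_le_of_ne hl0 (fun h0 => hF ?_)
      have h3 : ∑ x ∈ V, kg x d F = 0 := by
        unfold law avg at h0
        rcases div_eq_zero_iff.1 h0.symm with h | h
        · exact h
        · exact absurd h hVc.ne'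
      have h4 := (Finset.sum_eq_zero_iff_of_nonneg (fun x hx => hk0 x hx d hd F)).1 h3
      unfold wl
      rw [Finset.sum_eq_zero (fun x hx => by show w x * kg x d F = 0; rw [h4 x hx, mul_zero]), zero_div]
  have h2 : avg C (fun d => klf (wl V w fun x => kg x d) (law V fun x => kg x d)) ≤
      ∑ S ∈ V.powerset, p S * avg C (fun d => klf (law S fun x => kg x d) (law V fun x => kg x d)) := by
    refine (avg_mono h1).trans (le_of_eq ?_)
    unfold avg
    rw [Finset.sum_comm, Finset.sum_div]
    refine Finset.sum_congr rfl fun S _ => ?_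
    rw [← Finset.mul_sum, mul_div_assoc]
  refine h2.trans ?_
  have h3 : ∀ S ∈ V.powerset, p S * avg C (fun d => klf (law S fun x => kg x d) (law V fun x => kg x d)) ≤
      p S * (sig * (Real.log ((V.card : ℝ) / W) + 1)) + sig * (c S - p S) := by
    intro S _
    by_cases h : p S = 0
    · rw [h]
      have := mul_nonneg hsig (c0 S)
      simp only [zero_mul, zero_add, sub_zero]
      exact this
    · obtain ⟨hSV, hSne⟩ := hpc S h
      have hSc : (0 : ℝ) < S.card := by exact_mod_cast hSne.card_pos
      have h4 := hsat S hSV hSne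
      have h5 : Real.log ((V.card : ℝ) / S.card) ≤ Real.log ((V.card : ℝ) / W) + (W / S.card - 1) := by
        have e : (V.card : ℝ) / S.card = (V.card : ℝ) / W * (W / S.card) := by field_simp
        rw [e, Real.log_mul (by positivity) (by positivity)]
        have := Real.log_le_sub_one_of_pos (x := W / S.card) (by positivity)
        linarith
      have h6 : p S * (W / S.card) = c S := by
        simp only [hp]
        field_simp
      have h7 := mul_le_mul_of_nonneg_left h4 (hp0 S)
      have h8 := mul_le_mul_of_nonneg_left h5 (mul_nonneg hsig (hp0 S))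
      have h9 : sig * p S * (W / S.card) = sig * c S := by rw [mul_assoc, h6]
      nlinarith
  refine (Finset.sum_le_sum h3).trans ?_
  rw [Finset.sum_add_distrib, ← Finset.sum_mul, hp1, one_mul, ← Finset.mul_sum, Finset.sum_sub_distrib, hp1]
  have := mul_le_mul_of_nonneg_left c3 hsig
  linarith

end weight

/-! ## box states -/

section state

variable {X β γ φ : Type*} [Fintype X] [Fintype β] [Fintype γ] [Fintype φ] [Nonempty X] [Nonempty β] [Nonempty γ]

/-- inside the box the kernels depend on their own known point only -/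
structure InB (k : KP X β γ φ) (B : Finset β) (C : Finset γ) (b0 : β) (c0 : γ) : Prop where
  f : ∀ b ∈ B, ∀ c ∈ C, ∀ y, k.f y b c = k.f y b c0
  g : ∀ b ∈ B, ∀ c ∈ C, ∀ y, k.g y b c = k.g y b0 c

theorem inB_of_ok {k : KP X β γ φ} {N : Bx X β γ} (hN : N.Ok k) (x : X) (b : β) (c : γ) :
    InB k (N.B x b c) (N.C x b c) b c := by
  constructor
  · intro b' hb' c' hc' y
    obtain ⟨_, _, e3⟩ := N.inv x b c x b' c (N.sV _ _ _) hb' (N.sC _ _ _)
    exact hN.f x b' c c' y (e3.symm ▸ hc')
  · intro b' hb' c' hc' y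
    obtain ⟨_, e2, _⟩ := N.inv x b c x b c' (N.sV _ _ _) (N.sB _ _ _) hc'
    exact hN.g x b b' c' y (e2.symm ▸ hb')

/-- the mirror image of the kernels -/
def swp (k : KP X β γ φ) : KP X γ β φ where
  f := fun x c b => k.g x b c
  g := fun x c b => k.f x b c
  f_nn := fun x c b F => k.g_nn x b c F
  g_nn := fun x c b F => k.f_nn x b c F
  f_one := fun x c b => k.g_one x b c
  g_one := fun x c b => k.f_one x b c

variable {k : KP X β γ φ} {V V' : Finset X} {B B' : Finset β} {C C' : Finset γ} {b0 : β} {c0 : γ} {sig al del : ℝ}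

theorem InB.swp (h : InB k B C b0 c0) : InB (St.swp k) C B c0 b0 :=
  ⟨fun c hc b hb y => h.g b hb c hc y, fun c hc b hb y => h.f b hb c hc y⟩

theorem satS_swp (h : SatS k V B C b0 c0 sig) : SatS (St.swp k) V C B c0 b0 sig := ⟨h.g, h.f⟩

theorem thk_swp (h : Thk k V al) : Thk (St.swp k) V al :=
  ⟨h.pos, fun x hx x' hx' c b F => h.g x hx x' hx' b c F, fun x hx x' hx' c b F => h.f x hx x' hx' b c F⟩

theorem io_swp (b : β) (c : γ) (F G : φ) : io (St.swp k) V c b G F = io k V b c F G := by
  unfold io St.swp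
  simp only
  congr 1
  congr 1
  · unfold avg
    congr 1
    exact Finset.sum_congr rfl fun x _ => mul_comm _ _
  · exact mul_comm _ _

theorem psi_swp (b : β) (c : γ) (F G : φ) : psi del (St.swp k) V c b G F = psi del k V b c F G := by
  unfold psi
  rw [io_swp]

theorem Psi_swp (x : X) (b : β) (c : γ) : Psi del (St.swp k) V x c b = Psi del k V x b c := by
  unfold Psi
  rw [Finset.sum_comm]
  refine Finset.sum_congr rfl fun F _ => Finset.sum_congr rfl fun G _ => ?_
  rw [psi_swp]
  show k.g x b c G * k.f x b c F * _ = _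
  ring

theorem thk_f (ht : Thk k V al) (b : β) (c : γ) : KOn (fun x => k.f x b c) V al :=
  ⟨ht.pos, fun x _ F => k.f_nn x b c F, fun x hx x' hx' F => ht.f x hx x' hx' b c F, fun x _ => k.f_one x b c⟩

theorem thk_g (ht : Thk k V al) (b : β) (c : γ) : KOn (fun x => k.g x b c) V al :=
  ⟨ht.pos, fun x _ F => k.g_nn x b c F, fun x hx x' hx' F => ht.g x hx x' hx' b c F, fun x _ => k.g_one x b c⟩

theorem f_le_one (x : X) (b : β) (c : γ) (F : φ) : k.f x b c F ≤ 1 := by
  rw [← k.f_one x b c]
  exact Finset.single_le_sum (f := fun F => k.f x b c F) (fun F _ => k.f_nn x b c F) (Finset.mem_univ F)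

/-- the density of a pair is at most `log (1/al)` -/
theorem io_le (ht : Thk k V al) (hV : V.Nonempty) (b : β) (c : γ) (F G : φ) : io k V b c F G ≤ Real.log (1 / al) := by
  have hVc : (0 : ℝ) < V.card := by exact_mod_cast hV.card_pos
  have hL := (thk_f ht b c).log_nonneg hV
  unfold io
  rcases (thk_f ht b c).dich F with hF | hF
  · rw [law_zero hF, zero_mul, div_zero, Real.log_zero]; exact hL
  · rcases (thk_g ht b c).dich G with hG | hG
    · rw [law_zero hG, mul_zero, div_zero, Real.log_zero]; exact hL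
    · have p := ht.pos.trans_le (law_low hF Subset.rfl hV)
      have q := law_low hG Subset.rfl hV
      have q0 := ht.pos.trans_le q
      have h0 : 0 ≤ avg V (fun x => k.f x b c F * k.g x b c G) :=
        div_nonneg (Finset.sum_nonneg fun x _ => mul_nonneg (k.f_nn x b c F) (k.g_nn x b c G)) (Nat.cast_nonneg _)
      have h1 : avg V (fun x => k.f x b c F * k.g x b c G) ≤ law V (fun x => k.f x b c) F := by
        unfold law
        refine avg_mono fun x hx => ?_
        have hg1 : k.g x b c G ≤ 1 := by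
          rw [← k.g_one x b c]
          exact Finset.single_le_sum (f := fun G => k.g x b c G) (fun G _ => k.g_nn x b c G) (Finset.mem_univ G)
        have := mul_le_mul_of_nonneg_left hg1 (k.f_nn x b c F)
        linarith
      rcases h0.eq_or_lt with h | h
      · rw [← h, zero_div, Real.log_zero]; exact hL
      · refine Real.log_le_log (div_pos h (mul_pos p q0)) ?_
        rw [div_le_div_iff₀ (mul_pos p q0) ht.pos, one_mul]
        exact mul_le_mul h1 q ht.pos.le p.le

theorem psi_le (ht : Thk k V al) (hV : V.Nonempty) (hdel : 0 ≤ del) (b : β) (c : γ) (F G : φ) :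
    psi del k V b c F G ≤ Real.log (1 / al) := by
  have h1 := io_le ht hV b c F G
  have hL := (thk_f ht b c).log_nonneg hV
  exact max_le (by linarith) hL

theorem Psi_le (ht : Thk k V al) (hV : V.Nonempty) (hdel : 0 ≤ del) (x : X) (b : β) (c : γ) :
    Psi del k V x b c ≤ Real.log (1 / al) := by
  unfold Psi
  calc ∑ F, ∑ G, k.f x b c F * k.g x b c G * psi del k V b c F G
      ≤ ∑ F, ∑ G, k.f x b c F * k.g x b c G * Real.log (1 / al) :=
        Finset.sum_le_sum fun F _ => Finset.sum_le_sum fun G _ =>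
          mul_le_mul_of_nonneg_left (psi_le ht hV hdel b c F G) (mul_nonneg (k.f_nn x b c F) (k.g_nn x b c G))
    _ = Real.log (1 / al) := by
        simp only [← Finset.sum_mul, ← Finset.mul_sum, k.g_one, k.f_one, mul_one, one_mul]

/-- law of the second label given a letter of the first one -/
theorem cl_le (hS : SatS k V B C b0 c0 sig) (ht : Thk k V al) (hsig : 0 ≤ sig) (hV : V.Nonempty)
    (b : β) {F : φ} (hF : ∀ x ∈ V, al ≤ k.f x b c0 F) :
    avg C (fun c => klf (RB.cl V (fun x => k.f x b c0) (fun x => k.g x b0 c) F) (law V fun x => k.g x b0 c)) ≤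
      sig * (Real.log (1 / al) + 1) := by
  have hVc : (0 : ℝ) < V.card := by exact_mod_cast hV.card_pos
  have hal : al * V.card ≤ ∑ x ∈ V, k.f x b c0 F := by
    calc al * V.card = ∑ x ∈ V, al := by rw [Finset.sum_const, nsmul_eq_mul, mul_comm]
      _ ≤ _ := Finset.sum_le_sum hF
  have hpos : 0 < ∑ x ∈ V, k.f x b c0 F := lt_of_lt_of_le (mul_pos ht.pos hVc) hal
  have e1 : ∀ c, RB.cl V (fun x => k.f x b c0) (fun x => k.g x b0 c) F =
      wl V (fun x => k.f x b c0 F) (fun x => k.g x b0 c) := by
    intro c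
    funext G
    unfold RB.cl wl law avg
    field_simp
  have h1 := sat_w (C := C) (kg := fun x c => k.g x b0 c) (w := fun x => k.f x b c0 F)
    (fun x _ c _ G => k.g_nn x b0 c G) (fun x _ c _ => k.g_one x b0 c) hsig hS.g
    (fun x _ => k.f_nn x b c0 F) (fun x _ => f_le_one x b c0 F) hpos
  simp only [e1]
  refine h1.trans (mul_le_mul_of_nonneg_left (add_le_add (Real.log_le_log (by positivity) ?_) le_rfl) hsig)
  rw [div_le_div_iff₀ hpos ht.pos]
  linarith

/-- mean of `psi` for a fixed letter of the first label and a weight on the class -/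
theorem mean_le (hS : SatS k V B C b0 c0 sig) (ht : Thk k V al) (hin : InB k B C b0 c0) (hsig : 0 ≤ sig)
    (hdel : 0 < del) (hV : V.Nonempty) {b : β} (hb : b ∈ B) {F : φ} (hF : ∀ x ∈ V, al ≤ k.f x b c0 F)
    {w : X → ℝ} (hw0 : ∀ x ∈ V, 0 ≤ w x) (hw1 : ∀ x ∈ V, w x ≤ 1) (hW : 0 < ∑ x ∈ V, w x) :
    avg C (fun c => ∑ G, wl V w (fun x => k.g x b0 c) G * psi del k V b c F G) ≤
      sig * (Real.log ((V.card : ℝ) / ∑ x ∈ V, w x) + 1) + 4 / del * (sig * (Real.log (1 / al) + 1)) := by
  have hVc : (0 : ℝ) < V.card := by exact_mod_cast hV.card_pos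
  have h1 := sat_w (C := C) (kg := fun x c => k.g x b0 c) (w := w)
    (fun x _ c _ G => k.g_nn x b0 c G) (fun x _ c _ => k.g_one x b0 c) hsig hS.g hw0 hw1 hW
  have h2 := mul_le_mul_of_nonneg_left (cl_le hS ht hsig hV b hF) (show 0 ≤ 4 / del by positivity)
  have hlF : law V (fun x => k.f x b c0) F ≠ 0 := (ht.pos.trans_le (law_low hF Subset.rfl hV)).ne'
  have h3 : ∀ c ∈ C, ∑ G, wl V w (fun x => k.g x b0 c) G * psi del k V b c F G ≤
      klf (wl V w fun x => k.g x b0 c) (law V fun x => k.g x b0 c) +
        4 / del * klf (RB.cl V (fun x => k.f x b c0) (fun x => k.g x b0 c) F) (law V fun x => k.g x b0 c) := by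
    intro c hc
    have kg := thk_g ht b0 c
    have hq : ∀ G, 0 ≤ law V (fun x => k.g x b0 c) G := fun G => kg.law_nn Subset.rfl G
    have hq1 : ∑ G, law V (fun x => k.g x b0 c) G = 1 := kg.law_tot Subset.rfl hV
    have hz : ∀ G, law V (fun x => k.g x b0 c) G = 0 → ∀ x ∈ V, k.g x b0 c G = 0 := by
      intro G h0
      rcases kg.dich G with h | h
      · exact h
      · exact absurd h0 (ht.pos.trans_le (law_low h Subset.rfl hV)).ne'
    have hpq : ∀ G, wl V w (fun x => k.g x b0 c) G ≠ 0 → 0 < law V (fun x => k.g x b0 c) G := by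
      intro G hG
      refine lt_of_le_of_ne (hq G) (fun h0 => hG ?_)
      unfold wl
      rw [Finset.sum_eq_zero (fun x hx => by
        show w x * k.g x b0 c G = 0
        rw [hz G h0.symm x hx, mul_zero]), zero_div]
    have h4 := RB.dv_klf (h := fun G => psi del k V b c F G)
      (wl_nn hw0 (fun x _ G => k.g_nn x b0 c G)) hq hpq (wl_one (fun x _ => k.g_one x b0 c) hW) hq1
    refine h4.trans (add_le_add le_rfl ?_)
    have h5 := RB.sum_phi_eq (p := RB.cl V (fun x => k.f x b c0) (fun x => k.g x b0 c) F)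
      (q := law V fun x => k.g x b0 c)
      (fun G h0 => RB.cl_ac (fun x _ G => k.g_nn x b0 c G) h0)
      (RB.cl_sum (fun x _ => k.g_one x b0 c) hlF) hq1
    rw [← h5, Finset.mul_sum]
    refine Finset.sum_le_sum fun G _ => ?_
    have hr : 0 ≤ RB.cl V (fun x => k.f x b c0) (fun x => k.g x b0 c) F G / law V (fun x => k.g x b0 c) G :=
      div_nonneg (RB.cl_nn (fun x _ F => k.f_nn x b c0 F) (fun x _ G => k.g_nn x b0 c G) F G) (hq G)
    have h6 := mul_le_mul_of_nonneg_left (RB.exp_psi_le hr hdel) (hq G)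
    have e1 : psi del k V b c F G = max (Real.log (RB.cl V (fun x => k.f x b c0) (fun x => k.g x b0 c) F G /
        law V (fun x => k.g x b0 c) G) - del) 0 := by
      unfold psi io
      rw [RB.cl_ratio]
      have ef : ∀ x, k.f x b c = k.f x b c0 := fun x => hin.f b hb c hc x
      have eg : ∀ x, k.g x b c = k.g x b0 c := fun x => hin.g b hb c hc x
      simp only [ef, eg]
    rw [e1]
    calc _ ≤ _ := h6
      _ = _ := by ring
  have h7 : avg C (fun c => ∑ G, wl V w (fun x => k.g x b0 c) G * psi del k V b c F G) ≤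
      avg C (fun c => klf (wl V w fun x => k.g x b0 c) (law V fun x => k.g x b0 c)) +
        4 / del * avg C (fun c => klf (RB.cl V (fun x => k.f x b c0) (fun x => k.g x b0 c) F)
          (law V fun x => k.g x b0 c)) := by
    rw [← avg_smul, ← avg_add]
    exact avg_mono h3
  linarith

/-- the row of a letter -/
def row (del : ℝ) (k : KP X β γ φ) (V : Finset X) (C : Finset γ) (b0 : β) (b : β) (F : φ) (x : X) : ℝ :=
  avg C fun c => ∑ G, k.g x b0 c G * psi del k V b c F G

/-- RARITY of a row -/
theorem row_rare (hS : SatS k V B C b0 c0 sig) (ht : Thk k V al) (hin : InB k B C b0 c0) (hsig : 0 ≤ sig)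
    (hdel : 0 < del) (hV : V.Nonempty) {b : β} (hb : b ∈ B) {F : φ} (hF : ∀ x ∈ V, al ≤ k.f x b c0 F)
    {lam L : ℝ} (hlam : sig * (L + 1) + 4 / del * (sig * (Real.log (1 / al) + 1)) ≤ lam) (s : Finset X) (hs : s ⊆ V)
    (hR : ∀ x ∈ s, lam < row del k V C b0 b F x) : (s.card : ℝ) ≤ Real.exp (-L) * V.card := by
  classical
  by_contra hcon
  push Not at hcon
  have hsc : (0 : ℝ) < s.card := lt_of_le_of_lt (by positivity) hcon
  have hsne : s.Nonempty := Finset.card_pos.1 (by exact_mod_cast hsc)
  have hVc : (0 : ℝ) < V.card := by exact_mod_cast hV.card_pos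
  have hlog : Real.log ((V.card : ℝ) / s.card) ≤ L := by
    rw [Real.log_le_iff_le_exp (by positivity), div_le_iff₀ hsc]
    have h1 : Real.exp L * (Real.exp (-L) * V.card) = V.card := by
      rw [← mul_assoc, ← Real.exp_add]; simp
    calc (V.card : ℝ) = Real.exp L * (Real.exp (-L) * V.card) := h1.symm
      _ ≤ Real.exp L * s.card := mul_le_mul_of_nonneg_left hcon.le (Real.exp_pos _).le
  have hsum : ∀ h : X → ℝ, ∑ x ∈ V, ind (x ∈ s) * h x = ∑ x ∈ s, h x := by
    intro h
    rw [← Finset.sum_subset hs]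
    · exact Finset.sum_congr rfl fun x hx => by rw [ind_of hx, one_mul]
    · intro x _ hx
      rw [ind_not hx, zero_mul]
  have hW : ∑ x ∈ V, ind (x ∈ s) = (s.card : ℝ) := by
    have := hsum (fun _ => 1)
    simp only [mul_one] at this
    rw [this, Finset.sum_const, nsmul_eq_mul, mul_one]
  have h1 := mean_le (w := fun x => ind (x ∈ s)) hS ht hin hsig hdel hV hb hF (fun x _ => ind_nonneg _)
    (fun x _ => ind_le_one _) (by rw [hW]; exact hsc)
  rw [hW] at h1
  have e1 : ∀ c, wl V (fun x => ind (x ∈ s)) (fun x => k.g x b0 c) = law s fun x => k.g x b0 c := by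
    intro c
    funext G
    unfold wl law avg
    rw [hW, hsum]
  simp only [e1] at h1
  rw [← RB.avg_lin (fun x c => k.g x b0 c) s C (fun c G => psi del k V b c F G)] at h1
  have h2 : lam < avg s (fun x => avg C fun c => ∑ G, k.g x b0 c G * psi del k V b c F G) := by
    unfold avg
    rw [lt_div_iff₀ hsc]
    calc lam * s.card = ∑ x ∈ s, lam := by rw [Finset.sum_const, nsmul_eq_mul, mul_comm]
      _ < _ := Finset.sum_lt_sum_of_nonempty hsne hR
  have h3 := mul_le_mul_of_nonneg_left (add_le_add hlog (le_refl (1 : ℝ))) hsig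
  linarith

/-- the mean over the second known point is the mean of the rows over the first letter -/
theorem avg_Psi (hin : InB k B C b0 c0) {b : β} (hb : b ∈ B) (x : X) :
    avg C (fun c => Psi del k V x b c) = ∑ F, k.f x b c0 F * row del k V C b0 b F x := by
  unfold row Psi avg
  simp only [mul_div_assoc', ← Finset.sum_div]
  congr 1
  simp only [Finset.mul_sum]
  have h1 : ∀ c ∈ C, ∑ F, ∑ G, k.f x b c F * k.g x b c G * psi del k V b c F G =
      ∑ F, ∑ G, k.f x b c0 F * (k.g x b0 c G * psi del k V b c F G) := by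
    intro c hc
    refine Finset.sum_congr rfl fun F _ => Finset.sum_congr rfl fun G _ => ?_
    rw [hin.f b hb c hc x, hin.g b hb c hc x]
    ring
  rw [Finset.sum_congr rfl h1]
  exact Finset.sum_comm

/-- (ii), one owner: the set of the hidden points whose row over `C` is heavy -/
theorem rare_b (hS : SatS k V B C b0 c0 sig) (ht : Thk k V al) (hin : InB k B C b0 c0) (hsig : 0 ≤ sig)
    (hdel : 0 < del) (hV : V.Nonempty) {b : β} (hb : b ∈ B)
    {lam L : ℝ} (hlam : sig * (L + 1) + 4 / del * (sig * (Real.log (1 / al) + 1)) ≤ lam) :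
    avg V (fun x => ind (lam < avg C fun c => Psi del k V x b c)) ≤ Real.exp (-L) / al := by
  classical
  have hVc : (0 : ℝ) < V.card := by exact_mod_cast hV.card_pos
  set Fs : Finset φ := univ.filter fun F => ∀ x ∈ V, al ≤ k.f x b c0 F with hFs
  have hcard : (Fs.card : ℝ) * al ≤ 1 := by
    refine RB.card_supp_le (p := law V fun x => k.f x b c0) ?_ ?_ ?_ Fs ?_
    · exact fun F => (thk_f ht b c0).law_nn Subset.rfl F
    · exact (thk_f ht b c0).law_tot Subset.rfl hV
    · intro F hF
      rcases (thk_f ht b c0).dich F with h | h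
      · exact absurd (law_zero h) hF
      · exact law_low h Subset.rfl hV
    · intro F hF
      exact (ht.pos.trans_le (law_low (Finset.mem_filter.1 hF).2 Subset.rfl hV)).ne'
  have hpt : ∀ x ∈ V, ind (lam < avg C fun c => Psi del k V x b c) ≤
      ∑ F ∈ Fs, ind (lam < row del k V C b0 b F x) := by
    intro x hx
    by_cases h : lam < avg C fun c => Psi del k V x b c
    · rw [ind_of h]
      have hex : ∃ F ∈ Fs, lam < row del k V C b0 b F x := by
        by_contra hcon
        push Not at hcon
        have h1 : avg C (fun c => Psi del k V x b c) ≤ lam := by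
          rw [avg_Psi hin hb x]
          calc ∑ F, k.f x b c0 F * row del k V C b0 b F x ≤ ∑ F, k.f x b c0 F * lam := by
                refine Finset.sum_le_sum fun F _ => ?_
                rcases (thk_f ht b c0).dich F with h0 | h0
                · rw [h0 x hx, zero_mul, zero_mul]
                · exact mul_le_mul_of_nonneg_left (hcon F (Finset.mem_filter.2 ⟨Finset.mem_univ _, h0⟩))
                    (k.f_nn x b c0 F)
            _ = lam := by rw [← Finset.sum_mul, k.f_one, one_mul]
        linarith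
      obtain ⟨F, hF, hlt⟩ := hex
      calc (1 : ℝ) = ind (lam < row del k V C b0 b F x) := (ind_of hlt).symm
        _ ≤ _ := Finset.single_le_sum (f := fun F => ind (lam < row del k V C b0 b F x))
              (fun F _ => ind_nonneg _) hF
    · rw [ind_not h]
      exact Finset.sum_nonneg fun F _ => ind_nonneg _
  have hrow : ∀ F ∈ Fs, avg V (fun x => ind (lam < row del k V C b0 b F x)) ≤ Real.exp (-L) := by
    intro F hF
    have h1 := row_rare hS ht hin hsig hdel hV hb (Finset.mem_filter.1 hF).2 hlam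
      (V.filter fun x => lam < row del k V C b0 b F x) (Finset.filter_subset _ _)
      (fun x hx => (Finset.mem_filter.1 hx).2)
    have e : ∑ x ∈ V, ind (lam < row del k V C b0 b F x) =
        ((V.filter fun x => lam < row del k V C b0 b F x).card : ℝ) := by
      rw [Finset.card_filter]
      push_cast
      refine Finset.sum_congr rfl fun x _ => ?_
      by_cases h : lam < row del k V C b0 b F x
      · rw [ind_of h, if_pos h]
      · rw [ind_not h, if_neg h]
    unfold avg
    rw [e, div_le_iff₀ hVc]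
    exact h1
  calc avg V (fun x => ind (lam < avg C fun c => Psi del k V x b c))
      ≤ avg V (fun x => ∑ F ∈ Fs, ind (lam < row del k V C b0 b F x)) := avg_mono hpt
    _ = ∑ F ∈ Fs, avg V (fun x => ind (lam < row del k V C b0 b F x)) := by
        unfold avg
        rw [Finset.sum_comm, Finset.sum_div]
    _ ≤ ∑ F ∈ Fs, Real.exp (-L) := Finset.sum_le_sum hrow
    _ = Fs.card * Real.exp (-L) := by rw [Finset.sum_const, nsmul_eq_mul]
    _ ≤ Real.exp (-L) / al := by
        rw [le_div_iff₀ ht.pos]
        have := mul_le_mul_of_nonneg_right hcard (Real.exp_pos (-L)).le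
        linarith

theorem avg_comm {α δ : Type*} (s : Finset α) (t : Finset δ) (f : α → δ → ℝ) :
    avg s (fun a => avg t fun d => f a d) = avg t fun d => avg s fun a => f a d := by
  unfold avg
  simp only [← Finset.sum_div]
  rw [Finset.sum_comm, div_div, div_div, mul_comm (t.card : ℝ)]

theorem avg_le_of {α : Type*} {s : Finset α} {f : α → ℝ} {M : ℝ} (hM : 0 ≤ M) (h : ∀ a ∈ s, f a ≤ M) :
    avg s f ≤ M := by
  rcases s.eq_empty_or_nonempty with he | hne
  · rw [he]; simpa [avg] using hM
  · rw [← avg_const hne M]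
    exact avg_mono h

/-- **(ii)** heavy rows and columns -/
theorem rare_rows (hS : SatS k V B C b0 c0 sig) (ht : Thk k V al) (hin : InB k B C b0 c0) (hsig : 0 ≤ sig)
    (hdel : 0 < del) (hV : V.Nonempty)
    {lam L : ℝ} (hlam : sig * (L + 1) + 4 / del * (sig * (Real.log (1 / al) + 1)) ≤ lam) :
    avg V (fun x => avg B (fun b => ind (lam < avg C fun c => Psi del k V x b c)) +
      avg C (fun c => ind (lam < avg B fun b => Psi del k V x b c))) ≤ 2 * (Real.exp (-L) / al) := by
  have hpos : 0 ≤ Real.exp (-L) / al := div_nonneg (Real.exp_pos _).le ht.pos.le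
  have h1 : avg V (fun x => avg B (fun b => ind (lam < avg C fun c => Psi del k V x b c))) ≤
      Real.exp (-L) / al := by
    rw [avg_comm]
    exact avg_le_of hpos fun b hb => rare_b hS ht hin hsig hdel hV hb hlam
  have h2 : avg V (fun x => avg C (fun c => ind (lam < avg B fun b => Psi del k V x b c))) ≤
      Real.exp (-L) / al := by
    rw [avg_comm]
    refine avg_le_of hpos fun c hc => ?_
    have h3 := rare_b (satS_swp hS) (thk_swp ht) hin.swp hsig hdel hV hc hlam
    simp only [Psi_swp] at h3
    exact h3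
  rw [avg_add]
  linarith

/-- **(iii)** exceptional hidden points -/
theorem rare_pt (hS : SatS k V B C b0 c0 sig) (ht : Thk k V al) (hin : InB k B C b0 c0) (hsig : 0 ≤ sig)
    (hdel : 0 < del) (hV : V.Nonempty) {y l : ℝ} (hl0 : 0 ≤ l)
    (hy : sig * (l + Real.log (1 / al) + 1) + 4 / del * (sig * (Real.log (1 / al) + 1)) ≤ y) (s : Finset X) (hs : s ⊆ V)
    (hR : ∀ x ∈ s, y < avg B fun b => avg C fun c => Psi del k V x b c) : (s.card : ℝ) ≤ Real.exp (-l) * V.card := by
  classical
  by_contra hcon
  push Not at hcon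
  have hsc : (0 : ℝ) < s.card := lt_of_le_of_lt (by positivity) hcon
  have hsne : s.Nonempty := Finset.card_pos.1 (by exact_mod_cast hsc)
  have hVc : (0 : ℝ) < V.card := by exact_mod_cast hV.card_pos
  have hlog : Real.log ((V.card : ℝ) / s.card) ≤ l := by
    rw [Real.log_le_iff_le_exp (by positivity), div_le_iff₀ hsc]
    have h1 : Real.exp l * (Real.exp (-l) * V.card) = V.card := by
      rw [← mul_assoc, ← Real.exp_add]; simp
    calc (V.card : ℝ) = Real.exp l * (Real.exp (-l) * V.card) := h1.symm
      _ ≤ Real.exp l * s.card := mul_le_mul_of_nonneg_left hcon.le (Real.exp_pos _).le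
  set E0 := 4 / del * (sig * (Real.log (1 / al) + 1)) with hE0
  -- one owner
  have hone : ∀ b ∈ B, avg s (fun x => avg C fun c => Psi del k V x b c) ≤ y := by
    intro b hb
    have e1 : avg s (fun x => avg C fun c => Psi del k V x b c) =
        ∑ F : φ, (∑ x ∈ s, k.f x b c0 F * row del k V C b0 b F x) / (s.card : ℝ) := by
      rw [← Finset.sum_div, Finset.sum_comm]
      show (∑ x ∈ s, avg C fun c => Psi del k V x b c) / (s.card : ℝ) = _
      rw [Finset.sum_congr rfl fun x _ => avg_Psi hin hb x]
    rw [e1]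
    have h1 : ∀ F, (∑ x ∈ s, k.f x b c0 F * row del k V C b0 b F x) / s.card ≤
        law s (fun x => k.f x b c0) F * y := by
      intro F
      rcases (thk_f ht b c0).dich F with h0 | h0
      · rw [law_zero (fun x hx => h0 x (hs hx)), zero_mul]
        rw [Finset.sum_eq_zero (fun x hx => by rw [h0 x (hs hx), zero_mul]), zero_div]
      · set w : X → ℝ := fun x => ind (x ∈ s) * k.f x b c0 F with hw
        have hsum : ∀ h : X → ℝ, ∑ x ∈ V, w x * h x = ∑ x ∈ s, k.f x b c0 F * h x := by
          intro h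
          rw [← Finset.sum_subset hs (f := fun x => w x * h x)]
          · exact Finset.sum_congr rfl fun x hx => by simp only [hw]; rw [ind_of hx, one_mul]
          · intro x _ hx
            simp only [hw]
            rw [ind_not hx, zero_mul, zero_mul]
        have hW : ∑ x ∈ V, w x = ∑ x ∈ s, k.f x b c0 F := by
          have := hsum (fun _ => 1)
          simp only [mul_one] at this
          exact this
        have hWal : al * s.card ≤ ∑ x ∈ s, k.f x b c0 F := by
          calc al * s.card = ∑ x ∈ s, al := by rw [Finset.sum_const, nsmul_eq_mul, mul_comm]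
            _ ≤ ∑ x ∈ s, k.f x b c0 F := Finset.sum_le_sum fun x hx => h0 x (hs hx)
        have hWp : 0 < ∑ x ∈ V, w x := by rw [hW]; exact lt_of_lt_of_le (mul_pos ht.pos hsc) hWal
        have h2 := mean_le (w := w) hS ht hin hsig hdel hV hb h0
          (fun x _ => mul_nonneg (ind_nonneg _) (k.f_nn x b c0 F))
          (fun x _ => mul_le_one₀ (ind_le_one _) (k.f_nn x b c0 F) (f_le_one x b c0 F)) hWp
        have h3 : Real.log ((V.card : ℝ) / ∑ x ∈ V, w x) ≤ l + Real.log (1 / al) := by
          have h4 : (V.card : ℝ) / ∑ x ∈ V, w x ≤ (V.card : ℝ) / s.card * (1 / al) := by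
            rw [div_mul_div_comm, mul_one]
            refine div_le_div_of_nonneg_left hVc.le (mul_pos hsc ht.pos) ?_
            rw [hW]; linarith
          refine (Real.log_le_log (by positivity) h4).trans ?_
          have hal := ht.pos
          rw [Real.log_mul (by positivity) (by positivity)]
          linarith
        have h5 : avg C (fun c => ∑ G, wl V w (fun x => k.g x b0 c) G * psi del k V b c F G) ≤ y := by
          have h6 := mul_le_mul_of_nonneg_left (add_le_add h3 (le_refl (1 : ℝ))) hsig
          linarith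
        have e2 : (∑ x ∈ s, k.f x b c0 F * row del k V C b0 b F x) / s.card =
            law s (fun x => k.f x b c0) F *
              avg C (fun c => ∑ G, wl V w (fun x => k.g x b0 c) G * psi del k V b c F G) := by
          have hWne : ∑ x ∈ s, k.f x b c0 F ≠ 0 := by rw [← hW]; exact hWp.ne'
          have e3 : avg C (fun c => ∑ G, wl V w (fun x => k.g x b0 c) G * psi del k V b c F G) =
              (∑ x ∈ s, k.f x b c0 F * row del k V C b0 b F x) / ∑ x ∈ s, k.f x b c0 F := by
            have hA : ∑ c ∈ C, ∑ G, (∑ x ∈ s, k.f x b c0 F * k.g x b0 c G) / (∑ x ∈ s, k.f x b c0 F) *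
                psi del k V b c F G =
                (∑ x ∈ s, k.f x b c0 F * ∑ c ∈ C, ∑ G, k.g x b0 c G * psi del k V b c F G) /
                  ∑ x ∈ s, k.f x b c0 F := by
              generalize (∑ x ∈ s, k.f x b c0 F) = W0
              simp only [Finset.mul_sum, Finset.sum_div, Finset.sum_mul]
              conv_rhs => rw [Finset.sum_comm]
              refine Finset.sum_congr rfl fun c _ => ?_
              conv_rhs => rw [Finset.sum_comm]
              refine Finset.sum_congr rfl fun G _ => Finset.sum_congr rfl fun x _ => ?_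
              ring
            unfold wl row avg
            rw [hW]
            simp only [hsum]
            rw [hA]
            simp only [mul_div_assoc']
            rw [← Finset.sum_div, div_div, div_div, mul_comm (C.card : ℝ)]
          rw [e3]
          unfold law avg
          field_simp
        rw [e2]
        exact mul_le_mul_of_nonneg_left h5 ((thk_f ht b c0).law_nn hs F)
    calc _ ≤ ∑ F, law s (fun x => k.f x b c0) F * y := Finset.sum_le_sum fun F _ => h1 F
      _ = y := by rw [← Finset.sum_mul, (thk_f ht b c0).law_tot hs hsne, one_mul]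
  have h6 : avg s (fun x => avg B fun b => avg C fun c => Psi del k V x b c) ≤ y := by
    rw [avg_comm]
    refine avg_le_of ?_ hone
    have hL := (thk_f ht b0 c0).log_nonneg hV
    have : 0 ≤ sig * (l + Real.log (1 / al) + 1) + 4 / del * (sig * (Real.log (1 / al) + 1)) := by positivity
    linarith
  have h7 : y < avg s (fun x => avg B fun b => avg C fun c => Psi del k V x b c) := by
    conv_rhs => unfold avg
    rw [lt_div_iff₀ hsc]
    calc y * s.card = ∑ x ∈ s, y := by rw [Finset.sum_const, nsmul_eq_mul, mul_comm]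
      _ < _ := Finset.sum_lt_sum_of_nonempty hsne hR
  linarith

/-! ## the child state -/

section tri

variable {Z : Type*} {kk : Z → φ → ℝ} {R S M : Finset Z}

theorem h2_le_klf (h : KOn kk R al) (hS : S ⊆ R) (hSne : S.Nonempty) (hM : M ⊆ R) (hMne : M.Nonempty) :
    ∑ F, (Real.sqrt (law S kk F) - Real.sqrt (law M kk F)) ^ 2 ≤ klf (law S kk) (law M kk) := by
  have h1 : ∀ F, (Real.sqrt (law S kk F) - Real.sqrt (law M kk F)) ^ 2 ≤
      law S kk F * Real.log (law S kk F / law M kk F) - law S kk F + law M kk F := by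
    intro F
    rcases h.dich F with hF | hF
    · rw [law_zero (fun x hx => hF x (hS hx)), law_zero (fun x hx => hF x (hM hx))]
      simp
    · have p := h.pos.trans_le (law_low hF hS hSne)
      have q := h.pos.trans_le (law_low hF hM hMne)
      have h2 := mul_le_mul_of_nonneg_left (sqrt_sq_le_hphi (x := law S kk F / law M kk F) (by positivity)) q.le
      have e1 : law M kk F * (Real.sqrt (law S kk F / law M kk F) - 1) ^ 2 =
          (Real.sqrt (law S kk F) - Real.sqrt (law M kk F)) ^ 2 := by
        rw [Real.sqrt_div p.le]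
        have h3 : Real.sqrt (law M kk F) ≠ 0 := (Real.sqrt_pos.2 q).ne'
        have h4 : law M kk F = Real.sqrt (law M kk F) ^ 2 := (Real.sq_sqrt q.le).symm
        have h5 : Real.sqrt (law S kk F) / Real.sqrt (law M kk F) - 1 =
            (Real.sqrt (law S kk F) - Real.sqrt (law M kk F)) / Real.sqrt (law M kk F) := by field_simp
        rw [h5, div_pow, ← h4]
        field_simp
      have e2 : law M kk F * hphi (law S kk F / law M kk F) =
          law S kk F * Real.log (law S kk F / law M kk F) - law S kk F + law M kk F := by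
        unfold hphi
        field_simp
      rw [e1, e2] at h2
      exact h2
  have h2 := Finset.sum_le_sum (s := (Finset.univ : Finset φ)) (fun F _ => h1 F)
  rw [Finset.sum_add_distrib, Finset.sum_sub_distrib, h.law_tot hM hMne, h.law_tot hS hSne] at h2
  unfold klf
  linarith

theorem klf_le_h2 (h : KOn kk R al) (hS : S ⊆ R) (hSne : S.Nonempty) (hM : M ⊆ R) (hMne : M.Nonempty) :
    klf (law S kk) (law M kk) ≤
      (2 + Real.log (1 / al)) * ∑ F, (Real.sqrt (law S kk F) - Real.sqrt (law M kk F)) ^ 2 := by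
  have hal1 : 1 ≤ 1 / al := by
    by_contra hc
    push Not at hc
    have h3 := h.log_nonneg (hSne.mono hS)
    have h4 := Real.log_neg (by have := h.pos; positivity) hc
    linarith
  have h1 : ∀ F, law S kk F * Real.log (law S kk F / law M kk F) - law S kk F + law M kk F ≤
      (2 + Real.log (1 / al)) * (Real.sqrt (law S kk F) - Real.sqrt (law M kk F)) ^ 2 := by
    intro F
    rcases h.dich F with hF | hF
    · rw [law_zero (fun x hx => hF x (hS hx)), law_zero (fun x hx => hF x (hM hx))]
      simp
    · have p := h.pos.trans_le (law_low hF hS hSne)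
      have q := h.pos.trans_le (law_low hF hM hMne)
      have hA : law S kk F / law M kk F ≤ 1 / al :=
        div_le_div₀ zero_le_one (h.law_le_one hS hSne F) h.pos (law_low hF hM hMne)
      have h2 := mul_le_mul_of_nonneg_left (hphi_le_sqrt (x := law S kk F / law M kk F) (by positivity) hal1 hA) q.le
      have e1 : law M kk F * ((2 + Real.log (1 / al)) * (Real.sqrt (law S kk F / law M kk F) - 1) ^ 2) =
          (2 + Real.log (1 / al)) * (Real.sqrt (law S kk F) - Real.sqrt (law M kk F)) ^ 2 := by
        rw [Real.sqrt_div p.le]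
        have h3 : Real.sqrt (law M kk F) ≠ 0 := (Real.sqrt_pos.2 q).ne'
        have h4 : law M kk F = Real.sqrt (law M kk F) ^ 2 := (Real.sq_sqrt q.le).symm
        have h5 : Real.sqrt (law S kk F) / Real.sqrt (law M kk F) - 1 =
            (Real.sqrt (law S kk F) - Real.sqrt (law M kk F)) / Real.sqrt (law M kk F) := by field_simp
        rw [h5, div_pow, ← h4]
        field_simp
      have e2 : law M kk F * hphi (law S kk F / law M kk F) =
          law S kk F * Real.log (law S kk F / law M kk F) - law S kk F + law M kk F := by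
        unfold hphi
        field_simp
      rw [e1, e2] at h2
      exact h2
  have h2 := Finset.sum_le_sum (s := (Finset.univ : Finset φ)) (fun F _ => h1 F)
  rw [Finset.sum_add_distrib, Finset.sum_sub_distrib, h.law_tot hM hMne, h.law_tot hS hSne, ← Finset.mul_sum] at h2
  unfold klf
  linarith

/-- change of the reference class -/
theorem klf_tri (h : KOn kk R al) (hS : S ⊆ R) (hSne : S.Nonempty) (hM : M ⊆ R) (hMne : M.Nonempty) :
    klf (law S kk) (law M kk) ≤
      2 * (2 + Real.log (1 / al)) * (klf (law S kk) (law R kk) + klf (law M kk) (law R kk)) := by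
  have hR : R.Nonempty := hSne.mono hS
  have hL := h.log_nonneg hR
  refine (klf_le_h2 h hS hSne hM hMne).trans ?_
  have h1 : ∑ F, (Real.sqrt (law S kk F) - Real.sqrt (law M kk F)) ^ 2 ≤
      ∑ F, (2 * (Real.sqrt (law S kk F) - Real.sqrt (law R kk F)) ^ 2 +
        2 * (Real.sqrt (law M kk F) - Real.sqrt (law R kk F)) ^ 2) := by
    refine Finset.sum_le_sum fun F _ => ?_
    nlinarith [sq_nonneg (Real.sqrt (law S kk F) + Real.sqrt (law M kk F) - 2 * Real.sqrt (law R kk F))]
  rw [Finset.sum_add_distrib, ← Finset.mul_sum, ← Finset.mul_sum] at h1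
  have h2 := h2_le_klf h hS hSne Subset.rfl hR
  have h3 := h2_le_klf h hM hMne Subset.rfl hR
  calc (2 + Real.log (1 / al)) * ∑ F, (Real.sqrt (law S kk F) - Real.sqrt (law M kk F)) ^ 2
      ≤ (2 + Real.log (1 / al)) * (2 * (klf (law S kk) (law R kk) + klf (law M kk) (law R kk))) :=
        mul_le_mul_of_nonneg_left (by linarith) (by linarith)
    _ = _ := by ring

theorem avg_half {δ : Type*} {s t : Finset δ} {f : δ → ℝ} (hts : t ⊆ s) (hc : (s.card : ℝ) ≤ 2 * t.card)
    (hf : ∀ a ∈ s, 0 ≤ f a) : avg t f ≤ 2 * avg s f := by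
  rcases t.eq_empty_or_nonempty with he | hne
  · rw [he]
    have : 0 ≤ avg s f := div_nonneg (Finset.sum_nonneg hf) (Nat.cast_nonneg _)
    simp only [avg, Finset.sum_empty, zero_div] at this ⊢
    linarith
  · have h1 : (0 : ℝ) < t.card := by exact_mod_cast hne.card_pos
    have h2 : (0 : ℝ) < s.card := by exact_mod_cast (hne.mono hts).card_pos
    have h3 : ∑ a ∈ t, f a ≤ ∑ a ∈ s, f a := Finset.sum_le_sum_of_subset_of_nonneg hts fun a ha _ => hf a ha
    have h4 : 0 ≤ ∑ a ∈ s, f a := Finset.sum_nonneg hf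
    unfold avg
    rw [← mul_div_assoc, div_le_div_iff₀ h1 h2]
    calc (∑ a ∈ t, f a) * s.card ≤ (∑ a ∈ s, f a) * (2 * t.card) :=
          mul_le_mul h3 hc h2.le h4
      _ = _ := by ring

end tri

/-- the `f`-part of the child rule -/
theorem sat_child_f (hS : ∀ S ⊆ V, S.Nonempty →
      avg B (fun b => klf (law S fun x => k.f x b c0) (law V fun x => k.f x b c0)) ≤
        sig * (Real.log ((V.card : ℝ) / S.card) + 1))
    (ht : Thk k V al) (hsig : 0 ≤ sig) (hV' : V' ⊆ V) (hB' : B' ⊆ B) {mu : ℝ} (hmu : 0 < mu)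
    (hcV : mu * V.card ≤ V'.card) (hcB : (B.card : ℝ) ≤ 2 * B'.card) (S : Finset X) (hSV : S ⊆ V') (hne : S.Nonempty) :
    avg B' (fun b => klf (law S fun x => k.f x b c0) (law V' fun x => k.f x b c0)) ≤
      4 * (2 + Real.log (1 / al)) * sig * (2 * Real.log (1 / mu) + 2) * (Real.log ((V'.card : ℝ) / S.card) + 1) := by
  have hV'ne : V'.Nonempty := hne.mono hSV
  have hVne : V.Nonempty := hV'ne.mono hV'
  obtain ⟨bb⟩ := (inferInstance : Nonempty β)
  have hLam := (thk_f ht bb c0).log_nonneg hVne
  have sS : (0 : ℝ) < S.card := by exact_mod_cast hne.card_pos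
  have sV' : (0 : ℝ) < V'.card := by exact_mod_cast hV'ne.card_pos
  have sV : (0 : ℝ) < V.card := by exact_mod_cast hVne.card_pos
  have h1 : ∀ b ∈ B', klf (law S fun x => k.f x b c0) (law V' fun x => k.f x b c0) ≤
      2 * (2 + Real.log (1 / al)) * (klf (law S fun x => k.f x b c0) (law V fun x => k.f x b c0) +
        klf (law V' fun x => k.f x b c0) (law V fun x => k.f x b c0)) := fun b _ =>
    klf_tri (thk_f ht b c0) (hSV.trans hV') hne hV' hV'ne
  have h2 := avg_mono h1
  rw [avg_smul, avg_add] at h2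
  have n1 : ∀ b ∈ B, 0 ≤ klf (law S fun x => k.f x b c0) (law V fun x => k.f x b c0) := fun b _ =>
    klf_law_nonneg (thk_f ht b c0) (hSV.trans hV') hne Subset.rfl hVne
  have n2 : ∀ b ∈ B, 0 ≤ klf (law V' fun x => k.f x b c0) (law V fun x => k.f x b c0) := fun b _ =>
    klf_law_nonneg (thk_f ht b c0) hV' hV'ne Subset.rfl hVne
  have h3 := (avg_half hB' hcB n1).trans (mul_le_mul_of_nonneg_left (hS S (hSV.trans hV') hne) zero_le_two)
  have h4 := (avg_half hB' hcB n2).trans (mul_le_mul_of_nonneg_left (hS V' hV' hV'ne) zero_le_two)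
  have l0 : 0 ≤ Real.log ((V'.card : ℝ) / S.card) := by
    refine Real.log_nonneg ?_
    rw [one_le_div sS]
    exact_mod_cast Finset.card_le_card hSV
  have l1 : Real.log ((V.card : ℝ) / V'.card) ≤ Real.log (1 / mu) := by
    refine Real.log_le_log (by positivity) ?_
    rw [div_le_div_iff₀ sV' hmu]
    linarith
  have l1' : 0 ≤ Real.log ((V.card : ℝ) / V'.card) := by
    refine Real.log_nonneg ?_
    rw [one_le_div sV']
    exact_mod_cast Finset.card_le_card hV'
  have l2 : Real.log ((V.card : ℝ) / S.card) =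
      Real.log ((V'.card : ℝ) / S.card) + Real.log ((V.card : ℝ) / V'.card) := by
    rw [← Real.log_mul (by positivity) (by positivity)]
    congr 1
    field_simp
  refine h2.trans ?_
  set A := 2 + Real.log (1 / al) with hA
  have hA0 : 0 ≤ A := by rw [hA]; linarith
  set m := Real.log (1 / mu) with hm
  have hm0 : 0 ≤ m := l1'.trans l1
  set l := Real.log ((V'.card : ℝ) / S.card) with hl
  have h5 : avg B' (fun b => klf (law S fun x => k.f x b c0) (law V fun x => k.f x b c0)) +
      avg B' (fun b => klf (law V' fun x => k.f x b c0) (law V fun x => k.f x b c0)) ≤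
      2 * (sig * (l + 2 * m + 2)) := by
    rw [l2] at h3
    have h6 : sig * (l + Real.log ((V.card : ℝ) / V'.card) + 1) ≤ sig * (l + m + 1) :=
      mul_le_mul_of_nonneg_left (by linarith) hsig
    have h7 : sig * (Real.log ((V.card : ℝ) / V'.card) + 1) ≤ sig * (m + 1) :=
      mul_le_mul_of_nonneg_left (by linarith) hsig
    have h8 : sig * (l + 2 * m + 2) = sig * (l + m + 1) + sig * (m + 1) := by ring
    rw [h8]
    linarith
  calc 2 * A * (avg B' (fun b => klf (law S fun x => k.f x b c0) (law V fun x => k.f x b c0)) +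
      avg B' (fun b => klf (law V' fun x => k.f x b c0) (law V fun x => k.f x b c0)))
      ≤ 2 * A * (2 * (sig * (l + 2 * m + 2))) := mul_le_mul_of_nonneg_left h5 (by positivity)
    _ = 4 * A * sig * (l + 2 * m + 2) := by ring
    _ ≤ 4 * A * sig * ((2 * m + 2) * (l + 1)) := by
        refine mul_le_mul_of_nonneg_left ?_ (by positivity)
        nlinarith [mul_nonneg hm0 l0]
    _ = _ := by ring

/-- **(iv)** CHILD STATE -/
theorem sat_child (hS : SatS k V B C b0 c0 sig) (ht : Thk k V al) (hin : InB k B C b0 c0) (hsig : 0 ≤ sig)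
    (hV' : V' ⊆ V) (hB' : B' ⊆ B) (hC' : C' ⊆ C) {mu : ℝ} (hmu : 0 < mu)
    (hcV : mu * V.card ≤ V'.card) (hcB : (B.card : ℝ) ≤ 2 * B'.card) (hcC : (C.card : ℝ) ≤ 2 * C'.card)
    {b1 : β} {c1 : γ} (hb1 : b1 ∈ B') (hc1 : c1 ∈ C') :
    SatS k V' B' C' b1 c1 (4 * (2 + Real.log (1 / al)) * sig * (2 * Real.log (1 / mu) + 2)) := by
  constructor
  · intro S hSV hne
    have h1 := sat_child_f (c0 := c0) hS.f ht hsig hV' hB' hmu hcV hcB S hSV hne
    have e : ∀ b ∈ B', klf (law S fun x => k.f x b c1) (law V' fun x => k.f x b c1) =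
        klf (law S fun x => k.f x b c0) (law V' fun x => k.f x b c0) := by
      intro b hb
      have : ∀ x, k.f x b c1 = k.f x b c0 := fun x => hin.f b (hB' hb) c1 (hC' hc1) x
      simp only [this]
    exact (avg_mono fun b hb => (e b hb).le).trans h1
  · intro S hSV hne
    have h1 := sat_child_f (k := St.swp k) (B := C) (B' := C') (c0 := b0) hS.g (thk_swp ht) hsig
      hV' hC' hmu hcV hcC S hSV hne
    have e : ∀ c ∈ C', klf (law S fun x => k.g x b1 c) (law V' fun x => k.g x b1 c) =
        klf (law S fun x => k.g x b0 c) (law V' fun x => k.g x b0 c) := by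
      intro c hc
      have : ∀ x, k.g x b1 c = k.g x b0 c := fun x => hin.g b1 (hB' hb1) c (hC' hc) x
      simp only [this]
    exact (avg_mono fun c hc => (e c hc).le).trans h1

/-- the child of a box state: thickness and the owners -/
theorem Thk.mono (ht : Thk k V al) (h : V' ⊆ V) : Thk k V' al :=
  ⟨ht.pos, fun x hx x' hx' b c F => ht.f x (h hx) x' (h hx') b c F,
    fun x hx x' hx' b c F => ht.g x (h hx) x' (h hx') b c F⟩

theorem InB.mono (hin : InB k B C b0 c0) (hB' : B' ⊆ B) (hC' : C' ⊆ C) {b1 : β} {c1 : γ} (hb1 : b1 ∈ B')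
    (hc1 : c1 ∈ C') : InB k B' C' b1 c1 :=
  ⟨fun b hb c hc y => by rw [hin.f b (hB' hb) c (hC' hc) y, hin.f b (hB' hb) c1 (hC' hc1) y],
    fun b hb c hc y => by rw [hin.g b (hB' hb) c (hC' hc) y, hin.g b1 (hB' hb1) c (hC' hc) y]⟩

end state

end St

end

end Pool.Agent.M3.S3
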