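import Pool.Agent.M3.S3.Law
import Pool.Agent.M3.S3KeyF

/-!
# M3.S3.SumG: the balance of the mutual information along public classes (helper64), for both routes

`V` a refining family of public classes.  Boxes: `bxU t` = class and cells of the time `t`; `bxh t` = half step class
(cells of the time `t`), `bxH t` = half step class with the cells of the time `t+1`, `bxU (t+1)` = next class.
* `iota_w_nonneg`, `iota_congr3`, `dpi_step` (label update);
* `sum_harm` : THE SUM.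
-/

set_option autoImplicit false
set_option linter.unusedSectionVars false

namespace Pool.Agent.M3.S3

open Finset Pool.Agent.PWZ Pool.Agent.M3

noncomputable section

section general

variable {Om : Type*} [Fintype Om] (P : FP Om) {κ κ' ι ι' ν ν' ζ : Type*}

/-- weighted mutual information is nonnegative -/
theorem iota_w_nonneg (X : Om → κ) (Y : Om → ι) {N : Om → ν} {θ : Om → ℝ} (hθ : Fac N θ) (h0 : ∀ w, 0 ≤ θ w) :
    0 ≤ P.E (fun w => θ w * P.iota X Y N w) := by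
  rcases (P.E_nonneg (fun w _ => h0 w)).eq_or_lt with hE | hE
  · have hz : ∀ w, P.p w ≠ 0 → θ w = 0 := by
      intro w hw
      by_contra hne
      have h1 : 0 < P.p w * θ w := mul_pos (lt_of_le_of_ne (P.nn w) (Ne.symm hw))
        (lt_of_le_of_ne (h0 w) (Ne.symm hne))
      have h2 : P.p w * θ w ≤ P.E θ := Finset.single_le_sum (f := fun w => P.p w * θ w)
        (fun v _ => mul_nonneg (P.nn v) (h0 v)) (Finset.mem_univ w)
      linarith
    rw [← P.E_const 0]
    exact le_of_eq (P.E_congr (fun w hw => by rw [hz w hw, zero_mul]))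
  · have h := (P.tilt h0 hE).I_nonneg X Y N
    rw [P.tilt_I h0 hE hθ] at h
    exact (div_nonneg_iff.1 h).elim (fun h => h.1) (fun h => absurd h.2 (not_le.2 hE))

/-- the density depends on the state only through its partition -/
theorem iota_congr3 (X : Om → κ) (Y : Om → ι) {N : Om → ν} {N' : Om → ν'} (h : Fac N N') (h' : Fac N' N) (w : Om) :
    P.iota X Y N w = P.iota X Y N' w := by
  unfold FP.iota
  rw [P.m_congr h h', P.m_congr (X := fun v => (X v, Y v, N v)) (Y := fun v => (X v, Y v, N' v)),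
    P.m_congr (X := fun v => (X v, N v)) (Y := fun v => (X v, N' v)),
    P.m_congr (X := fun v => (Y v, N v)) (Y := fun v => (Y v, N' v))]
  all_goals intro v w hv; simp only [Prod.mk.injEq] at hv ⊢
  · exact ⟨hv.1, h v w hv.2⟩
  · exact ⟨hv.1, h' v w hv.2⟩
  · exact ⟨hv.1, h v w hv.2⟩
  · exact ⟨hv.1, h' v w hv.2⟩
  · exact ⟨hv.1, hv.2.1, h v w hv.2.2⟩
  · exact ⟨hv.1, hv.2.1, h' v w hv.2.2⟩

/-- change of the first map, given the state -/
theorem iota_swap_congr {D : Om → κ} {D' : Om → κ'} (X : Om → ι) {N : Om → ν}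
    (h : Fac (fun v => (D v, N v)) D') (h' : Fac (fun v => (D' v, N v)) D) (w : Om) :
    P.iota D X N w = P.iota X D' N w := by
  unfold FP.iota
  rw [P.m_congr (X := fun v => (D v, X v, N v)) (Y := fun v => (X v, D' v, N v)),
    P.m_congr (X := fun v => (D v, N v)) (Y := fun v => (D' v, N v)),
    mul_comm (P.m (fun v => (D' v, N v)) w)]
  all_goals intro v w hv; simp only [Prod.mk.injEq] at hv ⊢
  · exact ⟨h v w (by simp only [Prod.mk.injEq]; exact hv), hv.2⟩
  · exact ⟨h' v w (by simp only [Prod.mk.injEq]; exact hv), hv.2⟩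
  · exact ⟨hv.2.1, h v w (by simp only [Prod.mk.injEq]; exact ⟨hv.1, hv.2.2⟩), hv.2.2⟩
  · exact ⟨h' v w (by simp only [Prod.mk.injEq]; exact ⟨hv.2.1, hv.2.2⟩), hv.1, hv.2.2⟩

end general

section boxes

variable {X β γ ι φ : Type*} [Fintype X] [Fintype β] [Fintype γ] [Fintype φ] {D : Dat X β γ ι φ}
  {V : ℕ → X → β → γ → Finset X}

open Classical in
/-- half step class -/
def hlf (D : Dat X β γ ι φ) (V : ℕ → X → β → γ → Finset X) (t : ℕ) (x : X) (b : β) (c : γ) : Finset X :=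
  (V t x b c).filter fun y => D.qa (t + 1) y = D.qa (t + 1) x

theorem mem_hlf {t : ℕ} {x : X} {b : β} {c : γ} {y : X} :
    y ∈ hlf D V t x b c ↔ y ∈ V t x b c ∧ D.qa (t + 1) y = D.qa (t + 1) x := by
  classical
  simp only [hlf, mem_filter]

/-- box of the class with the cells of the time `s ≥ t` -/
def bxA (hV : RefCl D V) (t s : ℕ) (hs : t ≤ s) : Bx X β γ where
  V := V t
  B := fun _ b _ => D.cB s b
  C := fun _ _ c => D.cC s c
  sV := hV.self t
  sB := fun _ b _ => D.self_cB s b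
  sC := fun _ _ c => D.self_cC s c
  inv := fun x b c x' b' c' hx hb hc =>
    ⟨hV.pub t x b c x' b' c' ⟨(D.mem_cA.1 (hV.cell t x b c hx)).symm, (D.qb_le hs (D.mem_cB.1 hb)).symm,
      (D.qc_le hs (D.mem_cC.1 hc)).symm⟩ hx, D.cB_congr (D.mem_cB.1 hb), D.cC_congr (D.mem_cC.1 hc)⟩

/-- box of the half step class with the cells of the time `s ≥ t` -/
def bxB (hV : RefCl D V) (t s : ℕ) (hs : t ≤ s) : Bx X β γ where
  V := hlf D V t
  B := fun _ b _ => D.cB s b
  C := fun _ _ c => D.cC s c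
  sV := fun x b c => mem_hlf.2 ⟨hV.self t x b c, rfl⟩
  sB := fun _ b _ => D.self_cB s b
  sC := fun _ _ c => D.self_cC s c
  inv := fun x b c x' b' c' hx hb hc => by
    refine ⟨?_, D.cB_congr (D.mem_cB.1 hb), D.cC_congr (D.mem_cC.1 hc)⟩
    have h1 := mem_hlf.1 hx
    have e := hV.pub t x b c x' b' c' ⟨(D.mem_cA.1 (hV.cell t x b c h1.1)).symm,
      (D.qb_le hs (D.mem_cB.1 hb)).symm, (D.qc_le hs (D.mem_cC.1 hc)).symm⟩ h1.1
    ext y
    rw [mem_hlf, mem_hlf, e, h1.2]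

/-- class and cells of the time `t` -/
def bxU (hV : RefCl D V) (t : ℕ) : Bx X β γ := bxA hV t t le_rfl

/-- half step class with the cells of the time `t` -/
def bxh (hV : RefCl D V) (t : ℕ) : Bx X β γ := bxB hV t t le_rfl

/-- half step class with the cells of the time `t+1` -/
def bxH (hV : RefCl D V) (t : ℕ) : Bx X β γ := bxB hV t (t + 1) (Nat.le_succ t)

theorem bxh_sub (hV : RefCl D V) (t : ℕ) : (bxh hV t).Sub (bxU hV t) :=
  ⟨fun _ _ _ _ hy => (mem_hlf.1 hy).1, fun _ _ _ => rfl, fun _ _ _ => rfl⟩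

theorem bxU_sub (hV : RefCl D V) (t : ℕ) : (bxU hV (t + 1)).Sub (bxH hV t) :=
  ⟨fun x b c _ hy => mem_hlf.2 ⟨hV.ref t x b c hy, D.mem_cA.1 (hV.cell (t + 1) x b c hy)⟩,
    fun _ _ _ => rfl, fun _ _ _ => rfl⟩

variable {al : ℝ}

theorem bxA_ok (T : D.Thick al) (hV : RefCl D V) (t s r : ℕ) (hs : t ≤ s) (hr : r ≤ s) :
    (bxA hV t s hs).Ok (D.kp T r) :=
  ⟨fun _ b c c' y hc => D.kf_c r y b c' c (D.qc_le hr (D.mem_cC.1 hc)),
    fun _ b b' c y hb => D.kg_b r y b' b c (D.qb_le hr (D.mem_cB.1 hb))⟩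

theorem bxB_ok (T : D.Thick al) (hV : RefCl D V) (t s r : ℕ) (hs : t ≤ s) (hr : r ≤ s) :
    (bxB hV t s hs).Ok (D.kp T r) :=
  ⟨fun _ b c c' y hc => D.kf_c r y b c' c (D.qc_le hr (D.mem_cC.1 hc)),
    fun _ b b' c y hb => D.kg_b r y b' b c (D.qb_le hr (D.mem_cB.1 hb))⟩

/-! ## data processing for the update of the labels -/

variable [Nonempty X] [Nonempty β] [Nonempty γ]

/-- mutual information of the two labels on a class -/
def mi (k : KP X β γ φ) (V : Finset X) (b : β) (c : γ) : ℝ :=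
  ∑ F, ∑ G, avg V (fun x => k.f x b c F * k.g x b c G) * io k V b c F G

theorem E_io (k : KP X β γ φ) {W : X → β → γ → Finset X} (hW : PV W) :
    (E3 fun x b c => ∑ F, ∑ G, k.f x b c F * k.g x b c G * io k (W x b c) b c F G) =
      E3 fun x b c => mi k (W x b c) b c := by
  rw [E3_mean hW]
  refine E3_congr fun x b c => ?_
  have h1 : ∀ x' ∈ W x b c, (∑ F, ∑ G, k.f x' b c F * k.g x' b c G * io k (W x' b c) b c F G) =
      ∑ F, ∑ G, k.f x' b c F * k.g x' b c G * io k (W x b c) b c F G := by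
    intro x' hx'
    rw [(hW b c).pub x x' hx']
  unfold avg
  rw [Finset.sum_congr rfl h1]
  unfold mi avg
  rw [Finset.sum_comm, Finset.sum_div]
  refine Finset.sum_congr rfl fun F _ => ?_
  rw [Finset.sum_comm, Finset.sum_div]
  refine Finset.sum_congr rfl fun G _ => ?_
  rw [← Finset.sum_mul]
  ring

theorem mi_le (k k' : KP X β γ φ) {W : Finset X} (hne : W.Nonempty) (b : β) (c : γ) (p q : φ → φ)
    (hp : ∀ y ∈ W, ∀ F, k.f y b c F = ∑ F', ind (p F' = F) * k'.f y b c F')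
    (hq : ∀ y ∈ W, ∀ G, k.g y b c G = ∑ G', ind (q G' = G) * k'.g y b c G') :
    mi k W b c ≤ mi k' W b c := by
  classical
  have hc : (0 : ℝ) < W.card := by exact_mod_cast hne.card_pos
  set J' : φ × φ → ℝ := fun w => avg W (fun x => k'.f x b c w.1 * k'.g x b c w.2) with hJ'
  set Q' : φ × φ → ℝ := fun w => law W (fun x => k'.f x b c) w.1 * law W (fun x => k'.g x b c) w.2 with hQ'
  have lf0 : ∀ F, 0 ≤ law W (fun x => k'.f x b c) F := fun F =>
    div_nonneg (Finset.sum_nonneg fun x _ => k'.f_nn _ _ _ _) hc.le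
  have lg0 : ∀ F, 0 ≤ law W (fun x => k'.g x b c) F := fun F =>
    div_nonneg (Finset.sum_nonneg fun x _ => k'.g_nn _ _ _ _) hc.le
  have hJ0 : ∀ w, 0 ≤ J' w := fun w =>
    div_nonneg (Finset.sum_nonneg fun x _ => mul_nonneg (k'.f_nn _ _ _ _) (k'.g_nn _ _ _ _)) hc.le
  have hQ0 : ∀ w, 0 ≤ Q' w := fun w => mul_nonneg (lf0 _) (lg0 _)
  have hJQ : ∀ w, J' w ≠ 0 → 0 < Q' w := by
    intro w hw
    obtain ⟨x, hx, hx0⟩ : ∃ x ∈ W, k'.f x b c w.1 * k'.g x b c w.2 ≠ 0 := by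
      by_contra hcon
      push Not at hcon
      apply hw
      show (∑ x ∈ W, k'.f x b c w.1 * k'.g x b c w.2) / (W.card : ℝ) = 0
      rw [Finset.sum_eq_zero hcon, zero_div]
    have h1 : 0 < k'.f x b c w.1 := lt_of_le_of_ne (k'.f_nn _ _ _ _) (Ne.symm (left_ne_zero_of_mul hx0))
    have h2 : 0 < k'.g x b c w.2 := lt_of_le_of_ne (k'.g_nn _ _ _ _) (Ne.symm (right_ne_zero_of_mul hx0))
    refine mul_pos ?_ ?_
    · exact div_pos (lt_of_lt_of_le h1 (Finset.single_le_sum (f := fun x => k'.f x b c w.1)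
        (fun x _ => k'.f_nn _ _ _ _) hx)) hc
    · exact div_pos (lt_of_lt_of_le h2 (Finset.single_le_sum (f := fun x => k'.g x b c w.2)
        (fun x _ => k'.g_nn _ _ _ _) hx)) hc
  have h := klf_map_le (fun w : φ × φ => (p w.1, q w.2)) hJ0 hQ0 hJQ
  have e1 : ∀ F G, (∑ w : φ × φ, if (p w.1, q w.2) = (F, G) then J' w else 0) =
      avg W (fun x => k.f x b c F * k.g x b c G) := by
    intro F G
    rw [Fintype.sum_prod_type]
    show (∑ F', ∑ G', if (p F', q G') = (F, G) then (∑ x ∈ W, k'.f x b c F' * k'.g x b c G') / (W.card : ℝ)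
      else 0) = (∑ x ∈ W, k.f x b c F * k.g x b c G) / (W.card : ℝ)
    have h1 : ∀ F' G', (if (p F', q G') = (F, G) then (∑ x ∈ W, k'.f x b c F' * k'.g x b c G') / (W.card : ℝ)
        else 0) = ∑ x ∈ W, (ind (p F' = F) * k'.f x b c F') * (ind (q G' = G) * k'.g x b c G') / (W.card : ℝ) := by
      intro F' G'
      by_cases hF : p F' = F
      · by_cases hG : q G' = G
        · rw [if_pos (by rw [hF, hG]), ind_of hF, ind_of hG]
          simp only [one_mul]
          rw [Finset.sum_div]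
        · rw [if_neg (fun h => hG (congrArg Prod.snd h)), ind_not hG]
          simp
      · rw [if_neg (fun h => hF (congrArg Prod.fst h)), ind_not hF]
        simp
    rw [Finset.sum_congr rfl fun F' _ => Finset.sum_congr rfl fun G' _ => h1 F' G']
    have h2 : ∀ F', (∑ G', ∑ x ∈ W, (ind (p F' = F) * k'.f x b c F') * (ind (q G' = G) * k'.g x b c G') /
        (W.card : ℝ)) = ∑ x ∈ W, (ind (p F' = F) * k'.f x b c F') * k.g x b c G / (W.card : ℝ) := by
      intro F'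
      rw [Finset.sum_comm]
      refine Finset.sum_congr rfl fun x hx => ?_
      rw [hq x hx G, ← Finset.sum_div, ← Finset.mul_sum]
    rw [Finset.sum_congr rfl fun F' _ => h2 F', Finset.sum_comm, Finset.sum_div]
    refine Finset.sum_congr rfl fun x hx => ?_
    rw [← Finset.sum_div, ← Finset.sum_mul, ← hp x hx F]
  have e2 : ∀ F G, (∑ w : φ × φ, if (p w.1, q w.2) = (F, G) then Q' w else 0) =
      law W (fun x => k.f x b c) F * law W (fun x => k.g x b c) G := by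
    intro F G
    rw [Fintype.sum_prod_type]
    have h1 : ∀ F' G', (if (p F', q G') = (F, G) then Q' (F', G') else 0) =
        (ind (p F' = F) * law W (fun x => k'.f x b c) F') * (ind (q G' = G) * law W (fun x => k'.g x b c) G') := by
      intro F' G'
      by_cases hF : p F' = F
      · by_cases hG : q G' = G
        · rw [if_pos (by rw [hF, hG]), ind_of hF, ind_of hG, one_mul, one_mul]
        · rw [if_neg (fun h => hG (congrArg Prod.snd h)), ind_not hG, zero_mul, mul_zero]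
      · rw [if_neg (fun h => hF (congrArg Prod.fst h)), ind_not hF, zero_mul, zero_mul]
    rw [Finset.sum_congr rfl fun F' _ => Finset.sum_congr rfl fun G' _ => h1 F' G']
    simp only [← Finset.mul_sum, ← Finset.sum_mul]
    have a1 : (∑ F', ind (p F' = F) * law W (fun x => k'.f x b c) F') = law W (fun x => k.f x b c) F := by
      show (∑ F', ind (p F' = F) * ((∑ x ∈ W, k'.f x b c F') / (W.card : ℝ))) =
        (∑ x ∈ W, k.f x b c F) / (W.card : ℝ)
      rw [Finset.sum_congr rfl fun x hx => hp x hx F, Finset.sum_comm, Finset.sum_div]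
      refine Finset.sum_congr rfl fun F' _ => ?_
      rw [← Finset.mul_sum, mul_div_assoc]
    have a2 : (∑ G', ind (q G' = G) * law W (fun x => k'.g x b c) G') = law W (fun x => k.g x b c) G := by
      show (∑ G', ind (q G' = G) * ((∑ x ∈ W, k'.g x b c G') / (W.card : ℝ))) =
        (∑ x ∈ W, k.g x b c G) / (W.card : ℝ)
      rw [Finset.sum_congr rfl fun x hx => hq x hx G, Finset.sum_comm, Finset.sum_div]
      refine Finset.sum_congr rfl fun G' _ => ?_
      rw [← Finset.mul_sum, mul_div_assoc]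
    rw [a1, a2]
  rw [Fintype.sum_prod_type, Fintype.sum_prod_type] at h
  simp only [e1, e2] at h
  exact h

theorem E_eq_io (k : KP X β γ φ) (N : Bx X β γ) (hN : N.Ok k) : k.P.E (k.P.iota xF xG N.map) =
    E3 fun x b c => ∑ F, ∑ G, k.f x b c F * k.g x b c G * io k (N.V x b c) b c F G := by
  rw [k.E_eq]
  refine E3_congr fun x b c => Finset.sum_congr rfl fun F _ => Finset.sum_congr rfl fun G _ => ?_
  rw [iota_FG k hN]

/-- one label update: the mutual information increases -/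
theorem dpi_step (k k' : KP X β γ φ) (N : Bx X β γ) (hN : N.Ok k) (hN' : N.Ok k') (hP : PV N.V) (p q : φ → φ)
    (hp : ∀ x b c F, k.f x b c F = ∑ F', ind (p F' = F) * k'.f x b c F')
    (hq : ∀ x b c G, k.g x b c G = ∑ G', ind (q G' = G) * k'.g x b c G') :
    k.P.E (k.P.iota xF xG N.map) ≤ k'.P.E (k'.P.iota xF xG N.map) := by
  have e : ∀ (l : KP X β γ φ), N.Ok l → l.P.E (l.P.iota xF xG N.map) = E3 fun x b c => mi l (N.V x b c) b c := by
    intro l hl
    rw [← E_io l hP, ← E_eq_io l N hl]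
  rw [e k hN, e k' hN']
  refine E3_mono fun x b c => ?_
  exact mi_le k k' ⟨x, N.sV x b c⟩ b c p q (fun y _ F => hp y b c F) (fun y _ G => hq y b c G)

end boxes

/-! ## the sum -/

section main

variable {X β γ ι φ : Type*} [Fintype X] [Fintype β] [Fintype γ] [Fintype φ] [Nonempty X] [Nonempty β] [Nonempty γ]
  {D : Dat X β γ ι φ} {V : ℕ → X → β → γ → Finset X} {al : ℝ}

/-- mean of the digit in the state of the time `t` -/
def mS (T : D.Thick al) (hV : RefCl D V) (dg : ℕ → X → ℝ) (t : ℕ) (w : Sp X β γ φ) : ℝ :=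
  (D.kp T t).P.ce (bxU hV t).map (fun v => dg t v.1) w

/-- loss at the bad digits -/
def lossD (T : D.Thick al) (hV : RefCl D V) (dg : ℕ → X → ℝ) (B : ℝ) (Tb : ℕ → Sp X β γ φ → Prop) (t : ℕ) : ℝ :=
  (D.kp T t).P.E (fun w => (1 - ind (|mS T hV dg t w| ≤ 1 / 2)) *
    (ind (Tb t w ∨ (B < (D.kp T t).P.rt xF (bxU hV t).map (bxh hV t).map w ((bxh hV t).map w) ∧
      B < (D.kp T t).P.rt xG (bxU hV t).map (bxh hV t).map w ((bxh hV t).map w))) *
      (D.kp T t).P.iota xF xG (bxU hV t).map w))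

/-- loss at the next classes (old labels) -/
def lossC (T : D.Thick al) (hV : RefCl D V) (θ : ℕ → Sp X β γ φ → ℝ) (B : ℝ) (Tc : ℕ → Sp X β γ φ → Prop)
    (t : ℕ) : ℝ :=
  (D.kp T t).P.E (fun w => θ t w *
    (ind (Tc t w ∨ (B < (D.kp T t).P.rt xF (bxH hV t).map (bxU hV (t + 1)).map w ((bxU hV (t + 1)).map w) ∧
      B < (D.kp T t).P.rt xG (bxH hV t).map (bxU hV (t + 1)).map w ((bxU hV (t + 1)).map w))) *
      (D.kp T t).P.iota xF xG (bxH hV t).map w))

/-- loss at the half step states of small weight -/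
def lossT (T : D.Thick al) (hV : RefCl D V) (θ : ℕ → Sp X β γ φ → ℝ) (t : ℕ) : ℝ :=
  (D.kp T t).P.E (fun w => (1 - θ t w) * (D.kp T t).P.iota xF xG (bxH hV t).map w)

/-- gain of the digit -/
def gainD (T : D.Thick al) (hV : RefCl D V) (t : ℕ) : ℝ :=
  (D.kp T t).P.E ((D.kp T t).P.iota xF (bxh hV t).map (bxU hV t).map) +
    (D.kp T t).P.E ((D.kp T t).P.iota xG (bxh hV t).map (bxU hV t).map)

/-- gain of the next classes (old labels) -/
def gainC (T : D.Thick al) (hV : RefCl D V) (t : ℕ) : ℝ :=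
  (D.kp T t).P.E ((D.kp T t).P.iota xF (bxU hV (t + 1)).map (bxH hV t).map) +
    (D.kp T t).P.E ((D.kp T t).P.iota xG (bxU hV (t + 1)).map (bxH hV t).map)

theorem ind_ne {p : Prop} (h : ind p ≠ 0) : p := by
  by_contra hn
  exact h (ind_not hn)

/-- one step -/
theorem step_harm (T : D.Thick al) (hV : RefCl D V) {dg : ℕ → X → ℝ} {t : ℕ} {p q : φ → φ}
    (hdg : ∀ x, dg t x = 1 ∨ dg t x = -1)
    (hcell : ∀ x x', D.qa (t + 1) x = D.qa (t + 1) x' ↔ D.qa t x = D.qa t x' ∧ dg t x = dg t x')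
    (hp : ∀ x b c F, D.kf t x b c F = ∑ F', ind (p F' = F) * D.kf (t + 1) x b c F')
    (hq : ∀ x b c G, D.kg t x b c G = ∑ G', ind (q G' = G) * D.kg (t + 1) x b c G')
    {θ : ℕ → Sp X β γ φ → ℝ} (hθ : Fac (bxH hV t).map (θ t)) (hθ0 : ∀ w, 0 ≤ θ t w) (hθ1 : ∀ w, θ t w ≤ 1)
    {B d1 d2 : ℝ} (hB : Real.exp 2 ≤ B) (hd1 : 0 ≤ d1) (hd2 : 0 ≤ d2)
    (c1 : ∀ w, (D.kp T t).P.p w ≠ 0 → (D.kp T t).P.hel xF (bxU hV t).map xG w ≤ d1)
    (c1' : ∀ w, (D.kp T t).P.p w ≠ 0 → (D.kp T t).P.hel xG (bxU hV t).map xF w ≤ d1)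
    (c2 : ∀ w, (D.kp T t).P.p w ≠ 0 → θ t w ≠ 0 → (D.kp T t).P.hel xF (bxH hV t).map xG w ≤ d2)
    (c2' : ∀ w, (D.kp T t).P.p w ≠ 0 → θ t w ≠ 0 → (D.kp T t).P.hel xG (bxH hV t).map xF w ≤ d2)
    {Tb Tc : ℕ → Sp X β γ φ → Prop}
    (hTb : ∀ u v, (bxh hV t).map u = (bxh hV t).map v → (Tb t u ↔ Tb t v))
    (hTc : ∀ u v, (bxU hV (t + 1)).map u = (bxU hV (t + 1)).map v → (Tc t u ↔ Tc t v)) :
    (D.kp T t).P.E (fun w => ind (|mS T hV dg t w| ≤ 1 / 2) *
        (D.kp T t).P.pres (fun v => dg t v.1) xF xG (bxU hV t).map w ^ 2) ≤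
      2 * ((D.kp T (t + 1)).P.E ((D.kp T (t + 1)).P.iota xF xG (bxU hV (t + 1)).map) -
        (D.kp T t).P.E ((D.kp T t).P.iota xF xG (bxU hV t).map) +
        (lossD T hV dg B Tb t + lossC T hV θ B Tc t + lossT T hV θ t) +
        2 * B * (kd d1 * gainD T hV t + kd d2 * gainC T hV t)) := by
  set P := (D.kp T t).P with hP
  set N : Sp X β γ φ → Finset X × Finset β × Finset γ := (bxU hV t).map with hN
  set h : Sp X β γ φ → Finset X × Finset β × Finset γ := (bxh hV t).map with hh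
  set H : Sp X β γ φ → Finset X × Finset β × Finset γ := (bxH hV t).map with hH
  set Z : Sp X β γ φ → Finset X × Finset β × Finset γ := (bxU hV (t + 1)).map with hZ
  set Dg : Sp X β γ φ → ℝ := fun v => dg t v.1 with hDg
  have okN : (bxU hV t).Ok (D.kp T t) := bxA_ok T hV t t t le_rfl le_rfl
  have okh : (bxh hV t).Ok (D.kp T t) := bxB_ok T hV t t t le_rfl le_rfl
  have okH : (bxH hV t).Ok (D.kp T t) := bxB_ok T hV t (t + 1) t (Nat.le_succ t) (Nat.le_succ t)
  have okZ : (bxU hV (t + 1)).Ok (D.kp T t) := bxA_ok T hV (t + 1) (t + 1) t le_rfl (Nat.le_succ t)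
  have okZ' : (bxU hV (t + 1)).Ok (D.kp T (t + 1)) := bxA_ok T hV (t + 1) (t + 1) (t + 1) le_rfl le_rfl
  have hB0 : 0 ≤ B := (Real.exp_pos 2).le.trans hB
  have hB1 : 1 ≤ B := (Real.one_le_exp (by norm_num)).trans hB
  have hhN : Fac h N := (bxh_sub hV t).fac
  have hZH : Fac Z H := (bxU_sub hV t).fac
  -- the partitions
  have fDh : Fac (fun u => (Dg u, N u)) h := by
    intro v w hvw
    simp only [Prod.mk.injEq] at hvw
    have h1 := Bx.map_eq.1 hvw.2
    refine Bx.map_eq.2 ⟨?_, h1.2.1, h1.2.2⟩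
    refine mem_hlf.2 ⟨h1.1, (hcell _ _).2 ⟨D.mem_cA.1 (hV.cell t _ _ _ h1.1), hvw.1⟩⟩
  have fhD : Fac h Dg := by
    intro v w hvw
    have h1 := Bx.map_eq.1 hvw
    exact ((hcell _ _).1 (mem_hlf.1 h1.1).2).2
  have fhDN : Fac h (fun u => (Dg u, N u)) := fhD.prod hhN
  -- weights
  set θ1 : Sp X β γ φ → ℝ := fun w => ind (|P.ce N Dg w| ≤ 1 / 2) with hθ1d
  have hmS : ∀ w, mS T hV dg t w = P.ce N Dg w := fun w => rfl
  have F1 : Fac N θ1 := Fac.ind (fun v w hvw => by rw [P.ce_fac N Dg v w hvw])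
  have F1' : Fac N (fun w => 1 - θ1 w) := F1.comp (fun x => 1 - x)
  have F1h : Fac h θ1 := hhN.trans F1
  have F1h' : Fac h (fun w => 1 - θ1 w) := hhN.trans F1'
  have h1nn : ∀ w, 0 ≤ θ1 w := fun w => ind_nonneg _
  have h1nn' : ∀ w, 0 ≤ 1 - θ1 w := fun w => by have := ind_le_one (|P.ce N Dg w| ≤ 1 / 2); simp only [hθ1d]; linarith
  -- (1) the digit
  have e1 := P.digit_w (D := Dg) (fun w _ => hdg w.1) xF xG N F1 h1nn hd1
    (fun w _ hne => ind_ne hne) (fun u hu _ => c1 u hu) (fun u hu _ => c1' u hu)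
  -- (2) bad digits
  have e2 := P.key_w xF xG h N F1' (fun w _ => h1nn' w) hB hd1 (fun u hu _ => c1 u hu) (fun u hu _ => c1' u hu)
    (T := Tb t) (fun u v huv => hTb u v (congrArg Prod.fst huv))
  -- (3) next classes
  have e3 := P.key_w xF xG Z H hθ (fun w _ => hθ0 w) hB hd2 c2 c2'
    (T := Tc t) (fun u v huv => hTc u v (congrArg Prod.fst huv))
  -- identities of densities
  have i1 : ∀ w, P.iota xF xG (fun u => (Dg u, N u)) w = P.iota xF xG h w :=
    fun w => iota_congr3 P xF xG fDh fhDN w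
  have i2 : ∀ w, P.iota xF xG (fun u => (h u, N u)) w = P.iota xF xG h w :=
    fun w => iota_congr3 P xF xG (Fac.fst h N) ((Fac.refl h).prod hhN) w
  have i3 : ∀ w, P.iota xF xG h w = P.iota xF xG H w := fun w => by
    rw [hh, hH, hP, iota_FG _ okh, iota_FG _ okH]
    rfl
  have i4 : ∀ w, P.iota xF xG (fun u => (Z u, H u)) w = P.iota xF xG Z w :=
    fun w => iota_congr3 P xF xG (Fac.fst Z H) ((Fac.refl Z).prod hZH) w
  have i5 : ∀ w, P.iota Dg xF N w = P.iota xF h N w :=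
    fun w => iota_swap_congr P xF fDh ((Fac.fst h N).trans fhD) w
  have i6 : ∀ w, P.iota Dg xG N w = P.iota xG h N w :=
    fun w => iota_swap_congr P xG fDh ((Fac.fst h N).trans fhD) w
  simp only [i1, i5, i6] at e1
  simp only [i2] at e2
  simp only [i4] at e3
  -- sums of weighted terms
  have split : ∀ (f : Sp X β γ φ → ℝ) (a : Sp X β γ φ → ℝ),
      P.E f = P.E (fun w => a w * f w) + P.E (fun w => (1 - a w) * f w) := by
    intro f a
    rw [← P.E_add]
    exact P.E_congr (fun w _ => by ring)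
  have s1 := split (P.iota xF xG N) θ1
  have s2 := split (P.iota xF xG h) θ1
  have s3 := split (P.iota xF h N) θ1
  have s4 := split (P.iota xG h N) θ1
  have s5 := split (P.iota xF xG H) (θ t)
  have s6 := split (P.iota xF xG Z) (θ t)
  have s7 := split (P.iota xF Z H) (θ t)
  have s8 := split (P.iota xG Z H) (θ t)
  have n3 := iota_w_nonneg P xF h F1 h1nn
  have n4 := iota_w_nonneg P xG h F1 h1nn
  have n3' := iota_w_nonneg P xF h F1' h1nn'
  have n4' := iota_w_nonneg P xG h F1' h1nn'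
  have hθH' : Fac H (fun w => 1 - θ t w) := hθ.comp (fun x => 1 - x)
  have hθ1' : ∀ w, 0 ≤ 1 - θ t w := fun w => by have := hθ1 w; linarith
  have n7 := iota_w_nonneg P xF Z hθH' hθ1'
  have n8 := iota_w_nonneg P xG Z hθH' hθ1'
  have n6 := iota_w_nonneg P xF xG (hZH.trans hθH') hθ1'
  have i3E : P.E (P.iota xF xG h) = P.E (P.iota xF xG H) := P.E_congr (fun w _ => i3 w)
  -- (4) the update
  have e4 : P.E (P.iota xF xG Z) ≤ (D.kp T (t + 1)).P.E ((D.kp T (t + 1)).P.iota xF xG (bxU hV (t + 1)).map) :=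
    dpi_step (D.kp T t) (D.kp T (t + 1)) (bxU hV (t + 1)) okZ okZ' (hV.pv (t + 1)) p q hp hq
  have k1 := kd_nonneg hd1
  have k2 := kd_nonneg hd2
  have hgD : gainD T hV t = P.E (P.iota xF h N) + P.E (P.iota xG h N) := rfl
  have hgC : gainC T hV t = P.E (P.iota xF Z H) + P.E (P.iota xG Z H) := rfl
  have hlD : lossD T hV dg B Tb t = P.E (fun w => (1 - θ1 w) * (ind (Tb t w ∨ (B < P.rt xF N h w (h w) ∧
    B < P.rt xG N h w (h w))) * P.iota xF xG N w)) := rfl
  have hlC : lossC T hV θ B Tc t = P.E (fun w => θ t w * (ind (Tc t w ∨ (B < P.rt xF H Z w (Z w) ∧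
    B < P.rt xG H Z w (Z w))) * P.iota xF xG H w)) := rfl
  have hlT : lossT T hV θ t = P.E (fun w => (1 - θ t w) * P.iota xF xG H w) := rfl
  have hL : P.E (fun w => ind (|mS T hV dg t w| ≤ 1 / 2) * P.pres Dg xF xG N w ^ 2) =
      P.E (fun w => θ1 w * P.pres Dg xF xG N w ^ 2) := rfl
  rw [hL, hgD, hgC, hlD, hlC, hlT]
  set a1 := P.E (fun w => θ1 w * P.iota xF h N w)
  set a2 := P.E (fun w => θ1 w * P.iota xG h N w)
  set a3 := P.E (fun w => (1 - θ1 w) * P.iota xF h N w)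
  set a4 := P.E (fun w => (1 - θ1 w) * P.iota xG h N w)
  set b1 := P.E (fun w => θ t w * P.iota xF Z H w)
  set b2 := P.E (fun w => θ t w * P.iota xG Z H w)
  have m1 : 8 / 3 * kd d1 * (a1 + a2) ≤ 4 * B * kd d1 * (a1 + a2) := by
    have : 8 / 3 * kd d1 ≤ 4 * B * kd d1 := by nlinarith
    exact mul_le_mul_of_nonneg_right this (by linarith)
  have m2 : 2 * kd d2 * B * (b1 + b2) ≤ 2 * kd d2 * B * (P.E (P.iota xF Z H) + P.E (P.iota xG Z H)) := by
    refine mul_le_mul_of_nonneg_left ?_ (by positivity)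
    rw [s7, s8]
    linarith
  have m3 : 2 * B * (kd d1 * (P.E (P.iota xF h N) + P.E (P.iota xG h N))) =
      2 * kd d1 * B * (a3 + a4) + 2 * B * kd d1 * (a1 + a2) := by
    rw [s3, s4]
    ring
  have m4 : 2 * B * (kd d1 * (P.E (P.iota xF h N) + P.E (P.iota xG h N)) +
      kd d2 * (P.E (P.iota xF Z H) + P.E (P.iota xG Z H))) =
      2 * B * (kd d1 * (P.E (P.iota xF h N) + P.E (P.iota xG h N))) +
      2 * kd d2 * B * (P.E (P.iota xF Z H) + P.E (P.iota xG Z H)) := by ring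
  rw [m4, m3]
  linarith

/-- **THE SUM** -/
theorem sum_harm (T : D.Thick al) (hV : RefCl D V) {dg : ℕ → X → ℝ} {K : ℕ} {prf prg : ℕ → φ → φ}
    (hdg : ∀ t x, dg t x = 1 ∨ dg t x = -1)
    (hcell : ∀ t < K, ∀ x x', D.qa (t + 1) x = D.qa (t + 1) x' ↔ D.qa t x = D.qa t x' ∧ dg t x = dg t x')
    (hp : ∀ t < K, ∀ x b c F, D.kf t x b c F = ∑ F', ind (prf t F' = F) * D.kf (t + 1) x b c F')
    (hq : ∀ t < K, ∀ x b c G, D.kg t x b c G = ∑ G', ind (prg t G' = G) * D.kg (t + 1) x b c G')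
    {θ : ℕ → Sp X β γ φ → ℝ} (hθ : ∀ t, Fac (bxH hV t).map (θ t)) (hθ0 : ∀ t w, 0 ≤ θ t w)
    (hθ1 : ∀ t w, θ t w ≤ 1)
    {B d1 d2 : ℝ} (hB : Real.exp 2 ≤ B) (hd1 : 0 ≤ d1) (hd2 : 0 ≤ d2)
    (c1 : ∀ t < K, ∀ w, (D.kp T t).P.p w ≠ 0 → (D.kp T t).P.hel xF (bxU hV t).map xG w ≤ d1)
    (c1' : ∀ t < K, ∀ w, (D.kp T t).P.p w ≠ 0 → (D.kp T t).P.hel xG (bxU hV t).map xF w ≤ d1)
    (c2 : ∀ t < K, ∀ w, (D.kp T t).P.p w ≠ 0 → θ t w ≠ 0 → (D.kp T t).P.hel xF (bxH hV t).map xG w ≤ d2)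
    (c2' : ∀ t < K, ∀ w, (D.kp T t).P.p w ≠ 0 → θ t w ≠ 0 → (D.kp T t).P.hel xG (bxH hV t).map xF w ≤ d2)
    {Tb Tc : ℕ → Sp X β γ φ → Prop}
    (hTb : ∀ t u v, (bxh hV t).map u = (bxh hV t).map v → (Tb t u ↔ Tb t v))
    (hTc : ∀ t u v, (bxU hV (t + 1)).map u = (bxU hV (t + 1)).map v → (Tc t u ↔ Tc t v)) :
    ∑ t ∈ range K, (D.kp T t).P.E (fun w => ind (|mS T hV dg t w| ≤ 1 / 2) *
        (D.kp T t).P.pres (fun v => dg t v.1) xF xG (bxU hV t).map w ^ 2) ≤
      2 * ((D.kp T K).P.E ((D.kp T K).P.iota xF xG (bxU hV K).map) +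
        ∑ t ∈ range K, (lossD T hV dg B Tb t + lossC T hV θ B Tc t + lossT T hV θ t) +
        2 * B * (kd d1 * ∑ t ∈ range K, gainD T hV t + kd d2 * ∑ t ∈ range K, gainC T hV t)) := by
  have key : ∀ m ≤ K, ∑ t ∈ range m, (D.kp T t).P.E (fun w => ind (|mS T hV dg t w| ≤ 1 / 2) *
        (D.kp T t).P.pres (fun v => dg t v.1) xF xG (bxU hV t).map w ^ 2) ≤
      2 * ((D.kp T m).P.E ((D.kp T m).P.iota xF xG (bxU hV m).map) -
        (D.kp T 0).P.E ((D.kp T 0).P.iota xF xG (bxU hV 0).map) +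
        ∑ t ∈ range m, (lossD T hV dg B Tb t + lossC T hV θ B Tc t + lossT T hV θ t) +
        2 * B * (kd d1 * ∑ t ∈ range m, gainD T hV t + kd d2 * ∑ t ∈ range m, gainC T hV t)) := by
    intro m hm
    induction m with
    | zero => simp
    | succ m ih =>
      have hmK : m < K := hm
      have h1 := ih hmK.le
      have h2 := step_harm T hV (hdg m) (hcell m hmK) (hp m hmK) (hq m hmK) (hθ m) (hθ0 m) (hθ1 m) hB hd1 hd2
        (c1 m hmK) (c1' m hmK) (c2 m hmK) (c2' m hmK) (hTb m) (hTc m)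
      rw [Finset.sum_range_succ, Finset.sum_range_succ, Finset.sum_range_succ, Finset.sum_range_succ]
      linarith
  have h0 : 0 ≤ (D.kp T 0).P.E ((D.kp T 0).P.iota xF xG (bxU hV 0).map) := by
    rw [FP.E_iota]
    exact FP.I_nonneg _ _ _ _
  have := key K le_rfl
  linarith

end main

end

end Pool.Agent.M3.S3
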