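import Pool.Agent.M3.S3.CntChg

/-!
# M3.S3.UpdOf: the counters of the updates of the labels (helper15)

`updOf D` : number of the times `s < t` at which the kernel changes in the cell; `updOf_ok` : `UpdOk` from the bound (H3)
of the number of changes.
-/

set_option autoImplicit false
set_option linter.unusedSectionVars false

namespace Pool.Agent.M3.S3

open Finset Pool.Agent.PWZ Pool.Agent.M3

noncomputable section

open Classical in
/-- number of the times `s < t` with `p s` -/
def cntP (t : ℕ) (p : ℕ → Prop) : ℕ := ((range t).filter p).card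

theorem cntP_congr {t : ℕ} {p q : ℕ → Prop} (h : ∀ s < t, (p s ↔ q s)) : cntP t p = cntP t q := by
  classical
  unfold cntP
  congr 1
  exact Finset.filter_congr fun s hs => h s (mem_range.1 hs)

theorem cntP_mono (t : ℕ) (p : ℕ → Prop) : cntP t p ≤ cntP (t + 1) p := by
  classical
  unfold cntP
  exact Finset.card_le_card (Finset.filter_subset_filter _ (Finset.range_mono (Nat.le_succ t)))

theorem cntP_sum (K : ℕ) (p : ℕ → Prop) : (cntP K p : ℝ) = ∑ s ∈ range K, ind (p s) := by
  classical
  unfold cntP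
  rw [Finset.card_filter, Nat.cast_sum]
  refine Finset.sum_congr rfl fun s _ => ?_
  by_cases h : p s
  · rw [if_pos h, ind_of h, Nat.cast_one]
  · rw [if_neg h, ind_not h, Nat.cast_zero]

theorem not_of_cntP {t : ℕ} {p : ℕ → Prop} (h : cntP (t + 1) p = cntP t p) : ¬ p t := by
  classical
  intro hp
  unfold cntP at h
  rw [Finset.range_add_one, Finset.filter_insert, if_pos hp, Finset.card_insert_of_notMem (by simp)] at h
  omega

variable {X β γ ι φ : Type*} [Fintype X] [Fintype β] [Fintype γ] [Fintype φ]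

/-- counters of the changes of the kernels -/
def updOf (D : Dat X β γ ι φ) : Upd D where
  cf t x b c := cntP t fun s => ∃ y ∈ D.cA (s + 1) x, D.kf (s + 1) y b c ≠ D.kf s y b c
  cg t x b c := cntP t fun s => ∃ y ∈ D.cA (s + 1) x, D.kg (s + 1) y b c ≠ D.kg s y b c
  cf_q t x x' b c c' hx hc := cntP_congr fun s hs => by
    rw [D.cA_congr (D.qa_le (Nat.succ_le_of_lt hs) hx)]
    refine exists_congr fun y => and_congr_right fun _ => ?_
    rw [D.kf_c (s + 1) y b c c' (D.qc_le (Nat.succ_le_of_lt hs) hc), D.kf_c s y b c c' (D.qc_le hs.le hc)]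
  cg_q t x x' b b' c hx hb := cntP_congr fun s hs => by
    rw [D.cA_congr (D.qa_le (Nat.succ_le_of_lt hs) hx)]
    refine exists_congr fun y => and_congr_right fun _ => ?_
    rw [D.kg_b (s + 1) y b b' c (D.qb_le (Nat.succ_le_of_lt hs) hb), D.kg_b s y b b' c (D.qb_le hs.le hb)]

theorem updOf_ok (D : Dat X β γ ι φ) {K : ℕ} {J : ℝ}
    (hf : ∀ x b c, ∑ t ∈ range K, ind (∃ y ∈ D.cA (t + 1) x, D.kf (t + 1) y b c ≠ D.kf t y b c) ≤ J)
    (hg : ∀ x b c, ∑ t ∈ range K, ind (∃ y ∈ D.cA (t + 1) x, D.kg (t + 1) y b c ≠ D.kg t y b c) ≤ J) :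
    UpdOk D (updOf D) K J where
  f_mono t x b c := cntP_mono t _
  g_mono t x b c := cntP_mono t _
  f_le x b c := (le_of_eq (cntP_sum K _)).trans (hf x b c)
  g_le x b c := (le_of_eq (cntP_sum K _)).trans (hg x b c)
  f_eq t x b c y hy h := by
    by_contra hne
    exact not_of_cntP h ⟨y, D.mem_cA.2 hy, hne⟩
  g_eq t x b c y hy h := by
    by_contra hne
    exact not_of_cntP h ⟨y, D.mem_cA.2 hy, hne⟩

end

end Pool.Agent.M3.S3
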