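import Pool.Agent.M3.S3.V2
import Pool.Agent.M3.S3.UpdOf
import Pool.Agent.M3.S3.Fall
import Pool.Agent.M3.S3.State
import Pool.Agent.M3.S3.StaB
import Pool.Agent.M3.S3.LossDef
import Pool.Agent.M3.S3.SumG
import Pool.Agent.M3.S3.ParA

/-!
# M3.S3.SatAll: every class of the rule `v2` is saturated (helper83), route A

`R = v2 D Up N n Lr`, any counters `Up` with `UpdOk`.
* `SA.NumS` : the numerical hypotheses;
* `SA.sat_all` : `SatS (D.kp T s) (R.U s x b c) (D.cB s b) (D.cC s c) b c (4 * Lr / n)` for all `s x b c`;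
* `SA.thk_cell` : thickness on every subclass of a cell; `SA.sat_half` : the half step states which are not tiny;
* `SA.thn`, `SA.fac_thn` : the weight `theta`; `SA.hel_U`, `SA.hel_H` : the hypotheses of `syn_le`;
* `SA.numS_PA` : `NumS` for the parameters of `ParA`; `SA.sat_PA` : the saturation with `PA.sg`.
-/

set_option autoImplicit false
set_option linter.unusedSectionVars false

namespace Pool.Agent.M3.S3

open Finset Pool.Agent.PWZ Pool.Agent.M3

noncomputable section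

namespace SA

/-- the numerical hypotheses -/
structure NumS (N : Nums) (n Lr al : ℝ) : Prop where
  n0 : 0 < n
  Lr1 : 1 ≤ Lr
  e0 : 0 ≤ N.eps3
  e1 : N.eps3 ≤ 1 / 4
  main : 1 + 4 * N.eps3 + n * (2 * N.eps3 / al + N.kap * Real.log (1 / al)) ≤ 3 * Lr

section card

variable {X : Type*}

open Classical in
/-- two large subsets of `A` -/
theorem inter_large {A F G : Finset X} (hF : F ⊆ A) (hG : G ⊆ A) {e : ℝ} (he1 : 2 * e ≤ 1)
    (h1 : (1 - e) * A.card ≤ F.card) (h2 : (1 - e) * A.card ≤ G.card) :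
    (1 - 2 * e) * F.card ≤ (F ∩ G).card := by
  have h3 : ((F ∪ G).card : ℝ) + (F ∩ G).card = F.card + G.card := by
    exact_mod_cast Finset.card_union_add_card_inter F G
  have h4 : ((F ∪ G).card : ℝ) ≤ A.card := by
    exact_mod_cast Finset.card_le_card (Finset.union_subset hF hG)
  have h5 : (F.card : ℝ) ≤ A.card := by exact_mod_cast Finset.card_le_card hF
  have h6 : (1 - 2 * e) * (F.card : ℝ) ≤ (1 - 2 * e) * A.card := mul_le_mul_of_nonneg_left h5 (by linarith)
  linarith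

end card

section kon

variable {X β γ ι φ : Type*} [Fintype X] [Fintype β] [Fintype γ] [Fintype φ] {D : Dat X β γ ι φ} {al : ℝ}

theorem kon_f (T : D.Thick al) {t s : ℕ} (hts : t ≤ s) {x : X} {R : Finset X} (hR : R ⊆ D.cA s x) (b : β) (c : γ) :
    KOn (fun y => D.kf t y b c) R al :=
  ⟨T.pos, fun y _ F => T.f_nn t y b c F, fun y hy y' hy' F h =>
    T.f_thick t y y' b c F (D.qa_le hts ((D.mem_cA.1 (hR hy)).trans (D.mem_cA.1 (hR hy')).symm)) h,
    fun y _ => T.f_one t y b c⟩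

theorem kon_g (T : D.Thick al) {t s : ℕ} (hts : t ≤ s) {x : X} {R : Finset X} (hR : R ⊆ D.cA s x) (b : β) (c : γ) :
    KOn (fun y => D.kg t y b c) R al :=
  ⟨T.pos, fun y _ F => T.g_nn t y b c F, fun y hy y' hy' F h =>
    T.g_thick t y y' b c F (D.qa_le hts ((D.mem_cA.1 (hR hy)).trans (D.mem_cA.1 (hR hy')).symm)) h,
    fun y _ => T.g_one t y b c⟩

theorem sup_of_kon {k : X → φ → ℝ} {R : Finset X} (h : KOn k R al) : Sup k R :=
  ⟨h.nn, fun x hx x' hx' F hF => h.pos.trans_le (h.thick x hx x' hx' F hF), h.one⟩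

variable {Up : Upd D} {K : ℕ} {J : ℝ}

/-- the label of an owner without update -/
theorem kf_same (hU : UpdOk D Up K J) {t s : ℕ} (hts : t ≤ s) {x y : X} {b : β} {c : γ}
    (hy : D.qa s y = D.qa s x) (h : Up.cf s x b c = Up.cf t x b c) : D.kf s y b c = D.kf t y b c := by
  induction s, hts using Nat.le_induction with
  | base => rfl
  | succ s hs ih =>
    have hmono : ∀ r, t ≤ r → Up.cf t x b c ≤ Up.cf r x b c := by
      intro r hr
      induction r, hr using Nat.le_induction with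
      | base => exact le_rfl
      | succ r _ ihr => exact ihr.trans (hU.f_mono r x b c)
    have h1 := hmono s hs
    have h2 := hU.f_mono s x b c
    rw [hU.f_eq s x b c y hy (by omega)]
    exact ih (D.ra s y x hy) (by omega)

theorem kg_same (hU : UpdOk D Up K J) {t s : ℕ} (hts : t ≤ s) {x y : X} {b : β} {c : γ}
    (hy : D.qa s y = D.qa s x) (h : Up.cg s x b c = Up.cg t x b c) : D.kg s y b c = D.kg t y b c := by
  induction s, hts using Nat.le_induction with
  | base => rfl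
  | succ s hs ih =>
    have hmono : ∀ r, t ≤ r → Up.cg t x b c ≤ Up.cg r x b c := by
      intro r hr
      induction r, hr using Nat.le_induction with
      | base => exact le_rfl
      | succ r _ ihr => exact ihr.trans (hU.g_mono r x b c)
    have h1 := hmono s hs
    have h2 := hU.g_mono s x b c
    rw [hU.g_eq s x b c y hy (by omega)]
    exact ih (D.ra s y x hy) (by omega)

end kon

/-! ## the start class of an epoch -/

section rule

variable {X β γ ι φ : Type*} [Fintype X] {D : Dat X β γ ι φ} (R : Rl D)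

/-- at the start of an epoch the class is a cell of the complete split -/
theorem U_start {s : ℕ} {x : X} {b : β} {c : γ} (h : (R.ep s x b c).t0 = s) :
    ∃ v, R.U s x b c = R.fin s x b c v := by
  cases s with
  | zero =>
    refine ⟨D.cA 0 x, ?_⟩
    unfold Rl.U
    rw [R.om_old (by exact le_rfl)]
    rfl
  | succ s =>
    by_cases hn : R.nw (R.ep s x b c) s x b c
    · exact ⟨_, R.U_new hn⟩
    · rw [R.ep_old hn] at h
      have := R.t0_le s x b c
      omega

/-- inside an epoch there is no new start -/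
theorem kept {s : ℕ} {x : X} {b : β} {c : γ} (h : (R.ep (s + 1) x b c).t0 ≤ s) :
    ¬ R.nw (R.ep s x b c) s x b c := by
  intro hn
  rw [R.ep_new hn] at h
  simp at h

end rule

/-! ## saturation -/

section sat

variable {X β γ ι φ : Type*} [Fintype X] [Fintype β] [Fintype γ] [Fintype φ] {D : Dat X β γ ι φ} {al : ℝ}

/-- from the form of `sat_in` to `SatS` -/
theorem num_sat {N : Nums} {n Lr : ℝ} (hN : NumS N n Lr al) {l : ℝ} (hl : 0 ≤ l) :
    (l + (1 + Lr) + 2 * (2 * N.eps3)) / n + 2 * N.eps3 / al + N.kap * Real.log (1 / al) ≤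
      4 * Lr / n * (l + 1) := by
  have hn := hN.n0
  have h1 := hN.main
  have h2 : (l + (1 + Lr) + 2 * (2 * N.eps3)) / n + 2 * N.eps3 / al + N.kap * Real.log (1 / al) =
      (l + (1 + Lr) + 2 * (2 * N.eps3) + n * (2 * N.eps3 / al + N.kap * Real.log (1 / al))) / n := by
    field_simp
    ring
  rw [h2, div_mul_eq_mul_div, div_le_div_iff_of_pos_right hn]
  have h3 : l ≤ 4 * Lr * l := by nlinarith [hN.Lr1]
  linarith

/-- from the start of the epoch: the constant `1 / n` -/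
theorem num_start {N : Nums} {n Lr : ℝ} (hN : NumS N n Lr al) {l a : ℝ} (hl : 0 ≤ l) (ha : n * a ≤ l + 1) :
    a ≤ 4 * Lr / n * (l + 1) := by
  have hn := hN.n0
  rw [div_mul_eq_mul_div, le_div_iff₀ hn]
  have h3 : l + 1 ≤ 4 * Lr * (l + 1) := by nlinarith [hN.Lr1]
  linarith

theorem log_card_nonneg {S V : Finset X} (hS : S ⊆ V) (hne : S.Nonempty) : 0 ≤ Real.log ((V.card : ℝ) / S.card) := by
  refine Real.log_nonneg ?_
  rw [one_le_div (by exact_mod_cast hne.card_pos)]
  exact_mod_cast Finset.card_le_card hS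

variable {Up : Upd D} {N : Nums} {n Lr : ℝ} {K : ℕ} {J : ℝ}

open Classical in
/-- the owners with an update are rare, first labels -/
theorem few_f {e : Epo X} {s : ℕ} {x : X} {b : β} {c : γ} (h : ¬ S2 Up N e s x b c) :
    (((D.cB (s + 1) b).filter fun b' => Up.cf (s + 1) x b' c ≠ Up.cf e.t0 x b' c).card : ℝ) ≤
      N.kap * (D.cB (s + 1) b).card := by
  have hB : (D.cB (s + 1) b).Nonempty := ⟨b, D.self_cB _ _⟩
  have hC : (D.cC (s + 1) c).Nonempty := ⟨c, D.self_cC _ _⟩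
  have cB : (0 : ℝ) < (D.cB (s + 1) b).card := by exact_mod_cast hB.card_pos
  unfold S2 at h
  push Not at h
  have h1 : avg (D.cB (s + 1) b) (fun b' => ind (Up.cf (s + 1) x b' c ≠ Up.cf e.t0 x b' c)) ≤
      av2 D (s + 1) b c fun b' c' => ind (upd Up e (s + 1) x b c b' c') := by
    refine avg_mono fun b' _ => ?_
    rw [← avg_const hC (ind (Up.cf (s + 1) x b' c ≠ Up.cf e.t0 x b' c))]
    exact avg_mono fun c' _ => ind_mono fun hh => Or.inl hh
  have h2 := h1.trans h.le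
  unfold avg at h2
  rw [div_le_iff₀ cB] at h2
  rw [Finset.card_filter, Nat.cast_sum]
  refine le_trans (le_of_eq (Finset.sum_congr rfl fun b' _ => ?_)) h2
  show _ = ind (Up.cf (s + 1) x b' c ≠ Up.cf e.t0 x b' c)
  by_cases hb : Up.cf (s + 1) x b' c ≠ Up.cf e.t0 x b' c
  · rw [if_pos hb, ind_of hb, Nat.cast_one]
  · rw [if_neg hb, ind_not hb, Nat.cast_zero]

open Classical in
/-- the owners with an update are rare, second labels -/
theorem few_g {e : Epo X} {s : ℕ} {x : X} {b : β} {c : γ} (h : ¬ S2 Up N e s x b c) :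
    (((D.cC (s + 1) c).filter fun c' => Up.cg (s + 1) x b c' ≠ Up.cg e.t0 x b c').card : ℝ) ≤
      N.kap * (D.cC (s + 1) c).card := by
  have hB : (D.cB (s + 1) b).Nonempty := ⟨b, D.self_cB _ _⟩
  have hC : (D.cC (s + 1) c).Nonempty := ⟨c, D.self_cC _ _⟩
  have cC : (0 : ℝ) < (D.cC (s + 1) c).card := by exact_mod_cast hC.card_pos
  unfold S2 at h
  push Not at h
  have h1 : avg (D.cC (s + 1) c) (fun c' => ind (Up.cg (s + 1) x b c' ≠ Up.cg e.t0 x b c')) ≤
      av2 D (s + 1) b c fun b' c' => ind (upd Up e (s + 1) x b c b' c') := by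
    unfold av2
    rw [← avg_const hB (avg (D.cC (s + 1) c) (fun c' => ind (Up.cg (s + 1) x b c' ≠ Up.cg e.t0 x b c')))]
    exact avg_mono fun b' _ => avg_mono fun c' _ => ind_mono fun hh => Or.inr hh
  have h2 := h1.trans h.le
  unfold avg at h2
  rw [div_le_iff₀ cC] at h2
  rw [Finset.card_filter, Nat.cast_sum]
  refine le_trans (le_of_eq (Finset.sum_congr rfl fun b' _ => ?_)) h2
  show _ = ind (Up.cg (s + 1) x b b' ≠ Up.cg e.t0 x b b')
  by_cases hb : Up.cg (s + 1) x b b' ≠ Up.cg e.t0 x b b'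
  · rw [if_pos hb, ind_of hb, Nat.cast_one]
  · rw [if_neg hb, ind_not hb, Nat.cast_zero]

variable [Nonempty X] [Nonempty β] [Nonempty γ]

/-- saturation at the start of an epoch -/
theorem sat_start (T : D.Thick al) (hN : NumS N n Lr al) {s : ℕ} {x : X} {b : β} {c : γ}
    (h : ((v2 D Up N n Lr).ep s x b c).t0 = s) :
    SatS (D.kp T s) ((v2 D Up N n Lr).U s x b c) (D.cB s b) (D.cC s c) b c (4 * Lr / n) := by
  obtain ⟨v, hv⟩ := U_start (v2 D Up N n Lr) h
  rw [hv, v2_fin]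
  have key : ∀ S ⊆ fblk v (csp n (kfc D s c) (D.cB s b) (kgb D s b) (D.cC s c) v) x, S.Nonempty →
      0 ≤ mkl (kfc D s c) (D.cB s b) S (fblk v (csp n (kfc D s c) (D.cB s b) (kgb D s b) (D.cC s c) v) x) ∧
      0 ≤ mkl (kgb D s b) (D.cC s c) S (fblk v (csp n (kfc D s c) (D.cB s b) (kgb D s b) (D.cC s c) v) x) ∧
      n * (mkl (kfc D s c) (D.cB s b) S (fblk v (csp n (kfc D s c) (D.cB s b) (kgb D s b) (D.cC s c) v) x) +
        mkl (kgb D s b) (D.cC s c) S (fblk v (csp n (kfc D s c) (D.cB s b) (kgb D s b) (D.cC s c) v) x)) ≤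
      Real.log ((fblk v (csp n (kfc D s c) (D.cB s b) (kgb D s b) (D.cC s c) v) x).card / S.card) + 1 := by
    intro S hS hne
    refine ⟨?_, ?_, ?_⟩
    · exact mkl_nn hS hne (fun y _ b' _ F => T.f_nn s y b' c F) (fun y _ b' _ => T.f_one s y b' c)
    · exact mkl_nn hS hne (fun y _ c' _ F => T.g_nn s y b c' F) (fun y _ c' _ => T.g_one s y b c')
    · exact csp_sat n hN.n0.le (fun y _ b' _ F => T.f_nn s y b' c F) (fun y _ c' _ F => T.g_nn s y b c' F)
        (fun y _ b' _ => T.f_one s y b' c) (fun y _ c' _ => T.g_one s y b c') hS hne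
  constructor
  · intro S hS hne
    obtain ⟨h1, h2, h3⟩ := key S hS hne
    refine num_start hN (log_card_nonneg hS hne) (le_trans ?_ h3)
    show n * mkl (kfc D s c) (D.cB s b) S _ ≤ _
    exact mul_le_mul_of_nonneg_left (by linarith) hN.n0.le
  · intro S hS hne
    obtain ⟨h1, h2, h3⟩ := key S hS hne
    refine num_start hN (log_card_nonneg hS hne) (le_trans ?_ h3)
    show n * mkl (kgb D s b) (D.cC s c) S _ ≤ _
    exact mul_le_mul_of_nonneg_left (by linarith) hN.n0.le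

/-- saturation inside an epoch: no survivor test -/
theorem sat_inside (T : D.Thick al) (hU : UpdOk D Up K J) (hN : NumS N n Lr al) {e : Epo X} {s : ℕ} (h0 : e.t0 ≤ s)
    {x : X} {b : β} {c : γ} (h1 : ¬ S1 (v2 D Up N n Lr).toRm N e s x b c) (h2 : ¬ S2 Up N e s x b c) :
    SatS (D.kp T (s + 1)) ((v2 D Up N n Lr).om e (s + 1) x b c) (D.cB (s + 1) b) (D.cC (s + 1) c) b c
      (4 * Lr / n) := by
  classical
  set R := v2 D Up N n Lr with hR
  have h0' : e.t0 ≤ s + 1 := h0.trans (Nat.le_succ s)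
  have hFA : R.KF e (s + 1) x b c ⊆ rs D e (s + 1) x := fun y hy => by
    refine mem_inter.2 ⟨?_, ((R.mem_KF_succ h0).1 hy).1.2⟩
    have := R.KF_sub h0' x b c hy
    rwa [R.KF_old le_rfl] at this
  have hGA : R.KG e (s + 1) x b c ⊆ rs D e (s + 1) x := fun y hy => by
    refine mem_inter.2 ⟨?_, ((R.mem_KG_succ h0).1 hy).1.2⟩
    have := R.KG_sub h0' x b c hy
    rwa [R.KG_old le_rfl] at this
  have hrs : rs D e (s + 1) x ⊆ D.cA (s + 1) x := fun y hy => (mem_inter.1 hy).2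
  unfold S1 at h1
  push Not at h1
  have hom : R.om e (s + 1) x b c = R.KF e (s + 1) x b c ∩ R.KG e (s + 1) x b c := by
    ext y
    rw [R.mem_om, mem_inter]
  have c1 : (1 - 2 * N.eps3) * (R.KF e (s + 1) x b c).card ≤ (R.om e (s + 1) x b c).card := by
    rw [hom]
    exact inter_large hFA hGA (by linarith [hN.e1]) h1.1 h1.2
  have c2 : (1 - 2 * N.eps3) * (R.KG e (s + 1) x b c).card ≤ (R.om e (s + 1) x b c).card := by
    rw [hom, Finset.inter_comm]
    exact inter_large hGA hFA (by linarith [hN.e1]) h1.2 h1.1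
  have omF : R.om e (s + 1) x b c ⊆ R.KF e (s + 1) x b c := fun y hy => ((R.mem_om e).1 hy).1
  have omG : R.om e (s + 1) x b c ⊆ R.KG e (s + 1) x b c := fun y hy => ((R.mem_om e).1 hy).2
  have he : (0 : ℝ) ≤ 2 * N.eps3 := by linarith [hN.e0]
  have he1 : 2 * N.eps3 ≤ (1 : ℝ) / 2 := by linarith [hN.e1]
  have hKF : KF' R.toRm e s x b c ⊆ D.cA (s + 1) x := fun y hy => (mem_inter.1 hy).2
  have hKG : KG' R.toRm e s x b c ⊆ D.cA (s + 1) x := fun y hy => (mem_inter.1 hy).2
  constructor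
  · intro S hS hne
    have hT : S ⊆ mainB (KF' R.toRm e s x b c) (rem n Lr (kfc D e.t0 c) (D.cB (s + 1) b)
        (KF' R.toRm e s x b c)) := by
      rw [← v2_KF h0 x b c]
      exact hS.trans omF
    have hsat := rem_sat_in (n := n) (Lr := Lr) (k := kfc D e.t0 c) (Bs := D.cB (s + 1) b)
      (K := KF' R.toRm e s x b c) (fun b' _ => sup_of_kon (kon_f T h0' hKF b' c)) hN.n0
      (by linarith [hN.Lr1]) hne hT
    rw [← v2_KF h0 x b c] at hsat
    have h3 := sat_in (k := kfc D e.t0 c) (k' := kfc D (s + 1) c) (Bs := D.cB (s + 1) b)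
      (Ch := (D.cB (s + 1) b).filter fun b' => Up.cf (s + 1) x b' c ≠ Up.cf e.t0 x b' c)
      (M := R.KF e (s + 1) x b c) (om := R.om e (s + 1) x b c) (S := S) (al := al) (kap := N.kap) hN.n0 he he1
      (fun b' _ => kon_f T h0' (hFA.trans hrs) b' c)
      (fun b' _ => kon_f T le_rfl ((omF.trans hFA).trans hrs) b' c) ⟨b, D.self_cB _ _⟩ omF c1 (few_f h2)
      (fun b' hb' hch y hy => by
        have h4 : Up.cf (s + 1) x b' c = Up.cf e.t0 x b' c := by
          by_contra hc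
          exact hch (mem_filter.2 ⟨hb', hc⟩)
        exact kf_same hU h0' (D.mem_cA.1 (hrs (hFA (omF hy)))) h4) hS hne hsat
    exact h3.trans (num_sat hN (log_card_nonneg hS hne))
  · intro S hS hne
    have hT : S ⊆ mainB (KG' R.toRm e s x b c) (rem n Lr (kgb D e.t0 b) (D.cC (s + 1) c)
        (KG' R.toRm e s x b c)) := by
      rw [← v2_KG h0 x b c]
      exact hS.trans omG
    have hsat := rem_sat_in (n := n) (Lr := Lr) (k := kgb D e.t0 b) (Bs := D.cC (s + 1) c)
      (K := KG' R.toRm e s x b c) (fun c' _ => sup_of_kon (kon_g T h0' hKG b c')) hN.n0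
      (by linarith [hN.Lr1]) hne hT
    rw [← v2_KG h0 x b c] at hsat
    have h3 := sat_in (k := kgb D e.t0 b) (k' := kgb D (s + 1) b) (Bs := D.cC (s + 1) c)
      (Ch := (D.cC (s + 1) c).filter fun c' => Up.cg (s + 1) x b c' ≠ Up.cg e.t0 x b c')
      (M := R.KG e (s + 1) x b c) (om := R.om e (s + 1) x b c) (S := S) (al := al) (kap := N.kap) hN.n0 he he1
      (fun c' _ => kon_g T h0' (hGA.trans hrs) b c')
      (fun c' _ => kon_g T le_rfl ((omG.trans hGA).trans hrs) b c') ⟨c, D.self_cC _ _⟩ omG c2 (few_g h2)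
      (fun c' hc' hch y hy => by
        have h4 : Up.cg (s + 1) x b c' = Up.cg e.t0 x b c' := by
          by_contra hc
          exact hch (mem_filter.2 ⟨hc', hc⟩)
        exact kg_same hU h0' (D.mem_cA.1 (hrs (hGA (omG hy)))) h4) hS hne hsat
    exact h3.trans (num_sat hN (log_card_nonneg hS hne))

/-- **EVERY CLASS IS SATURATED** -/
theorem sat_all (T : D.Thick al) (hU : UpdOk D Up K J) (hN : NumS N n Lr al) (s : ℕ) (x : X) (b : β) (c : γ) :
    SatS (D.kp T s) ((v2 D Up N n Lr).U s x b c) (D.cB s b) (D.cC s c) b c (4 * Lr / n) := by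
  rcases eq_or_lt_of_le ((v2 D Up N n Lr).t0_le s x b c) with h | h
  · exact sat_start T hN h
  · cases s with
    | zero => omega
    | succ s =>
      have hn := kept (v2 D Up N n Lr) (s := s) (x := x) (b := b) (c := c) (by omega)
      have h0 := (v2 D Up N n Lr).t0_le s x b c
      rw [(v2 D Up N n Lr).U_keep hn]
      unfold Rl.nw at hn
      push Not at hn
      have h2 : ¬ (S1 (v2 D Up N n Lr).toRm N ((v2 D Up N n Lr).ep s x b c) s x b c ∨
          S2 Up N ((v2 D Up N n Lr).ep s x b c) s x b c) := fun hh =>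
        hn.2.2 ((v2_tst.ts _ s x b c h0).2 hh)
      push Not at h2
      exact sat_inside T hU hN h0 h2.1 h2.2

end sat

/-! ## thickness, the half step states, the hypotheses of `syn_le` -/

section hel

variable {X β γ ι φ : Type*} [Fintype X] [Fintype β] [Fintype γ] [Fintype φ] [Nonempty X] [Nonempty β] [Nonempty γ]
  {D : Dat X β γ ι φ} {al : ℝ}

theorem thk_cell (T : D.Thick al) {s t : ℕ} (h : t ≤ s) {x : X} {V : Finset X} (hV : V ⊆ D.cA s x) :
    Thk (D.kp T t) V al :=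
  ⟨T.pos, fun y hy y' hy' b c F hF => (kon_f T h hV b c).thick y hy y' hy' F hF,
    fun y hy y' hy' b c F hF => (kon_g T h hV b c).thick y hy y' hy' F hF⟩

theorem hlf_hcl (R : Rl D) (s : ℕ) (x : X) (b : β) (c : γ) : hlf D R.U s x b c = hcl R s x b c := by
  ext y
  rw [mem_hlf]
  unfold hcl
  rw [R.mem_hc]
  rfl

theorem inB_cell (T : D.Thick al) {s t : ℕ} (h : t ≤ s) (b : β) (c : γ) :
    St.InB (D.kp T t) (D.cB s b) (D.cC s c) b c :=
  ⟨fun b' _ c' hc' y => D.kf_c t y b' c' c (D.qc_le h (D.mem_cC.1 hc')),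
    fun b' hb' c' _ y => D.kg_b t y b' b c' (D.qb_le h (D.mem_cB.1 hb'))⟩

/-- the constant of the half step states -/
def sgH (al sig mu : ℝ) : ℝ := 4 * (2 + Real.log (1 / al)) * sig * (2 * Real.log (1 / mu) + 2)

/-- the half step states which are not tiny -/
theorem sat_half (T : D.Thick al) (R : Rl D) {sig mu : ℝ} (hsig : 0 ≤ sig) (hmu : 0 < mu) {s : ℕ} {x : X} {b : β}
    {c : γ} (hS : SatS (D.kp T s) (R.U s x b c) (D.cB s b) (D.cC s c) b c sig)
    (hB : ((D.cB s b).card : ℝ) ≤ 2 * (D.cB (s + 1) b).card)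
    (hC : ((D.cC s c).card : ℝ) ≤ 2 * (D.cC (s + 1) c).card) (hnt : ntn R mu s x b c) :
    SatS (D.kp T s) (hlf D R.U s x b c) (D.cB (s + 1) b) (D.cC (s + 1) c) b c (sgH al sig mu) := by
  refine St.sat_child hS (thk_cell T le_rfl (R.U_sub s x b c)) (inB_cell T le_rfl b c) hsig
    (fun y hy => (mem_hlf.1 hy).1) (D.cB_mono (Nat.le_succ s) b) (D.cC_mono (Nat.le_succ s) c) hmu ?_ hB hC
    (D.self_cB _ _) (D.self_cC _ _)
  rw [hlf_hcl]
  exact hnt

/-- the weight of the half step states -/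
def thn (R : Rl D) (mu : ℝ) (t : ℕ) (w : Sp X β γ φ) : ℝ := ind (ntn R mu t w.1 w.2.1 w.2.2.1)

theorem thn_nonneg (R : Rl D) (mu : ℝ) (t : ℕ) (w : Sp X β γ φ) : 0 ≤ thn R mu t w := ind_nonneg _

theorem thn_le_one (R : Rl D) (mu : ℝ) (t : ℕ) (w : Sp X β γ φ) : thn R mu t w ≤ 1 := ind_le_one _

/-- `ntn` depends on the half step state only -/
theorem ntn_inv (R : Rl D) (mu : ℝ) {t : ℕ} {x x' : X} {b b' : β} {c c' : γ} (hx : x' ∈ hlf D R.U t x b c)
    (hb : b' ∈ D.cB (t + 1) b) (hc : c' ∈ D.cC (t + 1) c) : ntn R mu t x' b' c' ↔ ntn R mu t x b c := by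
  have h1 := mem_hlf.1 hx
  have hS : D.Same (t + 1) x b c x' b' c' := ⟨h1.2.symm, (D.mem_cB.1 hb).symm, (D.mem_cC.1 hc).symm⟩
  have e1 := (R.pub t (hS.le (Nat.le_succ t)) h1.1).2
  have e2 : hcl R t x' b' c' = hcl R t x b c := by
    rw [← hlf_hcl, ← hlf_hcl]
    ext y
    rw [mem_hlf, mem_hlf, e1, hS.1]
  unfold ntn
  rw [e1, e2]

theorem fac_thn (R : Rl D) (mu : ℝ) (t : ℕ) : Fac (bxH (U_refCl R) t).map (thn (φ := φ) R mu t) := by
  intro v w h
  have h1 := Bx.map_eq.1 h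
  unfold thn
  exact congrArg ind (propext (ntn_inv R mu h1.1 h1.2.1 h1.2.2))

/-- the hypotheses `c1`, `c1'` of `syn_le` -/
theorem hel_U (T : D.Thick al) (R : Rl D) {sig : ℝ} (hsig : 0 ≤ sig)
    (hsat : ∀ s x b c, SatS (D.kp T s) (R.U s x b c) (D.cB s b) (D.cC s c) b c sig) (t : ℕ) (w : Sp X β γ φ)
    (hw : (D.kp T t).P.p w ≠ 0) :
    (D.kp T t).P.hel xF (bxU (U_refCl R) t).map xG w ≤ sig * (Real.log (1 / al) + 1) ∧
      (D.kp T t).P.hel xG (bxU (U_refCl R) t).map xF w ≤ sig * (Real.log (1 / al) + 1) :=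
  hel_le_sat (bxA_ok T (U_refCl R) t t t le_rfl le_rfl) hw hsig (hsat t _ _ _)
    (thk_cell T le_rfl (R.U_sub t _ _ _))

/-- the hypotheses `c2`, `c2'` of `syn_le` -/
theorem hel_H (T : D.Thick al) (R : Rl D) {sig mu : ℝ} (hsig : 0 ≤ sig) (hmu : 0 < mu) (hmu1 : mu ≤ 1)
    (hsat : ∀ s x b c, SatS (D.kp T s) (R.U s x b c) (D.cB s b) (D.cC s c) b c sig) (t : ℕ)
    (hB : ∀ b, ((D.cB t b).card : ℝ) ≤ 2 * (D.cB (t + 1) b).card)
    (hC : ∀ c, ((D.cC t c).card : ℝ) ≤ 2 * (D.cC (t + 1) c).card) (w : Sp X β γ φ)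
    (hw : (D.kp T t).P.p w ≠ 0) (hth : thn R mu t w ≠ 0) :
    (D.kp T t).P.hel xF (bxH (U_refCl R) t).map xG w ≤ sgH al sig mu * (Real.log (1 / al) + 1) ∧
      (D.kp T t).P.hel xG (bxH (U_refCl R) t).map xF w ≤ sgH al sig mu * (Real.log (1 / al) + 1) := by
  have hal : 0 ≤ Real.log (1 / al) := (kon_f T (le_refl t) (R.U_sub t w.1 w.2.1 w.2.2.1) w.2.1 w.2.2.1).log_nonneg
    ⟨_, R.self_U t _ _ _⟩
  have hm : 0 ≤ Real.log (1 / mu) := Real.log_nonneg (by rw [le_div_iff₀ hmu, one_mul]; exact hmu1)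
  have hs0 : 0 ≤ sgH al sig mu := by
    unfold sgH
    positivity
  refine hel_le_sat (bxB_ok T (U_refCl R) t (t + 1) t (Nat.le_succ t) (Nat.le_succ t)) hw hs0
    (sat_half T R hsig hmu (hsat t _ _ _) (hB _) (hC _) (ind_ne hth)) ?_
  exact thk_cell T le_rfl (fun y hy => R.U_sub t w.1 w.2.1 w.2.2.1 (mem_hlf.1 hy).1)

theorem sg_le_sgH {sig mu : ℝ} (hsig : 0 ≤ sig) (hal : 0 ≤ Real.log (1 / al)) (hmu : 0 < mu) (hmu1 : mu ≤ 1) :
    sig ≤ sgH al sig mu := by
  have hm : 0 ≤ Real.log (1 / mu) := Real.log_nonneg (by rw [le_div_iff₀ hmu, one_mul]; exact hmu1)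
  unfold sgH
  have h1 : 1 ≤ 4 * (2 + Real.log (1 / al)) * (2 * Real.log (1 / mu) + 2) := by nlinarith [mul_nonneg hal hm]
  nlinarith [mul_le_mul_of_nonneg_left h1 hsig]

end hel

/-! ## the numbers of `ParA` -/

/-- the numerical hypotheses hold for the parameters of route A -/
theorem numS_PA {Lam n : ℝ} (h : PA.Big Lam n) : NumS (PA.Nm Lam n) n (PA.Lr Lam n) (PA.al Lam) := by
  have hn := h.n_pos
  have hlg := h.lg_ge
  have hal : 0 < PA.al Lam := PA.al_pos
  have hal1 : PA.al Lam ≤ 1 := by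
    unfold PA.al
    rw [Real.exp_le_one_iff]
    linarith [h.Lam1]
  have hn4 : (4 : ℝ) ≤ n := by
    refine le_trans ?_ h.n_ge
    calc (4 : ℝ) = 2 ^ 2 := by norm_num
      _ ≤ 2 ^ 1000000 := pow_le_pow_right₀ (by norm_num) (by norm_num)
  set r := PA.al Lam / n with hr
  have hr0 : 0 < r := div_pos hal hn
  have hr4 : r ≤ 1 / 4 := by
    rw [hr, div_le_div_iff₀ hn (by norm_num)]
    linarith
  have hr1 : r ≤ 1 := hr4.trans (by norm_num)
  have hnr : n * r = PA.al Lam := by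
    rw [hr]
    field_simp
  have hLr : Lam * r ≤ 1 := by
    have h1 : Lam ≤ n := by
      refine h.Lam_le.trans ?_
      calc PA.x n = PA.x n ^ 1 := (pow_one _).symm
        _ ≤ PA.x n ^ 1000 := pow_le_pow_right₀ h.x_ge1 (by norm_num)
        _ = n := h.n_eq
    have h2 : Lam * r ≤ n * r := mul_le_mul_of_nonneg_right h1 hr0.le
    rw [hnr] at h2
    exact h2.trans hal1
  have he3 : (PA.Nm Lam n).eps3 = r ^ 12 := rfl
  have hkap : (PA.Nm Lam n).kap = r ^ 20 := rfl
  have p12 : r ^ 12 ≤ r := by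
    calc r ^ 12 ≤ r ^ 1 := pow_le_pow_of_le_one hr0.le hr1 (by norm_num)
      _ = r := pow_one r
  have p11 : r ^ 11 ≤ 1 := pow_le_one₀ hr0.le hr1
  have p18 : r ^ 18 ≤ 1 := pow_le_one₀ hr0.le hr1
  refine ⟨hn, ?_, ?_, ?_, ?_⟩
  · unfold PA.Lr
    linarith
  · rw [he3]
    positivity
  · rw [he3]
    linarith
  · rw [he3, hkap, PA.log_al]
    have e1 : n * (2 * r ^ 12 / PA.al Lam + r ^ 20 * Lam) = 2 * r ^ 11 + PA.al Lam * ((Lam * r) * r ^ 18) := by
      have e2 : n * (2 * r ^ 12 / PA.al Lam) = 2 * r ^ 11 := by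
        rw [← hnr]
        field_simp
      have e3 : n * (r ^ 20 * Lam) = PA.al Lam * ((Lam * r) * r ^ 18) := by
        rw [← hnr]
        ring
      rw [mul_add, e2, e3]
    rw [e1]
    have h3 : (Lam * r) * r ^ 18 ≤ 1 := by
      have h4 : 0 ≤ Lam * r := mul_nonneg (by linarith [h.Lam1]) hr0.le
      exact mul_le_one₀ hLr (by positivity) p18
    have h5 : PA.al Lam * ((Lam * r) * r ^ 18) ≤ 1 := by
      have h4 : 0 ≤ Lam * r := mul_nonneg (by linarith [h.Lam1]) hr0.le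
      exact mul_le_one₀ hal1 (by positivity) h3
    unfold PA.Lr
    linarith

/-- **EVERY CLASS IS SATURATED**, parameters of route A -/
theorem sat_PA {X β γ ι φ : Type*} [Fintype X] [Fintype β] [Fintype γ] [Fintype φ] [Nonempty X] [Nonempty β]
    [Nonempty γ] {D : Dat X β γ ι φ} {Up : Upd D} {K : ℕ} {J : ℝ} {Lam n : ℝ} (h : PA.Big Lam n)
    (T : D.Thick (PA.al Lam)) (hU : UpdOk D Up K J) (s : ℕ) (x : X) (b : β) (c : γ) :
    SatS (D.kp T s) ((v2 D Up (PA.Nm Lam n) n (PA.Lr Lam n)).U s x b c) (D.cB s b) (D.cC s c) b c (PA.sg Lam n) :=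
  sat_all T hU (numS_PA h) s x b c

end SA

end

end Pool.Agent.M3.S3
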