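import Pool.Agent.M3.S3.NumA
import Pool.Agent.M3.S3.SatAll

/-!
# M3.S3.NumDef: the constant of the half step states of route A (helper60)
-/

set_option autoImplicit false

namespace Pool.Agent.M3.S3

noncomputable section

namespace PA

theorem sgH_eq {Lam n : ℝ} : SA.sgH (al Lam) (sg Lam n) (mu Lam n) = sgh Lam n := by
  unfold SA.sgH sgh
  rw [log_al, log_inv_mu]

end PA

end

end Pool.Agent.M3.S3
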