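import Pool.Agent.M3.S3.ParA
import Pool.Agent.M3.S3.Cost

/-!
# M3.S3.NumN : the numeric side conditions of route A, for the parameters of `ParA` (helper27)

* `cnum` : `CNum (PA.Nm Lam n) n (PA.Lr Lam n) (PA.al Lam)`; `e3_le`, `hnum` : the side conditions of `cnt_H3`;
* `nf_le` : from `Lr F ≤ 4 n Lam` : `F ≤ n / 2`;  `nt_le` : the five counts give at most `exp (25 lg)`;
* `st_le` : the number of sub-epochs is at most `exp (27 lg)`;
* `sat_num` : the saturation inside an epoch (`sat_in`) gives `sg`.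
-/

set_option autoImplicit false

namespace Pool.Agent.M3.S3

noncomputable section

namespace PA

variable {Lam n : ℝ}

theorem Big.lg_pos (h : Big Lam n) : 0 < lg Lam n := lt_of_lt_of_le one_pos h.lg_ge

theorem Big.u_pos (h : Big Lam n) : 0 < al Lam / n := div_pos al_pos h.n_pos

theorem Big.n_ge' (h : Big Lam n) : (1000000 : ℝ) ≤ n := by
  refine le_trans ?_ h.n_ge
  refine le_trans (?_ : (1000000 : ℝ) ≤ 2 ^ 20) (pow_le_pow_right₀ (by norm_num) (by norm_num))
  norm_num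

theorem Big.al_le (h : Big Lam n) : al Lam ≤ 1 / 2 := by
  unfold al
  have h1 : Real.exp (-Lam) ≤ Real.exp (-1) := Real.exp_le_exp.2 (by linarith [h.Lam1])
  refine h1.trans ?_
  rw [Real.exp_neg, inv_le_comm₀ (Real.exp_pos 1) (by norm_num)]
  have := Real.exp_one_gt_d9
  norm_num
  linarith

theorem Big.u_le (h : Big Lam n) : al Lam / n ≤ 1 / 1000000 := by
  rw [div_le_iff₀ h.n_pos]
  have h1 := h.al_le
  have h2 := h.n_ge'
  linarith

theorem Big.nu (h : Big Lam n) : n * (al Lam / n) = al Lam := by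
  field_simp [h.n_pos.ne']

theorem Big.Lam_le_lg (h : Big Lam n) : Lam ≤ lg Lam n := by
  unfold lg
  linarith [h.log_nonneg]

theorem Big.lgu (h : Big Lam n) : lg Lam n * (al Lam / n) ≤ 1 := by
  rw [h.aln, Real.exp_neg]
  rw [mul_inv_le_iff₀ (Real.exp_pos _), one_mul]
  have := Real.add_one_le_exp (lg Lam n)
  linarith

theorem Big.Lamu (h : Big Lam n) : Lam * (al Lam / n) ≤ 1 :=
  (mul_le_mul_of_nonneg_right h.Lam_le_lg h.u_pos.le).trans h.lgu

theorem Big.Lr_ge (h : Big Lam n) : 10 ≤ Lr Lam n := by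
  unfold Lr
  linarith [h.lg_ge]

/-- powers of `al / n` -/
theorem Big.upow (h : Big Lam n) {k : ℕ} (hk : 1 ≤ k) : (al Lam / n) ^ k ≤ al Lam / n := by
  calc (al Lam / n) ^ k ≤ (al Lam / n) ^ 1 :=
        pow_le_pow_of_le_one h.u_pos.le (h.u_le.trans (by norm_num)) hk
    _ = al Lam / n := pow_one _

theorem Big.upow_le (h : Big Lam n) {k m : ℕ} (hk : k ≤ m) : (al Lam / n) ^ m ≤ (al Lam / n) ^ k :=
  pow_le_pow_of_le_one h.u_pos.le (h.u_le.trans (by norm_num)) hk

theorem Big.e5_le (h : Big Lam n) : (Nm Lam n).eps4 + 8 * (Nm Lam n).eps3 ≤ 9 * (al Lam / n) ^ 4 := by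
  show (al Lam / n) ^ 4 + 8 * (al Lam / n) ^ 12 ≤ 9 * (al Lam / n) ^ 4
  have := h.upow_le (show 4 ≤ 12 by norm_num)
  linarith

theorem Big.e5_le' (h : Big Lam n) : (Nm Lam n).eps4 + 8 * (Nm Lam n).eps3 ≤ 1 / 4 := by
  refine h.e5_le.trans ?_
  have h1 := h.upow (show 1 ≤ 4 by norm_num)
  have h2 := h.u_le
  linarith

theorem e3_nonneg (h : Big Lam n) : 0 ≤ (Nm Lam n).eps3 := pow_nonneg h.u_pos.le _
theorem e4_nonneg (h : Big Lam n) : 0 ≤ (Nm Lam n).eps4 := pow_nonneg h.u_pos.le _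
theorem e3_pos (h : Big Lam n) : 0 < (Nm Lam n).eps3 := pow_pos h.u_pos _
theorem e4_pos (h : Big Lam n) : 0 < (Nm Lam n).eps4 := pow_pos h.u_pos _
theorem kap_pos (h : Big Lam n) : 0 < (Nm Lam n).kap := pow_pos h.u_pos _

theorem e3_le (h : Big Lam n) : (Nm Lam n).eps3 ≤ 1 / 8 := by
  have h1 : (al Lam / n) ^ 12 ≤ al Lam / n := h.upow (by norm_num)
  have h2 := h.u_le
  show (al Lam / n) ^ 12 ≤ 1 / 8
  linarith

/-- **the numbers of `Cost`** -/
theorem cnum (h : Big Lam n) : CNum (Nm Lam n) n (Lr Lam n) (al Lam) where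
  n0 := h.n_pos
  Lr8 := by linarith [h.Lr_ge]
  e3 := e3_nonneg h
  e4 := e4_nonneg h
  e5 := h.e5_le'.trans (by norm_num)
  num := by
    have h5 := h.e5_le
    have h0 : 0 ≤ (Nm Lam n).eps4 + 8 * (Nm Lam n).eps3 := by
      have := e3_nonneg h; have := e4_nonneg h; positivity
    set e := (Nm Lam n).eps4 + 8 * (Nm Lam n).eps3 with he
    have hu := h.u_pos
    have hnu := h.nu
    have ha := al_pos (Lam := Lam)
    have hn := h.n_pos
    have e1 : n * (2 * e) ≤ 18 * (al Lam / n) ^ 3 := by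
      have : n * (2 * e) ≤ n * (2 * (9 * (al Lam / n) ^ 4)) := by gcongr
      refine this.trans ?_
      have e2 : n * (2 * (9 * (al Lam / n) ^ 4)) = 18 * (al Lam / n) ^ 3 * al Lam := by
        calc n * (2 * (9 * (al Lam / n) ^ 4)) = 18 * (al Lam / n) ^ 3 * (n * (al Lam / n)) := by ring
          _ = _ := by rw [hnu]
      rw [e2]
      have := h.al_le
      have h3 : 0 ≤ 18 * (al Lam / n) ^ 3 := by positivity
      nlinarith
    have e3 : n * (e / al Lam) ≤ 9 * (al Lam / n) ^ 3 := by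
      have : n * (e / al Lam) ≤ n * (9 * (al Lam / n) ^ 4 / al Lam) := by gcongr
      refine this.trans (le_of_eq ?_)
      field_simp
    have e4 : (al Lam / n) ^ 3 ≤ 1 / 1000000 := (h.upow (by norm_num)).trans h.u_le
    have e5 := h.Lr_ge
    have e6 : n * (2 * e + e / al Lam) = n * (2 * e) + n * (e / al Lam) := by ring
    rw [e6]
    linarith

/-- the side condition of `cnt_H3` -/
theorem hnum (h : Big Lam n) :
    8 * (Nm Lam n).eps3 * (n * (Real.log (1 / al Lam) + 1) + 1) ≤ Lr Lam n * (Nm Lam n).eps4 / 2 := by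
  rw [log_al]
  show 8 * (al Lam / n) ^ 12 * (n * (Lam + 1) + 1) ≤ Lr Lam n * (al Lam / n) ^ 4 / 2
  have hu := h.u_pos
  have hnu := h.nu
  have hlu := h.Lamu
  have hL := h.Lr_ge
  have h1 := h.Lam1
  set u := al Lam / n with hu'
  have e1 : 8 * u ^ 12 * (n * (Lam + 1) + 1) = 8 * u ^ 4 * (u ^ 6 * (n * u) * (Lam * u) + u ^ 7 * (n * u) + u ^ 8) := by
    ring
  rw [e1, hnu]
  have ha := h.al_le
  have ha0 := al_pos (Lam := Lam)
  have p6 : u ^ 6 ≤ 1 / 1000000 := (h.upow (by norm_num)).trans h.u_le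
  have p7 : u ^ 7 ≤ 1 / 1000000 := (h.upow (by norm_num)).trans h.u_le
  have p8 : u ^ 8 ≤ 1 / 1000000 := (h.upow (by norm_num)).trans h.u_le
  have q6 : u ^ 6 * al Lam * (Lam * u) ≤ 1 := by
    have : u ^ 6 * al Lam ≤ 1 := by
      calc u ^ 6 * al Lam ≤ 1 * 1 := mul_le_mul (by linarith) (by linarith) ha0.le (by norm_num)
        _ = 1 := one_mul 1
    calc u ^ 6 * al Lam * (Lam * u) ≤ 1 * 1 := mul_le_mul this hlu (by positivity) (by norm_num)
      _ = 1 := one_mul 1
  have q7 : u ^ 7 * al Lam ≤ 1 := by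
    calc u ^ 7 * al Lam ≤ 1 * 1 := mul_le_mul (by linarith) (by linarith) ha0.le (by norm_num)
      _ = 1 := one_mul 1
  have u4 : 0 < u ^ 4 := by positivity
  have : 8 * u ^ 4 * (u ^ 6 * al Lam * (Lam * u) + u ^ 7 * al Lam + u ^ 8) ≤ 8 * u ^ 4 * (1 / 2) := by
    refine mul_le_mul_of_nonneg_left ?_ (by positivity)
    have r6 : u ^ 6 * al Lam * (Lam * u) ≤ 1 / 1000000 := by
      calc u ^ 6 * al Lam * (Lam * u) = u ^ 6 * (al Lam * (Lam * u)) := by ring
        _ ≤ 1 / 1000000 * 1 := mul_le_mul p6 (by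
            calc al Lam * (Lam * u) ≤ 1 * 1 := mul_le_mul (by linarith) hlu (by positivity) (by norm_num)
              _ = 1 := one_mul 1) (by positivity) (by norm_num)
        _ = 1 / 1000000 := mul_one _
    have r7 : u ^ 7 * al Lam ≤ 1 / 1000000 := by
      calc u ^ 7 * al Lam ≤ 1 / 1000000 * 1 := mul_le_mul p7 (by linarith) ha0.le (by norm_num)
        _ = 1 / 1000000 := mul_one _
    linarith
  have h5 : 5 * u ^ 4 ≤ Lr Lam n * u ^ 4 / 2 := by nlinarith
  linarith

/-- number of the falls -/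
theorem nf_le (h : Big Lam n) {F : ℝ} (hF : Lr Lam n * F ≤ 4 * n * Lam) : F ≤ n / 2 := by
  have h1 := h.lg_pos
  have h2 := h.Lam_le_lg
  have h3 := h.n_pos
  have h4 : 10 * lg Lam n * F ≤ 10 * lg Lam n * (n / 2) := by
    have : 10 * lg Lam n * F ≤ 4 * n * Lam := hF
    nlinarith [mul_le_mul_of_nonneg_left h2 h3.le]
  exact le_of_mul_le_mul_left h4 (by positivity)

theorem n_eq_exp (h : Big Lam n) : n ≤ Real.exp (lg Lam n) := by
  unfold lg
  rw [Real.exp_add, Real.exp_log h.n_pos]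
  have := Real.one_le_exp (by linarith [h.Lam1] : (0 : ℝ) ≤ Lam)
  nlinarith [h.n_pos]

theorem Lam_exp (h : Big Lam n) : Real.exp Lam ≤ Real.exp (lg Lam n) := Real.exp_le_exp.2 h.Lam_le_lg

theorem upow_inv (h : Big Lam n) (k : ℕ) : ((al Lam / n) ^ k)⁻¹ = Real.exp (k * lg Lam n) := by
  rw [h.aln, ← Real.exp_nat_mul, ← Real.exp_neg]
  ring_nf

/-- **the number of the ends of epochs by a test**: `F` = number of falls, `N1, …, N5` = the five counts -/
theorem nt_le (h : Big Lam n) {F N1 N2 N3 N4 N5 : ℝ} (hF : Lr Lam n * F ≤ 4 * n * Lam)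
    (h1 : 4 * (Nm Lam n).eps3 * N1 ≤ F) (h2 : (Nm Lam n).kap * N2 ≤ 8 + 22 * Real.exp Lam)
    (h3 : Lr Lam n * (Nm Lam n).eps4 / 2 * N3 ≤ 2 * n * Lam) (h4 : (Nm Lam n).eps3 * N4 ≤ F)
    (h5 : (Nm Lam n).kap * N5 ≤ 2 * Real.exp Lam) :
    N1 + N2 + N3 + N4 + N5 ≤ Real.exp (25 * lg Lam n) := by
  have hF' := nf_le h hF
  have hg := h.lg_ge
  have hn := n_eq_exp h
  have hL := Lam_exp h
  have hn0 := h.n_pos
  set w := Real.exp (lg Lam n) with hw
  have hw0 : 0 < w := Real.exp_pos _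
  have hw2 : 2 ≤ w := by
    have := Real.add_one_le_exp (lg Lam n)
    linarith
  have hw1 : 2.7 ≤ w := by
    have h6 : Real.exp 1 ≤ w := Real.exp_le_exp.2 hg
    have := Real.exp_one_gt_d9
    linarith
  have ek : ∀ k : ℕ, Real.exp ((k : ℝ) * lg Lam n) = w ^ k := fun k => by rw [Real.exp_nat_mul]
  have i12 : ((Nm Lam n).eps3)⁻¹ = w ^ 12 := by
    have := upow_inv h 12
    rw [ek] at this
    exact this
  have i4 : ((Nm Lam n).eps4)⁻¹ = w ^ 4 := by
    have := upow_inv h 4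
    rw [ek] at this
    exact this
  have i20 : ((Nm Lam n).kap)⁻¹ = w ^ 20 := by
    have := upow_inv h 20
    rw [ek] at this
    exact this
  have p3 := e3_pos h
  have p4 := e4_pos h
  have pk := kap_pos h
  have a1 : N1 ≤ w * w ^ 12 := by
    have : N1 ≤ F / (4 * (Nm Lam n).eps3) := by
      rw [le_div_iff₀ (by positivity)]
      linarith
    refine this.trans ?_
    have e1 : F / (4 * (Nm Lam n).eps3) = F / 4 * ((Nm Lam n).eps3)⁻¹ := by field_simp
    rw [e1, i12]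
    exact mul_le_mul_of_nonneg_right (by linarith) (by positivity)
  have a4 : N4 ≤ w * w ^ 12 := by
    have : N4 ≤ F / (Nm Lam n).eps3 := by
      rw [le_div_iff₀ p3]
      linarith
    refine this.trans ?_
    rw [div_eq_mul_inv, i12]
    exact mul_le_mul_of_nonneg_right (by linarith) (by positivity)
  have a2 : N2 ≤ 30 * w * w ^ 20 := by
    have : N2 ≤ (8 + 22 * Real.exp Lam) / (Nm Lam n).kap := by
      rw [le_div_iff₀ pk]
      linarith
    refine this.trans ?_
    rw [div_eq_mul_inv, i20]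
    exact mul_le_mul_of_nonneg_right (by linarith) (by positivity)
  have a5 : N5 ≤ 2 * w * w ^ 20 := by
    have : N5 ≤ (2 * Real.exp Lam) / (Nm Lam n).kap := by
      rw [le_div_iff₀ pk]
      linarith
    refine this.trans ?_
    rw [div_eq_mul_inv, i20]
    exact mul_le_mul_of_nonneg_right (by linarith) (by positivity)
  have a3 : N3 ≤ w * w ^ 4 := by
    have hl := h.lg_pos
    have h6 : Lr Lam n * (Nm Lam n).eps4 * N3 ≤ 4 * n * Lam := by linarith
    have h7 : (Nm Lam n).eps4 * N3 ≤ n / 2 := by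
      refine nf_le h (F := (Nm Lam n).eps4 * N3) ?_
      calc Lr Lam n * ((Nm Lam n).eps4 * N3) = Lr Lam n * (Nm Lam n).eps4 * N3 := by ring
        _ ≤ _ := h6
    have : N3 ≤ n / 2 / (Nm Lam n).eps4 := by
      rw [le_div_iff₀ p4]
      linarith
    refine this.trans ?_
    rw [div_eq_mul_inv, i4]
    exact mul_le_mul_of_nonneg_right (by linarith) (by positivity)
  have ew : Real.exp (25 * lg Lam n) = w ^ 25 := by
    have := ek 25
    push_cast at this
    exact this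
  rw [ew]
  have m : ∀ k : ℕ, k ≤ 21 → w ^ k ≤ w ^ 21 := fun k hk => pow_le_pow_right₀ (by linarith) hk
  have m13 : w * w ^ 12 ≤ w ^ 21 := by
    have := m 13 (by norm_num)
    calc w * w ^ 12 = w ^ 13 := by ring
      _ ≤ _ := this
  have m5 : w * w ^ 4 ≤ w ^ 21 := by
    have := m 5 (by norm_num)
    calc w * w ^ 4 = w ^ 5 := by ring
      _ ≤ _ := this
  have m30 : 30 * w * w ^ 20 = 30 * w ^ 21 := by ring
  have m2 : 2 * w * w ^ 20 = 2 * w ^ 21 := by ring
  have w4 : (35 : ℝ) ≤ w ^ 4 := by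
    have h8 : (2.7 : ℝ) ^ 4 ≤ w ^ 4 := pow_le_pow_left₀ (by norm_num) hw1 4
    have h9 : (35 : ℝ) ≤ 2.7 ^ 4 := by norm_num
    linarith
  have w25 : w ^ 25 = w ^ 21 * w ^ 4 := by ring
  rw [w25]
  have w21 : 0 < w ^ 21 := by positivity
  nlinarith

/-- **the number of sub-epochs** -/
theorem st_le (h : Big Lam n) {F NT : ℝ} (hF : Lr Lam n * F ≤ 4 * n * Lam) (hNT : NT ≤ Real.exp (25 * lg Lam n)) :
    1 + (1 + 24 / q n) * (F + NT) ≤ Real.exp (28 * lg Lam n) := by
  have hF' := nf_le h hF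
  have hg := h.lg_ge
  have hn := n_eq_exp h
  have hx := h.x_pos
  have hx1 := h.x_ge1
  have hxn : x n ^ 300 ≤ n := by
    have : x n ^ 300 ≤ x n ^ 1000 := pow_le_pow_right₀ hx1 (by norm_num)
    rw [h.n_eq] at this
    exact this
  have hq : 24 / q n = 24 * x n ^ 300 := by
    unfold q
    rw [inv_pow, div_inv_eq_mul]
  rw [hq]
  set w := Real.exp (lg Lam n) with hw
  have hw0 : 0 < w := Real.exp_pos _
  have hw1 : 2.7 ≤ w := by
    have h6 : Real.exp 1 ≤ w := Real.exp_le_exp.2 hg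
    have := Real.exp_one_gt_d9
    linarith
  have hw6 : (1000000 : ℝ) ≤ w := h.n_ge'.trans hn
  have ek : ∀ k : ℕ, Real.exp ((k : ℝ) * lg Lam n) = w ^ k := fun k => by rw [Real.exp_nat_mul]
  have e25 : Real.exp (25 * lg Lam n) = w ^ 25 := by
    have := ek 25
    push_cast at this
    exact this
  have e28 : Real.exp (28 * lg Lam n) = w ^ 28 := by
    have := ek 28
    push_cast at this
    exact this
  rw [e25] at hNT
  rw [e28]
  have b1 : 1 + 24 * x n ^ 300 ≤ 25 * w := by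
    have : x n ^ 300 ≤ w := hxn.trans hn
    linarith
  have b2 : F + NT ≤ 2 * w ^ 25 := by
    have : w ≤ w ^ 25 := by
      calc w = w ^ 1 := (pow_one w).symm
        _ ≤ w ^ 25 := pow_le_pow_right₀ (by linarith) (by norm_num)
    linarith
  have hx3 : 0 < 1 + 24 * x n ^ 300 := by positivity
  have b3 : (1 + 24 * x n ^ 300) * (F + NT) ≤ 25 * w * (2 * w ^ 25) := by
    calc (1 + 24 * x n ^ 300) * (F + NT) ≤ (1 + 24 * x n ^ 300) * (2 * w ^ 25) :=
          mul_le_mul_of_nonneg_left b2 hx3.le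
      _ ≤ 25 * w * (2 * w ^ 25) := mul_le_mul_of_nonneg_right b1 (by positivity)
  have b4 : 25 * w * (2 * w ^ 25) = 50 * w ^ 26 := by ring
  have b5 : 1 ≤ w ^ 26 := one_le_pow₀ (by linarith)
  have b6 : w ^ 28 = w ^ 26 * (w * w) := by ring
  have b7 : 51 * w ^ 26 ≤ w ^ 26 * (w * w) := by
    have : (51 : ℝ) ≤ w * w := by nlinarith
    nlinarith
  linarith

/-- **saturation inside an epoch**: `e` = relative loss of the class, `L` = `log` of the quotient of the sizes -/
theorem sat_num (h : Big Lam n) {e L : ℝ} (he : e ≤ 20 * (al Lam / n) ^ 4) (hL : 0 ≤ L) :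
    (L + (1 + Lr Lam n) + 2 * e) / n + e / al Lam + (Nm Lam n).kap * Real.log (1 / al Lam) ≤ sg Lam n * (L + 1) := by
  rw [log_al]
  have hn := h.n_pos
  have ha := al_pos (Lam := Lam)
  have hu := h.u_pos
  have hlu := h.Lamu
  have hLr := h.Lr_ge
  have hnu := h.nu
  have hLam := h.Lam1
  have hsg : sg Lam n = 4 * Lr Lam n / n := rfl
  have e1 : n * (e / al Lam) ≤ 1 := by
    have h1 : n * (e / al Lam) ≤ n * (20 * (al Lam / n) ^ 4 / al Lam) := by gcongr
    have h2 : n * (20 * (al Lam / n) ^ 4 / al Lam) = 20 * (al Lam / n) ^ 3 := by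
      field_simp
    have h3 : (al Lam / n) ^ 3 ≤ 1 / 1000000 := (h.upow (by norm_num)).trans h.u_le
    linarith
  have e2 : n * ((Nm Lam n).kap * Lam) ≤ 1 := by
    have h1 : n * ((Nm Lam n).kap * Lam) = al Lam * (Lam * (al Lam / n)) * (al Lam / n) ^ 18 := by
      calc n * ((Nm Lam n).kap * Lam) = n * ((al Lam / n) ^ 20 * Lam) := rfl
        _ = n * (al Lam / n) * (Lam * (al Lam / n)) * (al Lam / n) ^ 18 := by ring
        _ = _ := by rw [hnu]
    rw [h1]
    have h2 : al Lam * (Lam * (al Lam / n)) ≤ 1 * 1 :=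
      mul_le_mul (by linarith [h.al_le]) hlu (by positivity) (by norm_num)
    have h3 : (al Lam / n) ^ 18 ≤ 1 := (h.upow (by norm_num)).trans (h.u_le.trans (by norm_num))
    calc al Lam * (Lam * (al Lam / n)) * (al Lam / n) ^ 18 ≤ 1 * 1 * 1 :=
          mul_le_mul h2 h3 (by positivity) (by norm_num)
      _ = 1 := by norm_num
  have e3 : 2 * e ≤ 1 := by
    have h3 : (al Lam / n) ^ 4 ≤ 1 / 1000000 := (h.upow (by norm_num)).trans h.u_le
    linarith
  have key : n * ((L + (1 + Lr Lam n) + 2 * e) / n + e / al Lam + (Nm Lam n).kap * Lam) ≤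
      n * (sg Lam n * (L + 1)) := by
    have h1 : n * ((L + (1 + Lr Lam n) + 2 * e) / n + e / al Lam + (Nm Lam n).kap * Lam) =
        (L + (1 + Lr Lam n) + 2 * e) + n * (e / al Lam) + n * ((Nm Lam n).kap * Lam) := by
      field_simp
    have h2 : n * (sg Lam n * (L + 1)) = 4 * Lr Lam n * (L + 1) := by
      rw [hsg]
      field_simp
    rw [h1, h2]
    nlinarith
  exact le_of_mul_le_mul_left key hn

end PA

end

end Pool.Agent.M3.S3
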