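import Pool.Agent.M3.S3.Cost
import Pool.Agent.M3.S3.CntAll
import Pool.Agent.M3.S3.LossDef

/-!
# M3.S3.CutA: the cut of the big final cells (row 3.9; helper64), route A

* `hlf_U` : the half step class of the family `R.U` is `hcl R`;
* `bgc_le` : number of big final cells; `ffF_le`, `ffG_le` : number of big falls;
* `cut_le` : the sum over the big final cells = `del` part + (al) + (be).
-/

set_option autoImplicit false
set_option linter.unusedSectionVars false

namespace Pool.Agent.M3.S3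

open Finset Pool.Agent.PWZ Pool.Agent.M3

noncomputable section

section cut

variable {X β γ ι φ : Type*} [Fintype X] [Fintype β] [Fintype γ] [Fintype φ] {D : Dat X β γ ι φ} {R : Rl D}

theorem hlf_U (t : ℕ) (x : X) (b : β) (c : γ) : hlf D R.U t x b c = hcl R t x b c := by
  ext y
  rw [mem_hlf, mem_hcl]

/-- number of the big final cells -/
theorem bgc_le (L0 : ℝ) (K : ℕ) : L0 * ∑ s ∈ range K, E3 (fun x b c => ind (bgc R L0 s x b c)) ≤ bits R K := by
  unfold bits
  rw [Finset.mul_sum]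
  refine Finset.sum_le_sum fun s _ => ?_
  rw [← E3_smul]
  refine E3_mono fun x b c => ?_
  by_cases h : bgc R L0 s x b c
  · rw [ind_of h, mul_one]
    have h1 : (0 : ℝ) < (R.U (s + 1) x b c).card := by
      exact_mod_cast card_pos.2 ⟨x, R.self_U (s + 1) x b c⟩
    rw [Real.le_log_iff_exp_le (by
      have : (0 : ℝ) < (hcl R s x b c).card := by
        exact_mod_cast card_pos.2 ⟨x, U_sub_hcl R s x b c (R.self_U (s + 1) x b c)⟩
      positivity), le_div_iff₀ h1]
    exact h
  · rw [ind_not h, mul_zero]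
    exact log_hcl_nonneg R s x b c

variable {Up : Upd D} {N : Nums} {n Lr al Lam q l : ℝ} {K : ℕ}

theorem bigf_szf {s : ℕ} {x : X} {b : β} {c : γ} (h : bigf R l (R.ep s x b c) (s + 1) x b c)
    (hf : ffall R s x b c) : l ≤ szf R s x b c := by
  unfold szf
  have hp : (0 : ℝ) < ((sdf R).pc (R.ep s x b c) s x b c).card := by
    exact_mod_cast card_pos.2 ⟨x, (sdf R).self_pc (ffall_lv hf)⟩
  have h2 : Real.exp l * (((sdf R).pc (R.ep s x b c) s x b c).card : ℝ) ≤
      (R.KF (R.ep s x b c) (s + 1) x b c).card := h.2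
  rw [Real.le_log_iff_exp_le (div_pos (lt_of_lt_of_le (mul_pos (Real.exp_pos l) hp) h2) hp), le_div_iff₀ hp]
  exact h2

theorem bigg_szg {s : ℕ} {x : X} {b : β} {c : γ} (h : bigg R l (R.ep s x b c) (s + 1) x b c)
    (hf : gfall R s x b c) : l ≤ szg R s x b c := by
  unfold szg
  have hp : (0 : ℝ) < ((sdg R).pc (R.ep s x b c) s x b c).card := by
    exact_mod_cast card_pos.2 ⟨x, (sdg R).self_pc (gfall_lv hf)⟩
  have h2 : Real.exp l * (((sdg R).pc (R.ep s x b c) s x b c).card : ℝ) ≤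
      (R.KG (R.ep s x b c) (s + 1) x b c).card := h.2
  rw [Real.le_log_iff_exp_le (div_pos (lt_of_lt_of_le (mul_pos (Real.exp_pos l) hp) h2) hp), le_div_iff₀ hp]
  exact h2

theorem KFx_iff {s : ℕ} {x : X} {b : β} {c : γ} :
    x ∈ R.KF (R.ep s x b c) (s + 1) x b c ↔ rf R (R.ep s x b c) s x b c x = 0 := by
  have h1 : x ∈ KF' R.toRm (R.ep s x b c) s x b c :=
    mem_KF'.2 ⟨((R.mem_om _).1 (R.self_U s x b c)).1, rfl⟩
  rw [mem_KFs (R.t0_le s x b c), and_iff_right h1]

theorem KGx_iff {s : ℕ} {x : X} {b : β} {c : γ} :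
    x ∈ R.KG (R.ep s x b c) (s + 1) x b c ↔ rg R (R.ep s x b c) s x b c x = 0 := by
  have h1 : x ∈ KG' R.toRm (R.ep s x b c) s x b c :=
    mem_KG'.2 ⟨((R.mem_om _).1 (R.self_U s x b c)).2, rfl⟩
  rw [mem_KGs (R.t0_le s x b c), and_iff_right h1]

/-- a big `f`-fall -/
theorem ffF_sz {s : ℕ} {x : X} {b : β} {c : γ} (h : ffF R q l s x b c) : ffall R s x b c ∧ l ≤ szf R s x b c := by
  obtain ⟨h1, h2, -, h4, -⟩ := h
  have hf : ffall R s x b c := ⟨h1, fun h0 => h2 (KFx_iff.2 h0)⟩
  exact ⟨hf, bigf_szf h4 hf⟩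

/-- a big `g`-fall -/
theorem ffG_sz {s : ℕ} {x : X} {b : β} {c : γ} (h : ffG R q l s x b c) : gfall R s x b c ∧ l ≤ szg R s x b c := by
  obtain ⟨h1, h2, h3, h4, -⟩ := h
  have hf : gfall R s x b c := ⟨h1, KFx_iff.1 (h3 rfl), fun h0 => h2 (KGx_iff.2 h0)⟩
  exact ⟨hf, bigg_szg h4 hf⟩

/-- number of the big `f`-falls -/
theorem ffF_le [DecidableEq φ] (T : D.Thick al) (P : Proj D) (Ts : Tst R Up N) (C : Con R n Lr) (H : CNum N n Lr al)
    (hB : Birth D K Lam) (hl : 0 ≤ l) :
    l * ∑ s ∈ range K, E3 (fun x b c => ind (ffF R q l s x b c)) ≤ n * Lam := by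
  refine le_trans ?_ (cost_f T P Ts C H hB)
  rw [Finset.mul_sum]
  refine Finset.sum_le_sum fun s _ => ?_
  rw [← E3_smul]
  refine E3_mono fun x b c => ?_
  have hLr : 0 ≤ Lr / 2 := by have := H.Lr8; linarith
  by_cases hf : ffall R s x b c
  · rw [ind_of hf, one_mul]
    have h0 := szf_nonneg Ts (half_le H) hf
    by_cases h : ffF R q l s x b c
    · rw [ind_of h, mul_one]
      have := (ffF_sz h).2
      linarith
    · rw [ind_not h, mul_zero]
      linarith
  · rw [ind_not (fun h : ffF R q l s x b c => hf (ffF_sz h).1), ind_not hf, mul_zero, zero_mul]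

/-- number of the big `g`-falls -/
theorem ffG_le [DecidableEq φ] (T : D.Thick al) (P : Proj D) (Ts : Tst R Up N) (C : Con R n Lr) (H : CNum N n Lr al)
    (hB : Birth D K Lam) (hl : 0 ≤ l) :
    l * ∑ s ∈ range K, E3 (fun x b c => ind (ffG R q l s x b c)) ≤ n * Lam := by
  refine le_trans ?_ (cost_g T P Ts C H hB)
  rw [Finset.mul_sum]
  refine Finset.sum_le_sum fun s _ => ?_
  rw [← E3_smul]
  refine E3_mono fun x b c => ?_
  have hLr : 0 ≤ Lr / 2 := by have := H.Lr8; linarith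
  by_cases hf : gfall R s x b c
  · rw [ind_of hf, one_mul]
    have h0 := szg_nonneg Ts (half_le H) hf
    by_cases h : ffG R q l s x b c
    · rw [ind_of h, mul_one]
      have := (ffG_sz h).2
      linarith
    · rw [ind_not h, mul_zero]
      linarith
  · rw [ind_not (fun h : ffG R q l s x b c => hf (ffG_sz h).1), ind_not hf, mul_zero, zero_mul]

end cut

section cut2

variable {X β γ ι φ : Type*} [Fintype X] [Fintype β] [Fintype γ] [Fintype φ] [Nonempty X] [Nonempty β] [Nonempty γ]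
  {D : Dat X β γ ι φ} {al : ℝ}

/-- THE CUT -/
theorem cut_le (T : D.Thick al) (R : Rl D) {del : ℝ} (q l mu L0 : ℝ) (hdel : 0 ≤ del) (K : ℕ) :
    ∑ s ∈ range K, E3 (fun x b c => ind (ntn R mu s x b c) * (ind (bgc R L0 s x b c) * (del + Pst T del R s x b c))) ≤
      del * ∑ s ∈ range K, E3 (fun x b c => ind (bgc R L0 s x b c)) +
      ∑ s ∈ range K, E3 (fun x b c => ind (ffF R q l s x b c) * Pst T del R s x b c) +
      ∑ s ∈ range K, E3 (fun x b c => ind (ffG R q l s x b c) * Pst T del R s x b c) +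
      ∑ s ∈ range K, E3 (fun x b c => ind (ntn R mu s x b c ∧ bgc R L0 s x b c ∧ ¬ ffF R q l s x b c ∧
        ¬ ffG R q l s x b c) * Pst T del R s x b c) := by
  rw [Finset.mul_sum, ← Finset.sum_add_distrib, ← Finset.sum_add_distrib, ← Finset.sum_add_distrib]
  refine Finset.sum_le_sum fun s _ => ?_
  rw [← E3_smul, ← E3_add, ← E3_add, ← E3_add]
  refine E3_mono fun x b c => ?_
  have hp : 0 ≤ Pst T del R s x b c := Psi_nonneg _ _ _ _ _ _
  have n1 := ind_nonneg (ffF R q l s x b c)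
  have n2 := ind_nonneg (ffG R q l s x b c)
  have n3 := ind_nonneg (ntn R mu s x b c ∧ bgc R L0 s x b c ∧ ¬ ffF R q l s x b c ∧ ¬ ffG R q l s x b c)
  have n4 := ind_nonneg (bgc R L0 s x b c)
  have m1 := mul_nonneg n1 hp
  have m2 := mul_nonneg n2 hp
  have m3 := mul_nonneg n3 hp
  have m4 := mul_nonneg hdel n4
  by_cases h1 : ntn R mu s x b c
  · by_cases h2 : bgc R L0 s x b c
    · rw [ind_of h1, ind_of h2] at *
      by_cases h3 : ffF R q l s x b c
      · rw [ind_of h3] at *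
        linarith
      · by_cases h4 : ffG R q l s x b c
        · rw [ind_of h4] at *
          linarith
        · rw [ind_of (⟨h1, h2, h3, h4⟩ : ntn R mu s x b c ∧ bgc R L0 s x b c ∧ ¬ ffF R q l s x b c ∧
            ¬ ffG R q l s x b c)] at *
          linarith
    · rw [ind_not h2] at *
      linarith
  · rw [ind_not h1] at *
    linarith

end cut2

end

end Pool.Agent.M3.S3
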