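import Pool.Agent.M3.S3.State
import Pool.Agent.M3.S3.SumG
import Pool.Agent.M3.S3.LossDef

/-!
# M3.S3.StateR: the consequences of saturation along a refining public family (helper97)

`V` a refining public family of classes (`RefCl D V`), `hst : SatS (D.kp T s) (V s x b c) (D.cB s b) (D.cC s c) b c sg`.

* `St.thk_cell`, `St.inB_cell` : thickness on a class, kernels inside the cells;
* `St.rows_c`, `St.rows_b` : heavy rows / columns of the state of the time `σ` (hypotheses `r1`, `r2` of `AL.al_f`, `AL.al_g`);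
  `St.rows_Psg_c`, `St.rows_Psg_b` : the same with `Psg`;
* `St.sat_half` : the half step state with the cells of the time `s+1`;
* `St.bad_pts` : exceptional hidden points of the half step state, `St.bad_bdp` : the same with `bdp`.
-/

set_option autoImplicit false
set_option linter.unusedSectionVars false

namespace Pool.Agent.M3.S3

open Finset Pool.Agent.PWZ Pool.Agent.M3

noncomputable section

namespace St

variable {X β γ ι φ : Type*} [Fintype X] [Fintype β] [Fintype γ] [Fintype φ] [Nonempty X] [Nonempty β] [Nonempty γ]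
  {D : Dat X β γ ι φ} {al : ℝ} {V : ℕ → X → β → γ → Finset X}

/-- thickness on a class of the time `t` for the labels of the time `r ≤ t` -/
theorem thk_cell (T : D.Thick al) {r t : ℕ} (hr : r ≤ t) {x : X} {S : Finset X} (hS : S ⊆ D.cA t x) :
    Thk (D.kp T r) S al := by
  refine ⟨T.pos, fun y hy y' hy' b c F h => ?_, fun y hy y' hy' b c F h => ?_⟩
  · exact T.f_thick r y y' b c F (D.qa_le hr ((D.mem_cA.1 (hS hy)).trans (D.mem_cA.1 (hS hy')).symm)) h
  · exact T.g_thick r y y' b c F (D.qa_le hr ((D.mem_cA.1 (hS hy)).trans (D.mem_cA.1 (hS hy')).symm)) h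

/-- inside the cells of the time `s` the kernels of the time `r ≤ s` see their own known point only -/
theorem inB_cell (T : D.Thick al) {r s : ℕ} (hr : r ≤ s) (b : β) (c : γ) :
    InB (D.kp T r) (D.cB s b) (D.cC s c) b c := by
  refine ⟨fun b' _ c' hc' y => ?_, fun b' hb' c' _ y => ?_⟩
  · exact D.kf_c r y b' c' c (D.qc_le hr (D.mem_cC.1 hc'))
  · exact D.kg_b r y b' b c' (D.qb_le hr (D.mem_cB.1 hb'))

section rows

variable {del sg lam L : ℝ}

/-- heavy rows over the cell of the second known point -/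
theorem rows_c (T : D.Thick al) (hV : RefCl D V) (hdel : 0 < del) (hsg : 0 ≤ sg) {σ : ℕ}
    {x : X} {b : β} {c : γ} (hst : SatS (D.kp T σ) (V σ x b c) (D.cB σ b) (D.cC σ c) b c sg)
    (hlam : sg * (L + 1) + 4 / del * (sg * (Real.log (1 / al) + 1)) ≤ lam) :
    avg (V σ x b c) (fun x' => ind (lam < avg (D.cC σ c) fun c' =>
      Psi del (D.kp T σ) (V σ x' b c') x' b c')) ≤ Real.exp (-L) / al := by
  have h1 := rare_b hst (thk_cell T le_rfl (hV.cell σ x b c)) (inB_cell T le_rfl b c) hsg hdel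
    ⟨x, hV.self σ x b c⟩ (D.self_cB σ b) hlam
  refine (avg_mono fun x' hx' => ?_).trans h1
  refine le_of_eq (congrArg ind ?_)
  have e : avg (D.cC σ c) (fun c' => Psi del (D.kp T σ) (V σ x' b c') x' b c') =
      avg (D.cC σ c) (fun c' => Psi del (D.kp T σ) (V σ x b c) x' b c') := by
    unfold avg
    congr 1
    refine Finset.sum_congr rfl fun c' hc' => ?_
    show Psi del (D.kp T σ) (V σ x' b c') x' b c' = Psi del (D.kp T σ) (V σ x b c) x' b c'
    rw [hV.pub σ x b c x' b c' ⟨(D.mem_cA.1 (hV.cell σ x b c hx')).symm, rfl, (D.mem_cC.1 hc').symm⟩ hx']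
  rw [e]

/-- heavy rows over the cell of the first known point -/
theorem rows_b (T : D.Thick al) (hV : RefCl D V) (hdel : 0 < del) (hsg : 0 ≤ sg) {σ : ℕ}
    {x : X} {b : β} {c : γ} (hst : SatS (D.kp T σ) (V σ x b c) (D.cB σ b) (D.cC σ c) b c sg)
    (hlam : sg * (L + 1) + 4 / del * (sg * (Real.log (1 / al) + 1)) ≤ lam) :
    avg (V σ x b c) (fun x' => ind (lam < avg (D.cB σ b) fun b' =>
      Psi del (D.kp T σ) (V σ x' b' c) x' b' c)) ≤ Real.exp (-L) / al := by
  have h1 := rare_b (satS_swp hst) (thk_swp (thk_cell T le_rfl (hV.cell σ x b c))) (inB_cell T le_rfl b c).swp hsg hdel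
    ⟨x, hV.self σ x b c⟩ (D.self_cC σ c) hlam
  simp only [Psi_swp] at h1
  refine (avg_mono fun x' hx' => ?_).trans h1
  refine le_of_eq (congrArg ind ?_)
  have e : avg (D.cB σ b) (fun b' => Psi del (D.kp T σ) (V σ x' b' c) x' b' c) =
      avg (D.cB σ b) (fun b' => Psi del (D.kp T σ) (V σ x b c) x' b' c) := by
    unfold avg
    congr 1
    refine Finset.sum_congr rfl fun b' hb' => ?_
    show Psi del (D.kp T σ) (V σ x' b' c) x' b' c = Psi del (D.kp T σ) (V σ x b c) x' b' c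
    rw [hV.pub σ x b c x' b' c ⟨(D.mem_cA.1 (hV.cell σ x b c hx')).symm, (D.mem_cB.1 hb').symm, rfl⟩ hx']
  rw [e]

/-- hypothesis `r1` of `al_f`, `al_g` -/
theorem rows_Psg_c (T : D.Thick al) (R : Rl D) (hdel : 0 < del) (hsg : 0 ≤ sg)
    (hst : ∀ s x b c, SatS (D.kp T s) (R.U s x b c) (D.cB s b) (D.cC s c) b c sg)
    (hlam : sg * (L + 1) + 4 / del * (sg * (Real.log (1 / al) + 1)) ≤ lam) (σ : ℕ) (x : X) (b : β) (c : γ) :
    avg (R.U σ x b c) (fun x' => ind (lam < avg (D.cC σ c) fun c' => Psg T del R σ x' b c')) ≤ Real.exp (-L) / al :=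
  rows_c T (U_refCl R) hdel hsg (hst σ x b c) hlam

/-- hypothesis `r2` of `al_f`, `al_g` -/
theorem rows_Psg_b (T : D.Thick al) (R : Rl D) (hdel : 0 < del) (hsg : 0 ≤ sg)
    (hst : ∀ s x b c, SatS (D.kp T s) (R.U s x b c) (D.cB s b) (D.cC s c) b c sg)
    (hlam : sg * (L + 1) + 4 / del * (sg * (Real.log (1 / al) + 1)) ≤ lam) (σ : ℕ) (x : X) (b : β) (c : γ) :
    avg (R.U σ x b c) (fun x' => ind (lam < avg (D.cB σ b) fun b' => Psg T del R σ x' b' c)) ≤ Real.exp (-L) / al :=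
  rows_b T (U_refCl R) hdel hsg (hst σ x b c) hlam

end rows

section half

variable {sg mu : ℝ}

/-- **child state**: half step class with the cells of the time `s+1`, labels of the time `s` -/
theorem sat_half (T : D.Thick al) (hV : RefCl D V) (hsg : 0 ≤ sg) (hmu : 0 < mu) {s : ℕ} {x : X} {b : β} {c : γ}
    (hst : SatS (D.kp T s) (V s x b c) (D.cB s b) (D.cC s c) b c sg)
    (hc : mu * ((V s x b c).card : ℝ) ≤ (hlf D V s x b c).card)
    (hB : ((D.cB s b).card : ℝ) ≤ 2 * (D.cB (s + 1) b).card) (hC : ((D.cC s c).card : ℝ) ≤ 2 * (D.cC (s + 1) c).card) :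
    SatS (D.kp T s) (hlf D V s x b c) (D.cB (s + 1) b) (D.cC (s + 1) c) b c
      (4 * (2 + Real.log (1 / al)) * sg * (2 * Real.log (1 / mu) + 2)) := by
  refine sat_child hst (thk_cell T le_rfl (hV.cell s x b c)) (inB_cell T le_rfl b c) hsg
    (fun y hy => (mem_hlf.1 hy).1) ?_ ?_ hmu hc hB hC (D.self_cB (s + 1) b) (D.self_cC (s + 1) c)
  · exact fun y hy => D.mem_cB.2 (D.qb_le (Nat.le_succ s) (D.mem_cB.1 hy))
  · exact fun y hy => D.mem_cC.2 (D.qc_le (Nat.le_succ s) (D.mem_cC.1 hy))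

theorem hlf_pub (hV : RefCl D V) {s : ℕ} {x x' : X} {b b' : β} {c c' : γ} (hS : D.Same (s + 1) x b c x' b' c')
    (hx : x' ∈ V s x b c) : hlf D V s x' b' c' = hlf D V s x b c := by
  ext y
  rw [mem_hlf, mem_hlf, hV.pub s x b c x' b' c' (hS.le (Nat.le_succ s)) hx, hS.1]

variable {del l y : ℝ}

open Classical in
/-- exceptional hidden points of the half step state; `sg` = constant of the half step state -/
theorem bad_pts (T : D.Thick al) (hV : RefCl D V) (hdel : 0 < del) (hsg : 0 ≤ sg) (hl : 0 ≤ l) {s : ℕ} {x : X} {b : β}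
    {c : γ} (hst : SatS (D.kp T s) (hlf D V s x b c) (D.cB (s + 1) b) (D.cC (s + 1) c) b c sg)
    (hy : sg * (l + Real.log (1 / al) + 1) + 4 / del * (sg * (Real.log (1 / al) + 1)) ≤ y) :
    (((hlf D V s x b c).filter fun x' => y < avg (D.cB (s + 1) b) fun b' => avg (D.cC (s + 1) c) fun c' =>
      Psi del (D.kp T s) (hlf D V s x' b' c') x' b' c').card : ℝ) ≤ Real.exp (-l) * (hlf D V s x b c).card := by
  have hcell : hlf D V s x b c ⊆ D.cA (s + 1) x := fun z hz => D.mem_cA.2 (mem_hlf.1 hz).2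
  refine rare_pt hst (thk_cell T (Nat.le_succ s) hcell) (inB_cell T (Nat.le_succ s) b c) hsg hdel
    ⟨x, mem_hlf.2 ⟨hV.self s x b c, rfl⟩⟩ hl hy _ (Finset.filter_subset _ _) (fun x' hx' => ?_)
  obtain ⟨h1, h2⟩ := Finset.mem_filter.1 hx'
  refine lt_of_lt_of_le h2 (avg_mono fun b' hb' => avg_mono fun c' hc' => le_of_eq ?_)
  show Psi del (D.kp T s) (hlf D V s x' b' c') x' b' c' = Psi del (D.kp T s) (hlf D V s x b c) x' b' c'
  rw [hlf_pub hV ⟨(mem_hlf.1 h1).2.symm, (D.mem_cB.1 hb').symm, (D.mem_cC.1 hc').symm⟩ (mem_hlf.1 h1).1]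

theorem hcl_eq_hlf (R : Rl D) (s : ℕ) (x : X) (b : β) (c : γ) : hcl R s x b c = hlf D R.U s x b c := by
  ext y
  rw [mem_hcl, mem_hlf]

open Classical in
/-- exceptional hidden points, in the form of `LossDef` -/
theorem bad_bdp (T : D.Thick al) (R : Rl D) (hdel : 0 < del) (hsg : 0 ≤ sg) (hl : 0 ≤ l) (hmu : 0 < mu)
    {s : ℕ} {x : X} {b : β} {c : γ} (hst : SatS (D.kp T s) (R.U s x b c) (D.cB s b) (D.cC s c) b c sg)
    (hc : ntn R mu s x b c)
    (hB : ((D.cB s b).card : ℝ) ≤ 2 * (D.cB (s + 1) b).card) (hC : ((D.cC s c).card : ℝ) ≤ 2 * (D.cC (s + 1) c).card)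
    {sg' : ℝ} (hsg' : sg' = 4 * (2 + Real.log (1 / al)) * sg * (2 * Real.log (1 / mu) + 2)) (h0 : 0 ≤ sg')
    (hy : sg' * (l + Real.log (1 / al) + 1) + 4 / del * (sg' * (Real.log (1 / al) + 1)) ≤ y) :
    (((hcl R s x b c).filter fun x' => bdp T del R y s x' b c).card : ℝ) ≤ Real.exp (-l) * (hcl R s x b c).card := by
  have e : hcl R s = hlf D R.U s := by
    funext x b c
    exact hcl_eq_hlf R s x b c
  unfold ntn at hc
  rw [e] at hc
  have h1 := sat_half T (U_refCl R) hsg hmu hst hc hB hC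
  rw [← hsg'] at h1
  have h2 := bad_pts T (U_refCl R) hdel h0 hl h1 hy
  unfold bdp Pst
  rw [e]
  exact h2

end half

end St

end

end Pool.Agent.M3.S3
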