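import Pool.Agent.M3.S3.NumA
import Pool.Agent.M3.S3.SatAll
import Pool.Agent.M3.S3.CntPA
import Pool.Agent.M3.S3.NumN
import Pool.Agent.M3.S3.StateR
import Pool.Agent.M3.S3.BE
import Pool.Agent.M3.S3.CutA

/-!
# M3.S3.PlugE: the half step states and the loss (be) with the parameters of route A (helper83)

`R = v2 D Up (PA.Nm Lam n) n (PA.Lr Lam n)`.
* `PA.sath` : the half step states which are not tiny are saturated with `PA.sgh Lam n`;
* `PA.pe_hbd` : exceptional hidden points of the half step states, proportion `exp (-l3)`;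
* `PA.pe_bg` : number of the big final cells;
* `PA.BE_le` : the sum (be) is at most `(x n)⁻¹ ^ 27`.
-/

set_option autoImplicit false
set_option linter.unusedSectionVars false

namespace Pool.Agent.M3.S3

open Finset Pool.Agent.PWZ Pool.Agent.M3

noncomputable section

namespace PA

variable {X β γ ι φ : Type*} [Fintype X] [Fintype β] [Fintype γ] [Fintype φ] [Nonempty X] [Nonempty β] [Nonempty γ]
  {D : Dat X β γ ι φ} {Up : Upd D} {K : ℕ} {J : ℝ} {Lam n : ℝ}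

theorem sgh_sgH : sgh Lam n = SA.sgH (al Lam) (sg Lam n) (mu Lam n) := by
  unfold sgh SA.sgH
  rw [log_al, log_inv_mu]

/-- **the half step states** -/
theorem sath (h : Big Lam n) (T : D.Thick (al Lam)) (hU : UpdOk D Up K J)
    (hB : ∀ s < K, ∀ b, ((D.cB s b).card : ℝ) ≤ 2 * (D.cB (s + 1) b).card)
    (hC : ∀ s < K, ∀ c, ((D.cC s c).card : ℝ) ≤ 2 * (D.cC (s + 1) c).card) :
    ∀ s < K, ∀ x b c, ntn (v2 D Up (Nm Lam n) n (Lr Lam n)) (mu Lam n) s x b c →
      SatS (D.kp T s) (hcl (v2 D Up (Nm Lam n) n (Lr Lam n)) s x b c) (D.cB (s + 1) b) (D.cC (s + 1) c) b c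
        (sgh Lam n) := by
  intro s hs x b c hn
  have h1 := SA.sat_half T (v2 D Up (Nm Lam n) n (Lr Lam n)) (sg_pos h).le mu_pos
    (SA.sat_PA h T hU s x b c) (hB s hs b) (hC s hs c) hn
  rw [SA.hlf_hcl, ← sgh_sgH] at h1
  exact h1

/-- exceptional hidden points -/
theorem pe_hbd (h : Big Lam n) (T : D.Thick (al Lam)) (hU : UpdOk D Up K J)
    (hB : ∀ s < K, ∀ b, ((D.cB s b).card : ℝ) ≤ 2 * (D.cB (s + 1) b).card)
    (hC : ∀ s < K, ∀ c, ((D.cC s c).card : ℝ) ≤ 2 * (D.cC (s + 1) c).card) :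
    ∀ s < K, ∀ x b c, ntn (v2 D Up (Nm Lam n) n (Lr Lam n)) (mu Lam n) s x b c →
      ∑ x' ∈ hcl (v2 D Up (Nm Lam n) n (Lr Lam n)) s x b c,
        ind (bdp T (del n) (v2 D Up (Nm Lam n) n (Lr Lam n)) (y n) s x' b c) ≤
      Real.exp (-l3 n) * ((hcl (v2 D Up (Nm Lam n) n (Lr Lam n)) s x b c).card : ℝ) := by
  classical
  intro s hs x b c hn
  have hx := h.x_pos
  have hl : 0 ≤ l3 n := by
    unfold l3
    positivity
  have h1 := St.bad_bdp (y := y n) T (v2 D Up (Nm Lam n) n (Lr Lam n)) (del_pos h) (sg_pos h).le hl mu_pos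
    (SA.sat_PA h T hU s x b c) hn (hB s hs b) (hC s hs c) (sg' := sgh Lam n) sgh_sgH (sgh_pos h).le
    (by rw [log_al]; exact y_ok h)
  refine le_trans (le_of_eq ?_) h1
  rw [Finset.card_filter, Nat.cast_sum]
  refine Finset.sum_congr rfl fun x' _ => ?_
  by_cases hb : bdp T (del n) (v2 D Up (Nm Lam n) n (Lr Lam n)) (y n) s x' b c
  · rw [ind_of hb, if_pos hb, Nat.cast_one]
  · rw [ind_not hb, if_neg hb, Nat.cast_zero]

/-- number of the big final cells -/
theorem pe_bg [DecidableEq φ] (h : Big Lam n) (T : D.Thick (al Lam)) (P : Proj D) (hU : UpdOk D Up K J) (hJ : 0 ≤ J)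
    (hJ' : J ≤ Real.exp Lam) (hBi : Birth D K Lam) :
    ∑ s ∈ range K, E3 (fun x b c => ind (bgc (v2 D Up (Nm Lam n) n (Lr Lam n)) (L0 n) s x b c)) ≤
      4 * n * Lam / L0 n := by
  have hc := counts h T P (cnum h) (hnum h) hU hJ hJ' hBi
  have h1 := (bgc_le (R := v2 D Up (Nm Lam n) n (Lr Lam n)) (L0 n) K).trans hc.2.2.2.2.2.2.2.1
  rw [le_div_iff₀ (L0_pos h), mul_comm]
  exact h1

/-- **(be) with the parameters of route A** -/
theorem BE_le [DecidableEq φ] (h : Big Lam n) (T : D.Thick (al Lam)) (P : Proj D) (hU : UpdOk D Up K J) (hJ : 0 ≤ J)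
    (hJ' : J ≤ Real.exp Lam) (hBi : Birth D K Lam)
    (hB : ∀ s < K, ∀ b, ((D.cB s b).card : ℝ) ≤ 2 * (D.cB (s + 1) b).card)
    (hC : ∀ s < K, ∀ c, ((D.cC s c).card : ℝ) ≤ 2 * (D.cC (s + 1) c).card) :
    ∑ s ∈ range K, E3 (fun x b c => ind (ntn (v2 D Up (Nm Lam n) n (Lr Lam n)) (mu Lam n) s x b c ∧
        bgc (v2 D Up (Nm Lam n) n (Lr Lam n)) (L0 n) s x b c ∧
        ¬ ffF (v2 D Up (Nm Lam n) n (Lr Lam n)) (q n) (l n) s x b c ∧
        ¬ ffG (v2 D Up (Nm Lam n) n (Lr Lam n)) (q n) (l n) s x b c) *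
          Pst T (del n) (v2 D Up (Nm Lam n) n (Lr Lam n)) s x b c) ≤ (x n)⁻¹ ^ 27 := by
  have hL0 : 1 ≤ L0 n := one_le_pow₀ h.x_ge1
  have hLam := h.Lam1
  have hdl : 0 < Real.exp (-l n / 2) := Real.exp_pos _
  have hrho : 0 ≤ Real.exp (-l3 n) := (Real.exp_pos _).le
  have hc := counts h T P (cnum h) (hnum h) hU hJ hJ' hBi
  obtain ⟨_, c2, c3, _, _, _, _, _, _⟩ := hc
  have hbg := pe_bg h T P hU hJ hJ' hBi
  have hq := q_posA h
  have hq2 : q n ≤ 2 := by linarith [q_leA h]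
  have s1 := sub_f (Up := Up) T P (al_le_one h) (cnum h) (e3_pos h) (e4_pos h) (kap_pos h) (hnum h) hU hJ hBi hq hq2
  have s2 := sub_g (Up := Up) T P (al_le_one h) (cnum h) (e3_pos h) (e4_pos h) (kap_pos h) (hnum h) hU hJ hBi hq hq2
  have hM2 := M2_le h hJ'
  have h24 : 0 ≤ 1 + 24 / q n := add_nonneg zero_le_one (div_nonneg (by norm_num) hq.le)
  have hF0 : 0 ≤ nfall (v2 D Up (Nm Lam n) n (Lr Lam n)) K := nfall_nn _ K
  have main := be_le (R := v2 D Up (Nm Lam n) n (Lr Lam n)) T v2_tst (e3_nonneg h) (e4_nonneg h) h.e5_le' (del_pos h).le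
    (y_pos h).le hL0 hrho hdl K (mu := mu Lam n) (q := q n) (l := l n) (pe_hbd h T hU hB hC)
  have small := be_small h hF0 c2 (le_refl (Real.exp (25 * lg Lam n)))
    (ST := 1 + (1 + 24 / q n) * (nfall (v2 D Up (Nm Lam n) n (Lr Lam n)) K + Real.exp (25 * lg Lam n))) le_rfl hbg
    (a := 4) (b := 4) (c := 0) (d := 0) (e := 8) (by norm_num) (by norm_num) (by norm_num) (by norm_num)
    (by norm_num) (by norm_num) (by norm_num) (by norm_num)
  refine (main.trans ?_).trans small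
  rw [log_al]
  refine add_le_add le_rfl ?_
  set F := nfall (v2 D Up (Nm Lam n) n (Lr Lam n)) K with hF
  set E := Real.exp (25 * lg Lam n) with hE
  have t1 : M2c (Nm Lam n) n (Lr Lam n) Lam J ≤ F + E := by linarith
  have t2 := mul_le_mul_of_nonneg_left t1 h24
  have a1 : 2 * ntpr (v2 D Up (Nm Lam n) n (Lr Lam n)) K +
      ∑ σ ∈ range (K + 1), E3 (fun x b c => ind ((v2 D Up (Nm Lam n) n (Lr Lam n)).prc.sb (q n) σ x b c = σ)) +
      ∑ σ ∈ range (K + 1), E3 (fun x c b => ind ((v2 D Up (Nm Lam n) n (Lr Lam n)).prc.swap.sb (q n) σ x c b = σ)) ≤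
      2 * E + 2 * (1 + (1 + 24 / q n) * (F + E)) := by linarith
  have a2 := mul_le_mul_of_nonneg_left a1 hrho
  have a3 : Real.exp (-l3 n) * (2 * Real.exp (l n) / Real.exp (-l n / 2)) ≤ 2 * Real.exp (-l n / 2) := by
    have e1 : Real.exp (-l3 n) * (2 * Real.exp (l n) / Real.exp (-l n / 2)) =
        2 * Real.exp (-l3 n + l n - -l n / 2) := by
      rw [Real.exp_sub, Real.exp_add]
      ring
    rw [e1]
    refine mul_le_mul_of_nonneg_left (Real.exp_le_exp.2 ?_) (by norm_num)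
    have hl : l3 n = 6 * l n := by
      unfold l3 l
      ring
    have hl0 := l_pos h
    rw [hl]
    linarith
  have a4 := mul_le_mul_of_nonneg_right a3 hF0
  have a5 : Real.exp (-l3 n) * (2 * ntpr (v2 D Up (Nm Lam n) n (Lr Lam n)) K +
      ∑ σ ∈ range (K + 1), E3 (fun x b c => ind ((v2 D Up (Nm Lam n) n (Lr Lam n)).prc.sb (q n) σ x b c = σ)) +
      ∑ σ ∈ range (K + 1), E3 (fun x c b => ind ((v2 D Up (Nm Lam n) n (Lr Lam n)).prc.swap.sb (q n) σ x c b = σ))) +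
      Real.exp (-l3 n) * (2 * Real.exp (l n) / Real.exp (-l n / 2)) * F + 2 * Real.exp (-l n / 2) * F ≤
      Real.exp (-l3 n) * (2 * E + 2 * (1 + (1 + 24 / q n) * (F + E))) + 4 * Real.exp (-l n / 2) * F := by
    linarith
  have a6 := mul_le_mul_of_nonneg_left a5 (show (0 : ℝ) ≤ 2 * Lam by linarith)
  refine a6.trans (le_of_eq ?_)
  ring

end PA

end

end Pool.Agent.M3.S3
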