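import Pool.Agent.M3.S3.NumA
import Pool.Agent.M3.S3.NumN
import Pool.Agent.M3.S3.CntPA
import Pool.Agent.M3.S3.CutA
import Pool.Agent.M3.S3.AL
import Pool.Agent.M3.S3.StateR
import Pool.Agent.M3.S3.SatAll

/-!
# M3.S3.PlugF : the big falls of route A with the parameters of `ParA` (helper27)

`PA.AF_le`, `PA.AG_le` : the loss at the big falls of both systems is at most `(x n)⁻¹ ^ 27` (`NumA.af_small`).
-/

set_option autoImplicit false
set_option linter.unusedSectionVars false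

namespace Pool.Agent.M3.S3

open Finset Pool.Agent.PWZ Pool.Agent.M3

noncomputable section

namespace PA

variable {Lam n : ℝ} {X β γ ι φ : Type*} [Fintype X] [Fintype β] [Fintype γ] [Fintype φ] [Nonempty X] [Nonempty β]
  [Nonempty γ] {D : Dat X β γ ι φ} {Up : Upd D} {K : ℕ} {J : ℝ}

theorem rr_nn : 0 ≤ rr Lam n := by
  unfold rr
  have := al_pos (Lam := Lam)
  positivity

/-- the right side of `al_f`, `al_g` -/
theorem AF_num (h : Big Lam n) {S F NT : ℝ} (hS : l n * S ≤ n * Lam) (hF0 : 0 ≤ F) (hF : F ≤ 4 * n * Lam)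
    (hNT : NT ≤ Real.exp (25 * lg Lam n)) :
    (2 / q n * lam Lam n + (6 * th Lam n / al Lam ^ 2 + Real.log (1 / al Lam) / th Lam n ^ 2 * (Nm Lam n).kap)) * S +
      2 * q n * lam Lam n * F + Real.log (1 / al Lam) * (2 * rr Lam n * (1 + (1 + 24 / q n) * (F + NT))) ≤
      (x n)⁻¹ ^ 27 := by
  rw [log_al]
  refine af_small h hF0 hF hNT le_rfl ?_
  rw [le_div_iff₀ (l_pos h)]
  linarith

/-- **the big falls of the f-system** -/
theorem AF_le [DecidableEq φ] (h : Big Lam n) (T : D.Thick (al Lam)) (P : Proj D) (hU : UpdOk D Up K J) (hJ : 0 ≤ J)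
    (hJ' : J ≤ Real.exp Lam) (hBi : Birth D K Lam) :
    ∑ s ∈ range K, E3 (fun x b c => ind (ffF (v2 D Up (Nm Lam n) n (Lr Lam n)) (q n) (l n) s x b c) *
      Pst T (del n) (v2 D Up (Nm Lam n) n (Lr Lam n)) s x b c) ≤ (x n)⁻¹ ^ 27 := by
  have hst := fun (s : ℕ) (x : X) (b : β) (c : γ) => SA.sat_PA h T hU s x b c
  have hlam : sg Lam n * (100 * lg Lam n + 1) + 4 / del n * (sg Lam n * (Real.log (1 / al Lam) + 1)) ≤
      lam Lam n := by
    rw [log_al]
    exact le_rfl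
  have h1 := AL.al_f (q := q n) (l := l n) T v2_tst hU (h.al_le.trans (by norm_num)) (del_pos h).le (th_pos h)
    (th_le_one h) (q_pos h) (q_le h) (lam_nonneg h) (rr_nn (Lam := Lam) (n := n))
    (fun σ _ x b c => St.rows_Psg_c T (v2 D Up (Nm Lam n) n (Lr Lam n)) (del_pos h) (sg_pos h).le hst hlam σ x b c)
    (fun σ _ x b c => St.rows_Psg_b T (v2 D Up (Nm Lam n) n (Lr Lam n)) (del_pos h) (sg_pos h).le hst hlam σ x b c)
  obtain ⟨-, c2, c3, -, -, -⟩ := counts (Up := Up) (K := K) h T P (cnum h) (hnum h) hU hJ hJ' hBi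
  refine h1.trans (AF_num h ?_ ?_ c2 c3)
  · exact ffF_le T P v2_tst v2_con (cnum h) hBi (l_pos h).le
  · exact Finset.sum_nonneg fun s _ => E3_nonneg fun x b c => ind_nonneg _

/-- **the big falls of the g-system** -/
theorem AG_le [DecidableEq φ] (h : Big Lam n) (T : D.Thick (al Lam)) (P : Proj D) (hU : UpdOk D Up K J) (hJ : 0 ≤ J)
    (hJ' : J ≤ Real.exp Lam) (hBi : Birth D K Lam) :
    ∑ s ∈ range K, E3 (fun x b c => ind (ffG (v2 D Up (Nm Lam n) n (Lr Lam n)) (q n) (l n) s x b c) *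
      Pst T (del n) (v2 D Up (Nm Lam n) n (Lr Lam n)) s x b c) ≤ (x n)⁻¹ ^ 27 := by
  have hst := fun (s : ℕ) (x : X) (b : β) (c : γ) => SA.sat_PA h T hU s x b c
  have hlam : sg Lam n * (100 * lg Lam n + 1) + 4 / del n * (sg Lam n * (Real.log (1 / al Lam) + 1)) ≤
      lam Lam n := by
    rw [log_al]
    exact le_rfl
  have h1 := AL.al_g (q := q n) (l := l n) T v2_tst hU (h.al_le.trans (by norm_num)) (del_pos h).le (th_pos h)
    (th_le_one h) (q_pos h) (q_le h) (lam_nonneg h) (rr_nn (Lam := Lam) (n := n))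
    (fun σ _ x b c => St.rows_Psg_c T (v2 D Up (Nm Lam n) n (Lr Lam n)) (del_pos h) (sg_pos h).le hst hlam σ x b c)
    (fun σ _ x b c => St.rows_Psg_b T (v2 D Up (Nm Lam n) n (Lr Lam n)) (del_pos h) (sg_pos h).le hst hlam σ x b c)
  obtain ⟨-, c2, c3, -, -, -⟩ := counts (Up := Up) (K := K) h T P (cnum h) (hnum h) hU hJ hJ' hBi
  refine h1.trans (AF_num h ?_ ?_ c2 c3)
  · exact ffG_le T P v2_tst v2_con (cnum h) hBi (l_pos h).le
  · exact Finset.sum_nonneg fun s _ => E3_nonneg fun x b c => ind_nonneg _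

end PA

end

end Pool.Agent.M3.S3
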