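import Pool.Agent.M3.S3.FinA
import Pool.Agent.M3.S3.Bal
import Pool.Agent.M3.S3.M2
import Pool.Agent.M3.S3.CntPA
import Pool.Agent.M3.S3.NumN
import Pool.Agent.M3.S3.NumDef
import Pool.Agent.M3.S3.Bits0
import Pool.Agent.M3.S3.AL
import Pool.Agent.M3.S3.BE
import Pool.Agent.M3.S3.StateR
import Pool.Agent.M3.S3.PlugE
import Pool.Agent.M3.S3.PlugF

/-!
# M3.S3.EndA: Theorem 3 by route A (helper60)

`thm3A : Thm3 (1/40)`.
-/

set_option autoImplicit false
set_option linter.unusedSectionVars false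

namespace Pool.Agent.M3.S3

open Finset Pool.Agent.PWZ Pool.Agent.M3

noncomputable section

namespace EA

section main

variable {X β γ ι φ : Type} [Fintype X] [Fintype β] [Fintype γ] [Fintype φ] [Nonempty X] [Nonempty β] [Nonempty γ]
  {D : Dat X β γ ι φ} {Lam n : ℝ}

/-- the rule of route A -/
def RA (D : Dat X β γ ι φ) (Lam n : ℝ) : Rl D := v2 D (updC D) (PA.Nm Lam n) n (PA.Lr Lam n)

/-- the cells of the known points at consecutive times -/
theorem cB_half {dg : ℕ → X → ℝ} {prf prg : ℕ → φ → φ} {al : ℝ} {K : ℕ} (H : Hyp3 D dg prf prg al K Lam) {s : ℕ}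
    (hs : s < K) (b : β) : ((D.cB s b).card : ℝ) ≤ 2 * (D.cB (s + 1) b).card := by
  rcases H.halfB s hs with h | h
  · rw [h b]
    have : (0 : ℝ) ≤ (D.cB s b).card := Nat.cast_nonneg _
    linarith
  · have h1 := h b
    have h2 : ((2 * (D.cB (s + 1) b).card : ℕ) : ℝ) = (D.cB s b).card := by rw [h1]
    push_cast at h2
    exact h2.ge

theorem cC_half {dg : ℕ → X → ℝ} {prf prg : ℕ → φ → φ} {al : ℝ} {K : ℕ} (H : Hyp3 D dg prf prg al K Lam) {s : ℕ}
    (hs : s < K) (c : γ) : ((D.cC s c).card : ℝ) ≤ 2 * (D.cC (s + 1) c).card := by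
  rcases H.halfC s hs with h | h
  · rw [h c]
    have : (0 : ℝ) ≤ (D.cC s c).card := Nat.cast_nonneg _
    linarith
  · have h1 := h c
    have h2 : ((2 * (D.cC (s + 1) c).card : ℕ) : ℝ) = (D.cC s c).card := by rw [h1]
    push_cast at h2
    exact h2.ge

variable {K : ℕ} {dg : ℕ → X → ℝ}

/-- big final cells -/
theorem bg_le (h : PA.Big Lam n) (hb : bits (RA D Lam n) K ≤ 4 * n * Lam) :
    ∑ s ∈ range K, E3 (fun x b c => ind (bgc (RA D Lam n) (PA.L0 n) s x b c)) ≤ 4 * n * Lam / PA.L0 n := by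
  rw [le_div_iff₀ (PA.L0_pos h), mul_comm]
  exact (bgc_le (R := RA D Lam n) (PA.L0 n) K).trans hb

theorem sum_hlf (R : Rl D) :
    ∑ t ∈ range K, E3 (fun x b c => Real.log (((hlf D R.U t x b c).card : ℝ) / (R.U (t + 1) x b c).card)) =
      bits R K := by
  unfold bits
  refine sum_congr rfl fun t _ => ?_
  congr 1
  funext x b c
  rw [hlf_U]

/-- bad digits -/
theorem bd_le (R : Rl D) (hd : ∀ t x, dg t x = 1 ∨ dg t x = -1)
    (hcell : ∀ t < K, ∀ x x', D.qa (t + 1) x = D.qa (t + 1) x' ↔ D.qa t x = D.qa t x' ∧ dg t x = dg t x')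
    (hbal : ∀ t < K, ∀ x, ∑ y ∈ D.cA t x, dg t y = 0) :
    ∑ s ∈ range K, E3 (fun x b c => ind (1 / 2 < |avg (R.U s x b c) (dg s)|)) ≤
      8 * (E3 (fun x b c => Real.log (((D.cA 0 x).card : ℝ) / (R.U 0 x b c).card)) + bits R K) := by
  have h1 := sum_mbig (U_refCl R) hd hcell hbal
  rw [sum_hlf] at h1
  exact h1

theorem m2_le {al : ℝ} (T : D.Thick al) (R : Rl D) (hd : ∀ t x, dg t x = 1 ∨ dg t x = -1)
    (hcell : ∀ t < K, ∀ x x', D.qa (t + 1) x = D.qa (t + 1) x' ↔ D.qa t x = D.qa t x' ∧ dg t x = dg t x')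
    (hbal : ∀ t < K, ∀ x, ∑ y ∈ D.cA t x, dg t y = 0) :
    ∑ t ∈ range K, (D.kp T t).P.E (fun w => m3 T dg R.U t w ^ 2) ≤
      2 * (E3 (fun x b c => Real.log (((D.cA 0 x).card : ℝ) / (R.U 0 x b c).card)) + bits R K) := by
  have h1 := concl_m2 T (U_refCl R) hd hcell hbal
  rw [sum_hlf] at h1
  exact h1

/-- **route A**, the bounds (al), (be) as hypotheses -/
theorem endA_of [DecidableEq φ] (h : PA.Big Lam n) {prf prg : ℕ → φ → φ} {al : ℝ}
    (T0 : D.Thick al) (H : Hyp3 D dg prf prg al K Lam) (P : Proj D) (T : D.Thick (PA.al Lam))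
    (hAF : ∑ s ∈ range K, E3 (fun x b c => ind (ffF (RA D Lam n) (PA.q n) (PA.l n) s x b c) *
      Pst T (PA.del n) (RA D Lam n) s x b c) ≤ (PA.x n)⁻¹ ^ 27)
    (hAG : ∑ s ∈ range K, E3 (fun x b c => ind (ffG (RA D Lam n) (PA.q n) (PA.l n) s x b c) *
      Pst T (PA.del n) (RA D Lam n) s x b c) ≤ (PA.x n)⁻¹ ^ 27)
    (hBE : ∑ s ∈ range K, E3 (fun x b c => ind (ntn (RA D Lam n) (PA.mu Lam n) s x b c ∧
      bgc (RA D Lam n) (PA.L0 n) s x b c ∧ ¬ ffF (RA D Lam n) (PA.q n) (PA.l n) s x b c ∧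
        ¬ ffG (RA D Lam n) (PA.q n) (PA.l n) s x b c) * Pst T (PA.del n) (RA D Lam n) s x b c) ≤ (PA.x n)⁻¹ ^ 27) :
    Concl3 T0 dg K Lam n (1 / 40) 1000000 (RA D Lam n).U := by
  have hA := hyp_all T0 H
  have hL1 := h.Lam1
  have hn := h.n_pos
  have hLn : 0 ≤ n * Lam := by positivity
  have H' : Hyp3 D dg prf prg (PA.al Lam) K Lam := { H with alL := le_rfl }
  have hb0 : E3 (fun x b c => Real.log (((D.cA 0 x).card : ℝ) / ((RA D Lam n).U 0 x b c).card)) +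
      bits (RA D Lam n) K ≤ 4 * n * Lam := B0.hv_bits0 T P v2_tst v2_con (PA.cnum h) hA.birth
  have hb : bits (RA D Lam n) K ≤ 4 * n * Lam := bits_le T P v2_tst v2_con (PA.cnum h) hA.birth
  have hLp1 : Lam ≤ Lam ^ 1000000 := le_self_pow₀ hL1 (by norm_num)
  have hxy : (4 : ℝ) * Lam ≤ ((1000000 : ℕ) : ℝ) * Lam := by
    push_cast
    linarith
  have key := finA T (PA.al_le_one h) (RA D Lam n) H' hA.birth (PA.sg_pos h) (PA.sg_le_sgh h) PA.mu_pos (PA.mu_le h)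
    (PA.B_ge h) (PA.eta_pos h) (PA.B_eta h) (PA.del_pos h).le (L0 := PA.L0 n) (q := PA.q n) (l := PA.l n)
    (fun s _ x b c => SA.sat_PA h T hA.upd s x b c)
    (fun s hs x b c hnt => by
      have h1 := SA.sat_half T (RA D Lam n) (PA.sg_pos h).le PA.mu_pos (SA.sat_PA h T hA.upd s x b c)
        (cB_half H hs b) (cC_half H hs c) hnt
      rw [SA.hlf_hcl, PA.sgH_eq] at h1
      exact h1)
    (bd_le (RA D Lam n) H.dg_val H.dg_cell H.dg_bal)
    (bg_le h hb)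
    (B0.two_le (RA D Lam n) K) hAF hAG hBE
  have fin := PA.final h (BD := 8 * (E3 (fun x b c => Real.log (((D.cA 0 x).card : ℝ) /
      ((RA D Lam n).U 0 x b c).card)) + bits (RA D Lam n) K)) (BG := 4 * n * Lam / PA.L0 n)
    (HB := 2 * bits (RA D Lam n) K) (by linarith) le_rfl (by linarith) le_rfl le_rfl le_rfl
  refine ⟨U_refCl _, ?_, ?_, ?_, key.trans fin⟩
  · refine (m2_le T (RA D Lam n) H.dg_val H.dg_cell H.dg_bal).trans ?_
    have h2 : n * Lam ≤ n * Lam ^ 1000000 := mul_le_mul_of_nonneg_left hLp1 hn.le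
    push_cast
    linarith
  · exact (concl_x2 T (U_refCl _) hA.birth H.dg_val H.dg_cell).trans hxy
  · exact (concl_y2 T (U_refCl _) hA.birth H.dg_val H.dg_cell).trans hxy

end main

end EA

/-- **THEOREM 3** of section 3, with the exponent `1/40` -/
theorem thm3A : Thm3 (1 / 40) := by
  refine thm3_of_frz ⟨1000000, ?_⟩
  intro X β γ ι φ _ _ _ _ _ _ _ _ D al T0 dg prf prg K Lam n H P hn
  have h : PA.Big Lam n := ⟨H.Lam1, hn⟩
  have hA := hyp_all T0 H
  have T : D.Thick (PA.al Lam) := T0.mono PA.al_pos H.alL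
  exact ⟨(EA.RA D Lam n).U, EA.endA_of h T0 H P T
    (PA.AF_le h T P hA.upd (Real.exp_pos _).le le_rfl hA.birth)
    (PA.AG_le h T P hA.upd (Real.exp_pos _).le le_rfl hA.birth)
    (PA.BE_le h T P hA.upd (Real.exp_pos _).le le_rfl hA.birth (fun s hs b => EA.cB_half H hs b)
      (fun s hs c => EA.cC_half H hs c))⟩

end

end Pool.Agent.M3.S3
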