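import Pool.Agent.M3.S3.Bud
import Pool.Agent.M3.S3Rob

/-!
# M3.S3.Law: the law of the pair of labels of one time, boxes (helper64)

`Sp X β γ φ = X × β × γ × φ × φ` = (hidden point, two known points, two labels).  `KP` = the two kernels of one time,
`KP.P : FP (Sp ..)` the law (uniform law of the points, labels from the kernels).  Letters with their owners:
`xF w = (F, b)`, `xG w = (G, c)`.
`Bx` = public partition of `X × β × γ` into boxes `V × B × C`; `Bx.map` = the state of a point; `Bx.Ok k` = the kernels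
depend on the other known point only through the box.
* `E_eq` : `E h = E3 (∑ F, ∑ G, f F * g G * h)`;
* `E3_box` : the mean of a function is the mean of its averages over the boxes;
* `m_N`, `m_F`, `m_G`, `m_FG` : masses; `iota_FG`, `iota_F`, `iota_G`, `rt_F`, `rt_G` : densities;
* `SatS` saturation of a state, `Thk` thickness on a class, `psi`, `Psi`.
-/

set_option autoImplicit false
set_option linter.unusedSectionVars false

namespace Pool.Agent.M3.S3

open Finset Pool.Agent.PWZ Pool.Agent.M3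

noncomputable section

/-- sample points -/
abbrev Sp (X β γ φ : Type*) := X × β × γ × φ × φ

/-- the two kernels of one time -/
structure KP (X β γ φ : Type*) [Fintype φ] where
  f : X → β → γ → φ → ℝ
  g : X → β → γ → φ → ℝ
  f_nn : ∀ x b c F, 0 ≤ f x b c F
  g_nn : ∀ x b c F, 0 ≤ g x b c F
  f_one : ∀ x b c, ∑ F, f x b c F = 1
  g_one : ∀ x b c, ∑ F, g x b c F = 1

/-- the kernels of the time `t` -/
def Dat.kp {X β γ ι φ : Type*} [Fintype φ] {D : Dat X β γ ι φ} {al : ℝ} (T : D.Thick al) (t : ℕ) : KP X β γ φ where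
  f := D.kf t
  g := D.kg t
  f_nn := T.f_nn t
  g_nn := T.g_nn t
  f_one := T.f_one t
  g_one := T.g_one t

/-- public partition into boxes -/
structure Bx (X β γ : Type*) where
  V : X → β → γ → Finset X
  B : X → β → γ → Finset β
  C : X → β → γ → Finset γ
  sV : ∀ x b c, x ∈ V x b c
  sB : ∀ x b c, b ∈ B x b c
  sC : ∀ x b c, c ∈ C x b c
  inv : ∀ x b c x' b' c', x' ∈ V x b c → b' ∈ B x b c → c' ∈ C x b c →
    V x' b' c' = V x b c ∧ B x' b' c' = B x b c ∧ C x' b' c' = C x b c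

variable {X β γ φ : Type*}

/-- the letter of the first known point with its owner -/
def xF (w : Sp X β γ φ) : φ × β := (w.2.2.2.1, w.2.1)

/-- the letter of the second known point with its owner -/
def xG (w : Sp X β γ φ) : φ × γ := (w.2.2.2.2, w.2.2.1)

/-- the state of a sample point -/
def Bx.map (N : Bx X β γ) (w : Sp X β γ φ) : Finset X × Finset β × Finset γ :=
  (N.V w.1 w.2.1 w.2.2.1, N.B w.1 w.2.1 w.2.2.1, N.C w.1 w.2.1 w.2.2.1)

/-- the kernels depend on the other known point through the box only -/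
structure Bx.Ok [Fintype φ] (N : Bx X β γ) (k : KP X β γ φ) : Prop where
  f : ∀ x b c c' y, c' ∈ N.C x b c → k.f y b c' = k.f y b c
  g : ∀ x b b' c y, b' ∈ N.B x b c → k.g y b' c = k.g y b c

theorem Bx.map_eq {N : Bx X β γ} {v w : Sp X β γ φ} : N.map v = N.map w ↔
    v.1 ∈ N.V w.1 w.2.1 w.2.2.1 ∧ v.2.1 ∈ N.B w.1 w.2.1 w.2.2.1 ∧ v.2.2.1 ∈ N.C w.1 w.2.1 w.2.2.1 := by
  unfold Bx.map
  constructor
  · intro h
    simp only [Prod.mk.injEq] at h
    exact ⟨h.1 ▸ N.sV _ _ _, h.2.1 ▸ N.sB _ _ _, h.2.2 ▸ N.sC _ _ _⟩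
  · rintro ⟨h1, h2, h3⟩
    obtain ⟨e1, e2, e3⟩ := N.inv _ _ _ _ _ _ h1 h2 h3
    rw [e1, e2, e3]

section sums

variable [Fintype X] [Fintype β] [Fintype γ]

theorem E3_eq3 (f : X → β → γ → ℝ) : E3 f = (∑ x, ∑ b, ∑ c, f x b c) /
    (Fintype.card X * (Fintype.card β * Fintype.card γ)) := by
  unfold E3 avg
  simp only [card_univ]
  simp only [← Finset.sum_div]
  rw [div_div, div_div]
  congr 1
  ring

theorem E3_congr {f g : X → β → γ → ℝ} (h : ∀ x b c, f x b c = g x b c) : E3 f = E3 g := by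
  have : f = g := by funext x b c; exact h x b c
  rw [this]

theorem E3_mul_const (f : X → β → γ → ℝ) (a : ℝ) : E3 (fun x b c => f x b c * a) = E3 f * a := by
  rw [mul_comm, ← E3_smul]
  exact E3_congr fun x b c => mul_comm _ _

theorem E3_const [Nonempty X] [Nonempty β] [Nonempty γ] (a : ℝ) : E3 (fun (_ : X) (_ : β) (_ : γ) => a) = a := by
  rw [E3_eq3]
  simp only [Finset.sum_const, card_univ, nsmul_eq_mul]
  have h1 : (Fintype.card X : ℝ) ≠ 0 := by exact_mod_cast Fintype.card_ne_zero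
  have h2 : (Fintype.card β : ℝ) ≠ 0 := by exact_mod_cast Fintype.card_ne_zero
  have h3 : (Fintype.card γ : ℝ) ≠ 0 := by exact_mod_cast Fintype.card_ne_zero
  field_simp

theorem E3_finsum {α : Type*} (s : Finset α) (f : α → X → β → γ → ℝ) :
    E3 (fun x b c => ∑ i ∈ s, f i x b c) = ∑ i ∈ s, E3 (f i) := by
  classical
  induction s using Finset.induction_on with
  | empty =>
    simp only [Finset.sum_empty]
    rw [E3_eq3]
    simp
  | insert a s ha ih =>
    rw [Finset.sum_insert ha, ← ih, ← E3_add]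
    exact E3_congr fun x b c => Finset.sum_insert ha

/-- sums over the own cell of a partition -/
theorem sum_cell {α : Type*} [Fintype α] (bx : α → Finset α) (hs : ∀ w, w ∈ bx w)
    (hi : ∀ v w, v ∈ bx w → bx v = bx w) (h : α → ℝ) :
    ∑ w, (∑ v ∈ bx w, h v) / (bx w).card = ∑ w, h w := by
  classical
  have h1 : ∀ w, (∑ v ∈ bx w, h v) / (bx w).card = ∑ v, (if v ∈ bx w then h v / (bx w).card else 0) := by
    intro w
    rw [Finset.sum_div, ← Finset.sum_filter]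
    refine Finset.sum_congr ?_ (fun _ _ => rfl)
    ext v; simp
  rw [Finset.sum_congr rfl (fun w _ => h1 w), Finset.sum_comm]
  refine Finset.sum_congr rfl (fun v _ => ?_)
  have h2 : ∀ w, (if v ∈ bx w then h v / ((bx w).card : ℝ) else 0) =
      if w ∈ bx v then h v / ((bx v).card : ℝ) else 0 := by
    intro w
    by_cases hv : v ∈ bx w
    · have e := hi v w hv
      have hw : w ∈ bx v := e ▸ hs w
      rw [if_pos hv, if_pos hw, e]
    · have hw : ¬ w ∈ bx v := fun hw => hv (hi w v hw ▸ hs v)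
      rw [if_neg hv, if_neg hw]
  rw [Finset.sum_congr rfl (fun w _ => h2 w), ← Finset.sum_filter]
  have h3 : (univ.filter fun w => w ∈ bx v) = bx v := by ext w; simp
  rw [h3, Finset.sum_const, nsmul_eq_mul]
  have : ((bx v).card : ℝ) ≠ 0 := by
    exact_mod_cast (Finset.card_pos.2 ⟨v, hs v⟩).ne'
  field_simp

/-- BOX FORMULA -/
theorem E3_box (N : Bx X β γ) (h : X → β → γ → ℝ) : E3 h = E3 fun x b c =>
    avg (N.V x b c) fun x' => avg (N.B x b c) fun b' => avg (N.C x b c) fun c' => h x' b' c' := by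
  rw [E3_eq3, E3_eq3]
  congr 1
  have h1 := sum_cell (α := X × β × γ) (fun w => N.V w.1 w.2.1 w.2.2 ×ˢ (N.B w.1 w.2.1 w.2.2 ×ˢ N.C w.1 w.2.1 w.2.2))
    (fun w => by
      simp only [Finset.mem_product]
      exact ⟨N.sV _ _ _, N.sB _ _ _, N.sC _ _ _⟩)
    (fun v w hv => by
      simp only [Finset.mem_product] at hv
      obtain ⟨e1, e2, e3⟩ := N.inv _ _ _ _ _ _ hv.1 hv.2.1 hv.2.2
      rw [e1, e2, e3]) (fun w => h w.1 w.2.1 w.2.2)
  rw [Fintype.sum_prod_type, Fintype.sum_prod_type] at h1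
  simp only [Fintype.sum_prod_type] at h1
  rw [← h1]
  refine Finset.sum_congr rfl fun x _ => Finset.sum_congr rfl fun b _ => Finset.sum_congr rfl fun c _ => ?_
  rw [Finset.sum_product]
  simp only [Finset.sum_product]
  rw [Finset.card_product, Finset.card_product]
  unfold avg
  simp only [← Finset.sum_div]
  rw [div_div, div_div]
  push_cast
  congr 1
  ring

end sums

section law

variable [Fintype X] [Fintype β] [Fintype γ] [Fintype φ] [Nonempty X] [Nonempty β] [Nonempty γ]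

/-- the law of one time -/
def KP.P (k : KP X β γ φ) : FP (Sp X β γ φ) where
  p := fun w => k.f w.1 w.2.1 w.2.2.1 w.2.2.2.1 * k.g w.1 w.2.1 w.2.2.1 w.2.2.2.2 /
    (Fintype.card X * (Fintype.card β * Fintype.card γ))
  nn := fun w => div_nonneg (mul_nonneg (k.f_nn _ _ _ _) (k.g_nn _ _ _ _)) (by positivity)
  tot := by
    have h1 : (Fintype.card X : ℝ) ≠ 0 := by exact_mod_cast Fintype.card_ne_zero
    have h2 : (Fintype.card β : ℝ) ≠ 0 := by exact_mod_cast Fintype.card_ne_zero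
    have h3 : (Fintype.card γ : ℝ) ≠ 0 := by exact_mod_cast Fintype.card_ne_zero
    rw [← Finset.sum_div]
    simp only [Fintype.sum_prod_type]
    simp only [← Finset.mul_sum, k.f_one, k.g_one, mul_one]
    simp only [Finset.sum_const, card_univ, nsmul_eq_mul, mul_one]
    field_simp

variable (k : KP X β γ φ)

theorem KP.E_eq (h : Sp X β γ φ → ℝ) : k.P.E h =
    E3 fun x b c => ∑ F, ∑ G, k.f x b c F * k.g x b c G * h (x, b, c, F, G) := by
  unfold FP.E KP.P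
  rw [E3_eq3, Finset.sum_div]
  simp only [Fintype.sum_prod_type]
  refine Finset.sum_congr rfl fun x _ => ?_
  rw [Finset.sum_div]
  refine Finset.sum_congr rfl fun b _ => ?_
  rw [Finset.sum_div]
  refine Finset.sum_congr rfl fun c _ => ?_
  rw [Finset.sum_div]
  refine Finset.sum_congr rfl fun F _ => ?_
  rw [Finset.sum_div]
  refine Finset.sum_congr rfl fun G _ => ?_
  ring

/-- functions of the points only -/
theorem KP.E_pts (h : X → β → γ → ℝ) : k.P.E (fun w => h w.1 w.2.1 w.2.2.1) = E3 h := by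
  rw [k.E_eq]
  refine E3_congr fun x b c => ?_
  show ∑ F, ∑ G, k.f x b c F * k.g x b c G * h x b c = h x b c
  simp only [← Finset.sum_mul, ← Finset.mul_sum, k.f_one, k.g_one, mul_one, one_mul]

/-- functions of the points and the first label -/
theorem KP.E_F (h : X → β → γ → φ → ℝ) : k.P.E (fun w => h w.1 w.2.1 w.2.2.1 w.2.2.2.1) =
    E3 fun x b c => ∑ F, k.f x b c F * h x b c F := by
  rw [k.E_eq]
  refine E3_congr fun x b c => Finset.sum_congr rfl fun F _ => ?_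
  show ∑ G, k.f x b c F * k.g x b c G * h x b c F = _
  simp only [← Finset.sum_mul, ← Finset.mul_sum, k.g_one, mul_one]

/-- functions of the points and the second label -/
theorem KP.E_G (h : X → β → γ → φ → ℝ) : k.P.E (fun w => h w.1 w.2.1 w.2.2.1 w.2.2.2.2) =
    E3 fun x b c => ∑ G, k.g x b c G * h x b c G := by
  rw [k.E_eq]
  refine E3_congr fun x b c => ?_
  rw [Finset.sum_comm]
  refine Finset.sum_congr rfl fun G _ => ?_
  show ∑ F, k.f x b c F * k.g x b c G * h x b c G = _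
  simp only [← Finset.sum_mul, k.f_one, one_mul]

/-- masses inside a box -/
theorem KP.E_in (V : Finset X) (B : Finset β) (C : Finset γ) (h : Sp X β γ φ → ℝ) :
    k.P.E (fun w => ind (w.1 ∈ V ∧ w.2.1 ∈ B ∧ w.2.2.1 ∈ C) * h w) =
    (∑ x ∈ V, ∑ b ∈ B, ∑ c ∈ C, ∑ F, ∑ G, k.f x b c F * k.g x b c G * h (x, b, c, F, G)) /
      (Fintype.card X * (Fintype.card β * Fintype.card γ)) := by
  classical
  rw [k.E_eq, E3_eq3]
  congr 1
  have h1 : ∀ x b c, ∑ F, ∑ G, k.f x b c F * k.g x b c G * (ind (x ∈ V ∧ b ∈ B ∧ c ∈ C) * h (x, b, c, F, G)) =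
      if x ∈ V then (if b ∈ B then (if c ∈ C then
        ∑ F, ∑ G, k.f x b c F * k.g x b c G * h (x, b, c, F, G) else 0) else 0) else 0 := by
    intro x b c
    by_cases hx : x ∈ V
    · by_cases hb : b ∈ B
      · by_cases hc : c ∈ C
        · rw [if_pos hx, if_pos hb, if_pos hc, ind_of ⟨hx, hb, hc⟩]
          simp only [one_mul]
        · rw [if_pos hx, if_pos hb, if_neg hc, ind_not (fun h => hc h.2.2)]
          simp
      · rw [if_pos hx, if_neg hb, ind_not (fun h => hb h.2.1)]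
        simp
    · rw [if_neg hx, ind_not (fun h => hx h.1)]
      simp
  rw [Finset.sum_congr rfl fun x _ => Finset.sum_congr rfl fun b _ => Finset.sum_congr rfl fun c _ => h1 x b c]
  have h2 : ∀ x b, (∑ c, if x ∈ V then (if b ∈ B then (if c ∈ C then
        ∑ F, ∑ G, k.f x b c F * k.g x b c G * h (x, b, c, F, G) else 0) else 0) else 0) =
      if x ∈ V then (if b ∈ B then ∑ c ∈ C, ∑ F, ∑ G, k.f x b c F * k.g x b c G * h (x, b, c, F, G) else 0)
        else 0 := by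
    intro x b
    by_cases hx : x ∈ V
    · by_cases hb : b ∈ B
      · simp only [if_pos hx, if_pos hb]
        rw [← Finset.sum_filter]
        exact Finset.sum_congr (by ext c; simp) fun _ _ => rfl
      · simp only [if_pos hx, if_neg hb, Finset.sum_const_zero]
    · simp only [if_neg hx, Finset.sum_const_zero]
  rw [Finset.sum_congr rfl fun x _ => Finset.sum_congr rfl fun b _ => h2 x b]
  have h3 : ∀ x, (∑ b, if x ∈ V then (if b ∈ B then
        ∑ c ∈ C, ∑ F, ∑ G, k.f x b c F * k.g x b c G * h (x, b, c, F, G) else 0) else 0) =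
      if x ∈ V then ∑ b ∈ B, ∑ c ∈ C, ∑ F, ∑ G, k.f x b c F * k.g x b c G * h (x, b, c, F, G) else 0 := by
    intro x
    by_cases hx : x ∈ V
    · simp only [if_pos hx]
      rw [← Finset.sum_filter]
      exact Finset.sum_congr (by ext c; simp) fun _ _ => rfl
    · simp only [if_neg hx, Finset.sum_const_zero]
  rw [Finset.sum_congr rfl fun x _ => h3 x, ← Finset.sum_filter]
  exact Finset.sum_congr (by ext c; simp) fun _ _ => rfl

/-- number of points -/
def MM (X β γ : Type*) [Fintype X] [Fintype β] [Fintype γ] : ℝ :=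
  Fintype.card X * (Fintype.card β * Fintype.card γ)

theorem MM_pos : 0 < MM X β γ := by
  unfold MM
  have h1 : (0 : ℝ) < Fintype.card X := by exact_mod_cast Fintype.card_pos
  have h2 : (0 : ℝ) < Fintype.card β := by exact_mod_cast Fintype.card_pos
  have h3 : (0 : ℝ) < Fintype.card γ := by exact_mod_cast Fintype.card_pos
  positivity

variable {N : Bx X β γ}

theorem m_N (w : Sp X β γ φ) : k.P.m N.map w =
    (N.V w.1 w.2.1 w.2.2.1).card * ((N.B w.1 w.2.1 w.2.2.1).card * (N.C w.1 w.2.1 w.2.2.1).card) / MM X β γ := by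
  have h1 : k.P.m N.map w = k.P.E (fun v => ind (v.1 ∈ N.V w.1 w.2.1 w.2.2.1 ∧ v.2.1 ∈ N.B w.1 w.2.1 w.2.2.1 ∧
      v.2.2.1 ∈ N.C w.1 w.2.1 w.2.2.1) * 1) := by
    unfold FP.m
    refine k.P.E_congr fun v _ => ?_
    rw [mul_one]
    exact congrArg ind (propext N.map_eq)
  rw [h1, k.E_in, MM]
  congr 1
  simp only [mul_one, ← Finset.mul_sum, k.g_one, k.f_one, Finset.sum_const, nsmul_eq_mul]
  ring

theorem m_F (hN : N.Ok k) (w : Sp X β γ φ) : k.P.m (fun v => (xF v, N.map v)) w =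
    (N.C w.1 w.2.1 w.2.2.1).card * (∑ x ∈ N.V w.1 w.2.1 w.2.2.1, k.f x w.2.1 w.2.2.1 w.2.2.2.1) / MM X β γ := by
  classical
  obtain ⟨x0, b, c, F, G⟩ := w
  have h1 : k.P.m (fun v => (xF v, N.map v)) (x0, b, c, F, G) = k.P.E (fun v => ind (v.1 ∈ N.V x0 b c ∧
      v.2.1 ∈ ({b} : Finset β) ∧ v.2.2.1 ∈ N.C x0 b c) * ind (v.2.2.2.1 = F)) := by
    unfold FP.m
    refine k.P.E_congr fun v _ => ?_
    rw [← ind_and]
    refine congrArg ind (propext ?_)
    simp only [Prod.mk.injEq, xF, Finset.mem_singleton]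
    rw [N.map_eq]
    constructor
    · rintro ⟨⟨h1, h2⟩, h3, h4, h5⟩
      exact ⟨⟨h3, h2, h5⟩, h1⟩
    · rintro ⟨⟨h3, h2, h5⟩, h1⟩
      refine ⟨⟨h1, h2⟩, h3, ?_, h5⟩
      rw [h2]
      exact N.sB _ _ _
  rw [h1, k.E_in, MM]
  congr 1
  simp only [Finset.sum_singleton]
  have h2 : ∀ x ∈ N.V x0 b c, (∑ c' ∈ N.C x0 b c, ∑ F', ∑ G', k.f x b c' F' * k.g x b c' G' * ind (F' = F)) =
      (N.C x0 b c).card * k.f x b c F := by
    intro x _
    have h3 : ∀ c' ∈ N.C x0 b c, (∑ F', ∑ G', k.f x b c' F' * k.g x b c' G' * ind (F' = F)) = k.f x b c F := by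
      intro c' hc'
      have h4 : ∀ F', (∑ G', k.f x b c' F' * k.g x b c' G' * ind (F' = F)) = k.f x b c F' * ind (F' = F) := by
        intro F'
        rw [← Finset.sum_mul, ← Finset.mul_sum, k.g_one, mul_one, hN.f x0 b c c' x hc']
      rw [Finset.sum_congr rfl fun F' _ => h4 F', Finset.sum_eq_single F]
      · rw [ind_of rfl, mul_one]
      · intro F' _ hne
        rw [ind_not hne, mul_zero]
      · intro h; exact absurd (Finset.mem_univ F) h
    rw [Finset.sum_congr rfl h3, Finset.sum_const, nsmul_eq_mul]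
  rw [Finset.sum_congr rfl h2, Finset.mul_sum]

theorem m_G (hN : N.Ok k) (w : Sp X β γ φ) : k.P.m (fun v => (xG v, N.map v)) w =
    (N.B w.1 w.2.1 w.2.2.1).card * (∑ x ∈ N.V w.1 w.2.1 w.2.2.1, k.g x w.2.1 w.2.2.1 w.2.2.2.2) / MM X β γ := by
  classical
  obtain ⟨x0, b, c, F, G⟩ := w
  have h1 : k.P.m (fun v => (xG v, N.map v)) (x0, b, c, F, G) = k.P.E (fun v => ind (v.1 ∈ N.V x0 b c ∧
      v.2.1 ∈ N.B x0 b c ∧ v.2.2.1 ∈ ({c} : Finset γ)) * ind (v.2.2.2.2 = G)) := by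
    unfold FP.m
    refine k.P.E_congr fun v _ => ?_
    rw [← ind_and]
    refine congrArg ind (propext ?_)
    simp only [Prod.mk.injEq, xG, Finset.mem_singleton]
    rw [N.map_eq]
    constructor
    · rintro ⟨⟨h1, h2⟩, h3, h4, h5⟩
      exact ⟨⟨h3, h4, h2⟩, h1⟩
    · rintro ⟨⟨h3, h4, h2⟩, h1⟩
      refine ⟨⟨h1, h2⟩, h3, h4, ?_⟩
      rw [h2]
      exact N.sC _ _ _
  rw [h1, k.E_in, MM]
  congr 1
  simp only [Finset.sum_singleton]
  have h2 : ∀ x ∈ N.V x0 b c, (∑ b' ∈ N.B x0 b c, ∑ F', ∑ G', k.f x b' c F' * k.g x b' c G' * ind (G' = G)) =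
      (N.B x0 b c).card * k.g x b c G := by
    intro x _
    have h3 : ∀ b' ∈ N.B x0 b c, (∑ F', ∑ G', k.f x b' c F' * k.g x b' c G' * ind (G' = G)) = k.g x b c G := by
      intro b' hb'
      rw [Finset.sum_comm]
      have h4 : ∀ G', (∑ F', k.f x b' c F' * k.g x b' c G' * ind (G' = G)) = k.g x b c G' * ind (G' = G) := by
        intro G'
        rw [← Finset.sum_mul, ← Finset.sum_mul, k.f_one, one_mul, hN.g x0 b b' c x hb']
      rw [Finset.sum_congr rfl fun G' _ => h4 G', Finset.sum_eq_single G]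
      · rw [ind_of rfl, mul_one]
      · intro F' _ hne
        rw [ind_not hne, mul_zero]
      · intro h; exact absurd (Finset.mem_univ G) h
    rw [Finset.sum_congr rfl h3, Finset.sum_const, nsmul_eq_mul]
  rw [Finset.sum_congr rfl h2, Finset.mul_sum]

theorem m_FG (w : Sp X β γ φ) : k.P.m (fun v => (xF v, xG v, N.map v)) w =
    (∑ x ∈ N.V w.1 w.2.1 w.2.2.1, k.f x w.2.1 w.2.2.1 w.2.2.2.1 * k.g x w.2.1 w.2.2.1 w.2.2.2.2) / MM X β γ := by
  classical
  obtain ⟨x0, b, c, F, G⟩ := w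
  have h1 : k.P.m (fun v => (xF v, xG v, N.map v)) (x0, b, c, F, G) = k.P.E (fun v => ind (v.1 ∈ N.V x0 b c ∧
      v.2.1 ∈ ({b} : Finset β) ∧ v.2.2.1 ∈ ({c} : Finset γ)) * ind (v.2.2.2.1 = F ∧ v.2.2.2.2 = G)) := by
    unfold FP.m
    refine k.P.E_congr fun v _ => ?_
    rw [← ind_and]
    refine congrArg ind (propext ?_)
    simp only [Prod.mk.injEq, xF, xG, Finset.mem_singleton]
    rw [N.map_eq]
    constructor
    · rintro ⟨⟨h1, h2⟩, ⟨h6, h7⟩, h3, h4, h5⟩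
      exact ⟨⟨h3, h2, h7⟩, h1, h6⟩
    · rintro ⟨⟨h3, h2, h7⟩, h1, h6⟩
      refine ⟨⟨h1, h2⟩, ⟨h6, h7⟩, h3, ?_, ?_⟩
      · rw [h2]; exact N.sB _ _ _
      · rw [h7]; exact N.sC _ _ _
  rw [h1, k.E_in, MM]
  congr 1
  simp only [Finset.sum_singleton]
  refine Finset.sum_congr rfl fun x _ => ?_
  rw [Finset.sum_eq_single F, Finset.sum_eq_single G]
  · rw [ind_of ⟨rfl, rfl⟩, mul_one]
  · intro G' _ hne
    rw [ind_not (fun h => hne h.2), mul_zero]
  · intro h; exact absurd (Finset.mem_univ G) h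
  · intro F' _ hne
    refine Finset.sum_eq_zero fun G' _ => ?_
    rw [ind_not (fun h => hne h.1), mul_zero]
  · intro h; exact absurd (Finset.mem_univ F) h

/-- density of the pair of labels of `(b,c)` on the class `V` -/
def io (k : KP X β γ φ) (V : Finset X) (b : β) (c : γ) (F G : φ) : ℝ :=
  Real.log (avg V (fun x => k.f x b c F * k.g x b c G) /
    (law V (fun x => k.f x b c) F * law V (fun x => k.g x b c) G))

theorem iota_FG (hN : N.Ok k) (w : Sp X β γ φ) : k.P.iota xF xG N.map w =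
    io k (N.V w.1 w.2.1 w.2.2.1) w.2.1 w.2.2.1 w.2.2.2.1 w.2.2.2.2 := by
  unfold FP.iota io
  rw [m_FG, m_N, m_F k hN, m_G k hN]
  congr 1
  unfold law avg
  have hM : MM X β γ ≠ 0 := MM_pos.ne'
  have hB : ((N.B w.1 w.2.1 w.2.2.1).card : ℝ) ≠ 0 := by
    exact_mod_cast (Finset.card_pos.2 ⟨_, N.sB w.1 w.2.1 w.2.2.1⟩).ne'
  have hC : ((N.C w.1 w.2.1 w.2.2.1).card : ℝ) ≠ 0 := by
    exact_mod_cast (Finset.card_pos.2 ⟨_, N.sC w.1 w.2.1 w.2.2.1⟩).ne'
  have hV : ((N.V w.1 w.2.1 w.2.2.1).card : ℝ) ≠ 0 := by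
    exact_mod_cast (Finset.card_pos.2 ⟨_, N.sV w.1 w.2.1 w.2.2.1⟩).ne'
  field_simp

/-- `Z` refines `N` with the same cells of the known points -/
structure Bx.Sub (Z N : Bx X β γ) : Prop where
  V : ∀ x b c, Z.V x b c ⊆ N.V x b c
  B : ∀ x b c, Z.B x b c = N.B x b c
  C : ∀ x b c, Z.C x b c = N.C x b c

variable {Z : Bx X β γ}

theorem Bx.Sub.fac (h : Z.Sub N) : Fac (Z.map (φ := φ)) (N.map (φ := φ)) := by
  intro v w hv
  rw [Bx.map_eq] at hv ⊢
  exact ⟨h.V _ _ _ hv.1, h.B _ _ _ ▸ hv.2.1, h.C _ _ _ ▸ hv.2.2⟩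

theorem Bx.Sub.ok (h : Z.Sub N) (hN : N.Ok k) : Z.Ok k :=
  ⟨fun x b c c' y hc => hN.f x b c c' y (h.C x b c ▸ hc), fun x b b' c y hb => hN.g x b b' c y (h.B x b c ▸ hb)⟩

theorem m_pair (h : Z.Sub N) (w : Sp X β γ φ) : k.P.m (fun v => (Z.map v, N.map v)) w = k.P.m Z.map w :=
  k.P.m_congr (Fac.fst _ _) ((Fac.refl _).prod h.fac) w

theorem m_F_pair (h : Z.Sub N) (w : Sp X β γ φ) :
    k.P.m (fun v => (xF v, Z.map v, N.map v)) w = k.P.m (fun v => (xF v, Z.map v)) w :=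
  k.P.m_congr (fun v w hv => by simp only [Prod.mk.injEq] at hv ⊢; exact ⟨hv.1, hv.2.1⟩)
    (fun v w hv => by
      simp only [Prod.mk.injEq] at hv ⊢
      exact ⟨hv.1, hv.2, h.fac v w hv.2⟩) w

theorem m_G_pair (h : Z.Sub N) (w : Sp X β γ φ) :
    k.P.m (fun v => (xG v, Z.map v, N.map v)) w = k.P.m (fun v => (xG v, Z.map v)) w :=
  k.P.m_congr (fun v w hv => by simp only [Prod.mk.injEq] at hv ⊢; exact ⟨hv.1, hv.2.1⟩)
    (fun v w hv => by
      simp only [Prod.mk.injEq] at hv ⊢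
      exact ⟨hv.1, hv.2, h.fac v w hv.2⟩) w

/-- gain of the refinement, first label -/
theorem iota_F (h : Z.Sub N) (hN : N.Ok k) (w : Sp X β γ φ) : k.P.iota xF Z.map N.map w =
    Real.log (law (Z.V w.1 w.2.1 w.2.2.1) (fun x => k.f x w.2.1 w.2.2.1) w.2.2.2.1 /
      law (N.V w.1 w.2.1 w.2.2.1) (fun x => k.f x w.2.1 w.2.2.1) w.2.2.2.1) := by
  unfold FP.iota
  rw [m_F_pair k h, m_pair k h, m_F k (h.ok k hN), m_F k hN, m_N, m_N, h.B, h.C]
  congr 1
  unfold law avg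
  have hM : MM X β γ ≠ 0 := MM_pos.ne'
  have hB : ((N.B w.1 w.2.1 w.2.2.1).card : ℝ) ≠ 0 := by
    exact_mod_cast (Finset.card_pos.2 ⟨_, N.sB w.1 w.2.1 w.2.2.1⟩).ne'
  have hC : ((N.C w.1 w.2.1 w.2.2.1).card : ℝ) ≠ 0 := by
    exact_mod_cast (Finset.card_pos.2 ⟨_, N.sC w.1 w.2.1 w.2.2.1⟩).ne'
  have hV : ((N.V w.1 w.2.1 w.2.2.1).card : ℝ) ≠ 0 := by
    exact_mod_cast (Finset.card_pos.2 ⟨_, N.sV w.1 w.2.1 w.2.2.1⟩).ne'
  have hZ : ((Z.V w.1 w.2.1 w.2.2.1).card : ℝ) ≠ 0 := by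
    exact_mod_cast (Finset.card_pos.2 ⟨_, Z.sV w.1 w.2.1 w.2.2.1⟩).ne'
  field_simp

/-- gain of the refinement, second label -/
theorem iota_G (h : Z.Sub N) (hN : N.Ok k) (w : Sp X β γ φ) : k.P.iota xG Z.map N.map w =
    Real.log (law (Z.V w.1 w.2.1 w.2.2.1) (fun x => k.g x w.2.1 w.2.2.1) w.2.2.2.2 /
      law (N.V w.1 w.2.1 w.2.2.1) (fun x => k.g x w.2.1 w.2.2.1) w.2.2.2.2) := by
  unfold FP.iota
  rw [m_G_pair k h, m_pair k h, m_G k (h.ok k hN), m_G k hN, m_N, m_N, h.B, h.C]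
  congr 1
  unfold law avg
  have hM : MM X β γ ≠ 0 := MM_pos.ne'
  have hB : ((N.B w.1 w.2.1 w.2.2.1).card : ℝ) ≠ 0 := by
    exact_mod_cast (Finset.card_pos.2 ⟨_, N.sB w.1 w.2.1 w.2.2.1⟩).ne'
  have hC : ((N.C w.1 w.2.1 w.2.2.1).card : ℝ) ≠ 0 := by
    exact_mod_cast (Finset.card_pos.2 ⟨_, N.sC w.1 w.2.1 w.2.2.1⟩).ne'
  have hV : ((N.V w.1 w.2.1 w.2.2.1).card : ℝ) ≠ 0 := by
    exact_mod_cast (Finset.card_pos.2 ⟨_, N.sV w.1 w.2.1 w.2.2.1⟩).ne'
  have hZ : ((Z.V w.1 w.2.1 w.2.2.1).card : ℝ) ≠ 0 := by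
    exact_mod_cast (Finset.card_pos.2 ⟨_, Z.sV w.1 w.2.1 w.2.2.1⟩).ne'
  field_simp

/-- density ratio of the own cell, first label -/
theorem rt_F (h : Z.Sub N) (hN : N.Ok k) (w : Sp X β γ φ) : k.P.rt xF N.map Z.map w (Z.map w) =
    law (Z.V w.1 w.2.1 w.2.2.1) (fun x => k.f x w.2.1 w.2.2.1) w.2.2.2.1 /
      law (N.V w.1 w.2.1 w.2.2.1) (fun x => k.f x w.2.1 w.2.2.1) w.2.2.2.1 := by
  unfold FP.rt
  rw [FP.pv_self, FP.pv_self, m_pair k h]
  have e1 : k.P.m (fun u => (Z.map u, (fun u => (xF u, N.map u)) u)) w = k.P.m (fun v => (xF v, Z.map v)) w :=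
    k.P.m_congr (fun v w hv => by simp only [Prod.mk.injEq] at hv ⊢; exact ⟨hv.2.1, hv.1⟩)
      (fun v w hv => by
        simp only [Prod.mk.injEq] at hv ⊢
        exact ⟨hv.2, hv.1, h.fac v w hv.2⟩) w
  rw [e1, m_F k (h.ok k hN), m_F k hN, m_N, m_N, h.B, h.C]
  unfold law avg
  have hM : MM X β γ ≠ 0 := MM_pos.ne'
  have hB : ((N.B w.1 w.2.1 w.2.2.1).card : ℝ) ≠ 0 := by
    exact_mod_cast (Finset.card_pos.2 ⟨_, N.sB w.1 w.2.1 w.2.2.1⟩).ne'
  have hC : ((N.C w.1 w.2.1 w.2.2.1).card : ℝ) ≠ 0 := by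
    exact_mod_cast (Finset.card_pos.2 ⟨_, N.sC w.1 w.2.1 w.2.2.1⟩).ne'
  have hV : ((N.V w.1 w.2.1 w.2.2.1).card : ℝ) ≠ 0 := by
    exact_mod_cast (Finset.card_pos.2 ⟨_, N.sV w.1 w.2.1 w.2.2.1⟩).ne'
  have hZ : ((Z.V w.1 w.2.1 w.2.2.1).card : ℝ) ≠ 0 := by
    exact_mod_cast (Finset.card_pos.2 ⟨_, Z.sV w.1 w.2.1 w.2.2.1⟩).ne'
  field_simp

/-- density ratio of the own cell, second label -/
theorem rt_G (h : Z.Sub N) (hN : N.Ok k) (w : Sp X β γ φ) : k.P.rt xG N.map Z.map w (Z.map w) =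
    law (Z.V w.1 w.2.1 w.2.2.1) (fun x => k.g x w.2.1 w.2.2.1) w.2.2.2.2 /
      law (N.V w.1 w.2.1 w.2.2.1) (fun x => k.g x w.2.1 w.2.2.1) w.2.2.2.2 := by
  unfold FP.rt
  rw [FP.pv_self, FP.pv_self, m_pair k h]
  have e1 : k.P.m (fun u => (Z.map u, (fun u => (xG u, N.map u)) u)) w = k.P.m (fun v => (xG v, Z.map v)) w :=
    k.P.m_congr (fun v w hv => by simp only [Prod.mk.injEq] at hv ⊢; exact ⟨hv.2.1, hv.1⟩)
      (fun v w hv => by
        simp only [Prod.mk.injEq] at hv ⊢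
        exact ⟨hv.2, hv.1, h.fac v w hv.2⟩) w
  rw [e1, m_G k (h.ok k hN), m_G k hN, m_N, m_N, h.B, h.C]
  unfold law avg
  have hM : MM X β γ ≠ 0 := MM_pos.ne'
  have hB : ((N.B w.1 w.2.1 w.2.2.1).card : ℝ) ≠ 0 := by
    exact_mod_cast (Finset.card_pos.2 ⟨_, N.sB w.1 w.2.1 w.2.2.1⟩).ne'
  have hC : ((N.C w.1 w.2.1 w.2.2.1).card : ℝ) ≠ 0 := by
    exact_mod_cast (Finset.card_pos.2 ⟨_, N.sC w.1 w.2.1 w.2.2.1⟩).ne'
  have hV : ((N.V w.1 w.2.1 w.2.2.1).card : ℝ) ≠ 0 := by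
    exact_mod_cast (Finset.card_pos.2 ⟨_, N.sV w.1 w.2.1 w.2.2.1⟩).ne'
  have hZ : ((Z.V w.1 w.2.1 w.2.2.1).card : ℝ) ≠ 0 := by
    exact_mod_cast (Finset.card_pos.2 ⟨_, Z.sV w.1 w.2.1 w.2.2.1⟩).ne'
  field_simp

/-- saturation of the state `V × B × C`; `b0`, `c0` = points of the state -/
structure SatS (k : KP X β γ φ) (V : Finset X) (B : Finset β) (C : Finset γ) (b0 : β) (c0 : γ) (sig : ℝ) : Prop where
  f : ∀ S ⊆ V, S.Nonempty → avg B (fun b => klf (law S fun x => k.f x b c0) (law V fun x => k.f x b c0)) ≤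
    sig * (Real.log ((V.card : ℝ) / S.card) + 1)
  g : ∀ S ⊆ V, S.Nonempty → avg C (fun c => klf (law S fun x => k.g x b0 c) (law V fun x => k.g x b0 c)) ≤
    sig * (Real.log ((V.card : ℝ) / S.card) + 1)

/-- the kernels are thick on their supports inside the class `V` -/
structure Thk (k : KP X β γ φ) (V : Finset X) (al : ℝ) : Prop where
  pos : 0 < al
  f : ∀ x ∈ V, ∀ x' ∈ V, ∀ b c F, k.f x b c F ≠ 0 → al ≤ k.f x' b c F
  g : ∀ x ∈ V, ∀ x' ∈ V, ∀ b c F, k.g x b c F ≠ 0 → al ≤ k.g x' b c F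

/-- positive part of the density above `del` -/
def psi (del : ℝ) (k : KP X β γ φ) (V : Finset X) (b : β) (c : γ) (F G : φ) : ℝ := max (io k V b c F G - del) 0

/-- mean of `psi` given the three points -/
def Psi (del : ℝ) (k : KP X β γ φ) (V : Finset X) (x : X) (b : β) (c : γ) : ℝ :=
  ∑ F, ∑ G, k.f x b c F * k.g x b c G * psi del k V b c F G

theorem psi_nonneg (del : ℝ) (V : Finset X) (b : β) (c : γ) (F G : φ) : 0 ≤ psi del k V b c F G := le_max_right _ _

theorem Psi_nonneg (del : ℝ) (V : Finset X) (x : X) (b : β) (c : γ) : 0 ≤ Psi del k V x b c :=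
  Finset.sum_nonneg fun _ _ => Finset.sum_nonneg fun _ _ =>
    mul_nonneg (mul_nonneg (k.f_nn _ _ _ _) (k.g_nn _ _ _ _)) (psi_nonneg k _ _ _ _ _ _)

theorem io_le_psi (del : ℝ) (V : Finset X) (b : β) (c : γ) (F G : φ) :
    io k V b c F G ≤ del + psi del k V b c F G := by
  have := le_max_left (io k V b c F G - del) 0
  unfold psi
  linarith

end law

end

end Pool.Agent.M3.S3
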