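import Pool.Agent.M3.S3.MdlDef
import Pool.Agent.M3.NzEnt

/-!
# M3.S3.MdlB: from the product form to the model (helper34)

`Fam i j l h Rz J n0 DF DG DD` : a family of data (one for every top) with the cells `qaM`, `qbM` and the noise kernels of
the two labelled pairs.
* `E_top` : the mean over the model = mean over the tops of the means over `(x, b, c)`;
* `coin_law` : the letters of the two pairs given the raw sample point are independent with the laws `Nz.kr`;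
* `mix` : given the top, the point `(x, b, c, F_t, G_t)` has the law `(D.kp T t).P`;
* `ceB_m`, `ceB_x`, `ceB_y`, `ceB_z` : the conditional means of the digit are those of the product form;
* `b3_of` : Theorem 3 for every top gives `B3`.
-/

set_option autoImplicit false
set_option linter.unusedSectionVars false

namespace Pool.Agent.M3.Mod

open Finset Pool.Agent.PWZ Pool.Agent.M3.Bin Pool.Agent.M3

noncomputable section

/-! ## uniform laws -/

/-- law of a map -/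
theorem E_lab {Om κ : Type*} [Fintype Om] [Fintype κ] (P : FP Om) (Y : Om → κ) (g : κ → ℝ) :
    P.E (fun w => g (Y w)) = ∑ F, P.Pr (fun w => Y w = F) * g F := by
  classical
  have h1 : ∀ F, P.Pr (fun w => Y w = F) * g F = P.E (fun w => ind (Y w = F) * g F) := by
    intro F
    rw [FP.E_mul_const]
    rfl
  rw [Finset.sum_congr rfl fun F _ => h1 F, ← FP.E_sum]
  refine P.E_congr fun w _ => ?_
  rw [Finset.sum_eq_single (Y w)]
  · rw [ind_of rfl, one_mul]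
  · intro F _ hF
    rw [ind_not (fun h => hF h.symm), zero_mul]
  · intro h
    exact absurd (Finset.mem_univ _) h

/-- uniform law along a bijection -/
theorem unif_equiv {O1 O2 : Type*} [Fintype O1] [Nonempty O1] [Fintype O2] [Nonempty O2] (e : O1 ≃ O2) (f : O2 → ℝ) :
    (FP.unif O1).E (fun w => f (e w)) = (FP.unif O2).E f := by
  rw [FP.unif_E, FP.unif_E, Equiv.sum_comp e f, Fintype.card_congr e]

/-- one coordinate of a uniform function -/
theorem unif_eval {ι σ : Type*} [Fintype ι] [DecidableEq ι] [Fintype σ] [Nonempty σ] (i : ι) (f : σ → ℝ) :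
    (FP.unif (ι → σ)).E (fun ν => f (ν i)) = (FP.unif σ).E f := by
  have h1 := (pulC_unif (Equiv.funSplitAt i σ)).E (fun a (_ : {j // j ≠ i} → σ) => f a)
  have h2 : (FP.unif (ι → σ)).E (fun w => f (Equiv.funSplitAt i σ w).1) = (FP.unif (ι → σ)).E (fun ν => f (ν i)) := rfl
  rw [h2] at h1
  rw [h1]
  exact FP.E_congr _ fun v _ => FP.E_const _ _

variable {k N : ℕ} {Θ Ξ : Type} {i j l : Fin 3}

section top

variable [Fintype Θ] [Nonempty Θ] [Fintype Ξ] [Nonempty Ξ]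

/-- THE MEAN OVER THE MODEL = mean over the tops of the means over the points -/
theorem E_top (hij : j ≠ i) (hli : l ≠ i) (hlj : l ≠ j) (h : Sp k N 3 Θ Ξ → ℝ) :
    Pm.E h = (FP.unif (TM k Θ)).E (fun τ => S3.E3 (fun (x : XM N Ξ) (b c : YM k Ξ) => h (ptM i j τ x b c))) := by
  have h1 := (pulC_unif (topEquiv (k := k) (N := N) (Θ := Θ) (Ξ := Ξ) hij hli hlj)).E
    (fun τ q => h (ptM i j τ q.1 q.2.1 q.2.2))
  have h2 : (fun w : Sp k N 3 Θ Ξ => h (ptM i j (topEquiv hij hli hlj w).1 (topEquiv hij hli hlj w).2.1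
      (topEquiv hij hli hlj w).2.2.1 (topEquiv hij hli hlj w).2.2.2)) = h := by
    funext w
    show h (ptM i j (tpM i w) (xM i w) (vx j w) (vx l w)) = h w
    rw [ptM_eq hij hli hlj]
  rw [h2] at h1
  have h3 : Pm.E h = (FP.unif (Sp k N 3 Θ Ξ)).E h := rfl
  rw [h3, h1]
  exact FP.E_congr _ fun τ _ => S3.unif_E3 (fun x b c => h (ptM i j τ x b c))

end top

section coins

variable {Rz : ℕ} {φ : Type} [Fintype φ] [Fintype Ξ] [Nonempty Ξ]

/-- the two sequences of noise of one vertex are independent and uniform -/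
theorem coin_unif (i : Fin 3) (b c : Ξ × V k) (f : (Fin (N + 1) → Nz.Ns Rz φ) → (Fin (N + 1) → Nz.Ns Rz φ) → ℝ) :
    (FP.unif (Fin 3 → Co k N Ξ Rz φ)).E (fun w => f ((w i).1 b) ((w i).2 c)) =
      (FP.unif (Fin (N + 1) → Nz.Ns Rz φ)).E (fun α => (FP.unif (Fin (N + 1) → Nz.Ns Rz φ)).E (f α)) := by
  classical
  rw [unif_eval (ι := Fin 3) i (fun w : Co k N Ξ Rz φ => f (w.1 b) (w.2 c))]
  have e1 : Co k N Ξ Rz φ ≃ CF k N Ξ Rz φ × CF k N Ξ Rz φ := Equiv.refl _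
  have h1 := (pulC_unif (O1 := CF k N Ξ Rz φ) (O2 := CF k N Ξ Rz φ) (O := Co k N Ξ Rz φ) (Equiv.refl _)).E
    (fun a a' => f (a b) (a' c))
  have h2 : (FP.unif (Co k N Ξ Rz φ)).E (fun w : Co k N Ξ Rz φ => f (w.1 b) (w.2 c)) =
    (FP.unif (CF k N Ξ Rz φ)).E (fun v => (FP.unif (CF k N Ξ Rz φ)).E (fun a' => f (v b) (a' c))) := h1
  rw [h2]
  have h3 : ∀ (d : Ξ × V k) (g : (Fin (N + 1) → Nz.Ns Rz φ) → ℝ),
      (FP.unif (CF k N Ξ Rz φ)).E (fun a' => g (a' d)) = (FP.unif (Fin (N + 1) → Nz.Ns Rz φ)).E g := by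
    intro d g
    have h4 := unif_equiv (O1 := CF k N Ξ Rz φ) (O2 := Ξ × V k → Fin (N + 1) → Nz.Ns Rz φ) (Equiv.refl _)
      (fun a' => g (a' d))
    have h5 : (FP.unif (CF k N Ξ Rz φ)).E (fun a' => g (a' d)) =
      (FP.unif (Ξ × V k → Fin (N + 1) → Nz.Ns Rz φ)).E (fun a' => g (a' d)) := h4
    rw [h5]
    exact unif_eval d g
  have h4 : ∀ v : CF k N Ξ Rz φ, (FP.unif (CF k N Ξ Rz φ)).E (fun a' => f (v b) (a' c)) =
      (FP.unif (Fin (N + 1) → Nz.Ns Rz φ)).E (f (v b)) := fun v => h3 c (f (v b))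
  simp only [h4]
  exact h3 b (fun α => (FP.unif (Fin (N + 1) → Nz.Ns Rz φ)).E (f α))

variable [Fintype Θ] [Nonempty Θ] {L : Type} [Fintype L]

/-- THE LETTERS given the raw sample point -/
theorem coin_law (J n0 : ℕ) (DF DG : L1 (Sp k N 3 Θ Ξ) L) (t : ℕ)
    (Ψ : Sp k N 3 Θ Ξ → (Fin (N + 1) → Option (Bool → L)) → (Fin (N + 1) → Option (Bool → L)) → ℝ) :
    Pm.E (fun w : Sp k N 3 Θ (Ξ × Co k N Ξ Rz (Bool → L)) =>
      Ψ (pic w) (letF Rz J n0 i j DF t w) (letG Rz J n0 i l DG t w)) =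
    Pm.E (fun v : Sp k N 3 Θ Ξ => ∑ F, ∑ G,
      Nz.kr Rz J n0 (fun s => DF.oc s v) (fun s => DF.tc s v) t F *
        Nz.kr Rz J n0 (fun s => DG.oc s v) (fun s => DG.tc s v) t G * Ψ v F G) := by
  classical
  have h1 := (pulC_pic (k := k) (N := N) (m := 3) (Θ := Θ) (Ξ := Ξ) (Ci := Co k N Ξ Rz (Bool → L))).E
    (fun v cn => Ψ v (Nz.lab Rz J n0 (fun s => DF.oc s v) (fun s => DF.tc s v) t ((cn i).1 (vx j v)))
      (Nz.lab Rz J n0 (fun s => DG.oc s v) (fun s => DG.tc s v) t ((cn i).2 (vx l v))))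
  have h2 : (fun w : Sp k N 3 Θ (Ξ × Co k N Ξ Rz (Bool → L)) =>
      Ψ (pic w) (letF Rz J n0 i j DF t w) (letG Rz J n0 i l DG t w)) =
      fun w => Ψ (pic w) (Nz.lab Rz J n0 (fun s => DF.oc s (pic w)) (fun s => DF.tc s (pic w)) t
        ((coin w i).1 (vx j (pic w))))
      (Nz.lab Rz J n0 (fun s => DG.oc s (pic w)) (fun s => DG.tc s (pic w)) t ((coin w i).2 (vx l (pic w)))) := by
    funext w
    rw [letF_eq, letG_eq]
    rfl
  rw [h2, h1]
  refine FP.E_congr _ fun v _ => ?_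
  rw [coin_unif i (vx j v) (vx l v) (fun α β =>
    Ψ v (Nz.lab Rz J n0 (fun s => DF.oc s v) (fun s => DF.tc s v) t α)
      (Nz.lab Rz J n0 (fun s => DG.oc s v) (fun s => DG.tc s v) t β))]
  have h3 : ∀ α, (FP.unif (Fin (N + 1) → Nz.Ns Rz (Bool → L))).E (fun β =>
      Ψ v (Nz.lab Rz J n0 (fun s => DF.oc s v) (fun s => DF.tc s v) t α)
        (Nz.lab Rz J n0 (fun s => DG.oc s v) (fun s => DG.tc s v) t β)) =
      ∑ G, Nz.kr Rz J n0 (fun s => DG.oc s v) (fun s => DG.tc s v) t G *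
        Ψ v (Nz.lab Rz J n0 (fun s => DF.oc s v) (fun s => DF.tc s v) t α) G := fun α =>
    E_lab (FP.unif (Fin (N + 1) → Nz.Ns Rz (Bool → L))) (Nz.lab Rz J n0 (fun s => DG.oc s v) (fun s => DG.tc s v) t) _
  simp only [h3]
  rw [E_lab (FP.unif (Fin (N + 1) → Nz.Ns Rz (Bool → L)))
    (Nz.lab Rz J n0 (fun s => DF.oc s v) (fun s => DF.tc s v) t)
    (fun F => ∑ G, Nz.kr Rz J n0 (fun s => DG.oc s v) (fun s => DG.tc s v) t G * Ψ v F G)]
  refine Finset.sum_congr rfl fun F _ => ?_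
  rw [Finset.mul_sum]
  refine Finset.sum_congr rfl fun G _ => ?_
  show Nz.kr Rz J n0 (fun s => DF.oc s v) (fun s => DF.tc s v) t F * _ = _
  ring

end coins

/-! ## the family of data and the sample point -/

section fam

variable {Rz : ℕ} {L : Type}

/-- the type of the published labels -/
abbrev LM (N : ℕ) (L : Type) := Fin (N + 1) → Option (Bool → L)

/-- a family of data, one for every top -/
structure Fam (i j : Fin 3) (h Rz J n0 : ℕ) (DF DG : L1 (Sp k N 3 Θ Ξ) L)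
    (DD : TM k Θ → S3.Dat (XM N Ξ) (YM k Ξ) (YM k Ξ) (ℕ × V k) (LM N L)) [Fintype L] : Prop where
  qa : ∀ τ t x, (DD τ).qa t x = qaM k N t x
  qb : ∀ τ t b, (DD τ).qb t b = qbM N h t b
  qc : ∀ τ t c, (DD τ).qc t c = qbM N h t c
  kf : ∀ τ t x b c F, (DD τ).kf t x b c F = Nz.kr Rz J n0 (fun s => DF.oc s (ptM i j τ x b c))
    (fun s => DF.tc s (ptM i j τ x b c)) t F
  kg : ∀ τ t x b c F, (DD τ).kg t x b c F = Nz.kr Rz J n0 (fun s => DG.oc s (ptM i j τ x b c))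
    (fun s => DG.tc s (ptM i j τ x b c)) t F

/-- the sample point of the product form -/
def pB (Rz J n0 : ℕ) (i j l : Fin 3) (DF DG : L1 (Sp k N 3 Θ Ξ) L) (t : ℕ)
    (w : Sp k N 3 Θ (Ξ × Co k N Ξ Rz (Bool → L))) : S3.Sp (XM N Ξ) (YM k Ξ) (YM k Ξ) (LM N L) :=
  (xM i (pic w), vx j (pic w), vx l (pic w), letF Rz J n0 i j DF t w, letG Rz J n0 i l DG t w)

/-- the class in the model -/
def UcM (i j l : Fin 3) (U : TM k Θ → ℕ → XM N Ξ → YM k Ξ → YM k Ξ → Finset (XM N Ξ)) {Ci : Type} (t : ℕ)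
    (w : Sp k N 3 Θ (Ξ × Ci)) : Finset (XM N Ξ) :=
  U (tpM i (pic w)) t (xM i (pic w)) (vx j (pic w)) (vx l (pic w))

variable [Fintype Θ] [Nonempty Θ] [Fintype Ξ] [Nonempty Ξ] [Fintype L] {h J n0 : ℕ} {DF DG : L1 (Sp k N 3 Θ Ξ) L}
  {DD : TM k Θ → S3.Dat (XM N Ξ) (YM k Ξ) (YM k Ξ) (ℕ × V k) (LM N L)} {al : ℝ} (T : ∀ τ, (DD τ).Thick al)

/-- THE MIXTURE -/
theorem mix (hij : j ≠ i) (hli : l ≠ i) (hlj : l ≠ j) (H : Fam i j h Rz J n0 DF DG DD) (t : ℕ) :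
    Mix Pm (fun w : Sp k N 3 Θ (Ξ × Co k N Ξ Rz (Bool → L)) => tpM i (pic w)) (pB Rz J n0 i j l DF DG t)
      (fun τ => ((DD τ).kp (T τ) t).P) := by
  constructor
  intro Ψ
  have h1 := coin_law (i := i) (j := j) (l := l) (Rz := Rz) J n0 DF DG t
    (fun v F G => Ψ (tpM i v) (xM i v, vx j v, vx l v, F, G))
  have h2 := (pulC_pic (k := k) (N := N) (m := 3) (Θ := Θ) (Ξ := Ξ) (Ci := Co k N Ξ Rz (Bool → L))).pul.E
    (fun v => ((DD (tpM i v)).kp (T (tpM i v)) t).P.E (Ψ (tpM i v)))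
  have h3 : Pm.E (fun w : Sp k N 3 Θ (Ξ × Co k N Ξ Rz (Bool → L)) =>
      Ψ (tpM i (pic w)) (pB Rz J n0 i j l DF DG t w)) =
      Pm.E (fun w : Sp k N 3 Θ (Ξ × Co k N Ξ Rz (Bool → L)) =>
        (fun v F G => Ψ (tpM i v) (xM i v, vx j v, vx l v, F, G)) (pic w) (letF Rz J n0 i j DF t w)
          (letG Rz J n0 i l DG t w)) := rfl
  rw [h3, h1, h2, E_top hij hli hlj, E_top hij hli hlj]
  refine FP.E_congr _ fun τ _ => ?_
  have h4 : S3.E3 (fun (x : XM N Ξ) (b c : YM k Ξ) =>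
      ((DD (tpM i (ptM i j τ x b c))).kp (T (tpM i (ptM i j τ x b c))) t).P.E (Ψ (tpM i (ptM i j τ x b c)))) =
      ((DD τ).kp (T τ) t).P.E (Ψ τ) := by
    rw [S3.E3_congr (g := fun _ _ _ => ((DD τ).kp (T τ) t).P.E (Ψ τ)) fun x b c => by rw [tp_ptM], S3.E3_const]
  rw [h4, S3.KP.E_eq]
  refine S3.E3_congr fun x b c => Finset.sum_congr rfl fun F _ => Finset.sum_congr rfl fun G _ => ?_
  rw [tp_ptM, x_ptM, vj_ptM hij, vl_ptM hli hlj]
  show _ = (DD τ).kf t x b c F * (DD τ).kg t x b c G * _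
  rw [H.kf, H.kg]

variable {T} {U : TM k Θ → ℕ → XM N Ξ → YM k Ξ → YM k Ξ → Finset (XM N Ξ)}

/-- same state of the product form iff same public state -/
theorem nd_iff (hij : j ≠ i) (hli : l ≠ i) (hlj : l ≠ j) (H : Fam i j h Rz J n0 DF DG DD) (t : ℕ)
    (v w : Sp k N 3 Θ (Ξ × Co k N Ξ Rz (Bool → L))) :
    (tpM i (pic v) = tpM i (pic w) ∧
      S3.nd (DD (tpM i (pic v))) (U (tpM i (pic v))) t (pB Rz J n0 i j l DF DG t v) =
        S3.nd (DD (tpM i (pic w))) (U (tpM i (pic w))) t (pB Rz J n0 i j l DF DG t w)) ↔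
      (Qn i h (ex N t) v = Qn i h (ex N t) w ∧ UcM i j l U t v = UcM i j l U t w) := by
  rw [← Qn_pic, ← Qn_pic, Qn_iff hij hli hlj h t (pic v) (pic w)]
  unfold S3.nd UcM pB
  simp only [Prod.mk.injEq, H.qa, H.qb, H.qc]
  tauto

theorem ceB_m (hij : j ≠ i) (hli : l ≠ i) (hlj : l ≠ j) (H : Fam i j h Rz J n0 DF DG DD) (t : ℕ)
    (w : Sp k N 3 Θ (Ξ × Co k N Ξ Rz (Bool → L))) :
    mB i h (UcM i j l U) t w =
      S3.m3 (T (tpM i (pic w))) (dgM N) (U (tpM i (pic w))) t (pB Rz J n0 i j l DF DG t w) := by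
  have h1 := (mix T hij hli hlj H t).ce (fun τ u => S3.nd (DD τ) (U τ) t u) (fun _ u => dgM N t u.1) (w := w) (Pm_ne w)
  unfold S3.m3
  rw [← h1]
  unfold mB
  have key := nd_iff (U := U) hij hli hlj H t
  refine FP.ce_congr_map _ ?_ ?_ _ w
  · intro v w' hv
    have h2 := (key v w').2 ⟨(Prod.mk.inj hv).1, (Prod.mk.inj hv).2⟩
    exact Prod.ext h2.1 h2.2
  · intro v w' hv
    have h2 := (key v w').1 ⟨(Prod.mk.inj hv).1, (Prod.mk.inj hv).2⟩
    exact Prod.ext h2.1 h2.2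

theorem ceB_x (hij : j ≠ i) (hli : l ≠ i) (hlj : l ≠ j) (H : Fam i j h Rz J n0 DF DG DD) (t : ℕ)
    (w : Sp k N 3 Θ (Ξ × Co k N Ξ Rz (Bool → L))) :
    xB i h (UcM i j l U) j (letF Rz J n0 i j DF) t w =
      S3.x3 (T (tpM i (pic w))) (dgM N) (U (tpM i (pic w))) t (pB Rz J n0 i j l DF DG t w) := by
  have h1 := (mix T hij hli hlj H t).ce (fun τ u => (S3.xF u, S3.nd (DD τ) (U τ) t u)) (fun _ u => dgM N t u.1)
    (w := w) (Pm_ne w)
  unfold S3.x3
  rw [← h1]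
  unfold xB
  have key := nd_iff (U := U) hij hli hlj H t
  refine FP.ce_congr_map _ ?_ ?_ _ w
  · intro v w' hv
    simp only [Prod.mk.injEq] at hv
    obtain ⟨a1, a2, a3, a4⟩ := hv
    have h2 := (key v w').2 ⟨a3, a4⟩
    exact Prod.ext h2.1 (Prod.ext (Prod.ext a2 a1) h2.2)
  · intro v w' hv
    have a1 := (Prod.mk.inj hv).1
    have a2 := (Prod.mk.inj (Prod.mk.inj hv).2).1
    have h2 := (key v w').1 ⟨a1, (Prod.mk.inj (Prod.mk.inj hv).2).2⟩
    have a3 : letF Rz J n0 i j DF t v = letF Rz J n0 i j DF t w' := congrArg Prod.fst a2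
    have a4 : vx j (pic v) = vx j (pic w') := congrArg Prod.snd a2
    exact Prod.ext a4 (Prod.ext a3 (Prod.ext h2.1 h2.2))

theorem ceB_y (hij : j ≠ i) (hli : l ≠ i) (hlj : l ≠ j) (H : Fam i j h Rz J n0 DF DG DD) (t : ℕ)
    (w : Sp k N 3 Θ (Ξ × Co k N Ξ Rz (Bool → L))) :
    xB i h (UcM i j l U) l (letG Rz J n0 i l DG) t w =
      S3.y3 (T (tpM i (pic w))) (dgM N) (U (tpM i (pic w))) t (pB Rz J n0 i j l DF DG t w) := by
  have h1 := (mix T hij hli hlj H t).ce (fun τ u => (S3.xG u, S3.nd (DD τ) (U τ) t u)) (fun _ u => dgM N t u.1)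
    (w := w) (Pm_ne w)
  unfold S3.y3
  rw [← h1]
  unfold xB
  have key := nd_iff (U := U) hij hli hlj H t
  refine FP.ce_congr_map _ ?_ ?_ _ w
  · intro v w' hv
    simp only [Prod.mk.injEq] at hv
    obtain ⟨a1, a2, a3, a4⟩ := hv
    have h2 := (key v w').2 ⟨a3, a4⟩
    exact Prod.ext h2.1 (Prod.ext (Prod.ext a2 a1) h2.2)
  · intro v w' hv
    have a1 := (Prod.mk.inj hv).1
    have a2 := (Prod.mk.inj (Prod.mk.inj hv).2).1
    have h2 := (key v w').1 ⟨a1, (Prod.mk.inj (Prod.mk.inj hv).2).2⟩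
    have a3 : letG Rz J n0 i l DG t v = letG Rz J n0 i l DG t w' := congrArg Prod.fst a2
    have a4 : vx l (pic v) = vx l (pic w') := congrArg Prod.snd a2
    exact Prod.ext a4 (Prod.ext a3 (Prod.ext h2.1 h2.2))

theorem ceB_z (hij : j ≠ i) (hli : l ≠ i) (hlj : l ≠ j) (H : Fam i j h Rz J n0 DF DG DD) (t : ℕ)
    (w : Sp k N 3 Θ (Ξ × Co k N Ξ Rz (Bool → L))) :
    zB i j l h (UcM i j l U) (letF Rz J n0 i j DF) (letG Rz J n0 i l DG) t w =
      S3.z3 (T (tpM i (pic w))) (dgM N) (U (tpM i (pic w))) t (pB Rz J n0 i j l DF DG t w) := by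
  have h1 := (mix T hij hli hlj H t).ce (fun τ u => (S3.xF u, S3.xG u, S3.nd (DD τ) (U τ) t u))
    (fun _ u => dgM N t u.1) (w := w) (Pm_ne w)
  unfold S3.z3
  rw [← h1]
  unfold zB
  have key := nd_iff (U := U) hij hli hlj H t
  refine FP.ce_congr_map _ ?_ ?_ _ w
  · intro v w' hv
    simp only [Prod.mk.injEq] at hv
    obtain ⟨a1, a2, a3, a4, a5, a6⟩ := hv
    have h2 := (key v w').2 ⟨a5, a6⟩
    exact Prod.ext h2.1 (Prod.ext (Prod.ext a3 a1) (Prod.ext (Prod.ext a4 a2) h2.2))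
  · intro v w' hv
    have a1 := (Prod.mk.inj hv).1
    have a2 := (Prod.mk.inj (Prod.mk.inj hv).2).1
    have a3 := (Prod.mk.inj (Prod.mk.inj (Prod.mk.inj hv).2).2).1
    have h2 := (key v w').1 ⟨a1, (Prod.mk.inj (Prod.mk.inj (Prod.mk.inj hv).2).2).2⟩
    have b1 : letF Rz J n0 i j DF t v = letF Rz J n0 i j DF t w' := congrArg Prod.fst a2
    have b2 : vx j (pic v) = vx j (pic w') := congrArg Prod.snd a2
    have b3 : letG Rz J n0 i l DG t v = letG Rz J n0 i l DG t w' := congrArg Prod.fst a3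
    have b4 : vx l (pic v) = vx l (pic w') := congrArg Prod.snd a3
    exact Prod.ext b2 (Prod.ext b4 (Prod.ext b1 (Prod.ext b3 (Prod.ext h2.1 h2.2))))

/-- bounds for every top are bounds -/
theorem sum_mix (hij : j ≠ i) (hli : l ≠ i) (hlj : l ≠ j) (H : Fam i j h Rz J n0 DF DG DD) (n : ℕ)
    (Ψ : ℕ → TM k Θ → S3.Sp (XM N Ξ) (YM k Ξ) (YM k Ξ) (LM N L) → ℝ) {C : ℝ}
    (hC : ∀ τ, ∑ t ∈ range n, ((DD τ).kp (T τ) t).P.E (Ψ t τ) ≤ C) :
    ∑ t ∈ range n, Pm.E (fun w : Sp k N 3 Θ (Ξ × Co k N Ξ Rz (Bool → L)) =>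
      Ψ t (tpM i (pic w)) (pB Rz J n0 i j l DF DG t w)) ≤ C := by
  rw [Finset.sum_congr rfl fun t _ => (mix T hij hli hlj H t).law (Ψ t), ← FP.E_sum]
  exact FP.E_le_const _ fun w _ => hC (tpM i (pic w))

/-- the position of the noise from the position of the vertex and the top (`N ≤ k`) -/
theorem xM_of (hN : N ≤ k) {v w : Sp k N 3 Θ Ξ} (h1 : vx i v = vx i w) (h2 : tpM i v = tpM i w) : xM i v = xM i w := by
  have h3 : (vx i v).2 + ((nz v : ℕ) : V k) = (vx i w).2 + ((nz w : ℕ) : V k) := (Prod.mk.inj h2).2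
  rw [h1] at h3
  have h4 : ((nz v : ℕ) : V k) = ((nz w : ℕ) : V k) := add_left_cancel h3
  have h5 : nz v < 2 ^ k := lt_of_lt_of_le v.2.2.2 (Nat.pow_le_pow_right (by norm_num) hN)
  have h6 : nz w < 2 ^ k := lt_of_lt_of_le w.2.2.2 (Nat.pow_le_pow_right (by norm_num) hN)
  have h7 : nz v = nz w := by
    have h8 := congrArg ZMod.val h4
    rwa [ZMod.val_natCast_of_lt h5, ZMod.val_natCast_of_lt h6] at h8
  refine Prod.ext ?_ (Fin.ext h7)
  show (vx i v).1 = (vx i w).1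
  rw [h1]

/-- THEOREM 3 FOR EVERY TOP gives the output in the model -/
theorem b3_of (hN : N ≤ k) (hij : j ≠ i) (hli : l ≠ i) (hlj : l ≠ j) (H : Fam i j h Rz J n0 DF DG DD)
    {Lam n κ : ℝ} {C : ℕ} (hU : ∀ τ, S3.Concl3 (T τ) (dgM N) N Lam n κ C (U τ)) :
    B3 i j l h (letF Rz J n0 i j DF) (letG Rz J n0 i l DG) (UcM i j l U) ((C : ℝ) * n * Lam ^ C) ((C : ℝ) * Lam)
      ((C : ℝ) * Lam ^ C * n ^ (-κ)) where
  Uf := by
    intro t v w hv
    obtain ⟨h1, h2⟩ := Prod.mk.inj hv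
    rw [← Qn_pic, ← Qn_pic] at h2
    obtain ⟨a1, a2, a3, a4⟩ := (Qn_iff hij hli hlj h t (pic v) (pic w)).1 h2
    have h3 := xM_of (i := i) hN h1 a1
    unfold UcM
    rw [a1, h3]
    refine (hU (tpM i (pic w))).ref.pub t _ _ _ _ _ _ ⟨rfl, ?_, ?_⟩ ((hU (tpM i (pic w))).ref.self t _ _ _)
    · rw [H.qb, H.qb]; exact a3.symm
    · rw [H.qc, H.qc]; exact a4.symm
  Us := by
    intro t v w hv
    obtain ⟨h1, h2⟩ := Prod.mk.inj hv
    rw [← Qn_pic, ← Qn_pic] at h1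
    obtain ⟨a1, a2, a3, a4⟩ := (Qn_iff hij hli hlj h (t + 1) (pic v) (pic w)).1 h1
    unfold UcM at h2 ⊢
    rw [a1] at h2 ⊢
    have hR := (hU (tpM i (pic w))).ref
    have h3 := hR.self (t + 1) (xM i (pic v)) (vx j (pic v)) (vx l (pic v))
    rw [h2] at h3
    have h4 := hR.ref t _ _ _ h3
    refine hR.pub t _ _ _ _ _ _ ⟨?_, ?_, ?_⟩ h4
    · refine (DD (tpM i (pic w))).ra t _ _ ?_
      rw [H.qa, H.qa]; exact a2.symm
    · refine (DD (tpM i (pic w))).rb t _ _ ?_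
      rw [H.qb, H.qb]; exact a3.symm
    · refine (DD (tpM i (pic w))).rc t _ _ ?_
      rw [H.qc, H.qc]; exact a4.symm
  m2 := by
    have h1 := sum_mix (T := T) hij hli hlj H N (fun t τ u => S3.m3 (T τ) (dgM N) (U τ) t u ^ 2)
      (C := (C : ℝ) * n * Lam ^ C) (fun τ => (hU τ).m2)
    refine le_of_eq_of_le ?_ h1
    refine Finset.sum_congr rfl fun t _ => FP.E_congr _ fun w _ => ?_
    rw [ceB_m (T := T) hij hli hlj H t w]
  x2 := by
    have h1 := sum_mix (T := T) hij hli hlj H N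
      (fun t τ u => (S3.x3 (T τ) (dgM N) (U τ) t u - S3.m3 (T τ) (dgM N) (U τ) t u) ^ 2)
      (C := (C : ℝ) * Lam) (fun τ => (hU τ).x2)
    refine le_of_eq_of_le ?_ h1
    refine Finset.sum_congr rfl fun t _ => FP.E_congr _ fun w _ => ?_
    rw [ceB_m (T := T) hij hli hlj H t w, ceB_x (T := T) hij hli hlj H t w]
  y2 := by
    have h1 := sum_mix (T := T) hij hli hlj H N
      (fun t τ u => (S3.y3 (T τ) (dgM N) (U τ) t u - S3.m3 (T τ) (dgM N) (U τ) t u) ^ 2)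
      (C := (C : ℝ) * Lam) (fun τ => (hU τ).y2)
    refine le_of_eq_of_le ?_ h1
    refine Finset.sum_congr rfl fun t _ => FP.E_congr _ fun w _ => ?_
    rw [ceB_m (T := T) hij hli hlj H t w, ceB_y (T := T) hij hli hlj H t w]
  syn := by
    have h1 := sum_mix (T := T) hij hli hlj H N
      (fun t τ u => ind (|S3.m3 (T τ) (dgM N) (U τ) t u| ≤ 1 / 2) * (S3.z3 (T τ) (dgM N) (U τ) t u -
        poe (S3.m3 (T τ) (dgM N) (U τ) t u) (S3.x3 (T τ) (dgM N) (U τ) t u) (S3.y3 (T τ) (dgM N) (U τ) t u)) ^ 2)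
      (C := (C : ℝ) * Lam ^ C * n ^ (-κ)) (fun τ => (hU τ).syn)
    refine le_of_eq_of_le ?_ h1
    refine Finset.sum_congr rfl fun t _ => FP.E_congr _ fun w _ => ?_
    rw [ceB_m (T := T) hij hli hlj H t w, ceB_x (T := T) hij hli hlj H t w, ceB_y (T := T) hij hli hlj H t w,
      ceB_z (T := T) hij hli hlj H t w]

end fam

end

end Pool.Agent.M3.Mod
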