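import Pool.Agent.M3.NzEnt
import Pool.Agent.M3.S3.Bud

/-!
# M3.S3.NzH: the hypotheses (H2), (H3) and the cumulative labels of Theorem 3 for the published labels (helper96)

`k t x b c F = Nz.kr R J n0 (oc x b c) (tc x b c) t F` for `t ≤ N`, occasions known at the node (`hoc`):
* `kr_stay` : the kernel changes at active occasions only; `kr_rst` : labels are cumulative (`rst t`);
* `chg_count` : (H3), number of changes `≤ J`;
* `HH_sum_le` : (H2), `≤ log (|φ| + 1) + (2 n0 (1 + log J + log |φ|) + 1)`;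
* `ent_step` : one step; `E3_cell` : averages over the cells of the hidden point.
-/

set_option autoImplicit false
set_option linter.unusedSectionVars false

namespace Pool.Agent.M3.S3

open Finset Pool.Agent.PWZ Pool.Agent.M3 Nz

variable {X β γ ι φ : Type*} [Fintype φ] {R J n0 N : ℕ}

/-! ## the kernel -/

theorem kr_stay {oc : ℕ → Prop} {tc : ℕ → Option φ} {t : ℕ} (h : ¬ aoc J oc (t + 1)) (F : Fin (N + 1) → Option φ) :
    kr R J n0 oc tc (t + 1) F = kr R J n0 oc tc t F := by
  unfold kr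
  congr 1
  funext ν
  have : lab R J n0 oc tc (t + 1) ν = lab R J n0 oc tc t ν := by
    funext s
    unfold lab
    by_cases h1 : s.val ≤ t
    · rw [if_pos h1, if_pos (by omega)]
    · rw [if_neg h1]
      by_cases h2 : s.val ≤ t + 1
      · rw [if_pos h2]
        have h3 : s.val = t + 1 := by omega
        rw [h3]
        by_contra hn
        have h4 := pub_act hn
        exact h ⟨h4.1, h4.2.1⟩
      · rw [if_neg h2]
  rw [this]

theorem kr_rst (oc : ℕ → Prop) (tc : ℕ → Option φ) (t : ℕ) (F : Fin (N + 1) → Option φ) :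
    kr R J n0 oc tc t F = ∑ F' : Fin (N + 1) → Option φ, ind (rst t F' = F) * kr R J n0 oc tc (t + 1) F' := by
  classical
  rw [kr_restrict]
  refine Finset.sum_congr rfl fun F' _ => ?_
  congr 2

theorem aoc_congr {oc oc' : ℕ → Prop} {t : ℕ} (h : ∀ s ≤ t, (oc s ↔ oc' s)) : aoc J oc t ↔ aoc J oc' t := by
  unfold aoc
  rw [h t le_rfl, cn_congr fun s hs => h s (by omega)]

/-- occasions up to the time `t` are known at the node of the time `t` -/
theorem oc_le {D : Dat X β γ ι (Fin (N + 1) → Option φ)} {oc : X → β → γ → ℕ → Prop} {M : ℕ}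
    (hoc : ∀ t ≤ M, ∀ x x' b c, D.qa t x = D.qa t x' → (oc x b c t ↔ oc x' b c t)) {t : ℕ} (ht : t ≤ M) {x x' : X}
    (h : D.qa t x = D.qa t x') (b : β) (c : γ) : ∀ s ≤ t, (oc x b c s ↔ oc x' b c s) :=
  fun s hs => hoc s (by omega) x x' b c (D.qa_le hs h)

section

variable [Fintype X] {D : Dat X β γ ι (Fin (N + 1) → Option φ)} {k : ℕ → X → β → γ → (Fin (N + 1) → Option φ) → ℝ}
  {oc : X → β → γ → ℕ → Prop} {tc : X → β → γ → ℕ → Option φ} {K : ℕ}

/-- (H3) -/
theorem chg_count (hk : ∀ t ≤ N, ∀ x b c F, k t x b c F = kr R J n0 (oc x b c) (tc x b c) t F)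
    (hoc : ∀ t ≤ N, ∀ x x' b c, D.qa t x = D.qa t x' → (oc x b c t ↔ oc x' b c t)) (hK : K ≤ N) (x : X) (b : β)
    (c : γ) : ∑ t ∈ range K, ind (∃ y ∈ D.cA (t + 1) x, k (t + 1) y b c ≠ k t y b c) ≤ J := by
  refine le_trans (Finset.sum_le_sum fun t ht => ?_) (aoc_count J (oc x b c) K)
  have htK := Finset.mem_range.1 ht
  by_cases h : ∃ y ∈ D.cA (t + 1) x, k (t + 1) y b c ≠ k t y b c
  · obtain ⟨y, hy, hne⟩ := h
    have h1 : aoc J (oc y b c) (t + 1) := by
      by_contra hn
      apply hne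
      funext F
      rw [hk (t + 1) (by omega), hk t (by omega)]
      exact kr_stay hn F
    have h2 := (aoc_congr (J := J) (oc_le hoc (by omega : t + 1 ≤ N) (D.mem_cA.1 hy) b c)).1 h1
    rw [ind_of h2]
    exact ind_le_one _
  · rw [ind_not h]
    exact ind_nonneg _

end

/-! ## entropy -/

section ent

variable {Φ : Type*} [Fintype Φ]

/-- the law as a finite probability space -/
def mkP (p : Φ → ℝ) (h0 : ∀ F, 0 ≤ p F) (h1 : ∑ F, p F = 1) : FP Φ where
  p := p
  nn := h0
  tot := h1

theorem H_push (P : FP Φ) (g : Φ → Φ) :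
    P.H g = ent fun F => ∑ F', ind (g F' = F) * P.p F' := by
  classical
  unfold FP.H ent
  set q : Φ → ℝ := fun F => ∑ F', ind (g F' = F) * P.p F' with hq
  have h1 : ∀ F', P.m g F' = q (g F') := by
    intro F'
    unfold FP.m FP.E
    rw [hq]
    exact Finset.sum_congr rfl fun v _ => mul_comm _ _
  have h2 : P.E (fun w => - Real.log (P.m g w)) = ∑ F', P.p F' * - Real.log (q (g F')) := by
    unfold FP.E
    refine Finset.sum_congr rfl fun F' _ => ?_
    show P.p F' * - Real.log (P.m g F') = _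
    rw [h1]
  have h3 : ∀ F, Real.negMulLog (q F) = ∑ F', ind (g F' = F) * (P.p F' * - Real.log (q (g F'))) := by
    intro F
    have : ∀ F', ind (g F' = F) * (P.p F' * - Real.log (q (g F'))) = (ind (g F' = F) * P.p F') * - Real.log (q F) := by
      intro F'
      by_cases h : g F' = F
      · rw [h]; ring
      · rw [ind_not h]; ring
    rw [Finset.sum_congr rfl fun F' _ => this F', ← Finset.sum_mul]
    unfold Real.negMulLog
    show -q F * Real.log (q F) = q F * -Real.log (q F)
    ring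
  rw [h2, Finset.sum_congr rfl fun F _ => h3 F, Finset.sum_comm]
  refine Finset.sum_congr rfl fun F' _ => ?_
  rw [← Finset.sum_mul]
  have h4 : ∑ F, ind (g F' = F) = (1 : ℝ) := by
    rw [Finset.sum_eq_single (g F') (fun F _ hF => ind_not (fun h => hF h.symm)) (fun h => absurd (Finset.mem_univ _) h)]
    exact ind_of rfl
  rw [h4, one_mul]

theorem H_id (P : FP Φ) : P.H (fun F => F) = ent P.p := by
  classical
  rw [H_push]
  congr 1
  funext F
  rw [Finset.sum_eq_single F (fun F' _ h => by rw [ind_not h, zero_mul]) (fun h => absurd (Finset.mem_univ _) h),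
    ind_of rfl, one_mul]

end ent

/-- a law on a class is a mean -/
theorem law_sum_comm {Y : Type*} [Fintype Y] (V : Finset X) (k : X → Y → ℝ) (h : Y → ℝ) :
    ∑ F, law V k F * h F = avg V fun x => ∑ F, k x F * h F := by
  unfold law avg
  have : ∀ F, (∑ a ∈ V, k a F) / (V.card : ℝ) * h F = (∑ a ∈ V, k a F * h F) / V.card := by
    intro F
    rw [div_mul_eq_mul_div, Finset.sum_mul]
  rw [Finset.sum_congr rfl fun F _ => this F, ← Finset.sum_div, Finset.sum_comm]

section step

variable [Nonempty φ]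

/-- ONE STEP of (H2) -/
theorem ent_step {V : Finset X} (hV : V.Nonempty) {oc : X → ℕ → Prop} {tc : X → ℕ → Option φ} {t : ℕ} (ht : t + 1 ≤ N)
    {A : Prop} (hA : ∀ y ∈ V, aoc J (oc y) (t + 1) → A) (hJ : 1 ≤ J) :
    (ent fun F => law V (fun y => kr (N := N) R J n0 (oc y) (tc y) (t + 1)) F) -
      (ent fun F => law V (fun y => kr (N := N) R J n0 (oc y) (tc y) t) F) ≤
    (avg V fun y => (FP.unif (Fin (N + 1) → Ns R φ)).E
      (fun ν => ind (pub R J n0 (oc y) (tc y) (sq ν) (t + 1) ≠ none))) *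
        (1 + Real.log J + Real.log (Fintype.card φ)) + 1 / J * ind A := by
  classical
  have hc : (0 : ℝ) < V.card := by exact_mod_cast hV.card_pos
  have h0 : ∀ F, 0 ≤ law V (fun y => kr (N := N) R J n0 (oc y) (tc y) (t + 1)) F := fun F =>
    div_nonneg (Finset.sum_nonneg fun y _ => kr_nn _ _) hc.le
  have h1 : ∑ F, law V (fun y => kr (N := N) R J n0 (oc y) (tc y) (t + 1)) F = 1 := by
    have := law_sum_comm V (fun y => kr (N := N) R J n0 (oc y) (tc y) (t + 1)) (fun _ => 1)
    simp only [mul_one] at this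
    rw [this, show (fun x => ∑ F, kr (N := N) R J n0 (oc x) (tc x) (t + 1) F) = fun _ => (1 : ℝ) from
      funext fun x => kr_one _]
    unfold avg
    rw [Finset.sum_const, nsmul_eq_mul, mul_one, div_self hc.ne']
  set P : FP (Fin (N + 1) → Option φ) := mkP _ h0 h1 with hP
  have hPp : ∀ F, P.p F = law V (fun y => kr (N := N) R J n0 (oc y) (tc y) (t + 1)) F := fun F => rfl
  have e1 : (ent fun F => law V (fun y => kr (N := N) R J n0 (oc y) (tc y) (t + 1)) F) = P.H (fun F => F) :=
    (H_id P).symm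
  have e2 : (ent fun F => law V (fun y => kr (N := N) R J n0 (oc y) (tc y) t) F) = P.H (rst t) := by
    rw [H_push]
    congr 1
    funext F
    have : ∀ F', ind (rst t F' = F) * P.p F' =
        law V (fun y => kr (N := N) R J n0 (oc y) (tc y) (t + 1)) F' * ind (rst t F' = F) := fun F' => mul_comm _ _
    rw [Finset.sum_congr rfl fun F' _ => this F', law_sum_comm]
    unfold law
    congr 1
    funext y
    show kr R J n0 (oc y) (tc y) t F = _
    rw [kr_rst]
    exact Finset.sum_congr rfl fun F' _ => mul_comm _ _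
  have hs : ∀ F, P.p F ≠ 0 → ∀ s : Fin (N + 1), F s ≠ none → s.val ≤ t + 1 ∧ (s.val = t + 1 → A) := by
    intro F hF s hs
    have h2 : ∃ y ∈ V, kr (N := N) R J n0 (oc y) (tc y) (t + 1) F ≠ 0 := by
      by_contra hn
      push Not at hn
      apply hF
      rw [hPp]
      unfold law avg
      rw [Finset.sum_eq_zero hn, zero_div]
    obtain ⟨y, hy, hky⟩ := h2
    have h3 := (kr_supp hky).1 s hs
    refine ⟨h3.1, fun h4 => hA y hy ?_⟩
    rw [h4] at h3
    exact ⟨h3.2.1, h3.2.2⟩
  have hs1 : t + 1 < N + 1 := by omega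
  have h3 := P.Hc_lab_le (Lb := fun F => F) (t := t) ⟨t + 1, hs1⟩ rfl
    (fun F hF s hst => by
      by_contra hn
      have := (hs F hF s hn).1
      omega)
    (Y := fun _ => ()) (oc := fun _ => A) (fun _ _ _ => Iff.rfl)
    (fun F hF hn => (hs F hF ⟨t + 1, hs1⟩ hn).2 rfl) (show (0 : ℝ) < J by exact_mod_cast hJ)
  have e3 : P.Hc (fun F => F) (fun F => (rst t F, ())) = P.H (fun F => F) - P.H (rst t) := by
    unfold FP.Hc
    rw [P.H_congr (X := fun F => (F, (rst t F, ()))) (Y := fun F => F)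
      (fun v w h => (Prod.mk.injEq _ _ _ _ ▸ h : _ ∧ _).1) (fun v w h => by rw [show v = w from h]),
      P.H_congr (X := fun F => (rst t F, ())) (Y := rst t)
      (fun v w h => (Prod.mk.injEq _ _ _ _ ▸ h : _ ∧ _).1) (fun v w h => by
        show (rst t v, ()) = (rst t w, ())
        rw [show rst t v = rst t w from h])]
  have e4 : P.Pr (fun F => F ⟨t + 1, hs1⟩ ≠ none) = avg V fun y => (FP.unif (Fin (N + 1) → Ns R φ)).E
      (fun ν => ind (pub R J n0 (oc y) (tc y) (sq ν) (t + 1) ≠ none)) := by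
    unfold FP.Pr FP.E
    rw [Finset.sum_congr rfl fun F _ => by rw [hPp F], law_sum_comm]
    congr 1
    funext y
    rw [sum_kr]
    unfold FP.E
    refine Finset.sum_congr rfl fun ν _ => ?_
    have : lab R J n0 (oc y) (tc y) (t + 1) ν ⟨t + 1, hs1⟩ = pub R J n0 (oc y) (tc y) (sq ν) (t + 1) := by
      unfold lab
      rw [if_pos (le_refl (t + 1))]
    show _ * ind (lab R J n0 (oc y) (tc y) (t + 1) ν ⟨t + 1, hs1⟩ ≠ none) = _
    rw [this]
  have e5 : P.Pr (fun _ => A) = ind A := by
    unfold FP.Pr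
    exact P.E_const _
  rw [e1, e2, ← e3, ← e4, ← e5]
  exact h3

/-- the initial term -/
theorem ent_zero {V : Finset X} (hV : V.Nonempty) (oc : X → ℕ → Prop) (tc : X → ℕ → Option φ) :
    (ent fun F => law V (fun y => kr (N := N) R J n0 (oc y) (tc y) 0) F) ≤ Real.log (Fintype.card φ + 1) := by
  classical
  have hc : (0 : ℝ) < V.card := by exact_mod_cast hV.card_pos
  have h0 : ∀ F, 0 ≤ law V (fun y => kr (N := N) R J n0 (oc y) (tc y) 0) F := fun F =>
    div_nonneg (Finset.sum_nonneg fun y _ => kr_nn _ _) hc.le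
  have h1 : ∑ F, law V (fun y => kr (N := N) R J n0 (oc y) (tc y) 0) F = 1 := by
    have := law_sum_comm V (fun y => kr (N := N) R J n0 (oc y) (tc y) 0) (fun _ => 1)
    simp only [mul_one] at this
    rw [this, show (fun x => ∑ F, kr (N := N) R J n0 (oc x) (tc x) 0 F) = fun _ => (1 : ℝ) from
      funext fun x => kr_one _]
    unfold avg
    rw [Finset.sum_const, nsmul_eq_mul, mul_one, div_self hc.ne']
  set P : FP (Fin (N + 1) → Option φ) := mkP _ h0 h1 with hP
  have e1 : (ent fun F => law V (fun y => kr (N := N) R J n0 (oc y) (tc y) 0) F) = P.H (fun F => F) :=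
    (H_id P).symm
  rw [e1]
  set S : Finset (Fin (N + 1) → Option φ) :=
    (univ : Finset (Option φ)).image fun o => fun s => if s.val = 0 then o else none with hS
  have h2 := P.H_le_log_image (fun F => F) S (by
    intro F hF
    have h3 : ∃ y ∈ V, kr (N := N) R J n0 (oc y) (tc y) 0 F ≠ 0 := by
      by_contra hn
      push Not at hn
      apply hF
      show law V (fun y => kr (N := N) R J n0 (oc y) (tc y) 0) F = 0
      unfold law avg
      rw [Finset.sum_eq_zero hn, zero_div]
    obtain ⟨y, hy, hky⟩ := h3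
    rw [hS, Finset.mem_image]
    refine ⟨F ⟨0, by omega⟩, Finset.mem_univ _, ?_⟩
    funext s
    by_cases hs : s.val = 0
    · rw [if_pos hs]
      congr 1
      exact Fin.ext hs.symm
    · rw [if_neg hs]
      by_contra hn
      have := ((kr_supp hky).1 s (fun h => hn h.symm)).1
      omega)
  refine h2.trans ?_
  have h4 : (S.card : ℝ) ≤ Fintype.card φ + 1 := by
    have : S.card ≤ Fintype.card φ + 1 := by
      rw [hS]
      exact Finset.card_image_le.trans (by rw [Finset.card_univ, Fintype.card_option])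
    exact_mod_cast this
  have h5 : (0 : ℝ) < S.card := by
    have : 0 < S.card := Finset.card_pos.2 ⟨_, Finset.mem_image.2 ⟨none, Finset.mem_univ _, rfl⟩⟩
    exact_mod_cast this
  exact Real.log_le_log h5 h4

end step

section sum

variable [Fintype X] [Fintype β] [Fintype γ] [Nonempty X] [Nonempty β] [Nonempty γ] [Nonempty φ]
  {D : Dat X β γ ι (Fin (N + 1) → Option φ)}
  {k : ℕ → X → β → γ → (Fin (N + 1) → Option φ) → ℝ} {oc : X → β → γ → ℕ → Prop} {tc : X → β → γ → ℕ → Option φ} {K : ℕ}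

/-- averages over the cells of the hidden point -/
theorem E3_cell (D : Dat X β γ ι (Fin (N + 1) → Option φ)) (t : ℕ) (g : X → β → γ → ℝ) :
    E3 (fun x b c => avg (D.cA t x) fun y => g y b c) = E3 g := by
  rw [E3_eq3, E3_eq3]
  congr 1
  have h1 : ∀ (f : X → β → γ → ℝ), ∑ x, ∑ b, ∑ c, f x b c = ∑ b, ∑ c, ∑ x, f x b c := by
    intro f
    rw [Finset.sum_comm]
    exact Finset.sum_congr rfl fun b _ => Finset.sum_comm
  rw [h1, h1]
  refine Finset.sum_congr rfl fun b _ => Finset.sum_congr rfl fun c _ => ?_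
  exact sum_cell (fun x => D.cA t x) (fun x => D.self_cA t x)
    (fun v w hv => D.cA_congr (D.mem_cA.1 hv)) (fun y => g y b c)

/-- (H2) -/
theorem HH_sum_le (hk : ∀ t ≤ N, ∀ x b c F, k t x b c F = kr R J n0 (oc x b c) (tc x b c) t F)
    (hoc : ∀ t ≤ N, ∀ x x' b c, D.qa t x = D.qa t x' → (oc x b c t ↔ oc x' b c t)) (hK : K ≤ N) (hJ : 1 ≤ J) :
    HH (k 0) (fun x _ _ => D.cA 0 x) + ∑ t ∈ range K, (HH (k (t + 1)) (fun x _ _ => D.cA (t + 1) x) -
      HH (k t) (fun x _ _ => D.cA (t + 1) x)) ≤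
    Real.log (Fintype.card φ + 1) + (2 * n0 * (1 + Real.log J + Real.log (Fintype.card φ)) + 1) := by
  classical
  have hJ' : (0 : ℝ) < J := by exact_mod_cast hJ
  have hlJ : 0 ≤ Real.log J := Real.log_nonneg (by exact_mod_cast hJ)
  have hlc : 0 ≤ Real.log (Fintype.card φ) := Real.log_nonneg (by exact_mod_cast Fintype.card_pos)
  have hkk : ∀ t ≤ N, ∀ x b c, k t x b c = kr R J n0 (oc x b c) (tc x b c) t := fun t ht x b c =>
    funext fun F => hk t ht x b c F
  -- the initial term
  have h0 : HH (k 0) (fun x _ _ => D.cA 0 x) ≤ Real.log (Fintype.card φ + 1) := by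
    unfold HH
    refine le_trans (E3_mono (g := fun _ _ _ => Real.log (Fintype.card φ + 1)) fun x b c => ?_) (le_of_eq (E3_const _))
    have h1 := ent_zero (R := R) (J := J) (n0 := n0) (N := N) ⟨x, D.self_cA 0 x⟩ (fun y => oc y b c) (fun y => tc y b c)
    have h2 : (fun y => k 0 y b c) = fun y => kr (N := N) R J n0 (oc y b c) (tc y b c) 0 := funext fun y =>
      hkk 0 (by omega) y b c
    rw [h2]
    exact h1
  -- one step
  set g : ℕ → X → β → γ → ℝ := fun t x b c => (FP.unif (Fin (N + 1) → Ns R φ)).E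
      (fun ν => ind (pub R J n0 (oc x b c) (tc x b c) (sq ν) (t + 1) ≠ none)) with hg
  set B : ℝ := 1 + Real.log J + Real.log (Fintype.card φ) with hB
  have hstep : ∀ t ∈ range K, HH (k (t + 1)) (fun x _ _ => D.cA (t + 1) x) -
      HH (k t) (fun x _ _ => D.cA (t + 1) x) ≤ E3 (g t) * B + 1 / J * E3 fun x b c => ind (aoc J (oc x b c) (t + 1)) := by
    intro t ht
    have htK := Finset.mem_range.1 ht
    unfold HH
    rw [← E3_sub]
    have h1 : E3 (fun x b c => (ent fun F => law (D.cA (t + 1) x) (fun y => k (t + 1) y b c) F) -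
        (ent fun F => law (D.cA (t + 1) x) (fun y => k t y b c) F)) ≤
        E3 (fun x b c => (avg (D.cA (t + 1) x) fun y => g t y b c) * B + 1 / J * ind (aoc J (oc x b c) (t + 1))) := by
      refine E3_mono fun x b c => ?_
      have h2 : (fun y => k (t + 1) y b c) = fun y => kr (N := N) R J n0 (oc y b c) (tc y b c) (t + 1) := funext fun y =>
        hkk (t + 1) (by omega) y b c
      have h3 : (fun y => k t y b c) = fun y => kr (N := N) R J n0 (oc y b c) (tc y b c) t := funext fun y =>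
        hkk t (by omega) y b c
      rw [h2, h3]
      exact ent_step (R := R) (n0 := n0) (N := N) ⟨x, D.self_cA (t + 1) x⟩ (oc := fun y => oc y b c)
        (tc := fun y => tc y b c) (t := t) (by omega) (A := aoc J (oc x b c) (t + 1))
        (fun y hy h => (aoc_congr (J := J) (oc_le hoc (by omega : t + 1 ≤ N) (D.mem_cA.1 hy) b c)).1 h) hJ
    refine h1.trans (le_of_eq ?_)
    rw [E3_add, E3_mul_const, E3_smul, E3_cell]
  have hsum := Finset.sum_le_sum hstep
  rw [Finset.sum_add_distrib, ← Finset.sum_mul, ← Finset.mul_sum, ← E3_finsum, ← E3_finsum] at hsum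
  have h4 : E3 (fun x b c => ∑ t ∈ range K, g t x b c) ≤ 2 * n0 := by
    refine le_trans (E3_mono (g := fun _ _ _ => (2 * n0 : ℝ)) fun x b c => ?_) (le_of_eq (E3_const _))
    rw [hg]
    simp only
    rw [← FP.E_sum]
    exact FP.E_le_const _ fun ν _ => pub_count _ _ _ K
  have h5 : E3 (fun x b c => ∑ t ∈ range K, ind (aoc J (oc x b c) (t + 1))) ≤ J :=
    le_trans (E3_mono (g := fun _ _ _ => (J : ℝ)) fun x b c => aoc_count J (oc x b c) K) (le_of_eq (E3_const _))
  have h6 : 1 / (J : ℝ) * E3 (fun x b c => ∑ t ∈ range K, ind (aoc J (oc x b c) (t + 1))) ≤ 1 := by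
    calc 1 / (J : ℝ) * E3 (fun x b c => ∑ t ∈ range K, ind (aoc J (oc x b c) (t + 1))) ≤ 1 / (J : ℝ) * J :=
          mul_le_mul_of_nonneg_left h5 (by positivity)
      _ = 1 := by field_simp
  have h7 := mul_le_mul_of_nonneg_right h4 (show 0 ≤ B by rw [hB]; linarith)
  linarith

end sum

end Pool.Agent.M3.S3
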