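import Pool.Agent.M3.S3.MdlDef
import Pool.Agent.M3.S3.NzH

/-!
# M3.S3.MdlA: the data of Theorem 3 for the model of section 0, one top (helper96)

* `kfM Rz J n0 D i j τ t x b c` : kernel of the letters of the labelled pair `D` at the point `ptM i j τ x b c`;
* `datM` : the data `Dat (XM N Ξ) (YM k Ξ) (YM k Ξ) (ℕ × V k) (Fin (N+1) → Option (Bool → L))` of the top `τ`;
* `thickM` : thick with the constant `Nz.alz Rz J n0 |Bool → L|`;
* `hyp3M` : `Hyp3 (datM τ) (dgM N) rst rst al N Lam` under the size hypotheses `SzM`.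
-/

set_option autoImplicit false
set_option linter.unusedSectionVars false

namespace Pool.Agent.M3.Mod

open Finset Pool.Agent.PWZ Pool.Agent.M3.Bin Pool.Agent.M3 Pool.Agent.M3.S3

noncomputable section

variable {k N : ℕ} {Θ Ξ L : Type} {i j l : Fin 3} {h : ℕ}

/-! ## the cells -/

theorem ex_succ_le (N t : ℕ) : ex N (t + 1) ≤ ex N t := by unfold ex; omega

theorem qaM_ref (t : ℕ) (x x' : XM N Ξ) (hx : qaM k N (t + 1) x = qaM k N (t + 1) x') :
    qaM k N t x = qaM k N t x' := by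
  unfold qaM at hx ⊢
  have h1 := (Prod.mk.inj hx).1
  refine Prod.ext ?_ rfl
  show x.2.val / 2 ^ ex N t = x'.2.val / 2 ^ ex N t
  rcases lt_or_ge t N with ht | ht
  · rw [ex_succ ht, pow_succ, ← Nat.div_div_eq_div_mul, ← Nat.div_div_eq_div_mul, h1]
  · rw [ex_top ht]
    rw [ex_top (by omega : N ≤ t + 1)] at h1
    exact h1

theorem qbM_ref (t : ℕ) (b b' : YM k Ξ) (hb : qbM N h (t + 1) b = qbM N h (t + 1) b') :
    qbM N h t b = qbM N h t b' := by
  unfold qbM at hb ⊢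
  refine Prod.ext rfl ?_
  exact flr_mono_eq (by have := ex_succ_le N t; omega) (Prod.mk.inj hb).2

theorem qaM_le {s t : ℕ} (hs : s ≤ t) {x x' : XM N Ξ} (hx : qaM k N t x = qaM k N t x') :
    qaM k N s x = qaM k N s x' := by
  induction t, hs using Nat.le_induction with
  | base => exact hx
  | succ n _ ih => exact ih (qaM_ref n x x' hx)

theorem qbM_le {s t : ℕ} (hs : s ≤ t) {b b' : YM k Ξ} (hb : qbM N h t b = qbM N h t b') :
    qbM N h s b = qbM N h s b' := by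
  induction t, hs using Nat.le_induction with
  | base => exact hb
  | succ n _ ih => exact ih (qbM_ref n b b' hb)

/-! ## the letters at the points of a top -/

/-- same node: occasions of a pair `(i,j)` -/
theorem oc_ptM (hij : j ≠ i) (hli : l ≠ i) (hlj : l ≠ j) {a : Fin 3} {D : L1 (Sp k N 3 Θ Ξ) L} (H : LabH i a h D)
    (τ : TM k Θ) {t : ℕ} {x x' : XM N Ξ} {b b' c c' : YM k Ξ}
    (ha : vx a (ptM i j τ x b c) = vx a (ptM i j τ x' b' c')) (hx : qaM k N t x = qaM k N t x')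
    (hb : qbM N h t b = qbM N h t b') (hc : qbM N h t c = qbM N h t c') :
    D.oc t (ptM i j τ x b c) ↔ D.oc t (ptM i j τ x' b' c') := by
  cases t with
  | zero => exact Iff.rfl
  | succ t =>
    refine H.cl t _ _ ha ?_
    rw [Qn_iff hij hli hlj, tp_ptM, tp_ptM, x_ptM, x_ptM, vj_ptM hij, vj_ptM hij, vl_ptM hli hlj, vl_ptM hli hlj]
    exact ⟨rfl, hx, hb, hc⟩

/-- same hidden point, same known point of the pair, same cell of the other: true components -/
theorem tc_ptM (hij : j ≠ i) (hli : l ≠ i) (hlj : l ≠ j) {a : Fin 3} {D : L1 (Sp k N 3 Θ Ξ) L} (H : LabH i a h D)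
    (τ : TM k Θ) {t : ℕ} {x : XM N Ξ} {b b' c c' : YM k Ξ}
    (ha : vx a (ptM i j τ x b c) = vx a (ptM i j τ x b' c'))
    (hb : qbM N h t b = qbM N h t b') (hc : qbM N h t c = qbM N h t c') :
    D.tc t (ptM i j τ x b c) = D.tc t (ptM i j τ x b' c') := by
  have hi : vx i (ptM i j τ x b c) = vx i (ptM i j τ x b' c') := by rw [vi_ptM, vi_ptM]
  have hQ : Qn i h (ex N t) (ptM i j τ x b c) = Qn i h (ex N t) (ptM i j τ x b' c') := by
    rw [Qn_iff hij hli hlj, tp_ptM, tp_ptM, x_ptM, x_ptM, vj_ptM hij, vj_ptM hij, vl_ptM hli hlj, vl_ptM hli hlj]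
    exact ⟨rfl, rfl, hb, hc⟩
  have hxx : D.x t (ptM i j τ x b c) = D.x t (ptM i j τ x b' c') :=
    H.x t _ _ (by show (_, _, _) = (_, _, _); rw [hi, ha, hQ])
  cases t with
  | zero =>
    show some (D.x 0 _) = some (D.x 0 _)
    rw [hxx]
  | succ t =>
    rw [L1.tc_succ, L1.tc_succ, hxx]
    have h1 : (D.cl t (ptM i j τ x b c) ∧ D.bb t (ptM i j τ x b c)) ↔
        (D.cl t (ptM i j τ x b' c') ∧ D.bb t (ptM i j τ x b' c')) := by
      rw [H.cl t _ _ ha hQ, H.bb t _ _ hi ha hQ]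
    by_cases h2 : D.cl t (ptM i j τ x b c) ∧ D.bb t (ptM i j τ x b c)
    · rw [if_pos h2, if_pos (h1.1 h2)]
    · rw [if_neg h2, if_neg (fun h3 => h2 (h1.2 h3))]

section dat

variable [Fintype L]

/-- KERNEL of the letters of the pair `D` at the points of the top `τ` -/
def kfM (Rz J n0 : ℕ) (D : L1 (Sp k N 3 Θ Ξ) L) (i j : Fin 3) (τ : TM k Θ) (t : ℕ) (x : XM N Ξ) (b c : YM k Ξ)
    (F : Fin (N + 1) → Option (Bool → L)) : ℝ :=
  Nz.kr Rz J n0 (fun s => D.oc s (ptM i j τ x b c)) (fun s => D.tc s (ptM i j τ x b c)) t F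

/-- THE DATA OF SECTION 3 for one top -/
def datM (Rz J n0 : ℕ) {DF DG : L1 (Sp k N 3 Θ Ξ) L} (hij : j ≠ i) (hli : l ≠ i) (hlj : l ≠ j)
    (HF : LabH i j h DF) (HG : LabH i l h DG) (τ : TM k Θ) :
    Dat (XM N Ξ) (YM k Ξ) (YM k Ξ) (ℕ × V k) (Fin (N + 1) → Option (Bool → L)) where
  qa := qaM k N
  qb := qbM N h
  qc := qbM N h
  kf := kfM Rz J n0 DF i j τ
  kg := kfM Rz J n0 DG i j τ
  ra := fun t x x' hx => qaM_ref t x x' hx
  rb := fun t b b' hb => qbM_ref t b b' hb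
  rc := fun t c c' hc => qbM_ref t c c' hc
  kf_c := fun t x b c c' hc => by
    funext F
    refine Nz.kr_congr (fun s hs => ?_) (fun s hs => ?_) F
    · exact oc_ptM hij hli hlj HF τ (by rw [vj_ptM hij, vj_ptM hij]) rfl rfl (qbM_le hs hc)
    · exact tc_ptM hij hli hlj HF τ (by rw [vj_ptM hij, vj_ptM hij]) rfl (qbM_le hs hc)
  kg_b := fun t x b b' c hb => by
    funext F
    refine Nz.kr_congr (fun s hs => ?_) (fun s hs => ?_) F
    · exact oc_ptM hij hli hlj HG τ (by rw [vl_ptM hli hlj, vl_ptM hli hlj]) rfl (qbM_le hs hb) rfl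
    · exact tc_ptM hij hli hlj HG τ (by rw [vl_ptM hli hlj, vl_ptM hli hlj]) (qbM_le hs hb) rfl

variable {Rz J n0 : ℕ} {DF DG : L1 (Sp k N 3 Θ Ξ) L}

theorem alz_pos (hR : 1 ≤ Rz) (J n0 m : ℕ) : 0 < Nz.alz Rz J n0 m := by
  unfold Nz.alz
  have h1 : (0 : ℝ) < Rz := by exact_mod_cast hR
  positivity

/-- (H1) -/
theorem thickM [Nonempty L] (hR : 1 ≤ Rz) (hij : j ≠ i) (hli : l ≠ i) (hlj : l ≠ j) (HF : LabH i j h DF)
    (HG : LabH i l h DG) (τ : TM k Θ) :
    (datM Rz J n0 hij hli hlj HF HG τ).Thick (Nz.alz Rz J n0 (Fintype.card (Bool → L))) where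
  pos := alz_pos hR _ _ _
  f_nn := fun t x b c F => Nz.kr_nn _ _
  g_nn := fun t x b c F => Nz.kr_nn _ _
  f_one := fun t x b c => by
    classical
    exact Nz.kr_one t
  g_one := fun t x b c => by
    classical
    exact Nz.kr_one t
  f_thick := fun t x x' b c F hx hF => by
    refine Nz.kr_thick (fun s hs => ?_) hF
    exact oc_ptM hij hli hlj HF τ (by rw [vj_ptM hij, vj_ptM hij]) (qaM_le hs hx) rfl rfl
  g_thick := fun t x x' b c F hx hF => by
    refine Nz.kr_thick (fun s hs => ?_) hF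
    exact oc_ptM hij hli hlj HG τ (by rw [vl_ptM hli hlj, vl_ptM hli hlj]) (qaM_le hs hx) rfl rfl

end dat

/-! ## digits -/

theorem dgM_val (t : ℕ) (x : XM N Ξ) : dgM N t x = 1 ∨ dgM N t x = -1 := dg_val _ _

theorem dg_eq_iff {e w w' : ℕ} : dg e w = dg e w' ↔ Bin.bit e w = Bin.bit e w' := by
  have hw : Bin.bit e w < 2 := Nat.mod_lt _ (by norm_num)
  have hw' : Bin.bit e w' < 2 := Nat.mod_lt _ (by norm_num)
  unfold dg
  constructor
  · intro hd
    by_cases h0 : Bin.bit e w = 0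
    · by_cases h0' : Bin.bit e w' = 0
      · rw [h0, h0']
      · rw [if_pos h0, if_neg h0'] at hd; norm_num at hd
    · by_cases h0' : Bin.bit e w' = 0
      · rw [if_neg h0, if_pos h0'] at hd; norm_num at hd
      · omega
  · intro hb
    rw [hb]

theorem dgM_cell {t : ℕ} (ht : t < N) (x x' : XM N Ξ) :
    qaM k N (t + 1) x = qaM k N (t + 1) x' ↔ qaM k N t x = qaM k N t x' ∧ dgM N t x = dgM N t x' := by
  unfold qaM dgM
  rw [dg_eq_iff, ex_succ ht]
  unfold Bin.bit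
  constructor
  · intro hq
    have h1 := (Prod.mk.inj hq).1
    refine ⟨Prod.ext ?_ rfl, by rw [h1]⟩
    show x.2.val / 2 ^ (ex N (t + 1) + 1) = x'.2.val / 2 ^ (ex N (t + 1) + 1)
    rw [pow_succ, ← Nat.div_div_eq_div_mul, ← Nat.div_div_eq_div_mul, h1]
  · rintro ⟨hq, hb⟩
    have h1 := (Prod.mk.inj hq).1
    rw [pow_succ, ← Nat.div_div_eq_div_mul, ← Nat.div_div_eq_div_mul] at h1
    refine Prod.ext ?_ rfl
    show x.2.val / 2 ^ ex N (t + 1) = x'.2.val / 2 ^ ex N (t + 1)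
    omega

/-- flip of the digit `e` -/
def flipN (e w : ℕ) : ℕ := if Bin.bit e w = 0 then w + 2 ^ e else w - 2 ^ e

theorem flipN_spec (e w : ℕ) : flipN e w / 2 ^ (e + 1) = w / 2 ^ (e + 1) ∧ Bin.bit e (flipN e w) = 1 - Bin.bit e w ∧
    flipN e (flipN e w) = w := by
  have h2 : (0 : ℕ) < 2 ^ e := by positivity
  -- `w = 2^e (2 a + r) + o`
  set a := w / 2 ^ (e + 1) with ha
  set r := Bin.bit e w with hr
  set o := w % 2 ^ e with ho
  have hr2 : r < 2 := Nat.mod_lt _ (by norm_num)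
  have ho2 : o < 2 ^ e := Nat.mod_lt _ h2
  have hw : w = 2 ^ e * (2 * a + r) + o := by
    have h3 := Nat.div_add_mod w (2 ^ e)
    have h4 : w / 2 ^ e = 2 * a + r := by
      have h5 := Nat.div_add_mod (w / 2 ^ e) 2
      rw [Nat.div_div_eq_div_mul, ← pow_succ] at h5
      rw [ha, hr]
      unfold Bin.bit
      omega
    rw [← h4]
    omega
  have hform : ∀ r', r' < 2 → (2 ^ e * (2 * a + r') + o) / 2 ^ (e + 1) = a ∧
      Bin.bit e (2 ^ e * (2 * a + r') + o) = r' := by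
    intro r' hr'
    have h6 : (2 ^ e * (2 * a + r') + o) / 2 ^ e = 2 * a + r' := by
      rw [Nat.mul_add_div h2, Nat.div_eq_of_lt ho2, Nat.add_zero]
    constructor
    · rw [pow_succ, ← Nat.div_div_eq_div_mul, h6]
      omega
    · unfold Bin.bit
      rw [h6]
      omega
  have key : flipN e w = 2 ^ e * (2 * a + (1 - r)) + o := by
    unfold flipN
    rw [← hr]
    by_cases h0 : r = 0
    · rw [if_pos h0, h0]
      rw [h0] at hw
      rw [hw]
      ring
    · have h1 : r = 1 := by omega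
      rw [if_neg h0, h1]
      rw [h1] at hw
      have : w = 2 ^ e * (2 * a) + o + 2 ^ e := by rw [hw]; ring
      have h7 : 2 ^ e * (2 * a + (1 - 1)) + o = 2 ^ e * (2 * a) + o := by simp
      rw [h7]
      omega
  obtain ⟨k1, k2⟩ := hform (1 - r) (by omega)
  refine ⟨by rw [key, k1], by rw [key, k2], ?_⟩
  have k3 : flipN e (flipN e w) = if Bin.bit e (flipN e w) = 0 then flipN e w + 2 ^ e else flipN e w - 2 ^ e := rfl
  rw [k3, key, k2]
  by_cases h0 : r = 0
  · rw [h0] at hw ⊢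
    rw [if_neg (by norm_num)]
    have : 2 ^ e * (2 * a + (1 - 0)) + o = 2 ^ e * (2 * a + 0) + o + 2 ^ e := by ring
    rw [this]
    omega
  · have h1 : r = 1 := by omega
    rw [h1] at hw ⊢
    rw [if_pos (by norm_num), hw]
    have : 1 - 1 = 0 := rfl
    rw [this]
    ring

theorem flipN_lt {e w : ℕ} (he : e < N) (hw : w < 2 ^ N) : flipN e w < 2 ^ N := by
  have h1 := (flipN_spec e w).1
  have h2 : w / 2 ^ (e + 1) < 2 ^ (N - (e + 1)) := by
    rw [Nat.div_lt_iff_lt_mul (by positivity), ← pow_add, Nat.sub_add_cancel he]; exact hw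
  rw [← h1, Nat.div_lt_iff_lt_mul (by positivity), ← pow_add, Nat.sub_add_cancel he] at h2
  exact h2

theorem dgM_bal [Fintype Ξ] {ι φ β γ : Type} (D : Dat (XM N Ξ) β γ ι φ) {t : ℕ} (ht : t < N)
    (hD : ∀ x x', D.qa t x = D.qa t x' ↔ qaM k N t x = qaM k N t x') (x : XM N Ξ) :
    ∑ y ∈ D.cA t x, dgM N t y = 0 := by
  classical
  have he : ex N (t + 1) < N := by unfold ex; omega
  refine Finset.sum_involution (fun y _ => (y.1, ⟨flipN (ex N (t + 1)) y.2.val, flipN_lt he y.2.isLt⟩)) ?_ ?_ ?_ ?_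
  · intro y _
    unfold dgM dg
    have h1 := (flipN_spec (ex N (t + 1)) y.2.val).2.1
    have h2 : Bin.bit (ex N (t + 1)) y.2.val < 2 := Nat.mod_lt _ (by norm_num)
    show (if Bin.bit (ex N (t + 1)) y.2.val = 0 then (1 : ℝ) else -1) +
      (if Bin.bit (ex N (t + 1)) (flipN (ex N (t + 1)) y.2.val) = 0 then (1 : ℝ) else -1) = 0
    rw [h1]
    by_cases h0 : Bin.bit (ex N (t + 1)) y.2.val = 0
    · rw [if_pos h0, if_neg (by omega)]; norm_num
    · rw [if_neg h0, if_pos (by omega)]; norm_num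
  · intro y _ _ heq
    have h1 := (flipN_spec (ex N (t + 1)) y.2.val).2.1
    have h2 : flipN (ex N (t + 1)) y.2.val = y.2.val := congrArg (fun z : XM N Ξ => z.2.val) heq
    rw [h2] at h1
    have h3 : Bin.bit (ex N (t + 1)) y.2.val < 2 := Nat.mod_lt _ (by norm_num)
    omega
  · intro y hy
    rw [D.mem_cA, hD] at hy ⊢
    rw [← hy]
    unfold qaM
    refine Prod.ext ?_ rfl
    show flipN (ex N (t + 1)) y.2.val / 2 ^ ex N t = y.2.val / 2 ^ ex N t
    rw [ex_succ ht]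
    exact (flipN_spec (ex N (t + 1)) y.2.val).1
  · intro y _
    exact Prod.ext rfl (Fin.ext (flipN_spec (ex N (t + 1)) y.2.val).2.2)

/-! ## halves -/

theorem card_cM [Fintype Ξ] (hN : N ≤ k) (s : ℕ) (hs : s ≤ k) (b : YM k Ξ) :
    (univ.filter fun y : YM k Ξ => flr s y.2 = flr s b.2).card = Fintype.card Ξ * 2 ^ s := by
  classical
  have h1 : (univ.filter fun y : YM k Ξ => flr s y.2 = flr s b.2) =
      (univ : Finset Ξ) ×ˢ (univ.filter fun v' : V k => flr s v' = flr s b.2) := by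
    ext x
    simp
  rw [h1, Finset.card_product, card_cell hs, Finset.card_univ]

theorem halfM [Fintype Ξ] {ι φ β γ : Type} (D : Dat β (YM k Ξ) γ ι φ) (hN : N ≤ k) {t : ℕ} (ht : t < N)
    (hD : ∀ t b b', D.qb t b = D.qb t b' ↔ qbM N h t b = qbM N h t b') :
    (∀ b, D.cB (t + 1) b = D.cB t b) ∨ ∀ b, 2 * (D.cB (t + 1) b).card = (D.cB t b).card := by
  classical
  have hc : ∀ t b, D.cB t b = univ.filter fun y : YM k Ξ => flr (ex N t - (h + 3)) y.2 = flr (ex N t - (h + 3)) b.2 := by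
    intro t b
    ext y
    rw [D.mem_cB, hD, Finset.mem_filter]
    unfold qbM
    constructor
    · intro hq
      exact ⟨Finset.mem_univ _, (Prod.mk.inj hq).2⟩
    · rintro ⟨-, hq⟩
      exact Prod.ext rfl hq
  rcases le_or_gt (ex N t) (h + 3) with hle | hgt
  · left
    intro b
    rw [hc, hc]
    have e1 : ex N (t + 1) - (h + 3) = ex N t - (h + 3) := by
      have := ex_succ_le N t
      omega
    rw [e1]
  · right
    intro b
    have e1 : ex N t - (h + 3) = (ex N (t + 1) - (h + 3)) + 1 := by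
      have := ex_succ ht
      omega
    have e2 : ex N t ≤ k := by unfold ex; omega
    rw [hc, hc, card_cM hN _ (by have := ex_succ_le N t; omega), card_cM hN _ (by omega), e1, pow_succ]
    ring

/-! ## the hypotheses -/

/-- SIZES: `m` = number of letters -/
structure SzM (Rz J n0 m : ℕ) (Lam : ℝ) : Prop where
  R1 : 1 ≤ Rz
  J1 : 1 ≤ J
  Lam1 : 1 ≤ Lam
  al : Real.exp (-Lam) ≤ Nz.alz Rz J n0 m
  JL : (J : ℝ) ≤ Real.exp Lam
  H2 : Real.log (m + 1) + (2 * n0 * (1 + Real.log J + Real.log m) + 1) ≤ Lam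

variable [Fintype L] [Nonempty L] {Rz J n0 : ℕ} {DF DG : L1 (Sp k N 3 Θ Ξ) L}

/-- THE HYPOTHESES OF THEOREM 3 -/
theorem hyp3M [Fintype Ξ] [Nonempty Ξ] (hN : N ≤ k) (hij : j ≠ i) (hli : l ≠ i) (hlj : l ≠ j) (HF : LabH i j h DF)
    (HG : LabH i l h DG) (τ : TM k Θ) {Lam : ℝ} (hs : SzM Rz J n0 (Fintype.card (Bool → L)) Lam) :
    Hyp3 (datM Rz J n0 hij hli hlj HF HG τ) (dgM N) (fun t => rst t) (fun t => rst t)
      (Nz.alz Rz J n0 (Fintype.card (Bool → L))) N Lam := by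
  have hocF : ∀ t ≤ N, ∀ (x x' : XM N Ξ) (b c : YM k Ξ), (datM Rz J n0 hij hli hlj HF HG τ).qa t x =
      (datM Rz J n0 hij hli hlj HF HG τ).qa t x' → (DF.oc t (ptM i j τ x b c) ↔ DF.oc t (ptM i j τ x' b c)) :=
    fun t _ x x' b c hx => oc_ptM hij hli hlj HF τ (by rw [vj_ptM hij, vj_ptM hij]) hx rfl rfl
  have hocG : ∀ t ≤ N, ∀ (x x' : XM N Ξ) (b c : YM k Ξ), (datM Rz J n0 hij hli hlj HF HG τ).qa t x =
      (datM Rz J n0 hij hli hlj HF HG τ).qa t x' → (DG.oc t (ptM i j τ x b c) ↔ DG.oc t (ptM i j τ x' b c)) :=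
    fun t _ x x' b c hx => oc_ptM hij hli hlj HG τ (by rw [vl_ptM hli hlj, vl_ptM hli hlj]) hx rfl rfl
  exact
  { Lam1 := hs.Lam1
    alL := hs.al
    dg_val := fun t x => dgM_val t x
    dg_cell := fun t ht x x' => dgM_cell ht x x'
    dg_bal := fun t ht x => dgM_bal (k := k) _ ht (fun _ _ => Iff.rfl) x
    halfB := fun t ht => halfM _ hN ht (fun _ _ _ => Iff.rfl)
    halfC := fun t ht => halfM (datM Rz J n0 hij hli hlj HF HG τ).swap hN ht (fun _ _ _ => Iff.rfl)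
    kf_pr := fun t _ x b c F => kr_rst _ _ t F
    kg_pr := fun t _ x b c F => kr_rst _ _ t F
    Hf2 := by
      have h1 := HH_sum_le (D := datM Rz J n0 hij hli hlj HF HG τ) (k := kfM Rz J n0 DF i j τ) (K := N)
        (fun _ _ _ _ _ _ => rfl) hocF le_rfl hs.J1
      exact h1.trans hs.H2
    Hg2 := by
      have h1 := HH_sum_le (D := datM Rz J n0 hij hli hlj HF HG τ) (k := kfM Rz J n0 DG i j τ) (K := N)
        (fun _ _ _ _ _ _ => rfl) hocG le_rfl hs.J1
      exact h1.trans hs.H2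
    cf3 := fun x b c => (chg_count (D := datM Rz J n0 hij hli hlj HF HG τ) (k := kfM Rz J n0 DF i j τ)
      (fun _ _ _ _ _ _ => rfl) hocF le_rfl x b c).trans hs.JL
    cg3 := fun x b c => (chg_count (D := datM Rz J n0 hij hli hlj HF HG τ) (k := kfM Rz J n0 DG i j τ)
      (fun _ _ _ _ _ _ => rfl) hocG le_rfl x b c).trans hs.JL }

end

end Pool.Agent.M3.Mod
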