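import Pool.Agent.M3.S3.MdlA
import Pool.Agent.M3.S3.MdlB

/-!
# M3.S3.Mdl: Theorem 3 in the model (helper34, helper96)

`thm3_model` : Theorem 3 (product form, exponent `κ`) gives the output `B3` of section 3 for every pair of labelled pairs
`DF` (vertices `i`, `j`), `DG` (vertices `i`, `l`) of the model, published with noise (`Nz`, parameters `Rz`, `J`, `n0`).
-/

set_option autoImplicit false
set_option linter.unusedSectionVars false

namespace Pool.Agent.M3.Mod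

open Finset Pool.Agent.PWZ Pool.Agent.M3.Bin Pool.Agent.M3

noncomputable section

/-- the family of `datM` -/
theorem famM {k N : ℕ} {Θ Ξ L : Type} [Fintype L] {i j l : Fin 3} {h Rz J n0 : ℕ} {DF DG : L1 (Sp k N 3 Θ Ξ) L}
    (hij : j ≠ i) (hli : l ≠ i) (hlj : l ≠ j) (HF : LabH i j h DF) (HG : LabH i l h DG) :
    Fam i j h Rz J n0 DF DG (fun τ => datM Rz J n0 hij hli hlj HF HG τ) where
  qa := fun _ _ _ => rfl
  qb := fun _ _ _ => rfl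
  qc := fun _ _ _ => rfl
  kf := fun _ _ _ _ _ _ => rfl
  kg := fun _ _ _ _ _ _ => rfl

/-- THEOREM 3 IN THE MODEL -/
theorem thm3_model {κ : ℝ} (h3 : S3.Thm3 κ) : ∃ C : ℕ, ∀ (k N : ℕ) (Θ Ξ L : Type) [Fintype Θ] [Nonempty Θ]
    [Fintype Ξ] [Nonempty Ξ] [Fintype L] [Nonempty L] (_ : N ≤ k) (i j l : Fin 3) (_ : j ≠ i) (_ : l ≠ i) (_ : l ≠ j)
    (h Rz J n0 : ℕ) (DF DG : L1 (Sp k N 3 Θ Ξ) L) (_ : LabH i j h DF) (_ : LabH i l h DG) (Lam n : ℝ)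
    (_ : SzM Rz J n0 (Fintype.card (Bool → L)) Lam) (_ : (2 * Lam) ^ C ≤ n),
    ∃ Uc : ℕ → Sp k N 3 Θ (Ξ × Co k N Ξ Rz (Bool → L)) → Finset (XM N Ξ),
      B3 i j l h (letF Rz J n0 i j DF) (letG Rz J n0 i l DG) Uc ((C : ℝ) * n * Lam ^ C) ((C : ℝ) * Lam)
        ((C : ℝ) * Lam ^ C * n ^ (-κ)) := by
  obtain ⟨C, hC⟩ := h3
  refine ⟨C, ?_⟩
  intro k N Θ Ξ L _ _ _ _ _ _ hN i j l hij hli hlj h Rz J n0 DF DG HF HG Lam n hs hn
  have key : ∀ τ : TM k Θ, ∃ U, S3.Concl3 (thickM hs.R1 hij hli hlj HF HG τ) (dgM N) N Lam n κ C U := fun τ =>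
    hC _ _ _ _ _ (datM Rz J n0 hij hli hlj HF HG τ) _ (thickM hs.R1 hij hli hlj HF HG τ) (dgM N) _ _ N Lam n
      (hyp3M hN hij hli hlj HF HG τ hs) hn
  choose U hU using key
  exact ⟨UcM i j l U, b3_of hN hij hli hlj (famM hij hli hlj HF HG) hU⟩

end

end Pool.Agent.M3.Mod
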