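import Pool.Agent.M3.S3.FComp

/-!
# M3.S3.ArgMin: the removal by minimisation (note 3445 (1), helper26; file by helper60)

`K` a class, `Bs` a finite set of owners, `k x b F` the kernel of the labels.  For a code `r : X → ℕ` (partition of `K`
into the fibres, `mainB K r` = the fibre of `0` = main block `M`)
`rcost n Lr k Bs K r = Lr |K - M| - |K| (n E_b I_K(f_b;r) - H_K(r))`.
`rem n Lr k Bs K` = a minimiser (values `≤ |X|`).
* `rem_gain`  (c): `Lr |K - M| ≤ gainF n k K Bs rem`;
* `rem_profit` (a): for `v` inside a block `S` (not the main one) and `M` nonempty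
  `|v| (log (|M|/|S|) + Lr) ≤ n avg_b ∑_(x in v) ∑_F k log (law S / law M)`;
* `rem_sat` (b): `n avg_b klf (law S') (law M) ≤ log (|M|/|S'|) + 1 + Lr` for every nonempty `S' ⊆ M`.
-/

set_option autoImplicit false
set_option linter.unusedSectionVars false
set_option linter.unusedVariables false

namespace Pool.Agent.M3.S3

open Finset Pool.Agent.PWZ

variable {X β Φ : Type*}

noncomputable section

open Classical in
/-- the main block: the fibre of `0` -/
def mainB (K : Finset X) (r : X → ℕ) : Finset X := K.filter fun x => r x = 0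

/-- the functional of the removal -/
def rcost [Fintype Φ] (n Lr : ℝ) (k : X → β → Φ → ℝ) (Bs : Finset β) (K : Finset X) (r : X → ℕ) : ℝ :=
  Lr * ((K.card : ℝ) - (mainB K r).card) - gainF n k K Bs r

open Classical in
/-- the codes with values at most `|X|` -/
def codes (X : Type*) [Fintype X] : Finset (X → ℕ) := Fintype.piFinset fun _ => Finset.range (Fintype.card X + 1)

end

theorem mem_mainB {K : Finset X} {r : X → ℕ} {x : X} : x ∈ mainB K r ↔ x ∈ K ∧ r x = 0 := by
  classical
  unfold mainB; rw [Finset.mem_filter]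

theorem mainB_subset (K : Finset X) (r : X → ℕ) : mainB K r ⊆ K := fun _ h => (mem_mainB.1 h).1

theorem mem_codes [Fintype X] {r : X → ℕ} : r ∈ codes X ↔ ∀ x, r x < Fintype.card X + 1 := by
  classical
  unfold codes
  rw [Fintype.mem_piFinset]
  simp only [Finset.mem_range]

theorem codes_nonempty (X : Type*) [Fintype X] : (codes X).Nonempty := ⟨fun _ => 0, mem_codes.2 fun _ => Nat.succ_pos _⟩

theorem fblk_main {K : Finset X} {r : X → ℕ} {x : X} (h : r x = 0) : fblk K r x = mainB K r := by
  ext y; rw [mem_fblk, mem_mainB, h]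

/-! ## block calculus -/

section blockc

variable [Fintype Φ] {k : X → Φ → ℝ} {K T T' : Finset X}

/-- `∑_F k log (law T / law T')` at the point `x` -/
noncomputable def dlr (k : X → Φ → ℝ) (T T' : Finset X) (x : X) : ℝ :=
  ∑ F, k x F * Real.log (law T k F / law T' k F)

/-- nonnegative kernel with a common support on `K` -/
structure Sup (k : X → Φ → ℝ) (K : Finset X) : Prop where
  nn : ∀ x ∈ K, ∀ F, 0 ≤ k x F
  sp : ∀ x ∈ K, ∀ x' ∈ K, ∀ F, k x F ≠ 0 → 0 < k x' F
  one : ∀ x ∈ K, ∑ F, k x F = 1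

theorem Sup.law_pos (h : Sup k K) (hT : T ⊆ K) (hne : T.Nonempty) {x : X} (hx : x ∈ K) {F : Φ} (hF : k x F ≠ 0) :
    0 < law T k F := by
  have hc : (0 : ℝ) < T.card := by exact_mod_cast hne.card_pos
  unfold law avg
  refine div_pos (Finset.sum_pos (fun y hy => ?_) hne) hc
  exact h.sp x hx y (hT hy) F hF

theorem Sup.law_nn (h : Sup k K) (hT : T ⊆ K) (F : Φ) : 0 ≤ law T k F :=
  div_nonneg (Finset.sum_nonneg fun y hy => h.nn y (hT hy) F) (Nat.cast_nonneg _)

theorem Sup.dlr_trans (h : Sup k K) {T'' : Finset X} (hT : T ⊆ K) (n1 : T.Nonempty) (hT' : T' ⊆ K) (n2 : T'.Nonempty)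
    (hT'' : T'' ⊆ K) (n3 : T''.Nonempty) {x : X} (hx : x ∈ K) :
    dlr k T T'' x = dlr k T T' x + dlr k T' T'' x := by
  unfold dlr
  rw [← Finset.sum_add_distrib]
  refine Finset.sum_congr rfl fun F _ => ?_
  by_cases hF : k x F = 0
  · rw [hF]; ring
  · have a1 := (h.law_pos hT n1 hx hF).ne'
    have a2 := (h.law_pos hT' n2 hx hF).ne'
    have a3 := (h.law_pos hT'' n3 hx hF).ne'
    rw [Real.log_div a1 a3, Real.log_div a1 a2, Real.log_div a2 a3]
    ring

theorem Sup.dlr_self (h : Sup k K) (hT : T ⊆ K) (n1 : T.Nonempty) {x : X} (hx : x ∈ K) : dlr k T T x = 0 := by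
  unfold dlr
  refine Finset.sum_eq_zero fun F _ => ?_
  by_cases hF : k x F = 0
  · rw [hF, zero_mul]
  · rw [div_self (h.law_pos hT n1 hx hF).ne', Real.log_one, mul_zero]

theorem sum_dlr_eq (hT : T.Nonempty) (U U' : Finset X) :
    ∑ x ∈ T, dlr k U U' x = T.card * ∑ F, law T k F * Real.log (law U k F / law U' k F) := by
  have hc : (0 : ℝ) < T.card := by exact_mod_cast hT.card_pos
  unfold dlr
  rw [Finset.sum_comm, Finset.mul_sum]
  refine Finset.sum_congr rfl fun F _ => ?_
  rw [← Finset.sum_mul]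
  unfold law avg
  field_simp

/-- Gibbs on a block -/
theorem Sup.gibbs (h : Sup k K) (hT : T ⊆ K) (hne : T.Nonempty) (hT' : T' ⊆ K) (hne' : T'.Nonempty) :
    0 ≤ ∑ x ∈ T, dlr k T T' x := by
  have hc : (0 : ℝ) < T.card := by exact_mod_cast hne.card_pos
  rw [sum_dlr_eq hne]
  refine mul_nonneg hc.le ?_
  have g := gibbs_law (p := fun F => law T k F) (q := fun F => law T' k F) (fun F => h.law_nn hT F)
    (fun F => h.law_nn hT' F) (fun F hF => by
      obtain ⟨y, hy⟩ := hne
      by_cases h1 : ∀ z ∈ T, k z F = 0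
      · exfalso
        apply hF
        show law T k F = 0
        unfold law avg
        rw [Finset.sum_eq_zero h1, zero_div]
      · push Not at h1
        obtain ⟨z, hz, hzF⟩ := h1
        exact h.law_pos hT' hne' (hT hz) hzF)
    (law_sum hne fun x hx => h.one x (hT hx)) (law_sum hne' fun x hx => h.one x (hT' hx)).le
  have e : ∑ F, law T k F * Real.log (law T k F / law T' k F) =
      - ∑ F, law T k F * Real.log (law T' k F / law T k F) := by
    rw [← Finset.sum_neg_distrib]
    refine Finset.sum_congr rfl fun F _ => ?_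
    rw [← mul_neg, ← Real.log_inv, inv_div]
  rw [e]
  linarith

/-- relative entropy as a sum over the block -/
theorem card_mul_klf (hne : T.Nonempty) (T' : Finset X) :
    (T.card : ℝ) * klf (law T k) (law T' k) = ∑ x ∈ T, dlr k T T' x := by
  rw [sum_dlr_eq hne]; rfl

end blockc

/-- sizes: moving `v` from `s` to `m` -/
theorem size_move {m v s : ℝ} (hm : 0 < m) (hv : 0 < v) (hvs : v ≤ s) :
    0 ≤ (m + v) * Real.log ((m + v) / m) + (s - v) * Real.log ((s - v) / s) := by
  have hs : 0 < s := lt_of_lt_of_le hv hvs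
  have h1 : v ≤ (m + v) * Real.log ((m + v) / m) := by
    have h2 := Real.log_le_sub_one_of_pos (x := m / (m + v)) (by positivity)
    have h3 : Real.log (m / (m + v)) = - Real.log ((m + v) / m) := by rw [← Real.log_inv, inv_div]
    rw [h3] at h2
    have h4 := mul_le_mul_of_nonneg_left h2 (by positivity : (0 : ℝ) ≤ m + v)
    have h5 : (m + v) * (m / (m + v) - 1) = - v := by field_simp; ring
    rw [h5] at h4
    linarith
  have h2 : - v ≤ (s - v) * Real.log ((s - v) / s) := by
    rcases hvs.eq_or_lt with h | h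
    · rw [h, sub_self, zero_mul]; linarith
    · have hp : 0 < s - v := sub_pos.2 h
      have h2 := Real.log_le_sub_one_of_pos (x := s / (s - v)) (by positivity)
      have h3 : Real.log (s / (s - v)) = - Real.log ((s - v) / s) := by rw [← Real.log_inv, inv_div]
      rw [h3] at h2
      have h4 := mul_le_mul_of_nonneg_left h2 hp.le
      have h5 : (s - v) * (s / (s - v) - 1) = v := by field_simp; ring
      rw [h5] at h4
      linarith
  linarith

section change

variable [Fintype Φ]

/-- `gainF` as a sum over the class -/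
theorem gainF_eq {n : ℝ} {k : X → β → Φ → ℝ} {K : Finset X} {Bs : Finset β} (r : X → ℕ) :
    gainF n k K Bs r = ∑ x ∈ K, (n * avg Bs (fun b => dlr (fun x => k x b) (fblk K r x) K x) -
      Real.log ((K.card : ℝ) / (fblk K r x).card)) := by
  unfold gainF entN
  rw [Finset.sum_sub_distrib]
  congr 1
  rw [← Finset.mul_sum]
  congr 1
  unfold infoN avg dlr
  rw [Finset.sum_comm, ← Finset.sum_div]

/-- the change of `gainF` between two codes -/
theorem gainF_sub {n : ℝ} {k : X → β → Φ → ℝ} {K : Finset X} {Bs : Finset β} (h : ∀ b ∈ Bs, Sup (fun x => k x b) K)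
    (r r' : X → ℕ) :
    gainF n k K Bs r' - gainF n k K Bs r =
      ∑ x ∈ K, (n * avg Bs (fun b => dlr (fun x => k x b) (fblk K r' x) (fblk K r x) x) +
        Real.log (((fblk K r' x).card : ℝ) / (fblk K r x).card)) := by
  rw [gainF_eq, gainF_eq, ← Finset.sum_sub_distrib]
  refine Finset.sum_congr rfl fun x hx => ?_
  have n1 : (fblk K r x).Nonempty := ⟨x, self_fblk hx⟩
  have n2 : (fblk K r' x).Nonempty := ⟨x, self_fblk hx⟩
  have n3 : K.Nonempty := ⟨x, hx⟩
  have c1 : (0 : ℝ) < (fblk K r x).card := by exact_mod_cast n1.card_pos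
  have c2 : (0 : ℝ) < (fblk K r' x).card := by exact_mod_cast n2.card_pos
  have c3 : (0 : ℝ) < K.card := by exact_mod_cast n3.card_pos
  have e1 : avg Bs (fun b => dlr (fun x => k x b) (fblk K r' x) K x) =
      avg Bs (fun b => dlr (fun x => k x b) (fblk K r' x) (fblk K r x) x) +
        avg Bs (fun b => dlr (fun x => k x b) (fblk K r x) K x) := by
    rw [← avg_add]
    unfold avg
    congr 1
    refine Finset.sum_congr rfl fun b hb => ?_
    exact (h b hb).dlr_trans (fblk_subset K r' x) n2 (fblk_subset K r x) n1 (Finset.Subset.refl K) n3 hx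
  rw [e1, Real.log_div c3.ne' c2.ne', Real.log_div c3.ne' c1.ne', Real.log_div c2.ne' c1.ne']
  ring

end change

/-! ## the removal -/

section rem

variable [Fintype X] [Fintype Φ]

theorem exists_rem (n Lr : ℝ) (k : X → β → Φ → ℝ) (Bs : Finset β) (K : Finset X) :
    ∃ r ∈ codes X, ∀ r' ∈ codes X, rcost n Lr k Bs K r ≤ rcost n Lr k Bs K r' :=
  Finset.exists_min_image (codes X) (rcost n Lr k Bs K) (codes_nonempty X)

/-- the removal code: `0` = main block -/
noncomputable def rem (n Lr : ℝ) (k : X → β → Φ → ℝ) (Bs : Finset β) (K : Finset X) : X → ℕ :=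
  Classical.choose (exists_rem n Lr k Bs K)

theorem rem_lt (n Lr : ℝ) (k : X → β → Φ → ℝ) (Bs : Finset β) (K : Finset X) (x : X) :
    rem n Lr k Bs K x < Fintype.card X + 1 :=
  mem_codes.1 (Classical.choose_spec (exists_rem n Lr k Bs K)).1 x

theorem rem_min (n Lr : ℝ) (k : X → β → Φ → ℝ) (Bs : Finset β) (K : Finset X) {r' : X → ℕ}
    (h : ∀ x, r' x < Fintype.card X + 1) : rcost n Lr k Bs K (rem n Lr k Bs K) ≤ rcost n Lr k Bs K r' :=
  (Classical.choose_spec (exists_rem n Lr k Bs K)).2 r' (mem_codes.2 h)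

variable {n Lr : ℝ} {k : X → β → Φ → ℝ} {Bs : Finset β} {K : Finset X}

/-- the codes of the class are not exhausted -/
theorem exists_fresh {x0 : X} (hx0 : x0 ∈ K) (r : X → ℕ) : ∃ j < Fintype.card X + 1, ∀ x ∈ K, r x ≠ j := by
  classical
  by_contra hc
  push Not at hc
  have h1 : Finset.range (Fintype.card X + 1) ⊆ K.image r := fun j hj => by
    obtain ⟨x, hx, e⟩ := hc j (Finset.mem_range.1 hj)
    exact Finset.mem_image.2 ⟨x, hx, e⟩
  have h2 := (Finset.card_le_card h1).trans Finset.card_image_le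
  rw [Finset.card_range] at h2
  have h3 := Finset.card_le_univ K
  omega

/-- (c) the removal pays -/
theorem rem_gain (h : ∀ b ∈ Bs, Sup (fun x => k x b) K) :
    Lr * ((K.card : ℝ) - (mainB K (rem n Lr k Bs K)).card) ≤ gainF n k K Bs (rem n Lr k Bs K) := by
  have h1 := rem_min n Lr k Bs K (r' := fun _ => 0) (fun _ => Nat.succ_pos _)
  have hb : ∀ x ∈ K, fblk K (fun _ => (0 : ℕ)) x = K := fun x hx => by
    ext y; rw [mem_fblk]; simp
  have h2 : rcost n Lr k Bs K (fun _ => 0) = 0 := by
    unfold rcost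
    have e1 : mainB K (fun _ => 0) = K := by ext y; rw [mem_mainB]; simp
    have e2 : gainF n k K Bs (fun _ => (0 : ℕ)) = 0 := by
      rw [gainF_eq]
      refine Finset.sum_eq_zero fun x hx => ?_
      rw [hb x hx]
      have hc : (0 : ℝ) < K.card := by exact_mod_cast Finset.card_pos.2 ⟨x, hx⟩
      have e3 : avg Bs (fun b => dlr (fun x => k x b) K K x) = 0 := by
        unfold avg
        rw [Finset.sum_eq_zero, zero_div]
        intro b hb'
        exact (h b hb').dlr_self (Finset.Subset.refl K) ⟨x, hx⟩ hx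
      rw [e3, div_self hc.ne', Real.log_one]
      ring
    rw [e1, e2]
    ring
  rw [h2] at h1
  unfold rcost at h1
  linarith

theorem sum_ite_sub {α : Type*} [DecidableEq α] {K M : Finset α} (h : M ⊆ K) (g : α → ℝ) :
    ∑ x ∈ K, (if x ∈ M then g x else 0) = ∑ x ∈ M, g x := by
  rw [Finset.sum_ite_mem, Finset.inter_eq_right.2 h]

/-- (a) every part of a removed block is profitable -/
theorem rem_profit (h : ∀ b ∈ Bs, Sup (fun x => k x b) K) (hn : 0 ≤ n)
    (hM : (mainB K (rem n Lr k Bs K)).Nonempty) {y : X} (hy : y ∈ K) (hy0 : rem n Lr k Bs K y ≠ 0)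
    {v : Finset X} (hv : v.Nonempty) (hvS : v ⊆ fblk K (rem n Lr k Bs K) y) :
    (v.card : ℝ) * (Real.log (((mainB K (rem n Lr k Bs K)).card : ℝ) / (fblk K (rem n Lr k Bs K) y).card) + Lr) ≤
      n * avg Bs (fun b => ∑ x ∈ v, dlr (fun x => k x b) (fblk K (rem n Lr k Bs K) y)
        (mainB K (rem n Lr k Bs K)) x) := by
  classical
  set r := rem n Lr k Bs K with hr
  set M := mainB K r with hMd
  set S := fblk K r y with hSd
  have hSK : S ⊆ K := fblk_subset K r y
  have hMK : M ⊆ K := mainB_subset K r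
  have hvK : v ⊆ K := hvS.trans hSK
  have hSne : S.Nonempty := ⟨y, self_fblk hy⟩
  have rS : ∀ x ∈ S, r x = r y := fun x hx => (mem_fblk.1 hx).2
  have rM : ∀ x ∈ M, r x = 0 := fun x hx => (mem_mainB.1 hx).2
  have dMS : Disjoint M S := by
    rw [Finset.disjoint_left]
    intro x h1 h2
    exact hy0 ((rS x h2).symm.trans (rM x h1))
  have dMv : Disjoint M v := Finset.disjoint_of_subset_right hvS dMS
  set r' : X → ℕ := fun x => if x ∈ v then 0 else r x with hr'
  have hmin := rem_min n Lr k Bs K (r' := r') (fun x => by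
    rw [hr']
    by_cases hx : x ∈ v
    · simp only [if_pos hx]; exact Nat.succ_pos _
    · simp only [if_neg hx]; exact rem_lt n Lr k Bs K x)
  -- the blocks of `r'`
  have bM : ∀ x ∈ K, r' x = 0 → fblk K r' x = M ∪ v := by
    intro x hx hx0
    ext z
    rw [mem_fblk, hx0, Finset.mem_union, mem_mainB]
    constructor
    · rintro ⟨h1, h2⟩
      by_cases hz : z ∈ v
      · exact Or.inr hz
      · left
        rw [hr'] at h2
        simp only [if_neg hz] at h2
        exact ⟨h1, h2⟩
    · rintro (⟨h1, h2⟩ | h1)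
      · refine ⟨h1, ?_⟩
        rw [hr']
        by_cases hz : z ∈ v
        · simp only [if_pos hz]
        · simp only [if_neg hz]; exact h2
      · refine ⟨hvK h1, ?_⟩
        rw [hr']
        simp only [if_pos h1]
  have rM' : ∀ x ∈ M, r' x = 0 := fun x hx => by
    rw [hr']
    by_cases hz : x ∈ v
    · simp only [if_pos hz]
    · simp only [if_neg hz]; exact rM x hx
  have rv' : ∀ x ∈ v, r' x = 0 := fun x hx => by
    rw [hr']; simp only [if_pos hx]
  have rS' : ∀ x ∈ S \ v, fblk K r' x = S \ v := by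
    intro x hx
    obtain ⟨hxS, hxv⟩ := Finset.mem_sdiff.1 hx
    have e1 : r' x = r y := by
      rw [hr']; simp only [if_neg hxv]; exact rS x hxS
    ext z
    rw [mem_fblk, e1, Finset.mem_sdiff, mem_fblk]
    constructor
    · rintro ⟨h1, h2⟩
      by_cases hz : z ∈ v
      · rw [rv' z hz] at h2
        exact absurd h2.symm hy0
      · rw [hr'] at h2
        simp only [if_neg hz] at h2
        exact ⟨⟨h1, h2⟩, hz⟩
    · rintro ⟨⟨h1, h2⟩, h3⟩
      refine ⟨h1, ?_⟩
      rw [hr']
      simp only [if_neg h3]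
      exact h2
  have rO' : ∀ x ∈ K, x ∉ M → x ∉ v → x ∉ S \ v → fblk K r' x = fblk K r x := by
    intro x hx h1 h2 h3
    have hxS : x ∉ S := fun hc => h3 (Finset.mem_sdiff.2 ⟨hc, h2⟩)
    have hx0 : r x ≠ 0 := fun hc => h1 (mem_mainB.2 ⟨hx, hc⟩)
    have hxy : r x ≠ r y := fun hc => hxS (mem_fblk.2 ⟨hx, hc⟩)
    have e1 : r' x = r x := by rw [hr']; simp only [if_neg h2]
    ext z
    rw [mem_fblk, mem_fblk, e1]
    constructor
    · rintro ⟨h4, h5⟩
      refine ⟨h4, ?_⟩
      by_cases hz : z ∈ v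
      · rw [rv' z hz] at h5
        exact absurd h5.symm hx0
      · rw [hr'] at h5
        simp only [if_neg hz] at h5
        exact h5
    · rintro ⟨h4, h5⟩
      refine ⟨h4, ?_⟩
      by_cases hz : z ∈ v
      · exact absurd (h5.symm.trans (rS z (hvS hz))) hxy
      · rw [hr']
        simp only [if_neg hz]
        exact h5
  -- main block of `r'`
  have eM' : mainB K r' = M ∪ v := by
    obtain ⟨z, hz⟩ := hM
    have := bM z (hMK hz) (rM' z hz)
    rw [← this, fblk_main (rM' z hz)]
  have cM' : ((M ∪ v).card : ℝ) = M.card + v.card := by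
    rw [Finset.card_union_of_disjoint dMv, Nat.cast_add]
  have cS' : ((S \ v).card : ℝ) = S.card - v.card := by
    rw [Finset.card_sdiff_of_subset hvS, Nat.cast_sub (Finset.card_le_card hvS)]
  have cM : (0 : ℝ) < M.card := by exact_mod_cast hM.card_pos
  have cv : (0 : ℝ) < v.card := by exact_mod_cast hv.card_pos
  have cS : (0 : ℝ) < S.card := by exact_mod_cast hSne.card_pos
  have cvS : (v.card : ℝ) ≤ S.card := by exact_mod_cast Finset.card_le_card hvS
  -- change of `gainF`
  have hMv : (M ∪ v) ⊆ K := Finset.union_subset hMK hvK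
  have hMvne : (M ∪ v).Nonempty := hM.mono Finset.subset_union_left
  set g1 : X → ℝ := fun x => n * avg Bs (fun b => dlr (fun x => k x b) (M ∪ v) M x) +
    Real.log (((M ∪ v).card : ℝ) / M.card) with hg1
  set g2 : X → ℝ := fun x => n * avg Bs (fun b => dlr (fun x => k x b) (M ∪ v) S x) +
    Real.log (((M ∪ v).card : ℝ) / S.card) with hg2
  set g3 : X → ℝ := fun x => n * avg Bs (fun b => dlr (fun x => k x b) (S \ v) S x) +
    Real.log (((S \ v).card : ℝ) / S.card) with hg3
  have hsub := gainF_sub (n := n) h r r'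
  have e0 : gainF n k K Bs r' - gainF n k K Bs r = ∑ x ∈ M, g1 x + ∑ x ∈ v, g2 x + ∑ x ∈ S \ v, g3 x := by
    rw [hsub]
    rw [← sum_ite_sub hMK g1, ← sum_ite_sub hvK g2,
      ← sum_ite_sub ((Finset.sdiff_subset).trans hSK : S \ v ⊆ K) g3, ← Finset.sum_add_distrib,
      ← Finset.sum_add_distrib]
    refine Finset.sum_congr rfl fun x hx => ?_
    by_cases h1 : x ∈ M
    · have h2 : x ∉ v := Finset.disjoint_left.1 dMv h1
      have h3 : x ∉ S \ v := fun hc => Finset.disjoint_left.1 dMS h1 (Finset.mem_sdiff.1 hc).1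
      rw [if_pos h1, if_neg h2, if_neg h3, add_zero, add_zero, bM x hx (rM' x h1), fblk_main (rM x h1)]
    · by_cases h2 : x ∈ v
      · have h3 : x ∉ S \ v := fun hc => (Finset.mem_sdiff.1 hc).2 h2
        have e1 : fblk K r x = S := fblk_congr (rS x (hvS h2))
        rw [if_neg h1, if_pos h2, if_neg h3, add_zero, zero_add, bM x hx (rv' x h2), e1]
      · by_cases h3 : x ∈ S \ v
        · have e1 : fblk K r x = S := fblk_congr (rS x (Finset.mem_sdiff.1 h3).1)
          rw [if_neg h1, if_neg h2, if_pos h3, add_zero, zero_add, rS' x h3, e1]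
        · rw [if_neg h1, if_neg h2, if_neg h3, rO' x hx h1 h2 h3]
          have n1 : (fblk K r x).Nonempty := ⟨x, self_fblk hx⟩
          have c1 : (0 : ℝ) < (fblk K r x).card := by exact_mod_cast n1.card_pos
          rw [div_self c1.ne', Real.log_one]
          have e3 : avg Bs (fun b => dlr (fun x => k x b) (fblk K r x) (fblk K r x) x) = 0 := by
            unfold avg
            rw [Finset.sum_eq_zero, zero_div]
            intro b hb'
            exact (h b hb').dlr_self (fblk_subset K r x) n1 hx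
          rw [e3]
          ring
  -- split `g2`
  have e2 : ∑ x ∈ v, g2 x = ∑ x ∈ v, g1 x - (n * avg Bs (fun b => ∑ x ∈ v, dlr (fun x => k x b) S M x)) +
      v.card * Real.log ((M.card : ℝ) / S.card) := by
    have e3 : n * avg Bs (fun b => ∑ x ∈ v, dlr (fun x => k x b) S M x) =
        ∑ x ∈ v, n * avg Bs (fun b => dlr (fun x => k x b) S M x) := by
      rw [← Finset.mul_sum]
      congr 1
      unfold avg
      rw [Finset.sum_comm, Finset.sum_div]
    have e4 : (v.card : ℝ) * Real.log ((M.card : ℝ) / S.card) = ∑ x ∈ v, Real.log ((M.card : ℝ) / S.card) := by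
      rw [Finset.sum_const, nsmul_eq_mul]
    rw [e3, e4, ← Finset.sum_sub_distrib, ← Finset.sum_add_distrib]
    refine Finset.sum_congr rfl fun x hx => ?_
    rw [hg1, hg2]
    simp only
    have e5 : avg Bs (fun b => dlr (fun x => k x b) (M ∪ v) M x) =
        avg Bs (fun b => dlr (fun x => k x b) (M ∪ v) S x) + avg Bs (fun b => dlr (fun x => k x b) S M x) := by
      rw [← avg_add]
      unfold avg
      congr 1
      refine Finset.sum_congr rfl fun b hb => ?_
      exact (h b hb).dlr_trans hMv hMvne hSK hSne hMK hM (hvK hx)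
    have c2 : (0 : ℝ) < ((M ∪ v).card : ℝ) := by exact_mod_cast hMvne.card_pos
    rw [e5, Real.log_div c2.ne' cS.ne', Real.log_div c2.ne' cM.ne', Real.log_div cM.ne' cS.ne']
    ring
  -- positivity
  have avg_nn : ∀ {f : β → ℝ}, (∀ b ∈ Bs, 0 ≤ f b) → 0 ≤ avg Bs f := fun hf =>
    div_nonneg (Finset.sum_nonneg hf) (Nat.cast_nonneg _)
  have swap : ∀ (T U U' : Finset X), ∑ x ∈ T, avg Bs (fun b => dlr (fun x => k x b) U U' x) =
      avg Bs (fun b => ∑ x ∈ T, dlr (fun x => k x b) U U' x) := by
    intro T U U'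
    unfold avg
    rw [Finset.sum_comm, Finset.sum_div]
  have p1 : ((M ∪ v).card : ℝ) * Real.log (((M ∪ v).card : ℝ) / M.card) ≤ ∑ x ∈ M, g1 x + ∑ x ∈ v, g1 x := by
    rw [← Finset.sum_union dMv, hg1]
    simp only
    rw [Finset.sum_add_distrib, Finset.sum_const, nsmul_eq_mul, ← Finset.mul_sum, swap]
    have := mul_nonneg hn (avg_nn (f := fun b => ∑ x ∈ M ∪ v, dlr (fun x => k x b) (M ∪ v) M x)
      (fun b hb => (h b hb).gibbs hMv hMvne hMK hM))
    linarith
  have p2 : ((S \ v).card : ℝ) * Real.log (((S \ v).card : ℝ) / S.card) ≤ ∑ x ∈ S \ v, g3 x := by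
    rw [hg3]
    simp only
    rw [Finset.sum_add_distrib, Finset.sum_const, nsmul_eq_mul, ← Finset.mul_sum, swap]
    rcases (S \ v).eq_empty_or_nonempty with he | hne
    · rw [he]
      simp only [Finset.sum_empty]
      have : avg Bs (fun _ => (0 : ℝ)) = 0 := by unfold avg; simp
      rw [this]
      simp
    · have := mul_nonneg hn (avg_nn (f := fun b => ∑ x ∈ S \ v, dlr (fun x => k x b) (S \ v) S x)
        (fun b hb => (h b hb).gibbs ((Finset.sdiff_subset).trans hSK) hne hSK hSne))
      linarith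
  have p3 := size_move cM cv cvS
  rw [cM'] at p1
  rw [cS'] at p2
  -- conclusion
  have hfin : rcost n Lr k Bs K r' - rcost n Lr k Bs K r =
      - (Lr * v.card) - (gainF n k K Bs r' - gainF n k K Bs r) := by
    unfold rcost
    rw [eM', cM']
    ring
  have h0 : 0 ≤ rcost n Lr k Bs K r' - rcost n Lr k Bs K r := sub_nonneg.2 hmin
  rw [hfin, e0, e2] at h0
  linarith

/-- (b) splitting a part off the main block does not pay -/
theorem rem_split [DecidableEq X] (h : ∀ b ∈ Bs, Sup (fun x => k x b) K) {T : Finset X} (hT : T.Nonempty)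
    (hTM : T ⊆ mainB K (rem n Lr k Bs K)) (hTc : (mainB K (rem n Lr k Bs K) \ T).Nonempty) :
    n * (avg Bs (fun b => ∑ x ∈ T, dlr (fun x => k x b) T (mainB K (rem n Lr k Bs K)) x) +
        avg Bs (fun b => ∑ x ∈ mainB K (rem n Lr k Bs K) \ T, dlr (fun x => k x b)
          (mainB K (rem n Lr k Bs K) \ T) (mainB K (rem n Lr k Bs K)) x)) ≤
      T.card * (Real.log (((mainB K (rem n Lr k Bs K)).card : ℝ) / T.card) + Lr) +
        (mainB K (rem n Lr k Bs K) \ T).card *
          Real.log (((mainB K (rem n Lr k Bs K)).card : ℝ) / (mainB K (rem n Lr k Bs K) \ T).card) := by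
  set r := rem n Lr k Bs K with hr
  set M := mainB K r with hMd
  have hMK : M ⊆ K := mainB_subset K r
  have hTK : T ⊆ K := hTM.trans hMK
  have hUK : M \ T ⊆ K := (Finset.sdiff_subset).trans hMK
  have hMne : M.Nonempty := hT.mono hTM
  obtain ⟨t0, ht0⟩ := hT
  obtain ⟨j, hj, hjK⟩ := exists_fresh (hTK ht0) r
  have rM : ∀ x ∈ M, r x = 0 := fun x hx => (mem_mainB.1 hx).2
  have hj0 : j ≠ 0 := fun hc => hjK t0 (hTK ht0) ((rM t0 (hTM ht0)).trans hc.symm)
  set r' : X → ℕ := fun x => if x ∈ T then j else r x with hr'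
  have hmin := rem_min n Lr k Bs K (r' := r') (fun x => by
    rw [hr']
    by_cases hx : x ∈ T
    · simp only [if_pos hx]; exact hj
    · simp only [if_neg hx]; exact rem_lt n Lr k Bs K x)
  have rT : ∀ x ∈ T, r' x = j := fun x hx => by rw [hr']; simp only [if_pos hx]
  have rN : ∀ x, x ∉ T → r' x = r x := fun x hx => by rw [hr']; simp only [if_neg hx]
  have bT : ∀ x ∈ T, fblk K r' x = T := by
    intro x hx
    ext z
    rw [mem_fblk, rT x hx]
    constructor
    · rintro ⟨h1, h2⟩
      by_contra hz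
      rw [rN z hz] at h2
      exact hjK z h1 h2
    · intro hz
      exact ⟨hTK hz, rT z hz⟩
  have eM' : mainB K r' = M \ T := by
    ext z
    rw [mem_mainB, Finset.mem_sdiff, mem_mainB]
    constructor
    · rintro ⟨h1, h2⟩
      have hz : z ∉ T := fun hc => hj0 ((rT z hc).symm.trans h2)
      rw [rN z hz] at h2
      exact ⟨⟨h1, h2⟩, hz⟩
    · rintro ⟨⟨h1, h2⟩, h3⟩
      exact ⟨h1, (rN z h3).trans h2⟩
  have bU : ∀ x ∈ M \ T, fblk K r' x = M \ T := by
    intro x hx
    obtain ⟨h1, h2⟩ := Finset.mem_sdiff.1 hx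
    rw [fblk_main ((rN x h2).trans (rM x h1)), eM']
  have bO : ∀ x ∈ K, x ∉ M → fblk K r' x = fblk K r x := by
    intro x hx h1
    have hx0 : r x ≠ 0 := fun hc => h1 (mem_mainB.2 ⟨hx, hc⟩)
    have h2 : x ∉ T := fun hc => h1 (hTM hc)
    ext z
    rw [mem_fblk, mem_fblk, rN x h2]
    constructor
    · rintro ⟨h4, h5⟩
      refine ⟨h4, ?_⟩
      by_cases hz : z ∈ T
      · rw [rT z hz] at h5
        exact absurd h5.symm (hjK x hx)
      · rwa [rN z hz] at h5
    · rintro ⟨h4, h5⟩
      refine ⟨h4, ?_⟩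
      by_cases hz : z ∈ T
      · exact absurd (h5.symm.trans (rM z (hTM hz))) hx0
      · rwa [rN z hz]
  set g1 : X → ℝ := fun x => n * avg Bs (fun b => dlr (fun x => k x b) T M x) +
    Real.log ((T.card : ℝ) / M.card) with hg1
  set g2 : X → ℝ := fun x => n * avg Bs (fun b => dlr (fun x => k x b) (M \ T) M x) +
    Real.log (((M \ T).card : ℝ) / M.card) with hg2
  have hsub := gainF_sub (n := n) h r r'
  have e0 : gainF n k K Bs r' - gainF n k K Bs r = ∑ x ∈ T, g1 x + ∑ x ∈ M \ T, g2 x := by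
    rw [hsub, ← sum_ite_sub hTK g1, ← sum_ite_sub hUK g2, ← Finset.sum_add_distrib]
    refine Finset.sum_congr rfl fun x hx => ?_
    by_cases h1 : x ∈ T
    · have h2 : x ∉ M \ T := fun hc => (Finset.mem_sdiff.1 hc).2 h1
      rw [if_pos h1, if_neg h2, add_zero, bT x h1, fblk_main (rM x (hTM h1))]
    · by_cases h2 : x ∈ M \ T
      · rw [if_neg h1, if_pos h2, zero_add, bU x h2, fblk_main (rM x (Finset.mem_sdiff.1 h2).1)]
      · have h3 : x ∉ M := fun hc => h2 (Finset.mem_sdiff.2 ⟨hc, h1⟩)
        have n1 : (fblk K r x).Nonempty := ⟨x, self_fblk hx⟩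
        have c1 : (0 : ℝ) < (fblk K r x).card := by exact_mod_cast n1.card_pos
        have e3 : avg Bs (fun b => dlr (fun x => k x b) (fblk K r x) (fblk K r x) x) = 0 := by
          unfold avg
          rw [Finset.sum_eq_zero, zero_div]
          intro b hb'
          exact (h b hb').dlr_self (fblk_subset K r x) n1 hx
        rw [if_neg h1, if_neg h2, bO x hx h3, div_self c1.ne', Real.log_one, e3]
        ring
  have swap : ∀ (T U U' : Finset X), ∑ x ∈ T, avg Bs (fun b => dlr (fun x => k x b) U U' x) =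
      avg Bs (fun b => ∑ x ∈ T, dlr (fun x => k x b) U U' x) := by
    intro T U U'
    unfold avg
    rw [Finset.sum_comm, Finset.sum_div]
  have s1 : ∑ x ∈ T, g1 x = n * avg Bs (fun b => ∑ x ∈ T, dlr (fun x => k x b) T M x) -
      T.card * Real.log ((M.card : ℝ) / T.card) := by
    rw [hg1]
    simp only
    rw [Finset.sum_add_distrib, Finset.sum_const, nsmul_eq_mul, ← Finset.mul_sum, swap,
      ← inv_div (M.card : ℝ), Real.log_inv]
    ring
  have s2 : ∑ x ∈ M \ T, g2 x = n * avg Bs (fun b => ∑ x ∈ M \ T, dlr (fun x => k x b) (M \ T) M x) -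
      (M \ T).card * Real.log ((M.card : ℝ) / (M \ T).card) := by
    rw [hg2]
    simp only
    rw [Finset.sum_add_distrib, Finset.sum_const, nsmul_eq_mul, ← Finset.mul_sum, swap,
      ← inv_div (M.card : ℝ), Real.log_inv]
    ring
  have cU : ((M \ T).card : ℝ) = M.card - T.card := by
    rw [Finset.card_sdiff_of_subset hTM, Nat.cast_sub (Finset.card_le_card hTM)]
  have hfin : rcost n Lr k Bs K r' - rcost n Lr k Bs K r =
      Lr * T.card - (gainF n k K Bs r' - gainF n k K Bs r) := by
    unfold rcost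
    rw [eM', cU]
    ring
  have h0 : 0 ≤ rcost n Lr k Bs K r' - rcost n Lr k Bs K r := sub_nonneg.2 hmin
  rw [hfin, e0, s1, s2] at h0
  linarith

/-- (b) the main block is saturated for all events -/
theorem rem_sat (h : ∀ b ∈ Bs, Sup (fun x => k x b) K) (hn : 0 ≤ n) (hLr : 0 ≤ Lr) {T : Finset X} (hT : T.Nonempty)
    (hTM : T ⊆ mainB K (rem n Lr k Bs K)) :
    n * avg Bs (fun b => klf (law T (fun x => k x b)) (law (mainB K (rem n Lr k Bs K)) (fun x => k x b))) ≤
      Real.log (((mainB K (rem n Lr k Bs K)).card : ℝ) / T.card) + 1 + Lr := by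
  classical
  have hMK := mainB_subset K (rem n Lr k Bs K)
  have cT : (0 : ℝ) < T.card := by exact_mod_cast hT.card_pos
  have hMne : (mainB K (rem n Lr k Bs K)).Nonempty := hT.mono hTM
  have cM : (0 : ℝ) < (mainB K (rem n Lr k Bs K)).card := by exact_mod_cast hMne.card_pos
  have e1 : avg Bs (fun b => klf (law T (fun x => k x b)) (law (mainB K (rem n Lr k Bs K)) (fun x => k x b))) =
      avg Bs (fun b => ∑ x ∈ T, dlr (fun x => k x b) T (mainB K (rem n Lr k Bs K)) x) / T.card := by
    rw [eq_div_iff cT.ne']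
    unfold avg
    rw [div_mul_eq_mul_div, Finset.sum_mul]
    congr 1
    refine Finset.sum_congr rfl (fun b _ => ?_)
    rw [mul_comm]
    exact card_mul_klf (k := fun x => k x b) hT _
  rcases (mainB K (rem n Lr k Bs K) \ T).eq_empty_or_nonempty with he | hne
  · have e2 : T = mainB K (rem n Lr k Bs K) :=
      Finset.Subset.antisymm hTM (Finset.sdiff_eq_empty_iff_subset.1 he)
    have e3 : avg Bs (fun b => klf (law T (fun x => k x b)) (law (mainB K (rem n Lr k Bs K)) (fun x => k x b))) =
        0 := by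
      rw [e1, ← e2]
      have : avg Bs (fun b => ∑ x ∈ T, dlr (fun x => k x b) T T x) = 0 := by
        unfold avg
        rw [Finset.sum_eq_zero (fun b hb => Finset.sum_eq_zero fun x hx =>
          (h b hb).dlr_self (hTM.trans hMK) hT ((hTM.trans hMK) hx)), zero_div]
      rw [this, zero_div]
    rw [e3, mul_zero, ← e2, div_self cT.ne', Real.log_one]
    linarith
  · have h1 := rem_split h hT hTM hne
    set M := mainB K (rem n Lr k Bs K) with hMd
    have cU : ((M \ T).card : ℝ) = M.card - T.card := by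
      rw [Finset.card_sdiff_of_subset hTM, Nat.cast_sub (Finset.card_le_card hTM)]
    have cU0 : (0 : ℝ) < (M \ T).card := by exact_mod_cast hne.card_pos
    have h2 : 0 ≤ avg Bs (fun b => ∑ x ∈ M \ T, dlr (fun x => k x b) (M \ T) M x) :=
      div_nonneg (Finset.sum_nonneg fun b hb =>
        (h b hb).gibbs ((Finset.sdiff_subset).trans hMK) hne hMK hMne) (Nat.cast_nonneg _)
    have h3 : ((M \ T).card : ℝ) * Real.log ((M.card : ℝ) / (M \ T).card) ≤ T.card := by
      have h4 := Real.log_le_sub_one_of_pos (x := (M.card : ℝ) / (M \ T).card) (by positivity)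
      calc ((M \ T).card : ℝ) * Real.log ((M.card : ℝ) / (M \ T).card)
          ≤ (M \ T).card * ((M.card : ℝ) / (M \ T).card - 1) := mul_le_mul_of_nonneg_left h4 cU0.le
        _ = T.card := by
          rw [mul_sub, mul_div_cancel₀ _ cU0.ne', cU]; ring
    rw [e1, mul_div_assoc', div_le_iff₀ cT]
    have h5 := mul_nonneg hn h2
    rw [mul_add] at h1
    linarith

/-- (b) in the form of `sat_in` -/
theorem rem_sat_in (h : ∀ b ∈ Bs, Sup (fun x => k x b) K) (hn : 0 < n) (hLr : 0 ≤ Lr) {T : Finset X}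
    (hT : T.Nonempty) (hTM : T ⊆ mainB K (rem n Lr k Bs K)) :
    avg Bs (fun b => klf (law T (fun x => k x b)) (law (mainB K (rem n Lr k Bs K)) (fun x => k x b))) ≤
      (Real.log (((mainB K (rem n Lr k Bs K)).card : ℝ) / T.card) + (1 + Lr)) / n := by
  rw [le_div_iff₀ hn, mul_comm]
  have := rem_sat h hn.le hLr hT hTM
  linarith

/-- (a) in the form of `gain_fall` -/
theorem rem_fall (h : ∀ b ∈ Bs, Sup (fun x => k x b) K) (hn : 0 < n)
    (hM : (mainB K (rem n Lr k Bs K)).Nonempty) {y : X} (hy : y ∈ K) (hy0 : rem n Lr k Bs K y ≠ 0)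
    {v : Finset X} (hv : v.Nonempty) (hvS : v ⊆ fblk K (rem n Lr k Bs K) y) :
    (Real.log (((mainB K (rem n Lr k Bs K)).card : ℝ) / (fblk K (rem n Lr k Bs K) y).card) + Lr) / n ≤
      avg Bs (fun b => ∑ F, law v (fun x => k x b) F * Real.log (law (fblk K (rem n Lr k Bs K) y) (fun x => k x b) F /
        law (mainB K (rem n Lr k Bs K)) (fun x => k x b) F)) := by
  have cv : (0 : ℝ) < v.card := by exact_mod_cast hv.card_pos
  have h1 := rem_profit h hn.le hM hy hy0 hv hvS
  have e1 : avg Bs (fun b => ∑ x ∈ v, dlr (fun x => k x b) (fblk K (rem n Lr k Bs K) y)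
      (mainB K (rem n Lr k Bs K)) x) = v.card * avg Bs (fun b => ∑ F, law v (fun x => k x b) F *
        Real.log (law (fblk K (rem n Lr k Bs K) y) (fun x => k x b) F /
        law (mainB K (rem n Lr k Bs K)) (fun x => k x b) F)) := by
    rw [← avg_smul]
    unfold avg
    congr 1
    exact Finset.sum_congr rfl (fun b _ => sum_dlr_eq hv _ _)
  rw [e1] at h1
  rw [div_le_iff₀ hn]
  have h2 : (v.card : ℝ) * (Real.log (((mainB K (rem n Lr k Bs K)).card : ℝ) /
      (fblk K (rem n Lr k Bs K) y).card) + Lr) ≤ v.card * (avg Bs (fun b => ∑ F, law v (fun x => k x b) F *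
        Real.log (law (fblk K (rem n Lr k Bs K) y) (fun x => k x b) F /
        law (mainB K (rem n Lr k Bs K)) (fun x => k x b) F)) * n) := by
    linarith
  exact le_of_mul_le_mul_left h2 cv

end rem

end Pool.Agent.M3.S3
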