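import Pool.Agent.M3.S3.FComp

/-!
# M3.S3.CSplit: the complete split of a class (section 3, rule v2, note 3445 (1))

For a functional `Φ` of classes, `Jf Φ K r = Σ_(x ∈ K) Φ (cell of x in the partition r of K)`.  `spl Φ K : X → X` is a
partition (given by a label) which minimises `Jf Φ K` among ALL partitions (`spl_le`); its cells cannot be improved
(`spl_ref`, `spl_two`).  `cphi n kf Bs kg Cs S = - log |S| + n (mean entropy of f + mean entropy of g on S)`;
`csp` = the corresponding split, the complete split: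

* `csp_cost` : `H_K(r) ≤ n (gain_f + gain_g)`;
* `csp_le` : comparison with any other partition;
* `csp_two` : `n |S| (I_S(f; 1_V) + I_S(g; 1_V)) ≤ |S| H_S(1_V)` for every part `V` of a cell `S`;
* `csp_gain2`, `csp_gain2_nn` : the same in the form of `FComp` (`gain2`); `cspN` : labels in `ℕ`;
* `csp_sat` : `n (E_b KL(P_V | P_S) + E_c KL(P_V | P_S)) ≤ log (|S| / |V|) + 1` for every nonempty part `V` of a cell `S`.
-/

set_option autoImplicit false

namespace Pool.Agent.M3.S3

open Finset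

noncomputable section

variable {X β γ φ ψ κ κ' : Type*}

/-- entropy of a law -/
def cent [Fintype φ] (p : φ → ℝ) : ℝ := ∑ F, Real.negMulLog (p F)

/-- sum of a functional of classes over the cells -/
def Jf (Φ : Finset X → ℝ) (K : Finset X) (r : X → κ) : ℝ := ∑ x ∈ K, Φ (fblk K r x)

theorem fblk_of_mem {K : Finset X} {r : X → κ} {x y : X} (h : y ∈ fblk K r x) : fblk K r y = fblk K r x :=
  fblk_congr (mem_fblk.1 h).2

/-- every partition is given by labels in `X` -/
theorem relabel (K : Finset X) (r : X → κ) : ∃ r' : X → X, ∀ x ∈ K, fblk K r' x = fblk K r x := by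
  classical
  rcases K.eq_empty_or_nonempty with hK | ⟨x0, hx0⟩
  · exact ⟨id, fun x hx => by rw [hK] at hx; simp at hx⟩
  let g : κ → X := fun l => if h : ∃ y, y ∈ K ∧ r y = l then Classical.choose h else x0
  have hg : ∀ x ∈ K, r (g (r x)) = r x := fun x hx => by
    have hex : ∃ y, y ∈ K ∧ r y = r x := ⟨x, hx, rfl⟩
    show r (if h : ∃ y, y ∈ K ∧ r y = r x then Classical.choose h else x0) = r x
    rw [dif_pos hex]
    exact (Classical.choose_spec hex).2
  refine ⟨fun x => g (r x), fun x hx => ?_⟩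
  ext y
  rw [mem_fblk, mem_fblk]
  refine and_congr_right fun hy => ⟨fun h => ?_, fun h => ?_⟩
  · rw [← hg x hx, ← hg y hy]
    exact congrArg r h
  · exact congrArg g h

section min

variable [Fintype X] (Φ : Finset X → ℝ) (K : Finset X)

theorem spl_exists : ∃ r : X → X, ∀ r' : X → X, Jf Φ K r ≤ Jf Φ K r' := by
  classical
  obtain ⟨r, _, hr⟩ := Finset.exists_min_image (Finset.univ : Finset (X → X)) (fun r => Jf Φ K r) ⟨id, Finset.mem_univ _⟩
  exact ⟨r, fun r' => hr r' (Finset.mem_univ _)⟩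

/-- the partition of `K` which minimises the functional -/
def spl : X → X := Classical.choose (spl_exists Φ K)

theorem spl_le (r : X → κ) : Jf Φ K (spl Φ K) ≤ Jf Φ K r := by
  obtain ⟨r', hr'⟩ := relabel K r
  refine (Classical.choose_spec (spl_exists Φ K) r').trans (le_of_eq ?_)
  unfold Jf
  exact Finset.sum_congr rfl fun x hx => by rw [hr' x hx]

/-- a cell cannot be improved by a partition `w` of the cell -/
theorem spl_ref {x0 : X} (w : X → κ) :
    ((fblk K (spl Φ K) x0).card : ℝ) * Φ (fblk K (spl Φ K) x0) ≤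
      ∑ x ∈ fblk K (spl Φ K) x0, Φ (fblk (fblk K (spl Φ K) x0) w x) := by
  classical
  set S := fblk K (spl Φ K) x0 with hS
  let r' : X → X × Option κ := fun y => (spl Φ K y, if y ∈ S then some (w y) else none)
  have h1 := spl_le Φ K r'
  have hSK : S ⊆ K := fblk_subset _ _ _
  have hin : ∀ x ∈ S, fblk K r' x = fblk S w x := by
    intro x hx
    ext y
    rw [mem_fblk, mem_fblk]
    constructor
    · rintro ⟨hy, he⟩
      have h2 : spl Φ K y = spl Φ K x := congrArg Prod.fst he
      have h3 : (if y ∈ S then some (w y) else none) = (if x ∈ S then some (w x) else none) :=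
        congrArg Prod.snd he
      have hyS : y ∈ S := mem_fblk.2 ⟨hy, h2.trans (mem_fblk.1 hx).2⟩
      rw [if_pos hyS, if_pos hx] at h3
      exact ⟨hyS, Option.some.inj h3⟩
    · rintro ⟨hyS, he⟩
      refine ⟨hSK hyS, ?_⟩
      show (spl Φ K y, (if y ∈ S then some (w y) else none)) = (spl Φ K x, (if x ∈ S then some (w x) else none))
      rw [if_pos hyS, if_pos hx, he, (mem_fblk.1 hyS).2, (mem_fblk.1 hx).2]
  have hout : ∀ x ∈ K \ S, fblk K r' x = fblk K (spl Φ K) x := by
    intro x hx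
    have hxS := (Finset.mem_sdiff.1 hx).2
    have hxK := (Finset.mem_sdiff.1 hx).1
    ext y
    rw [mem_fblk, mem_fblk]
    refine and_congr_right fun hy => ?_
    constructor
    · intro he
      exact congrArg Prod.fst he
    · intro he
      have hyS : y ∉ S := fun hyS => hxS (mem_fblk.2 ⟨hxK, he.symm.trans (mem_fblk.1 hyS).2⟩)
      show (spl Φ K y, (if y ∈ S then some (w y) else none)) = (spl Φ K x, (if x ∈ S then some (w x) else none))
      rw [if_neg hyS, if_neg hxS, he]
  unfold Jf at h1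
  have h2 : ∑ x ∈ S, Φ (fblk K (spl Φ K) x) = S.card * Φ S := by
    have h3 : ∀ x ∈ S, Φ (fblk K (spl Φ K) x) = Φ S := fun x hx => by rw [fblk_of_mem hx]
    rw [Finset.sum_congr rfl h3, Finset.sum_const, nsmul_eq_mul]
  have h4 : ∑ x ∈ S, Φ (fblk K r' x) = ∑ x ∈ S, Φ (fblk S w x) :=
    Finset.sum_congr rfl fun x hx => by rw [hin x hx]
  have h5 : ∑ x ∈ K \ S, Φ (fblk K r' x) = ∑ x ∈ K \ S, Φ (fblk K (spl Φ K) x) :=
    Finset.sum_congr rfl fun x hx => by rw [hout x hx]
  rw [← Finset.sum_sdiff hSK, ← Finset.sum_sdiff hSK, h2, h4, h5] at h1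
  linarith

open Classical in
/-- a cell cannot be improved by splitting it into two parts -/
theorem spl_two {x0 : X} {V : Finset X} (hV : V ⊆ fblk K (spl Φ K) x0) :
    ((fblk K (spl Φ K) x0).card : ℝ) * Φ (fblk K (spl Φ K) x0) ≤
      V.card * Φ V + (fblk K (spl Φ K) x0 \ V).card * Φ (fblk K (spl Φ K) x0 \ V) := by
  set S := fblk K (spl Φ K) x0 with hS
  refine (spl_ref Φ K (x0 := x0) (fun y => decide (y ∈ V))).trans (le_of_eq ?_)
  rw [← hS, ← Finset.sum_sdiff hV, add_comm]
  have h1 : ∀ x ∈ V, fblk S (fun y => decide (y ∈ V)) x = V := by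
    intro x hx
    ext y
    rw [mem_fblk]
    simp only [hx, decide_true, decide_eq_true_eq]
    exact ⟨fun h => h.2, fun h => ⟨hV h, h⟩⟩
  have h2 : ∀ x ∈ S \ V, fblk S (fun y => decide (y ∈ V)) x = S \ V := by
    intro x hx
    have hx' := (Finset.mem_sdiff.1 hx).2
    ext y
    rw [mem_fblk]
    simp only [hx', decide_false, decide_eq_false_iff_not]
    exact Finset.mem_sdiff.symm
  have h3 : ∀ x ∈ V, Φ (fblk S (fun y => decide (y ∈ V)) x) = Φ V := fun x hx => by rw [h1 x hx]
  have h4 : ∀ x ∈ S \ V, Φ (fblk S (fun y => decide (y ∈ V)) x) = Φ (S \ V) := fun x hx => by rw [h2 x hx]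
  rw [Finset.sum_congr rfl h3, Finset.sum_congr rfl h4, Finset.sum_const, Finset.sum_const, nsmul_eq_mul,
    nsmul_eq_mul]

end min

/-! ## entropies -/

section laws

theorem card_law {S : Finset X} (hS : S.Nonempty) (k : X → φ → ℝ) (F : φ) :
    (S.card : ℝ) * law S k F = ∑ x ∈ S, k x F := by
  have h : (S.card : ℝ) ≠ 0 := by exact_mod_cast hS.card_pos.ne'
  unfold law avg
  field_simp

theorem law_nn {S : Finset X} {k : X → φ → ℝ} (h : ∀ x ∈ S, ∀ F, 0 ≤ k x F) (F : φ) : 0 ≤ law S k F :=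
  div_nonneg (Finset.sum_nonneg fun x hx => h x hx F) (Nat.cast_nonneg _)

theorem law_one [Fintype φ] {S : Finset X} (hS : S.Nonempty) {k : X → φ → ℝ} (h : ∀ x ∈ S, ∑ F, k x F = 1) :
    ∑ F, law S k F = 1 := by
  have hc : (S.card : ℝ) ≠ 0 := by exact_mod_cast hS.card_pos.ne'
  unfold law avg
  rw [← Finset.sum_div, Finset.sum_comm, Finset.sum_congr rfl fun x hx => h x hx, Finset.sum_const, nsmul_eq_mul,
    mul_one, div_self hc]

theorem law_zero_sub {S V : Finset X} {k : X → φ → ℝ} (hV : V ⊆ S) (h : ∀ x ∈ S, ∀ F, 0 ≤ k x F) {F : φ}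
    (hF : law S k F = 0) : law V k F = 0 := by
  rcases S.eq_empty_or_nonempty with hS | hS
  · have : V = ∅ := Finset.subset_empty.1 (hS ▸ hV)
    rw [this]
    simp [law, avg]
  · have h1 := card_law hS k F
    rw [hF, mul_zero] at h1
    have h2 := (Finset.sum_eq_zero_iff_of_nonneg fun x hx => h x hx F).1 h1.symm
    unfold law avg
    rw [Finset.sum_eq_zero fun x hx => h2 x (hV hx), zero_div]

/-- Gibbs -/
theorem klf_nn [Fintype φ] {p q : φ → ℝ} (hp : ∀ F, 0 ≤ p F) (hq : ∀ F, 0 ≤ q F) (h0 : ∀ F, q F = 0 → p F = 0)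
    (hs : ∑ F, q F ≤ ∑ F, p F) : 0 ≤ klf p q := by
  have h1 : ∀ F, p F - q F ≤ p F * Real.log (p F / q F) := by
    intro F
    rcases (hp F).eq_or_lt with h | h
    · rw [← h]; simp [hq F]
    · have hq0 : 0 < q F := by
        rcases (hq F).eq_or_lt with h' | h'
        · exact absurd (h0 F h'.symm) h.ne'
        · exact h'
      have h2 := Real.log_le_sub_one_of_pos (div_pos hq0 h)
      have h3 : Real.log (p F / q F) = -Real.log (q F / p F) := by rw [← Real.log_inv, inv_div]
      rw [h3]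
      have h4 : p F * (q F / p F - 1) = q F - p F := by field_simp
      have h5 := mul_le_mul_of_nonneg_left h2 h.le
      rw [h4] at h5
      linarith
  have h2 := Finset.sum_le_sum fun F (_ : F ∈ (Finset.univ : Finset φ)) => h1 F
  rw [Finset.sum_sub_distrib] at h2
  unfold klf
  linarith

open Classical in
/-- the chain rule for two parts -/
theorem ent_two [Fintype φ] {S V : Finset X} {k : X → φ → ℝ} (hV : V ⊆ S) (hne : V.Nonempty)
    (hne' : (S \ V).Nonempty) (h : ∀ x ∈ S, ∀ F, 0 ≤ k x F) :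
    (S.card : ℝ) * cent (law S k) = V.card * cent (law V k) + (S \ V).card * cent (law (S \ V) k) +
      (V.card * klf (law V k) (law S k) + (S \ V).card * klf (law (S \ V) k) (law S k)) := by
  have hS : S.Nonempty := hne.mono hV
  have hC : S \ V ⊆ S := Finset.sdiff_subset
  have e1 : ∀ F, (S.card : ℝ) * law S k F = V.card * law V k F + (S \ V).card * law (S \ V) k F := by
    intro F
    rw [card_law hS, card_law hne, card_law hne', add_comm, Finset.sum_sdiff hV]
  have e2 : ∀ (p q : ℝ), (q = 0 → p = 0) → 0 ≤ p → 0 ≤ q →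
      p * Real.log (p / q) = p * Real.log p - p * Real.log q := by
    intro p q h0 hp hq
    rcases hp.eq_or_lt with hp0 | hp0
    · rw [← hp0]; ring
    · have hq0 : 0 < q := by
        rcases hq.eq_or_lt with h' | h'
        · exact absurd (h0 h'.symm) hp0.ne'
        · exact h'
      rw [Real.log_div hp0.ne' hq0.ne']
      ring
  unfold cent klf Real.negMulLog
  rw [Finset.mul_sum, Finset.mul_sum, Finset.mul_sum, Finset.mul_sum, Finset.mul_sum, ← Finset.sum_add_distrib,
    ← Finset.sum_add_distrib, ← Finset.sum_add_distrib]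
  refine Finset.sum_congr rfl fun F _ => ?_
  rw [e2 _ _ (fun h0 => law_zero_sub hV h h0) (law_nn (fun x hx => h x (hV hx)) F) (law_nn h F),
    e2 _ _ (fun h0 => law_zero_sub hC h h0) (law_nn (fun x hx => h x (hC hx)) F) (law_nn h F)]
  have := e1 F
  linear_combination (-Real.log (law S k F)) * this

/-- mean entropy of the label of `b ∈ Bs` on the class `S` -/
def mel [Fintype φ] (k : X → β → φ → ℝ) (Bs : Finset β) (S : Finset X) : ℝ :=
  avg Bs fun b => cent (law S fun y => k y b)

/-- mean relative entropy of the laws of the labels of `b ∈ Bs` on `V` and on `S` -/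
def mkl [Fintype φ] (k : X → β → φ → ℝ) (Bs : Finset β) (V S : Finset X) : ℝ :=
  avg Bs fun b => klf (law V fun y => k y b) (law S fun y => k y b)

open Classical in
/-- the chain rule for the mean entropies -/
theorem mel_two [Fintype φ] {S V : Finset X} {k : X → β → φ → ℝ} {Bs : Finset β} (hV : V ⊆ S) (hne : V.Nonempty)
    (hne' : (S \ V).Nonempty) (h : ∀ x ∈ S, ∀ b ∈ Bs, ∀ F, 0 ≤ k x b F) :
    (S.card : ℝ) * mel k Bs S = V.card * mel k Bs V + (S \ V).card * mel k Bs (S \ V) +
      (V.card * mkl k Bs V S + (S \ V).card * mkl k Bs (S \ V) S) := by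
  unfold mel mkl avg
  rw [← mul_div_assoc, ← mul_div_assoc, ← mul_div_assoc, ← mul_div_assoc, ← mul_div_assoc, ← add_div, ← add_div,
    ← add_div, Finset.mul_sum, Finset.mul_sum, Finset.mul_sum, Finset.mul_sum, Finset.mul_sum,
    ← Finset.sum_add_distrib, ← Finset.sum_add_distrib, ← Finset.sum_add_distrib]
  congr 1
  exact Finset.sum_congr rfl fun b hb => ent_two hV hne hne' fun x hx F => h x hx b hb F

theorem mkl_nn [Fintype φ] {S V : Finset X} {k : X → β → φ → ℝ} {Bs : Finset β} (hV : V ⊆ S) (hne : V.Nonempty)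
    (h : ∀ x ∈ S, ∀ b ∈ Bs, ∀ F, 0 ≤ k x b F) (h1 : ∀ x ∈ S, ∀ b ∈ Bs, ∑ F, k x b F = 1) :
    0 ≤ mkl k Bs V S := by
  unfold mkl avg
  refine div_nonneg (Finset.sum_nonneg fun b hb => ?_) (Nat.cast_nonneg _)
  refine klf_nn (fun F => law_nn (fun x hx F => h x (hV hx) b hb F) F)
    (fun F => law_nn (fun x hx F => h x hx b hb F) F)
    (fun F h0 => law_zero_sub hV (fun x hx F => h x hx b hb F) h0) ?_
  rw [law_one (hne.mono hV) fun x hx => h1 x hx b hb, law_one hne fun x hx => h1 x (hV hx) b hb]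

theorem mkl_self [Fintype φ] (S : Finset X) (k : X → β → φ → ℝ) (Bs : Finset β) : mkl k Bs S S = 0 := by
  have h0 : ∀ b, klf (law S fun y => k y b) (law S fun y => k y b) = 0 := by
    intro b
    unfold klf
    refine Finset.sum_eq_zero fun F _ => ?_
    by_cases hF : law S (fun y => k y b) F = 0
    · rw [hF, zero_mul]
    · rw [div_self hF, Real.log_one, mul_zero]
  unfold mkl avg
  rw [Finset.sum_eq_zero fun b _ => h0 b, zero_div]

end laws

/-! ## the complete split -/

section csplit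

variable [Fintype φ] [Fintype ψ] [Fintype X] (n : ℝ) (kf : X → β → φ → ℝ) (Bs : Finset β) (kg : X → γ → ψ → ℝ)
  (Cs : Finset γ) (K : Finset X)

/-- the functional of the complete split -/
def cphi (S : Finset X) : ℝ := -Real.log S.card + n * (mel kf Bs S + mel kg Cs S)

/-- the complete split -/
def csp : X → X := spl (cphi n kf Bs kg Cs) K

/-- entropy of a partition of `K` -/
def Hp (K : Finset X) (r : X → κ) : ℝ := avg K fun x => Real.log (K.card / (fblk K r x).card)

/-- information between the labels and a partition of `K` -/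
def Ip (k : X → β → φ → ℝ) (Bs : Finset β) (K : Finset X) (r : X → κ) : ℝ :=
  avg K fun x => mel k Bs K - mel k Bs (fblk K r x)

omit [Fintype X] in
theorem Jf_cphi (hK : K.Nonempty) (r : X → κ) :
    Jf (cphi n kf Bs kg Cs) K r =
      K.card * (Hp K r - n * (Ip kf Bs K r + Ip kg Cs K r)) + K.card * cphi n kf Bs kg Cs K := by
  have hc : (0 : ℝ) < K.card := by exact_mod_cast hK.card_pos
  have e : ∀ f : X → ℝ, (K.card : ℝ) * avg K f = ∑ x ∈ K, f x := fun f => by
    unfold avg; field_simp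
  have h1 : (K.card : ℝ) * (Hp K r - n * (Ip kf Bs K r + Ip kg Cs K r)) =
      ∑ x ∈ K, Real.log (K.card / (fblk K r x).card) -
        n * (∑ x ∈ K, (mel kf Bs K - mel kf Bs (fblk K r x)) + ∑ x ∈ K, (mel kg Cs K - mel kg Cs (fblk K r x))) := by
    unfold Hp Ip
    rw [← e, ← e, ← e]
    ring
  rw [h1, ← Finset.sum_add_distrib, Finset.mul_sum, ← Finset.sum_sub_distrib]
  have h2 : (K.card : ℝ) * cphi n kf Bs kg Cs K = ∑ _x ∈ K, cphi n kf Bs kg Cs K := by
    rw [Finset.sum_const, nsmul_eq_mul]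
  rw [h2, ← Finset.sum_add_distrib]
  unfold Jf
  refine Finset.sum_congr rfl fun x hx => ?_
  have hcx : (0 : ℝ) < (fblk K r x).card := by exact_mod_cast (Finset.card_pos.2 ⟨x, self_fblk hx⟩)
  unfold cphi
  rw [Real.log_div hc.ne' hcx.ne']
  ring

/-- comparison with any other partition -/
theorem csp_le (hK : K.Nonempty) (r : X → κ) :
    Hp K (csp n kf Bs kg Cs K) - n * (Ip kf Bs K (csp n kf Bs kg Cs K) + Ip kg Cs K (csp n kf Bs kg Cs K)) ≤
      Hp K r - n * (Ip kf Bs K r + Ip kg Cs K r) := by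
  have h := spl_le (cphi n kf Bs kg Cs) K r
  rw [Jf_cphi n kf Bs kg Cs K hK r, show spl (cphi n kf Bs kg Cs) K = csp n kf Bs kg Cs K from rfl,
    Jf_cphi n kf Bs kg Cs K hK] at h
  have hc : (0 : ℝ) < K.card := by exact_mod_cast hK.card_pos
  have h2 := le_of_add_le_add_right h
  exact le_of_mul_le_mul_left h2 hc

omit [Fintype X] in
theorem Ip_triv (k : X → β → φ → ℝ) (Bs : Finset β) : Ip k Bs K (fun _ : X => ()) = 0 := by
  unfold Ip avg
  rw [Finset.sum_eq_zero, zero_div]
  intro x hx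
  have hcel : fblk K (fun _ => ()) x = K := by
    ext y; rw [mem_fblk]; simp
  rw [hcel, sub_self]

/-- the cost is paid by the gain -/
theorem csp_cost : Hp K (csp n kf Bs kg Cs K) ≤
    n * (Ip kf Bs K (csp n kf Bs kg Cs K) + Ip kg Cs K (csp n kf Bs kg Cs K)) := by
  rcases K.eq_empty_or_nonempty with hK | hK
  · subst hK
    simp [Hp, Ip, avg]
  · have h := csp_le n kf Bs kg Cs K hK (fun _ => ())
    have hcel : ∀ x ∈ K, fblk K (fun _ => ()) x = K := fun x _ => by
      ext y; rw [mem_fblk]; simp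
    have e1 : Hp K (fun _ : X => ()) = 0 := by
      unfold Hp avg
      rw [Finset.sum_eq_zero, zero_div]
      intro x hx
      rw [hcel x hx, div_self (by exact_mod_cast hK.card_pos.ne'), Real.log_one]
    rw [e1, Ip_triv, Ip_triv] at h
    linarith

variable {kf Bs kg Cs K}

open Classical in
/-- cells: the information of a part is at most its entropy -/
theorem csp_two {x0 : X} {V : Finset X}
    (hf : ∀ x ∈ K, ∀ b ∈ Bs, ∀ F, 0 ≤ kf x b F) (hg : ∀ x ∈ K, ∀ c ∈ Cs, ∀ G, 0 ≤ kg x c G)
    (hV : V ⊆ fblk K (csp n kf Bs kg Cs K) x0) (hne : V.Nonempty)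
    (hne' : (fblk K (csp n kf Bs kg Cs K) x0 \ V).Nonempty) :
    n * ((V.card * mkl kf Bs V (fblk K (csp n kf Bs kg Cs K) x0) +
        (fblk K (csp n kf Bs kg Cs K) x0 \ V).card *
          mkl kf Bs (fblk K (csp n kf Bs kg Cs K) x0 \ V) (fblk K (csp n kf Bs kg Cs K) x0)) +
      (V.card * mkl kg Cs V (fblk K (csp n kf Bs kg Cs K) x0) +
        (fblk K (csp n kf Bs kg Cs K) x0 \ V).card *
          mkl kg Cs (fblk K (csp n kf Bs kg Cs K) x0 \ V) (fblk K (csp n kf Bs kg Cs K) x0))) ≤
      V.card * Real.log ((fblk K (csp n kf Bs kg Cs K) x0).card / V.card) +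
        (fblk K (csp n kf Bs kg Cs K) x0 \ V).card *
          Real.log ((fblk K (csp n kf Bs kg Cs K) x0).card / (fblk K (csp n kf Bs kg Cs K) x0 \ V).card) := by
  have h := spl_two (cphi n kf Bs kg Cs) K hV
  set S := fblk K (csp n kf Bs kg Cs K) x0 with hS
  have hS' : fblk K (spl (cphi n kf Bs kg Cs) K) x0 = S := rfl
  rw [hS'] at h
  have hSK : S ⊆ K := fblk_subset _ _ _
  have hSne : S.Nonempty := hne.mono hV
  have c1 : (0 : ℝ) < S.card := by exact_mod_cast hSne.card_pos
  have c2 : (0 : ℝ) < V.card := by exact_mod_cast hne.card_pos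
  have c3 : (0 : ℝ) < (S \ V).card := by exact_mod_cast hne'.card_pos
  have c4 : (S.card : ℝ) = V.card + (S \ V).card := by
    rw [Finset.card_sdiff_of_subset hV, Nat.cast_sub (Finset.card_le_card hV)]; ring
  have h1 := mel_two (k := kf) (Bs := Bs) hV hne hne' fun x hx => hf x (hSK hx)
  have h2 := mel_two (k := kg) (Bs := Cs) hV hne hne' fun x hx => hg x (hSK hx)
  unfold cphi at h
  rw [Real.log_div c1.ne' c2.ne', Real.log_div c1.ne' c3.ne']
  have h3 : n * ((S.card : ℝ) * mel kf Bs S + (S.card : ℝ) * mel kg Cs S) ≤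
      (S.card : ℝ) * Real.log S.card - V.card * Real.log V.card - (S \ V).card * Real.log (S \ V).card +
        n * (V.card * mel kf Bs V + (S \ V).card * mel kf Bs (S \ V) +
          (V.card * mel kg Cs V + (S \ V).card * mel kg Cs (S \ V))) := by
    linarith
  rw [h1, h2] at h3
  have h4 : (S.card : ℝ) * Real.log S.card = V.card * Real.log S.card + (S \ V).card * Real.log S.card := by
    rw [← add_mul, ← c4]
  rw [h4] at h3
  linarith

/-- the part of the first label and of the second label -/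
theorem csp_sat {x0 : X} {V : Finset X} (hn : 0 ≤ n)
    (hf : ∀ x ∈ K, ∀ b ∈ Bs, ∀ F, 0 ≤ kf x b F) (hg : ∀ x ∈ K, ∀ c ∈ Cs, ∀ G, 0 ≤ kg x c G)
    (hf1 : ∀ x ∈ K, ∀ b ∈ Bs, ∑ F, kf x b F = 1) (hg1 : ∀ x ∈ K, ∀ c ∈ Cs, ∑ G, kg x c G = 1)
    (hV : V ⊆ fblk K (csp n kf Bs kg Cs K) x0) (hne : V.Nonempty) :
    n * (mkl kf Bs V (fblk K (csp n kf Bs kg Cs K) x0) + mkl kg Cs V (fblk K (csp n kf Bs kg Cs K) x0)) ≤
      Real.log ((fblk K (csp n kf Bs kg Cs K) x0).card / V.card) + 1 := by
  classical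
  have key := csp_two (n := n) (x0 := x0) (V := V) hf hg hV hne
  set S := fblk K (csp n kf Bs kg Cs K) x0 with hS
  have hSK : S ⊆ K := fblk_subset _ _ _
  have hSne : S.Nonempty := hne.mono hV
  have c1 : (0 : ℝ) < S.card := by exact_mod_cast hSne.card_pos
  have c2 : (0 : ℝ) < V.card := by exact_mod_cast hne.card_pos
  by_cases hne' : (S \ V).Nonempty
  · have c3 : (0 : ℝ) < (S \ V).card := by exact_mod_cast hne'.card_pos
    have c4 : (S.card : ℝ) = V.card + (S \ V).card := by
      rw [Finset.card_sdiff_of_subset hV, Nat.cast_sub (Finset.card_le_card hV)]; ring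
    have h1 := key hne'
    have hC : S \ V ⊆ S := Finset.sdiff_subset
    have a1 := mul_nonneg c3.le (mkl_nn (k := kf) (Bs := Bs) hC hne' (fun x hx => hf x (hSK hx))
      fun x hx => hf1 x (hSK hx))
    have a2 := mul_nonneg c3.le (mkl_nn (k := kg) (Bs := Cs) hC hne' (fun x hx => hg x (hSK hx))
      fun x hx => hg1 x (hSK hx))
    have h2 : ((S \ V).card : ℝ) * Real.log (S.card / (S \ V).card) ≤ V.card := by
      have h3 := Real.log_le_sub_one_of_pos (div_pos c1 c3)
      have h4 := mul_le_mul_of_nonneg_left h3 c3.le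
      have h5 : ((S \ V).card : ℝ) * (S.card / (S \ V).card - 1) = S.card - (S \ V).card := by field_simp
      rw [h5] at h4
      linarith
    have h6 : (V.card : ℝ) * (n * (mkl kf Bs V S + mkl kg Cs V S)) ≤
        V.card * (Real.log (S.card / V.card) + 1) := by
      have a3 := mul_nonneg hn a1
      have a4 := mul_nonneg hn a2
      linarith
    exact le_of_mul_le_mul_left h6 c2
  · rw [Finset.not_nonempty_iff_eq_empty, Finset.sdiff_eq_empty_iff_subset] at hne'
    have hVS : V = S := Finset.Subset.antisymm hV hne'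
    rw [hVS, div_self c1.ne', Real.log_one]
    rw [mkl_self, mkl_self, add_zero, mul_zero]
    norm_num

/-! ## comparison with the form of `FComp` -/

omit [Fintype ψ] [Fintype X] in
theorem infoN_ent {k : X → φ → ℝ} (h0 : ∀ x ∈ K, ∀ F, 0 ≤ k x F) (r : X → κ) :
    infoN k K r = ∑ x ∈ K, (cent (law K k) - cent (law (fblk K r x) k)) := by
  classical
  rcases K.eq_empty_or_nonempty with hK | hK
  · subst hK
    simp [infoN]
  · rw [infoN_eq]
    have e2 : ∀ (p q : ℝ), (q = 0 → p = 0) → 0 ≤ p → 0 ≤ q →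
        p * Real.log (p / q) = -Real.negMulLog p - p * Real.log q := by
      intro p q hpq hp hq
      unfold Real.negMulLog
      rcases hp.eq_or_lt with hp0 | hp0
      · rw [← hp0]; ring
      · have hq0 : 0 < q := by
          rcases hq.eq_or_lt with h' | h'
          · exact absurd (hpq h'.symm) hp0.ne'
          · exact h'
        rw [Real.log_div hp0.ne' hq0.ne']
        ring
    have h1 : ∀ x ∈ K, klf (law (fblk K r x) k) (law K k) =
        -cent (law (fblk K r x) k) - ∑ F, law (fblk K r x) k F * Real.log (law K k F) := by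
      intro x hx
      have hs := fblk_subset K r x
      unfold klf cent
      rw [← Finset.sum_neg_distrib, ← Finset.sum_sub_distrib]
      refine Finset.sum_congr rfl fun F _ => ?_
      exact e2 _ _ (fun hz => law_zero_sub hs h0 hz) (law_nn (fun y hy => h0 y (hs hy)) F) (law_nn h0 F)
    rw [Finset.sum_congr rfl h1, Finset.sum_sub_distrib, Finset.sum_sub_distrib]
    have h2 : ∑ x ∈ K, ∑ F, law (fblk K r x) k F * Real.log (law K k F) = -∑ _x ∈ K, cent (law K k) := by
      rw [Finset.sum_comm, Finset.sum_const, nsmul_eq_mul]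
      unfold cent
      rw [Finset.mul_sum, ← Finset.sum_neg_distrib]
      refine Finset.sum_congr rfl fun F _ => ?_
      have h3 := sum_blk_mean K r (fun x => k x F) (fun _ => Real.log (law K k F))
      have h4 : ∑ x ∈ K, k x F * Real.log (law K k F) = K.card * law K k F * Real.log (law K k F) := by
        rw [← Finset.sum_mul, card_law hK]
      rw [h4] at h3
      have h5 : ∑ x ∈ K, law (fblk K r x) k F * Real.log (law K k F) =
          ∑ x ∈ K, avg (fblk K r x) (fun x => k x F) * Real.log (law K k F) := rfl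
      rw [h5, ← h3]
      unfold Real.negMulLog
      ring
    rw [h2, Finset.sum_neg_distrib]
    ring

omit [Fintype ψ] [Fintype X] in
theorem avg_infoN {k : X → β → φ → ℝ} {Bs : Finset β} (h0 : ∀ x ∈ K, ∀ b ∈ Bs, ∀ F, 0 ≤ k x b F) (r : X → κ) :
    avg Bs (fun b => infoN (fun x => k x b) K r) = ∑ x ∈ K, (mel k Bs K - mel k Bs (fblk K r x)) := by
  have h1 : avg Bs (fun b => infoN (fun x => k x b) K r) =
      avg Bs (fun b => ∑ x ∈ K, (cent (law K fun y => k y b) - cent (law (fblk K r x) fun y => k y b))) := by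
    unfold avg
    congr 1
    exact Finset.sum_congr rfl fun b hb => infoN_ent (fun x hx F => h0 x hx b hb F) r
  rw [h1]
  unfold mel avg
  rw [Finset.sum_comm, Finset.sum_div]
  refine Finset.sum_congr rfl fun x _ => ?_
  rw [← sub_div, ← Finset.sum_sub_distrib]

omit [Fintype X] in
theorem gain2_eq {kf : X → β → φ → ℝ} {kg : X → γ → φ → ℝ} (hK : K.Nonempty)
    (hf : ∀ x ∈ K, ∀ b ∈ Bs, ∀ F, 0 ≤ kf x b F) (hg : ∀ x ∈ K, ∀ c ∈ Cs, ∀ G, 0 ≤ kg x c G) (r : X → κ) :
    gain2 n kf kg K Bs Cs r = K.card * cphi n kf Bs kg Cs K - Jf (cphi n kf Bs kg Cs) K r := by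
  have hc : (0 : ℝ) < K.card := by exact_mod_cast hK.card_pos
  unfold gain2
  rw [avg_infoN hf, avg_infoN hg, ← Finset.sum_add_distrib, Finset.mul_sum]
  have h2 : (K.card : ℝ) * cphi n kf Bs kg Cs K = ∑ _x ∈ K, cphi n kf Bs kg Cs K := by
    rw [Finset.sum_const, nsmul_eq_mul]
  unfold Jf entN
  rw [h2, ← Finset.sum_sub_distrib, ← Finset.sum_sub_distrib]
  refine Finset.sum_congr rfl fun x hx => ?_
  have hcx : (0 : ℝ) < (fblk K r x).card := by exact_mod_cast (Finset.card_pos.2 ⟨x, self_fblk hx⟩)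
  unfold cphi
  rw [Real.log_div hc.ne' hcx.ne']
  ring

/-- the complete split has the largest surplus -/
theorem csp_gain2 {kf : X → β → φ → ℝ} {kg : X → γ → φ → ℝ} (hf : ∀ x ∈ K, ∀ b ∈ Bs, ∀ F, 0 ≤ kf x b F)
    (hg : ∀ x ∈ K, ∀ c ∈ Cs, ∀ G, 0 ≤ kg x c G) (r : X → κ) :
    gain2 n kf kg K Bs Cs r ≤ gain2 n kf kg K Bs Cs (csp n kf Bs kg Cs K) := by
  rcases K.eq_empty_or_nonempty with hK | hK
  · subst hK
    simp [gain2, infoN, entN, avg]
  · rw [gain2_eq n hK hf hg, gain2_eq n hK hf hg]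
    have h := spl_le (cphi n kf Bs kg Cs) K r
    have e : spl (cphi n kf Bs kg Cs) K = csp n kf Bs kg Cs K := rfl
    rw [e] at h
    linarith

/-- the surplus of the complete split is nonnegative -/
theorem csp_gain2_nn {kf : X → β → φ → ℝ} {kg : X → γ → φ → ℝ} (hf : ∀ x ∈ K, ∀ b ∈ Bs, ∀ F, 0 ≤ kf x b F)
    (hg : ∀ x ∈ K, ∀ c ∈ Cs, ∀ G, 0 ≤ kg x c G) : 0 ≤ gain2 n kf kg K Bs Cs (csp n kf Bs kg Cs K) := by
  rcases K.eq_empty_or_nonempty with hK | hK
  · subst hK
    simp [gain2, infoN, entN, avg]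
  · refine le_trans (le_of_eq ?_) (csp_gain2 (n := n) hf hg (fun _ : X => ()))
    rw [gain2_eq n hK hf hg]
    have hcel : ∀ x ∈ K, fblk K (fun _ => ()) x = K := fun x _ => by
      ext y; rw [mem_fblk]; simp
    unfold Jf
    rw [Finset.sum_congr rfl fun x hx => by rw [hcel x hx], Finset.sum_const, nsmul_eq_mul, sub_self]

variable (kf Bs kg Cs K) in
/-- the complete split with natural numbers as labels -/
def cspN : X → ℕ := fun x => (Fintype.equivFin X (csp n kf Bs kg Cs K x)).val

theorem fblk_cspN (L : Finset X) (x : X) : fblk L (cspN n kf Bs kg Cs K) x = fblk L (csp n kf Bs kg Cs K) x := by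
  ext y
  rw [mem_fblk, mem_fblk]
  refine and_congr_right fun _ => ?_
  unfold cspN
  rw [← Fin.ext_iff]
  exact (Fintype.equivFin X).injective.eq_iff

theorem csp_gain2N {kf : X → β → φ → ℝ} {kg : X → γ → φ → ℝ} :
    gain2 n kf kg K Bs Cs (cspN n kf Bs kg Cs K) = gain2 n kf kg K Bs Cs (csp n kf Bs kg Cs K) := by
  unfold gain2 infoN entN
  simp only [fblk_cspN]

end csplit

end

end Pool.Agent.M3.S3
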