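import Pool.Agent.M3.S3.Acc
import Pool.Agent.M3.S3.ArgMin
import Pool.Agent.M3.S3.CSplit

/-!
# M3.S3.V2: the concrete rule of section 3 (note 3445, rule v2; helper15)

`v2 D Up N n Lr : Rl D` : removals = `rem` of `ArgMin` (kernels of the labels at the start of the epoch), complete split =
`cspN` of `CSplit` (current labels), tests (h1)-(h3), (s1), (s2) of `Acc`.
* `v2_tst` : `Tst (v2 ..) Up N`;
* `v2_pf`, `v2_pg`, `v2_sp` : the maps; `v2_KF` : `KF e (s+1)` is the main block of the removal of `KF' e s`;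
* `kf0`, `kg0`, `kf1`, `kg1` : kernels with the other point fixed.
-/

set_option autoImplicit false
set_option linter.unusedSectionVars false

namespace Pool.Agent.M3.S3

open Finset Pool.Agent.PWZ Pool.Agent.M3

noncomputable section

variable {X β γ ι φ : Type*} [Fintype X] [Fintype β] [Fintype γ] [Fintype φ]

/-- kernel of the first labels of the time `t` at the node of `c` -/
def kfc (D : Dat X β γ ι φ) (t : ℕ) (c : γ) : X → β → φ → ℝ := fun x' b' => D.kf t x' b' c

/-- kernel of the second labels of the time `t` at the node of `b` -/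
def kgb (D : Dat X β γ ι φ) (t : ℕ) (b : β) : X → γ → φ → ℝ := fun x' c' => D.kg t x' b c'

variable {D : Dat X β γ ι φ}

theorem kfc_inv {t : ℕ} {c c' : γ} (h : D.qc t c = D.qc t c') : kfc D t c = kfc D t c' := by
  funext x b
  exact D.kf_c t x b c c' h

theorem kgb_inv {t : ℕ} {b b' : β} (h : D.qb t b = D.qb t b') : kgb D t b = kgb D t b' := by
  funext x c
  exact D.kg_b t x b b' c h

variable (D) (Up : Upd D) (N : Nums) (n Lr : ℝ)

/-- removals and complete split -/
def v2m : Rm D where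
  pf e s _ b c K := rem n Lr (kfc D e.t0 c) (D.cB s b) K
  pg e s _ b c K := rem n Lr (kgb D e.t0 b) (D.cC s c) K
  sp s _ b c v := cspN n (kfc D s c) (D.cB s b) (kgb D s b) (D.cC s c) v
  pf_c e s x x' b b' c c' K _ _ hb hc := by rw [kfc_inv hc, D.cB_congr hb]
  pg_b e s x x' b b' c c' K _ _ hb hc := by rw [kgb_inv hb, D.cC_congr hc]
  sp_q s x b c x' b' c' K hS := by
    rw [kfc_inv hS.2.2, kgb_inv hS.2.1, D.cB_congr hS.2.1, D.cC_congr hS.2.2]

/-- half step tests at the time `s` -/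
def v2th (e : Epo X) : ℕ → X → β → γ → Prop
  | 0, _, _, _ => False
  | s + 1, x, b, c => e.t0 ≤ s ∧ (H1 (v2m D n Lr) N e s x b c ∨ H2 (v2m D n Lr) Up N e s x b c ∨
      H3 (v2m D n Lr) N e s x b c)

/-- survivor tests at the time `s` -/
def v2ts (e : Epo X) : ℕ → X → β → γ → Prop
  | 0, _, _, _ => False
  | s + 1, x, b, c => e.t0 ≤ s ∧ (S1 (v2m D n Lr) N e s x b c ∨ S2 Up N e s x b c)

/-- **THE RULE** -/
def v2 : Rl D where
  toRm := v2m D n Lr
  th := v2th D Up N n Lr
  ts := v2ts D Up N n Lr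
  th_q e s x b c x' b' c' _ hS := by
    cases s with
    | zero => exact Iff.rfl
    | succ s =>
      show (e.t0 ≤ s ∧ _) ↔ (e.t0 ≤ s ∧ _)
      refine and_congr_right fun h => ?_
      rw [H1_q h hS, H2_q h hS, H3_q h hS]
  ts_q e s x b c x' b' c' _ hS := by
    cases s with
    | zero => exact Iff.rfl
    | succ s =>
      show (e.t0 ≤ s ∧ _) ↔ (e.t0 ≤ s ∧ _)
      refine and_congr_right fun h => ?_
      rw [S1_q h hS, S2_q h hS]

variable {D Up N n Lr}

theorem v2_tst : Tst (v2 D Up N n Lr) Up N where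
  th e s x b c h := by
    show (e.t0 ≤ s ∧ _) ↔ _
    rw [and_iff_right h]
    rfl
  ts e s x b c h := by
    show (e.t0 ≤ s ∧ _) ↔ _
    rw [and_iff_right h]
    rfl

theorem v2_pf (e : Epo X) (s : ℕ) (x : X) (b : β) (c : γ) (K : Finset X) :
    (v2 D Up N n Lr).pf e s x b c K = rem n Lr (kfc D e.t0 c) (D.cB s b) K := rfl

theorem v2_pg (e : Epo X) (s : ℕ) (x : X) (b : β) (c : γ) (K : Finset X) :
    (v2 D Up N n Lr).pg e s x b c K = rem n Lr (kgb D e.t0 b) (D.cC s c) K := rfl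

theorem v2_sp (s : ℕ) (x : X) (b : β) (c : γ) (v : Finset X) :
    (v2 D Up N n Lr).sp s x b c v = cspN n (kfc D s c) (D.cB s b) (kgb D s b) (D.cC s c) v := rfl

/-- `KF e (s+1)` is the main block -/
theorem v2_KF {e : Epo X} {s : ℕ} (h : e.t0 ≤ s) (x : X) (b : β) (c : γ) :
    (v2 D Up N n Lr).KF e (s + 1) x b c =
      mainB (KF' (v2 D Up N n Lr).toRm e s x b c) (rem n Lr (kfc D e.t0 c) (D.cB (s + 1) b)
        (KF' (v2 D Up N n Lr).toRm e s x b c)) := by
  classical
  ext y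
  rw [(v2 D Up N n Lr).mem_KF_succ h, mem_mainB]
  unfold KF'
  rw [mem_inter]
  rfl

/-- `KG e (s+1)` is the main block -/
theorem v2_KG {e : Epo X} {s : ℕ} (h : e.t0 ≤ s) (x : X) (b : β) (c : γ) :
    (v2 D Up N n Lr).KG e (s + 1) x b c =
      mainB (KG' (v2 D Up N n Lr).toRm e s x b c) (rem n Lr (kgb D e.t0 b) (D.cC (s + 1) c)
        (KG' (v2 D Up N n Lr).toRm e s x b c)) := by
  classical
  ext y
  rw [(v2 D Up N n Lr).mem_KG_succ h, mem_mainB]
  unfold KG'
  rw [mem_inter]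
  rfl

/-- final cell -/
theorem v2_fin (s : ℕ) (x : X) (b : β) (c : γ) (v : Finset X) :
    (v2 D Up N n Lr).fin s x b c v = fblk v (csp n (kfc D s c) (D.cB s b) (kgb D s b) (D.cC s c) v) x := by
  rw [← fblk_cspN (n := n) (kf := kfc D s c) (Bs := D.cB s b) (kg := kgb D s b) (Cs := D.cC s c) (K := v) v x]
  ext y
  rw [Rl.mem_fin, mem_fblk]
  rfl

end

end Pool.Agent.M3.S3
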