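import Pool.Agent.M3.S3.Bud
import Pool.Agent.M3.S3.V2

/-!
# M3.S3.CntPay: the count of (h3) along the process (3445 (5))

* `CspOpt R n` : the complete split of the rule is optimal for `gain2` (labels of the same time);
* `RemGain R n Lr` : (1)(c) of the removal, for `f` and `g`;
* `proj_comp` : composed projections of the labels;
* `P3 R N s` : (h3) and not (h1) at the half step from `s` to `s+1`, for the own epoch;
* `cnt_pay` : `(Lr eps4 / 2) * sum_(s<K) P(P3 s) <= 2 n Lam`.
-/

set_option autoImplicit false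
set_option linter.unusedSectionVars false
set_option linter.unusedVariables false

namespace Pool.Agent.M3.S3

open Finset Pool.Agent.PWZ

variable {X β γ ι φ : Type*} [Fintype X] [Fintype β] [Fintype γ] [Fintype φ] {D : Dat X β γ ι φ}

/-- the complete split is optimal -/
structure CspOpt (R : Rl D) (n : ℝ) : Prop where
  opt : ∀ s x b c (v : Finset X) (r : X → ℕ),
    gain2 n (fun y b' => D.kf s y b' c) (fun y c' => D.kg s y b c') v (D.cB s b) (D.cC s c) r ≤
      gain2 n (fun y b' => D.kf s y b' c) (fun y c' => D.kg s y b c') v (D.cB s b) (D.cC s c) (R.sp s x b c v)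

open Classical in
/-- (1)(c) of the removals: the old labels are those of the start of the epoch -/
structure RemGain (R : Rl D) (n Lr : ℝ) : Prop where
  f : ∀ (e : Epo X) s x b c (K : Finset X), e.t0 ≤ s → (∀ y ∈ K, D.qa s y = D.qa s x) →
    Lr * ((K.card : ℝ) - (K.filter fun y => R.pf e s x b c K y = 0).card) ≤
      gainF n (fun y b' => D.kf e.t0 y b' c) K (D.cB s b) (R.pf e s x b c K)
  g : ∀ (e : Epo X) s x b c (K : Finset X), e.t0 ≤ s → (∀ y ∈ K, D.qa s y = D.qa s x) →
    Lr * ((K.card : ℝ) - (K.filter fun y => R.pg e s x b c K y = 0).card) ≤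
      gainF n (fun y c' => D.kg e.t0 y b c') K (D.cC s c) (R.pg e s x b c K)

/-- composed projections, first labels -/
theorem proj_comp_f [DecidableEq φ] (P : Proj D) {t0 t : ℕ} (h : t0 ≤ t) (x : X) (b : β) (c : γ) :
    ∃ π : φ → φ, ∀ y, D.qa t y = D.qa t x → ∀ G,
      D.kf t0 y b c G = ∑ F, if π F = G then D.kf t y b c F else 0 := by
  induction t, h using Nat.le_induction with
  | base =>
    refine ⟨id, fun y _ G => ?_⟩
    simp only [id, Finset.sum_ite_eq', Finset.mem_univ, if_true]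
  | succ t _ ih =>
    obtain ⟨π, hπ⟩ := ih
    refine ⟨fun F => π (P.pf t x b c F), fun y hy G => ?_⟩
    rw [hπ y (D.ra t y x hy) G]
    calc ∑ F', (if π F' = G then D.kf t y b c F' else 0)
        = ∑ F', ∑ F, (if P.pf t x b c F = F' then (if π F' = G then D.kf (t + 1) y b c F else 0) else 0) := by
          refine Finset.sum_congr rfl (fun F' _ => ?_)
          by_cases h1 : π F' = G
          · rw [if_pos h1, P.f t x b c y hy F']
            simp only [if_pos h1]
          · rw [if_neg h1]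
            simp only [if_neg h1, ite_self, Finset.sum_const_zero]
      _ = ∑ F, ∑ F', (if P.pf t x b c F = F' then (if π F' = G then D.kf (t + 1) y b c F else 0) else 0) :=
          Finset.sum_comm
      _ = _ := by
          refine Finset.sum_congr rfl (fun F _ => ?_)
          rw [Finset.sum_ite_eq, if_pos (Finset.mem_univ _)]

/-- composed projections, second labels -/
theorem proj_comp_g [DecidableEq φ] (P : Proj D) {t0 t : ℕ} (h : t0 ≤ t) (x : X) (b : β) (c : γ) :
    ∃ π : φ → φ, ∀ y, D.qa t y = D.qa t x → ∀ G,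
      D.kg t0 y b c G = ∑ F, if π F = G then D.kg t y b c F else 0 := by
  induction t, h using Nat.le_induction with
  | base =>
    refine ⟨id, fun y _ G => ?_⟩
    simp only [id, Finset.sum_ite_eq', Finset.mem_univ, if_true]
  | succ t _ ih =>
    obtain ⟨π, hπ⟩ := ih
    refine ⟨fun F => π (P.pg t x b c F), fun y hy G => ?_⟩
    rw [hπ y (D.ra t y x hy) G]
    calc ∑ F', (if π F' = G then D.kg t y b c F' else 0)
        = ∑ F', ∑ F, (if P.pg t x b c F = F' then (if π F' = G then D.kg (t + 1) y b c F else 0) else 0) := by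
          refine Finset.sum_congr rfl (fun F' _ => ?_)
          by_cases h1 : π F' = G
          · rw [if_pos h1, P.g t x b c y hy F']
            simp only [if_pos h1]
          · rw [if_neg h1]
            simp only [if_neg h1, ite_self, Finset.sum_const_zero]
      _ = ∑ F, ∑ F', (if P.pg t x b c F = F' then (if π F' = G then D.kg (t + 1) y b c F else 0) else 0) :=
          Finset.sum_comm
      _ = _ := by
          refine Finset.sum_congr rfl (fun F _ => ?_)
          rw [Finset.sum_ite_eq, if_pos (Finset.mem_univ _)]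

theorem cp_avg_congr {α : Type*} {s : Finset α} {f g : α → ℝ} (h : ∀ a ∈ s, f a = g a) : avg s f = avg s g := by
  unfold avg
  rw [Finset.sum_congr rfl h]

theorem gain2_swap {n : ℝ} (k : X → β → φ → ℝ) (l : X → γ → φ → ℝ) (K : Finset X) (Bs : Finset β)
    (Cs : Finset γ) (r : X → ℕ) : gain2 n k l K Bs Cs r = gain2 n l k K Cs Bs r := by
  unfold gain2
  rw [add_comm (avg Bs _)]

section node

variable {R : Rl D} {N : Nums} {n Lr al : ℝ}

theorem th_exp {al : ℝ} (T : D.Thick al) : Real.exp (-Real.log (1 / al)) = al := by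
  rw [one_div, Real.log_inv, neg_neg, Real.exp_log T.pos]

theorem KF'_sub_rs (e : Epo X) {s : ℕ} (h : e.t0 ≤ s) (x : X) (b : β) (c : γ) :
    KF' R.toRm e s x b c ⊆ rs D e (s + 1) x := by
  classical
  intro y hy
  unfold KF' at hy
  unfold rs
  rw [Finset.mem_inter] at hy ⊢
  refine ⟨?_, hy.2⟩
  have := R.KF_sub h x b c hy.1
  rwa [R.KF_old le_rfl] at this

theorem KG'_sub_rs (e : Epo X) {s : ℕ} (h : e.t0 ≤ s) (x : X) (b : β) (c : γ) :
    KG' R.toRm e s x b c ⊆ rs D e (s + 1) x := by
  classical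
  intro y hy
  unfold KG' at hy
  unfold rs
  rw [Finset.mem_inter] at hy ⊢
  refine ⟨?_, hy.2⟩
  have := R.KG_sub h x b c hy.1
  rwa [R.KG_old le_rfl] at this

theorem hc_eq_inter (e : Epo X) (s : ℕ) (x : X) (b : β) (c : γ) (y : X) :
    y ∈ R.hc e s x b c ↔ y ∈ KF' R.toRm e s x b c ∧ y ∈ KG' R.toRm e s x b c := by
  classical
  unfold KF' KG'
  rw [R.mem_hc, R.mem_om, Finset.mem_inter, Finset.mem_inter, D.mem_cA]
  tauto

theorem hc_sub_KF' (e : Epo X) (s : ℕ) (x : X) (b : β) (c : γ) : R.hc e s x b c ⊆ KF' R.toRm e s x b c :=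
  fun y hy => ((hc_eq_inter e s x b c y).1 hy).1

theorem hc_sub_KG' (e : Epo X) (s : ℕ) (x : X) (b : β) (c : γ) : R.hc e s x b c ⊆ KG' R.toRm e s x b c :=
  fun y hy => ((hc_eq_inter e s x b c y).1 hy).2

/-- without (h1) the half step class is nearly all of `KF'` -/
theorem card_hc_f {e : Epo X} {s : ℕ} (h : e.t0 ≤ s) {x : X} {b : β} {c : γ} (he : N.eps3 ≤ 1 / 8)
    (he0 : 0 ≤ N.eps3) (h1 : ¬ H1 R.toRm N e s x b c) :
    ((KF' R.toRm e s x b c).card : ℝ) - (R.hc e s x b c).card ≤ 8 * N.eps3 * (KF' R.toRm e s x b c).card := by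
  classical
  unfold H1 at h1
  push Not at h1
  have c1 : (((KF' R.toRm e s x b c) \ (R.hc e s x b c)).card : ℝ) ≤
      ((rs D e (s + 1) x) \ (KG' R.toRm e s x b c)).card := by
    have hsub : (KF' R.toRm e s x b c) \ (R.hc e s x b c) ⊆ (rs D e (s + 1) x) \ (KG' R.toRm e s x b c) := by
      intro y hy
      rw [Finset.mem_sdiff] at hy ⊢
      refine ⟨KF'_sub_rs e h x b c hy.1, fun hg => hy.2 ?_⟩
      exact (hc_eq_inter e s x b c y).2 ⟨hy.1, hg⟩
    exact_mod_cast Finset.card_le_card hsub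
  rw [Finset.card_sdiff_of_subset (hc_sub_KF' e s x b c), Finset.card_sdiff_of_subset (KG'_sub_rs e h x b c),
    Nat.cast_sub (Finset.card_le_card (hc_sub_KF' e s x b c)),
    Nat.cast_sub (Finset.card_le_card (KG'_sub_rs e h x b c))] at c1
  have c2 := h1.1
  have c3 := h1.2
  have c4 : (0 : ℝ) ≤ (rs D e (s + 1) x).card := Nat.cast_nonneg _
  have c5 : (1 / 2 : ℝ) * (rs D e (s + 1) x).card ≤ (1 - 4 * N.eps3) * (rs D e (s + 1) x).card :=
    mul_le_mul_of_nonneg_right (by linarith) c4
  have c6 : N.eps3 * (rs D e (s + 1) x).card ≤ N.eps3 * (2 * (KF' R.toRm e s x b c).card) :=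
    mul_le_mul_of_nonneg_left (by linarith) he0
  nlinarith

/-- without (h1) the half step class is nearly all of `KG'` -/
theorem card_hc_g {e : Epo X} {s : ℕ} (h : e.t0 ≤ s) {x : X} {b : β} {c : γ} (he : N.eps3 ≤ 1 / 8)
    (he0 : 0 ≤ N.eps3) (h1 : ¬ H1 R.toRm N e s x b c) :
    ((KG' R.toRm e s x b c).card : ℝ) - (R.hc e s x b c).card ≤ 8 * N.eps3 * (KG' R.toRm e s x b c).card := by
  classical
  unfold H1 at h1
  push Not at h1
  have c1 : (((KG' R.toRm e s x b c) \ (R.hc e s x b c)).card : ℝ) ≤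
      ((rs D e (s + 1) x) \ (KF' R.toRm e s x b c)).card := by
    have hsub : (KG' R.toRm e s x b c) \ (R.hc e s x b c) ⊆ (rs D e (s + 1) x) \ (KF' R.toRm e s x b c) := by
      intro y hy
      rw [Finset.mem_sdiff] at hy ⊢
      refine ⟨KG'_sub_rs e h x b c hy.1, fun hg => hy.2 ?_⟩
      exact (hc_eq_inter e s x b c y).2 ⟨hg, hy.1⟩
    exact_mod_cast Finset.card_le_card hsub
  rw [Finset.card_sdiff_of_subset (hc_sub_KG' e s x b c), Finset.card_sdiff_of_subset (KF'_sub_rs e h x b c),
    Nat.cast_sub (Finset.card_le_card (hc_sub_KG' e s x b c)),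
    Nat.cast_sub (Finset.card_le_card (KF'_sub_rs e h x b c))] at c1
  have c2 := h1.1
  have c3 := h1.2
  have c4 : (0 : ℝ) ≤ (rs D e (s + 1) x).card := Nat.cast_nonneg _
  have c5 : (1 / 2 : ℝ) * (rs D e (s + 1) x).card ≤ (1 - 4 * N.eps3) * (rs D e (s + 1) x).card :=
    mul_le_mul_of_nonneg_right (by linarith) c4
  have c6 : N.eps3 * (rs D e (s + 1) x).card ≤ N.eps3 * (2 * (KG' R.toRm e s x b c).card) :=
    mul_le_mul_of_nonneg_left (by linarith) he0
  nlinarith

/-- THE NODE: at (h3) without (h1) the complete split of the half step class has a surplus -/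
theorem h3_node [DecidableEq φ] (T : D.Thick al) (P : Proj D) (hn : 0 ≤ n) (hLr : 0 ≤ Lr)
    (hC : CspOpt R n) (hR : RemGain R n Lr) (hal : al ≤ 1) (he : N.eps3 ≤ 1 / 8) (he0 : 0 ≤ N.eps3)
    (hnum : 8 * N.eps3 * (n * (Real.log (1 / al) + 1) + 1) ≤ Lr * N.eps4 / 2)
    {e : Epo X} {s : ℕ} (h : e.t0 ≤ s) {x : X} {b : β} {c : γ} (hx : x ∈ R.hc e s x b c)
    (h1 : ¬ H1 R.toRm N e s x b c) (h3 : H3 R.toRm N e s x b c) (he4 : 0 ≤ N.eps4) :
    Lr * N.eps4 / 2 * (R.hc e s x b c).card ≤
      gain2 n (fun y b' => D.kf (s + 1) y b' c) (fun y c' => D.kg (s + 1) y b c') (R.hc e s x b c)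
        (D.cB (s + 1) b) (D.cC (s + 1) c) (R.sp (s + 1) x b c (R.hc e s x b c)) := by
  classical
  have hL : 0 ≤ Real.log (1 / al) := Real.log_nonneg (by rw [le_div_iff₀ T.pos, one_mul]; exact hal)
  have hexp := th_exp T
  have hA : ∀ y ∈ R.hc e s x b c, D.qa (s + 1) y = D.qa (s + 1) x := fun y hy => (R.mem_hc.1 hy).2
  have h' : e.t0 ≤ s + 1 := h.trans (Nat.le_succ s)
  have hq : (0 : ℝ) ≤ Lr * N.eps4 / 2 := by positivity
  rcases h3 with h3 | h3
  · -- the removal by `f`
    set K := KF' R.toRm e s x b c with hK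
    have hsub : R.hc e s x b c ⊆ K := hc_sub_KF' e s x b c
    have hKA : ∀ y ∈ K, D.qa (s + 1) y = D.qa (s + 1) x := by
      intro y hy
      rw [hK] at hy
      unfold KF' at hy
      exact D.mem_cA.1 (Finset.mem_inter.1 hy).2
    have hKK : ∀ y ∈ K, ∀ y' ∈ K, D.qa e.t0 y = D.qa e.t0 y' := fun y hy y' hy' =>
      D.qa_le h' ((hKA y hy).trans (hKA y' hy').symm)
    have hM : (R.KF e (s + 1) x b c) = K.filter fun y => R.pf e (s + 1) x b c K y = 0 := by
      ext y
      rw [R.mem_KF_succ h, Finset.mem_filter, hK]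
      unfold KF'
      rw [Finset.mem_inter]
    have hMsub : (K.filter fun y => R.pf e (s + 1) x b c K y = 0) ⊆ K := Finset.filter_subset _ _
    have harg := hR.f e (s + 1) x b c K h' hKA
    have hcard : ((K \ (K.filter fun y => R.pf e (s + 1) x b c K y = 0)).card : ℝ) =
        (K.card : ℝ) - (K.filter fun y => R.pf e (s + 1) x b c K y = 0).card := by
      rw [Finset.card_sdiff_of_subset hMsub, Nat.cast_sub (Finset.card_le_card hMsub)]
    rw [← hcard] at harg
    choose π hπ using fun b' => proj_comp_f P h' x b' c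
    have main := h3_static (k0 := fun y b' => D.kf e.t0 y b' c) (k := fun y b' => D.kf (s + 1) y b' c)
      (l := fun y c' => D.kg (s + 1) y b c') (Lam := Real.log (1 / al)) (Lr := Lr) (e := 8 * N.eps3)
      (e4 := N.eps4) (K := K) (K' := R.hc e s x b c) (Bs := D.cB (s + 1) b) (Cs := D.cC (s + 1) c) hn hL
      ⟨b, D.self_cB (s + 1) b⟩
      (fun y _ b' _ F => T.f_nn e.t0 y b' c F)
      (fun y hy y' hy' b' _ F hF => by
        rw [hexp]; exact T.f_thick e.t0 y y' b' c F (hKK y hy y' hy') hF)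
      (fun y _ b' _ => T.f_one e.t0 y b' c)
      (fun y _ b' _ F => T.f_nn (s + 1) y b' c F)
      (fun y hy y' hy' b' _ F hF => by
        rw [hexp]; exact T.f_thick (s + 1) y y' b' c F ((hA y hy).trans (hA y' hy').symm) hF)
      (fun y _ c' _ F => T.g_nn (s + 1) y b c' F)
      (fun y hy y' hy' c' _ F hF => by
        rw [hexp]; exact T.g_thick (s + 1) y y' b c' F ((hA y hy).trans (hA y' hy').symm) hF)
      (fun y _ c' _ => T.g_one (s + 1) y b c')
      π (fun y hy b' _ G => hπ b' y (hA y hy) G)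
      hsub ⟨x, hx⟩
      (by
        rw [Finset.card_sdiff_of_subset hsub, Nat.cast_sub (Finset.card_le_card hsub)]
        exact card_hc_f h he he0 h1)
      hnum harg hLr
      (by
        rw [hcard, ← hM]
        linarith)
      (hC.opt (s + 1) x b c (R.hc e s x b c) (R.pf e (s + 1) x b c K))
    refine le_trans (mul_le_mul_of_nonneg_left ?_ hq) main
    exact_mod_cast Finset.card_le_card hsub
  · -- the removal by `g`
    set K := KG' R.toRm e s x b c with hK
    have hsub : R.hc e s x b c ⊆ K := hc_sub_KG' e s x b c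
    have hKA : ∀ y ∈ K, D.qa (s + 1) y = D.qa (s + 1) x := by
      intro y hy
      rw [hK] at hy
      unfold KG' at hy
      exact D.mem_cA.1 (Finset.mem_inter.1 hy).2
    have hKK : ∀ y ∈ K, ∀ y' ∈ K, D.qa e.t0 y = D.qa e.t0 y' := fun y hy y' hy' =>
      D.qa_le h' ((hKA y hy).trans (hKA y' hy').symm)
    have hM : (R.KG e (s + 1) x b c) = K.filter fun y => R.pg e (s + 1) x b c K y = 0 := by
      ext y
      rw [R.mem_KG_succ h, Finset.mem_filter, hK]
      unfold KG'
      rw [Finset.mem_inter]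
    have hMsub : (K.filter fun y => R.pg e (s + 1) x b c K y = 0) ⊆ K := Finset.filter_subset _ _
    have harg := hR.g e (s + 1) x b c K h' hKA
    have hcard : ((K \ (K.filter fun y => R.pg e (s + 1) x b c K y = 0)).card : ℝ) =
        (K.card : ℝ) - (K.filter fun y => R.pg e (s + 1) x b c K y = 0).card := by
      rw [Finset.card_sdiff_of_subset hMsub, Nat.cast_sub (Finset.card_le_card hMsub)]
    rw [← hcard] at harg
    choose π hπ using fun c' => proj_comp_g P h' x b c'
    have hrs := hC.opt (s + 1) x b c (R.hc e s x b c) (R.pg e (s + 1) x b c K)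
    rw [gain2_swap, gain2_swap _ _ _ _ _ (R.sp (s + 1) x b c (R.hc e s x b c))] at hrs
    have main := h3_static (k0 := fun y c' => D.kg e.t0 y b c') (k := fun y c' => D.kg (s + 1) y b c')
      (l := fun y b' => D.kf (s + 1) y b' c) (Lam := Real.log (1 / al)) (Lr := Lr) (e := 8 * N.eps3)
      (e4 := N.eps4) (K := K) (K' := R.hc e s x b c) (Bs := D.cC (s + 1) c) (Cs := D.cB (s + 1) b) hn hL
      ⟨c, D.self_cC (s + 1) c⟩
      (fun y _ c' _ F => T.g_nn e.t0 y b c' F)
      (fun y hy y' hy' c' _ F hF => by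
        rw [hexp]; exact T.g_thick e.t0 y y' b c' F (hKK y hy y' hy') hF)
      (fun y _ c' _ => T.g_one e.t0 y b c')
      (fun y _ c' _ F => T.g_nn (s + 1) y b c' F)
      (fun y hy y' hy' c' _ F hF => by
        rw [hexp]; exact T.g_thick (s + 1) y y' b c' F ((hA y hy).trans (hA y' hy').symm) hF)
      (fun y _ b' _ F => T.f_nn (s + 1) y b' c F)
      (fun y hy y' hy' b' _ F hF => by
        rw [hexp]; exact T.f_thick (s + 1) y y' b' c F ((hA y hy).trans (hA y' hy').symm) hF)
      (fun y _ b' _ => T.f_one (s + 1) y b' c)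
      π (fun y hy c' _ G => hπ c' y (hA y hy) G)
      hsub ⟨x, hx⟩
      (by
        rw [Finset.card_sdiff_of_subset hsub, Nat.cast_sub (Finset.card_le_card hsub)]
        exact card_hc_g h he he0 h1)
      hnum harg hLr
      (by
        rw [hcard, ← hM]
        linarith)
      hrs
    rw [gain2_swap]
    refine le_trans (mul_le_mul_of_nonneg_left ?_ hq) main
    exact_mod_cast Finset.card_le_card hsub

end node

/-! ## along the process -/

section process

variable (R : Rl D) (N : Nums)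

/-- (h3) and not (h1) at the half step from `s` to `s+1` for the own epoch -/
def P3 (s : ℕ) (x : X) (b : β) (c : γ) : Prop :=
  H3 R.toRm N (R.ep s x b c) s x b c ∧ ¬ H1 R.toRm N (R.ep s x b c) s x b c

theorem P3_pub {s : ℕ} {x x' : X} {b b' : β} {c c' : γ} (hS : D.Same (s + 1) x b c x' b' c')
    (hx : x' ∈ R.U s x b c) : P3 R N s x' b' c' ↔ P3 R N s x b c := by
  unfold P3
  have e1 := (R.pub s (hS.le (Nat.le_succ s)) hx).1
  have h := R.t0_le s x b c
  rw [e1, ← H3_q h hS, ← H1_q h hS]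

/-- at a half step test the new class is the block of the complete split of the half step class -/
theorem U_th {s : ℕ} {x : X} {b : β} {c : γ} (hth : R.th (R.ep s x b c) (s + 1) x b c) :
    R.U (s + 1) x b c = fblk (hcl R s x b c) (R.sp (s + 1) x b c (hcl R s x b c)) x := by
  rw [R.U_new (Or.inl hth)]
  have e1 : R.vc (R.ep s x b c) s x b c = hcl R s x b c := by
    unfold Rl.vc
    rw [if_pos hth]
    rfl
  rw [e1]
  ext y
  rw [R.mem_fin, mem_fblk]

variable {R N} {n Lr al Lam : ℝ}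

/-- the same formula for the other points of the box -/
theorem U_th' {s : ℕ} {x x' : X} {b b' : β} {c c' : γ} (hth : R.th (R.ep s x b c) (s + 1) x b c)
    (hS : D.Same (s + 1) x b c x' b' c') (hx : x' ∈ hcl R s x b c) :
    R.U (s + 1) x' b' c' = fblk (hcl R s x b c) (R.sp (s + 1) x b c (hcl R s x b c)) x' ∧
      hcl R s x' b' c' = hcl R s x b c := by
  have hx1 := hcl_sub R s x b c hx
  have e1 := (R.pub s (hS.le (Nat.le_succ s)) hx1).1
  have e2 := hcl_pub R s hS hx1
  have hth' : R.th (R.ep s x' b' c') (s + 1) x' b' c' := by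
    rw [e1]
    exact (R.th_q (R.ep s x b c) (s + 1) x b c x' b' c' ((R.t0_le s x b c).trans (Nat.le_succ s)) hS).1 hth
  refine ⟨?_, e2⟩
  rw [U_th R hth', e2, ← R.sp_q (s + 1) x b c x' b' c' _ hS]

/-- one step of the count -/
theorem pay_step [DecidableEq φ] (T : D.Thick al) (P : Proj D) (hn : 0 ≤ n) (hLr : 0 ≤ Lr)
    (hC : CspOpt R n) (hR : RemGain R n Lr) (hal : al ≤ 1) (he : N.eps3 ≤ 1 / 8) (he0 : 0 ≤ N.eps3)
    (he4 : 0 ≤ N.eps4) (hnum : 8 * N.eps3 * (n * (Real.log (1 / al) + 1) + 1) ≤ Lr * N.eps4 / 2)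
    (hth : ∀ (e : Epo X) s x b c, e.t0 ≤ s → H3 R.toRm N e s x b c → R.th e (s + 1) x b c) (s : ℕ) :
    Lr * N.eps4 / 2 * (E3 fun x b c => ind (P3 R N s x b c)) ≤
      n * ((Hf D (s + 1) (hcl R s) - Hf D (s + 1) (R.U (s + 1))) +
        (Hg D (s + 1) (hcl R s) - Hg D (s + 1) (R.U (s + 1)))) := by
  classical
  have hHf : Hf D (s + 1) (hcl R s) - Hf D (s + 1) (R.U (s + 1)) = E3 fun x b c =>
      klf (law (R.U (s + 1) x b c) fun y => D.kf (s + 1) y b c) (law (hcl R s x b c) fun y => D.kf (s + 1) y b c) :=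
    HH_sub (fun x b c F => T.f_nn (s + 1) x b c F) (hcl_pv R s) (U_pv R (s + 1)) (fun x b c => U_sub_hcl R s x b c)
  have hHg : Hg D (s + 1) (hcl R s) - Hg D (s + 1) (R.U (s + 1)) = E3 fun x b c =>
      klf (law (R.U (s + 1) x b c) fun y => D.kg (s + 1) y b c) (law (hcl R s x b c) fun y => D.kg (s + 1) y b c) :=
    HH_sub (fun x b c F => T.g_nn (s + 1) x b c F) (hcl_pv R s) (U_pv R (s + 1)) (fun x b c => U_sub_hcl R s x b c)
  rw [hHf, hHg, ← E3_add, ← E3_smul, ← E3_smul]
  set f : X → β → γ → ℝ := fun x b c =>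
    n * (klf (law (R.U (s + 1) x b c) fun y => D.kf (s + 1) y b c) (law (hcl R s x b c) fun y => D.kf (s + 1) y b c) +
      klf (law (R.U (s + 1) x b c) fun y => D.kg (s + 1) y b c) (law (hcl R s x b c) fun y => D.kg (s + 1) y b c))
    with hf
  have hf0 : ∀ x b c, 0 ≤ f x b c := fun x b c =>
    mul_nonneg hn (add_nonneg
      (bd_klf_law_nonneg (fun y F => T.f_nn (s + 1) y b c F) (fun y => T.f_one (s + 1) y b c)
        ⟨x, R.self_U (s + 1) x b c⟩ (U_sub_hcl R s x b c))
      (bd_klf_law_nonneg (fun y F => T.g_nn (s + 1) y b c F) (fun y => T.g_one (s + 1) y b c)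
        ⟨x, R.self_U (s + 1) x b c⟩ (U_sub_hcl R s x b c)))
  have e1 : E3 (fun x b c => ind (P3 R N s x b c) * f x b c) ≤ E3 f := by
    refine E3_mono (fun x b c => ?_)
    calc ind (P3 R N s x b c) * f x b c ≤ 1 * f x b c :=
          mul_le_mul_of_nonneg_right (ind_le_one _) (hf0 x b c)
      _ = f x b c := one_mul _
  refine le_trans ?_ e1
  rw [E3_pub D (s + 1) (s + 1) (hcl_pv R s) (fun x b c => ind (P3 R N s x b c) * f x b c)]
  refine E3_mono (fun x b c => ?_)
  by_cases hP : P3 R N s x b c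
  · rw [ind_of hP, mul_one]
    have h := R.t0_le s x b c
    have hthx := hth (R.ep s x b c) s x b c h hP.1
    have node := h3_node T P hn hLr hC hR hal he he0 hnum h (R.self_hc s x b c) hP.2 hP.1 he4
    have hH : R.hc (R.ep s x b c) s x b c = hcl R s x b c := rfl
    rw [hH] at node
    set H := hcl R s x b c with hHdef
    set r := R.sp (s + 1) x b c H with hr
    have hHx : x ∈ H := R.self_hc s x b c
    have hHne : H.Nonempty := ⟨x, hHx⟩
    have hcH : (0 : ℝ) < H.card := by exact_mod_cast Finset.card_pos.2 hHne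
    -- the integrand on the box
    have eint : (avg H fun x' => avg (D.cB (s + 1) b) fun b' => avg (D.cC (s + 1) c) fun c' =>
        ind (P3 R N s x' b' c') * f x' b' c') =
        avg H fun x' => avg (D.cB (s + 1) b) fun b' => avg (D.cC (s + 1) c) fun c' =>
          n * (klf (law (fblk H r x') fun y => D.kf (s + 1) y b' c) (law H fun y => D.kf (s + 1) y b' c) +
            klf (law (fblk H r x') fun y => D.kg (s + 1) y b c') (law H fun y => D.kg (s + 1) y b c')) := by
      refine cp_avg_congr (fun x' hx' => cp_avg_congr (fun b' hb' => cp_avg_congr (fun c' hc' => ?_)))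
      have hS : D.Same (s + 1) x b c x' b' c' :=
        ⟨((mem_hcl R).1 hx').2.symm, (D.mem_cB.1 hb').symm, (D.mem_cC.1 hc').symm⟩
      have hx1 := hcl_sub R s x b c hx'
      rw [ind_of ((P3_pub R N hS hx1).2 hP), one_mul]
      obtain ⟨u1, u2⟩ := U_th' hthx hS hx'
      have kf1 : ∀ y, D.kf (s + 1) y b' c' = D.kf (s + 1) y b' c := fun y =>
        (D.kf_c (s + 1) y b' c c' hS.2.2).symm
      have kg1 : ∀ y, D.kg (s + 1) y b' c' = D.kg (s + 1) y b c' := fun y =>
        (D.kg_b (s + 1) y b b' c' hS.2.1).symm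
      show n * (klf (law (R.U (s + 1) x' b' c') fun y => D.kf (s + 1) y b' c')
          (law (hcl R s x' b' c') fun y => D.kf (s + 1) y b' c') +
        klf (law (R.U (s + 1) x' b' c') fun y => D.kg (s + 1) y b' c')
          (law (hcl R s x' b' c') fun y => D.kg (s + 1) y b' c')) = _
      rw [u1, u2]
      simp only [kf1, kg1]
      rfl
    rw [eint]
    -- compute the averages
    have hBne : (D.cB (s + 1) b).Nonempty := ⟨b, D.self_cB (s + 1) b⟩
    have hCne : (D.cC (s + 1) c).Nonempty := ⟨c, D.self_cC (s + 1) c⟩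
    have e2 : (avg H fun x' => avg (D.cB (s + 1) b) fun b' => avg (D.cC (s + 1) c) fun c' =>
          n * (klf (law (fblk H r x') fun y => D.kf (s + 1) y b' c) (law H fun y => D.kf (s + 1) y b' c) +
            klf (law (fblk H r x') fun y => D.kg (s + 1) y b c') (law H fun y => D.kg (s + 1) y b c'))) =
        n * (avg (D.cB (s + 1) b) (fun b' => infoN (fun y => D.kf (s + 1) y b' c) H r) +
          avg (D.cC (s + 1) c) (fun c' => infoN (fun y => D.kg (s + 1) y b c') H r)) / H.card := by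
      simp only [avg_smul, avg_add, avg_const hCne, avg_const hBne]
      rw [mul_div_assoc]
      congr 1
      rw [add_div]
      have i1 : ∀ b', infoN (fun y => D.kf (s + 1) y b' c) H r = ∑ x' ∈ H,
          klf (law (fblk H r x') fun y => D.kf (s + 1) y b' c) (law H fun y => D.kf (s + 1) y b' c) :=
        fun b' => infoN_eq _ _ _
      have i2 : ∀ c', infoN (fun y => D.kg (s + 1) y b c') H r = ∑ x' ∈ H,
          klf (law (fblk H r x') fun y => D.kg (s + 1) y b c') (law H fun y => D.kg (s + 1) y b c') :=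
        fun c' => infoN_eq _ _ _
      simp only [i1, i2, avg_sum_comm]
      rfl
    rw [e2]
    rw [le_div_iff₀ hcH]
    refine le_trans node ?_
    unfold gain2
    have := entN_nonneg H r
    linarith
  · rw [ind_not hP, mul_zero]
    refine div_nonneg (Finset.sum_nonneg (fun x' _ => div_nonneg (Finset.sum_nonneg (fun b' _ =>
      div_nonneg (Finset.sum_nonneg (fun c' _ => mul_nonneg (ind_nonneg _) (hf0 x' b' c'))) (Nat.cast_nonneg _)))
        (Nat.cast_nonneg _))) (Nat.cast_nonneg _)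

/-- THE COUNT OF (h3) -/
theorem cnt_pay [DecidableEq φ] (T : D.Thick al) (P : Proj D) (hn : 0 ≤ n) (hLr : 0 ≤ Lr)
    (hC : CspOpt R n) (hR : RemGain R n Lr) (hal : al ≤ 1) (he : N.eps3 ≤ 1 / 8) (he0 : 0 ≤ N.eps3)
    (he4 : 0 ≤ N.eps4) (hnum : 8 * N.eps3 * (n * (Real.log (1 / al) + 1) + 1) ≤ Lr * N.eps4 / 2)
    (hth : ∀ (e : Epo X) s x b c, e.t0 ≤ s → H3 R.toRm N e s x b c → R.th e (s + 1) x b c) {K : ℕ}
    (hB : Birth D K Lam) :
    Lr * N.eps4 / 2 * ∑ s ∈ range K, (E3 fun x b c => ind (P3 R N s x b c)) ≤ 2 * n * Lam := by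
  rw [Finset.mul_sum]
  have h1 := Finset.sum_le_sum (s := range K)
    (fun s _ => pay_step T P hn hLr hC hR hal he he0 he4 hnum hth s)
  refine h1.trans ?_
  rw [← Finset.mul_sum, Finset.sum_add_distrib]
  have h2 := bud_new_f R T hB
  have h3 := bud_new_g R T hB
  have h4 := mul_le_mul_of_nonneg_left (add_le_add h2 h3) hn
  linarith

end process

/-! ## the concrete rule -/

section v2

variable {n Lr al Lam : ℝ} {Up : Upd D} {N : Nums}

theorem v2_cspOpt (T : D.Thick al) : CspOpt (v2 D Up N n Lr) n where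
  opt s x b c v r := by
    have h := csp_gain2 (K := v) (Bs := D.cB s b) (Cs := D.cC s c) (n := n) (kf := kfc D s c) (kg := kgb D s b)
      (fun y _ b' _ F => T.f_nn s y b' c F) (fun y _ c' _ F => T.g_nn s y b c' F) r
    rw [v2_sp]
    have h2 := csp_gain2N (K := v) (Bs := D.cB s b) (Cs := D.cC s c) (n := n) (kf := kfc D s c) (kg := kgb D s b)
    exact h.trans (le_of_eq h2.symm)

theorem v2_remGain (T : D.Thick al) : RemGain (v2 D Up N n Lr) n Lr where
  f e s x b c K he hK := by
    classical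
    have hs : ∀ b' ∈ D.cB s b, Sup (fun y => kfc D e.t0 c y b') K := fun b' _ =>
      ⟨fun y _ F => T.f_nn e.t0 y b' c F,
        fun y hy y' hy' F hF => T.pos.trans_le (T.f_thick e.t0 y y' b' c F
          (D.qa_le he ((hK y hy).trans (hK y' hy').symm)) hF),
        fun y _ => T.f_one e.t0 y b' c⟩
    have h := rem_gain (n := n) (Lr := Lr) hs
    rw [v2_pf]
    refine le_trans (le_of_eq ?_) h
    congr 3
  g e s x b c K he hK := by
    classical
    have hs : ∀ c' ∈ D.cC s c, Sup (fun y => kgb D e.t0 b y c') K := fun c' _ =>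
      ⟨fun y _ F => T.g_nn e.t0 y b c' F,
        fun y hy y' hy' F hF => T.pos.trans_le (T.g_thick e.t0 y y' b c' F
          (D.qa_le he ((hK y hy).trans (hK y' hy').symm)) hF),
        fun y _ => T.g_one e.t0 y b c'⟩
    have h := rem_gain (n := n) (Lr := Lr) hs
    rw [v2_pg]
    refine le_trans (le_of_eq ?_) h
    congr 3

/-- THE COUNT OF (h3) for the concrete rule -/
theorem cnt_H3 [DecidableEq φ] (T : D.Thick al) (P : Proj D) (hn : 0 ≤ n) (hLr : 0 ≤ Lr) (hal : al ≤ 1)
    (he : N.eps3 ≤ 1 / 8) (he0 : 0 ≤ N.eps3) (he4 : 0 ≤ N.eps4)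
    (hnum : 8 * N.eps3 * (n * (Real.log (1 / al) + 1) + 1) ≤ Lr * N.eps4 / 2) {K : ℕ} (hB : Birth D K Lam) :
    Lr * N.eps4 / 2 * ∑ s ∈ range K, (E3 fun x b c => ind (P3 (v2 D Up N n Lr) N s x b c)) ≤ 2 * n * Lam :=
  cnt_pay T P hn hLr (v2_cspOpt T) (v2_remGain T) hal he he0 he4 hnum
    (fun e s x b c h h3 => (v2_tst.th e s x b c h).2 (Or.inr (Or.inr h3))) hB

end v2

end Pool.Agent.M3.S3
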