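import Pool.Agent.M3.S3.CntAll
import Pool.Agent.M3.S3.CntPay
import Pool.Agent.M3.S3.CntChg
import Pool.Agent.M3.S3.Cost
import Pool.Agent.M3.S3.AL

/-!
# M3.S3.CntFin: all counts of section 3 in one place (helper49)

`R = v2 D Up N n Lr`, `CNum N n Lr al`, `Birth D K Lam`, `UpdOk D Up K J`.

* `nfall_fin` : `nfall R K ≤ 4 n Lam / Lr` (falls);
* `ntpr_fin` : `ntpr R K ≤ M1 N n Lr Lam J` (ends of epochs by a test),
  `M1 = 5 n Lam / (Lr eps3) + (8 + 24 J) / kap + 4 n Lam / (Lr eps4)`;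
* `new_fin` : `nfall R K + ntpr R K ≤ M2`, `M2 = 4 n Lam / Lr + M1`; `nnew_fin`, `epo_fin` : the same for the number of new
  epochs (`nnew` of the process, `E3 1[t0 (s+1) = s+1]`);
* `sub_f`, `sub_g` : numbers of sub-epochs of both systems `≤ 1 + (1 + 24 / q) M2`;
* `big_fin` : number of the big final cells `≤ 4 n Lam / L0`.
-/

set_option autoImplicit false
set_option linter.unusedSectionVars false

namespace Pool.Agent.M3.S3

open Finset Pool.Agent.PWZ Pool.Agent.M3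

noncomputable section

/-- bound of the number of falls -/
def M0c (n Lr Lam : ℝ) : ℝ := 4 * n * Lam / Lr

/-- bound of the number of ends of epochs by a test -/
def M1c (N : Nums) (n Lr Lam J : ℝ) : ℝ :=
  5 * n * Lam / (Lr * N.eps3) + (8 + 24 * J) / N.kap + 4 * n * Lam / (Lr * N.eps4)

/-- bound of the number of new epochs -/
def M2c (N : Nums) (n Lr Lam J : ℝ) : ℝ := M0c n Lr Lam + M1c N n Lr Lam J

variable {X β γ ι φ : Type*} [Fintype X] [Fintype β] [Fintype γ] [Fintype φ] {D : Dat X β γ ι φ}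
  {Up : Upd D} {N : Nums} {n Lr al Lam J : ℝ} {K : ℕ}

theorem nfall_nn (R : Rl D) (K : ℕ) : 0 ≤ nfall R K := Finset.sum_nonneg fun _ _ => E3_nonneg fun _ _ _ => ind_nonneg _

theorem ntpr_nn (R : Rl D) (K : ℕ) : 0 ≤ ntpr R K := Finset.sum_nonneg fun _ _ => E3_nonneg fun _ _ _ => ind_nonneg _

/-- the number of falls -/
theorem nfall_fin [DecidableEq φ] (T : D.Thick al) (P : Proj D) (H : CNum N n Lr al) (hB : Birth D K Lam) :
    nfall (v2 D Up N n Lr) K ≤ M0c n Lr Lam := by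
  have hL : 0 < Lr := by linarith [H.Lr8]
  unfold M0c
  rw [le_div_iff₀ hL, mul_comm]
  exact nfall_le T P v2_tst v2_con H hB

/-- **the number of ends of epochs by a test** -/
theorem ntpr_fin [DecidableEq φ] (T : D.Thick al) (P : Proj D) (hal : al ≤ 1) (H : CNum N n Lr al)
    (h3 : 0 < N.eps3) (h4 : 0 < N.eps4) (hk : 0 < N.kap)
    (hnum : 8 * N.eps3 * (n * (Real.log (1 / al) + 1) + 1) ≤ Lr * N.eps4 / 2) (hU : UpdOk D Up K J) (hJ : 0 ≤ J)
    (hB : Birth D K Lam) : ntpr (v2 D Up N n Lr) K ≤ M1c N n Lr Lam J := by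
  have hL : 0 < Lr := by linarith [H.Lr8]
  have he : N.eps3 ≤ 1 / 8 := by linarith [H.e5, H.e4]
  have f0 := nfall_fin (Up := Up) T P H hB
  have c1 := cnt_H1 (R := v2 D Up N n Lr) v2_tst K
  have c2 := cnt_H2 (v2 D Up N n Lr) hU v2_tst T hJ
  have c3 := cnt_H3 (Up := Up) T P H.n0.le hL.le hal he h3.le h4.le hnum hB
  have c4 := cnt_S1 (R := v2 D Up N n Lr) v2_tst K
  have c5 := cnt_S2 (v2 D Up N n Lr) hU v2_tst hJ
  have c3' : ∑ s ∈ range K, E3 (fun x b c => ind (P3 (v2 D Up N n Lr) N s x b c)) =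
      ∑ s ∈ range K, E3 (fun x b c => ind (¬ H1 (v2 D Up N n Lr).toRm N ((v2 D Up N n Lr).ep s x b c) s x b c ∧
        H3 (v2 D Up N n Lr).toRm N ((v2 D Up N n Lr).ep s x b c) s x b c)) := by
    refine Finset.sum_congr rfl fun s _ => ?_
    congr 1
    funext x b c
    exact congrArg ind (propext and_comm)
  rw [c3'] at c3
  have h := ntpr_le (R := v2 D Up N n Lr) (Up := Up) (N := N) v2_tst K
  have d1 : ∑ s ∈ range K, E3 (fun x b c => ind (H1 (v2 D Up N n Lr).toRm N ((v2 D Up N n Lr).ep s x b c) s x b c)) ≤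
      M0c n Lr Lam / (4 * N.eps3) := by
    rw [le_div_iff₀ (by positivity), mul_comm]
    exact c1.trans f0
  have d2 : ∑ s ∈ range K, E3 (fun x b c => ind (H2 (v2 D Up N n Lr).toRm Up N ((v2 D Up N n Lr).ep s x b c) s x b c)) ≤
      (8 + 22 * J) / N.kap := by
    rw [le_div_iff₀ hk, mul_comm]
    exact c2
  have d3 : ∑ s ∈ range K, E3 (fun x b c => ind (¬ H1 (v2 D Up N n Lr).toRm N ((v2 D Up N n Lr).ep s x b c) s x b c ∧
        H3 (v2 D Up N n Lr).toRm N ((v2 D Up N n Lr).ep s x b c) s x b c)) ≤ 2 * n * Lam / (Lr * N.eps4 / 2) := by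
    rw [le_div_iff₀ (by positivity), mul_comm]
    exact c3
  have d4 : ∑ s ∈ range K, E3 (fun x b c => ind (¬ (v2 D Up N n Lr).th ((v2 D Up N n Lr).ep s x b c) (s + 1) x b c ∧
      S1 (v2 D Up N n Lr).toRm N ((v2 D Up N n Lr).ep s x b c) s x b c)) ≤ M0c n Lr Lam / N.eps3 := by
    rw [le_div_iff₀ h3, mul_comm]
    exact c4.trans f0
  have d5 : ∑ s ∈ range K, E3 (fun x b c => ind (¬ (v2 D Up N n Lr).th ((v2 D Up N n Lr).ep s x b c) (s + 1) x b c ∧
      S2 Up N ((v2 D Up N n Lr).ep s x b c) s x b c)) ≤ 2 * J / N.kap := by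
    rw [le_div_iff₀ hk, mul_comm]
    exact c5
  have e : M1c N n Lr Lam J = M0c n Lr Lam / (4 * N.eps3) + (8 + 22 * J) / N.kap + 2 * n * Lam / (Lr * N.eps4 / 2) +
      M0c n Lr Lam / N.eps3 + 2 * J / N.kap := by
    unfold M1c M0c
    field_simp
    ring
  rw [e]
  linarith

/-- the number of new epochs -/
theorem new_fin [DecidableEq φ] (T : D.Thick al) (P : Proj D) (hal : al ≤ 1) (H : CNum N n Lr al)
    (h3 : 0 < N.eps3) (h4 : 0 < N.eps4) (hk : 0 < N.kap)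
    (hnum : 8 * N.eps3 * (n * (Real.log (1 / al) + 1) + 1) ≤ Lr * N.eps4 / 2) (hU : UpdOk D Up K J) (hJ : 0 ≤ J)
    (hB : Birth D K Lam) : nfall (v2 D Up N n Lr) K + ntpr (v2 D Up N n Lr) K ≤ M2c N n Lr Lam J :=
  add_le_add (nfall_fin T P H hB) (ntpr_fin T P hal H h3 h4 hk hnum hU hJ hB)

theorem nnew_fin [DecidableEq φ] (T : D.Thick al) (P : Proj D) (hal : al ≤ 1) (H : CNum N n Lr al)
    (h3 : 0 < N.eps3) (h4 : 0 < N.eps4) (hk : 0 < N.kap)
    (hnum : 8 * N.eps3 * (n * (Real.log (1 / al) + 1) + 1) ≤ Lr * N.eps4 / 2) (hU : UpdOk D Up K J) (hJ : 0 ≤ J)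
    (hB : Birth D K Lam) : AL.nnew (v2 D Up N n Lr).prc K ≤ M2c N n Lr Lam J :=
  AL.nnew_le.trans (new_fin T P hal H h3 h4 hk hnum hU hJ hB)

theorem epo_fin [DecidableEq φ] (T : D.Thick al) (P : Proj D) (hal : al ≤ 1) (H : CNum N n Lr al)
    (h3 : 0 < N.eps3) (h4 : 0 < N.eps4) (hk : 0 < N.kap)
    (hnum : 8 * N.eps3 * (n * (Real.log (1 / al) + 1) + 1) ≤ Lr * N.eps4 / 2) (hU : UpdOk D Up K J) (hJ : 0 ≤ J)
    (hB : Birth D K Lam) :
    ∑ s ∈ range K, E3 (fun x b c => ind (((v2 D Up N n Lr).ep (s + 1) x b c).t0 = s + 1)) ≤ M2c N n Lr Lam J :=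
  nnew_fin T P hal H h3 h4 hk hnum hU hJ hB

/-- number of the starts of epochs, the time 0 included -/
theorem epo0_fin [DecidableEq φ] (T : D.Thick al) (P : Proj D) (hal : al ≤ 1) (H : CNum N n Lr al)
    (h3 : 0 < N.eps3) (h4 : 0 < N.eps4) (hk : 0 < N.kap)
    (hnum : 8 * N.eps3 * (n * (Real.log (1 / al) + 1) + 1) ≤ Lr * N.eps4 / 2) (hU : UpdOk D Up K J) (hJ : 0 ≤ J)
    (hB : Birth D K Lam) :
    ∑ s ∈ range (K + 1), E3 (fun x b c => ind (((v2 D Up N n Lr).ep s x b c).t0 = s)) ≤ 1 + M2c N n Lr Lam J := by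
  rw [Finset.sum_range_succ', add_comm (1 : ℝ)]
  exact add_le_add (epo_fin T P hal H h3 h4 hk hnum hU hJ hB) (St.E3_le_one fun _ _ _ => ind_le_one _)

/-- sub-epochs of the first system -/
theorem sub_f [DecidableEq φ] (T : D.Thick al) (P : Proj D) (hal : al ≤ 1) (H : CNum N n Lr al)
    (h3 : 0 < N.eps3) (h4 : 0 < N.eps4) (hk : 0 < N.kap)
    (hnum : 8 * N.eps3 * (n * (Real.log (1 / al) + 1) + 1) ≤ Lr * N.eps4 / 2) (hU : UpdOk D Up K J) (hJ : 0 ≤ J)
    (hB : Birth D K Lam) {q : ℝ} (hq : 0 < q) (hq2 : q ≤ 2) :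
    ∑ σ ∈ range (K + 1), E3 (fun x b c => ind ((v2 D Up N n Lr).prc.sb q σ x b c = σ)) ≤
      1 + (1 + 24 / q) * M2c N n Lr Lam J := by
  have h := Prc.starts_le (P := (v2 D Up N n Lr).prc) (K := K) hq hq2
  have h5 : (0 : ℝ) ≤ 1 + 24 / q := by positivity
  have h6 := epo_fin (Up := Up) T P hal H h3 h4 hk hnum hU hJ hB
  have h7 : ∑ s ∈ range K, E3 (fun x b c => ind (((v2 D Up N n Lr).prc.ep (s + 1) x b c).t0 = s + 1)) ≤
      M2c N n Lr Lam J := h6
  linarith [mul_le_mul_of_nonneg_left h7 h5]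

/-- sub-epochs of the second system -/
theorem sub_g [DecidableEq φ] (T : D.Thick al) (P : Proj D) (hal : al ≤ 1) (H : CNum N n Lr al)
    (h3 : 0 < N.eps3) (h4 : 0 < N.eps4) (hk : 0 < N.kap)
    (hnum : 8 * N.eps3 * (n * (Real.log (1 / al) + 1) + 1) ≤ Lr * N.eps4 / 2) (hU : UpdOk D Up K J) (hJ : 0 ≤ J)
    (hB : Birth D K Lam) {q : ℝ} (hq : 0 < q) (hq2 : q ≤ 2) :
    ∑ σ ∈ range (K + 1), E3 (fun x c b => ind ((v2 D Up N n Lr).prc.swap.sb q σ x c b = σ)) ≤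
      1 + (1 + 24 / q) * M2c N n Lr Lam J := by
  have h := Prc.starts_le (P := (v2 D Up N n Lr).prc.swap) (K := K) hq hq2
  have h5 : (0 : ℝ) ≤ 1 + 24 / q := by positivity
  have h6 := epo_fin (Up := Up) T P hal H h3 h4 hk hnum hU hJ hB
  have h7 : ∑ s ∈ range K, E3 (fun x c b => ind (((v2 D Up N n Lr).prc.swap.ep (s + 1) x c b).t0 = s + 1)) ≤
      M2c N n Lr Lam J := by
    refine le_trans (le_of_eq ?_) h6
    refine Finset.sum_congr rfl fun s _ => ?_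
    exact AL.E3_swap (fun x b c => ind (((v2 D Up N n Lr).ep (s + 1) x b c).t0 = s + 1))
  linarith [mul_le_mul_of_nonneg_left h7 h5]

/-- the number of the big final cells -/
theorem big_fin [DecidableEq φ] (T : D.Thick al) (P : Proj D) (H : CNum N n Lr al) (hB : Birth D K Lam) {L0 : ℝ}
    (hL0 : 0 < L0) :
    ∑ s ∈ range K, E3 (fun x b c => ind (L0 < Real.log (((hcl (v2 D Up N n Lr) s x b c).card : ℝ) /
      ((v2 D Up N n Lr).U (s + 1) x b c).card))) ≤ 4 * n * Lam / L0 := by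
  rw [le_div_iff₀ hL0, mul_comm]
  exact (big_le (v2 D Up N n Lr) L0 K).trans (bits_le T P v2_tst v2_con H hB)

end

end Pool.Agent.M3.S3
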