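import Pool.Agent.M3.S3.Law
import Pool.Agent.M3.FPInfo

/-!
# M3.S3.DigB: the bias of the digit on the classes is paid by the bits (helper43)

For every refining public family of classes `V` (`RefCl D V`), halves `H t x b c` = points of `V t x b c` in the cell of `x`
of the time `t+1`, digits as in `Hyp3`:
* `DigB.half_card` : `2 |H| = |V| (1 + dg m)`, `m` = mean of the digit on `V`;
* `DigB.ent_pt` : `m^2/2 ≤` mean over `V` of `log 2 - log (|V|/|H|)`;
* `DigB.step` : one step; `DigB.dig_sum` :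
  `∑_(t<K) E3 m_t^2 ≤ 2 (∑_(t<K) E3 log (|H t|/|V (t+1)|) + E3 log (|cA 0|/|V 0|))`;
* `DigB.dig_sum0` : the same with `V 0 = cA 0` (no start term).
-/

set_option autoImplicit false
set_option linter.unusedSectionVars false

namespace Pool.Agent.M3.S3

open Finset Pool.Agent.PWZ Pool.Agent.M3

noncomputable section

namespace DigB

section one

variable {X : Type*}

theorem avg_cgr {s : Finset X} {f g : X → ℝ} (h : ∀ a ∈ s, f a = g a) : avg s f = avg s g := by
  unfold avg
  rw [sum_congr rfl h]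

theorem sum_eq_avg {s : Finset X} (hs : s.Nonempty) (f : X → ℝ) : ∑ a ∈ s, f a = s.card * avg s f := by
  have : (s.card : ℝ) ≠ 0 := by
    have := hs.card_pos
    positivity
  unfold avg
  field_simp

theorem abs_avg_le {s : Finset X} (hs : s.Nonempty) {d : X → ℝ} (hd : ∀ y, d y = 1 ∨ d y = -1) : |avg s d| ≤ 1 := by
  have h0 : (0 : ℝ) < s.card := by
    have := hs.card_pos
    positivity
  unfold avg
  rw [abs_div, abs_of_pos h0, div_le_one h0]
  calc |∑ a ∈ s, d a| ≤ ∑ a ∈ s, |d a| := abs_sum_le_sum_abs _ _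
    _ = ∑ a ∈ s, (1 : ℝ) := by
        refine sum_congr rfl fun a _ => ?_
        rcases hd a with h | h <;> rw [h] <;> norm_num
    _ = s.card := by rw [sum_const, nsmul_eq_mul, mul_one]

/-- number of points of the half -/
theorem half_card {V H : Finset X} (hV : V.Nonempty) {d : X → ℝ} (hd : ∀ y, d y = 1 ∨ d y = -1) {x : X}
    (hH : ∀ y, y ∈ H ↔ y ∈ V ∧ d y = d x) : 2 * (H.card : ℝ) = V.card * (1 + d x * avg V d) := by
  classical
  have e : H = V.filter fun y => d y = d x := by
    ext y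
    rw [hH, mem_filter]
  have h1 : ∑ y ∈ V, (1 + d x * d y) = ∑ y ∈ V, if d y = d x then (2 : ℝ) else 0 := by
    refine sum_congr rfl fun y _ => ?_
    rcases hd x with h | h <;> rcases hd y with h' | h' <;> rw [h, h'] <;> norm_num
  have h2 : ∑ y ∈ V, (if d y = d x then (2 : ℝ) else 0) = 2 * H.card := by
    rw [← sum_filter, ← e, sum_const, nsmul_eq_mul]
    ring
  have h3 : ∑ y ∈ V, (1 + d x * d y) = V.card * (1 + d x * avg V d) := by
    rw [sum_add_distrib, ← mul_sum, sum_eq_avg hV d, sum_const, nsmul_eq_mul]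
    ring
  rw [← h2, ← h1, h3]

/-- mean of a function of the digit -/
theorem avg_dig {V : Finset X} (hV : V.Nonempty) {d : X → ℝ} (hd : ∀ y, d y = 1 ∨ d y = -1) (f : ℝ → ℝ) :
    avg V (fun y => f (d y)) = (1 + avg V d) / 2 * f 1 + (1 - avg V d) / 2 * f (-1) := by
  have h1 : ∀ y ∈ V, f (d y) = (f 1 + f (-1)) / 2 + (f 1 - f (-1)) / 2 * d y := by
    intro y _
    rcases hd y with h | h <;> rw [h] <;> ring
  rw [avg_cgr h1, avg_add, avg_const hV, avg_smul]
  ring

/-- entropy of the digit on the class -/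
theorem ent_pt {V : Finset X} (hV : V.Nonempty) {d : X → ℝ} (hd : ∀ y, d y = 1 ∨ d y = -1) {H : X → Finset X}
    (hH : ∀ x ∈ V, ∀ y, y ∈ H x ↔ y ∈ V ∧ d y = d x) :
    avg V d ^ 2 / 2 ≤ avg V fun y => Real.log 2 - Real.log ((V.card : ℝ) / (H y).card) := by
  have hm := abs_avg_le hV hd
  have h0 : (0 : ℝ) < V.card := by
    have := hV.card_pos
    positivity
  have h1 : ∀ y ∈ V, Real.log 2 - Real.log ((V.card : ℝ) / (H y).card) = Real.log (1 + d y * avg V d) := by
    intro y hy
    have h2 := half_card hV hd (hH y hy)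
    have h3 : (0 : ℝ) < (H y).card := by
      have : (H y).Nonempty := ⟨y, (hH y hy y).2 ⟨hy, rfl⟩⟩
      have := this.card_pos
      positivity
    rw [← Real.log_div (by norm_num) (by positivity)]
    congr 1
    rw [div_div_eq_mul_div, h2]
    field_simp
  rw [avg_cgr h1, avg_dig hV hd (fun s => Real.log (1 + s * avg V d))]
  have h4 := FP.bin_pinsker (b := avg V d) (c := 0) hm (by norm_num)
  simp only [sub_zero, add_zero, div_one] at h4
  have h5 : Real.log (1 + -1 * avg V d) = Real.log (1 - avg V d) := by ring_nf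
  rw [one_mul, h5]
  exact h4

end one

variable {X β γ ι φ : Type*} [Fintype X] [Fintype β] [Fintype γ] [Fintype φ] {D : Dat X β γ ι φ}
  {V : ℕ → X → β → γ → Finset X} {dg : ℕ → X → ℝ} {H : ℕ → X → β → γ → Finset X}

/-- number of points of the next cell -/
theorem cell_card (hd : ∀ t x, dg t x = 1 ∨ dg t x = -1) {t : ℕ}
    (hc : ∀ x x', D.qa (t + 1) x = D.qa (t + 1) x' ↔ D.qa t x = D.qa t x' ∧ dg t x = dg t x')
    (hb : ∀ x, ∑ y ∈ D.cA t x, dg t y = 0) (x : X) : 2 * ((D.cA (t + 1) x).card : ℝ) = (D.cA t x).card := by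
  have h1 := half_card (V := D.cA t x) (H := D.cA (t + 1) x) ⟨x, D.self_cA t x⟩ (hd t) (x := x)
    (fun y => by rw [D.mem_cA, D.mem_cA, hc])
  have h2 : avg (D.cA t x) (dg t) = 0 := by
    unfold avg
    rw [hb, zero_div]
  rw [h1, h2, mul_zero, add_zero, mul_one]

/-- ONE STEP: bias, growth of the deficit, cost -/
theorem step (hV : RefCl D V) (hd : ∀ t x, dg t x = 1 ∨ dg t x = -1) {t : ℕ}
    (hc : ∀ x x', D.qa (t + 1) x = D.qa (t + 1) x' ↔ D.qa t x = D.qa t x' ∧ dg t x = dg t x')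
    (hb : ∀ x, ∑ y ∈ D.cA t x, dg t y = 0)
    (hH : ∀ x b c y, y ∈ H t x b c ↔ y ∈ V t x b c ∧ D.qa (t + 1) y = D.qa (t + 1) x) :
    E3 (fun x b c => avg (V t x b c) (dg t) ^ 2) / 2 +
      E3 (fun x b c => Real.log (((D.cA (t + 1) x).card : ℝ) / (V (t + 1) x b c).card)) ≤
      E3 (fun x b c => Real.log (((D.cA t x).card : ℝ) / (V t x b c).card)) +
      E3 (fun x b c => Real.log (((H t x b c).card : ℝ) / (V (t + 1) x b c).card)) := by
  have pc : ∀ {S : Finset X} {x : X}, x ∈ S → (0 : ℝ) < S.card := by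
    intro S x hx
    have := card_pos.2 ⟨x, hx⟩
    positivity
  have hHx : ∀ x b c, x ∈ H t x b c := fun x b c => (hH x b c x).2 ⟨hV.self t x b c, rfl⟩
  have h1 : E3 (fun x b c => avg (V t x b c) (dg t) ^ 2) / 2 ≤
      E3 (fun x b c => Real.log 2 - Real.log (((V t x b c).card : ℝ) / (H t x b c).card)) := by
    rw [E3_mean (hV.pv t) (fun x b c => Real.log 2 - Real.log (((V t x b c).card : ℝ) / (H t x b c).card))]
    have h2 : E3 (fun x b c => avg (V t x b c) (dg t) ^ 2) / 2 =
        E3 (fun x b c => (1 / 2) * avg (V t x b c) (dg t) ^ 2) := by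
      rw [E3_smul]
      ring
    rw [h2]
    refine E3_mono fun x b c => ?_
    have h3 := ent_pt (V := V t x b c) ⟨x, hV.self t x b c⟩ (hd t) (H := fun y => H t y b c) (by
      intro y hy z
      have h4 : V t y b c = V t x b c := hV.pub t x b c y b c
        ⟨(D.mem_cA.1 (hV.cell t x b c hy)).symm, rfl, rfl⟩ hy
      rw [hH, h4, hc]
      constructor
      · rintro ⟨h5, -, h6⟩
        exact ⟨h5, h6⟩
      · rintro ⟨h5, h6⟩
        refine ⟨h5, ?_, h6⟩
        rw [D.mem_cA.1 (hV.cell t x b c h5), D.mem_cA.1 (hV.cell t x b c hy)])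
    have h6 : avg (V t x b c) (fun y => Real.log 2 - Real.log (((V t x b c).card : ℝ) / (H t y b c).card)) =
        avg (V t x b c) (fun y => Real.log 2 - Real.log (((V t y b c).card : ℝ) / (H t y b c).card)) := by
      refine avg_cgr fun y hy => ?_
      rw [hV.pub t x b c y b c ⟨(D.mem_cA.1 (hV.cell t x b c hy)).symm, rfl, rfl⟩ hy]
    rw [← h6]
    linarith [h3]
  have h7 : E3 (fun x b c => Real.log 2 - Real.log (((V t x b c).card : ℝ) / (H t x b c).card)) +
      E3 (fun x b c => Real.log (((D.cA (t + 1) x).card : ℝ) / (V (t + 1) x b c).card)) =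
      E3 (fun x b c => Real.log (((D.cA t x).card : ℝ) / (V t x b c).card)) +
      E3 (fun x b c => Real.log (((H t x b c).card : ℝ) / (V (t + 1) x b c).card)) := by
    rw [← E3_add, ← E3_add]
    congr 1
    funext x b c
    have p1 := pc (D.self_cA t x)
    have p2 := pc (D.self_cA (t + 1) x)
    have p3 := pc (hV.self t x b c)
    have p4 := pc (hV.self (t + 1) x b c)
    have p5 := pc (hHx x b c)
    have e := cell_card hd hc hb x
    rw [← e, Real.log_div p3.ne' p5.ne', Real.log_div p2.ne' p4.ne', Real.log_div (by positivity) p3.ne',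
      Real.log_div p5.ne' p4.ne', Real.log_mul (by norm_num) p2.ne']
    ring
  linarith

/-- THE BIAS OF THE DIGITS IS PAID BY THE BITS -/
theorem dig_sum (hV : RefCl D V) (hd : ∀ t x, dg t x = 1 ∨ dg t x = -1) {K : ℕ}
    (hc : ∀ t < K, ∀ x x', D.qa (t + 1) x = D.qa (t + 1) x' ↔ D.qa t x = D.qa t x' ∧ dg t x = dg t x')
    (hb : ∀ t < K, ∀ x, ∑ y ∈ D.cA t x, dg t y = 0)
    (hH : ∀ t < K, ∀ x b c y, y ∈ H t x b c ↔ y ∈ V t x b c ∧ D.qa (t + 1) y = D.qa (t + 1) x) :
    ∑ t ∈ range K, E3 (fun x b c => avg (V t x b c) (dg t) ^ 2) ≤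
      2 * (∑ t ∈ range K, E3 (fun x b c => Real.log (((H t x b c).card : ℝ) / (V (t + 1) x b c).card)) +
        E3 (fun x b c => Real.log (((D.cA 0 x).card : ℝ) / (V 0 x b c).card))) := by
  have key : ∀ k ≤ K, (∑ t ∈ range k, E3 (fun x b c => avg (V t x b c) (dg t) ^ 2)) / 2 +
      E3 (fun x b c => Real.log (((D.cA k x).card : ℝ) / (V k x b c).card)) ≤
      ∑ t ∈ range k, E3 (fun x b c => Real.log (((H t x b c).card : ℝ) / (V (t + 1) x b c).card)) +
        E3 (fun x b c => Real.log (((D.cA 0 x).card : ℝ) / (V 0 x b c).card)) := by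
    intro k
    induction k with
    | zero => intro _; simp
    | succ k ih =>
      intro hk
      have h1 := ih (by omega)
      have h2 := step (H := H) hV hd (hc k (by omega)) (hb k (by omega)) (hH k (by omega))
      rw [sum_range_succ, sum_range_succ, add_div]
      linarith
  have h1 := key K le_rfl
  have h2 : 0 ≤ E3 (fun x b c => Real.log (((D.cA K x).card : ℝ) / (V K x b c).card)) := by
    refine E3_nonneg fun x b c => Real.log_nonneg ?_
    have p : (0 : ℝ) < (V K x b c).card := by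
      have := card_pos.2 ⟨x, hV.self K x b c⟩
      positivity
    rw [le_div_iff₀ p, one_mul]
    exact_mod_cast card_le_card (hV.cell K x b c)
  linarith

/-- the same without start term -/
theorem dig_sum0 (hV : RefCl D V) (h0 : ∀ x b c, V 0 x b c = D.cA 0 x) (hd : ∀ t x, dg t x = 1 ∨ dg t x = -1) {K : ℕ}
    (hc : ∀ t < K, ∀ x x', D.qa (t + 1) x = D.qa (t + 1) x' ↔ D.qa t x = D.qa t x' ∧ dg t x = dg t x')
    (hb : ∀ t < K, ∀ x, ∑ y ∈ D.cA t x, dg t y = 0)
    (hH : ∀ t < K, ∀ x b c y, y ∈ H t x b c ↔ y ∈ V t x b c ∧ D.qa (t + 1) y = D.qa (t + 1) x) :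
    ∑ t ∈ range K, E3 (fun x b c => avg (V t x b c) (dg t) ^ 2) ≤
      2 * ∑ t ∈ range K, E3 (fun x b c => Real.log (((H t x b c).card : ℝ) / (V (t + 1) x b c).card)) := by
  have h1 := dig_sum (H := H) hV hd hc hb hH
  have h2 : E3 (fun x b c => Real.log (((D.cA 0 x).card : ℝ) / (V 0 x b c).card)) = 0 := by
    have h3 : E3 (fun x b c => Real.log (((D.cA 0 x).card : ℝ) / (V 0 x b c).card)) =
        E3 (fun (_ : X) (_ : β) (_ : γ) => (0 : ℝ) * 0) := by
      congr 1
      funext x b c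
      have p : (0 : ℝ) < (D.cA 0 x).card := by
        have := card_pos.2 ⟨x, D.self_cA 0 x⟩
        positivity
      rw [h0, div_self p.ne', Real.log_one, mul_zero]
    rw [h3, E3_smul (0 : ℝ) (fun (_ : X) (_ : β) (_ : γ) => (0 : ℝ)), zero_mul]
  linarith

end DigB

end

end Pool.Agent.M3.S3
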