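import Pool.Agent.M3.S3.SynF
import Pool.Agent.M3.S3.DigB

/-!
# M3.S3.ConM: the items `m2`, `x2`, `y2` of `Concl3` for every refining public family (helper43), for both routes

* `mS_eq` : `mS T hV dg t w = avg (V t x b c) (dg t)` on the support; `E_m3` : `E m3^2 = E3 (avg (V t) (dg t))^2`;
* `m2_le` : `∑ E m3^2 ≤ 2 (bits + start)`; `m2_le0` : without start term;
* `x2_le`, `y2_le` : `∑ E (x3 - m3)^2 ≤ 4 Lam`, `∑ E (y3 - m3)^2 ≤ 4 Lam`;
* `concl3_of` : `Concl3` from `RefCl`, bits and `syn`.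
-/

set_option autoImplicit false
set_option linter.unusedSectionVars false

namespace Pool.Agent.M3.S3

open Finset Pool.Agent.PWZ Pool.Agent.M3

noncomputable section

theorem card_pc {α : Type*} {S : Finset α} {x : α} (hx : x ∈ S) : (0 : ℝ) < S.card := by
  have := card_pos.2 ⟨x, hx⟩
  positivity

section gen

variable {X β γ φ : Type*} [Fintype X] [Fintype β] [Fintype γ] [Fintype φ] [Nonempty X] [Nonempty β] [Nonempty γ]

/-- conditional mean of a function of the hidden point in a box -/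
theorem ce_box (k : KP X β γ φ) (N : Bx X β γ) (d : X → ℝ) (w : Sp X β γ φ) :
    k.P.ce N.map (fun v => d v.1) w = avg (N.V w.1 w.2.1 w.2.2.1) d := by
  have p1 := card_pc (N.sV w.1 w.2.1 w.2.2.1)
  have p2 := card_pc (N.sB w.1 w.2.1 w.2.2.1)
  have p3 := card_pc (N.sC w.1 w.2.1 w.2.2.1)
  have hM := MM_pos (X := X) (β := β) (γ := γ)
  have e1 : k.P.E (fun v => ind (N.map v = N.map w) * d v.1) =
      (∑ x ∈ N.V w.1 w.2.1 w.2.2.1, d x) * ((N.B w.1 w.2.1 w.2.2.1).card * (N.C w.1 w.2.1 w.2.2.1).card) /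
        MM X β γ := by
    have h1 : k.P.E (fun v => ind (N.map v = N.map w) * d v.1) = k.P.E (fun v => ind (v.1 ∈ N.V w.1 w.2.1 w.2.2.1 ∧
        v.2.1 ∈ N.B w.1 w.2.1 w.2.2.1 ∧ v.2.2.1 ∈ N.C w.1 w.2.1 w.2.2.1) * d v.1) := by
      refine k.P.E_congr fun v _ => ?_
      rw [show (N.map v = N.map w) = _ from propext N.map_eq]
    rw [h1, k.E_in, MM]
    congr 1
    have h2 : ∀ x b c, (∑ F, ∑ G, k.f x b c F * k.g x b c G * d x) = d x := by
      intro x b c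
      have h3 : ∀ F, (∑ G, k.f x b c F * k.g x b c G * d x) = k.f x b c F * d x := by
        intro F
        rw [← Finset.sum_mul, ← Finset.mul_sum, k.g_one, mul_one]
      rw [Finset.sum_congr rfl fun F _ => h3 F, ← Finset.sum_mul, k.f_one, one_mul]
    rw [Finset.sum_mul]
    refine Finset.sum_congr rfl fun x _ => ?_
    rw [Finset.sum_congr rfl fun b _ => Finset.sum_congr rfl fun c _ => h2 x b c]
    simp only [Finset.sum_const, nsmul_eq_mul]
    ring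
  have e2 := m_N (k := k) (N := N) w
  have e3 : k.P.ce N.map (fun v => d v.1) w = k.P.E (fun v => ind (N.map v = N.map w) * d v.1) / k.P.m N.map w := rfl
  rw [e3, e1, e2]
  unfold avg
  field_simp

end gen

variable {X β γ ι φ : Type} [Fintype X] [Fintype β] [Fintype γ] [Fintype φ] [Nonempty X] [Nonempty β] [Nonempty γ]
  {D : Dat X β γ ι φ} {V : ℕ → X → β → γ → Finset X} {al : ℝ}

theorem mS_eq (T : D.Thick al) (hV : RefCl D V) (dg : ℕ → X → ℝ) (t : ℕ) (w : Sp X β γ φ) :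
    mS T hV dg t w = avg (V t w.1 w.2.1 w.2.2.1) (dg t) :=
  ce_box (D.kp T t) (bxU hV t) (dg t) w

theorem E_m3 (T : D.Thick al) (hV : RefCl D V) (dg : ℕ → X → ℝ) (t : ℕ) :
    (D.kp T t).P.E (fun w => m3 T dg V t w ^ 2) = E3 fun x b c => avg (V t x b c) (dg t) ^ 2 := by
  rw [← (D.kp T t).E_pts (fun x b c => avg (V t x b c) (dg t) ^ 2)]
  refine (D.kp T t).P.E_congr fun w _ => ?_
  rw [m3_eq T hV, mS_eq]

theorem m2_le (T : D.Thick al) (hV : RefCl D V) {dg : ℕ → X → ℝ} {prf prg : ℕ → φ → φ} {K : ℕ} {Lam : ℝ}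
    (H : Hyp3 D dg prf prg al K Lam) :
    ∑ t ∈ range K, (D.kp T t).P.E (fun w => m3 T dg V t w ^ 2) ≤
      2 * (∑ t ∈ range K, E3 (fun x b c => Real.log (((hlf D V t x b c).card : ℝ) / (V (t + 1) x b c).card)) +
        E3 (fun x b c => Real.log (((D.cA 0 x).card : ℝ) / (V 0 x b c).card))) := by
  rw [Finset.sum_congr rfl fun t _ => E_m3 T hV dg t]
  exact DigB.dig_sum (H := hlf D V) hV H.dg_val H.dg_cell H.dg_bal (fun t _ x b c y => mem_hlf)

theorem m2_le0 (T : D.Thick al) (hV : RefCl D V) (h0 : ∀ x b c, V 0 x b c = D.cA 0 x) {dg : ℕ → X → ℝ}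
    {prf prg : ℕ → φ → φ} {K : ℕ} {Lam : ℝ} (H : Hyp3 D dg prf prg al K Lam) :
    ∑ t ∈ range K, (D.kp T t).P.E (fun w => m3 T dg V t w ^ 2) ≤
      2 * ∑ t ∈ range K, E3 (fun x b c => Real.log (((hlf D V t x b c).card : ℝ) / (V (t + 1) x b c).card)) := by
  rw [Finset.sum_congr rfl fun t _ => E_m3 T hV dg t]
  exact DigB.dig_sum0 (H := hlf D V) hV h0 H.dg_val H.dg_cell H.dg_bal (fun t _ x b c y => mem_hlf)

/-- the gain of the digit about a letter -/
theorem dig_gain (T : D.Thick al) (hV : RefCl D V) {dg : ℕ → X → ℝ} (hdg : ∀ t x, dg t x = 1 ∨ dg t x = -1) {t : ℕ}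
    (hcell : ∀ x x', D.qa (t + 1) x = D.qa (t + 1) x' ↔ D.qa t x = D.qa t x' ∧ dg t x = dg t x')
    {κ : Type*} (L : Sp X β γ φ → κ) :
    (D.kp T t).P.E (fun w => ((D.kp T t).P.ce (fun v => (L v, (bxU hV t).map v)) (fun v => dg t v.1) w -
      mS T hV dg t w) ^ 2) ≤ 2 * (D.kp T t).P.E ((D.kp T t).P.iota L (bxh hV t).map (bxU hV t).map) := by
  have h1 := (D.kp T t).P.I_digit_ge (D := fun v : Sp X β γ φ => dg t v.1) (fun w _ => hdg t w.1) L (bxU hV t).map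
  refine h1.trans (le_of_eq ?_)
  rw [← (D.kp T t).P.E_iota]
  congr 1
  refine (D.kp T t).P.E_congr fun w _ => ?_
  refine iota_swap_congr (D.kp T t).P L ?_ ?_ w
  · intro v w hvw
    simp only [Prod.mk.injEq] at hvw
    have h2 := Bx.map_eq.1 hvw.2
    exact Bx.map_eq.2 ⟨mem_hlf.2 ⟨h2.1, (hcell _ _).2 ⟨D.mem_cA.1 (hV.cell t _ _ _ h2.1), hvw.1⟩⟩, h2.2.1, h2.2.2⟩
  · intro v w hvw
    simp only [Prod.mk.injEq] at hvw
    have h2 := Bx.map_eq.1 hvw.1
    exact ((hcell _ _).1 (mem_hlf.1 h2.1).2).2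

theorem gain_parts (T : D.Thick al) (hV : RefCl D V) (t : ℕ) :
    (D.kp T t).P.E ((D.kp T t).P.iota xF (bxh hV t).map (bxU hV t).map) ≤ gainD T hV t ∧
    (D.kp T t).P.E ((D.kp T t).P.iota xG (bxh hV t).map (bxU hV t).map) ≤ gainD T hV t := by
  have okN : (bxU hV t).Ok (D.kp T t) := bxA_ok T hV t t t le_rfl le_rfl
  have h1 := HH_mono (T.f_nn t) (T.f_one t) (hV.pv t) (hlf_pv hV t) (fun x b c y hy => (mem_hlf.1 hy).1)
  have h2 := HH_mono (T.g_nn t) (T.g_one t) (hV.pv t) (hlf_pv hV t) (fun x b c y hy => (mem_hlf.1 hy).1)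
  have e1 := gain_F (D.kp T t) (bxh_sub hV t) okN (hlf_pv hV t) (hV.pv t)
  have e2 := gain_G (D.kp T t) (bxh_sub hV t) okN (hlf_pv hV t) (hV.pv t)
  have n1 : 0 ≤ (D.kp T t).P.E ((D.kp T t).P.iota xF (bxh hV t).map (bxU hV t).map) := by
    rw [e1]
    have : HH (D.kp T t).f (bxh hV t).V ≤ HH (D.kp T t).f (bxU hV t).V := h1
    linarith
  have n2 : 0 ≤ (D.kp T t).P.E ((D.kp T t).P.iota xG (bxh hV t).map (bxU hV t).map) := by
    rw [e2]
    have : HH (D.kp T t).g (bxh hV t).V ≤ HH (D.kp T t).g (bxU hV t).V := h2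
    linarith
  unfold gainD
  constructor <;> linarith

theorem sum_gainD_le (T : D.Thick al) (hV : RefCl D V) {K : ℕ} {Lam : ℝ} (hB : Birth D K Lam) :
    ∑ t ∈ range K, gainD T hV t ≤ 2 * Lam := by
  have h1 := gains_le T hV hB
  have h2 : 0 ≤ ∑ t ∈ range K, gainC T hV t := Finset.sum_nonneg fun t _ => gainC_nonneg T hV t
  linarith

theorem x2_le (T : D.Thick al) (hV : RefCl D V) {dg : ℕ → X → ℝ} {prf prg : ℕ → φ → φ} {K : ℕ} {Lam : ℝ}
    (H : Hyp3 D dg prf prg al K Lam) (hB : Birth D K Lam) :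
    ∑ t ∈ range K, (D.kp T t).P.E (fun w => (x3 T dg V t w - m3 T dg V t w) ^ 2) ≤ 4 * Lam := by
  have h1 : ∀ t ∈ range K, (D.kp T t).P.E (fun w => (x3 T dg V t w - m3 T dg V t w) ^ 2) ≤ 2 * gainD T hV t := by
    intro t ht
    have h2 := dig_gain T hV H.dg_val (H.dg_cell t (mem_range.1 ht)) (xF (β := β) (γ := γ) (X := X) (φ := φ))
    have h3 := (gain_parts T hV t).1
    have e : (D.kp T t).P.E (fun w => (x3 T dg V t w - m3 T dg V t w) ^ 2) =
        (D.kp T t).P.E (fun w => ((D.kp T t).P.ce (fun v => (xF v, (bxU hV t).map v)) (fun v => dg t v.1) w -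
      mS T hV dg t w) ^ 2) := by
      refine (D.kp T t).P.E_congr fun w _ => ?_
      rw [x3_eq T hV, m3_eq T hV]
    rw [e]
    linarith
  refine (Finset.sum_le_sum h1).trans ?_
  rw [← Finset.mul_sum]
  linarith [sum_gainD_le T hV hB]

theorem y2_le (T : D.Thick al) (hV : RefCl D V) {dg : ℕ → X → ℝ} {prf prg : ℕ → φ → φ} {K : ℕ} {Lam : ℝ}
    (H : Hyp3 D dg prf prg al K Lam) (hB : Birth D K Lam) :
    ∑ t ∈ range K, (D.kp T t).P.E (fun w => (y3 T dg V t w - m3 T dg V t w) ^ 2) ≤ 4 * Lam := by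
  have h1 : ∀ t ∈ range K, (D.kp T t).P.E (fun w => (y3 T dg V t w - m3 T dg V t w) ^ 2) ≤ 2 * gainD T hV t := by
    intro t ht
    have h2 := dig_gain T hV H.dg_val (H.dg_cell t (mem_range.1 ht)) (xG (β := β) (γ := γ) (X := X) (φ := φ))
    have h3 := (gain_parts T hV t).2
    have e : (D.kp T t).P.E (fun w => (y3 T dg V t w - m3 T dg V t w) ^ 2) =
        (D.kp T t).P.E (fun w => ((D.kp T t).P.ce (fun v => (xG v, (bxU hV t).map v)) (fun v => dg t v.1) w -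
      mS T hV dg t w) ^ 2) := by
      refine (D.kp T t).P.E_congr fun w _ => ?_
      rw [y3_eq T hV, m3_eq T hV]
    rw [e]
    linarith
  refine (Finset.sum_le_sum h1).trans ?_
  rw [← Finset.mul_sum]
  linarith [sum_gainD_le T hV hB]

/-- `Concl3` from the number of bits and `syn` -/
theorem concl3_of (T : D.Thick al) (hV : RefCl D V) (h0 : ∀ x b c, V 0 x b c = D.cA 0 x) {dg : ℕ → X → ℝ}
    {prf prg : ℕ → φ → φ} {K : ℕ} {Lam n κ : ℝ} (H : Hyp3 D dg prf prg al K Lam) (hB : Birth D K Lam) {C : ℕ}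
    (hC : 4 ≤ C)
    (hbits : 2 * ∑ t ∈ range K, E3 (fun x b c => Real.log (((hlf D V t x b c).card : ℝ) / (V (t + 1) x b c).card)) ≤
      (C : ℝ) * n * Lam ^ C)
    (hsyn : ∑ t ∈ range K, (D.kp T t).P.E (fun w => ind (|m3 T dg V t w| ≤ 1 / 2) *
      (z3 T dg V t w - poe (m3 T dg V t w) (x3 T dg V t w) (y3 T dg V t w)) ^ 2) ≤ (C : ℝ) * Lam ^ C * n ^ (-κ)) :
    Concl3 T dg K Lam n κ C V := by
  have hL : 0 ≤ Lam := zero_le_one.trans H.Lam1
  have hC' : (4 : ℝ) ≤ C := by exact_mod_cast hC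
  have h1 : 4 * Lam ≤ (C : ℝ) * Lam := mul_le_mul_of_nonneg_right hC' hL
  exact ⟨hV, (m2_le0 T hV h0 H).trans hbits, (x2_le T hV H hB).trans h1, (y2_le T hV H hB).trans h1, hsyn⟩

end

end Pool.Agent.M3.S3
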