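import Pool.Agent.M3.S3.CntOut

/-!
# M3.S3.Doob: means over refining classes and a pathwise maximal inequality (helper94)

* `POn S W` : the classes `W y` (`y ∈ S`) form a partition of `S`; `POn.avg_avg`;
* `nsq v = ∑ v^2`; `pyth` (Pythagoras), `nrm_avg_le` (the norm of a mean);
* `Yf m r = (2r - m)^2 + m^2`, `Yf_step`, `tel_path` : the pathwise form of Doob's `L^2` inequality with restarts;
* `E3_cls`, `E3_le_const`.
-/

set_option autoImplicit false
set_option linter.unusedSectionVars false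

namespace Pool.Agent.M3.S3

open Finset Pool.Agent.PWZ Pool.Agent.M3

variable {X κ : Type*}

/-- the classes `W y`, `y ∈ S`, form a partition of `S` -/
structure POn (S : Finset X) (W : X → Finset X) : Prop where
  self : ∀ y ∈ S, y ∈ W y
  sub : ∀ y ∈ S, W y ⊆ S
  pub : ∀ y ∈ S, ∀ z ∈ W y, W z = W y

theorem POn.fblk {S : Finset X} {W : X → Finset X} (h : POn S W) {y : X} (hy : y ∈ S) : fblk S W y = W y := by
  ext z
  rw [mem_fblk]
  constructor
  · rintro ⟨hz, he⟩
    rw [← he]
    exact h.self z hz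
  · intro hz
    exact ⟨h.sub y hy hz, h.pub y hy z hz⟩

theorem POn.avg_avg {S : Finset X} {W : X → Finset X} (h : POn S W) (g : X → ℝ) :
    avg S (fun y => avg (W y) g) = avg S g := by
  classical
  have h1 := sum_blk_mean S W g (fun _ => (1 : ℝ))
  simp only [mul_one] at h1
  have h2 : ∑ y ∈ S, avg (W y) g = ∑ y ∈ S, g y := by
    rw [h1]
    refine Finset.sum_congr rfl fun y hy => ?_
    rw [h.fblk hy]
  show (∑ y ∈ S, avg (W y) g) / (S.card : ℝ) = (∑ y ∈ S, g y) / (S.card : ℝ)
  rw [h2]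

variable [Fintype κ]

/-- sum of the squares -/
def nsq (v : κ → ℝ) : ℝ := ∑ q, v q ^ 2

theorem nsq_nonneg (v : κ → ℝ) : 0 ≤ nsq v := Finset.sum_nonneg fun _ _ => sq_nonneg _

theorem avg_congr' {s : Finset X} {f g : X → ℝ} (h : ∀ a ∈ s, f a = g a) : avg s f = avg s g := by
  unfold avg
  rw [Finset.sum_congr rfl h]

/-- PYTHAGORAS -/
theorem pyth {S : Finset X} {W : X → Finset X} (hS : S.Nonempty) (h : POn S W) (k : X → κ → ℝ) (v0 : κ → ℝ) :
    avg S (fun y => nsq (fun q => avg (W y) (fun z => k z q) - v0 q)) =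
      nsq (fun q => avg S (fun z => k z q) - v0 q) +
        avg S (fun y => nsq (fun q => avg (W y) (fun z => k z q) - avg S (fun z => k z q))) := by
  unfold nsq
  rw [avg_sum_comm, avg_sum_comm, ← Finset.sum_add_distrib]
  refine Finset.sum_congr rfl fun q _ => ?_
  set M : ℝ := avg S (fun z => k z q) with hM
  have h1 : ∀ y ∈ S, (avg (W y) (fun z => k z q) - v0 q) ^ 2 =
      (((M - v0 q) ^ 2 - 2 * (M - v0 q) * M) + (2 * (M - v0 q)) * avg (W y) (fun z => k z q)) +
        (avg (W y) (fun z => k z q) - M) ^ 2 := by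
    intro y _
    ring
  rw [avg_congr' h1, avg_add, avg_add, avg_const hS, avg_smul, h.avg_avg (fun z => k z q), ← hM]
  ring

/-- Jensen -/
theorem nsq_avg_le {S : Finset X} {W : X → Finset X} (hS : S.Nonempty) (h : POn S W) (k : X → κ → ℝ) (v0 : κ → ℝ) :
    nsq (fun q => avg S (fun z => k z q) - v0 q) ≤
      avg S (fun y => nsq (fun q => avg (W y) (fun z => k z q) - v0 q)) := by
  rw [pyth hS h k v0]
  have h1 : 0 ≤ avg S (fun y => nsq (fun q => avg (W y) (fun z => k z q) - avg S (fun z => k z q))) :=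
    div_nonneg (Finset.sum_nonneg fun _ _ => nsq_nonneg _) (Nat.cast_nonneg _)
  linarith

/-- the norm of a mean -/
theorem nrm_avg_le {S : Finset X} (v : X → κ → ℝ) :
    Real.sqrt (nsq (fun q => avg S (fun y => v y q))) ≤ avg S (fun y => Real.sqrt (nsq (v y))) := by
  set m : κ → ℝ := fun q => avg S (fun y => v y q) with hm
  set A : ℝ := Real.sqrt (nsq m) with hA
  have hR : 0 ≤ avg S (fun y => Real.sqrt (nsq (v y))) :=
    div_nonneg (Finset.sum_nonneg fun _ _ => Real.sqrt_nonneg _) (Nat.cast_nonneg _)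
  rcases (Real.sqrt_nonneg (nsq m)).eq_or_lt with h0 | h0
  · rw [hA, ← h0]
    exact hR
  · have h1 : A * A = nsq m := Real.mul_self_sqrt (nsq_nonneg m)
    have h2 : nsq m = avg S (fun y => ∑ q, m q * v y q) := by
      rw [avg_sum_comm]
      unfold nsq
      refine Finset.sum_congr rfl fun q _ => ?_
      rw [avg_smul, sq]
    have h3 : avg S (fun y => ∑ q, m q * v y q) ≤ avg S (fun y => A * Real.sqrt (nsq (v y))) := by
      refine avg_mono fun y _ => ?_
      exact Real.sum_mul_le_sqrt_mul_sqrt Finset.univ m (v y)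
    rw [avg_smul] at h3
    rw [← h2, ← h1] at h3
    exact le_of_mul_le_mul_left h3 h0

/-! ## the pathwise maximal inequality -/

/-- the potential -/
def Yf (m r : ℝ) : ℝ := (2 * r - m) ^ 2 + m ^ 2

theorem Yf_nonneg (m r : ℝ) : 0 ≤ Yf m r := by
  unfold Yf
  positivity

theorem Yf_ge (m r : ℝ) : m ^ 2 ≤ Yf m r := by
  unfold Yf
  nlinarith [sq_nonneg (2 * r - m)]

theorem Yf_step (m r r' : ℝ) :
    Yf (max m r') r' - Yf m r ≤ 4 * (r' ^ 2 - r ^ 2) - 4 * (m * (r' - r)) := by
  unfold Yf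
  rcases le_total m r' with h | h
  · rw [max_eq_right h]
    nlinarith [sq_nonneg (r' - m)]
  · rw [max_eq_left h]
    exact le_of_eq (by ring)

/-- telescoping with restarts -/
theorem tel_path {nw : ℕ → Prop} {A y y' : ℕ → ℝ} (h0 : y 0 = 0) (hnew : ∀ s, nw s → y (s + 1) = 0)
    (hold : ∀ s, ¬ nw s → A (s + 1) * y (s + 1) ≤ A s * y' s) (K : ℕ) :
    ∑ s ∈ range K, ind (nw s) * (A s * y' s) + A K * y K ≤ ∑ s ∈ range K, A s * (y' s - y s) := by
  induction K with
  | zero => simp [h0]
  | succ K ih =>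
    rw [Finset.sum_range_succ, Finset.sum_range_succ]
    by_cases h : nw K
    · rw [ind_of h, hnew K h]
      linarith
    · rw [ind_not h]
      have := hold K h
      linarith

/-! ## means over the product -/

theorem avg_le_const {T : Type*} {s : Finset T} {g : T → ℝ} {a : ℝ} (ha : 0 ≤ a) (hg : ∀ t ∈ s, g t ≤ a) :
    avg s g ≤ a := by
  rcases s.eq_empty_or_nonempty with h | h
  · subst h
    unfold avg
    simpa using ha
  · rw [← avg_const h a]
    exact avg_mono hg

section

variable {β γ : Type*} [Fintype X] [Fintype β] [Fintype γ]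

theorem E3_cls {V : X → β → γ → Finset X} (hV : PV V) {f w : X → β → γ → ℝ}
    (hw : ∀ x b c, ∀ y ∈ V x b c, w y b c = w x b c) :
    E3 (fun x b c => f x b c * w x b c) = E3 (fun x b c => avg (V x b c) (fun y => f y b c) * w x b c) := by
  rw [E3_eq, E3_eq]
  congr 1
  refine Finset.sum_congr rfl fun b _ => Finset.sum_congr rfl fun c _ => ?_
  exact (hV b c).sum_mean_mul (fun x => f x b c) (fun x => w x b c) (fun x x' hx => hw x b c x' hx)

theorem E3_le_const {f : X → β → γ → ℝ} {a : ℝ} (ha : 0 ≤ a) (h : ∀ x b c, f x b c ≤ a) : E3 f ≤ a :=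
  avg_le_const ha fun x _ => avg_le_const ha fun b _ => avg_le_const ha fun c _ => h x b c

end

end Pool.Agent.M3.S3
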