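import Pool.Agent.M3.S3.SumG
import Pool.Agent.M3.S3B.JumpL

/-!
# M3.S3.MK: the mutual information of the two labels in saturated states (helper6), for both routes

* `mi_cl` : `mi k V b c = ∑ F, law f F * klf (law of g given F) (law g)`;
* `mi_sat` : in a saturated thick state the mean over `c` of `mi k V b c` is at most `sg (log (1/al) + 1)`;
* `E_mi_le` : the mean of the mutual information of the boxes `N` is at most `sg (log (1/al) + 1)` if all boxes are saturated;
* `MK_le` : `M_K ≤ sg (log (1/al) + 1)` in the form of `sum_harm` / `syn_le`.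
-/

set_option autoImplicit false
set_option linter.unusedSectionVars false
set_option linter.unusedVariables false

namespace Pool.Agent.M3.S3

open Finset Pool.Agent.PWZ Pool.Agent.M3

noncomputable section

section static

variable {X β γ φ : Type*} [Fintype φ]

/-- mutual information of the labels of the pair `(b,c)` as a mean of relative entropies -/
theorem mi_cl (k : KP X β γ φ) {V : Finset X} (hV : V.Nonempty) (b : β) (c : γ) :
    mi k V b c = ∑ F, law V (fun x => k.f x b c) F *
      klf (RB.cl V (fun x => k.f x b c) (fun x => k.g x b c) F) (law V fun x => k.g x b c) := by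
  unfold mi
  refine Finset.sum_congr rfl fun F _ => ?_
  by_cases hF : law V (fun x => k.f x b c) F = 0
  · -- the letter has no mass
    rw [hF, zero_mul]
    refine Finset.sum_eq_zero fun G _ => ?_
    have h1 : ∀ x ∈ V, k.f x b c F = 0 := by
      have h2 : ∑ x ∈ V, k.f x b c F = 0 := by
        unfold law avg at hF
        rcases div_eq_zero_iff.1 hF with h | h
        · exact h
        · exact absurd (by exact_mod_cast h) hV.card_pos.ne'
      exact (Finset.sum_eq_zero_iff_of_nonneg fun x _ => k.f_nn x b c F).1 h2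
    have h2 : avg V (fun x => k.f x b c F * k.g x b c G) = 0 := by
      unfold avg
      rw [Finset.sum_eq_zero fun x hx => by rw [h1 x hx, zero_mul], zero_div]
    rw [h2, zero_mul]
  · unfold klf
    rw [Finset.mul_sum]
    refine Finset.sum_congr rfl fun G _ => ?_
    rw [← mul_assoc]
    unfold io
    rw [RB.cl_ratio]
    congr 1
    unfold RB.cl
    rw [mul_div_cancel₀ _ hF]

/-- in a saturated thick state the labels of `b` and of `c` are almost independent in the mean over `c` -/
theorem mi_sat {k : KP X β γ φ} {V : Finset X} (hV : V.Nonempty) {B : Finset β} {C : Finset γ} {b0 : β} {c0 : γ}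
    {sg al : ℝ} (hsg : 0 ≤ sg) (hal : 0 < al)
    (hthick : ∀ x ∈ V, ∀ x' ∈ V, ∀ b F, k.f x b c0 F ≠ 0 → al ≤ k.f x' b c0 F)
    (hsat : SatS k V B C b0 c0 sg) {b : β}
    (hf : ∀ c ∈ C, ∀ x, k.f x b c = k.f x b c0) (hg : ∀ c ∈ C, ∀ x, k.g x b c = k.g x b0 c) :
    avg C (fun c => mi k V b c) ≤ sg * (Real.log (1 / al) + 1) := by
  have e1 : avg C (fun c => mi k V b c) = avg C (fun c => ∑ F, law V (fun x => k.f x b c0) F *
      klf (RB.cl V (fun x => k.f x b c0) (fun x => k.g x b0 c) F) (law V fun x => k.g x b0 c)) := by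
    unfold avg
    congr 1
    refine Finset.sum_congr rfl fun c hc => ?_
    show mi k V b c = _
    rw [mi_cl k hV]
    simp only [hf c hc, hg c hc]
  have e2 : avg C (fun c => ∑ F, law V (fun x => k.f x b c0) F *
      klf (RB.cl V (fun x => k.f x b c0) (fun x => k.g x b0 c) F) (law V fun x => k.g x b0 c)) =
      ∑ F, law V (fun x => k.f x b c0) F * avg C (fun c =>
      klf (RB.cl V (fun x => k.f x b c0) (fun x => k.g x b0 c) F) (law V fun x => k.g x b0 c)) := by
    unfold avg
    rw [Finset.sum_comm, Finset.sum_div]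
    refine Finset.sum_congr rfl fun F _ => ?_
    rw [← Finset.mul_sum, mul_div_assoc]
  rw [e1, e2]
  have h1 : ∑ F, law V (fun x => k.f x b c0) F = 1 := law_sum hV fun x _ => k.f_one x b c0
  have hle1 : ∀ x F, k.f x b c0 F ≤ 1 := fun x F => by
    rw [← k.f_one x b c0]
    exact Finset.single_le_sum (f := fun F => k.f x b c0 F) (fun F _ => k.f_nn x b c0 F) (Finset.mem_univ F)
  calc ∑ F, law V (fun x => k.f x b c0) F * avg C (fun c =>
      klf (RB.cl V (fun x => k.f x b c0) (fun x => k.g x b0 c) F) (law V fun x => k.g x b0 c))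
      ≤ ∑ F, law V (fun x => k.f x b c0) F * (sg * (Real.log (1 / al) + 1)) := by
        refine Finset.sum_le_sum fun F _ => ?_
        have h0 : 0 ≤ law V (fun x => k.f x b c0) F := bd_law_nn (fun x F => k.f_nn x b c0 F) V F
        rcases h0.eq_or_lt with h2 | h2
        · rw [← h2, zero_mul, zero_mul]
        · refine mul_le_mul_of_nonneg_left ?_ h0
          have hex : ∃ x ∈ V, k.f x b c0 F ≠ 0 := by
            by_contra hcon
            push Not at hcon
            unfold law avg at h2
            rw [Finset.sum_eq_zero fun x hx => hcon x hx, zero_div] at h2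
            exact lt_irrefl _ h2
          obtain ⟨x, hx, hxF⟩ := hex
          have h3 : al ≤ law V (fun x => k.f x b c0) F := le_law hV fun x' hx' => hthick x hx x' hx' b F hxF
          exact JL.sat_letter hV (kf := fun x => k.f x b c0) (kg := fun x c => k.g x b0 c)
            (fun x _ F => k.f_nn x b c0 F) (fun x _ F => hle1 x F) (fun x _ c _ G => k.g_nn x b0 c G) hsg
            hsat.g hal h3
    _ = sg * (Real.log (1 / al) + 1) := by rw [← Finset.sum_mul, h1, one_mul]

end static

section boxes

variable {X β γ ι φ : Type*} [Fintype X] [Fintype β] [Fintype γ] [Fintype φ] [Nonempty X] [Nonempty β] [Nonempty γ]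

/-- the mean mutual information of saturated boxes -/
theorem E_mi_le {k : KP X β γ φ} {N : Bx X β γ} (hN : N.Ok k) (hP : PV N.V) {sg al : ℝ} (hsg : 0 ≤ sg) (hal : 0 < al)
    (hthick : ∀ x b c, ∀ y ∈ N.V x b c, ∀ y' ∈ N.V x b c, ∀ b' F, k.f y b' c F ≠ 0 → al ≤ k.f y' b' c F)
    (hsat : ∀ x b c, SatS k (N.V x b c) (N.B x b c) (N.C x b c) b c sg) :
    k.P.E (k.P.iota xF xG N.map) ≤ sg * (Real.log (1 / al) + 1) := by
  rw [E_eq_io k N hN, E_io k hP, E3_box N]
  have h1 : ∀ x b c, (avg (N.V x b c) fun x' => avg (N.B x b c) fun b' => avg (N.C x b c) fun c' =>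
      mi k (N.V x' b' c') b' c') ≤ sg * (Real.log (1 / al) + 1) := by
    intro x b c
    have hVn : (N.V x b c).Nonempty := ⟨x, N.sV x b c⟩
    have hBn : (N.B x b c).Nonempty := ⟨b, N.sB x b c⟩
    have hC0 : ((N.C x b c).card : ℝ) ≠ 0 := by exact_mod_cast (Finset.card_pos.2 ⟨c, N.sC x b c⟩).ne'
    have h2 : ∀ x' ∈ N.V x b c, ∀ b' ∈ N.B x b c,
        (avg (N.C x b c) fun c' => mi k (N.V x' b' c') b' c') ≤ sg * (Real.log (1 / al) + 1) := by
      intro x' hx' b' hb'
      have e1 : (avg (N.C x b c) fun c' => mi k (N.V x' b' c') b' c') =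
          avg (N.C x b c) fun c' => mi k (N.V x b c) b' c' := by
        unfold avg
        congr 1
        refine Finset.sum_congr rfl fun c' hc' => ?_
        show mi k (N.V x' b' c') b' c' = mi k (N.V x b c) b' c'
        rw [(N.inv x b c x' b' c' hx' hb' hc').1]
      rw [e1]
      exact mi_sat hVn hsg hal (fun y hy y' hy' b'' F hF => hthick x b c y hy y' hy' b'' F hF) (hsat x b c)
        (fun c' hc' y => hN.f x b' c c' y (by
          have := (N.inv x b c x b' c (N.sV x b c) hb' (N.sC x b c)).2.2
          rw [this]; exact hc'))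
        (fun c' hc' y => hN.g x b b' c' y (by
          have := (N.inv x b c x b c' (N.sV x b c) (N.sB x b c) hc').2.1
          rw [this]; exact hb'))
    have h3 : ∀ x' ∈ N.V x b c, (avg (N.B x b c) fun b' => avg (N.C x b c) fun c' =>
        mi k (N.V x' b' c') b' c') ≤ sg * (Real.log (1 / al) + 1) := by
      intro x' hx'
      exact (avg_mono fun b' hb' => h2 x' hx' b' hb').trans (le_of_eq (avg_const hBn _))
    exact (avg_mono fun x' hx' => h3 x' hx').trans (le_of_eq (avg_const hVn _))
  calc _ ≤ E3 (fun (_ : X) (_ : β) (_ : γ) => sg * (Real.log (1 / al) + 1)) := E3_mono fun x b c => h1 x b c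
    _ = _ := E3_const _

variable {D : Dat X β γ ι φ} {V : ℕ → X → β → γ → Finset X} {al : ℝ}

/-- `M_K` -/
theorem MK_le (T : D.Thick al) (hV : RefCl D V) (K : ℕ) {sg : ℝ} (hsg : 0 ≤ sg)
    (hsat : ∀ x b c, SatS (D.kp T K) (V K x b c) (D.cB K b) (D.cC K c) b c sg) :
    (D.kp T K).P.E ((D.kp T K).P.iota xF xG (bxU hV K).map) ≤ sg * (Real.log (1 / al) + 1) := by
  refine E_mi_le (N := bxU hV K) (bxA_ok T hV K K K le_rfl le_rfl) ?_ hsg T.pos ?_ hsat
  · intro b c
    exact ⟨fun x => hV.self K x b c, fun x x' hx => hV.pub K x b c x' b c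
      ⟨(D.mem_cA.1 (hV.cell K x b c hx)).symm, rfl, rfl⟩ hx⟩
  · intro x b c y hy y' hy' b' F hF
    exact T.f_thick K y y' b' c F ((D.mem_cA.1 (hV.cell K x b c hy)).trans
      (D.mem_cA.1 (hV.cell K x b c hy')).symm) hF

end boxes

end

end Pool.Agent.M3.S3
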