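import Pool.Agent.M3.S3.SumG
import Pool.Agent.M3.S3.StaB

/-!
# M3.S3.StrA: the losses of THE SUM when the states are saturated (helper94)

`V` any refining family of public classes; `avg (V t x b c) (dg t)` = mean of the digit on the class.
* `ce_box`, `mS_eq` : the mean of the digit in the state is the mean over the class;
* `hlf_card` : size of the half step class; `tiny_bad`, `tiny_mass` : tiny half step classes occur only at bad digits and have
  mass at most `mu` there;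
* `lossD_le`, `lossC_le`, `lossT_le` : the three losses.
-/

set_option autoImplicit false
set_option linter.unusedSectionVars false
set_option linter.unusedVariables false

namespace Pool.Agent.M3.S3

open Finset Pool.Agent.PWZ Pool.Agent.M3

noncomputable section

section means

variable {X β γ φ : Type*} [Fintype X] [Fintype β] [Fintype γ] [Fintype φ] [Nonempty X] [Nonempty β] [Nonempty γ]

/-- mean of a function of the hidden point over a state -/
theorem ce_box (k : KP X β γ φ) (N : Bx X β γ) (h : X → ℝ) (w : Sp X β γ φ) :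
    k.P.ce N.map (fun v => h v.1) w = avg (N.V w.1 w.2.1 w.2.2.1) h := by
  have hM : MM X β γ ≠ 0 := MM_pos.ne'
  have hB : ((N.B w.1 w.2.1 w.2.2.1).card : ℝ) ≠ 0 := by
    exact_mod_cast (Finset.card_pos.2 ⟨_, N.sB w.1 w.2.1 w.2.2.1⟩).ne'
  have hC : ((N.C w.1 w.2.1 w.2.2.1).card : ℝ) ≠ 0 := by
    exact_mod_cast (Finset.card_pos.2 ⟨_, N.sC w.1 w.2.1 w.2.2.1⟩).ne'
  have hV : ((N.V w.1 w.2.1 w.2.2.1).card : ℝ) ≠ 0 := by
    exact_mod_cast (Finset.card_pos.2 ⟨_, N.sV w.1 w.2.1 w.2.2.1⟩).ne'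
  have e1 : k.P.E (fun v => ind (N.map v = N.map w) * h v.1) = k.P.E (fun v => ind (v.1 ∈ N.V w.1 w.2.1 w.2.2.1 ∧
      v.2.1 ∈ N.B w.1 w.2.1 w.2.2.1 ∧ v.2.2.1 ∈ N.C w.1 w.2.1 w.2.2.1) * h v.1) :=
    k.P.E_congr fun v _ => by
      rw [show (N.map v = N.map w) = (v.1 ∈ N.V w.1 w.2.1 w.2.2.1 ∧ v.2.1 ∈ N.B w.1 w.2.1 w.2.2.1 ∧
        v.2.2.1 ∈ N.C w.1 w.2.1 w.2.2.1) from propext N.map_eq]
  have e2 := k.E_in (N.V w.1 w.2.1 w.2.2.1) (N.B w.1 w.2.1 w.2.2.1) (N.C w.1 w.2.1 w.2.2.1) (fun v => h v.1)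
  show k.P.E (fun v => ind (N.map v = N.map w) * h v.1) / k.P.m N.map w = _
  rw [e1, e2, m_N]
  have e3 : (∑ x ∈ N.V w.1 w.2.1 w.2.2.1, ∑ b ∈ N.B w.1 w.2.1 w.2.2.1, ∑ c ∈ N.C w.1 w.2.1 w.2.2.1, ∑ F, ∑ G,
      k.f x b c F * k.g x b c G * h x) =
      ((N.B w.1 w.2.1 w.2.2.1).card * (N.C w.1 w.2.1 w.2.2.1).card) * ∑ x ∈ N.V w.1 w.2.1 w.2.2.1, h x := by
    rw [Finset.mul_sum]
    refine Finset.sum_congr rfl fun x _ => ?_
    simp only [← Finset.sum_mul, ← Finset.mul_sum, k.g_one, k.f_one, Finset.sum_const, nsmul_eq_mul, mul_one]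
  have e4 : (∑ x ∈ N.V w.1 w.2.1 w.2.2.1, ∑ b ∈ N.B w.1 w.2.1 w.2.2.1, ∑ c ∈ N.C w.1 w.2.1 w.2.2.1, ∑ F, ∑ G,
      k.f x b c F * k.g x b c G * (fun v : Sp X β γ φ => h v.1) (x, b, c, F, G)) = _ := e3
  rw [e4]
  unfold avg
  unfold MM at hM ⊢
  field_simp

end means

section half

variable {X β γ ι φ : Type*} [Fintype X] [Fintype β] [Fintype γ] [Fintype φ] {D : Dat X β γ ι φ}
  {V : ℕ → X → β → γ → Finset X}

/-- size of the half step class -/
theorem hlf_card (hV : RefCl D V) {dg : X → ℝ} {t : ℕ} (hdg : ∀ x, dg x = 1 ∨ dg x = -1)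
    (hcell : ∀ x x', D.qa (t + 1) x = D.qa (t + 1) x' ↔ D.qa t x = D.qa t x' ∧ dg x = dg x') (x : X) (b : β) (c : γ) :
    2 * ((hlf D V t x b c).card : ℝ) = (1 + dg x * avg (V t x b c) dg) * (V t x b c).card := by
  classical
  have hc : ((V t x b c).card : ℝ) ≠ 0 := by exact_mod_cast (Finset.card_pos.2 ⟨_, hV.self t x b c⟩).ne'
  have h1 : ((hlf D V t x b c).card : ℝ) = ∑ y ∈ V t x b c, if dg y = dg x then (1 : ℝ) else 0 := by
    rw [Finset.card_eq_sum_ones, Nat.cast_sum]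
    unfold hlf
    rw [Finset.sum_filter]
    refine Finset.sum_congr rfl fun y hy => ?_
    have h2 : D.qa t y = D.qa t x := D.mem_cA.1 (hV.cell t x b c hy)
    have h3 : D.qa (t + 1) y = D.qa (t + 1) x ↔ dg y = dg x := by
      rw [hcell]
      exact ⟨fun h => h.2, fun h => ⟨h2, h⟩⟩
    by_cases h4 : dg y = dg x
    · rw [if_pos h4, if_pos (h3.2 h4), Nat.cast_one]
    · rw [if_neg h4, if_neg (fun h => h4 (h3.1 h))]
  have h5 : ∀ y, 2 * (if dg y = dg x then (1 : ℝ) else 0) = 1 + dg x * dg y := by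
    intro y
    rcases hdg x with hx | hx <;> rcases hdg y with hy | hy <;> rw [hx, hy] <;> norm_num
  rw [h1, Finset.mul_sum, Finset.sum_congr rfl fun y _ => h5 y, Finset.sum_add_distrib, ← Finset.mul_sum]
  unfold avg
  rw [Finset.sum_const, nsmul_eq_mul, mul_one]
  field_simp

/-- a tiny half step class : the digit is bad -/
theorem tiny_bad (hV : RefCl D V) {dg : X → ℝ} {t : ℕ} (hdg : ∀ x, dg x = 1 ∨ dg x = -1)
    (hcell : ∀ x x', D.qa (t + 1) x = D.qa (t + 1) x' ↔ D.qa t x = D.qa t x' ∧ dg x = dg x') {mu : ℝ}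
    (hmu : mu ≤ 1 / 4) {x : X} {b : β} {c : γ} (h : ((hlf D V t x b c).card : ℝ) < mu * (V t x b c).card) :
    dg x * avg (V t x b c) dg < - (1 / 2) := by
  have hc : (0 : ℝ) < (V t x b c).card := by exact_mod_cast Finset.card_pos.2 ⟨_, hV.self t x b c⟩
  have h1 := hlf_card hV hdg hcell x b c
  have h2 : (1 + dg x * avg (V t x b c) dg) * (V t x b c).card < (2 * mu) * (V t x b c).card := by
    rw [← h1]; linarith
  have h3 := lt_of_mul_lt_mul_right h2 hc.le
  linarith

theorem tiny_bad' (hV : RefCl D V) {dg : X → ℝ} {t : ℕ} (hdg : ∀ x, dg x = 1 ∨ dg x = -1)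
    (hcell : ∀ x x', D.qa (t + 1) x = D.qa (t + 1) x' ↔ D.qa t x = D.qa t x' ∧ dg x = dg x') {mu : ℝ}
    (hmu : mu ≤ 1 / 4) {x : X} {b : β} {c : γ} (h : ((hlf D V t x b c).card : ℝ) < mu * (V t x b c).card) :
    1 / 2 < |avg (V t x b c) dg| := by
  have h1 := tiny_bad hV hdg hcell hmu h
  rcases hdg x with hx | hx
  · rw [hx, one_mul] at h1
    rw [lt_abs]
    right
    linarith
  · rw [hx] at h1
    rw [lt_abs]
    left
    linarith

/-- mass of the points of a class whose half step class is tiny -/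
theorem tiny_avg (hV : RefCl D V) {dg : X → ℝ} {t : ℕ} (hdg : ∀ x, dg x = 1 ∨ dg x = -1)
    (hcell : ∀ x x', D.qa (t + 1) x = D.qa (t + 1) x' ↔ D.qa t x = D.qa t x' ∧ dg x = dg x') {mu : ℝ}
    (hmu0 : 0 ≤ mu) (hmu : mu ≤ 1 / 4) (x : X) (b : β) (c : γ) :
    avg (V t x b c) (fun y => ind (((hlf D V t y b c).card : ℝ) < mu * (V t y b c).card)) ≤ mu := by
  classical
  have hc : (0 : ℝ) < (V t x b c).card := by exact_mod_cast Finset.card_pos.2 ⟨_, hV.self t x b c⟩
  have hinv : ∀ y ∈ V t x b c, V t y b c = V t x b c := fun y hy =>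
    (hV.pv t b c).pub x y hy
  by_cases hex : ∃ y ∈ V t x b c, ((hlf D V t y b c).card : ℝ) < mu * (V t y b c).card
  · obtain ⟨y, hy, hty⟩ := hex
    have hb := tiny_bad hV hdg hcell hmu hty
    rw [hinv y hy] at hb
    have h1 : avg (V t x b c) (fun z => ind (((hlf D V t z b c).card : ℝ) < mu * (V t z b c).card)) ≤
        ((hlf D V t y b c).card : ℝ) / (V t x b c).card := by
      unfold avg
      refine div_le_div_of_nonneg_right ?_ hc.le
      have h2 : ∀ z ∈ V t x b c, ind (((hlf D V t z b c).card : ℝ) < mu * (V t z b c).card) ≤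
          if D.qa (t + 1) z = D.qa (t + 1) y then (1 : ℝ) else 0 := by
        intro z hz
        by_cases htz : ((hlf D V t z b c).card : ℝ) < mu * (V t z b c).card
        · have hbz := tiny_bad hV hdg hcell hmu htz
          rw [hinv z hz] at hbz
          have h3 : dg z = dg y := by
            rcases hdg z with h4 | h4 <;> rcases hdg y with h5 | h5 <;> rw [h4] at hbz <;> rw [h5] at hb <;>
              first | (rw [h4, h5]; done) | (exfalso; linarith)
          have h6 : D.qa (t + 1) z = D.qa (t + 1) y := by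
            rw [hcell]
            exact ⟨(D.mem_cA.1 (hV.cell t x b c hz)).trans (D.mem_cA.1 (hV.cell t x b c hy)).symm, h3⟩
          rw [if_pos h6]
          exact ind_le_one _
        · rw [ind_not htz]
          split_ifs <;> norm_num
      refine (Finset.sum_le_sum h2).trans (le_of_eq ?_)
      rw [← Finset.sum_filter, Finset.sum_const, nsmul_eq_mul, mul_one]
      unfold hlf
      rw [hinv y hy]
    refine h1.trans ?_
    rw [div_le_iff₀ hc]
    rw [hinv y hy] at hty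
    exact hty.le
  · push Not at hex
    unfold avg
    rw [Finset.sum_eq_zero fun y hy => ind_not (not_lt.2 (hex y hy)), zero_div]
    exact hmu0

variable [Nonempty X] [Nonempty β] [Nonempty γ]

/-- mass of the tiny half step classes -/
theorem tiny_mass (hV : RefCl D V) {dg : X → ℝ} {t : ℕ} (hdg : ∀ x, dg x = 1 ∨ dg x = -1)
    (hcell : ∀ x x', D.qa (t + 1) x = D.qa (t + 1) x' ↔ D.qa t x = D.qa t x' ∧ dg x = dg x') {mu : ℝ}
    (hmu0 : 0 ≤ mu) (hmu : mu ≤ 1 / 4) :
    E3 (fun x b c => ind (1 / 2 < |avg (V t x b c) dg|) *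
      ind (((hlf D V t x b c).card : ℝ) < mu * (V t x b c).card)) ≤
      mu * E3 (fun x b c => ind (1 / 2 < |avg (V t x b c) dg|)) := by
  rw [E3_mean (hV.pv t), ← E3_smul]
  refine E3_mono fun x b c => ?_
  have h1 : avg (V t x b c) (fun y => ind (1 / 2 < |avg (V t y b c) dg|) *
      ind (((hlf D V t y b c).card : ℝ) < mu * (V t y b c).card)) =
      ind (1 / 2 < |avg (V t x b c) dg|) * avg (V t x b c) (fun y =>
        ind (((hlf D V t y b c).card : ℝ) < mu * (V t y b c).card)) := by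
    rw [← avg_smul_of]
    unfold avg
    congr 1
    refine Finset.sum_congr rfl fun y hy => ?_
    have h2 : V t y b c = V t x b c := (hV.pv t b c).pub x y hy
    simp only [h2]
  rw [h1, mul_comm mu]
  exact mul_le_mul_of_nonneg_left (tiny_avg hV hdg hcell hmu0 hmu x b c) (ind_nonneg _)

end half

section losses

variable {X β γ ι φ : Type*} [Fintype X] [Fintype β] [Fintype γ] [Fintype φ] [Nonempty X] [Nonempty β] [Nonempty γ]
  {D : Dat X β γ ι φ} {V : ℕ → X → β → γ → Finset X} {al : ℝ}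

theorem mS_eq (T : D.Thick al) (hV : RefCl D V) (dg : ℕ → X → ℝ) (t : ℕ) (w : Sp X β γ φ) :
    mS T hV dg t w = avg (V t w.1 w.2.1 w.2.2.1) (dg t) :=
  ce_box (D.kp T t) (bxU hV t) (dg t) w

theorem thk_of_cA (T : D.Thick al) (t : ℕ) {W : Finset X} {x : X} (hW : W ⊆ D.cA t x) : Thk (D.kp T t) W al where
  pos := T.pos
  f := fun y hy y' hy' b c F h => T.f_thick t y y' b c F
    ((D.mem_cA.1 (hW hy)).trans (D.mem_cA.1 (hW hy')).symm) h
  g := fun y hy y' hy' b c F h => T.g_thick t y y' b c F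
    ((D.mem_cA.1 (hW hy)).trans (D.mem_cA.1 (hW hy')).symm) h

theorem thick_al_le_one (T : D.Thick al) : al ≤ 1 := by
  obtain ⟨x⟩ := (inferInstance : Nonempty X)
  exact thk_le_one (thk_of_cA T 0 (Finset.Subset.refl (D.cA 0 x))) ⟨x, D.mem_cA.2 rfl⟩

theorem one_sub_ind_le (a : ℝ) : 1 - ind (a ≤ 1 / 2) = ind (1 / 2 < a) := by
  by_cases h : a ≤ 1 / 2
  · rw [ind_of h, ind_not (not_lt.2 h)]; norm_num
  · rw [ind_not h, ind_of (not_le.1 h)]; norm_num

/-- **(a) the loss at the bad digits** -/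
theorem lossD_le (T : D.Thick al) (hV : RefCl D V) {dg : ℕ → X → ℝ} {t : ℕ} (hdg : ∀ x, dg t x = 1 ∨ dg t x = -1)
    (hcell : ∀ x x', D.qa (t + 1) x = D.qa (t + 1) x' ↔ D.qa t x = D.qa t x' ∧ dg t x = dg t x')
    {mu sig B eta : ℝ} (hmu0 : 0 < mu) (hmu : mu ≤ 1 / 4) (hB : Real.exp 2 ≤ B) (h0 : 0 < eta)
    (hBe : 2 * Real.exp 1 ≤ B * eta) (hsig : 0 < sig)
    (hs : ∀ x b c, 1 / 2 < |avg (V t x b c) (dg t)| →
      SatS (D.kp T t) (V t x b c) (D.cB t b) (D.cC t c) b c sig) :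
    lossD T hV dg B (fun t w => ((hlf D V t w.1 w.2.1 w.2.2.1).card : ℝ) < mu * (V t w.1 w.2.1 w.2.2.1).card) t ≤
      Real.log (1 / al) * (eta * (2 / Real.log B) *
        (D.kp T t).P.E ((D.kp T t).P.iota xF (bxh hV t).map (bxU hV t).map)) +
      Real.log (1 / al) * (mu + Real.exp (Real.log (1 / mu) + 1 - eta / (2 * sig))) *
        E3 (fun x b c => ind (1 / 2 < |avg (V t x b c) (dg t)|)) := by
  have hal := T.pos
  have hal1 := thick_al_le_one T
  have hlog : 0 ≤ Real.log (1 / al) := Real.log_nonneg (by rw [le_div_iff₀ hal, one_mul]; exact hal1)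
  have hlB : 0 < Real.log B := Real.log_pos (lt_of_lt_of_le (Real.one_lt_exp_iff.2 (by norm_num)) hB)
  set P := (D.kp T t).P with hP
  set th : X → β → γ → ℝ := fun x b c => ind (1 / 2 < |avg (V t x b c) (dg t)|) with hth
  set Tb : X → β → γ → Prop := fun x b c => ((hlf D V t x b c).card : ℝ) < mu * (V t x b c).card with hTb
  have okN : (bxU hV t).Ok (D.kp T t) := bxA_ok T hV t t t le_rfl le_rfl
  have hVinv : ∀ x b c x' b' c', x' ∈ (bxU hV t).V x b c → b' ∈ (bxU hV t).B x b c → c' ∈ (bxU hV t).C x b c →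
      V t x' b' c' = V t x b c := fun x b c x' b' c' h1 h2 h3 => ((bxU hV t).inv x b c x' b' c' h1 h2 h3).1
  have key := strong_sat (k := D.kp T t) (N := bxU hV t) (Z := bxh hV t) okN (bxh_sub hV t) (al := al) (sig := sig)
    (Bd := B) (eta := eta) (L0 := Real.log (1 / mu)) (th := th) (T := Tb) (Tn := fun _ _ _ => False)
    (fun x b c => ind_nonneg _)
    (fun x b c x' b' c' h1 h2 h3 => by
      simp only [hth]
      rw [hVinv x b c x' b' c' h1 h2 h3])
    (fun x b c x' b' c' h1 h2 h3 => Iff.rfl)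
    (fun x b c x' b' c' h1 h2 h3 => by
      have hi := (bxh hV t).inv x b c x' b' c' h1 h2 h3
      have e1 : hlf D V t x' b' c' = hlf D V t x b c := hi.1
      have e2 : V t x' b' c' = V t x b c := hVinv x b c x' b' c' (mem_hlf.1 h1).1 h2 h3
      simp only [hTb]
      rw [e1, e2])
    (fun x b c h => h.elim)
    (fun x b c h1 _ => ⟨hs x b c (ind_ne h1), thk_of_cA T t (hV.cell t x b c)⟩)
    hal hal1 hB h0 hBe hsig
    (fun x b c h => by
      have h1 : Real.exp (-Real.log (1 / mu)) = mu := by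
        rw [one_div, Real.log_inv, neg_neg, Real.exp_log hmu0]
      rw [h1]
      exact not_lt.1 h)
  -- the weight
  have e0 : ∀ w : Sp X β γ φ, 1 - ind (|mS T hV dg t w| ≤ 1 / 2) = th w.1 w.2.1 w.2.2.1 := fun w => by
    rw [one_sub_ind_le, mS_eq]
  have e1 : lossD T hV dg B (fun t w => ((hlf D V t w.1 w.2.1 w.2.2.1).card : ℝ) <
      mu * (V t w.1 w.2.1 w.2.2.1).card) t =
      P.E (fun w => th w.1 w.2.1 w.2.2.1 * (ind (Tb w.1 w.2.1 w.2.2.1 ∨
      (B < P.rt xF (bxU hV t).map (bxh hV t).map w ((bxh hV t).map w) ∧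
        B < P.rt xG (bxU hV t).map (bxh hV t).map w ((bxh hV t).map w))) *
        P.iota xF xG (bxU hV t).map w)) :=
    P.E_congr fun w _ => by rw [e0 w]
  rw [e1]
  refine key.trans ?_
  -- the tiny part
  have t1 : P.E (fun w => th w.1 w.2.1 w.2.2.1 * (ind (Tb w.1 w.2.1 w.2.2.1) * P.iota xF xG (bxU hV t).map w)) ≤
      Real.log (1 / al) * (mu * E3 th) := by
    calc P.E (fun w => th w.1 w.2.1 w.2.2.1 * (ind (Tb w.1 w.2.1 w.2.2.1) * P.iota xF xG (bxU hV t).map w))
        ≤ P.E (fun w => Real.log (1 / al) * (th w.1 w.2.1 w.2.2.1 * ind (Tb w.1 w.2.1 w.2.2.1))) := by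
          refine P.E_mono fun w hw => ?_
          have h1 := iota_le_thk okN hw (thk_of_cA T t (hV.cell t w.1 w.2.1 w.2.2.1))
          have h2 : 0 ≤ th w.1 w.2.1 w.2.2.1 * ind (Tb w.1 w.2.1 w.2.2.1) := mul_nonneg (ind_nonneg _) (ind_nonneg _)
          nlinarith [mul_le_mul_of_nonneg_left h1 h2]
      _ = Real.log (1 / al) * E3 (fun x b c => th x b c * ind (Tb x b c)) := by
          rw [P.E_smul, hP, ← (D.kp T t).E_pts]
      _ ≤ Real.log (1 / al) * (mu * E3 th) :=
          mul_le_mul_of_nonneg_left (tiny_mass hV hdg hcell hmu0.le hmu) hlog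
  -- the gain
  have F1 : Fac (bxU hV t).map (fun w : Sp X β γ φ => 1 - th w.1 w.2.1 w.2.2.1) := by
    intro v w hvw
    obtain ⟨h1, h2, h3⟩ := Bx.map_eq.1 hvw
    simp only [hth]
    rw [hVinv _ _ _ _ _ _ h1 h2 h3]
  have t2 : P.E (fun w => th w.1 w.2.1 w.2.2.1 * P.iota xF (bxh hV t).map (bxU hV t).map w) ≤
      P.E (P.iota xF (bxh hV t).map (bxU hV t).map) := by
    have h1 := iota_w_nonneg P xF (bxh hV t).map F1 (fun w => by
      have := ind_le_one (1 / 2 < |avg (V t w.1 w.2.1 w.2.2.1) (dg t)|)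
      simp only [hth]; linarith)
    have h2 : P.E (P.iota xF (bxh hV t).map (bxU hV t).map) =
        P.E (fun w => th w.1 w.2.1 w.2.2.1 * P.iota xF (bxh hV t).map (bxU hV t).map w) +
        P.E (fun w => (1 - th w.1 w.2.1 w.2.2.1) * P.iota xF (bxh hV t).map (bxU hV t).map w) := by
      rw [← P.E_add]
      exact P.E_congr fun w _ => by ring
    linarith
  have t3 : E3 (fun x b c => th x b c * ind (2 * (((bxh hV t).V x b c).card : ℝ) ≤ ((bxU hV t).V x b c).card)) ≤
      E3 th := E3_mono fun x b c => by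
    have h1 := ind_le_one (2 * (((bxh hV t).V x b c).card : ℝ) ≤ ((bxU hV t).V x b c).card)
    have h2 : 0 ≤ th x b c := ind_nonneg _
    nlinarith
  have hq : 0 ≤ eta * (2 / Real.log B) := by positivity
  have hx : 0 ≤ Real.exp (Real.log (1 / mu) + 1 - eta / (2 * sig)) := (Real.exp_pos _).le
  have t4 := mul_le_mul_of_nonneg_left t2 hq
  have t5 := mul_le_mul_of_nonneg_left t3 hx
  have t6 := mul_le_mul_of_nonneg_left (add_le_add t4 t5) hlog
  have t7 := add_le_add t1 t6
  refine t7.trans (le_of_eq ?_)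
  ring

/-- **(b) the loss at the next classes** -/
theorem lossC_le (T : D.Thick al) (hV : RefCl D V) {t : ℕ} {mu sig B eta L0 del : ℝ}
    (hB : Real.exp 2 ≤ B) (h0 : 0 < eta) (hBe : 2 * Real.exp 1 ≤ B * eta) (hsig : 0 < sig)
    (hs : ∀ x b c, mu * ((V t x b c).card : ℝ) ≤ (hlf D V t x b c).card →
      SatS (D.kp T t) (hlf D V t x b c) (D.cB (t + 1) b) (D.cC (t + 1) c) b c sig) :
    lossC T hV (fun t w => ind (mu * ((V t w.1 w.2.1 w.2.2.1).card : ℝ) ≤ (hlf D V t w.1 w.2.1 w.2.2.1).card)) B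
      (fun t w => Real.exp L0 * ((V (t + 1) w.1 w.2.1 w.2.2.1).card : ℝ) ≤ (hlf D V t w.1 w.2.1 w.2.2.1).card) t ≤
      E3 (fun x b c => ind (mu * ((V t x b c).card : ℝ) ≤ (hlf D V t x b c).card) *
        (ind (Real.exp L0 * ((V (t + 1) x b c).card : ℝ) ≤ (hlf D V t x b c).card) *
          (del + Psi del (D.kp T t) (hlf D V t x b c) x b c))) +
      Real.log (1 / al) * (eta * (2 / Real.log B) *
        (D.kp T t).P.E ((D.kp T t).P.iota xF (bxU hV (t + 1)).map (bxH hV t).map) +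
        Real.exp (L0 + 1 - eta / (2 * sig)) *
          E3 (fun x b c => ind (2 * ((V (t + 1) x b c).card : ℝ) ≤ (hlf D V t x b c).card))) := by
  have hal := T.pos
  have hal1 := thick_al_le_one T
  have hlog : 0 ≤ Real.log (1 / al) := Real.log_nonneg (by rw [le_div_iff₀ hal, one_mul]; exact hal1)
  have hlB : 0 < Real.log B := Real.log_pos (lt_of_lt_of_le (Real.one_lt_exp_iff.2 (by norm_num)) hB)
  set P := (D.kp T t).P with hP
  set th : X → β → γ → ℝ := fun x b c => ind (mu * ((V t x b c).card : ℝ) ≤ (hlf D V t x b c).card) with hth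
  set Tc : X → β → γ → Prop := fun x b c =>
    Real.exp L0 * ((V (t + 1) x b c).card : ℝ) ≤ (hlf D V t x b c).card with hTc
  have okH : (bxH hV t).Ok (D.kp T t) := bxB_ok T hV t (t + 1) t (Nat.le_succ t) (Nat.le_succ t)
  have hHinv : ∀ x b c x' b' c', x' ∈ (bxH hV t).V x b c → b' ∈ (bxH hV t).B x b c → c' ∈ (bxH hV t).C x b c →
      hlf D V t x' b' c' = hlf D V t x b c := fun x b c x' b' c' h1 h2 h3 => ((bxH hV t).inv x b c x' b' c' h1 h2 h3).1
  have hVinv : ∀ x b c x' b' c', x' ∈ (bxH hV t).V x b c → b' ∈ (bxH hV t).B x b c → c' ∈ (bxH hV t).C x b c →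
      V t x' b' c' = V t x b c := fun x b c x' b' c' h1 h2 h3 =>
    ((bxA hV t (t + 1) (Nat.le_succ t)).inv x b c x' b' c' (mem_hlf.1 h1).1 h2 h3).1
  have hthi : ∀ x b c x' b' c', x' ∈ (bxH hV t).V x b c → b' ∈ (bxH hV t).B x b c → c' ∈ (bxH hV t).C x b c →
      th x' b' c' = th x b c := by
    intro x b c x' b' c' h1 h2 h3
    simp only [hth]
    rw [hHinv x b c x' b' c' h1 h2 h3, hVinv x b c x' b' c' h1 h2 h3]
  have key := strong_sat (k := D.kp T t) (N := bxH hV t) (Z := bxU hV (t + 1)) okH (bxU_sub hV t) (al := al) (sig := sig)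
    (Bd := B) (eta := eta) (L0 := L0) (th := th) (T := Tc) (Tn := fun _ _ _ => False)
    (fun x b c => ind_nonneg _) hthi
    (fun x b c x' b' c' h1 h2 h3 => Iff.rfl)
    (fun x b c x' b' c' h1 h2 h3 => by
      have e1 : V (t + 1) x' b' c' = V (t + 1) x b c := ((bxU hV (t + 1)).inv x b c x' b' c' h1 h2 h3).1
      have e2 : hlf D V t x' b' c' = hlf D V t x b c := hHinv x b c x' b' c' ((bxU_sub hV t).V x b c h1) h2 h3
      simp only [hTc]
      rw [e1, e2])
    (fun x b c h => h.elim)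
    (fun x b c h1 _ => ⟨hs x b c (ind_ne h1),
      thk_of_cA T t (fun y hy => hV.cell t x b c (mem_hlf.1 hy).1)⟩)
    hal hal1 hB h0 hBe hsig
    (fun x b c h => by
      have h1 : ((hlf D V t x b c).card : ℝ) < Real.exp L0 * (V (t + 1) x b c).card := not_le.1 h
      have h2 : Real.exp (-L0) * (hlf D V t x b c).card ≤ Real.exp (-L0) * (Real.exp L0 * (V (t + 1) x b c).card) :=
        mul_le_mul_of_nonneg_left h1.le (Real.exp_pos _).le
      rw [← mul_assoc, ← Real.exp_add, neg_add_cancel, Real.exp_zero, one_mul] at h2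
      exact h2)
  refine key.trans ?_
  -- the big cells
  have t1 : P.E (fun w => th w.1 w.2.1 w.2.2.1 * (ind (Tc w.1 w.2.1 w.2.2.1) * P.iota xF xG (bxH hV t).map w)) ≤
      E3 (fun x b c => th x b c * (ind (Tc x b c) * (del + Psi del (D.kp T t) (hlf D V t x b c) x b c))) := by
    rw [(D.kp T t).E_eq]
    refine E3_mono fun x b c => ?_
    have h1 : ∀ F G, (D.kp T t).P.iota xF xG (bxH hV t).map (x, b, c, F, G) ≤
        del + psi del (D.kp T t) (hlf D V t x b c) b c F G := by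
      intro F G
      rw [iota_FG _ okH]
      exact io_le_psi _ _ _ _ _ _ _
    calc ∑ F, ∑ G, (D.kp T t).f x b c F * (D.kp T t).g x b c G *
          (th x b c * (ind (Tc x b c) * P.iota xF xG (bxH hV t).map (x, b, c, F, G)))
        ≤ ∑ F, ∑ G, ((D.kp T t).f x b c F * (D.kp T t).g x b c G * (th x b c * ind (Tc x b c) * del) +
          th x b c * ind (Tc x b c) * ((D.kp T t).f x b c F * (D.kp T t).g x b c G *
            psi del (D.kp T t) (hlf D V t x b c) b c F G)) := by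
          refine Finset.sum_le_sum fun F _ => Finset.sum_le_sum fun G _ => ?_
          have h2 : 0 ≤ (D.kp T t).f x b c F * (D.kp T t).g x b c G * (th x b c * ind (Tc x b c)) :=
            mul_nonneg (mul_nonneg ((D.kp T t).f_nn _ _ _ _) ((D.kp T t).g_nn _ _ _ _))
              (mul_nonneg (ind_nonneg _) (ind_nonneg _))
          have h3 := mul_le_mul_of_nonneg_left (h1 F G) h2
          refine le_trans (le_of_eq ?_) (h3.trans (le_of_eq ?_))
          · rw [hP]; ring
          · ring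
      _ = th x b c * (ind (Tc x b c) * (del + Psi del (D.kp T t) (hlf D V t x b c) x b c)) := by
          simp only [Finset.sum_add_distrib]
          have h4 : ∑ F, ∑ G, (D.kp T t).f x b c F * (D.kp T t).g x b c G * (th x b c * ind (Tc x b c) * del) =
              th x b c * ind (Tc x b c) * del := by
            simp only [← Finset.sum_mul, ← Finset.mul_sum, (D.kp T t).g_one, mul_one, (D.kp T t).f_one, one_mul]
          rw [h4]
          unfold Psi
          simp only [← Finset.mul_sum]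
          ring
  -- the gain
  have F1 : Fac (bxH hV t).map (fun w : Sp X β γ φ => 1 - th w.1 w.2.1 w.2.2.1) := by
    intro v w hvw
    obtain ⟨h1, h2, h3⟩ := Bx.map_eq.1 hvw
    show 1 - th v.1 v.2.1 v.2.2.1 = 1 - th w.1 w.2.1 w.2.2.1
    rw [hthi _ _ _ _ _ _ h1 h2 h3]
  have t2 : P.E (fun w => th w.1 w.2.1 w.2.2.1 * P.iota xF (bxU hV (t + 1)).map (bxH hV t).map w) ≤
      P.E (P.iota xF (bxU hV (t + 1)).map (bxH hV t).map) := by
    have h1 := iota_w_nonneg P xF (bxU hV (t + 1)).map F1 (fun w => by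
      have := ind_le_one (mu * ((V t w.1 w.2.1 w.2.2.1).card : ℝ) ≤ (hlf D V t w.1 w.2.1 w.2.2.1).card)
      simp only [hth]; linarith)
    have h2 : P.E (P.iota xF (bxU hV (t + 1)).map (bxH hV t).map) =
        P.E (fun w => th w.1 w.2.1 w.2.2.1 * P.iota xF (bxU hV (t + 1)).map (bxH hV t).map w) +
        P.E (fun w => (1 - th w.1 w.2.1 w.2.2.1) * P.iota xF (bxU hV (t + 1)).map (bxH hV t).map w) := by
      rw [← P.E_add]
      exact P.E_congr fun w _ => by ring
    linarith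
  have t3 : E3 (fun x b c => th x b c *
      ind (2 * (((bxU hV (t + 1)).V x b c).card : ℝ) ≤ ((bxH hV t).V x b c).card)) ≤
      E3 (fun x b c => ind (2 * ((V (t + 1) x b c).card : ℝ) ≤ (hlf D V t x b c).card)) := E3_mono fun x b c => by
    have h1 : th x b c ≤ 1 := ind_le_one _
    have h2 : 0 ≤ ind (2 * ((V (t + 1) x b c).card : ℝ) ≤ (hlf D V t x b c).card) := ind_nonneg _
    show th x b c * ind (2 * ((V (t + 1) x b c).card : ℝ) ≤ (hlf D V t x b c).card) ≤
      ind (2 * ((V (t + 1) x b c).card : ℝ) ≤ (hlf D V t x b c).card)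
    nlinarith
  have hq : 0 ≤ eta * (2 / Real.log B) := by positivity
  have hx : 0 ≤ Real.exp (L0 + 1 - eta / (2 * sig)) := (Real.exp_pos _).le
  have t4 := mul_le_mul_of_nonneg_left t2 hq
  have t5 := mul_le_mul_of_nonneg_left t3 hx
  have t6 := mul_le_mul_of_nonneg_left (add_le_add t4 t5) hlog
  exact add_le_add t1 t6

/-- **(c) the loss at the tiny half step states** -/
theorem lossT_le (T : D.Thick al) (hV : RefCl D V) {dg : ℕ → X → ℝ} {t : ℕ} (hdg : ∀ x, dg t x = 1 ∨ dg t x = -1)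
    (hcell : ∀ x x', D.qa (t + 1) x = D.qa (t + 1) x' ↔ D.qa t x = D.qa t x' ∧ dg t x = dg t x')
    {mu : ℝ} (hmu0 : 0 ≤ mu) (hmu : mu ≤ 1 / 4) :
    lossT T hV (fun t w => ind (mu * ((V t w.1 w.2.1 w.2.2.1).card : ℝ) ≤ (hlf D V t w.1 w.2.1 w.2.2.1).card)) t ≤
      Real.log (1 / al) * (mu * E3 (fun x b c => ind (1 / 2 < |avg (V t x b c) (dg t)|))) := by
  have hal := T.pos
  have hal1 := thick_al_le_one T
  have hlog : 0 ≤ Real.log (1 / al) := Real.log_nonneg (by rw [le_div_iff₀ hal, one_mul]; exact hal1)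
  set P := (D.kp T t).P with hP
  have okH : (bxH hV t).Ok (D.kp T t) := bxB_ok T hV t (t + 1) t (Nat.le_succ t) (Nat.le_succ t)
  calc lossT T hV (fun t w => ind (mu * ((V t w.1 w.2.1 w.2.2.1).card : ℝ) ≤ (hlf D V t w.1 w.2.1 w.2.2.1).card)) t
      ≤ P.E (fun w => Real.log (1 / al) * (ind (1 / 2 < |avg (V t w.1 w.2.1 w.2.2.1) (dg t)|) *
        ind (((hlf D V t w.1 w.2.1 w.2.2.1).card : ℝ) < mu * (V t w.1 w.2.1 w.2.2.1).card))) := by
        refine P.E_mono fun w hw => ?_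
        have h1 := iota_le_thk okH hw (thk_of_cA T t (fun y hy => hV.cell t w.1 w.2.1 w.2.2.1 (mem_hlf.1 hy).1))
        beta_reduce
        by_cases h2 : ((hlf D V t w.1 w.2.1 w.2.2.1).card : ℝ) < mu * (V t w.1 w.2.1 w.2.2.1).card
        · rw [ind_not (not_le.2 h2), ind_of h2, ind_of (tiny_bad' hV hdg hcell hmu h2)]
          linarith
        · rw [ind_of (not_lt.1 h2), ind_not h2]
          linarith
    _ = Real.log (1 / al) * E3 (fun x b c => ind (1 / 2 < |avg (V t x b c) (dg t)|) *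
        ind (((hlf D V t x b c).card : ℝ) < mu * (V t x b c).card)) := by
        rw [P.E_smul, hP, ← (D.kp T t).E_pts]
    _ ≤ _ := mul_le_mul_of_nonneg_left (tiny_mass hV hdg hcell hmu0 hmu) hlog

end losses

section rule

variable {X β γ ι φ : Type*} [Fintype X] [Fintype β] [Fintype γ] [Fintype φ] {D : Dat X β γ ι φ}

/-- the half step class of the rule -/
theorem hlf_rule (R : Rl D) (s : ℕ) (x : X) (b : β) (c : γ) : hlf D R.U s x b c = hcl R s x b c := by
  ext y
  rw [mem_hlf, mem_hcl]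

end rule

end

end Pool.Agent.M3.S3
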