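import Pool.Agent.M3.S3.SumG
import Pool.Agent.M3.S3.Thm3

/-!
# M3.S3.SynF: from `sum_harm` to the conclusion `syn` of Theorem 3 (helper64), for both routes

`V` a refining family of public classes.
* `m3_eq`, `x3_eq`, `y3_eq`, `z3_eq` : the conditional means of `Thm3` in the form of `sum_harm`;
* `gain_F`, `gain_G` : the gains of a refinement = difference of entropies; `gains_le` : all gains `≤ 2 Lam`;
* `syn_le` : the sum of `Thm3` from the losses.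
-/

set_option autoImplicit false
set_option linter.unusedSectionVars false

namespace Pool.Agent.M3.S3

open Finset Pool.Agent.PWZ Pool.Agent.M3

noncomputable section

variable {X β γ ι φ : Type} [Fintype X] [Fintype β] [Fintype γ] [Fintype φ] [Nonempty X] [Nonempty β] [Nonempty γ]
  {D : Dat X β γ ι φ} {V : ℕ → X → β → γ → Finset X} {al : ℝ}

theorem fac_nd_bx (hV : RefCl D V) (t : ℕ) : Fac (nd D V t (φ := φ)) (bxU hV t).map := by
  intro v w h
  simp only [nd, Prod.mk.injEq] at h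
  refine Bx.map_eq.2 ⟨?_, D.mem_cB.2 h.2.1, D.mem_cC.2 h.2.2.1⟩
  show v.1 ∈ V t w.1 w.2.1 w.2.2.1
  rw [← h.2.2.2]
  exact hV.self t _ _ _

theorem fac_bx_nd (hV : RefCl D V) (t : ℕ) : Fac (bxU hV t).map (nd D V t (φ := φ)) := by
  intro v w h
  have h1 := Bx.map_eq.1 h
  have h2 : v.1 ∈ V t w.1 w.2.1 w.2.2.1 := h1.1
  have ha : D.qa t v.1 = D.qa t w.1 := D.mem_cA.1 (hV.cell t _ _ _ h2)
  have hb : D.qb t v.2.1 = D.qb t w.2.1 := D.mem_cB.1 h1.2.1
  have hc : D.qc t v.2.2.1 = D.qc t w.2.2.1 := D.mem_cC.1 h1.2.2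
  show (D.qa t v.1, D.qb t v.2.1, D.qc t v.2.2.1, V t v.1 v.2.1 v.2.2.1) =
    (D.qa t w.1, D.qb t w.2.1, D.qc t w.2.2.1, V t w.1 w.2.1 w.2.2.1)
  rw [ha, hb, hc, hV.pub t w.1 w.2.1 w.2.2.1 v.1 v.2.1 v.2.2.1 ⟨ha.symm, hb.symm, hc.symm⟩ h2]

theorem m3_eq (T : D.Thick al) (hV : RefCl D V) (dg : ℕ → X → ℝ) (t : ℕ) (w : Sp X β γ φ) :
    m3 T dg V t w = mS T hV dg t w :=
  (D.kp T t).P.ce_congr_map (fac_nd_bx hV t) (fac_bx_nd hV t) _ w

theorem x3_eq (T : D.Thick al) (hV : RefCl D V) (dg : ℕ → X → ℝ) (t : ℕ) (w : Sp X β γ φ) :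
    x3 T dg V t w = (D.kp T t).P.ce (fun v => (xF v, (bxU hV t).map v)) (fun v => dg t v.1) w :=
  (D.kp T t).P.ce_congr_map (fun v w h => by
      simp only [Prod.mk.injEq] at h ⊢; exact ⟨h.1, fac_nd_bx hV t v w h.2⟩)
    (fun v w h => by simp only [Prod.mk.injEq] at h ⊢; exact ⟨h.1, fac_bx_nd hV t v w h.2⟩) _ w

theorem y3_eq (T : D.Thick al) (hV : RefCl D V) (dg : ℕ → X → ℝ) (t : ℕ) (w : Sp X β γ φ) :
    y3 T dg V t w = (D.kp T t).P.ce (fun v => (xG v, (bxU hV t).map v)) (fun v => dg t v.1) w :=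
  (D.kp T t).P.ce_congr_map (fun v w h => by
      simp only [Prod.mk.injEq] at h ⊢; exact ⟨h.1, fac_nd_bx hV t v w h.2⟩)
    (fun v w h => by simp only [Prod.mk.injEq] at h ⊢; exact ⟨h.1, fac_bx_nd hV t v w h.2⟩) _ w

theorem z3_eq (T : D.Thick al) (hV : RefCl D V) (dg : ℕ → X → ℝ) (t : ℕ) (w : Sp X β γ φ) :
    z3 T dg V t w = (D.kp T t).P.ce (fun v => (xF v, xG v, (bxU hV t).map v)) (fun v => dg t v.1) w :=
  (D.kp T t).P.ce_congr_map (fun v w h => by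
      simp only [Prod.mk.injEq] at h ⊢; exact ⟨h.1, h.2.1, fac_nd_bx hV t v w h.2.2⟩)
    (fun v w h => by simp only [Prod.mk.injEq] at h ⊢; exact ⟨h.1, h.2.1, fac_bx_nd hV t v w h.2.2⟩) _ w

theorem pres_eq (T : D.Thick al) (hV : RefCl D V) (dg : ℕ → X → ℝ) (t : ℕ) (w : Sp X β γ φ) :
    (D.kp T t).P.pres (fun v => dg t v.1) xF xG (bxU hV t).map w =
      z3 T dg V t w - poe (m3 T dg V t w) (x3 T dg V t w) (y3 T dg V t w) := by
  rw [z3_eq T hV, m3_eq T hV, x3_eq T hV, y3_eq T hV]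
  rfl

/-! ## the gains -/

theorem gain_F (k : KP X β γ φ) {Z N : Bx X β γ} (h : Z.Sub N) (hN : N.Ok k) (hZ : PV Z.V) (hP : PV N.V) :
    k.P.E (k.P.iota xF Z.map N.map) = HH k.f N.V - HH k.f Z.V := by
  rw [HH_sub k.f_nn hP hZ h.V]
  have e0 : k.P.E (k.P.iota xF Z.map N.map) = E3 fun x b c => ∑ F, k.f x b c F *
      Real.log (law (Z.V x b c) (fun x => k.f x b c) F / law (N.V x b c) (fun x => k.f x b c) F) := by
    rw [← k.E_F (fun x b c F => Real.log (law (Z.V x b c) (fun x => k.f x b c) F /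
      law (N.V x b c) (fun x => k.f x b c) F))]
    refine k.P.E_congr fun w _ => ?_
    rw [iota_F k h hN w]
  rw [e0, E3_mean hZ]
  refine E3_congr fun x b c => ?_
  unfold avg klf
  rw [Finset.sum_congr rfl fun x' hx' => Finset.sum_congr rfl fun F _ => by
    rw [(hZ b c).pub x x' hx', show N.V x' b c = N.V x b c from (hP b c).pub x x' (h.V x b c hx')]]
  rw [Finset.sum_comm, Finset.sum_div]
  refine Finset.sum_congr rfl fun F _ => ?_
  rw [← Finset.sum_mul]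
  unfold law avg
  ring

theorem gain_G (k : KP X β γ φ) {Z N : Bx X β γ} (h : Z.Sub N) (hN : N.Ok k) (hZ : PV Z.V) (hP : PV N.V) :
    k.P.E (k.P.iota xG Z.map N.map) = HH k.g N.V - HH k.g Z.V := by
  rw [HH_sub k.g_nn hP hZ h.V]
  have e0 : k.P.E (k.P.iota xG Z.map N.map) = E3 fun x b c => ∑ F, k.g x b c F *
      Real.log (law (Z.V x b c) (fun x => k.g x b c) F / law (N.V x b c) (fun x => k.g x b c) F) := by
    rw [← k.E_G (fun x b c F => Real.log (law (Z.V x b c) (fun x => k.g x b c) F /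
      law (N.V x b c) (fun x => k.g x b c) F))]
    refine k.P.E_congr fun w _ => ?_
    rw [iota_G k h hN w]
  rw [e0, E3_mean hZ]
  refine E3_congr fun x b c => ?_
  unfold avg klf
  rw [Finset.sum_congr rfl fun x' hx' => Finset.sum_congr rfl fun F _ => by
    rw [(hZ b c).pub x x' hx', show N.V x' b c = N.V x b c from (hP b c).pub x x' (h.V x b c hx')]]
  rw [Finset.sum_comm, Finset.sum_div]
  refine Finset.sum_congr rfl fun F _ => ?_
  rw [← Finset.sum_mul]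
  unfold law avg
  ring

theorem hlf_pv (hV : RefCl D V) (t : ℕ) : PV (hlf D V t) := fun b c =>
  ⟨fun x => mem_hlf.2 ⟨hV.self t x b c, rfl⟩, fun x x' hx => by
    have h1 := mem_hlf.1 hx
    have e := hV.pub t x b c x' b c ⟨(D.mem_cA.1 (hV.cell t x b c h1.1)).symm, rfl, rfl⟩ h1.1
    ext y
    rw [mem_hlf, mem_hlf, e, h1.2]⟩

theorem gainD_eq (T : D.Thick al) (hV : RefCl D V) (t : ℕ) :
    gainD T hV t = (HH (D.kf t) (V t) - HH (D.kf t) (hlf D V t)) + (HH (D.kg t) (V t) - HH (D.kg t) (hlf D V t)) := by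
  unfold gainD
  have okN : (bxU hV t).Ok (D.kp T t) := bxA_ok T hV t t t le_rfl le_rfl
  rw [gain_F (D.kp T t) (bxh_sub hV t) okN (hlf_pv hV t) (hV.pv t),
    gain_G (D.kp T t) (bxh_sub hV t) okN (hlf_pv hV t) (hV.pv t)]
  rfl

theorem gainC_eq (T : D.Thick al) (hV : RefCl D V) (t : ℕ) :
    gainC T hV t = (HH (D.kf t) (hlf D V t) - HH (D.kf t) (V (t + 1))) +
      (HH (D.kg t) (hlf D V t) - HH (D.kg t) (V (t + 1))) := by
  unfold gainC
  have okH : (bxH hV t).Ok (D.kp T t) := bxB_ok T hV t (t + 1) t (Nat.le_succ t) (Nat.le_succ t)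
  rw [gain_F (D.kp T t) (bxU_sub hV t) okH (hV.pv (t + 1)) (hlf_pv hV t),
    gain_G (D.kp T t) (bxU_sub hV t) okH (hV.pv (t + 1)) (hlf_pv hV t)]
  rfl

theorem gainD_nonneg (T : D.Thick al) (hV : RefCl D V) (t : ℕ) : 0 ≤ gainD T hV t := by
  rw [gainD_eq]
  have h1 := HH_mono (T.f_nn t) (T.f_one t) (hV.pv t) (hlf_pv hV t) (fun x b c y hy => (mem_hlf.1 hy).1)
  have h2 := HH_mono (T.g_nn t) (T.g_one t) (hV.pv t) (hlf_pv hV t) (fun x b c y hy => (mem_hlf.1 hy).1)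
  linarith

theorem gainC_nonneg (T : D.Thick al) (hV : RefCl D V) (t : ℕ) : 0 ≤ gainC T hV t := by
  rw [gainC_eq]
  have h1 := HH_mono (T.f_nn t) (T.f_one t) (hlf_pv hV t) (hV.pv (t + 1)) (fun x b c => (bxU_sub hV t).V x b c)
  have h2 := HH_mono (T.g_nn t) (T.g_one t) (hlf_pv hV t) (hV.pv (t + 1)) (fun x b c => (bxU_sub hV t).V x b c)
  linarith

/-- ALL GAINS with the old labels -/
theorem gains_le (T : D.Thick al) (hV : RefCl D V) {K : ℕ} {Lam : ℝ} (hB : Birth D K Lam) :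
    ∑ t ∈ range K, gainD T hV t + ∑ t ∈ range K, gainC T hV t ≤ 2 * Lam := by
  have h1 := hB.f V hV
  have h1' := hB.g V hV
  have h2 : 0 ≤ HH (D.kf K) (V K) := HH_nonneg (T.f_nn K) (T.f_one K) (hV.pv K)
  have h2' : 0 ≤ HH (D.kg K) (V K) := HH_nonneg (T.g_nn K) (T.g_one K) (hV.pv K)
  simp only [Hf_eq, Hg_eq] at h1 h1'
  have h3 : ∀ m, ∑ t ∈ range m, gainD T hV t + ∑ t ∈ range m, gainC T hV t =
      (HH (D.kf 0) (V 0) + ∑ t ∈ range m, (HH (D.kf (t + 1)) (V (t + 1)) - HH (D.kf t) (V (t + 1))) -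
        HH (D.kf m) (V m)) +
      (HH (D.kg 0) (V 0) + ∑ t ∈ range m, (HH (D.kg (t + 1)) (V (t + 1)) - HH (D.kg t) (V (t + 1))) -
        HH (D.kg m) (V m)) := by
    intro m
    induction m with
    | zero => simp
    | succ m ih =>
      rw [Finset.sum_range_succ, Finset.sum_range_succ, Finset.sum_range_succ, Finset.sum_range_succ, gainD_eq,
        gainC_eq]
      linarith
  rw [h3]
  linarith

/-- THE SUM of Theorem 3 from the losses -/
theorem syn_le (T : D.Thick al) (hV : RefCl D V) {dg : ℕ → X → ℝ} {K : ℕ} {prf prg : ℕ → φ → φ} {Lam : ℝ}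
    (H : Hyp3 D dg prf prg al K Lam) (hBi : Birth D K Lam)
    {θ : ℕ → Sp X β γ φ → ℝ} (hθ : ∀ t, Fac (bxH hV t).map (θ t)) (hθ0 : ∀ t w, 0 ≤ θ t w)
    (hθ1 : ∀ t w, θ t w ≤ 1)
    {B d : ℝ} (hB : Real.exp 2 ≤ B) (hd : 0 ≤ d)
    (c1 : ∀ t < K, ∀ w, (D.kp T t).P.p w ≠ 0 → (D.kp T t).P.hel xF (bxU hV t).map xG w ≤ d)
    (c1' : ∀ t < K, ∀ w, (D.kp T t).P.p w ≠ 0 → (D.kp T t).P.hel xG (bxU hV t).map xF w ≤ d)
    (c2 : ∀ t < K, ∀ w, (D.kp T t).P.p w ≠ 0 → θ t w ≠ 0 → (D.kp T t).P.hel xF (bxH hV t).map xG w ≤ d)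
    (c2' : ∀ t < K, ∀ w, (D.kp T t).P.p w ≠ 0 → θ t w ≠ 0 → (D.kp T t).P.hel xG (bxH hV t).map xF w ≤ d)
    {Tb Tc : ℕ → Sp X β γ φ → Prop}
    (hTb : ∀ t u v, (bxh hV t).map u = (bxh hV t).map v → (Tb t u ↔ Tb t v))
    (hTc : ∀ t u v, (bxU hV (t + 1)).map u = (bxU hV (t + 1)).map v → (Tc t u ↔ Tc t v)) :
    ∑ t ∈ range K, (D.kp T t).P.E (fun w => ind (|m3 T dg V t w| ≤ 1 / 2) *
        (z3 T dg V t w - poe (m3 T dg V t w) (x3 T dg V t w) (y3 T dg V t w)) ^ 2) ≤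
      2 * ((D.kp T K).P.E ((D.kp T K).P.iota xF xG (bxU hV K).map) +
        ∑ t ∈ range K, (lossD T hV dg B Tb t + lossC T hV θ B Tc t + lossT T hV θ t) + 4 * B * kd d * Lam) := by
  have h1 := sum_harm T hV H.dg_val H.dg_cell H.kf_pr H.kg_pr hθ hθ0 hθ1 hB hd hd c1 c1' c2 c2' hTb hTc
  have e : ∀ t, (D.kp T t).P.E (fun w => ind (|m3 T dg V t w| ≤ 1 / 2) *
        (z3 T dg V t w - poe (m3 T dg V t w) (x3 T dg V t w) (y3 T dg V t w)) ^ 2) =
      (D.kp T t).P.E (fun w => ind (|mS T hV dg t w| ≤ 1 / 2) *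
        (D.kp T t).P.pres (fun v => dg t v.1) xF xG (bxU hV t).map w ^ 2) := by
    intro t
    refine (D.kp T t).P.E_congr fun w _ => ?_
    rw [pres_eq T hV, ← m3_eq T hV]
  rw [Finset.sum_congr rfl fun t _ => e t]
  refine h1.trans ?_
  have h2 := gains_le T hV hBi
  have hB0 : 0 ≤ B := (Real.exp_pos 2).le.trans hB
  have hk := kd_nonneg hd
  have h3 : 2 * B * (kd d * ∑ t ∈ range K, gainD T hV t + kd d * ∑ t ∈ range K, gainC T hV t) ≤
      4 * B * kd d * Lam := by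
    have : 2 * B * (kd d * ∑ t ∈ range K, gainD T hV t + kd d * ∑ t ∈ range K, gainC T hV t) =
      2 * B * kd d * (∑ t ∈ range K, gainD T hV t + ∑ t ∈ range K, gainC T hV t) := by ring
    rw [this]
    nlinarith [mul_le_mul_of_nonneg_left h2 (by positivity : 0 ≤ 2 * B * kd d)]
  linarith

end

end Pool.Agent.M3.S3
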