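import Pool.Agent.M3.S3.CutA
import Pool.Agent.M3.S3.SynF
import Pool.Agent.M3.S3.StaB
import Pool.Agent.M3.S3.State
import Pool.Agent.M3.S3.MK
import Pool.Agent.M3.S3.StrA

/-!
# M3.S3.FinA: the losses of route A, `finA` (helper64)

`R : Rl D` any rule, `V = R.U`.  `finA` : the sum of Theorem 3 from the saturation of the states (`hS`, `hSh`), the counts
(`BD` bad digits, `BG` big final cells, `HB` halving cells) and the bounds (al), (be) of the big cells.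
-/

set_option autoImplicit false
set_option linter.unusedSectionVars false

namespace Pool.Agent.M3.S3

open Finset Pool.Agent.PWZ Pool.Agent.M3

noncomputable section

namespace FA

section gen

variable {X β γ ι φ : Type*} [Fintype X] [Fintype β] [Fintype γ] [Fintype φ] [Nonempty X] [Nonempty β] [Nonempty γ]
  {D : Dat X β γ ι φ} {al : ℝ}

theorem ce_pt (k : KP X β γ φ) {N : Bx X β γ} (h : X → ℝ) (w : Sp X β γ φ) :
    k.P.ce N.map (fun v => h v.1) w = avg (N.V w.1 w.2.1 w.2.2.1) h := by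
  have h1 : k.P.E (fun v => ind (N.map v = N.map w) * h v.1) =
      k.P.E (fun v => ind (v.1 ∈ N.V w.1 w.2.1 w.2.2.1 ∧ v.2.1 ∈ N.B w.1 w.2.1 w.2.2.1 ∧
        v.2.2.1 ∈ N.C w.1 w.2.1 w.2.2.1) * h v.1) := by
    refine k.P.E_congr fun v _ => ?_
    rw [show (N.map v = N.map w) = (v.1 ∈ N.V w.1 w.2.1 w.2.2.1 ∧ v.2.1 ∈ N.B w.1 w.2.1 w.2.2.1 ∧
        v.2.2.1 ∈ N.C w.1 w.2.1 w.2.2.1) from propext N.map_eq]
  unfold FP.ce
  rw [h1, k.E_in, m_N, MM]
  have h2 : ∀ x ∈ N.V w.1 w.2.1 w.2.2.1, (∑ b ∈ N.B w.1 w.2.1 w.2.2.1, ∑ c ∈ N.C w.1 w.2.1 w.2.2.1, ∑ F, ∑ G,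
      k.f x b c F * k.g x b c G * h x) = (N.B w.1 w.2.1 w.2.2.1).card * ((N.C w.1 w.2.1 w.2.2.1).card * h x) := by
    intro x _
    have h3 : ∀ b c, (∑ F, ∑ G, k.f x b c F * k.g x b c G * h x) = h x := by
      intro b c
      simp only [← Finset.sum_mul, ← Finset.mul_sum, k.g_one, k.f_one, mul_one, one_mul]
    simp only [h3, Finset.sum_const, nsmul_eq_mul]
  rw [Finset.sum_congr rfl h2]
  have hX : (Fintype.card X : ℝ) ≠ 0 := by exact_mod_cast Fintype.card_ne_zero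
  have hb : (Fintype.card β : ℝ) ≠ 0 := by exact_mod_cast Fintype.card_ne_zero
  have hg : (Fintype.card γ : ℝ) ≠ 0 := by exact_mod_cast Fintype.card_ne_zero
  have hB : ((N.B w.1 w.2.1 w.2.2.1).card : ℝ) ≠ 0 := by
    exact_mod_cast (Finset.card_pos.2 ⟨_, N.sB w.1 w.2.1 w.2.2.1⟩).ne'
  have hC : ((N.C w.1 w.2.1 w.2.2.1).card : ℝ) ≠ 0 := by
    exact_mod_cast (Finset.card_pos.2 ⟨_, N.sC w.1 w.2.1 w.2.2.1⟩).ne'
  have hV : ((N.V w.1 w.2.1 w.2.2.1).card : ℝ) ≠ 0 := by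
    exact_mod_cast (Finset.card_pos.2 ⟨_, N.sV w.1 w.2.1 w.2.2.1⟩).ne'
  unfold avg
  rw [← Finset.mul_sum, ← Finset.mul_sum]
  field_simp

theorem thk_of (T : D.Thick al) {t : ℕ} {V : Finset X} {x : X} (h : V ⊆ D.cA t x) : Thk (D.kp T t) V al where
  pos := T.pos
  f y hy y' hy' b c F hF := T.f_thick t y y' b c F
    ((D.mem_cA.1 (h hy)).trans (D.mem_cA.1 (h hy')).symm) hF
  g y hy y' hy' b c F hF := T.g_thick t y y' b c F
    ((D.mem_cA.1 (h hy)).trans (D.mem_cA.1 (h hy')).symm) hF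

variable {R : Rl D}

theorem U_eq {t : ℕ} {x x' : X} {b b' : β} {c c' : γ} (hx : x' ∈ R.U t x b c) (hb : b' ∈ D.cB t b)
    (hc : c' ∈ D.cC t c) : R.U t x' b' c' = R.U t x b c :=
  (U_refCl R).pub t x b c x' b' c' ⟨(D.mem_cA.1 ((U_refCl R).cell t x b c hx)).symm, (D.mem_cB.1 hb).symm,
    (D.mem_cC.1 hc).symm⟩ hx

theorem hcl_eq {t : ℕ} {x x' : X} {b b' : β} {c c' : γ} (hx : x' ∈ hcl R t x b c) (hb : b' ∈ D.cB t b)
    (hc : c' ∈ D.cC t c) : hcl R t x' b' c' = hcl R t x b c := by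
  have h1 := (mem_hcl R).1 hx
  ext y
  rw [mem_hcl, mem_hcl, U_eq h1.1 hb hc, h1.2]

theorem ntn_inv {mu : ℝ} {t : ℕ} {x x' : X} {b b' : β} {c c' : γ} (hx : x' ∈ hcl R t x b c) (hb : b' ∈ D.cB t b)
    (hc : c' ∈ D.cC t c) : ntn R mu t x' b' c' ↔ ntn R mu t x b c := by
  unfold ntn
  rw [hcl_eq hx hb hc, U_eq ((mem_hcl R).1 hx).1 hb hc]

theorem bgc_inv {L0 : ℝ} {t : ℕ} {x x' : X} {b b' : β} {c c' : γ} (hx : x' ∈ R.U (t + 1) x b c)
    (hb : b' ∈ D.cB (t + 1) b) (hc : c' ∈ D.cC (t + 1) c) : bgc R L0 t x' b' c' ↔ bgc R L0 t x b c := by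
  unfold bgc
  rw [U_eq hx hb hc, hcl_eq (U_sub_hcl R t x b c hx) (D.mem_cB.2 (D.qb_le (Nat.le_succ t) (D.mem_cB.1 hb)))
    (D.mem_cC.2 (D.qc_le (Nat.le_succ t) (D.mem_cC.1 hc)))]

end gen

end FA

section fin

variable {X β γ ι φ : Type} [Fintype X] [Fintype β] [Fintype γ] [Fintype φ] [Nonempty X] [Nonempty β] [Nonempty γ]
  {D : Dat X β γ ι φ} {al : ℝ}

/-- weight of the half step states which are not tiny -/
def thA (R : Rl D) (mu : ℝ) (t : ℕ) (w : Sp X β γ φ) : ℝ :=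
  ind (mu * ((R.U t w.1 w.2.1 w.2.2.1).card : ℝ) ≤ (hlf D R.U t w.1 w.2.1 w.2.2.1).card)

theorem thA_ne {R : Rl D} {mu : ℝ} {t : ℕ} {w : Sp X β γ φ} (h : thA R mu t w ≠ 0) :
    ntn R mu t w.1 w.2.1 w.2.2.1 := by
  have h1 := ind_ne h
  unfold ntn
  rwa [hlf_U] at h1

theorem thA_fac {R : Rl D} {mu : ℝ} (t : ℕ) : Fac (bxH (U_refCl R) t).map (thA R mu t (φ := φ)) := by
  intro v w h
  have h1 := Bx.map_eq.1 h
  have hx : v.1 ∈ hcl R t w.1 w.2.1 w.2.2.1 := by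
    rw [← hlf_U]; exact h1.1
  have hb : v.2.1 ∈ D.cB t w.2.1 := D.mem_cB.2 (D.qb_le (Nat.le_succ t) (D.mem_cB.1 h1.2.1))
  have hc : v.2.2.1 ∈ D.cC t w.2.2.1 := D.mem_cC.2 (D.qc_le (Nat.le_succ t) (D.mem_cC.1 h1.2.2))
  unfold thA
  rw [hlf_U, hlf_U, FA.hcl_eq hx hb hc, FA.U_eq ((mem_hcl R).1 hx).1 hb hc]

/-- **THE SUM OF ROUTE A** -/
theorem finA (T : D.Thick al) (ha1 : al ≤ 1) (R : Rl D) {dg : ℕ → X → ℝ} {K : ℕ} {prf prg : ℕ → φ → φ} {Lam : ℝ}
    (H : Hyp3 D dg prf prg al K Lam) (hBi : Birth D K Lam)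
    {sg sgh mu B eta L0 del q l : ℝ} (hsg : 0 < sg) (hsgh : sg ≤ sgh) (hmu : 0 < mu) (hmu1 : mu ≤ 1 / 4)
    (hB : Real.exp 2 ≤ B) (heta : 0 < eta) (hBe : 2 * Real.exp 1 ≤ B * eta) (hdel : 0 ≤ del)
    (hS : ∀ s ≤ K, ∀ x b c, SatS (D.kp T s) (R.U s x b c) (D.cB s b) (D.cC s c) b c sg)
    (hSh : ∀ s < K, ∀ x b c, ntn R mu s x b c →
      SatS (D.kp T s) (hcl R s x b c) (D.cB (s + 1) b) (D.cC (s + 1) c) b c sgh)
    {BD BG HB AF AG BE : ℝ}
    (hBD : ∑ s ∈ range K, E3 (fun x b c => ind (1 / 2 < |avg (R.U s x b c) (dg s)|)) ≤ BD)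
    (hBG : ∑ s ∈ range K, E3 (fun x b c => ind (bgc R L0 s x b c)) ≤ BG)
    (hHB : ∑ s ∈ range K, E3 (fun x b c =>
      ind (2 * ((R.U (s + 1) x b c).card : ℝ) ≤ (hcl R s x b c).card)) ≤ HB)
    (hAF : ∑ s ∈ range K, E3 (fun x b c => ind (ffF R q l s x b c) * Pst T del R s x b c) ≤ AF)
    (hAG : ∑ s ∈ range K, E3 (fun x b c => ind (ffG R q l s x b c) * Pst T del R s x b c) ≤ AG)
    (hBE : ∑ s ∈ range K, E3 (fun x b c => ind (ntn R mu s x b c ∧ bgc R L0 s x b c ∧ ¬ ffF R q l s x b c ∧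
        ¬ ffG R q l s x b c) * Pst T del R s x b c) ≤ BE) :
    ∑ t ∈ range K, (D.kp T t).P.E (fun w => ind (|m3 T dg R.U t w| ≤ 1 / 2) *
        (z3 T dg R.U t w - poe (m3 T dg R.U t w) (x3 T dg R.U t w) (y3 T dg R.U t w)) ^ 2) ≤
      2 * (sg * (Real.log (1 / al) + 1) +
        (2 * (Real.log (1 / al) * (mu * BD)) + Real.log (1 / al) * (eta * (2 / Real.log B) * (2 * Lam) +
          Real.exp (Real.log (1 / mu) + 1 - eta / (2 * sg)) * BD)) +
        (del * BG + AF + AG + BE + Real.log (1 / al) * (eta * (2 / Real.log B) * (2 * Lam) +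
          Real.exp (L0 + 1 - eta / (2 * sgh)) * HB)) +
        4 * B * kd (sgh * (Real.log (1 / al) + 1)) * Lam) := by
  set hV := U_refCl R with hVd
  have hsgh0 : 0 < sgh := hsg.trans_le hsgh
  have hla : 0 ≤ Real.log (1 / al) := Real.log_nonneg (by
    rw [le_div_iff₀ T.pos, one_mul]; exact ha1)
  set d := sgh * (Real.log (1 / al) + 1) with hd
  have hd0 : 0 ≤ d := by positivity
  -- closeness
  have c0 : ∀ t < K, ∀ w, (D.kp T t).P.p w ≠ 0 → (D.kp T t).P.hel xF (bxU hV t).map xG w ≤ d ∧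
      (D.kp T t).P.hel xG (bxU hV t).map xF w ≤ d := by
    intro t ht w hw
    have h1 := hel_le_sat (bxA_ok T hV t t t le_rfl le_rfl) hw hsg.le
      (hS t ht.le w.1 w.2.1 w.2.2.1) (FA.thk_of T (hV.cell t w.1 w.2.1 w.2.2.1))
    have h2 : sg * (Real.log (1 / al) + 1) ≤ d := mul_le_mul_of_nonneg_right hsgh (by linarith)
    exact ⟨h1.1.trans h2, h1.2.trans h2⟩
  have c2 : ∀ t < K, ∀ w, (D.kp T t).P.p w ≠ 0 → thA R mu t w ≠ 0 →
      (D.kp T t).P.hel xF (bxH hV t).map xG w ≤ d ∧ (D.kp T t).P.hel xG (bxH hV t).map xF w ≤ d := by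
    intro t ht w hw hne
    have h0 := hSh t ht w.1 w.2.1 w.2.2.1 (thA_ne hne)
    rw [← hlf_U] at h0
    exact hel_le_sat (bxB_ok T hV t (t + 1) t (Nat.le_succ t) (Nat.le_succ t)) hw hsgh0.le h0
      (FA.thk_of T (x := w.1) (fun y hy => hV.cell t w.1 w.2.1 w.2.2.1 (mem_hlf.1 hy).1))
  have hTb : ∀ (t : ℕ) (u v : Sp X β γ φ), (bxh hV t).map u = (bxh hV t).map v →
      ((((hlf D R.U t u.1 u.2.1 u.2.2.1).card : ℝ) < mu * (R.U t u.1 u.2.1 u.2.2.1).card) ↔
        (((hlf D R.U t v.1 v.2.1 v.2.2.1).card : ℝ) < mu * (R.U t v.1 v.2.1 v.2.2.1).card)) := by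
    intro t u v h
    have h1 := Bx.map_eq.1 h
    have hx : u.1 ∈ hcl R t v.1 v.2.1 v.2.2.1 := by
      rw [← hlf_U]; exact h1.1
    rw [hlf_U, hlf_U, FA.hcl_eq hx h1.2.1 h1.2.2, FA.U_eq ((mem_hcl R).1 hx).1 h1.2.1 h1.2.2]
  have hTc : ∀ (t : ℕ) (u v : Sp X β γ φ), (bxU hV (t + 1)).map u = (bxU hV (t + 1)).map v →
      ((Real.exp L0 * ((R.U (t + 1) u.1 u.2.1 u.2.2.1).card : ℝ) ≤ (hlf D R.U t u.1 u.2.1 u.2.2.1).card) ↔
        (Real.exp L0 * ((R.U (t + 1) v.1 v.2.1 v.2.2.1).card : ℝ) ≤ (hlf D R.U t v.1 v.2.1 v.2.2.1).card)) := by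
    intro t u v h
    have h1 := Bx.map_eq.1 h
    rw [hlf_U, hlf_U]
    exact FA.bgc_inv (L0 := L0) h1.1 h1.2.1 h1.2.2
  have main := syn_le T hV H hBi (θ := fun t w => thA R mu t w) (fun t => thA_fac t) (fun t w => ind_nonneg _)
    (fun t w => ind_le_one _) hB hd0 (fun t ht w hw => (c0 t ht w hw).1) (fun t ht w hw => (c0 t ht w hw).2)
    (fun t ht w hw hne => (c2 t ht w hw hne).1) (fun t ht w hw hne => (c2 t ht w hw hne).2)
    (Tb := fun t w => ((hlf D R.U t w.1 w.2.1 w.2.2.1).card : ℝ) < mu * (R.U t w.1 w.2.1 w.2.2.1).card)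
    (Tc := fun t w => Real.exp L0 * ((R.U (t + 1) w.1 w.2.1 w.2.2.1).card : ℝ) ≤
      (hlf D R.U t w.1 w.2.1 w.2.2.1).card) hTb hTc
  -- the single losses
  have hMK := MK_le T hV K hsg.le (hS K le_rfl)
  have hG := gains_le T hV hBi
  have gD0 : 0 ≤ ∑ t ∈ range K, gainD T hV t := Finset.sum_nonneg fun t _ => gainD_nonneg T hV t
  have gC0 : 0 ≤ ∑ t ∈ range K, gainC T hV t := Finset.sum_nonneg fun t _ => gainC_nonneg T hV t
  have hlB : 0 < Real.log B := Real.log_pos (lt_of_lt_of_le (by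
    have := Real.add_one_le_exp (2 : ℝ)
    linarith) hB)
  have he2 : 0 ≤ eta * (2 / Real.log B) := by positivity
  -- partial gains
  have okN : ∀ t, (bxU hV t).Ok (D.kp T t) := fun t => bxA_ok T hV t t t le_rfl le_rfl
  have okH : ∀ t, (bxH hV t).Ok (D.kp T t) := fun t => bxB_ok T hV t (t + 1) t (Nat.le_succ t) (Nat.le_succ t)
  have pG : ∀ t, (D.kp T t).P.E ((D.kp T t).P.iota xF (bxh hV t).map (bxU hV t).map) ≤ gainD T hV t := by
    intro t
    have h2 : 0 ≤ (D.kp T t).P.E ((D.kp T t).P.iota xG (bxh hV t).map (bxU hV t).map) := by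
      rw [FP.E_iota]; exact FP.I_nonneg _ _ _ _
    unfold gainD
    linarith
  have pC : ∀ t, (D.kp T t).P.E ((D.kp T t).P.iota xF (bxU hV (t + 1)).map (bxH hV t).map) ≤ gainC T hV t := by
    intro t
    have h2 : 0 ≤ (D.kp T t).P.E ((D.kp T t).P.iota xG (bxU hV (t + 1)).map (bxH hV t).map) := by
      rw [FP.E_iota]; exact FP.I_nonneg _ _ _ _
    unfold gainC
    linarith
  have lD : ∑ t ∈ range K, lossD T hV dg B (fun t w => ((hlf D R.U t w.1 w.2.1 w.2.2.1).card : ℝ) <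
      mu * (R.U t w.1 w.2.1 w.2.2.1).card) t ≤
      Real.log (1 / al) * (eta * (2 / Real.log B) * (2 * Lam)) +
      Real.log (1 / al) * (mu + Real.exp (Real.log (1 / mu) + 1 - eta / (2 * sg))) * BD := by
    have h1 : ∀ t ∈ range K, lossD T hV dg B (fun t w => ((hlf D R.U t w.1 w.2.1 w.2.2.1).card : ℝ) <
      mu * (R.U t w.1 w.2.1 w.2.2.1).card) t ≤
        Real.log (1 / al) * (eta * (2 / Real.log B)) * gainD T hV t +
        Real.log (1 / al) * (mu + Real.exp (Real.log (1 / mu) + 1 - eta / (2 * sg))) *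
          E3 (fun x b c => ind (1 / 2 < |avg (R.U t x b c) (dg t)|)) := by
      intro t ht
      have ht' := Finset.mem_range.1 ht
      refine (lossD_le T hV (H.dg_val t) (H.dg_cell t ht') hmu hmu1 hB heta hBe hsg
        (fun x b c _ => hS t ht'.le x b c)).trans ?_
      refine add_le_add ?_ le_rfl
      rw [mul_assoc (Real.log (1 / al)) (eta * (2 / Real.log B)) (gainD T hV t)]
      exact mul_le_mul_of_nonneg_left (mul_le_mul_of_nonneg_left (pG t) he2) hla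
    refine (Finset.sum_le_sum h1).trans ?_
    rw [Finset.sum_add_distrib, ← Finset.mul_sum, ← Finset.mul_sum]
    refine add_le_add ?_ ?_
    · rw [mul_assoc]
      exact mul_le_mul_of_nonneg_left (mul_le_mul_of_nonneg_left (by linarith) he2) hla
    · exact mul_le_mul_of_nonneg_left hBD (mul_nonneg hla (add_nonneg hmu.le (Real.exp_pos _).le))
  have lT : ∑ t ∈ range K, lossT T hV (fun t w => thA R mu t w) t ≤ Real.log (1 / al) * (mu * BD) := by
    have h1 : ∀ t ∈ range K, lossT T hV (fun t w => thA R mu t w) t ≤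
        Real.log (1 / al) * mu * E3 (fun x b c => ind (1 / 2 < |avg (R.U t x b c) (dg t)|)) := by
      intro t ht
      have ht' := Finset.mem_range.1 ht
      rw [mul_assoc]
      exact lossT_le T hV (H.dg_val t) (H.dg_cell t ht') hmu.le hmu1
    refine (Finset.sum_le_sum h1).trans ?_
    rw [← Finset.mul_sum, ← mul_assoc]
    exact mul_le_mul_of_nonneg_left hBD (mul_nonneg hla hmu.le)
  have lC : ∑ t ∈ range K, lossC T hV (fun t w => thA R mu t w) B (fun t w => Real.exp L0 *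
      ((R.U (t + 1) w.1 w.2.1 w.2.2.1).card : ℝ) ≤ (hlf D R.U t w.1 w.2.1 w.2.2.1).card) t ≤
      (del * BG + AF + AG + BE) + Real.log (1 / al) * (eta * (2 / Real.log B) * (2 * Lam) +
        Real.exp (L0 + 1 - eta / (2 * sgh)) * HB) := by
    have h1 : ∀ t ∈ range K, lossC T hV (fun t w => thA R mu t w) B (fun t w => Real.exp L0 *
      ((R.U (t + 1) w.1 w.2.1 w.2.2.1).card : ℝ) ≤ (hlf D R.U t w.1 w.2.1 w.2.2.1).card) t ≤
        E3 (fun x b c => ind (ntn R mu t x b c) * (ind (bgc R L0 t x b c) * (del + Pst T del R t x b c))) +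
        (Real.log (1 / al) * (eta * (2 / Real.log B)) * gainC T hV t +
          Real.log (1 / al) * Real.exp (L0 + 1 - eta / (2 * sgh)) *
            E3 (fun x b c => ind (2 * ((R.U (t + 1) x b c).card : ℝ) ≤ (hcl R t x b c).card))) := by
      intro t ht
      have ht' := Finset.mem_range.1 ht
      refine (lossC_le T hV (mu := mu) (L0 := L0) (del := del) hB heta hBe hsgh0 (fun x b c h => ?_)).trans ?_
      · rw [hlf_U] at h ⊢
        exact hSh t ht' x b c h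
      · refine add_le_add (le_of_eq ?_) ?_
        · refine E3_congr fun x b c => ?_
          rw [hlf_U]
          rfl
        · simp only [hlf_U]
          rw [mul_add]
          refine add_le_add ?_ (le_of_eq (by ring))
          rw [mul_assoc (Real.log (1 / al)) (eta * (2 / Real.log B)) (gainC T hV t)]
          exact mul_le_mul_of_nonneg_left (mul_le_mul_of_nonneg_left (pC t) he2) hla
    refine (Finset.sum_le_sum h1).trans ?_
    rw [Finset.sum_add_distrib, Finset.sum_add_distrib, ← Finset.mul_sum, ← Finset.mul_sum, mul_add]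
    refine add_le_add ?_ (add_le_add ?_ ?_)
    · refine (cut_le T R q l mu L0 hdel K).trans ?_
      have := mul_le_mul_of_nonneg_left hBG hdel
      linarith
    · rw [mul_assoc]
      exact mul_le_mul_of_nonneg_left (mul_le_mul_of_nonneg_left (by linarith) he2) hla
    · rw [mul_assoc]
      exact mul_le_mul_of_nonneg_left (mul_le_mul_of_nonneg_left hHB (Real.exp_pos _).le) hla
  refine main.trans ?_
  rw [Finset.sum_add_distrib, Finset.sum_add_distrib]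
  have e1 : Real.log (1 / al) * (mu + Real.exp (Real.log (1 / mu) + 1 - eta / (2 * sg))) * BD =
    Real.log (1 / al) * (mu * BD) + Real.log (1 / al) * (Real.exp (Real.log (1 / mu) + 1 - eta / (2 * sg)) * BD) := by
    ring
  have e2 : Real.log (1 / al) * (eta * (2 / Real.log B) * (2 * Lam) +
      Real.exp (Real.log (1 / mu) + 1 - eta / (2 * sg)) * BD) =
    Real.log (1 / al) * (eta * (2 / Real.log B) * (2 * Lam)) +
      Real.log (1 / al) * (Real.exp (Real.log (1 / mu) + 1 - eta / (2 * sg)) * BD) := by ring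
  rw [e1] at lD
  rw [e2]
  linarith

end fin

end

end Pool.Agent.M3.S3
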