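import Pool.Agent.M3.S3.Prod

/-!
# M3.S3.Med: iterated conditional medians (note 3448 (6)(A)) (helper48)

`γ` finite (the known point `c`, uniform in the cell at the time `t0`), nested cells `q t`, `st t c` = the stopping time
`T c` is `≤ t` (increasing in `t`, a function of the cell at `t`).  `pr r c u` = proportion of `T ≤ u` in the cell of `c`
at `r`.  `lr t c` = last renewal time `≤ t`: renewal at `t + 1` iff `pr (lr t c) c (t+1) > 1/2`.

* `lr_inv`: `lr t c` is a function of the cell at `t`; `lr_cell`: if `lr t c = r` then `lr t = r` on the cell at `r`;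
  `lr_ext`: depends on `st` up to the time `t` only.
* `med_loss`: for fixed `s > t0`: `∑ psi ≤ 2 lam #{T ≥ s} + Mx ∑_{t0 ≤ t < s} #{renewal at t, T > t, bad at t}`.
* `med_count`: `∑_t #{renewal at t, T > t} ≤ 2 |cell|`.
-/

set_option autoImplicit false
set_option linter.unusedSectionVars false
set_option linter.unusedVariables false

namespace Pool.Agent.M3.S3

open Finset

noncomputable section

/-- nested cells and a stopping time of the cells -/
structure Med (γ ι : Type*) where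
  q : ℕ → γ → ι
  st : ℕ → γ → Prop
  rq : ∀ t c c', q (t + 1) c = q (t + 1) c' → q t c = q t c'
  mono : ∀ t c, st t c → st (t + 1) c
  inv : ∀ t c c', q t c = q t c' → (st t c ↔ st t c')

namespace Med

variable {γ ι : Type*} [Fintype γ] (M : Med γ ι)

open Classical in
/-- the cell of `c` at the time `t` -/
def cell (t : ℕ) (c : γ) : Finset γ := univ.filter fun y => M.q t y = M.q t c

open Classical in
/-- indicator -/
def ind (p : Prop) : ℝ := if p then 1 else 0

theorem ind_nonneg (p : Prop) : 0 ≤ ind p := by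
  unfold ind; split_ifs <;> norm_num

theorem ind_true {p : Prop} (h : p) : ind p = 1 := by simp [ind, h]

theorem ind_false {p : Prop} (h : ¬ p) : ind p = 0 := by simp [ind, h]

/-- proportion of `T ≤ u` in the cell of `c` at `r` -/
def pr (r : ℕ) (c : γ) (u : ℕ) : ℝ := avg (M.cell r c) fun y => ind (M.st u y)

open Classical in
/-- last renewal time `≤ t` (equal to `t0` for `t ≤ t0`) -/
def lr (t0 : ℕ) : ℕ → γ → ℕ
  | 0, _ => t0
  | t + 1, c => if t + 1 ≤ t0 then t0 else if 1 / 2 < M.pr (lr t0 t c) c (t + 1) then t + 1 else lr t0 t c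

theorem q_le {s t : ℕ} (h : s ≤ t) {c c' : γ} (hc : M.q t c = M.q t c') : M.q s c = M.q s c' := by
  induction t, h using Nat.le_induction with
  | base => exact hc
  | succ n _ ih => exact ih (M.rq n c c' hc)

theorem st_le {s t : ℕ} (h : s ≤ t) {c : γ} (hc : M.st s c) : M.st t c := by
  induction t, h using Nat.le_induction with
  | base => exact hc
  | succ n _ ih => exact M.mono n c ih

theorem mem_cell {t : ℕ} {c y : γ} : y ∈ M.cell t c ↔ M.q t y = M.q t c := by
  classical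
  simp [cell]

theorem self_cell (t : ℕ) (c : γ) : c ∈ M.cell t c := M.mem_cell.2 rfl

theorem cell_congr {t : ℕ} {c c' : γ} (h : M.q t c = M.q t c') : M.cell t c = M.cell t c' := by
  ext y; rw [mem_cell, mem_cell, h]

theorem cell_sub {s t : ℕ} (h : s ≤ t) (c : γ) : M.cell t c ⊆ M.cell s c := fun _ hy =>
  M.mem_cell.2 (M.q_le h (M.mem_cell.1 hy))

theorem card_cell_pos (t : ℕ) (c : γ) : (0 : ℝ) < (M.cell t c).card := by
  have : 0 < (M.cell t c).card := card_pos.2 ⟨c, M.self_cell t c⟩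
  exact_mod_cast this

theorem pr_congr {r : ℕ} {c c' : γ} (h : M.q r c = M.q r c') (u : ℕ) : M.pr r c u = M.pr r c' u := by
  unfold pr; rw [M.cell_congr h]

theorem lr_old {t0 t : ℕ} (h : t ≤ t0) (c : γ) : M.lr t0 t c = t0 := by
  cases t with
  | zero => rfl
  | succ t => simp only [lr, if_pos h]

theorem lr_succ {t0 t : ℕ} (h : t0 ≤ t) (c : γ) :
    (1 / 2 < M.pr (M.lr t0 t c) c (t + 1) ∧ M.lr t0 (t + 1) c = t + 1) ∨
      (M.pr (M.lr t0 t c) c (t + 1) ≤ 1 / 2 ∧ M.lr t0 (t + 1) c = M.lr t0 t c) := by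
  have h' : ¬ t + 1 ≤ t0 := by omega
  by_cases h1 : 1 / 2 < M.pr (M.lr t0 t c) c (t + 1)
  · exact Or.inl ⟨h1, by simp only [lr, if_neg h', if_pos h1]⟩
  · exact Or.inr ⟨not_lt.1 h1, by simp only [lr, if_neg h', if_neg h1]⟩

theorem lr_bd {t0 t : ℕ} (h : t0 ≤ t) (c : γ) : t0 ≤ M.lr t0 t c ∧ M.lr t0 t c ≤ t := by
  induction t, h using Nat.le_induction with
  | base => rw [M.lr_old le_rfl]; exact ⟨le_rfl, le_rfl⟩
  | succ n hn ih =>
    rcases M.lr_succ hn c with ⟨-, h2⟩ | ⟨-, h2⟩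
    · rw [h2]; omega
    · rw [h2]; omega

/-- `lr t` is a function of the cell at `t` -/
theorem lr_inv {t0 t : ℕ} (h : t0 ≤ t) {c c' : γ} (hc : M.q t c = M.q t c') : M.lr t0 t c = M.lr t0 t c' := by
  induction t, h using Nat.le_induction with
  | base => rw [M.lr_old le_rfl, M.lr_old le_rfl]
  | succ n hn ih =>
    have e1 := ih (M.rq n c c' hc)
    have e2 : M.pr (M.lr t0 n c) c (n + 1) = M.pr (M.lr t0 n c') c' (n + 1) := by
      rw [← e1]
      exact M.pr_congr (M.q_le ((M.lr_bd hn c).2.trans (Nat.le_succ n)) hc) _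
    rcases M.lr_succ hn c with ⟨h1, h2⟩ | ⟨h1, h2⟩ <;> rcases M.lr_succ hn c' with ⟨h1', h2'⟩ | ⟨h1', h2'⟩
    · rw [h2, h2']
    · rw [e2] at h1; exact absurd h1 (not_lt.2 h1')
    · rw [← e2] at h1'; exact absurd h1' (not_lt.2 h1)
    · rw [h2, h2', e1]

/-- the last renewal time is constant on the cell at this time -/
theorem lr_cell {t0 t : ℕ} (h : t0 ≤ t) {c c' : γ} (hc : M.q (M.lr t0 t c) c = M.q (M.lr t0 t c) c') :
    M.lr t0 t c' = M.lr t0 t c := by
  induction t, h using Nat.le_induction with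
  | base => rw [M.lr_old le_rfl, M.lr_old le_rfl]
  | succ n hn ih =>
    rcases M.lr_succ hn c with ⟨h1, h2⟩ | ⟨h1, h2⟩
    · rw [h2] at hc
      exact (M.lr_inv (by omega) hc).symm
    · rw [h2] at hc ⊢
      have e1 := ih hc
      rcases M.lr_succ hn c' with ⟨h1', h2'⟩ | ⟨h1', h2'⟩
      · rw [e1, ← M.pr_congr hc] at h1'
        exact absurd h1' (not_lt.2 h1)
      · rw [h2', e1]

/-- at a time which is not a renewal at least half of the cell is not stopped -/
theorem pr_lr {t0 t : ℕ} (h : t0 ≤ t) (c : γ) (hlt : M.lr t0 t c < t) : M.pr (M.lr t0 t c) c t ≤ 1 / 2 := by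
  rcases Nat.eq_or_lt_of_le h with h0 | h0
  · exfalso; rw [← h0, M.lr_old le_rfl] at hlt; omega
  · obtain ⟨n, rfl⟩ : ∃ n, t = n + 1 := ⟨t - 1, by omega⟩
    rcases M.lr_succ (show t0 ≤ n by omega) c with ⟨-, h2⟩ | ⟨h1, h2⟩
    · omega
    · rw [h2]; exact h1

end Med

/-- `lr t` depends on the stopping time up to `t` only -/
theorem Med.lr_ext {γ ι : Type*} [Fintype γ] (M M' : Med γ ι) (hq : M.q = M'.q) {t0 t : ℕ}
    (hs : ∀ u ≤ t, ∀ y, M.st u y ↔ M'.st u y) (c : γ) : M.lr t0 t c = M'.lr t0 t c := by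
  have hcell : ∀ r c, M.cell r c = M'.cell r c := fun r c => by
    ext y; rw [M.mem_cell, M'.mem_cell, hq]
  have hpr : ∀ r c u, u ≤ t → M.pr r c u = M'.pr r c u := fun r c u hu => by
    unfold Med.pr
    rw [hcell]
    refine congrArg _ (funext fun y => ?_)
    rw [show (M.st u y) = (M'.st u y) from propext (hs u hu y)]
  have key : ∀ n, n ≤ t → M.lr t0 n c = M'.lr t0 n c := by
    intro n
    induction n with
    | zero => intro _; rfl
    | succ n ih =>
      intro hn
      have e := ih (by omega)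
      rcases Nat.lt_or_ge n t0 with h1 | h1
      · rw [M.lr_old (by omega), M'.lr_old (by omega)]
      · rcases M.lr_succ h1 c with ⟨h2, h3⟩ | ⟨h2, h3⟩ <;> rcases M'.lr_succ h1 c with ⟨h2', h3'⟩ | ⟨h2', h3'⟩
        · rw [h3, h3']
        · rw [hpr _ _ _ hn, e] at h2; exact absurd h2 (not_lt.2 h2')
        · rw [hpr _ _ _ hn, e] at h2; exact absurd h2' (not_lt.2 h2)
        · rw [h3, h3', e]
  exact key t le_rfl

namespace Med

variable {γ ι : Type*} [Fintype γ] (M : Med γ ι)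

/-- sum over a cell = sum over the cells of the last renewal times -/
theorem sum_atoms {t0 t : ℕ} (h : t0 ≤ t) (c0 : γ) (f g : γ → ℝ)
    (hfg : ∀ c ∈ M.cell t0 c0, ∑ y ∈ M.cell (M.lr t0 t c) c, f y ≤ ∑ y ∈ M.cell (M.lr t0 t c) c, g y) :
    ∑ c ∈ M.cell t0 c0, f c ≤ ∑ c ∈ M.cell t0 c0, g c := by
  classical
  let κ : γ → ℕ × ι := fun c => (M.lr t0 t c, M.q (M.lr t0 t c) c)
  have hκ : ∀ c ∈ M.cell t0 c0, (M.cell t0 c0).filter (fun y => κ y = κ c) = M.cell (M.lr t0 t c) c := by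
    intro c hc
    ext y
    rw [mem_filter, M.mem_cell, M.mem_cell]
    constructor
    · rintro ⟨-, hy⟩
      simp only [κ, Prod.mk.injEq] at hy
      rw [hy.1] at hy
      exact hy.2
    · intro hy
      have e1 : M.lr t0 t y = M.lr t0 t c := M.lr_cell h hy.symm
      refine ⟨?_, ?_⟩
      · rw [M.mem_cell] at hc
        rw [← hc]
        exact M.q_le (M.lr_bd h c).1 hy
      · simp only [κ, e1, hy]
  have split : ∀ F : γ → ℝ, ∑ c ∈ M.cell t0 c0, F c =
      ∑ k ∈ (M.cell t0 c0).image κ, ∑ y ∈ (M.cell t0 c0).filter (fun y => κ y = k), F y := fun F =>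
    (sum_fiberwise_of_maps_to (fun c hc => mem_image_of_mem κ hc) F).symm
  rw [split f, split g]
  refine sum_le_sum fun k hk => ?_
  obtain ⟨c, hc, rfl⟩ := mem_image.1 hk
  rw [hκ c hc]
  exact hfg c hc

theorem sum_ind_st (r : ℕ) (c : γ) (u : ℕ) :
    ∑ y ∈ M.cell r c, ind (M.st u y) = M.pr r c u * (M.cell r c).card := by
  unfold pr avg
  rw [div_mul_cancel₀]
  exact (M.card_cell_pos r c).ne'

theorem ind_not (p : Prop) : ind (¬ p) = 1 - ind p := by
  by_cases h : p
  · rw [ind_true h, ind_false (not_not.2 h)]; norm_num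
  · rw [ind_false h, ind_true h]; norm_num

theorem sum_ind_nst (r : ℕ) (c : γ) (u : ℕ) :
    ∑ y ∈ M.cell r c, ind (¬ M.st u y) = (1 - M.pr r c u) * (M.cell r c).card := by
  simp only [ind_not, sum_sub_distrib, sum_const, M.sum_ind_st, nsmul_eq_mul]
  ring

/-- MEDIAN LEMMA, loss: `s` fixed, `psi` supported in `{T ≥ s}` -/
theorem med_loss {t0 s : ℕ} (hs : t0 < s) (c0 : γ) {psi : γ → ℝ} {R : ℕ → γ → ℝ} {bad : ℕ → γ → Prop}
    {lam Mx : ℝ} (hlam : 0 ≤ lam) (hMx : 0 ≤ Mx) (hpsi0 : ∀ c, M.st (s - 1) c → psi c ≤ 0)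
    (hR : ∀ t c, t0 ≤ t → t < s → ¬ M.st t c → ∑ y ∈ M.cell t c, psi y ≤ R t c * (M.cell t c).card)
    (hlamR : ∀ t c, t0 ≤ t → t < s → ¬ M.st t c → ¬ bad t c → R t c ≤ lam)
    (hMxR : ∀ t c, t0 ≤ t → t < s → ¬ M.st t c → R t c ≤ Mx)
    (hbad : ∀ t c c', M.q t c = M.q t c' → (bad t c ↔ bad t c')) :
    ∑ c ∈ M.cell t0 c0, psi c ≤ 2 * lam * ∑ c ∈ M.cell t0 c0, ind (¬ M.st (s - 1) c) +
      Mx * ∑ t ∈ Finset.Ico t0 s, ∑ c ∈ M.cell t0 c0, ind (M.lr t0 t c = t ∧ ¬ M.st t c ∧ bad t c) := by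
  classical
  have h : t0 ≤ s - 1 := by omega
  have e : 2 * lam * ∑ c ∈ M.cell t0 c0, ind (¬ M.st (s - 1) c) +
      Mx * ∑ t ∈ Finset.Ico t0 s, ∑ c ∈ M.cell t0 c0, ind (M.lr t0 t c = t ∧ ¬ M.st t c ∧ bad t c) =
      ∑ c ∈ M.cell t0 c0, (2 * lam * ind (¬ M.st (s - 1) c) +
        Mx * ∑ t ∈ Finset.Ico t0 s, ind (M.lr t0 t c = t ∧ ¬ M.st t c ∧ bad t c)) := by
    rw [sum_add_distrib, mul_sum, sum_comm, mul_sum]
  rw [e]
  refine M.sum_atoms h c0 _ _ fun c _ => ?_
  set r := M.lr t0 (s - 1) c with hr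
  have hb := M.lr_bd h c
  rw [← hr] at hb
  have hrs : r < s := by omega
  have hterm : ∀ y, 0 ≤ 2 * lam * ind (¬ M.st (s - 1) y) +
      Mx * ∑ t ∈ Finset.Ico t0 s, ind (M.lr t0 t y = t ∧ ¬ M.st t y ∧ bad t y) := fun y =>
    add_nonneg (mul_nonneg (by linarith) (ind_nonneg _)) (mul_nonneg hMx (sum_nonneg fun t _ => ind_nonneg _))
  by_cases hst : M.st r c
  · have hall : ∀ y ∈ M.cell r c, psi y ≤ 0 := fun y hy =>
      hpsi0 y (M.st_le (by omega) ((M.inv r y c (M.mem_cell.1 hy)).2 hst))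
    exact (sum_nonpos hall).trans (sum_nonneg fun y _ => hterm y)
  · have hst' : ∀ y ∈ M.cell r c, ¬ M.st r y := fun y hy hh => hst ((M.inv r y c (M.mem_cell.1 hy)).1 hh)
    have hlr : ∀ y ∈ M.cell r c, M.lr t0 r y = r := by
      intro y hy
      have hy' := M.mem_cell.1 hy
      have e1 : M.lr t0 r y = M.lr t0 r c := M.lr_inv hb.1 hy'
      rw [e1]
      have aux : ∀ n, t0 ≤ n → M.lr t0 (M.lr t0 n c) c = M.lr t0 n c := by
        intro n hn
        induction n, hn using Nat.le_induction with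
        | base => rw [M.lr_old le_rfl, M.lr_old le_rfl]
        | succ n hn ih =>
          rcases M.lr_succ hn c with ⟨-, h2⟩ | ⟨-, h2⟩
          · rw [h2, h2]
          · rw [h2, ih]
      exact aux _ h
    have hcard := M.card_cell_pos r c
    by_cases hbd : bad r c
    · have hone : ∀ y ∈ M.cell r c, psi y ≤ psi y := fun _ _ => le_rfl
      have h1 : ∑ y ∈ M.cell r c, psi y ≤ Mx * (M.cell r c).card :=
        (hR r c hb.1 hrs hst).trans (mul_le_mul_of_nonneg_right (hMxR r c hb.1 hrs hst) hcard.le)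
      have h2 : ∑ _y ∈ M.cell r c, Mx ≤ ∑ y ∈ M.cell r c, (2 * lam * ind (¬ M.st (s - 1) y) +
          Mx * ∑ t ∈ Finset.Ico t0 s, ind (M.lr t0 t y = t ∧ ¬ M.st t y ∧ bad t y)) := by
        refine sum_le_sum fun y hy => ?_
        have h3 : (1 : ℝ) ≤ ∑ t ∈ Finset.Ico t0 s, ind (M.lr t0 t y = t ∧ ¬ M.st t y ∧ bad t y) := by
          have h4 : ind (M.lr t0 r y = r ∧ ¬ M.st r y ∧ bad r y) = 1 :=
            ind_true ⟨hlr y hy, hst' y hy, (hbad r y c (M.mem_cell.1 hy)).2 hbd⟩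
          rw [← h4]
          exact single_le_sum (f := fun t => ind (M.lr t0 t y = t ∧ ¬ M.st t y ∧ bad t y))
            (fun t _ => ind_nonneg _) (mem_Ico.2 ⟨hb.1, hrs⟩)
        have h5 : 0 ≤ 2 * lam * ind (¬ M.st (s - 1) y) := mul_nonneg (by linarith) (ind_nonneg _)
        nlinarith
      rw [sum_const, nsmul_eq_mul, mul_comm] at h2
      exact h1.trans h2
    · have h1 : ∑ y ∈ M.cell r c, psi y ≤ lam * (M.cell r c).card :=
        (hR r c hb.1 hrs hst).trans (mul_le_mul_of_nonneg_right (hlamR r c hb.1 hrs hst hbd) hcard.le)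
      have h2 : (1 / 2 : ℝ) * (M.cell r c).card ≤ ∑ y ∈ M.cell r c, ind (¬ M.st (s - 1) y) := by
        rcases Nat.lt_or_ge r (s - 1) with h3 | h3
        · rw [M.sum_ind_nst]
          have h4 := M.pr_lr h c (by rw [← hr]; exact h3)
          rw [← hr] at h4
          exact mul_le_mul_of_nonneg_right (by linarith) hcard.le
        · have h4 : s - 1 = r := by omega
          rw [h4]
          have h5 : ∑ y ∈ M.cell r c, ind (¬ M.st r y) = (M.cell r c).card := by
            rw [sum_congr rfl fun y hy => ind_true (hst' y hy)]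
            simp
          rw [h5]
          linarith
      have h3 : ∑ y ∈ M.cell r c, 2 * lam * ind (¬ M.st (s - 1) y) ≤
          ∑ y ∈ M.cell r c, (2 * lam * ind (¬ M.st (s - 1) y) +
          Mx * ∑ t ∈ Finset.Ico t0 s, ind (M.lr t0 t y = t ∧ ¬ M.st t y ∧ bad t y)) :=
        sum_le_sum fun y _ => le_add_of_nonneg_right (mul_nonneg hMx (sum_nonneg fun t _ => ind_nonneg _))
      refine h1.trans (le_trans ?_ h3)
      rw [← mul_sum]
      nlinarith

/-- mean number of renewal times before `T` -/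
theorem med_count {t0 K : ℕ} (hK : t0 ≤ K) (c0 : γ) :
    ∑ t ∈ Finset.Ico t0 (K + 1), ∑ c ∈ M.cell t0 c0, ind (M.lr t0 t c = t ∧ ¬ M.st t c) ≤
      2 * (M.cell t0 c0).card := by
  classical
  -- potential: not stopped at the last renewal time
  have step : ∀ t, t0 ≤ t → ∑ c ∈ M.cell t0 c0, ind (M.lr t0 (t + 1) c = t + 1 ∧ ¬ M.st (t + 1) c) ≤
      ∑ c ∈ M.cell t0 c0, ind (¬ M.st (M.lr t0 t c) c) -
        ∑ c ∈ M.cell t0 c0, ind (¬ M.st (M.lr t0 (t + 1) c) c) := by
    intro t ht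
    rw [← sum_sub_distrib]
    refine M.sum_atoms ht c0 _ _ fun c _ => ?_
    set r := M.lr t0 t c with hr
    have hb := M.lr_bd ht c
    rw [← hr] at hb
    have hly : ∀ y ∈ M.cell r c, M.lr t0 t y = r := fun y hy => M.lr_cell ht (M.mem_cell.1 hy).symm
    have hpy : ∀ y ∈ M.cell r c, M.pr r y (t + 1) = M.pr r c (t + 1) := fun y hy =>
      M.pr_congr (M.mem_cell.1 hy) _
    by_cases h1 : 1 / 2 < M.pr r c (t + 1)
    · have hl : ∀ y ∈ M.cell r c, M.lr t0 (t + 1) y = t + 1 := by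
        intro y hy
        rcases M.lr_succ ht y with ⟨-, h3⟩ | ⟨h2, -⟩
        · exact h3
        · rw [hly y hy, hpy y hy] at h2
          exact absurd h1 (not_lt.2 h2)
      by_cases hst : M.st r c
      · refine sum_le_sum fun y hy => ?_
        have h2 : M.st r y := (M.inv r y c (M.mem_cell.1 hy)).2 hst
        have h3 : M.st (t + 1) y := M.st_le (by omega) h2
        rw [hl y hy, hly y hy, ind_false (fun hh => hh.2 h3), ind_false (not_not.2 h2), ind_false (not_not.2 h3)]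
        norm_num
      · have h2 : ∀ y ∈ M.cell r c, ind (M.lr t0 (t + 1) y = t + 1 ∧ ¬ M.st (t + 1) y) = ind (¬ M.st (t + 1) y) := by
          intro y hy
          by_cases h3 : M.st (t + 1) y
          · rw [ind_false (fun hh => hh.2 h3), ind_false (not_not.2 h3)]
          · rw [ind_true ⟨hl y hy, h3⟩, ind_true h3]
        have h3 : ∀ y ∈ M.cell r c, ind (¬ M.st (M.lr t0 t y) y) - ind (¬ M.st (M.lr t0 (t + 1) y) y) =
            1 - ind (¬ M.st (t + 1) y) := by
          intro y hy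
          have h4 : ¬ M.st r y := fun hh => hst ((M.inv r y c (M.mem_cell.1 hy)).1 hh)
          rw [hl y hy, hly y hy, ind_true h4]
        rw [sum_congr rfl h2, sum_congr rfl h3, sum_sub_distrib, M.sum_ind_nst]
        simp only [sum_const, nsmul_eq_mul, mul_one]
        have hcard := M.card_cell_pos r c
        nlinarith
    · have hl : ∀ y ∈ M.cell r c, M.lr t0 (t + 1) y = r := by
        intro y hy
        rcases M.lr_succ ht y with ⟨h2, -⟩ | ⟨-, h3⟩
        · rw [hly y hy, hpy y hy] at h2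
          exact absurd h2 h1
        · rw [h3, hly y hy]
      refine sum_le_sum fun y hy => ?_
      rw [hl y hy, hly y hy, ind_false (fun hh => by omega)]
      norm_num
  have main : ∀ n, t0 ≤ n → ∑ t ∈ Finset.Ico t0 (n + 1), ∑ c ∈ M.cell t0 c0, ind (M.lr t0 t c = t ∧ ¬ M.st t c) ≤
      2 * (M.cell t0 c0).card - ∑ c ∈ M.cell t0 c0, ind (¬ M.st (M.lr t0 n c) c) := by
    intro n hn
    induction n, hn using Nat.le_induction with
    | base =>
      have e0 : Finset.Ico t0 (t0 + 1) = {t0} := by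
        ext x; simp only [mem_Ico, mem_singleton]; omega
      rw [e0, sum_singleton]
      have h1 : ∀ c ∈ M.cell t0 c0, ind (M.lr t0 t0 c = t0 ∧ ¬ M.st t0 c) + ind (¬ M.st (M.lr t0 t0 c) c) ≤ 2 := by
        intro c _
        have a1 : ind (M.lr t0 t0 c = t0 ∧ ¬ M.st t0 c) ≤ 1 := by unfold ind; split_ifs <;> norm_num
        have a2 : ind (¬ M.st (M.lr t0 t0 c) c) ≤ 1 := by unfold ind; split_ifs <;> norm_num
        linarith
      have h2 := sum_le_sum h1
      rw [sum_add_distrib, sum_const, nsmul_eq_mul] at h2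
      linarith
    | succ n hn ih =>
      rw [sum_Ico_succ_top (by omega : t0 ≤ n + 1)]
      have h1 := step n hn
      linarith
  have h2 : 0 ≤ ∑ c ∈ M.cell t0 c0, ind (¬ M.st (M.lr t0 K c) c) := sum_nonneg fun c _ => ind_nonneg _
  linarith [main K hK]

end Med

end

end Pool.Agent.M3.S3
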