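import Pool.Agent.M3.S3.ParA
import Pool.Agent.M3.S3Key

/-!
# M3.S3.NumA: the final inequality of route A (helper2)

`x = n^(1/1000)`, `u = x⁻¹`.  All quantities are bounded by `c * u^k` (`c ≤ 2^1000 ≤ x`).
* `th`, `rr`, `l3`, `lam`, `sgh`: derived parameters; simple facts `B_ge`, `B_eta`, `q_leA`, `mu_le`, `y_ok`;
* `tiny*`: the terms with `exp (-l3)`, `exp (-l/2)`;
* `af_small`, `bg_small`;
* `final`: the inequality.
-/

set_option autoImplicit false

namespace Pool.Agent.M3.S3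

open Real

noncomputable section

namespace PA

/-- threshold of the big falls, parameter of Lemma P -/
def th (Lam n : ℝ) : ℝ := (al Lam / n) ^ 5

def rr (Lam n : ℝ) : ℝ := Real.exp (-(100 * lg Lam n)) / al Lam

def l3 (n : ℝ) : ℝ := 3 * x n ^ 600

def lam (Lam n : ℝ) : ℝ := sg Lam n * (100 * lg Lam n + 1) + 4 / del n * (sg Lam n * (Lam + 1))

/-- saturation of the half step classes -/
def sgh (Lam n : ℝ) : ℝ := 4 * (2 + Lam) * sg Lam n * (2 * (50 * lg Lam n) + 2)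

variable {Lam n : ℝ}

/-! ### powers of `u = x⁻¹` -/

theorem u_pos (h : Big Lam n) : 0 < (x n)⁻¹ := inv_pos.mpr h.x_pos

theorem xu (h : Big Lam n) {a b : ℕ} (hab : a ≤ b) : x n ^ a * (x n)⁻¹ ^ b = (x n)⁻¹ ^ (b - a) := by
  have hx := h.x_pos.ne'
  obtain ⟨c, rfl⟩ := Nat.exists_eq_add_of_le hab
  rw [Nat.add_sub_cancel_left, pow_add, ← mul_assoc, ← mul_pow, mul_inv_cancel₀ hx, one_pow, one_mul]

theorem u_le_one (h : Big Lam n) : (x n)⁻¹ ≤ 1 := inv_le_one_of_one_le₀ h.x_ge1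

theorem u_anti (h : Big Lam n) {a b : ℕ} (hab : a ≤ b) : (x n)⁻¹ ^ b ≤ (x n)⁻¹ ^ a :=
  pow_le_pow_of_le_one (u_pos h).le (u_le_one h) hab

/-- a constant is absorbed by one power -/
theorem cu (h : Big Lam n) {c : ℝ} (hc : c ≤ 2 ^ 1000) : c * (x n)⁻¹ ≤ 1 := by
  rw [← div_eq_mul_inv, div_le_one h.x_pos]
  exact hc.trans h.x_ge

theorem absorb (h : Big Lam n) {c : ℝ} (hc : c ≤ 2 ^ 1000) {k m : ℕ} (hk : m + 1 ≤ k) :
    c * (x n)⁻¹ ^ k ≤ (x n)⁻¹ ^ m := by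
  obtain ⟨j, rfl⟩ := Nat.exists_eq_add_of_le hk
  have h1 : c * (x n)⁻¹ ^ (m + 1 + j) = (c * (x n)⁻¹) * (x n)⁻¹ ^ (m + j) := by ring
  rw [h1]
  have h2 := cu h hc
  have h3 : 0 ≤ (x n)⁻¹ ^ (m + j) := pow_nonneg (u_pos h).le _
  have h4 : (x n)⁻¹ ^ (m + j) ≤ (x n)⁻¹ ^ m := u_anti h (Nat.le_add_right m j)
  nlinarith

theorem n_inv (h : Big Lam n) : n⁻¹ = (x n)⁻¹ ^ 1000 := by
  rw [inv_pow, h.n_eq]

theorem two_le_x (h : Big Lam n) : (10 : ℝ) ^ 6 ≤ x n := by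
  refine le_trans ?_ h.x_ge
  refine le_trans (?_ : (10 : ℝ) ^ 6 ≤ 2 ^ 20) (pow_le_pow_right₀ (by norm_num) (by norm_num))
  norm_num

theorem lg_nonneg (h : Big Lam n) : 0 ≤ lg Lam n := le_trans (by norm_num) h.lg_ge

theorem lg_pos (h : Big Lam n) : 0 < lg Lam n := lt_of_lt_of_le (by norm_num) h.lg_ge

theorem n_le_exp (h : Big Lam n) : n ≤ Real.exp (lg Lam n) := by
  have h1 : Real.exp (Real.log n) = n := Real.exp_log h.n_pos
  calc n = Real.exp (Real.log n) := h1.symm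
    _ ≤ _ := Real.exp_le_exp.mpr (by unfold lg; linarith [h.Lam1])

theorem Lam_le_exp (h : Big Lam n) : Lam ≤ Real.exp (lg Lam n) := by
  have h1 := Real.add_one_le_exp (lg Lam n)
  have h2 : Lam ≤ lg Lam n := by unfold lg; linarith [h.log_nonneg]
  linarith

/-- `exp (-x) ≤ u^1000` -/
theorem exp_neg_x (h : Big Lam n) : Real.exp (-x n) ≤ (x n)⁻¹ ^ 1000 := by
  have h1 := log_le_pow h.x_ge
  have h2 : x n ^ 1000 ≤ Real.exp (x n) := by
    calc x n ^ 1000 = Real.exp (1000 * Real.log (x n)) := by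
          rw [show (1000 : ℝ) = ((1000 : ℕ) : ℝ) by norm_num, Real.exp_nat_mul, Real.exp_log h.x_pos]
      _ ≤ _ := Real.exp_le_exp.mpr h1
  rw [Real.exp_neg, inv_pow]
  exact inv_anti₀ (pow_pos h.x_pos _) h2

theorem x_mul_le (h : Big Lam n) {c : ℝ} (hc : c ≤ 2 ^ 1000) {k : ℕ} (hk : 2 ≤ k) : c * x n ≤ x n ^ k := by
  have h1 : x n ^ 2 ≤ x n ^ k := pow_le_pow_right₀ h.x_ge1 hk
  have h2 : c * x n ≤ x n ^ 2 := by
    rw [sq]
    exact mul_le_mul_of_nonneg_right (hc.trans h.x_ge) h.x_pos.le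
  exact h2.trans h1

/-! ### the parameters -/

theorem del_pos (h : Big Lam n) : 0 < del n := pow_pos (u_pos h) _
theorem q_posA (h : Big Lam n) : 0 < q n := pow_pos (u_pos h) _
theorem y_pos (h : Big Lam n) : 0 < y n := pow_pos (u_pos h) _
theorem eta_pos (h : Big Lam n) : 0 < eta n := pow_pos (u_pos h) _
theorem l_pos (h : Big Lam n) : 0 < l n := by unfold l; have := h.x_pos; positivity
theorem L0_pos (h : Big Lam n) : 0 < L0 n := pow_pos h.x_pos _
theorem B_pos (h : Big Lam n) : 0 < B n := by unfold B; have := h.x_pos; positivity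
theorem mu_pos : 0 < mu Lam n := Real.exp_pos _

theorem two_pow_le {c : ℝ} {m : ℕ} (hm : m ≤ 1000) (hc : c ≤ 2 ^ m) : c ≤ 2 ^ 1000 :=
  hc.trans (pow_le_pow_right₀ (by norm_num) hm)

theorem Lr_pos (h : Big Lam n) : 0 < Lr Lam n := by
  unfold Lr
  linarith [lg_pos h]

theorem one_le_Lr (h : Big Lam n) : 10 ≤ Lr Lam n := by
  unfold Lr
  linarith [h.lg_ge]

theorem sg_eq (h : Big Lam n) : sg Lam n = 40 * lg Lam n * (x n)⁻¹ ^ 1000 := by
  unfold sg Lr
  rw [← n_inv h]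
  ring

theorem sg_pos (h : Big Lam n) : 0 < sg Lam n := by
  rw [sg_eq h]
  have := lg_pos h
  have := u_pos h
  positivity

theorem sg_le (h : Big Lam n) : sg Lam n ≤ 80 * (x n)⁻¹ ^ 999 := by
  rw [sg_eq h]
  have h1 : 0 ≤ (x n)⁻¹ ^ 1000 := pow_nonneg (u_pos h).le _
  have h2 : x n * (x n)⁻¹ ^ 1000 = (x n)⁻¹ ^ 999 := by
    have := xu h (show 1 ≤ 1000 by norm_num)
    rwa [pow_one] at this
  rw [← h2]
  nlinarith [h.lg_le]

theorem sgh_pos (h : Big Lam n) : 0 < sgh Lam n := by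
  unfold sgh
  have h1 := sg_pos h
  have h2 := lg_pos h
  have h3 := h.Lam1
  have h4 : 0 < 2 + Lam := by linarith
  positivity

theorem sg_le_sgh (h : Big Lam n) : sg Lam n ≤ sgh Lam n := by
  unfold sgh
  have h1 := sg_pos h
  have h2 := lg_pos h
  have h3 := h.Lam1
  have h4 : (1 : ℝ) ≤ 4 * (2 + Lam) * (2 * (50 * lg Lam n) + 2) := by nlinarith
  have h5 : 4 * (2 + Lam) * sg Lam n * (2 * (50 * lg Lam n) + 2) =
      sg Lam n * (4 * (2 + Lam) * (2 * (50 * lg Lam n) + 2)) := by ring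
  rw [h5]
  nlinarith

theorem sgh_le (h : Big Lam n) : sgh Lam n ≤ 200000 * (x n)⁻¹ ^ 997 := by
  have hx := h.x_pos
  have hx1 := h.x_ge1
  have hu := u_pos h
  have h1 := sg_pos h
  have h2 := sg_le h
  have h3 : 4 * (2 + Lam) ≤ 12 * x n := by linarith [h.Lam_le]
  have h4 : 2 * (50 * lg Lam n) + 2 ≤ 202 * x n := by linarith [h.lg_le]
  have h5 : 0 ≤ 2 * (50 * lg Lam n) + 2 := by linarith [lg_pos h]
  have h6 : 0 ≤ (x n)⁻¹ ^ 999 := pow_nonneg hu.le _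
  have h7 : x n ^ 2 * (x n)⁻¹ ^ 999 = (x n)⁻¹ ^ 997 := xu h (by norm_num)
  unfold sgh
  calc 4 * (2 + Lam) * sg Lam n * (2 * (50 * lg Lam n) + 2) ≤
      (12 * x n) * (80 * (x n)⁻¹ ^ 999) * (202 * x n) := by
        refine mul_le_mul (mul_le_mul h3 h2 h1.le (by positivity)) h4 h5 (by positivity)
    _ = 193920 * (x n ^ 2 * (x n)⁻¹ ^ 999) := by ring
    _ ≤ 200000 * (x n)⁻¹ ^ 997 := by
        rw [h7]
        have : 0 ≤ (x n)⁻¹ ^ 997 := pow_nonneg hu.le _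
        linarith

theorem Lam1_le (h : Big Lam n) : Lam + 1 ≤ 2 * x n := by linarith [h.Lam_le, h.x_ge1]

theorem d_le (h : Big Lam n) : sgh Lam n * (Lam + 1) ≤ 400000 * (x n)⁻¹ ^ 996 := by
  have hx := h.x_pos
  have hu := u_pos h
  have h7 : x n ^ 1 * (x n)⁻¹ ^ 997 = (x n)⁻¹ ^ 996 := xu h (by norm_num)
  calc sgh Lam n * (Lam + 1) ≤ (200000 * (x n)⁻¹ ^ 997) * (2 * x n) :=
        mul_le_mul (sgh_le h) (Lam1_le h) (by linarith [h.Lam1]) (by positivity)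
    _ = 400000 * (x n ^ 1 * (x n)⁻¹ ^ 997) := by ring
    _ = _ := by rw [h7]

theorem inv_del (_h : Big Lam n) : 4 / del n = 4 * x n ^ 200 := by
  unfold del
  rw [inv_pow, div_inv_eq_mul]

theorem lam_nonneg (h : Big Lam n) : 0 ≤ lam Lam n := by
  unfold lam
  have h1 := sg_pos h
  have h2 := lg_pos h
  have h3 := del_pos h
  have h4 := h.Lam1
  have h5 : 0 < Lam + 1 := by linarith
  positivity

theorem lam_le (h : Big Lam n) : lam Lam n ≤ 1000 * (x n)⁻¹ ^ 798 := by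
  have hx := h.x_pos
  have hx1 := h.x_ge1
  have hu := u_pos h
  have h1 := sg_pos h
  have h2 := sg_le h
  have h3 := lg_pos h
  have a1 : sg Lam n * (100 * lg Lam n + 1) ≤ 16080 * (x n)⁻¹ ^ 998 := by
    have h7 : x n ^ 1 * (x n)⁻¹ ^ 999 = (x n)⁻¹ ^ 998 := xu h (by norm_num)
    calc sg Lam n * (100 * lg Lam n + 1) ≤ (80 * (x n)⁻¹ ^ 999) * (201 * x n) :=
          mul_le_mul h2 (by linarith [h.lg_le]) (by linarith) (by positivity)
      _ = 16080 * (x n ^ 1 * (x n)⁻¹ ^ 999) := by ring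
      _ = _ := by rw [h7]
  have a2 : 4 / del n * (sg Lam n * (Lam + 1)) ≤ 640 * (x n)⁻¹ ^ 798 := by
    rw [inv_del h]
    have h7 : x n ^ 201 * (x n)⁻¹ ^ 999 = (x n)⁻¹ ^ 798 := xu h (by norm_num)
    calc 4 * x n ^ 200 * (sg Lam n * (Lam + 1)) ≤ 4 * x n ^ 200 * ((80 * (x n)⁻¹ ^ 999) * (2 * x n)) := by
          refine mul_le_mul_of_nonneg_left ?_ (by positivity)
          exact mul_le_mul h2 (Lam1_le h) (by linarith [h.Lam1]) (by positivity)
      _ = 640 * (x n ^ 201 * (x n)⁻¹ ^ 999) := by ring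
      _ = _ := by rw [h7]
  have a3 := absorb h (c := 16080) (by
    refine le_trans (?_ : (16080 : ℝ) ≤ 2 ^ 14) (pow_le_pow_right₀ (by norm_num) (by norm_num)); norm_num)
    (show 798 + 1 ≤ 998 by norm_num)
  unfold lam
  have : 0 ≤ (x n)⁻¹ ^ 798 := pow_nonneg hu.le _
  linarith

/-- (R2): the exceptional set -/
theorem y_ok (h : Big Lam n) : sgh Lam n * (l3 n + Lam + 1) + 4 / del n * (sgh Lam n * (Lam + 1)) ≤ y n := by
  have hx := h.x_pos
  have hx1 := h.x_ge1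
  have hu := u_pos h
  have h1 := sgh_pos h
  have a1 : sgh Lam n * (l3 n + Lam + 1) ≤ 1000000 * (x n)⁻¹ ^ 397 := by
    have h7 : x n ^ 600 * (x n)⁻¹ ^ 997 = (x n)⁻¹ ^ 397 := xu h (by norm_num)
    have h8 : l3 n + Lam + 1 ≤ 5 * x n ^ 600 := by
      have h9 := x_mul_le h (c := 1) (one_le_pow₀ (by norm_num)) (show 2 ≤ 600 by norm_num)
      unfold l3
      linarith [Lam1_le h]
    have h10 : 0 ≤ l3 n + Lam + 1 := by
      unfold l3
      have := h.Lam1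
      positivity
    calc sgh Lam n * (l3 n + Lam + 1) ≤ (200000 * (x n)⁻¹ ^ 997) * (5 * x n ^ 600) :=
          mul_le_mul (sgh_le h) h8 h10 (by positivity)
      _ = 1000000 * (x n ^ 600 * (x n)⁻¹ ^ 997) := by ring
      _ = _ := by rw [h7]
  have a2 : 4 / del n * (sgh Lam n * (Lam + 1)) ≤ 1600000 * (x n)⁻¹ ^ 796 := by
    rw [inv_del h]
    have h7 : x n ^ 200 * (x n)⁻¹ ^ 996 = (x n)⁻¹ ^ 796 := xu h (by norm_num)
    calc 4 * x n ^ 200 * (sgh Lam n * (Lam + 1)) ≤ 4 * x n ^ 200 * (400000 * (x n)⁻¹ ^ 996) :=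
          mul_le_mul_of_nonneg_left (d_le h) (by positivity)
      _ = 1600000 * (x n ^ 200 * (x n)⁻¹ ^ 996) := by ring
      _ = _ := by rw [h7]
  have hbig : (2000000 : ℝ) ≤ 2 ^ 1000 := by
    refine le_trans (?_ : (2000000 : ℝ) ≤ 2 ^ 21) (pow_le_pow_right₀ (by norm_num) (by norm_num))
    norm_num
  have a3 := absorb h (c := 2000000) hbig (show 380 + 1 ≤ 397 by norm_num)
  have a4 := absorb h (c := 2000000 * 2) (by
    refine le_trans (?_ : (2000000 * 2 : ℝ) ≤ 2 ^ 22) (pow_le_pow_right₀ (by norm_num) (by norm_num))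
    norm_num) (show 380 + 1 ≤ 796 by norm_num)
  unfold y
  have b1 : 0 ≤ (x n)⁻¹ ^ 397 := pow_nonneg hu.le _
  have b2 : 0 ≤ (x n)⁻¹ ^ 796 := pow_nonneg hu.le _
  linarith

/-! ### simple facts -/

theorem B_ge (h : Big Lam n) : Real.exp 2 ≤ B n := by
  have h1 : Real.exp 2 ≤ 8 := by
    have h2 : Real.exp 2 = Real.exp 1 * Real.exp 1 := by
      rw [← Real.exp_add]
      norm_num
    have h3 := Real.exp_one_lt_d9
    have h4 := Real.exp_pos 1
    rw [h2]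
    nlinarith
  unfold B
  have h5 : (1 : ℝ) ≤ x n ^ 25 := one_le_pow₀ h.x_ge1
  linarith

theorem B_eta_eq (h : Big Lam n) : B n * eta n = 8 := by
  unfold B eta
  rw [mul_assoc, xu h le_rfl]
  norm_num

theorem B_eta (h : Big Lam n) : 2 * Real.exp 1 ≤ B n * eta n := by
  rw [B_eta_eq h]
  have h3 := Real.exp_one_lt_d9
  linarith

theorem log_B_ge (h : Big Lam n) : 2 ≤ Real.log (B n) := by
  rw [Real.le_log_iff_exp_le (B_pos h)]
  exact B_ge h

theorem q_leA (h : Big Lam n) : q n ≤ 1 / 4 := by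
  unfold q
  have h1 := absorb h (c := 4) (by
    refine le_trans (?_ : (4 : ℝ) ≤ 2 ^ 2) (pow_le_pow_right₀ (by norm_num) (by norm_num)); norm_num)
    (show 0 + 1 ≤ 300 by norm_num)
  rw [pow_zero] at h1
  linarith

theorem mu_le (h : Big Lam n) : mu Lam n ≤ 1 / 4 := by
  unfold mu
  have h1 := h.lg_ge
  have h2 := Real.add_one_le_exp (50 * lg Lam n)
  rw [Real.exp_neg, inv_le_comm₀ (Real.exp_pos _) (by norm_num)]
  linarith

theorem mu_le_one (h : Big Lam n) : mu Lam n ≤ 1 := by linarith [mu_le h]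

theorem log_inv_mu : Real.log (1 / mu Lam n) = 50 * lg Lam n := by
  unfold mu
  rw [one_div, Real.log_inv, Real.log_exp, neg_neg]

theorem th_pos (h : Big Lam n) : 0 < th Lam n := by
  unfold th
  exact pow_pos (div_pos al_pos h.n_pos) 5

theorem th_eq (h : Big Lam n) : th Lam n = Real.exp (-(5 * lg Lam n)) := by
  unfold th
  rw [h.aln, ← Real.exp_nat_mul]
  congr 1
  push_cast
  ring

theorem th_le_one (h : Big Lam n) : th Lam n ≤ 1 := by
  rw [th_eq h, Real.exp_le_one_iff]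
  linarith [lg_pos h]

theorem kap_eq (h : Big Lam n) : (Nm Lam n).kap = Real.exp (-(20 * lg Lam n)) := by
  show (al Lam / n) ^ 20 = _
  rw [h.aln, ← Real.exp_nat_mul]
  congr 1
  push_cast
  ring

theorem al_le_one (h : Big Lam n) : al Lam ≤ 1 := by
  unfold al
  rw [Real.exp_le_one_iff]
  linarith [h.Lam1]

/-! ### terms which are exponentially small -/

/-- `exp (k lg) = E^k` -/
theorem exp_mul_lg (k : ℕ) : Real.exp ((k : ℝ) * lg Lam n) = Real.exp (lg Lam n) ^ k := by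
  rw [← Real.exp_nat_mul]

theorem E_ge (h : Big Lam n) {c : ℝ} (hc : c ≤ 2 ^ 1000) : c ≤ Real.exp (lg Lam n) := by
  have h1 : (2 : ℝ) ^ 1000 ≤ 2 ^ 1000000 := pow_le_pow_right₀ (by norm_num) (by norm_num)
  exact hc.trans (h1.trans (h.n_ge.trans (n_le_exp h)))

theorem E_ge1 (h : Big Lam n) : 1 ≤ Real.exp (lg Lam n) := Real.one_le_exp (lg_nonneg h)

theorem xk_le_E (h : Big Lam n) {k : ℕ} (hk : k ≤ 1000) : x n ^ k ≤ Real.exp (lg Lam n) := by
  refine (pow_le_pow_right₀ h.x_ge1 hk).trans ?_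
  rw [h.n_eq]
  exact n_le_exp h

theorem inv_al_le (h : Big Lam n) : (al Lam)⁻¹ ≤ Real.exp (lg Lam n) := by
  unfold al
  rw [Real.exp_neg, inv_inv]
  exact Real.exp_le_exp.mpr (by unfold lg; linarith [h.log_nonneg])

/-- `E⁻¹ ≤ u^1000` -/
theorem inv_E_le (h : Big Lam n) : (Real.exp (lg Lam n))⁻¹ ≤ (x n)⁻¹ ^ 1000 := by
  rw [← n_inv h]
  exact inv_anti₀ h.n_pos (n_le_exp h)

/-- `c * E^(-k) ≤ u^1000 * c`-type bound -/
theorem E_neg (h : Big Lam n) {a b : ℕ} (hab : a + 1 ≤ b) :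
    Real.exp (lg Lam n) ^ a * (Real.exp (lg Lam n))⁻¹ ^ b ≤ (x n)⁻¹ ^ 1000 := by
  obtain ⟨c, rfl⟩ := Nat.exists_eq_add_of_le hab
  have h0 : Real.exp (lg Lam n) ≠ 0 := (Real.exp_pos _).ne'
  have h1 : Real.exp (lg Lam n) ^ a * (Real.exp (lg Lam n))⁻¹ ^ (a + 1 + c) =
      (Real.exp (lg Lam n))⁻¹ * (Real.exp (lg Lam n))⁻¹ ^ c := by
    rw [show a + 1 + c = a + (1 + c) by ring, pow_add, ← mul_assoc, ← mul_pow, mul_inv_cancel₀ h0, one_pow, one_mul,
      pow_add, pow_one]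
  rw [h1]
  have h2 : (Real.exp (lg Lam n))⁻¹ ^ c ≤ 1 :=
    pow_le_one₀ (inv_nonneg.mpr (Real.exp_pos _).le) (inv_le_one_of_one_le₀ (E_ge1 h))
  have h3 : 0 < (Real.exp (lg Lam n))⁻¹ := inv_pos.mpr (Real.exp_pos _)
  calc (Real.exp (lg Lam n))⁻¹ * (Real.exp (lg Lam n))⁻¹ ^ c ≤ (Real.exp (lg Lam n))⁻¹ * 1 :=
        mul_le_mul_of_nonneg_left h2 h3.le
    _ ≤ _ := by rw [mul_one]; exact inv_E_le h

theorem tiny (h : Big Lam n) {T z : ℝ} (hT : T ≤ Real.exp (100 * x n)) (hz : 101 * x n ≤ z) :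
    Real.exp (-z) * T ≤ (x n)⁻¹ ^ 1000 := by
  calc Real.exp (-z) * T ≤ Real.exp (-z) * Real.exp (100 * x n) := mul_le_mul_of_nonneg_left hT (Real.exp_pos _).le
    _ = Real.exp (-z + 100 * x n) := by rw [← Real.exp_add]
    _ ≤ Real.exp (-x n) := Real.exp_le_exp.mpr (by linarith)
    _ ≤ _ := exp_neg_x h

theorem E_le_exp_x (h : Big Lam n) {k : ℕ} (hk : k ≤ 50) : Real.exp (lg Lam n) ^ k ≤ Real.exp (100 * x n) := by
  rw [← exp_mul_lg]
  apply Real.exp_le_exp.mpr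
  have h1 : (k : ℝ) ≤ 50 := by exact_mod_cast hk
  have h2 := h.lg_le
  have h3 := lg_nonneg h
  have h4 : (0 : ℝ) ≤ k := Nat.cast_nonneg k
  nlinarith

theorem nLam_le (h : Big Lam n) : n * Lam ≤ x n ^ 1001 := by
  have h1 : n * Lam = x n ^ 1000 * Lam := by rw [h.n_eq]
  rw [h1, show x n ^ 1001 = x n ^ 1000 * x n by ring]
  exact mul_le_mul_of_nonneg_left h.Lam_le (pow_nonneg h.x_pos.le _)

theorem nLam_nonneg (h : Big Lam n) : 0 ≤ n * Lam := mul_nonneg h.n_pos.le (by linarith [h.Lam1])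

section counts

variable {F NT ST FF BG : ℝ}

theorem F_le (h : Big Lam n) (hF : F ≤ 4 * n * Lam) : F ≤ 4 * Real.exp (lg Lam n) ^ 2 := by
  have h1 := n_le_exp h
  have h2 := Lam_le_exp h
  have h3 : n * Lam ≤ Real.exp (lg Lam n) * Real.exp (lg Lam n) :=
    mul_le_mul h1 h2 (by linarith [h.Lam1]) (Real.exp_pos _).le
  calc F ≤ 4 * (n * Lam) := by linarith
    _ ≤ _ := by rw [sq]; linarith

theorem ST_le (h : Big Lam n) (hF : F ≤ 4 * n * Lam) (hNT : NT ≤ Real.exp (25 * lg Lam n))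
    (hST : ST ≤ 1 + (1 + 24 / q n) * (F + NT)) : ST ≤ Real.exp (lg Lam n) ^ 27 := by
  have hE1 := E_ge1 h
  set E := Real.exp (lg Lam n) with hE
  have hF' := F_le h hF
  rw [show (25 : ℝ) = ((25 : ℕ) : ℝ) by norm_num, exp_mul_lg] at hNT
  have hq : 24 / q n ≤ 24 * E := by
    unfold q
    rw [inv_pow, div_inv_eq_mul]
    exact mul_le_mul_of_nonneg_left (xk_le_E h (by norm_num)) (by norm_num)
  have h1 : F + NT ≤ 5 * E ^ 25 := by
    have : E ^ 2 ≤ E ^ 25 := pow_le_pow_right₀ hE1 (by norm_num)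
    linarith
  have hq0 : 0 < 1 + 24 / q n := by
    have := q_posA h
    positivity
  have h2 : (1 + 24 / q n) * (F + NT) ≤ (25 * E) * (5 * E ^ 25) := by
    refine (mul_le_mul_of_nonneg_left h1 hq0.le).trans (mul_le_mul_of_nonneg_right (by linarith) (by positivity))
  have h3 : (1 : ℝ) ≤ E ^ 26 := one_le_pow₀ hE1
  have h4 : (126 : ℝ) ≤ E := E_ge h (two_pow_le (m := 7) (by norm_num) (by norm_num))
  calc ST ≤ 1 + (25 * E) * (5 * E ^ 25) := by linarith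
    _ ≤ 126 * E ^ 26 := by
        have : (25 * E) * (5 * E ^ 25) = 125 * E ^ 26 := by ring
        linarith
    _ ≤ E * E ^ 26 := mul_le_mul_of_nonneg_right h4 (by positivity)
    _ = E ^ 27 := by ring

/-- the big falls of one system -/
theorem af_small (h : Big Lam n) (hF0 : 0 ≤ F) (hF : F ≤ 4 * n * Lam) (hNT : NT ≤ Real.exp (25 * lg Lam n))
    (hST : ST ≤ 1 + (1 + 24 / q n) * (F + NT)) (hFF : FF ≤ n * Lam / l n) :
    (2 / q n * lam Lam n + (6 * th Lam n / al Lam ^ 2 + Lam / th Lam n ^ 2 * (Nm Lam n).kap)) * FF +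
      2 * q n * lam Lam n * F + Lam * (2 * rr Lam n * ST) ≤ (x n)⁻¹ ^ 27 := by
  have hx := h.x_pos
  have hu := u_pos h
  have hL1 := h.Lam1
  have hL0 : 0 < Lam := by linarith
  have hLx := h.Lam_le
  have hST' := ST_le h hF hNT hST
  have hlam := lam_le h
  have hlam0 := lam_nonneg h
  have hE1 := E_ge1 h
  have hal := inv_al_le h
  have hLE := Lam_le_exp h
  have hxE := xk_le_E h (show 400 ≤ 1000 by norm_num)
  have hn := h.n_eq
  have hth := th_eq h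
  have hkap := kap_eq h
  have halp := al_pos (Lam := Lam)
  have hEn : ∀ {a b : ℕ}, a + 1 ≤ b → Real.exp (lg Lam n) ^ a * (Real.exp (lg Lam n))⁻¹ ^ b ≤ (x n)⁻¹ ^ 1000 :=
    fun hab => E_neg h hab
  set E := Real.exp (lg Lam n) with hE
  have hE0 : 0 < E := Real.exp_pos _
  have hthE : th Lam n = E⁻¹ ^ 5 := by
    rw [hth, Real.exp_neg, show (5 : ℝ) = ((5 : ℕ) : ℝ) by norm_num, exp_mul_lg, inv_pow]
  have hkapE : (Nm Lam n).kap = E⁻¹ ^ 20 := by
    rw [hkap, Real.exp_neg, show (20 : ℝ) = ((20 : ℕ) : ℝ) by norm_num, exp_mul_lg, inv_pow]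
  have hrrE : rr Lam n ≤ E⁻¹ ^ 100 * E := by
    unfold rr
    rw [Real.exp_neg, show (100 : ℝ) = ((100 : ℕ) : ℝ) by norm_num, exp_mul_lg, inv_pow, div_eq_mul_inv]
    exact mul_le_mul_of_nonneg_left hal (by positivity)
  have hrr0 : 0 ≤ rr Lam n := by unfold rr; positivity
  -- the number of falls
  have hFF' : FF ≤ 2 * Lam * x n ^ 400 := by
    refine hFF.trans (le_of_eq ?_)
    unfold l
    have hn' : x n ^ 400 * x n ^ 600 = n := by rw [← pow_add]; exact hn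
    rw [div_eq_iff (by positivity)]
    calc n * Lam = (x n ^ 400 * x n ^ 600) * Lam := by rw [hn']
      _ = _ := by ring
  have hFFE : 2 * Lam * x n ^ 400 ≤ 2 * E ^ 2 := by
    have : Lam * x n ^ 400 ≤ E * E := mul_le_mul hLE hxE (by positivity) hE0.le
    rw [sq]
    linarith
  have hFFx : 2 * Lam * x n ^ 400 ≤ 2 * x n ^ 401 := by
    have : Lam * x n ^ 400 ≤ x n * x n ^ 400 := mul_le_mul_of_nonneg_right hLx (by positivity)
    rw [show x n ^ 401 = x n * x n ^ 400 by ring]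
    linarith
  -- first term
  have a1 : 2 / q n * lam Lam n * (2 * Lam * x n ^ 400) ≤ 4000 * (x n)⁻¹ ^ 97 := by
    have h7 : x n ^ 701 * (x n)⁻¹ ^ 798 = (x n)⁻¹ ^ 97 := xu h (by norm_num)
    have hq : 2 / q n = 2 * x n ^ 300 := by
      unfold q
      rw [inv_pow, div_inv_eq_mul]
    rw [hq]
    calc 2 * x n ^ 300 * lam Lam n * (2 * Lam * x n ^ 400) ≤
        (2 * x n ^ 300 * (1000 * (x n)⁻¹ ^ 798)) * (2 * x n ^ 401) :=
          mul_le_mul (mul_le_mul_of_nonneg_left hlam (by positivity)) hFFx (by positivity) (by positivity)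
      _ = 4000 * (x n ^ 701 * (x n)⁻¹ ^ 798) := by ring
      _ = _ := by rw [h7]
  have a2 : 6 * th Lam n / al Lam ^ 2 * (2 * Lam * x n ^ 400) ≤ 12 * (x n)⁻¹ ^ 1000 := by
    have h1 : 6 * th Lam n / al Lam ^ 2 ≤ 6 * E⁻¹ ^ 5 * E ^ 2 := by
      rw [hthE, div_eq_mul_inv, ← inv_pow]
      exact mul_le_mul_of_nonneg_left (pow_le_pow_left₀ (by positivity) hal 2) (by positivity)
    calc 6 * th Lam n / al Lam ^ 2 * (2 * Lam * x n ^ 400) ≤ (6 * E⁻¹ ^ 5 * E ^ 2) * (2 * E ^ 2) :=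
          mul_le_mul h1 hFFE (by positivity) (by positivity)
      _ = 12 * (E ^ 4 * E⁻¹ ^ 5) := by ring
      _ ≤ _ := mul_le_mul_of_nonneg_left (hEn (by norm_num)) (by norm_num)
  have a3 : Lam / th Lam n ^ 2 * (Nm Lam n).kap * (2 * Lam * x n ^ 400) ≤ 2 * (x n)⁻¹ ^ 1000 := by
    have h1 : Lam / th Lam n ^ 2 * (Nm Lam n).kap ≤ E * E ^ 10 * E⁻¹ ^ 20 := by
      rw [hthE, hkapE]
      have : Lam / (E⁻¹ ^ 5) ^ 2 = Lam * E ^ 10 := by
        rw [← pow_mul, inv_pow, div_inv_eq_mul]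
      rw [this]
      exact mul_le_mul_of_nonneg_right (mul_le_mul_of_nonneg_right hLE (by positivity)) (by positivity)
    have h0 : 0 ≤ Lam / th Lam n ^ 2 * (Nm Lam n).kap := by
      rw [hkapE]
      have := th_pos h
      positivity
    calc Lam / th Lam n ^ 2 * (Nm Lam n).kap * (2 * Lam * x n ^ 400) ≤ (E * E ^ 10 * E⁻¹ ^ 20) * (2 * E ^ 2) :=
          mul_le_mul h1 hFFE (by positivity) (by positivity)
      _ = 2 * (E ^ 13 * E⁻¹ ^ 20) := by ring
      _ ≤ _ := mul_le_mul_of_nonneg_left (hEn (by norm_num)) (by norm_num)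
  have a4 : 2 * q n * lam Lam n * F ≤ 8000 * (x n)⁻¹ ^ 97 := by
    have h7 : x n ^ 1001 * (x n)⁻¹ ^ 1098 = (x n)⁻¹ ^ 97 := xu h (by norm_num)
    have hFx : F ≤ 4 * x n ^ 1001 := by
      have := nLam_le h
      linarith
    have hq : q n = (x n)⁻¹ ^ 300 := rfl
    calc 2 * q n * lam Lam n * F ≤ (2 * (x n)⁻¹ ^ 300 * (1000 * (x n)⁻¹ ^ 798)) * (4 * x n ^ 1001) := by
          rw [hq]
          exact mul_le_mul (mul_le_mul_of_nonneg_left hlam (by positivity)) hFx hF0 (by positivity)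
      _ = 8000 * (x n ^ 1001 * (x n)⁻¹ ^ 1098) := by ring
      _ = _ := by rw [h7]
  have a5 : Lam * (2 * rr Lam n * ST) ≤ 2 * (x n)⁻¹ ^ 1000 := by
    have h1 : 2 * rr Lam n * ST ≤ 2 * (E⁻¹ ^ 100 * E) * E ^ 27 :=
      (mul_le_mul_of_nonneg_left hST' (by positivity)).trans (mul_le_mul_of_nonneg_right (by linarith) (by positivity))
    calc Lam * (2 * rr Lam n * ST) ≤ Lam * (2 * (E⁻¹ ^ 100 * E) * E ^ 27) := mul_le_mul_of_nonneg_left h1 hL0.le
      _ ≤ E * (2 * (E⁻¹ ^ 100 * E) * E ^ 27) := mul_le_mul_of_nonneg_right hLE (by positivity)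
      _ = 2 * (E ^ 29 * E⁻¹ ^ 100) := by ring
      _ ≤ _ := mul_le_mul_of_nonneg_left (hEn (by norm_num)) (by norm_num)
  -- together
  have hcoef : 0 ≤ 2 / q n * lam Lam n + (6 * th Lam n / al Lam ^ 2 + Lam / th Lam n ^ 2 * (Nm Lam n).kap) := by
    have g1 := th_pos h
    have g2 := q_posA h
    have g3 : 0 ≤ (Nm Lam n).kap := by rw [hkapE]; exact pow_nonneg (inv_nonneg.mpr hE0.le) _
    refine add_nonneg (mul_nonneg (div_nonneg (by norm_num) g2.le) hlam0) (add_nonneg ?_ ?_)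
    · exact div_nonneg (mul_nonneg (by norm_num) g1.le) (pow_nonneg halp.le 2)
    · exact mul_nonneg (div_nonneg hL0.le (pow_nonneg g1.le 2)) g3
  have b1 : (2 / q n * lam Lam n + (6 * th Lam n / al Lam ^ 2 + Lam / th Lam n ^ 2 * (Nm Lam n).kap)) * FF ≤
      (2 / q n * lam Lam n + (6 * th Lam n / al Lam ^ 2 + Lam / th Lam n ^ 2 * (Nm Lam n).kap)) * (2 * Lam * x n ^ 400) :=
    mul_le_mul_of_nonneg_left hFF' hcoef
  have b2 : (2 / q n * lam Lam n + (6 * th Lam n / al Lam ^ 2 + Lam / th Lam n ^ 2 * (Nm Lam n).kap)) * (2 * Lam * x n ^ 400) =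
      2 / q n * lam Lam n * (2 * Lam * x n ^ 400) + (6 * th Lam n / al Lam ^ 2 * (2 * Lam * x n ^ 400) +
        Lam / th Lam n ^ 2 * (Nm Lam n).kap * (2 * Lam * x n ^ 400)) := by ring
  rw [b2] at b1
  have c1 : (x n)⁻¹ ^ 1000 ≤ (x n)⁻¹ ^ 97 := u_anti h (by norm_num)
  have c2 := absorb h (c := 20000) (two_pow_le (m := 15) (by norm_num) (by norm_num)) (show 27 + 1 ≤ 97 by norm_num)
  have c3 : 0 < (x n)⁻¹ ^ 97 := pow_pos hu _
  linarith

/-- the pair epochs (any such form) -/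
theorem be_small (h : Big Lam n) (hF0 : 0 ≤ F) (hF : F ≤ 4 * n * Lam) (hNT : NT ≤ Real.exp (25 * lg Lam n))
    (hST : ST ≤ 1 + (1 + 24 / q n) * (F + NT)) (hBG : BG ≤ 4 * n * Lam / L0 n)
    {a b c d e : ℝ} (ha : a ≤ 1000) (ha0 : 0 ≤ a) (hb : b ≤ 1000) (hb0 : 0 ≤ b) (hc : c ≤ 1000) (hc0 : 0 ≤ c)
    (hd : d ≤ 1000) (he : e ≤ 1000) :
    y n * BG + Lam * (Real.exp (-l3 n) * (a * NT + b * ST + c * F) + Real.exp (l n) * Real.exp (-l3 n) * F * d +
      e * Real.exp (-l n / 2) * F) ≤ (x n)⁻¹ ^ 27 := by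
  have hx := h.x_pos
  have hu := u_pos h
  have hL1 := h.Lam1
  have hL0 : 0 < Lam := by linarith
  have hLx := h.Lam_le
  have hST' := ST_le h hF hNT hST
  have hF' := F_le h hF
  have hE1 := E_ge1 h
  have hLE := Lam_le_exp h
  have hn := h.n_eq
  have hEx : ∀ {k : ℕ}, k ≤ 50 → Real.exp (lg Lam n) ^ k ≤ Real.exp (100 * x n) := fun hk => E_le_exp_x h hk
  have h10 : (10000 : ℝ) ≤ Real.exp (lg Lam n) := E_ge h (two_pow_le (m := 14) (by norm_num) (by norm_num))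
  rw [show (25 : ℝ) = ((25 : ℕ) : ℝ) by norm_num, exp_mul_lg] at hNT
  set E := Real.exp (lg Lam n) with hE
  have hE0 : 0 < E := Real.exp_pos _
  have hx600 := x_mul_le h (c := 1000) (two_pow_le (m := 10) (by norm_num) (by norm_num)) (show 2 ≤ 600 by norm_num)
  have t0 : y n * BG ≤ 4 * (x n)⁻¹ ^ 229 := by
    have h7 : x n ^ 1001 * (x n)⁻¹ ^ 1230 = (x n)⁻¹ ^ 229 := xu h (by norm_num)
    have h1 : BG ≤ 4 * x n ^ 1001 * (x n)⁻¹ ^ 850 := by
      refine hBG.trans ?_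
      unfold L0
      rw [div_eq_mul_inv, ← inv_pow]
      refine mul_le_mul_of_nonneg_right ?_ (by positivity)
      have := nLam_le h
      linarith
    calc y n * BG ≤ (x n)⁻¹ ^ 380 * (4 * x n ^ 1001 * (x n)⁻¹ ^ 850) := mul_le_mul_of_nonneg_left h1 (y_pos h).le
      _ = 4 * (x n ^ 1001 * (x n)⁻¹ ^ 1230) := by ring
      _ = _ := by rw [h7]
  have hEk : ∀ {p r : ℕ}, p ≤ r → E ^ p ≤ E ^ r := fun hpr => pow_le_pow_right₀ hE1 hpr
  have t1 : Lam * (Real.exp (-l3 n) * (a * NT + b * ST + c * F)) ≤ (x n)⁻¹ ^ 1000 := by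
    have h1 : a * NT + b * ST + c * F ≤ 6000 * E ^ 27 := by
      have g1 : a * NT ≤ 1000 * E ^ 27 :=
        (mul_le_mul_of_nonneg_left (hNT.trans (hEk (by norm_num))) ha0).trans (mul_le_mul_of_nonneg_right ha (by positivity))
      have g2 : b * ST ≤ 1000 * E ^ 27 :=
        (mul_le_mul_of_nonneg_left hST' hb0).trans (mul_le_mul_of_nonneg_right hb (by positivity))
      have g3 : c * F ≤ 4000 * E ^ 27 := by
        have : F ≤ 4 * E ^ 27 := hF'.trans (by linarith [hEk (show 2 ≤ 27 by norm_num)])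
        have g4 := (mul_le_mul_of_nonneg_left this hc0).trans (mul_le_mul_of_nonneg_right hc (by positivity))
        linarith
      linarith
    have h2 : Lam * (a * NT + b * ST + c * F) ≤ Real.exp (100 * x n) := by
      refine le_trans ?_ (hEx (show 29 ≤ 50 by norm_num))
      calc Lam * (a * NT + b * ST + c * F) ≤ Lam * (6000 * E ^ 27) := mul_le_mul_of_nonneg_left h1 hL0.le
        _ ≤ E * (E * E ^ 27) := mul_le_mul hLE (mul_le_mul_of_nonneg_right (by linarith) (by positivity))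
            (by positivity) hE0.le
        _ = E ^ 29 := by ring
    have h3 := tiny h h2 (z := l3 n) (by unfold l3; linarith)
    calc Lam * (Real.exp (-l3 n) * (a * NT + b * ST + c * F)) = Real.exp (-l3 n) * (Lam * (a * NT + b * ST + c * F)) := by ring
      _ ≤ _ := h3
  have hLF : Lam * (1000 * F) ≤ Real.exp (100 * x n) := by
    refine le_trans ?_ (hEx (show 4 ≤ 50 by norm_num))
    calc Lam * (1000 * F) ≤ Lam * (4000 * E ^ 2) := mul_le_mul_of_nonneg_left (by linarith) hL0.le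
      _ ≤ E * (E * E ^ 2) := mul_le_mul hLE (mul_le_mul_of_nonneg_right (by linarith) (by positivity))
          (by positivity) hE0.le
      _ = E ^ 4 := by ring
  have t2 : Lam * (Real.exp (l n) * Real.exp (-l3 n) * F * d) ≤ (x n)⁻¹ ^ 1000 := by
    have h3 := tiny h hLF (z := 5 / 2 * x n ^ 600) (by linarith)
    have h4 : Real.exp (l n) * Real.exp (-l3 n) = Real.exp (-(5 / 2 * x n ^ 600)) := by
      rw [← Real.exp_add]
      congr 1
      unfold l l3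
      ring
    have h5 : F * d ≤ 1000 * F := by
      rw [mul_comm]
      exact mul_le_mul_of_nonneg_right hd hF0
    calc Lam * (Real.exp (l n) * Real.exp (-l3 n) * F * d) = Real.exp (-(5 / 2 * x n ^ 600)) * (Lam * (F * d)) := by
          rw [h4]; ring
      _ ≤ Real.exp (-(5 / 2 * x n ^ 600)) * (Lam * (1000 * F)) :=
          mul_le_mul_of_nonneg_left (mul_le_mul_of_nonneg_left h5 hL0.le) (Real.exp_pos _).le
      _ ≤ _ := h3
  have t3 : Lam * (e * Real.exp (-l n / 2) * F) ≤ (x n)⁻¹ ^ 1000 := by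
    have h3 := tiny h hLF (z := l n / 2) (by unfold l; linarith)
    have h4 : -l n / 2 = -(l n / 2) := by ring
    have h5 : e * F ≤ 1000 * F := mul_le_mul_of_nonneg_right he hF0
    calc Lam * (e * Real.exp (-l n / 2) * F) = Real.exp (-(l n / 2)) * (Lam * (e * F)) := by rw [h4]; ring
      _ ≤ Real.exp (-(l n / 2)) * (Lam * (1000 * F)) :=
          mul_le_mul_of_nonneg_left (mul_le_mul_of_nonneg_left h5 hL0.le) (Real.exp_pos _).le
      _ ≤ _ := h3
  have c1 : (x n)⁻¹ ^ 1000 ≤ (x n)⁻¹ ^ 229 := u_anti h (by norm_num)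
  have c2 := absorb h (c := 7) (two_pow_le (m := 3) (by norm_num) (by norm_num)) (show 27 + 1 ≤ 229 by norm_num)
  have c3 : 0 < (x n)⁻¹ ^ 229 := pow_pos hu _
  have c4 : Lam * (Real.exp (-l3 n) * (a * NT + b * ST + c * F) + Real.exp (l n) * Real.exp (-l3 n) * F * d +
      e * Real.exp (-l n / 2) * F) = Lam * (Real.exp (-l3 n) * (a * NT + b * ST + c * F)) +
      Lam * (Real.exp (l n) * Real.exp (-l3 n) * F * d) + Lam * (e * Real.exp (-l n / 2) * F) := by ring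
  rw [c4]
  linarith

end counts

/-! ### the final inequality -/

theorem n_rpow (h : Big Lam n) : n ^ (-(1 / 40) : ℝ) = (x n)⁻¹ ^ 25 := by
  have h1 : x n ^ (25 : ℕ) = n ^ (1 / 40 : ℝ) := by
    unfold x
    rw [← Real.rpow_natCast, ← Real.rpow_mul h.n_pos.le]
    norm_num
  rw [Real.rpow_neg h.n_pos.le, ← h1, inv_pow]

/-- the left side, `≤ 10 Lam² u^25` -/
theorem final_le (h : Big Lam n) {BD BG HB AF AG BE : ℝ} (hBD : BD ≤ 100 * n * Lam) (hBG : BG ≤ 4 * n * Lam / L0 n)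
    (hHB : HB ≤ 8 * n * Lam) (hAF : AF ≤ (x n)⁻¹ ^ 27) (hAG : AG ≤ (x n)⁻¹ ^ 27) (hBE : BE ≤ (x n)⁻¹ ^ 27) :
    2 * (sg Lam n * (Lam + 1) + (2 * (Lam * (mu Lam n * BD)) +
      Lam * (eta n * (2 / Real.log (B n)) * (2 * Lam) + Real.exp (50 * lg Lam n + 1 - eta n / (2 * sg Lam n)) * BD)) +
      (del n * BG + AF + AG + BE +
      Lam * (eta n * (2 / Real.log (B n)) * (2 * Lam) + Real.exp (L0 n + 1 - eta n / (2 * sgh Lam n)) * HB)) +
      4 * B n * kd (sgh Lam n * (Lam + 1)) * Lam) ≤ 10 * Lam ^ 2 * (x n)⁻¹ ^ 25 := by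
  have hx := h.x_pos
  have hx1 := h.x_ge1
  have hu := u_pos h
  have hL1 := h.Lam1
  have hL0 : 0 < Lam := by linarith
  have hLx := h.Lam_le
  have hnL := nLam_le h
  have hnL0 := nLam_nonneg h
  have hup : ∀ k : ℕ, 0 < (x n)⁻¹ ^ k := fun k => pow_pos hu k
  -- 1
  have t1 : sg Lam n * (Lam + 1) ≤ 160 * (x n)⁻¹ ^ 998 := by
    have h7 : x n ^ 1 * (x n)⁻¹ ^ 999 = (x n)⁻¹ ^ 998 := xu h (by norm_num)
    calc sg Lam n * (Lam + 1) ≤ (80 * (x n)⁻¹ ^ 999) * (2 * x n) :=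
          mul_le_mul (sg_le h) (Lam1_le h) (by linarith) (by positivity)
      _ = 160 * (x n ^ 1 * (x n)⁻¹ ^ 999) := by ring
      _ = _ := by rw [h7]
  -- 2
  have t2 : 2 * (Lam * (mu Lam n * BD)) ≤ 200 * (x n)⁻¹ ^ 1000 := by
    have hE1 := E_ge1 h
    have hLE := Lam_le_exp h
    have hnE := n_le_exp h
    have hEn := E_neg h (show 3 + 1 ≤ 50 by norm_num)
    have hmuE : mu Lam n = (Real.exp (lg Lam n))⁻¹ ^ 50 := by
      unfold mu
      rw [Real.exp_neg, show (50 : ℝ) = ((50 : ℕ) : ℝ) by norm_num, exp_mul_lg, inv_pow]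
    rw [hmuE]
    set E := Real.exp (lg Lam n) with hE
    have hE0 : 0 < E := Real.exp_pos _
    have h1 : BD ≤ 100 * (E * E) := by
      have : n * Lam ≤ E * E := mul_le_mul hnE hLE hL0.le hE0.le
      linarith
    have h2 : E⁻¹ ^ 50 * BD ≤ E⁻¹ ^ 50 * (100 * (E * E)) := mul_le_mul_of_nonneg_left h1 (by positivity)
    have h3 : Lam * (E⁻¹ ^ 50 * BD) ≤ E * (E⁻¹ ^ 50 * (100 * (E * E))) :=
      (mul_le_mul_of_nonneg_left h2 hL0.le).trans (mul_le_mul_of_nonneg_right hLE (by positivity))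
    have h4 : E * (E⁻¹ ^ 50 * (100 * (E * E))) = 100 * (E ^ 3 * E⁻¹ ^ 50) := by ring
    rw [h4] at h3
    linarith
  -- 3
  have t3 : Lam * (eta n * (2 / Real.log (B n)) * (2 * Lam)) ≤ 2 * Lam ^ 2 * (x n)⁻¹ ^ 25 := by
    have h1 : 2 / Real.log (B n) ≤ 1 := by
      rw [div_le_one (by linarith [log_B_ge h])]
      exact log_B_ge h
    have h2 : eta n = (x n)⁻¹ ^ 25 := rfl
    have h3 : eta n * (2 / Real.log (B n)) ≤ (x n)⁻¹ ^ 25 := by
      rw [h2]
      calc (x n)⁻¹ ^ 25 * (2 / Real.log (B n)) ≤ (x n)⁻¹ ^ 25 * 1 := mul_le_mul_of_nonneg_left h1 (hup 25).le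
        _ = _ := mul_one _
    calc Lam * (eta n * (2 / Real.log (B n)) * (2 * Lam)) ≤ Lam * ((x n)⁻¹ ^ 25 * (2 * Lam)) :=
          mul_le_mul_of_nonneg_left (mul_le_mul_of_nonneg_right h3 (by positivity)) hL0.le
      _ = _ := by ring
  have hexp3 : Real.exp (-(3 * x n)) ≤ (x n)⁻¹ ^ 3000 := by
    have h1 := exp_neg_x h
    have h2 : Real.exp (-(3 * x n)) = Real.exp (-x n) ^ 3 := by
      rw [← Real.exp_nat_mul]
      congr 1
      push_cast
      ring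
    rw [h2, show 3000 = 1000 * 3 by norm_num, pow_mul]
    exact pow_le_pow_left₀ (Real.exp_pos _).le h1 3
  have h2999 : x n ^ 1002 * (x n)⁻¹ ^ 3000 = (x n)⁻¹ ^ 1998 := xu h (by norm_num)
  -- 4
  have t4 : Lam * (Real.exp (50 * lg Lam n + 1 - eta n / (2 * sg Lam n)) * BD) ≤ 100 * (x n)⁻¹ ^ 1998 := by
    have h1 : 16800 * x n ≤ x n ^ 974 := x_mul_le h (two_pow_le (m := 15) (by norm_num) (by norm_num)) (by norm_num)
    have h2 : x n ^ 974 / 160 ≤ eta n / (2 * sg Lam n) := by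
      have h3 : eta n = (x n)⁻¹ ^ 25 := rfl
      have h4 := sg_le h
      have h5 := sg_pos h
      have h7 : x n ^ 974 * (x n)⁻¹ ^ 999 = (x n)⁻¹ ^ 25 := xu h (by norm_num)
      rw [div_le_div_iff₀ (by norm_num) (by positivity), h3, ← h7]
      have h8 : x n ^ 974 * (2 * sg Lam n) ≤ x n ^ 974 * (2 * (80 * (x n)⁻¹ ^ 999)) :=
        mul_le_mul_of_nonneg_left (by linarith) (by positivity)
      linarith
    have h3 : Real.exp (50 * lg Lam n + 1 - eta n / (2 * sg Lam n)) ≤ (x n)⁻¹ ^ 3000 := by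
      refine le_trans (Real.exp_le_exp.mpr ?_) hexp3
      have := h.lg_le
      linarith
    have h4 : BD ≤ 100 * x n ^ 1001 := by linarith
    have h5 : Real.exp (50 * lg Lam n + 1 - eta n / (2 * sg Lam n)) * BD ≤ (x n)⁻¹ ^ 3000 * (100 * x n ^ 1001) :=
      (mul_le_mul_of_nonneg_left h4 (Real.exp_pos _).le).trans (mul_le_mul_of_nonneg_right h3 (by positivity))
    calc Lam * (Real.exp (50 * lg Lam n + 1 - eta n / (2 * sg Lam n)) * BD) ≤
        x n * ((x n)⁻¹ ^ 3000 * (100 * x n ^ 1001)) :=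
          (mul_le_mul_of_nonneg_left h5 hL0.le).trans (mul_le_mul_of_nonneg_right hLx (by positivity))
      _ = 100 * (x n ^ 1002 * (x n)⁻¹ ^ 3000) := by ring
      _ = _ := by rw [h2999]
  -- 5
  have t5 : del n * BG ≤ 4 * (x n)⁻¹ ^ 49 := by
    have h7 : x n ^ 1001 * (x n)⁻¹ ^ 1050 = (x n)⁻¹ ^ 49 := xu h (by norm_num)
    have h1 : BG ≤ 4 * x n ^ 1001 * (x n)⁻¹ ^ 850 := by
      refine hBG.trans ?_
      unfold L0
      rw [div_eq_mul_inv, ← inv_pow]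
      exact mul_le_mul_of_nonneg_right (by linarith) (by positivity)
    calc del n * BG ≤ (x n)⁻¹ ^ 200 * (4 * x n ^ 1001 * (x n)⁻¹ ^ 850) := mul_le_mul_of_nonneg_left h1 (del_pos h).le
      _ = 4 * (x n ^ 1001 * (x n)⁻¹ ^ 1050) := by ring
      _ = _ := by rw [h7]
  -- 8
  have t8 : Lam * (Real.exp (L0 n + 1 - eta n / (2 * sgh Lam n)) * HB) ≤ 8 * (x n)⁻¹ ^ 1998 := by
    have h2 : x n ^ 972 / 400000 ≤ eta n / (2 * sgh Lam n) := by
      have h3 : eta n = (x n)⁻¹ ^ 25 := rfl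
      have h4 := sgh_le h
      have h5 := sgh_pos h
      have h7 : x n ^ 972 * (x n)⁻¹ ^ 997 = (x n)⁻¹ ^ 25 := xu h (by norm_num)
      rw [div_le_div_iff₀ (by norm_num) (by positivity), h3, ← h7]
      have h8 : x n ^ 972 * (2 * sgh Lam n) ≤ x n ^ 972 * (2 * (200000 * (x n)⁻¹ ^ 997)) :=
        mul_le_mul_of_nonneg_left (by linarith) (by positivity)
      linarith
    have h1 : 400000 * (5 * x n ^ 850) ≤ x n ^ 972 := by
      have g1 := x_mul_le h (c := 2000000) (two_pow_le (m := 21) (by norm_num) (by norm_num)) (show 2 ≤ 122 by norm_num)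
      have g2 : x n ^ 972 = x n ^ 850 * x n ^ 122 := by rw [← pow_add]
      have g3 : (2000000 : ℝ) ≤ x n ^ 122 := by
        refine le_trans ?_ g1
        have := hx1
        linarith
      rw [g2]
      have g4 : 0 < x n ^ 850 := by positivity
      nlinarith
    have h3 : Real.exp (L0 n + 1 - eta n / (2 * sgh Lam n)) ≤ (x n)⁻¹ ^ 3000 := by
      refine le_trans (Real.exp_le_exp.mpr ?_) hexp3
      have g1 : x n ≤ x n ^ 850 := by
        calc x n = x n ^ 1 := (pow_one _).symm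
          _ ≤ x n ^ 850 := pow_le_pow_right₀ hx1 (by norm_num)
      have g2 : L0 n = x n ^ 850 := rfl
      rw [g2]
      linarith
    have h4 : HB ≤ 8 * x n ^ 1001 := by linarith
    have h5 : Real.exp (L0 n + 1 - eta n / (2 * sgh Lam n)) * HB ≤ (x n)⁻¹ ^ 3000 * (8 * x n ^ 1001) :=
      (mul_le_mul_of_nonneg_left h4 (Real.exp_pos _).le).trans (mul_le_mul_of_nonneg_right h3 (by positivity))
    calc Lam * (Real.exp (L0 n + 1 - eta n / (2 * sgh Lam n)) * HB) ≤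
        x n * ((x n)⁻¹ ^ 3000 * (8 * x n ^ 1001)) :=
          (mul_le_mul_of_nonneg_left h5 hL0.le).trans (mul_le_mul_of_nonneg_right hLx (by positivity))
      _ = 8 * (x n ^ 1002 * (x n)⁻¹ ^ 3000) := by ring
      _ = _ := by rw [h2999]
  -- 9
  have t9 : 4 * B n * kd (sgh Lam n * (Lam + 1)) * Lam ≤ 64000 * (x n)⁻¹ ^ 472 := by
    have hd := d_le h
    have hd0 : 0 ≤ sgh Lam n * (Lam + 1) := mul_nonneg (sgh_pos h).le (by linarith)
    have h1 : Real.sqrt (sgh Lam n * (Lam + 1)) ≤ 640 * (x n)⁻¹ ^ 498 := by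
      rw [Real.sqrt_le_left (by positivity)]
      refine hd.trans ?_
      have : (640 * (x n)⁻¹ ^ 498) ^ 2 = 409600 * (x n)⁻¹ ^ 996 := by ring
      rw [this]
      linarith [hup 996]
    have h2 : kd (sgh Lam n * (Lam + 1)) ≤ 2000 * (x n)⁻¹ ^ 498 := by
      unfold kd
      have g1 := absorb h (c := 400000) (two_pow_le (m := 19) (by norm_num) (by norm_num)) (show 498 + 1 ≤ 996 by norm_num)
      linarith [hup 498]
    have h3 : 0 ≤ kd (sgh Lam n * (Lam + 1)) := kd_nonneg hd0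
    have h7 : x n ^ 26 * (x n)⁻¹ ^ 498 = (x n)⁻¹ ^ 472 := xu h (by norm_num)
    calc 4 * B n * kd (sgh Lam n * (Lam + 1)) * Lam ≤ 4 * (8 * x n ^ 25) * (2000 * (x n)⁻¹ ^ 498) * x n := by
          exact mul_le_mul (mul_le_mul_of_nonneg_left h2 (mul_pos (by norm_num) (B_pos h)).le) hLx hL0.le (by positivity)
      _ = 64000 * (x n ^ 26 * (x n)⁻¹ ^ 498) := by ring
      _ = _ := by rw [h7]
  -- sum
  have s1 := absorb h (c := 1600) (two_pow_le (m := 11) (by norm_num) (by norm_num)) (show 26 + 1 ≤ 998 by norm_num)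
  have s2 := absorb h (c := 2000) (two_pow_le (m := 11) (by norm_num) (by norm_num)) (show 26 + 1 ≤ 1000 by norm_num)
  have s3 := absorb h (c := 2000) (two_pow_le (m := 11) (by norm_num) (by norm_num)) (show 26 + 1 ≤ 1998 by norm_num)
  have s4 := absorb h (c := 40) (two_pow_le (m := 6) (by norm_num) (by norm_num)) (show 26 + 1 ≤ 49 by norm_num)
  have s5 := absorb h (c := 640000) (two_pow_le (m := 20) (by norm_num) (by norm_num)) (show 26 + 1 ≤ 472 by norm_num)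
  have s6 := absorb h (c := 30) (two_pow_le (m := 5) (by norm_num) (by norm_num)) (show 26 + 1 ≤ 27 by norm_num)
  have s7 := u_anti h (show 25 ≤ 26 by norm_num)
  have s8 : (x n)⁻¹ ^ 25 ≤ Lam ^ 2 * (x n)⁻¹ ^ 25 := by
    have : (1 : ℝ) ≤ Lam ^ 2 := one_le_pow₀ hL1
    nlinarith [hup 25]
  have e1 : Lam * (eta n * (2 / Real.log (B n)) * (2 * Lam) + Real.exp (50 * lg Lam n + 1 - eta n / (2 * sg Lam n)) * BD) =
      Lam * (eta n * (2 / Real.log (B n)) * (2 * Lam)) +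
      Lam * (Real.exp (50 * lg Lam n + 1 - eta n / (2 * sg Lam n)) * BD) := by ring
  have e2 : Lam * (eta n * (2 / Real.log (B n)) * (2 * Lam) + Real.exp (L0 n + 1 - eta n / (2 * sgh Lam n)) * HB) =
      Lam * (eta n * (2 / Real.log (B n)) * (2 * Lam)) +
      Lam * (Real.exp (L0 n + 1 - eta n / (2 * sgh Lam n)) * HB) := by ring
  rw [e1, e2]
  linarith [hup 25, hup 26]

/-- THE FINAL INEQUALITY of route A, in the form of `finA` -/
theorem final (h : Big Lam n) {BD BG HB AF AG BE : ℝ} (hBD : BD ≤ 100 * n * Lam) (hBG : BG ≤ 4 * n * Lam / L0 n)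
    (hHB : HB ≤ 8 * n * Lam) (hAF : AF ≤ (x n)⁻¹ ^ 27) (hAG : AG ≤ (x n)⁻¹ ^ 27) (hBE : BE ≤ (x n)⁻¹ ^ 27) :
    2 * (sg Lam n * (Real.log (1 / al Lam) + 1) + (2 * (Real.log (1 / al Lam) * (mu Lam n * BD)) +
      Real.log (1 / al Lam) * (eta n * (2 / Real.log (B n)) * (2 * Lam) +
        Real.exp (Real.log (1 / mu Lam n) + 1 - eta n / (2 * sg Lam n)) * BD)) +
      (del n * BG + AF + AG + BE +
      Real.log (1 / al Lam) * (eta n * (2 / Real.log (B n)) * (2 * Lam) +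
        Real.exp (L0 n + 1 - eta n / (2 * sgh Lam n)) * HB)) +
      4 * B n * kd (sgh Lam n * (Real.log (1 / al Lam) + 1)) * Lam) ≤
      ((1000000 : ℕ) : ℝ) * Lam ^ 1000000 * n ^ (-(1 / 40) : ℝ) := by
  rw [log_al, log_inv_mu, n_rpow h]
  refine (final_le h hBD hBG hHB hAF hAG hBE).trans ?_
  have h1 : Lam ^ 2 ≤ Lam ^ 1000000 := pow_le_pow_right₀ h.Lam1 (by norm_num)
  have h2 : 0 < (x n)⁻¹ ^ 25 := pow_pos (u_pos h) _
  have h3 : (0 : ℝ) < Lam ^ 1000000 := pow_pos (by linarith [h.Lam1]) _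
  have h4 : (10 : ℝ) * Lam ^ 2 ≤ ((1000000 : ℕ) : ℝ) * Lam ^ 1000000 := by
    push_cast
    linarith
  exact mul_le_mul_of_nonneg_right h4 h2.le

end PA

end

end Pool.Agent.M3.S3
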