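import Pool.Agent.M3.FP

/-!
# M3.S3.Prod: the product setting of section 3 (helper26)

Three finite sets `X` (hidden points `a`), `β`, `γ` (known points), uniform law on the product, nested partitions
`qa t : X → ι`, `qb t : β → ι`, `qc t : γ → ι`; the node of `(x,b,c)` at the time `t` is `(qa t x, qb t b, qc t c)`.
Labels as KERNELS (noise integrated): `kf t x b c F = P(f_t(b) = F | a = x)`, depends on `c` only through `qc t c`;
`kg t x b c G = P(g_t(c) = G | a = x)`, depends on `b` only through `qb t b`.  (No external partition.)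
A CLASS is a `Finset X` (positions, never noise).

* `avg s f` average over a finset; `cA`, `cB`, `cC` cells; `law K k F` = law of the label on the class `K`;
* `Dat` the data, `Dat.Same t` same node.
-/

set_option autoImplicit false

namespace Pool.Agent.M3.S3

open Finset Pool.Agent.PWZ Pool.Agent.M3

noncomputable section

/-- average over a finset (0 if empty) -/
def avg {α : Type*} (s : Finset α) (f : α → ℝ) : ℝ := (∑ a ∈ s, f a) / s.card

/-- law of a label on the class `K`: `k x F` = probability of `F` given the point `x` -/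
def law {X φ : Type*} (K : Finset X) (k : X → φ → ℝ) (F : φ) : ℝ := avg K fun x => k x F

/-- relative entropy of two laws on a finite set -/
def klf {φ : Type*} [Fintype φ] (p q : φ → ℝ) : ℝ := ∑ F, p F * Real.log (p F / q F)

/-- the data of section 3 -/
structure Dat (X β γ ι φ : Type*) where
  qa : ℕ → X → ι
  qb : ℕ → β → ι
  qc : ℕ → γ → ι
  kf : ℕ → X → β → γ → φ → ℝ
  kg : ℕ → X → β → γ → φ → ℝ
  ra : ∀ t x x', qa (t + 1) x = qa (t + 1) x' → qa t x = qa t x'
  rb : ∀ t b b', qb (t + 1) b = qb (t + 1) b' → qb t b = qb t b'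
  rc : ∀ t c c', qc (t + 1) c = qc (t + 1) c' → qc t c = qc t c'
  kf_c : ∀ t x b c c', qc t c = qc t c' → kf t x b c = kf t x b c'
  kg_b : ∀ t x b b' c, qb t b = qb t b' → kg t x b c = kg t x b' c

namespace Dat

variable {X β γ ι φ : Type*} (D : Dat X β γ ι φ)

/-- same node at the time `t` -/
def Same (t : ℕ) (x : X) (b : β) (c : γ) (x' : X) (b' : β) (c' : γ) : Prop :=
  D.qa t x = D.qa t x' ∧ D.qb t b = D.qb t b' ∧ D.qc t c = D.qc t c'

theorem qa_le {s t : ℕ} (h : s ≤ t) {x x' : X} (hx : D.qa t x = D.qa t x') : D.qa s x = D.qa s x' := by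
  induction t, h using Nat.le_induction with
  | base => exact hx
  | succ n _ ih => exact ih (D.ra n x x' hx)

theorem qb_le {s t : ℕ} (h : s ≤ t) {x x' : β} (hx : D.qb t x = D.qb t x') : D.qb s x = D.qb s x' := by
  induction t, h using Nat.le_induction with
  | base => exact hx
  | succ n _ ih => exact ih (D.rb n x x' hx)

theorem qc_le {s t : ℕ} (h : s ≤ t) {x x' : γ} (hx : D.qc t x = D.qc t x') : D.qc s x = D.qc s x' := by
  induction t, h using Nat.le_induction with
  | base => exact hx
  | succ n _ ih => exact ih (D.rc n x x' hx)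

namespace Same

variable {D} {t : ℕ} {x x' x'' : X} {b b' b'' : β} {c c' c'' : γ}

theorem refl (t : ℕ) (x : X) (b : β) (c : γ) : D.Same t x b c x b c := ⟨rfl, rfl, rfl⟩

theorem symm (h : D.Same t x b c x' b' c') : D.Same t x' b' c' x b c := ⟨h.1.symm, h.2.1.symm, h.2.2.symm⟩

theorem trans (h : D.Same t x b c x' b' c') (h' : D.Same t x' b' c' x'' b'' c'') : D.Same t x b c x'' b'' c'' :=
  ⟨h.1.trans h'.1, h.2.1.trans h'.2.1, h.2.2.trans h'.2.2⟩

theorem le (h : D.Same t x b c x' b' c') {s : ℕ} (hs : s ≤ t) : D.Same s x b c x' b' c' :=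
  ⟨D.qa_le hs h.1, D.qb_le hs h.2.1, D.qc_le hs h.2.2⟩

end Same

open Classical in
/-- the cell of `x` at the time `t` -/
def cA [Fintype X] (t : ℕ) (x : X) : Finset X := univ.filter fun y => D.qa t y = D.qa t x

open Classical in
/-- the cell of `b` at the time `t` -/
def cB [Fintype β] (t : ℕ) (b : β) : Finset β := univ.filter fun y => D.qb t y = D.qb t b

open Classical in
/-- the cell of `c` at the time `t` -/
def cC [Fintype γ] (t : ℕ) (c : γ) : Finset γ := univ.filter fun y => D.qc t y = D.qc t c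

section cellsA

variable [Fintype X]

theorem mem_cA {t : ℕ} {x y : X} : y ∈ D.cA t x ↔ D.qa t y = D.qa t x := by
  classical
  simp [cA]

theorem self_cA (t : ℕ) (x : X) : x ∈ D.cA t x := D.mem_cA.2 rfl

theorem cA_congr {t : ℕ} {x x' : X} (h : D.qa t x = D.qa t x') : D.cA t x = D.cA t x' := by
  ext y; rw [mem_cA, mem_cA, h]

theorem cA_mono {s t : ℕ} (h : s ≤ t) (x : X) : D.cA t x ⊆ D.cA s x := fun _ hy =>
  D.mem_cA.2 (D.qa_le h (D.mem_cA.1 hy))

end cellsA

section cellsB

variable [Fintype β]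

theorem mem_cB {t : ℕ} {x y : β} : y ∈ D.cB t x ↔ D.qb t y = D.qb t x := by
  classical
  simp [cB]

theorem self_cB (t : ℕ) (x : β) : x ∈ D.cB t x := D.mem_cB.2 rfl

theorem cB_congr {t : ℕ} {x x' : β} (h : D.qb t x = D.qb t x') : D.cB t x = D.cB t x' := by
  ext y; rw [mem_cB, mem_cB, h]

theorem cB_mono {s t : ℕ} (h : s ≤ t) (x : β) : D.cB t x ⊆ D.cB s x := fun _ hy =>
  D.mem_cB.2 (D.qb_le h (D.mem_cB.1 hy))

end cellsB

section cellsC

variable [Fintype γ]

theorem mem_cC {t : ℕ} {x y : γ} : y ∈ D.cC t x ↔ D.qc t y = D.qc t x := by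
  classical
  simp [cC]

theorem self_cC (t : ℕ) (x : γ) : x ∈ D.cC t x := D.mem_cC.2 rfl

theorem cC_congr {t : ℕ} {x x' : γ} (h : D.qc t x = D.qc t x') : D.cC t x = D.cC t x' := by
  ext y; rw [mem_cC, mem_cC, h]

theorem cC_mono {s t : ℕ} (h : s ≤ t) (x : γ) : D.cC t x ⊆ D.cC s x := fun _ hy =>
  D.mem_cC.2 (D.qc_le h (D.mem_cC.1 hy))

end cellsC

/-- labels are probability laws, thick with the constant `al`: the support of the label at a node does not depend on the
hidden point, and every value of the support has probability at least `al` -/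
structure Thick [Fintype φ] (al : ℝ) : Prop where
  pos : 0 < al
  f_nn : ∀ t x b c F, 0 ≤ D.kf t x b c F
  g_nn : ∀ t x b c F, 0 ≤ D.kg t x b c F
  f_one : ∀ t x b c, ∑ F, D.kf t x b c F = 1
  g_one : ∀ t x b c, ∑ F, D.kg t x b c F = 1
  f_thick : ∀ t x x' b c F, D.qa t x = D.qa t x' → D.kf t x b c F ≠ 0 → al ≤ D.kf t x' b c F
  g_thick : ∀ t x x' b c F, D.qa t x = D.qa t x' → D.kg t x b c F ≠ 0 → al ≤ D.kg t x' b c F

/-- the data with the roles of the two known points exchanged -/
def swap : Dat X γ β ι φ where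
  qa := D.qa
  qb := D.qc
  qc := D.qb
  kf t x c b := D.kg t x b c
  kg t x c b := D.kf t x b c
  ra := D.ra
  rb := D.rc
  rc := D.rb
  kf_c t x c b b' h := D.kg_b t x b b' c h
  kg_b t x c c' b h := D.kf_c t x b c c' h

end Dat

end

end Pool.Agent.M3.S3
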