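import Pool.Agent.M3.HKey

/-!
# M3.S3.Rem: removal of rare informative pieces (3.5, 3.7 of row 3 of `m3`; notes 3424, 3429, 3430)

`K : X → Y → ℝ` is a kernel (the law of the letter `y` given the hidden point `x`; for the labels of the points `b` of a
cell take `y = (b, F)` and `K x (b, F) = w_b P(f_b = F | x)`).  Classes are finite sets of hidden points with the uniform
law.  `law K S` = law of the letter on the class `S`, `kld K S R` = relative entropy of `law K S` with respect to `law K R`,
`sz R S = log (|R| / |S|)`, `mi K V R` = information between the letter and the event `V` in the class `R`,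
`Vio n K R V`: `n` times this information exceeds the entropy of the event.

* `rare_viol` : a rare violating set has `kld ≥ sz / (2n)`;
* `core`, `card_core`, `core_gain` : its informative half `V⁺` is not small, and EVERY subset of it is informative;
* `sat_rare` : a class without rare violating subsets is saturated for rare sets;
* `removal` : greedy removal inside `Kl ⊆ R` with the fixed reference class `R`.
-/

set_option autoImplicit false

namespace Pool.Agent.M3.Rem

open Finset Pool.Agent.PWZ

noncomputable section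

variable {X Y : Type*} [Fintype Y]

/-- law of the letter on the class `S` -/
def law (K : X → Y → ℝ) (S : Finset X) (y : Y) : ℝ := (∑ x ∈ S, K x y) / S.card

/-- relative entropy of the law on `S` with respect to the law on `R` -/
def kld (K : X → Y → ℝ) (S R : Finset X) : ℝ := ∑ y, law K S y * Real.log (law K S y / law K R y)

/-- proportion of `S` in `R` -/
def pr (R S : Finset X) : ℝ := (S.card : ℝ) / R.card

/-- size of `S` in `R` -/
def sz (R S : Finset X) : ℝ := Real.log ((R.card : ℝ) / S.card)

open Classical in
/-- information between the letter and the event `V` in the class `R` -/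
def mi (K : X → Y → ℝ) (R V : Finset X) : ℝ := pr R V * kld K V R + (1 - pr R V) * kld K (R \ V) R

/-- `V` is violating in `R` -/
def Vio (n : ℝ) (K : X → Y → ℝ) (R V : Finset X) : Prop := Real.binEntropy (pr R V) < n * mi K R V

/-- the information at the point `x` -/
def lV (K : X → Y → ℝ) (R V : Finset X) (x : X) : ℝ :=
  ∑ y, K x y * Real.log (law K V y / law K R y)

open Classical in
/-- the informative half of `V` -/
def core (K : X → Y → ℝ) (R V : Finset X) : Finset X := V.filter (fun x => kld K V R / 2 ≤ lV K R V x)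

/-- the kernel on the class `R`: nonnegative, total mass one, comparable (`al` = thickness) -/
structure Ker (K : X → Y → ℝ) (R : Finset X) (al : ℝ) : Prop where
  nn : ∀ x ∈ R, ∀ y, 0 ≤ K x y
  tot : ∀ x ∈ R, ∑ y, K x y = 1
  pos : 0 < al
  le1 : al ≤ 1
  thick : ∀ x ∈ R, ∀ x' ∈ R, ∀ y, al * K x' y ≤ K x y

variable {K : X → Y → ℝ} {R S V : Finset X} {al : ℝ}

theorem Ker.mono (h : Ker K R al) (hS : S ⊆ R) : Ker K S al :=
  ⟨fun x hx => h.nn x (hS hx), fun x hx => h.tot x (hS hx), h.pos, h.le1,
    fun x hx x' hx' => h.thick x (hS hx) x' (hS hx')⟩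

omit [Fintype Y] in
theorem card_mul_law (hS : S.Nonempty) (y : Y) : (S.card : ℝ) * law K S y = ∑ x ∈ S, K x y := by
  have : (S.card : ℝ) ≠ 0 := by exact_mod_cast hS.card_pos.ne'
  unfold law
  field_simp

theorem law_nonneg (h : Ker K R al) (hS : S ⊆ R) (y : Y) : 0 ≤ law K S y :=
  div_nonneg (Finset.sum_nonneg fun x hx => h.nn x (hS hx) y) (Nat.cast_nonneg _)

theorem law_tot (h : Ker K R al) (hS : S ⊆ R) (hne : S.Nonempty) : ∑ y, law K S y = 1 := by
  unfold law
  rw [← Finset.sum_div, Finset.sum_comm, Finset.sum_congr rfl fun x hx => h.tot x (hS hx),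
    Finset.sum_const, nsmul_eq_mul, mul_one]
  exact div_self (by exact_mod_cast hne.card_pos.ne')

/-- comparison of the laws of two classes -/
theorem law_cmp (h : Ker K R al) (hS : S ⊆ R) (hne : S.Nonempty) (hV : V ⊆ R) (hneV : V.Nonempty) (y : Y) :
    al * law K S y ≤ law K V y := by
  have hs : (0 : ℝ) < S.card := by exact_mod_cast hne.card_pos
  have hv : (0 : ℝ) < V.card := by exact_mod_cast hneV.card_pos
  have h1 : ∀ x ∈ V, al * law K S y ≤ K x y := by
    intro x hx
    have h2 : ∑ x' ∈ S, al * K x' y ≤ ∑ _x' ∈ S, K x y :=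
      Finset.sum_le_sum fun x' hx' => h.thick x (hV hx) x' (hS hx') y
    rw [← Finset.mul_sum, Finset.sum_const, nsmul_eq_mul, ← card_mul_law hne] at h2
    have h3 : (S.card : ℝ) * (al * law K S y) ≤ S.card * K x y := by linarith
    exact le_of_mul_le_mul_left h3 hs
  have h4 : ∑ _x ∈ V, al * law K S y ≤ ∑ x ∈ V, K x y := Finset.sum_le_sum h1
  rw [Finset.sum_const, nsmul_eq_mul, ← card_mul_law hneV] at h4
  exact le_of_mul_le_mul_left h4 hv

theorem law_le_div (h : Ker K R al) (hS : S ⊆ R) (hne : S.Nonempty) (hV : V ⊆ R) (hneV : V.Nonempty) (y : Y) :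
    law K S y ≤ law K V y / al := by
  rw [le_div_iff₀ h.pos, mul_comm]
  exact law_cmp h hS hne hV hneV y

theorem law_zero (h : Ker K R al) (hS : S ⊆ R) (hne : S.Nonempty) (hV : V ⊆ R) (hneV : V.Nonempty) {y : Y}
    (hy : law K V y = 0) : law K S y = 0 := by
  have h1 := law_le_div h hS hne hV hneV y
  rw [hy, zero_div] at h1
  exact le_antisymm h1 (law_nonneg h hS y)

theorem K_zero (h : Ker K R al) (hS : S ⊆ R) {x : X} (hx : x ∈ S) {y : Y} (hy : law K S y = 0) : K x y = 0 := by
  have hne : S.Nonempty := ⟨x, hx⟩
  have h1 := card_mul_law (K := K) hne y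
  rw [hy, mul_zero] at h1
  exact (Finset.sum_eq_zero_iff_of_nonneg fun x hx => h.nn x (hS hx) y).1 h1.symm x hx

/-- Gibbs, pointwise -/
theorem gibbs_pt {s v : ℝ} (hs : 0 ≤ s) (hv : 0 ≤ v) (h0 : v = 0 → s = 0) :
    s - v ≤ s * Real.log (s / v) := by
  rcases hs.eq_or_lt with hs0 | hs0
  · rw [← hs0]; simp [hv]
  · have hv0 : 0 < v := by
      rcases hv.eq_or_lt with hv0 | hv0
      · exact absurd (h0 hv0.symm) hs0.ne'
      · exact hv0
    have h1 := Real.log_le_sub_one_of_pos (div_pos hv0 hs0)
    have h2 : Real.log (s / v) = -Real.log (v / s) := by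
      rw [← Real.log_inv, inv_div]
    rw [h2]
    have h3 : s * (v / s - 1) = v - s := by field_simp
    have h4 := mul_le_mul_of_nonneg_left h1 hs0.le
    rw [h3] at h4
    linarith

theorem kld_nonneg (h : Ker K R al) (hS : S ⊆ R) (hne : S.Nonempty) (hV : V ⊆ R) (hneV : V.Nonempty) :
    0 ≤ kld K S V := by
  have h1 : ∑ y, (law K S y - law K V y) ≤ kld K S V :=
    Finset.sum_le_sum fun y _ => gibbs_pt (law_nonneg h hS y) (law_nonneg h hV y)
      (law_zero h hS hne hV hneV)
  rw [Finset.sum_sub_distrib, law_tot h hS hne, law_tot h hV hneV] at h1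
  linarith

/-! ## the complement -/

omit [Fintype Y] in
open Classical in
theorem law_split (hV : V ⊆ R) (hneV : V.Nonempty) (hlt : pr R V < 1) (y : Y) :
    law K R y = pr R V * law K V y + (1 - pr R V) * law K (R \ V) y := by
  have hneR : R.Nonempty := hneV.mono hV
  have hr : (0 : ℝ) < R.card := by exact_mod_cast hneR.card_pos
  have hneC : (R \ V).Nonempty := by
    rw [Finset.sdiff_nonempty]
    intro hsub
    have : R = V := Finset.Subset.antisymm hsub hV
    rw [this, pr, div_self (by exact_mod_cast hneV.card_pos.ne')] at hlt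
    exact lt_irrefl _ hlt
  have hc : ((R \ V).card : ℝ) = R.card - V.card := by
    rw [Finset.card_sdiff_of_subset hV, Nat.cast_sub (Finset.card_le_card hV)]
  have e1 := card_mul_law (K := K) hneV y
  have e2 := card_mul_law (K := K) hneC y
  have e3 := card_mul_law (K := K) hneR y
  have e4 : ∑ x ∈ R, K x y = ∑ x ∈ V, K x y + ∑ x ∈ R \ V, K x y := by
    rw [add_comm, Finset.sum_sdiff hV]
  rw [← e1, ← e2, ← e3, hc] at e4
  unfold pr
  field_simp
  linarith

open Classical in
/-- for a rare set the complement carries little information -/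
theorem kld_compl (h : Ker K R al) (hV : V ⊆ R) (hneV : V.Nonempty) (hp : pr R V ≤ al / 4) :
    (1 - pr R V) * kld K (R \ V) R ≤ pr R V * kld K V R := by
  have hneR : R.Nonempty := hneV.mono hV
  have hp0 : 0 ≤ pr R V := div_nonneg (Nat.cast_nonneg _) (Nat.cast_nonneg _)
  have hp4 : pr R V ≤ 1 / 4 := by have := h.le1; linarith
  set p := pr R V with hpd
  have hneC : (R \ V).Nonempty := by
    rw [Finset.sdiff_nonempty]
    intro hsub
    have : R = V := Finset.Subset.antisymm hsub hV
    rw [hpd, this, pr, div_self (by exact_mod_cast hneV.card_pos.ne')] at hp4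
    norm_num at hp4
  have hC : R \ V ⊆ R := Finset.sdiff_subset
  have key : ∀ y, (1 - p) * (law K (R \ V) y * Real.log (law K (R \ V) y / law K R y)) ≤
      (1 - p) * (law K (R \ V) y - law K R y) +
        p * (law K V y * Real.log (law K V y / law K R y) - law K V y + law K R y) := by
    intro y
    have hr0 := law_nonneg h (Finset.Subset.refl R) y
    have hv0 := law_nonneg h hV y
    have hc0 := law_nonneg h hC y
    have hsplit := law_split (K := K) hV hneV (by rw [← hpd]; linarith) y
    rw [← hpd] at hsplit
    rcases hr0.eq_or_lt with hr | hr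
    · have v0 := law_zero h hV hneV (Finset.Subset.refl R) hneR hr.symm
      have c0 := law_zero h hC hneC (Finset.Subset.refl R) hneR hr.symm
      rw [v0, c0, ← hr]
      simp
    · set r := law K R y
      set v := law K V y
      set c := law K (R \ V) y
      have hx0 : 0 ≤ v / r := div_nonneg hv0 hr.le
      have hxa : v / r ≤ 1 / al := by
        have := law_le_div h hV hneV (Finset.Subset.refl R) hneR y
        rw [div_le_div_iff₀ hr h.pos]
        rw [le_div_iff₀ h.pos] at this
        linarith
      have hmax : max 1 (v / r) ≤ 1 / al := max_le (by rw [le_div_iff₀ h.pos]; linarith [h.le1]) hxa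
      have hsq := hphi_sq hx0
      have hph := hphi_nonneg hx0
      have hsq2 : (v / r - 1) ^ 2 ≤ 2 / al * hphi (v / r) := by
        refine hsq.trans ?_
        have := mul_le_mul_of_nonneg_right (mul_le_mul_of_nonneg_left hmax (by norm_num : (0:ℝ) ≤ 2)) hph
        calc _ ≤ _ := this
          _ = _ := by ring
      -- the complement
      have hcr : (1 - p) * (c - r) = p * (r - v) := by linarith
      have hlog : c * Real.log (c / r) ≤ (c - r) + (c - r) ^ 2 / r := by
        rcases hc0.eq_or_lt with hc | hc
        · rw [← hc, zero_mul]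
          have h12 : (0 - r) ^ 2 / r = r := by field_simp; ring
          rw [h12]
          linarith
        · have h5 := Real.log_le_sub_one_of_pos (div_pos hc hr)
          have h6 := mul_le_mul_of_nonneg_left h5 hc0
          refine h6.trans (le_of_eq ?_)
          field_simp
          ring
      have h1p : 0 < 1 - p := by linarith
      have e1 : (1 - p) * ((c - r) ^ 2 / r) = p ^ 2 / (1 - p) * (r * (v / r - 1) ^ 2) := by
        have e2 : c - r = p * (r - v) / (1 - p) := by
          rw [eq_div_iff h1p.ne']
          linarith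
        rw [e2]
        field_simp
        ring
      have h7 : (1 - p) * ((c - r) ^ 2 / r) ≤ p * (r * hphi (v / r)) := by
        rw [e1]
        have h8 : r * (v / r - 1) ^ 2 ≤ 2 / al * (r * hphi (v / r)) := by
          have := mul_le_mul_of_nonneg_left hsq2 hr.le
          calc _ ≤ _ := this
            _ = _ := by ring
        have h9 : 0 ≤ r * hphi (v / r) := mul_nonneg hr.le hph
        have h10 : p ^ 2 / (1 - p) * (2 / al) ≤ p := by
          rw [div_mul_div_comm, div_le_iff₀ (mul_pos h1p h.pos)]
          have : p * 2 ≤ (1 - p) * al := by nlinarith [h.pos, h.le1]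
          nlinarith
        calc p ^ 2 / (1 - p) * (r * (v / r - 1) ^ 2) ≤ p ^ 2 / (1 - p) * (2 / al * (r * hphi (v / r))) :=
              mul_le_mul_of_nonneg_left h8 (div_nonneg (sq_nonneg _) h1p.le)
          _ = p ^ 2 / (1 - p) * (2 / al) * (r * hphi (v / r)) := by ring
          _ ≤ p * (r * hphi (v / r)) := mul_le_mul_of_nonneg_right h10 h9
      have e3 : r * hphi (v / r) = v * Real.log (v / r) - v + r := by
        unfold hphi
        field_simp
      rw [e3] at h7
      have h11 := mul_le_mul_of_nonneg_left hlog h1p.le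
      linarith
  have hsum := Finset.sum_le_sum fun y (_ : y ∈ (Finset.univ : Finset Y)) => key y
  rw [← Finset.mul_sum, Finset.sum_add_distrib, ← Finset.mul_sum, ← Finset.mul_sum,
    Finset.sum_sub_distrib, Finset.sum_add_distrib, Finset.sum_sub_distrib,
    law_tot h hC hneC, law_tot h (Finset.Subset.refl R) hneR, law_tot h hV hneV] at hsum
  unfold kld
  linarith

/-- size and proportion -/
theorem sz_eq (R V : Finset X) : sz R V = Real.log (pr R V)⁻¹ := by
  unfold sz pr
  rw [inv_div]

theorem pr_pos (hV : V ⊆ R) (hneV : V.Nonempty) : 0 < pr R V := by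
  have hneR : R.Nonempty := hneV.mono hV
  exact div_pos (by exact_mod_cast hneV.card_pos) (by exact_mod_cast hneR.card_pos)

theorem pr_le_one (hV : V ⊆ R) : pr R V ≤ 1 := by
  unfold pr
  exact div_le_one_of_le₀ (by exact_mod_cast Finset.card_le_card hV) (Nat.cast_nonneg _)

theorem pr_eq_exp (hV : V ⊆ R) (hneV : V.Nonempty) : pr R V = Real.exp (-sz R V) := by
  rw [sz_eq R V, Real.log_inv, neg_neg, Real.exp_log (pr_pos hV hneV)]

theorem sz_nonneg (hV : V ⊆ R) (hneV : V.Nonempty) : 0 ≤ sz R V := by
  rw [sz_eq R V]
  exact Real.log_nonneg ((one_le_inv₀ (pr_pos hV hneV)).2 (pr_le_one hV))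

/-- a rare violating set is informative -/
theorem rare_viol (h : Ker K R al) (hV : V ⊆ R) (hneV : V.Nonempty) (hp : pr R V ≤ al / 4) {n : ℝ} (hn : 0 < n)
    (hvio : Vio n K R V) : sz R V / (2 * n) ≤ kld K V R := by
  classical
  have hp0 := pr_pos hV hneV
  have hp4 : pr R V ≤ 1 / 4 := by have := h.le1; linarith
  have h1 := kld_compl h hV hneV hp
  have h2 : pr R V * sz R V ≤ Real.binEntropy (pr R V) := by
    rw [Real.binEntropy, sz_eq R V]
    have : 0 ≤ (1 - pr R V) * Real.log (1 - pr R V)⁻¹ :=
      mul_nonneg (by linarith) (Real.log_nonneg ((one_le_inv₀ (by linarith)).2 (by linarith)))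
    linarith
  have h3 : mi K R V ≤ 2 * (pr R V * kld K V R) := by
    unfold mi
    linarith
  have h4 : pr R V * sz R V ≤ n * (2 * (pr R V * kld K V R)) :=
    h2.trans (hvio.le.trans (mul_le_mul_of_nonneg_left h3 hn.le))
  have h5 : pr R V * sz R V ≤ pr R V * (2 * n * kld K V R) := by linarith
  have h6 := le_of_mul_le_mul_left h5 hp0
  rw [div_le_iff₀ (by linarith)]
  linarith

/-- a class without rare violating sets is saturated for rare sets -/
theorem sat_rare (h : Ker K R al) (hS : S ⊆ R) (hne : S.Nonempty) {n : ℝ} (hn : 0 < n)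
    (hlt : pr R S < 1) (hvio : ¬ Vio n K R S) : kld K S R ≤ (sz R S + 1) / n := by
  classical
  have hp0 := pr_pos hS hne
  have hneR : R.Nonempty := hne.mono hS
  have hneC : (R \ S).Nonempty := by
    rw [Finset.sdiff_nonempty]
    intro hsub
    have : R = S := Finset.Subset.antisymm hsub hS
    rw [this, pr, div_self (by exact_mod_cast hne.card_pos.ne')] at hlt
    exact lt_irrefl _ hlt
  have h1 : 0 ≤ kld K (R \ S) R :=
    kld_nonneg h Finset.sdiff_subset hneC (Finset.Subset.refl R) hneR
  have h2 : n * (pr R S * kld K S R + (1 - pr R S) * kld K (R \ S) R) ≤ Real.binEntropy (pr R S) :=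
    not_lt.1 hvio
  have h3 : Real.binEntropy (pr R S) ≤ pr R S * (sz R S + 1) := by
    rw [Real.binEntropy, sz_eq R S]
    have h4 : 0 < 1 - pr R S := by linarith
    have h5 := Real.log_le_sub_one_of_pos (inv_pos.2 h4)
    have h6 := mul_le_mul_of_nonneg_left h5 h4.le
    have h7 : (1 - pr R S) * ((1 - pr R S)⁻¹ - 1) = pr R S := by field_simp; ring
    linarith
  have h8 : 0 ≤ n * ((1 - pr R S) * kld K (R \ S) R) :=
    mul_nonneg hn.le (mul_nonneg (by linarith) h1)
  have h9 : pr R S * (n * kld K S R) ≤ pr R S * (sz R S + 1) := by linarith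
  rw [le_div_iff₀ hn]
  have := le_of_mul_le_mul_left h9 hp0
  linarith

/-! ## the informative half -/

theorem sum_lV (hneV : V.Nonempty) :
    ∑ x ∈ V, lV K R V x = V.card * kld K V R := by
  unfold lV kld
  rw [Finset.sum_comm, Finset.mul_sum]
  refine Finset.sum_congr rfl fun y _ => ?_
  rw [← Finset.sum_mul, ← card_mul_law hneV]
  ring

theorem lV_le (h : Ker K R al) (hV : V ⊆ R) {x : X} (hx : x ∈ V) : lV K R V x ≤ Real.log (1 / al) := by
  have hneV : V.Nonempty := ⟨x, hx⟩
  have hneR : R.Nonempty := hneV.mono hV
  unfold lV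
  have hL : 0 ≤ Real.log (1 / al) := Real.log_nonneg (by rw [le_div_iff₀ h.pos]; linarith [h.le1])
  have h1 : ∀ y, K x y * Real.log (law K V y / law K R y) ≤ K x y * Real.log (1 / al) := by
    intro y
    have hk := h.nn x (hV hx) y
    refine mul_le_mul_of_nonneg_left ?_ hk |>.trans le_rfl
    rcases (law_nonneg h hV y).eq_or_lt with hv | hv
    · rw [← hv]; simp only [zero_div, Real.log_zero]; exact hL
    · have hr : 0 < law K R y := by
        rcases (law_nonneg h (Finset.Subset.refl R) y).eq_or_lt with hr | hr
        · exact absurd (law_zero h hV hneV (Finset.Subset.refl R) hneR hr.symm) hv.ne'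
        · exact hr
      apply Real.log_le_log (div_pos hv hr)
      rw [div_le_div_iff₀ hr h.pos]
      have := law_cmp h hV hneV (Finset.Subset.refl R) hneR y
      linarith
  calc ∑ y, K x y * Real.log (law K V y / law K R y) ≤ ∑ y, K x y * Real.log (1 / al) :=
        Finset.sum_le_sum fun y _ => h1 y
    _ = Real.log (1 / al) := by rw [← Finset.sum_mul, h.tot x (hV hx), one_mul]

theorem core_sub : core K R V ⊆ V := by
  classical
  exact Finset.filter_subset _ _

/-- the informative half is not small -/
theorem card_core (h : Ker K R al) (hV : V ⊆ R) (hneV : V.Nonempty) :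
    (V.card : ℝ) * kld K V R / 2 ≤ (core K R V).card * Real.log (1 / al) := by
  classical
  have hL : 0 ≤ Real.log (1 / al) := Real.log_nonneg (by rw [le_div_iff₀ h.pos]; linarith [h.le1])
  have hk : 0 ≤ kld K V R := kld_nonneg h hV hneV (Finset.Subset.refl R) (hneV.mono hV)
  have h1 : ∑ x ∈ V, lV K R V x ≤ ∑ x ∈ V, ((if x ∈ core K R V then Real.log (1 / al) else 0) + kld K V R / 2) := by
    refine Finset.sum_le_sum fun x hx => ?_
    by_cases hc : x ∈ core K R V
    · rw [if_pos hc]
      have := lV_le h hV hx
      linarith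
    · rw [if_neg hc]
      have h2 : ¬ kld K V R / 2 ≤ lV K R V x := fun hcon => hc (Finset.mem_filter.2 ⟨hx, hcon⟩)
      linarith
  rw [sum_lV hneV, Finset.sum_add_distrib, Finset.sum_const, nsmul_eq_mul, ← Finset.sum_filter,
    Finset.sum_const, nsmul_eq_mul] at h1
  have h3 : (V.filter (fun x => x ∈ core K R V)) = core K R V := by
    ext x
    simp only [Finset.mem_filter]
    exact ⟨fun hh => hh.2, fun hh => ⟨core_sub hh, hh⟩⟩
  rw [h3] at h1
  linarith

/-- every subset of the informative half is informative -/
theorem core_gain (h : Ker K R al) (hV : V ⊆ R) (hneV : V.Nonempty) (hS : S ⊆ core K R V) (hne : S.Nonempty) :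
    kld K V R / 2 ≤ kld K S R := by
  classical
  have hSV : S ⊆ V := hS.trans core_sub
  have hSR : S ⊆ R := hSV.trans hV
  have hneR : R.Nonempty := hneV.mono hV
  have hs : (0 : ℝ) < S.card := by exact_mod_cast hne.card_pos
  have h1 : ∀ y, (law K S y - law K V y) + law K S y * Real.log (law K V y / law K R y) ≤
      law K S y * Real.log (law K S y / law K R y) := by
    intro y
    have g := gibbs_pt (law_nonneg h hSR y) (law_nonneg h hV y) (law_zero h hSR hne hV hneV)
    rcases (law_nonneg h hSR y).eq_or_lt with hs0 | hs0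
    · rw [← hs0] at g ⊢
      simp only [zero_mul] at g ⊢
      linarith
    · have hv0 : 0 < law K V y := by
        rcases (law_nonneg h hV y).eq_or_lt with hv | hv
        · exact absurd (law_zero h hSR hne hV hneV hv.symm) hs0.ne'
        · exact hv
      have hr0 : 0 < law K R y := by
        rcases (law_nonneg h (Finset.Subset.refl R) y).eq_or_lt with hr | hr
        · exact absurd (law_zero h hV hneV (Finset.Subset.refl R) hneR hr.symm) hv0.ne'
        · exact hr
      have e : Real.log (law K S y / law K R y) =
          Real.log (law K S y / law K V y) + Real.log (law K V y / law K R y) := by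
        rw [← Real.log_mul (div_pos hs0 hv0).ne' (div_pos hv0 hr0).ne']
        congr 1
        field_simp
      rw [e, mul_add]
      linarith
  have h2 := Finset.sum_le_sum fun y (_ : y ∈ (Finset.univ : Finset Y)) => h1 y
  rw [Finset.sum_add_distrib, Finset.sum_sub_distrib, law_tot h hSR hne, law_tot h hV hneV, sub_self,
    zero_add] at h2
  have h3 : (S.card : ℝ) * ∑ y, law K S y * Real.log (law K V y / law K R y) = ∑ x ∈ S, lV K R V x := by
    unfold lV
    rw [Finset.sum_comm, Finset.mul_sum]
    refine Finset.sum_congr rfl fun y _ => ?_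
    rw [← Finset.sum_mul, ← card_mul_law hne]
    ring
  have h4 : ∑ _x ∈ S, kld K V R / 2 ≤ ∑ x ∈ S, lV K R V x :=
    Finset.sum_le_sum fun x hx => (Finset.mem_filter.1 (hS hx)).2
  rw [Finset.sum_const, nsmul_eq_mul, ← h3] at h4
  have h5 := le_of_mul_le_mul_left h4 hs
  exact h5.trans h2

/-! ## removal -/

/-- a set is rare in `R` -/
def Rare (Lr : ℝ) (R V : Finset X) : Prop := V ⊆ R ∧ V.Nonempty ∧ pr R V ≤ Real.exp (-Lr)

/-- properties of a removed piece `v` with the size `L` -/
structure Piece (n : ℝ) (K : X → Y → ℝ) (R : Finset X) (al Lr : ℝ) (v : Finset X) (L : ℝ) : Prop where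
  big : Lr ≤ L
  upper : (v.card : ℝ) ≤ Real.exp (-L) * R.card
  lower : Real.exp (-L) * R.card * (L / (4 * n)) ≤ v.card * Real.log (1 / al)
  gain : ∀ S, S ⊆ v → S.Nonempty → L / (4 * n) ≤ kld K S R

theorem piece_of_viol (h : Ker K R al) {n Lr : ℝ} (hn : 0 < n) (hLr : Real.exp (-Lr) ≤ al / 4)
    (hV : Rare Lr R V) (hvio : Vio n K R V) : Piece n K R al Lr (core K R V) (sz R V) := by
  obtain ⟨hVR, hneV, hp⟩ := hV
  have hR : (0 : ℝ) < R.card := by exact_mod_cast (hneV.mono hVR).card_pos
  have hk := rare_viol h hVR hneV (hp.trans hLr) hn hvio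
  have hpe := pr_eq_exp hVR hneV
  have hcard : (V.card : ℝ) = Real.exp (-sz R V) * R.card := by
    rw [← hpe, pr]
    field_simp
  refine ⟨?_, ?_, ?_, ?_⟩
  · rw [hpe] at hp
    have := Real.exp_le_exp.1 hp
    linarith
  · rw [← hcard]
    exact_mod_cast Finset.card_le_card core_sub
  · rw [← hcard]
    refine le_trans ?_ (card_core h hVR hneV)
    have h1 : (V.card : ℝ) * (sz R V / (4 * n)) = V.card * (sz R V / (2 * n)) / 2 := by
      field_simp
      ring
    rw [h1]
    have := mul_le_mul_of_nonneg_left hk (Nat.cast_nonneg V.card : (0 : ℝ) ≤ V.card)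
    linarith
  · intro S hS hne
    refine le_trans ?_ (core_gain h hVR hneV hS hne)
    have h1 : sz R V / (4 * n) = sz R V / (2 * n) / 2 := by
      field_simp
      ring
    rw [h1]
    linarith

/-- a violating rare set has a nonempty informative half -/
theorem core_nonempty (h : Ker K R al) {n Lr : ℝ} (hn : 0 < n) (hLr : Real.exp (-Lr) ≤ al / 4)
    (hV : Rare Lr R V) (hvio : Vio n K R V) : (core K R V).Nonempty := by
  by_contra hcon
  rw [Finset.not_nonempty_iff_eq_empty] at hcon
  have hp := piece_of_viol h hn hLr hV hvio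
  have h1 := hp.lower
  rw [hcon, Finset.card_empty, Nat.cast_zero, zero_mul] at h1
  obtain ⟨hVR, hneV, hpr⟩ := hV
  have hR : (0 : ℝ) < R.card := by exact_mod_cast (hneV.mono hVR).card_pos
  have hs : 0 < sz R V := by
    rw [sz_eq R V]
    apply Real.log_pos
    rw [one_lt_inv₀ (pr_pos hVR hneV)]
    have := h.le1
    linarith
  have : 0 < Real.exp (-sz R V) * R.card * (sz R V / (4 * n)) := by positivity
  linarith

open Classical in
/-- GREEDY REMOVAL inside `Kl ⊆ R` with the fixed reference class `R`.  `r x = 0`: `x` stays; `r x = i + 1`: `x` is in the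
`i`-th removed piece. -/
theorem removal {X Y : Type*} [Fintype Y] {K : X → Y → ℝ} {R : Finset X} {al : ℝ}
    (h : Ker K R al) {n Lr eps : ℝ} (hn : 0 < n) (hLr : Real.exp (-Lr) ≤ al / 4)
    (Kl : Finset X) (hKl : Kl ⊆ R) :
    ∃ (r : X → ℕ) (L : ℕ → ℝ),
      (∀ i, (Kl.filter (fun x => r x = i + 1)).Nonempty →
        Piece n K R al Lr (Kl.filter (fun x => r x = i + 1)) (L i) ∧
        (1 - eps) * R.card ≤ (Kl.filter (fun x => r x = 0 ∨ i + 1 ≤ r x)).card) ∧
      ((1 - eps) * R.card ≤ (Kl.filter (fun x => r x = 0)).card →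
        ∀ V, V ⊆ Kl.filter (fun x => r x = 0) → Rare Lr R V → ¬ Vio n K R V) := by
  induction Kl using Finset.strongInduction with
  | H Kl ih =>
  by_cases hstop : (1 - eps) * R.card ≤ (Kl.card : ℝ) ∧ ∃ V, V ⊆ Kl ∧ Rare Lr R V ∧ Vio n K R V
  · obtain ⟨hsz, V, hVK, hrare, hvio⟩ := hstop
    have hcsub : core K R V ⊆ Kl := core_sub.trans hVK
    have hcne := core_nonempty h hn hLr hrare hvio
    have hlt : Kl \ core K R V ⊂ Kl := by
      refine Finset.ssubset_iff_subset_ne.2 ⟨Finset.sdiff_subset, fun heq => ?_⟩
      obtain ⟨x, hx⟩ := hcne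
      have := heq ▸ hcsub hx
      exact (Finset.mem_sdiff.1 this).2 hx
    obtain ⟨r, L, h1, h2⟩ := ih _ hlt (Finset.sdiff_subset.trans hKl)
    refine ⟨fun x => if x ∈ core K R V then 1 else if r x = 0 then 0 else r x + 1,
      fun i => if i = 0 then sz R V else L (i - 1), ?_, ?_⟩
    · intro i hi
      rcases Nat.eq_zero_or_pos i with hi0 | hi0
      · subst hi0
        have e1 : Kl.filter (fun x => (if x ∈ core K R V then 1 else if r x = 0 then 0 else r x + 1) = 0 + 1) =
            core K R V := by
          ext x
          simp only [Finset.mem_filter]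
          constructor
          · rintro ⟨_, hx2⟩
            by_contra hc
            rw [if_neg hc] at hx2
            by_cases hr : r x = 0
            · rw [if_pos hr] at hx2
              omega
            · rw [if_neg hr] at hx2
              omega
          · intro hx
            exact ⟨hcsub hx, by rw [if_pos hx]⟩
        have e2 : Kl.filter (fun x => (if x ∈ core K R V then 1 else if r x = 0 then 0 else r x + 1) = 0 ∨
            0 + 1 ≤ (if x ∈ core K R V then 1 else if r x = 0 then 0 else r x + 1)) = Kl := by
          ext x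
          simp only [Finset.mem_filter, and_iff_left_iff_imp]
          intro _
          omega
        rw [e1, e2]
        refine ⟨?_, hsz⟩
        simp only [if_true]
        exact piece_of_viol h hn hLr hrare hvio
      · obtain ⟨j, rfl⟩ : ∃ j, i = j + 1 := ⟨i - 1, by omega⟩
        have e1 : Kl.filter (fun x => (if x ∈ core K R V then 1 else if r x = 0 then 0 else r x + 1) = j + 1 + 1) =
            (Kl \ core K R V).filter (fun x => r x = j + 1) := by
          ext x
          simp only [Finset.mem_filter, Finset.mem_sdiff]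
          constructor
          · rintro ⟨hx1, hx2⟩
            by_cases hc : x ∈ core K R V
            · rw [if_pos hc] at hx2
              omega
            · rw [if_neg hc] at hx2
              by_cases hr : r x = 0
              · rw [if_pos hr] at hx2
                omega
              · rw [if_neg hr] at hx2
                exact ⟨⟨hx1, hc⟩, by omega⟩
          · rintro ⟨⟨hx1, hc⟩, hx2⟩
            refine ⟨hx1, ?_⟩
            rw [if_neg hc, if_neg (by omega)]
            omega
        have e2 : Kl.filter (fun x => (if x ∈ core K R V then 1 else if r x = 0 then 0 else r x + 1) = 0 ∨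
            j + 1 + 1 ≤ (if x ∈ core K R V then 1 else if r x = 0 then 0 else r x + 1)) =
            (Kl \ core K R V).filter (fun x => r x = 0 ∨ j + 1 ≤ r x) := by
          ext x
          simp only [Finset.mem_filter, Finset.mem_sdiff]
          constructor
          · rintro ⟨hx1, hx2⟩
            by_cases hc : x ∈ core K R V
            · rw [if_pos hc] at hx2
              omega
            · rw [if_neg hc] at hx2
              by_cases hr : r x = 0
              · exact ⟨⟨hx1, hc⟩, Or.inl hr⟩
              · rw [if_neg hr] at hx2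
                exact ⟨⟨hx1, hc⟩, by omega⟩
          · rintro ⟨⟨hx1, hc⟩, hx2⟩
            refine ⟨hx1, ?_⟩
            rw [if_neg hc]
            by_cases hr : r x = 0
            · rw [if_pos hr]
              exact Or.inl rfl
            · rw [if_neg hr]
              omega
        rw [e1] at hi ⊢
        rw [e2]
        have e3 : (fun i => if i = 0 then sz R V else L (i - 1)) (j + 1) = L j := by
          show (if j + 1 = 0 then sz R V else L (j + 1 - 1)) = L j
          rw [if_neg (by omega), Nat.add_sub_cancel]
        rw [e3]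
        exact h1 j hi
    · have e0 : Kl.filter (fun x => (if x ∈ core K R V then 1 else if r x = 0 then 0 else r x + 1) = 0) =
          (Kl \ core K R V).filter (fun x => r x = 0) := by
        ext x
        simp only [Finset.mem_filter, Finset.mem_sdiff]
        constructor
        · rintro ⟨hx1, hx2⟩
          by_cases hc : x ∈ core K R V
          · rw [if_pos hc] at hx2
            omega
          · rw [if_neg hc] at hx2
            by_cases hr : r x = 0
            · exact ⟨⟨hx1, hc⟩, hr⟩
            · rw [if_neg hr] at hx2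
              omega
        · rintro ⟨⟨hx1, hc⟩, hx2⟩
          exact ⟨hx1, by rw [if_neg hc, if_pos hx2]⟩
      rw [e0]
      exact h2
  · refine ⟨fun _ => 0, fun _ => 0, ?_, ?_⟩
    · intro i hi
      obtain ⟨x, hx⟩ := hi
      have h0 : (0 : ℕ) = i + 1 := (Finset.mem_filter.1 hx).2
      omega
    · intro hsz V hV hrare hvio
      have e0 : Kl.filter (fun _ => (0 : ℕ) = 0) = Kl := by
        ext x
        simp
      rw [e0] at hsz hV
      exact hstop ⟨hsz, V, hV, hrare, hvio⟩

end

end Pool.Agent.M3.Rem
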