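import Pool.Agent.M3.S3.Prod

/-!
# M3.S3.Rule: the running process of section 3 (helper26)

`Epo X` = epoch (start time `t0`, class `om0` at the start); reference labels = labels of the time `t0`.
`Rm D` = removals (abstract): `pf e s x b c K y` = index of the piece of `y ∈ K` in the removal by the `f`-rule at the
time `s` (0 = rest), a function of the cells of `x`, `b` at `s` and of the cell of `c` at the START of the epoch; `pg` the
same for `g`; `sp s x b c v` = complete split of the class `v` (cells = fibres).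
FREE RUN of an epoch (no tests, no falls): `KF e s x b c`, `KG`, `om = KF ∩ KG`.
`Rl D` = removals and tests: `th e s` (half step, no falls then), `ts e s` (survivors, after the falls).
STEP `s → s+1`: `hc` = half step class; `vc` = coarse cell of `x` in `hc`; a NEW EPOCH starts at `s+1` if `th`, or `x` has
fallen, or `ts`; its class is the cell of `x` in the complete split of `vc`.
THE PROCESS `ep s x b c : Epo X`, class `U s x b c`.

* `KF_inv`, `KG_inv`, `om_inv`; `self_U`, `U_sub`, `pub` (U is public), `U_succ_sub` (refining).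
* `ST e s` = stopped before the falls of the time `s` (`TP ≤ s`), monotone in `s`.
-/

set_option autoImplicit false
set_option linter.unusedSectionVars false
set_option linter.unusedSimpArgs false

namespace Pool.Agent.M3.S3

open Finset Pool.Agent.PWZ Pool.Agent.M3

noncomputable section

/-- an epoch: start time and class at the start -/
structure Epo (X : Type*) where
  t0 : ℕ
  om0 : Finset X

/-- the removals -/
structure Rm {X β γ ι φ : Type*} (D : Dat X β γ ι φ) where
  pf : Epo X → ℕ → X → β → γ → Finset X → X → ℕ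
  pg : Epo X → ℕ → X → β → γ → Finset X → X → ℕ
  sp : ℕ → X → β → γ → Finset X → X → ℕ
  pf_c : ∀ (e : Epo X) s x x' b b' c c' K, e.t0 ≤ s → D.qa s x = D.qa s x' → D.qb s b = D.qb s b' →
    D.qc e.t0 c = D.qc e.t0 c' → pf e s x b c K = pf e s x' b' c' K
  pg_b : ∀ (e : Epo X) s x x' b b' c c' K, e.t0 ≤ s → D.qa s x = D.qa s x' → D.qb e.t0 b = D.qb e.t0 b' →
    D.qc s c = D.qc s c' → pg e s x b c K = pg e s x' b' c' K
  sp_q : ∀ s x b c x' b' c' K, D.Same s x b c x' b' c' → sp s x b c K = sp s x' b' c' K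

section run

variable {X β γ ι φ : Type*} [Fintype X] {D : Dat X β γ ι φ}

namespace Rm

variable (R : Rm D) (e : Epo X)

open Classical in
/-- free run of the `f`-rule -/
def KF : ℕ → X → β → γ → Finset X
  | 0, _, _, _ => e.om0
  | s + 1, x, b, c => if s + 1 ≤ e.t0 then e.om0 else
      (KF s x b c ∩ D.cA (s + 1) x).filter fun y => R.pf e (s + 1) x b c (KF s x b c ∩ D.cA (s + 1) x) y = 0

open Classical in
/-- free run of the `g`-rule -/
def KG : ℕ → X → β → γ → Finset X
  | 0, _, _, _ => e.om0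
  | s + 1, x, b, c => if s + 1 ≤ e.t0 then e.om0 else
      (KG s x b c ∩ D.cA (s + 1) x).filter fun y => R.pg e (s + 1) x b c (KG s x b c ∩ D.cA (s + 1) x) y = 0

/-- the class of the epoch at the time `s` -/
def om (s : ℕ) (x : X) (b : β) (c : γ) : Finset X := by
  classical
  exact R.KF e s x b c ∩ R.KG e s x b c

theorem mem_om {s : ℕ} {x : X} {b : β} {c : γ} {y : X} :
    y ∈ R.om e s x b c ↔ y ∈ R.KF e s x b c ∧ y ∈ R.KG e s x b c := by
  classical
  simp only [om, mem_inter]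

variable {e}

theorem KF_old {s : ℕ} (h : s ≤ e.t0) (x : X) (b : β) (c : γ) : R.KF e s x b c = e.om0 := by
  cases s with
  | zero => rfl
  | succ s => simp only [KF, if_pos h]

theorem KG_old {s : ℕ} (h : s ≤ e.t0) (x : X) (b : β) (c : γ) : R.KG e s x b c = e.om0 := by
  cases s with
  | zero => rfl
  | succ s => simp only [KG, if_pos h]

theorem om_old {s : ℕ} (h : s ≤ e.t0) (x : X) (b : β) (c : γ) : R.om e s x b c = e.om0 := by
  ext y
  rw [mem_om, R.KF_old h, R.KG_old h]
  simp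

open Classical in
theorem mem_KF_succ {s : ℕ} (h : e.t0 ≤ s) {x : X} {b : β} {c : γ} {y : X} :
    y ∈ R.KF e (s + 1) x b c ↔ (y ∈ R.KF e s x b c ∧ y ∈ D.cA (s + 1) x) ∧
      R.pf e (s + 1) x b c (R.KF e s x b c ∩ D.cA (s + 1) x) y = 0 := by
  have h' : ¬ s + 1 ≤ e.t0 := by omega
  simp only [KF, if_neg h', mem_filter, mem_inter]

open Classical in
theorem mem_KG_succ {s : ℕ} (h : e.t0 ≤ s) {x : X} {b : β} {c : γ} {y : X} :
    y ∈ R.KG e (s + 1) x b c ↔ (y ∈ R.KG e s x b c ∧ y ∈ D.cA (s + 1) x) ∧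
      R.pg e (s + 1) x b c (R.KG e s x b c ∩ D.cA (s + 1) x) y = 0 := by
  have h' : ¬ s + 1 ≤ e.t0 := by omega
  simp only [KG, if_neg h', mem_filter, mem_inter]

theorem KF_inv {s : ℕ} (h : e.t0 ≤ s) {x x' : X} {b b' : β} {c c' : γ} (hx : D.qa s x = D.qa s x')
    (hb : D.qb s b = D.qb s b') (hc : D.qc e.t0 c = D.qc e.t0 c') : R.KF e s x b c = R.KF e s x' b' c' := by
  classical
  induction s with
  | zero => rfl
  | succ s ih =>
    rcases Nat.lt_or_ge s e.t0 with h1 | h1
    · rw [R.KF_old (by omega), R.KF_old (by omega)]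
    · have e1 := ih h1 (D.ra s x x' hx) (D.rb s b b' hb)
      have e2 := D.cA_congr hx
      have e3 : R.KF e s x b c ∩ D.cA (s + 1) x = R.KF e s x' b' c' ∩ D.cA (s + 1) x' := by rw [e1, e2]
      ext y
      rw [R.mem_KF_succ h1, R.mem_KF_succ h1, e3, R.pf_c e (s + 1) x x' b b' c c' _ h hx hb hc, e1, e2]

theorem KG_inv {s : ℕ} (h : e.t0 ≤ s) {x x' : X} {b b' : β} {c c' : γ} (hx : D.qa s x = D.qa s x')
    (hb : D.qb e.t0 b = D.qb e.t0 b') (hc : D.qc s c = D.qc s c') : R.KG e s x b c = R.KG e s x' b' c' := by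
  classical
  induction s with
  | zero => rfl
  | succ s ih =>
    rcases Nat.lt_or_ge s e.t0 with h1 | h1
    · rw [R.KG_old (by omega), R.KG_old (by omega)]
    · have e1 := ih h1 (D.ra s x x' hx) (D.rc s c c' hc)
      have e2 := D.cA_congr hx
      have e3 : R.KG e s x b c ∩ D.cA (s + 1) x = R.KG e s x' b' c' ∩ D.cA (s + 1) x' := by rw [e1, e2]
      ext y
      rw [R.mem_KG_succ h1, R.mem_KG_succ h1, e3, R.pg_b e (s + 1) x x' b b' c c' _ h hx hb hc, e1, e2]

theorem om_inv {s : ℕ} (h : e.t0 ≤ s) {x x' : X} {b b' : β} {c c' : γ} (hS : D.Same s x b c x' b' c') :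
    R.om e s x b c = R.om e s x' b' c' := by
  ext y
  rw [mem_om, mem_om, R.KF_inv h hS.1 hS.2.1 (D.qc_le h hS.2.2), R.KG_inv h hS.1 (D.qb_le h hS.2.1) hS.2.2]

theorem KF_sub {s t : ℕ} (h : s ≤ t) (x : X) (b : β) (c : γ) : R.KF e t x b c ⊆ R.KF e s x b c := by
  classical
  induction t, h using Nat.le_induction with
  | base => exact Subset.rfl
  | succ n hn ih =>
    rcases Nat.lt_or_ge n e.t0 with h1 | h1
    · rw [R.KF_old (show n + 1 ≤ e.t0 by omega), R.KF_old (show s ≤ e.t0 by omega)]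
    · intro y hy
      exact ih ((R.mem_KF_succ h1).1 hy).1.1

theorem KG_sub {s t : ℕ} (h : s ≤ t) (x : X) (b : β) (c : γ) : R.KG e t x b c ⊆ R.KG e s x b c := by
  classical
  induction t, h using Nat.le_induction with
  | base => exact Subset.rfl
  | succ n hn ih =>
    rcases Nat.lt_or_ge n e.t0 with h1 | h1
    · rw [R.KG_old (show n + 1 ≤ e.t0 by omega), R.KG_old (show s ≤ e.t0 by omega)]
    · intro y hy
      exact ih ((R.mem_KG_succ h1).1 hy).1.1

theorem om_sub {s t : ℕ} (h : s ≤ t) (x : X) (b : β) (c : γ) : R.om e t x b c ⊆ R.om e s x b c := fun y hy => by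
  rw [mem_om] at hy ⊢
  exact ⟨R.KF_sub h x b c hy.1, R.KG_sub h x b c hy.2⟩

end Rm

/-- the rule: removals and tests -/
structure Rl (D : Dat X β γ ι φ) extends Rm D where
  th : Epo X → ℕ → X → β → γ → Prop
  ts : Epo X → ℕ → X → β → γ → Prop
  th_q : ∀ (e : Epo X) s x b c x' b' c', e.t0 ≤ s → D.Same s x b c x' b' c' → (th e s x b c ↔ th e s x' b' c')
  ts_q : ∀ (e : Epo X) s x b c x' b' c', e.t0 ≤ s → D.Same s x b c x' b' c' → (ts e s x b c ↔ ts e s x' b' c')

namespace Rl

variable (R : Rl D)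

/-- stopped before the falls of the time `s`: a half step test at a time `≤ s` or a survivor test at a time `< s` -/
def ST (e : Epo X) (s : ℕ) (x : X) (b : β) (c : γ) : Prop :=
  (∃ r, e.t0 < r ∧ r ≤ s ∧ R.th e r x b c) ∨ (∃ r, e.t0 < r ∧ r < s ∧ R.ts e r x b c)

theorem ST_mono {e : Epo X} {s t : ℕ} (h : s ≤ t) {x : X} {b : β} {c : γ} (hs : R.ST e s x b c) :
    R.ST e t x b c := by
  rcases hs with ⟨r, h1, h2, h3⟩ | ⟨r, h1, h2, h3⟩
  · exact Or.inl ⟨r, h1, h2.trans h, h3⟩
  · exact Or.inr ⟨r, h1, h2.trans_le h, h3⟩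

theorem ST_inv {e : Epo X} {s : ℕ} {x x' : X} {b b' : β} {c c' : γ} (hS : D.Same s x b c x' b' c') :
    R.ST e s x b c ↔ R.ST e s x' b' c' := by
  unfold ST
  constructor
  · rintro (⟨r, h1, h2, h3⟩ | ⟨r, h1, h2, h3⟩)
    · exact Or.inl ⟨r, h1, h2, (R.th_q e r _ _ _ _ _ _ h1.le (hS.le h2)).1 h3⟩
    · exact Or.inr ⟨r, h1, h2, (R.ts_q e r _ _ _ _ _ _ h1.le (hS.le h2.le)).1 h3⟩
  · rintro (⟨r, h1, h2, h3⟩ | ⟨r, h1, h2, h3⟩)
    · exact Or.inl ⟨r, h1, h2, (R.th_q e r _ _ _ _ _ _ h1.le (hS.le h2)).2 h3⟩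
    · exact Or.inr ⟨r, h1, h2, (R.ts_q e r _ _ _ _ _ _ h1.le (hS.le h2.le)).2 h3⟩

open Classical in
/-- half step class (from `s` to `s+1`) -/
def hc (e : Epo X) (s : ℕ) (x : X) (b : β) (c : γ) : Finset X := R.om e s x b c ∩ D.cA (s + 1) x

open Classical in
/-- the code of the piece of `y` in the half step class: `f`-piece, `g`-piece of the rest -/
def code (e : Epo X) (s : ℕ) (x : X) (b : β) (c : γ) (y : X) : ℕ × ℕ :=
  if R.pf e (s + 1) x b c (R.KF e s x b c ∩ D.cA (s + 1) x) y ≠ 0 then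
    (R.pf e (s + 1) x b c (R.KF e s x b c ∩ D.cA (s + 1) x) y, 0)
  else (0, R.pg e (s + 1) x b c (R.KG e s x b c ∩ D.cA (s + 1) x) y)

open Classical in
/-- coarse cell of `x` at the step from `s` to `s+1`: with a half step test the whole half step class, otherwise the fall
cell or the class `om e (s+1)` of the survivors -/
def vc (e : Epo X) (s : ℕ) (x : X) (b : β) (c : γ) : Finset X :=
  if R.th e (s + 1) x b c then R.hc e s x b c
  else (R.hc e s x b c).filter fun y => R.code e s x b c y = R.code e s x b c x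

/-- a new epoch starts for `x` at the time `s+1` -/
def nw (e : Epo X) (s : ℕ) (x : X) (b : β) (c : γ) : Prop :=
  R.th e (s + 1) x b c ∨ x ∉ R.om e (s + 1) x b c ∨ R.ts e (s + 1) x b c

open Classical in
/-- the cell of `x` in the complete split of the class `v` at the time `s` -/
def fin (s : ℕ) (x : X) (b : β) (c : γ) (v : Finset X) : Finset X :=
  v.filter fun y => R.sp s x b c v y = R.sp s x b c v x

open Classical in
/-- THE PROCESS: the epoch of `x` at the time `s` -/
def ep : ℕ → X → β → γ → Epo X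
  | 0, x, b, c => ⟨0, R.fin 0 x b c (D.cA 0 x)⟩
  | s + 1, x, b, c => if R.nw (ep s x b c) s x b c then ⟨s + 1, R.fin (s + 1) x b c (R.vc (ep s x b c) s x b c)⟩
      else ep s x b c

/-- the class of `x` at the time `s` -/
def U (s : ℕ) (x : X) (b : β) (c : γ) : Finset X := R.om (R.ep s x b c) s x b c

theorem mem_hc {e : Epo X} {s : ℕ} {x : X} {b : β} {c : γ} {y : X} :
    y ∈ R.hc e s x b c ↔ y ∈ R.om e s x b c ∧ D.qa (s + 1) y = D.qa (s + 1) x := by
  classical
  simp only [hc, mem_inter, D.mem_cA]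

theorem mem_fin {s : ℕ} {x : X} {b : β} {c : γ} {v : Finset X} {y : X} :
    y ∈ R.fin s x b c v ↔ y ∈ v ∧ R.sp s x b c v y = R.sp s x b c v x := by
  classical
  simp only [fin, mem_filter]

theorem fin_sub {s : ℕ} {x : X} {b : β} {c : γ} {v : Finset X} : R.fin s x b c v ⊆ v := fun _ hy =>
  (R.mem_fin.1 hy).1

theorem self_fin {s : ℕ} {x : X} {b : β} {c : γ} {v : Finset X} (h : x ∈ v) : x ∈ R.fin s x b c v :=
  R.mem_fin.2 ⟨h, rfl⟩

theorem fin_congr {s : ℕ} {x x' : X} {b b' : β} {c c' : γ} {v : Finset X} (hS : D.Same s x b c x' b' c')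
    (hx' : x' ∈ R.fin s x b c v) : R.fin s x' b' c' v = R.fin s x b c v := by
  ext y
  rw [mem_fin] at hx' ⊢
  rw [R.mem_fin, ← R.sp_q s x b c x' b' c' v hS, hx'.2]

theorem mem_vc {e : Epo X} {s : ℕ} {x : X} {b : β} {c : γ} {y : X} :
    y ∈ R.vc e s x b c ↔ y ∈ R.hc e s x b c ∧
      (R.th e (s + 1) x b c ∨ R.code e s x b c y = R.code e s x b c x) := by
  classical
  unfold vc
  by_cases h : R.th e (s + 1) x b c
  · rw [if_pos h]
    simp only [h, true_or, and_true]
  · rw [if_neg h, mem_filter]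
    simp only [h, false_or]

theorem vc_sub {e : Epo X} {s : ℕ} {x : X} {b : β} {c : γ} : R.vc e s x b c ⊆ R.hc e s x b c := fun _ hy =>
  (R.mem_vc.1 hy).1

theorem self_vc {e : Epo X} {s : ℕ} {x : X} {b : β} {c : γ} (h : x ∈ R.hc e s x b c) : x ∈ R.vc e s x b c := by
  rw [mem_vc]
  exact ⟨h, Or.inr rfl⟩

theorem code_eq_main {e : Epo X} {s : ℕ} (h : e.t0 ≤ s) {x : X} {b : β} {c : γ} {y : X}
    (hy : y ∈ R.hc e s x b c) : y ∈ R.om e (s + 1) x b c ↔ R.code e s x b c y = (0, 0) := by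
  classical
  have hA : y ∈ D.cA (s + 1) x := D.mem_cA.2 (R.mem_hc.1 hy).2
  have ho := (R.mem_om e).1 (R.mem_hc.1 hy).1
  rw [R.mem_om, R.mem_KF_succ h, R.mem_KG_succ h]
  unfold code
  split_ifs with h2
  · simp only [ne_eq, Prod.mk.injEq, and_true] at *
    constructor
    · rintro ⟨⟨-, h5⟩, -⟩; exact absurd h5 h2
    · intro h5; exact absurd h5 h2
  · simp only [ne_eq, not_not, Prod.mk.injEq, true_and] at *
    constructor
    · rintro ⟨-, -, h5⟩; exact h5
    · intro h5
      exact ⟨⟨⟨ho.1, hA⟩, h2⟩, ⟨ho.2, hA⟩, h5⟩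

theorem hc_inv {e : Epo X} {s : ℕ} (h : e.t0 ≤ s) {x x' : X} {b b' : β} {c c' : γ}
    (hS : D.Same (s + 1) x b c x' b' c') : R.hc e s x b c = R.hc e s x' b' c' := by
  ext y
  rw [mem_hc, mem_hc, R.om_inv h (hS.le (Nat.le_succ s)), hS.1]

theorem code_inv {e : Epo X} {s : ℕ} (h : e.t0 ≤ s) {x x' : X} {b b' : β} {c c' : γ}
    (hS : D.Same (s + 1) x b c x' b' c') (y : X) : R.code e s x b c y = R.code e s x' b' c' y := by
  classical
  have h' : e.t0 ≤ s + 1 := by omega
  have hs := hS.le (Nat.le_succ s)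
  unfold code
  rw [R.KF_inv h hs.1 hs.2.1 (D.qc_le h hs.2.2), R.KG_inv h hs.1 (D.qb_le h hs.2.1) hs.2.2,
    D.cA_congr hS.1,
    R.pf_c e (s + 1) x x' b b' c c' _ h' hS.1 hS.2.1 (D.qc_le h' hS.2.2),
    R.pg_b e (s + 1) x x' b b' c c' _ h' hS.1 (D.qb_le h' hS.2.1) hS.2.2]

theorem vc_congr {e : Epo X} {s : ℕ} (h : e.t0 ≤ s) {x x' : X} {b b' : β} {c c' : γ}
    (hS : D.Same (s + 1) x b c x' b' c') (hx' : x' ∈ R.vc e s x b c) : R.vc e s x' b' c' = R.vc e s x b c := by
  have h' : e.t0 ≤ s + 1 := by omega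
  have hth := R.th_q e (s + 1) x b c x' b' c' h' hS
  rw [mem_vc] at hx'
  ext y
  rw [mem_vc, mem_vc, ← R.hc_inv h hS, ← hth, ← R.code_inv h hS, ← R.code_inv h hS]
  rcases hx'.2 with h1 | h1
  · simp [h1]
  · rw [h1]

/-- the three basic facts at the time `s` -/
theorem basic (s : ℕ) (x : X) (b : β) (c : γ) :
    (R.ep s x b c).t0 ≤ s ∧ x ∈ R.U s x b c ∧ R.U s x b c ⊆ D.cA s x := by
  classical
  induction s with
  | zero =>
    refine ⟨le_rfl, ?_, ?_⟩
    · unfold U
      rw [R.om_old (by exact le_rfl)]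
      exact R.self_fin (D.self_cA 0 x)
    · unfold U
      rw [R.om_old (by exact le_rfl)]
      intro y hy
      exact R.fin_sub hy
  | succ s ih =>
    obtain ⟨h1, h2, h3⟩ := ih
    have hh : x ∈ R.hc (R.ep s x b c) s x b c := R.mem_hc.2 ⟨h2, rfl⟩
    by_cases hn : R.nw (R.ep s x b c) s x b c
    · have e1 : R.ep (s + 1) x b c = ⟨s + 1, R.fin (s + 1) x b c (R.vc (R.ep s x b c) s x b c)⟩ := by
        simp only [ep, if_pos hn]
      unfold U
      rw [e1]
      refine ⟨le_rfl, ?_, ?_⟩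
      · rw [R.om_old (by exact le_rfl)]
        exact R.self_fin (R.self_vc hh)
      · rw [R.om_old (by exact le_rfl)]
        intro y hy
        exact D.mem_cA.2 (R.mem_hc.1 (R.vc_sub (R.fin_sub hy))).2
    · have e1 : R.ep (s + 1) x b c = R.ep s x b c := by simp only [ep, if_neg hn]
      unfold U
      rw [e1]
      refine ⟨h1.trans (Nat.le_succ s), ?_, ?_⟩
      · by_contra h4
        exact hn (Or.inr (Or.inl h4))
      · intro y hy
        rw [R.mem_om, R.mem_KF_succ h1] at hy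
        exact hy.1.1.2

theorem t0_le (s : ℕ) (x : X) (b : β) (c : γ) : (R.ep s x b c).t0 ≤ s := (R.basic s x b c).1

theorem self_U (s : ℕ) (x : X) (b : β) (c : γ) : x ∈ R.U s x b c := (R.basic s x b c).2.1

theorem U_sub (s : ℕ) (x : X) (b : β) (c : γ) : R.U s x b c ⊆ D.cA s x := (R.basic s x b c).2.2

theorem self_hc (s : ℕ) (x : X) (b : β) (c : γ) : x ∈ R.hc (R.ep s x b c) s x b c :=
  R.mem_hc.2 ⟨R.self_U s x b c, rfl⟩

theorem ep_new {s : ℕ} {x : X} {b : β} {c : γ} (h : R.nw (R.ep s x b c) s x b c) :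
    R.ep (s + 1) x b c = ⟨s + 1, R.fin (s + 1) x b c (R.vc (R.ep s x b c) s x b c)⟩ := by
  simp only [ep, if_pos h]

theorem ep_old {s : ℕ} {x : X} {b : β} {c : γ} (h : ¬ R.nw (R.ep s x b c) s x b c) :
    R.ep (s + 1) x b c = R.ep s x b c := by simp only [ep, if_neg h]

theorem U_new {s : ℕ} {x : X} {b : β} {c : γ} (h : R.nw (R.ep s x b c) s x b c) :
    R.U (s + 1) x b c = R.fin (s + 1) x b c (R.vc (R.ep s x b c) s x b c) := by
  unfold U
  rw [R.ep_new h, R.om_old (by exact le_rfl)]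

theorem U_keep {s : ℕ} {x : X} {b : β} {c : γ} (h : ¬ R.nw (R.ep s x b c) s x b c) :
    R.U (s + 1) x b c = R.om (R.ep s x b c) (s + 1) x b c := by
  unfold U
  rw [R.ep_old h]

/-- without a half step test the coarse cell of a survivor is the class `om e (s+1)` -/
theorem vc_main {e : Epo X} {s : ℕ} (h : e.t0 ≤ s) {x : X} {b : β} {c : γ} (hth : ¬ R.th e (s + 1) x b c)
    (hx : x ∈ R.om e (s + 1) x b c) (hh : x ∈ R.hc e s x b c) : R.vc e s x b c = R.om e (s + 1) x b c := by
  classical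
  ext y
  rw [mem_vc]
  have e1 := (R.code_eq_main h hh).1 hx
  constructor
  · rintro ⟨h1, h2⟩
    rcases h2 with h3 | h3
    · exact absurd h3 hth
    · exact (R.code_eq_main h h1).2 (h3.trans e1)
  · intro hy
    have hy' : y ∈ R.hc e s x b c := by
      rw [mem_hc]
      exact ⟨R.om_sub (Nat.le_succ s) x b c hy, by
        have := ((R.mem_KF_succ h).1 ((R.mem_om e).1 hy).1).1.2
        exact D.mem_cA.1 this⟩
    exact ⟨hy', Or.inr (((R.code_eq_main h hy').1 hy).trans e1.symm)⟩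

/-- THE CLASS IS PUBLIC: same node and `x'` in the class of `(x,b,c)` give the same epoch and the same class -/
theorem pub (s : ℕ) {x x' : X} {b b' : β} {c c' : γ} (hS : D.Same s x b c x' b' c') (hx : x' ∈ R.U s x b c) :
    R.ep s x' b' c' = R.ep s x b c ∧ R.U s x' b' c' = R.U s x b c := by
  classical
  induction s with
  | zero =>
    have e0 : D.cA 0 x' = D.cA 0 x := (D.cA_congr hS.1).symm
    have e1 : R.ep 0 x' b' c' = R.ep 0 x b c := by
      have hx1 : x' ∈ R.fin 0 x b c (D.cA 0 x) := by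
        have := hx
        unfold U at this
        rw [R.om_old (by exact le_rfl)] at this
        exact this
      simp only [ep]
      rw [e0, R.fin_congr hS hx1]
    refine ⟨e1, ?_⟩
    unfold U
    rw [e1]
    exact (R.om_inv (by exact le_rfl) hS).symm
  | succ s ih =>
    have hs := hS.le (Nat.le_succ s)
    obtain ⟨h1, h2, h3⟩ := R.basic s x b c
    have key : x' ∈ R.U s x b c ∧ (x' ∈ R.vc (R.ep s x b c) s x b c ∧ (R.nw (R.ep s x b c) s x b c →
        x' ∈ R.fin (s + 1) x b c (R.vc (R.ep s x b c) s x b c))) := by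
      by_cases hn : R.nw (R.ep s x b c) s x b c
      · rw [R.U_new hn] at hx
        have h4 := R.fin_sub hx
        exact ⟨(R.mem_hc.1 (R.vc_sub h4)).1, h4, fun _ => hx⟩
      · rw [R.U_keep hn] at hx
        refine ⟨R.om_sub (Nat.le_succ s) x b c hx, ?_, fun h => absurd h hn⟩
        have h5 : x ∈ R.om (R.ep s x b c) (s + 1) x b c := by
          by_contra h4
          exact hn (Or.inr (Or.inl h4))
        rw [R.vc_main h1 (fun h => hn (Or.inl h)) h5 (R.self_hc s x b c)]
        exact hx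
    obtain ⟨k1, k2, k3⟩ := key
    obtain ⟨e1, e2⟩ := ih hs k1
    have hth := R.th_q (R.ep s x b c) (s + 1) x b c x' b' c' (h1.trans (Nat.le_succ s)) hS
    have hts := R.ts_q (R.ep s x b c) (s + 1) x b c x' b' c' (h1.trans (Nat.le_succ s)) hS
    have hom := R.om_inv (h1.trans (Nat.le_succ s)) hS
    have hx'h : x' ∈ R.hc (R.ep s x b c) s x b c := R.vc_sub k2
    have hmem : ¬ R.th (R.ep s x b c) (s + 1) x b c →
        (x' ∈ R.om (R.ep s x b c) (s + 1) x b c ↔ x ∈ R.om (R.ep s x b c) (s + 1) x b c) := by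
      intro hnt
      have hc : R.code (R.ep s x b c) s x b c x' = R.code (R.ep s x b c) s x b c x := by
        rcases (R.mem_vc.1 k2).2 with h | h
        · exact absurd h hnt
        · exact h
      rw [R.code_eq_main h1 hx'h, R.code_eq_main h1 (R.self_hc s x b c), hc]
    have hnw : R.nw (R.ep s x b c) s x' b' c' ↔ R.nw (R.ep s x b c) s x b c := by
      unfold nw
      rw [← hth, ← hts, ← hom]
      by_cases hnt : R.th (R.ep s x b c) (s + 1) x b c
      · simp [hnt]
      · rw [hmem hnt]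
    by_cases hn : R.nw (R.ep s x b c) s x b c
    · have hn' : R.nw (R.ep s x' b' c') s x' b' c' := by rw [e1]; exact hnw.2 hn
      have e3 : R.ep (s + 1) x' b' c' = R.ep (s + 1) x b c := by
        rw [R.ep_new hn, R.ep_new hn', e1, R.vc_congr h1 hS k2, R.fin_congr hS (k3 hn)]
      refine ⟨e3, ?_⟩
      unfold U
      rw [e3]
      exact (R.om_inv (R.t0_le (s + 1) x b c) hS).symm
    · have hn' : ¬ R.nw (R.ep s x' b' c') s x' b' c' := by rw [e1]; exact fun h => hn (hnw.1 h)
      have e3 : R.ep (s + 1) x' b' c' = R.ep (s + 1) x b c := by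
        rw [R.ep_old hn, R.ep_old hn', e1]
      refine ⟨e3, ?_⟩
      unfold U
      rw [e3]
      exact (R.om_inv (R.t0_le (s + 1) x b c) hS).symm

/-- the classes refine -/
theorem U_succ_sub (s : ℕ) (x : X) (b : β) (c : γ) : R.U (s + 1) x b c ⊆ R.U s x b c := by
  by_cases hn : R.nw (R.ep s x b c) s x b c
  · rw [R.U_new hn]
    intro y hy
    exact (R.mem_hc.1 (R.vc_sub (R.fin_sub hy))).1
  · rw [R.U_keep hn]
    exact R.om_sub (Nat.le_succ s) x b c

end Rl

end run

end

end Pool.Agent.M3.S3
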