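import Pool.Agent.M3.S3.Cost
import Pool.Agent.M3.S3.LossDef

/-!
# M3.S3.SmallF: falls with a small cell are rare (helper60)

`small_f` : `∑_(s<K) P(f-fall at s+1 and |vcl| ≤ a |blkf|) ≤ a nfall R K`; `small_g` : the same for the `g`-rule;
`small_W_f`, `small_W_g` : with a weight `W(|vcl|,|blkf|)`, `a W(a,S) ≤ δ S`.
-/

set_option autoImplicit false
set_option linter.unusedSectionVars false

namespace Pool.Agent.M3.S3

open Finset Pool.Agent.PWZ Pool.Agent.M3

noncomputable section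

variable {X β γ ι φ : Type*} [Fintype X] [Fintype β] [Fintype γ] [Fintype φ] {D : Dat X β γ ι φ}

theorem blkf_pc (R : Rl D) (e : Epo X) (s : ℕ) (x : X) (b : β) (c : γ) : blkf R e s x b c = (sdf R).pc e s x b c := rfl

theorem blkg_pc (R : Rl D) (e : Epo X) (s : ℕ) (x : X) (b : β) (c : γ) : blkg R e s x b c = (sdg R).pc e s x b c := rfl

theorem vcl_blkf (R : Rl D) {s : ℕ} {x : X} {b : β} {c : γ} (h : ffall R s x b c) :
    vcl R s x b c ⊆ blkf R (R.ep s x b c) s x b c := vcl_sub_f h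

theorem vcl_blkg (R : Rl D) {s : ℕ} {x : X} {b : β} {c : γ} (h : gfall R s x b c) :
    vcl R s x b c ⊆ blkg R (R.ep s x b c) s x b c := vcl_sub_g h

/-- weights, first rule -/
theorem small_W_f (R : Rl D) {W : ℝ → ℝ → ℝ} {δ : ℝ} (hδ : 0 ≤ δ) (hW0 : ∀ a S, 0 < a → a ≤ S → 0 ≤ W a S)
    (hW : ∀ a S, 0 < a → a ≤ S → a * W a S ≤ δ * S) (K : ℕ) :
    ∑ s ∈ range K, E3 (fun x b c => ind (ffall R s x b c) *
      W (vcl R s x b c).card (blkf R (R.ep s x b c) s x b c).card) ≤ δ * nfall R K := ch_f R hδ hW0 hW K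

/-- weights, second rule -/
theorem small_W_g (R : Rl D) {W : ℝ → ℝ → ℝ} {δ : ℝ} (hδ : 0 ≤ δ) (hW0 : ∀ a S, 0 < a → a ≤ S → 0 ≤ W a S)
    (hW : ∀ a S, 0 < a → a ≤ S → a * W a S ≤ δ * S) (K : ℕ) :
    ∑ s ∈ range K, E3 (fun x b c => ind (gfall R s x b c) *
      W (vcl R s x b c).card (blkg R (R.ep s x b c) s x b c).card) ≤ δ * nfall R K := ch_g R hδ hW0 hW K

/-- **small falls**, first rule -/
theorem small_f (R : Rl D) {a : ℝ} (ha : 0 ≤ a) (K : ℕ) :
    ∑ s ∈ range K, E3 (fun x b c => ind (ffall R s x b c ∧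
      ((vcl R s x b c).card : ℝ) ≤ a * (blkf R (R.ep s x b c) s x b c).card)) ≤ a * nfall R K := by
  have h := small_W_f R (W := fun u S => ind (u ≤ a * S)) ha (fun _ _ _ _ => ind_nonneg _) (fun u S hu huS => by
    by_cases h : u ≤ a * S
    · simp only [ind_of h, mul_one]; exact h
    · simp only [ind_not h, mul_zero]; exact mul_nonneg ha (hu.le.trans huS)) K
  simp only [ind_and]
  exact h

/-- **small falls**, second rule -/
theorem small_g (R : Rl D) {a : ℝ} (ha : 0 ≤ a) (K : ℕ) :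
    ∑ s ∈ range K, E3 (fun x b c => ind (gfall R s x b c ∧
      ((vcl R s x b c).card : ℝ) ≤ a * (blkg R (R.ep s x b c) s x b c).card)) ≤ a * nfall R K := by
  have h := small_W_g R (W := fun u S => ind (u ≤ a * S)) ha (fun _ _ _ _ => ind_nonneg _) (fun u S hu huS => by
    by_cases h : u ≤ a * S
    · simp only [ind_of h, mul_one]; exact h
    · simp only [ind_not h, mul_zero]; exact mul_nonneg ha (hu.le.trans huS)) K
  simp only [ind_and]
  exact h

end

end Pool.Agent.M3.S3
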