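import Pool.Agent.M3.S3.Rule
import Pool.Agent.M3.LemmaP
import Pool.Agent.M3.EndCount

/-!
# M3.S3.Sub: sub-epochs (analysis of the `f`-falls) (helper26)

`Prc D` = abstract form of the process of `Rule` (free runs `KF`, `KG`, tests, epochs `ep`, public classes `U`), with
`Prc.swap` (exchange of the two known points) and `Rl.prc`.
For a process `P`, a horizon `K` and a number `q`:
* `fst1 K p` first time `≤ K` with `p`, `K+1` if none; `sfT`, `sgT`, `teT` = times of the virtual `f`-hit, `g`-hit, test;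
* `EBp q e σ s x b c` = `E^B(b) ≤ s` : more than `q/2` of the `c'` in the cell of `c` at `σ` have `ST e s x b c'`;
  `EAp` = `E^A ≤ s` : more than `1/4` of the pairs of the cells at `σ` have `ST` or `EBp`;
* `sb q s x b c` = start of the current sub-epoch; `start` = `sb q s = s`; everything is public (`sb_pub`).
* `run` : inside a sub-epoch; `reach` : converse.
-/

set_option autoImplicit false
set_option linter.unusedSectionVars false
set_option linter.unusedSimpArgs false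
set_option linter.unusedVariables false

namespace Pool.Agent.M3.S3

open Finset Pool.Agent.PWZ Pool.Agent.M3

noncomputable section

/-! ## first times -/

open Classical in
/-- first time `≤ K` with `p`, `K+1` if none -/
def fst1 (K : ℕ) (p : ℕ → Prop) : ℕ := if h : ∃ s, s ≤ K ∧ p s then Nat.find h else K + 1

theorem fst1_le (K : ℕ) (p : ℕ → Prop) : fst1 K p ≤ K + 1 := by
  classical
  unfold fst1
  split_ifs with h
  · exact (Nat.find_spec h).1.trans (Nat.le_succ K)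
  · exact le_rfl

theorem fst1_spec {K : ℕ} {p : ℕ → Prop} (h : fst1 K p ≤ K) : p (fst1 K p) := by
  classical
  unfold fst1 at h ⊢
  split_ifs with h1
  · exact (Nat.find_spec h1).2
  · rw [dif_neg h1] at h
    omega

theorem fst1_le_of {K : ℕ} {p : ℕ → Prop} {s : ℕ} (hs : s ≤ K) (h : p s) : fst1 K p ≤ s := by
  classical
  unfold fst1
  have h1 : ∃ s, s ≤ K ∧ p s := ⟨s, hs, h⟩
  rw [dif_pos h1]
  exact Nat.find_min' h1 ⟨hs, h⟩

theorem not_of_lt_fst1 {K : ℕ} {p : ℕ → Prop} {s : ℕ} (hs : s ≤ K) (h : s < fst1 K p) : ¬ p s := fun hp =>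
  absurd (fst1_le_of hs hp) (not_le.2 h)

/-- for a monotone property -/
theorem fst1_le_iff {K : ℕ} {p : ℕ → Prop} (hm : ∀ s t, s ≤ t → p s → p t) {s : ℕ} (hs : s ≤ K) :
    fst1 K p ≤ s ↔ p s := by
  refine ⟨fun h => ?_, fst1_le_of hs⟩
  exact hm _ _ h (fst1_spec (h.trans hs))

theorem fst1_congr {K : ℕ} {p q : ℕ → Prop} (h : ∀ s, s ≤ K → (p s ↔ q s)) : fst1 K p = fst1 K q := by
  classical
  unfold fst1
  by_cases h1 : ∃ s, s ≤ K ∧ p s
  · have h2 : ∃ s, s ≤ K ∧ q s := h1.imp fun s hs => ⟨hs.1, (h s hs.1).1 hs.2⟩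
    rw [dif_pos h1, dif_pos h2]
    refine le_antisymm ?_ ?_
    · exact Nat.find_min' h1 ⟨(Nat.find_spec h2).1, (h _ (Nat.find_spec h2).1).2 (Nat.find_spec h2).2⟩
    · exact Nat.find_min' h2 ⟨(Nat.find_spec h1).1, (h _ (Nat.find_spec h1).1).1 (Nat.find_spec h1).2⟩
  · have h2 : ¬ ∃ s, s ≤ K ∧ q s := fun h2 => h1 (h2.imp fun s hs => ⟨hs.1, (h s hs.1).2 hs.2⟩)
    rw [dif_neg h1, dif_neg h2]

/-- the abstract process -/
structure Prc {X β γ ι φ : Type*} [Fintype X] (D : Dat X β γ ι φ) where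
  KF : Epo X → ℕ → X → β → γ → Finset X
  KG : Epo X → ℕ → X → β → γ → Finset X
  th : Epo X → ℕ → X → β → γ → Prop
  ts : Epo X → ℕ → X → β → γ → Prop
  ep : ℕ → X → β → γ → Epo X
  KF_inv : ∀ (e : Epo X) s x x' b b' c c', e.t0 ≤ s → D.qa s x = D.qa s x' → D.qb s b = D.qb s b' →
    D.qc e.t0 c = D.qc e.t0 c' → KF e s x b c = KF e s x' b' c'
  KG_inv : ∀ (e : Epo X) s x x' b b' c c', e.t0 ≤ s → D.qa s x = D.qa s x' → D.qb e.t0 b = D.qb e.t0 b' →
    D.qc s c = D.qc s c' → KG e s x b c = KG e s x' b' c'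
  KF_sub : ∀ (e : Epo X) s t x b c, s ≤ t → KF e t x b c ⊆ KF e s x b c
  KG_sub : ∀ (e : Epo X) s t x b c, s ≤ t → KG e t x b c ⊆ KG e s x b c
  th_q : ∀ (e : Epo X) s x b c x' b' c', e.t0 ≤ s → D.Same s x b c x' b' c' → (th e s x b c ↔ th e s x' b' c')
  ts_q : ∀ (e : Epo X) s x b c x' b' c', e.t0 ≤ s → D.Same s x b c x' b' c' → (ts e s x b c ↔ ts e s x' b' c')
  t0_le : ∀ s x b c, (ep s x b c).t0 ≤ s
  self_F : ∀ s x b c, x ∈ KF (ep s x b c) s x b c
  self_G : ∀ s x b c, x ∈ KG (ep s x b c) s x b c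
  ep_new : ∀ s x b c, (th (ep s x b c) (s + 1) x b c ∨ (x ∉ KF (ep s x b c) (s + 1) x b c ∨
    x ∉ KG (ep s x b c) (s + 1) x b c) ∨ ts (ep s x b c) (s + 1) x b c) → (ep (s + 1) x b c).t0 = s + 1
  ep_old : ∀ s x b c, ¬ (th (ep s x b c) (s + 1) x b c ∨ (x ∉ KF (ep s x b c) (s + 1) x b c ∨
    x ∉ KG (ep s x b c) (s + 1) x b c) ∨ ts (ep s x b c) (s + 1) x b c) → ep (s + 1) x b c = ep s x b c
  U_sub : ∀ s x b c y, y ∈ KF (ep s x b c) s x b c → y ∈ KG (ep s x b c) s x b c → D.qa s y = D.qa s x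
  pub : ∀ s x b c x' b' c', D.Same s x b c x' b' c' → x' ∈ KF (ep s x b c) s x b c →
    x' ∈ KG (ep s x b c) s x b c → ep s x' b' c' = ep s x b c

section

variable {X β γ ι φ : Type*} [Fintype X] {D : Dat X β γ ι φ}

/-- the process of a rule -/
def Rl.prc (R : Rl D) : Prc D where
  KF := R.KF
  KG := R.KG
  th := R.th
  ts := R.ts
  ep := R.ep
  KF_inv _ _ _ _ _ _ _ _ h hx hb hc := R.KF_inv h hx hb hc
  KG_inv _ _ _ _ _ _ _ _ h hx hb hc := R.KG_inv h hx hb hc
  KF_sub _ _ _ x b c h := R.KF_sub h x b c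
  KG_sub _ _ _ x b c h := R.KG_sub h x b c
  th_q := R.th_q
  ts_q := R.ts_q
  t0_le := R.t0_le
  self_F s x b c := ((R.mem_om _).1 (R.self_U s x b c)).1
  self_G s x b c := ((R.mem_om _).1 (R.self_U s x b c)).2
  ep_new s x b c h := by
    have h' : R.nw (R.ep s x b c) s x b c := by
      unfold Rl.nw
      rw [R.mem_om, not_and_or]
      exact h
    rw [R.ep_new h']
  ep_old s x b c h := by
    have h' : ¬ R.nw (R.ep s x b c) s x b c := by
      unfold Rl.nw
      rw [R.mem_om, not_and_or]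
      exact h
    exact R.ep_old h'
  U_sub s x b c y h1 h2 := D.mem_cA.1 (R.U_sub s x b c ((R.mem_om _).2 ⟨h1, h2⟩))
  pub s x b c x' b' c' hS h1 h2 := (R.pub s hS ((R.mem_om _).2 ⟨h1, h2⟩)).1

namespace Prc

variable (P : Prc D)

/-- exchange of the two known points -/
def swap : Prc D.swap where
  KF e s x c b := P.KG e s x b c
  KG e s x c b := P.KF e s x b c
  th e s x c b := P.th e s x b c
  ts e s x c b := P.ts e s x b c
  ep s x c b := P.ep s x b c
  KF_inv e s x x' c c' b b' h hx hc hb := P.KG_inv e s x x' b b' c c' h hx hb hc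
  KG_inv e s x x' c c' b b' h hx hc hb := P.KF_inv e s x x' b b' c c' h hx hb hc
  KF_sub e s t x c b h := P.KG_sub e s t x b c h
  KG_sub e s t x c b h := P.KF_sub e s t x b c h
  th_q e s x c b x' c' b' h hS := P.th_q e s x b c x' b' c' h ⟨hS.1, hS.2.2, hS.2.1⟩
  ts_q e s x c b x' c' b' h hS := P.ts_q e s x b c x' b' c' h ⟨hS.1, hS.2.2, hS.2.1⟩
  t0_le s x c b := P.t0_le s x b c
  self_F s x c b := P.self_G s x b c
  self_G s x c b := P.self_F s x b c
  ep_new s x c b h := P.ep_new s x b c (by rcases h with h | (h | h) | h <;> simp [h])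
  ep_old s x c b h := P.ep_old s x b c (fun h' => h (by rcases h' with h | (h | h) | h <;> simp [h]))
  U_sub s x c b y h1 h2 := P.U_sub s x b c y h2 h1
  pub s x c b x' c' b' hS h1 h2 := P.pub s x b c x' b' c' ⟨hS.1, hS.2.2, hS.2.1⟩ h2 h1

/-- the class at the time `s` -/
def U (s : ℕ) (x : X) (b : β) (c : γ) : Finset X := by
  classical
  exact P.KF (P.ep s x b c) s x b c ∩ P.KG (P.ep s x b c) s x b c

theorem mem_U {s : ℕ} {x : X} {b : β} {c : γ} {y : X} :
    y ∈ P.U s x b c ↔ y ∈ P.KF (P.ep s x b c) s x b c ∧ y ∈ P.KG (P.ep s x b c) s x b c := by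
  classical
  simp only [U, mem_inter]

theorem self_U (s : ℕ) (x : X) (b : β) (c : γ) : x ∈ P.U s x b c := P.mem_U.2 ⟨P.self_F s x b c, P.self_G s x b c⟩

theorem U_pub {s : ℕ} {x x' : X} {b b' : β} {c c' : γ} (hS : D.Same s x b c x' b' c') (hx : x' ∈ P.U s x b c) :
    P.ep s x' b' c' = P.ep s x b c ∧ P.U s x' b' c' = P.U s x b c := by
  have h1 := P.pub s x b c x' b' c' hS (P.mem_U.1 hx).1 (P.mem_U.1 hx).2
  refine ⟨h1, ?_⟩
  ext y
  have h0 := P.t0_le s x b c
  rw [mem_U, mem_U, h1, P.KF_inv _ s x x' b b' c c' h0 hS.1 hS.2.1 (D.qc_le h0 hS.2.2),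
    P.KG_inv _ s x x' b b' c c' h0 hS.1 (D.qb_le h0 hS.2.1) hS.2.2]

theorem U_node {s : ℕ} {x x' : X} {b : β} {c : γ} (hx : x' ∈ P.U s x b c) : D.qa s x' = D.qa s x :=
  P.U_sub s x b c x' (P.mem_U.1 hx).1 (P.mem_U.1 hx).2

/-- stopped before the falls of the time `s` -/
def ST (e : Epo X) (s : ℕ) (x : X) (b : β) (c : γ) : Prop :=
  (∃ r, e.t0 < r ∧ r ≤ s ∧ P.th e r x b c) ∨ (∃ r, e.t0 < r ∧ r < s ∧ P.ts e r x b c)

variable {P}

theorem ST_mono {e : Epo X} {s t : ℕ} (h : s ≤ t) {x : X} {b : β} {c : γ} (hs : P.ST e s x b c) :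
    P.ST e t x b c := by
  rcases hs with ⟨r, h1, h2, h3⟩ | ⟨r, h1, h2, h3⟩
  · exact Or.inl ⟨r, h1, h2.trans h, h3⟩
  · exact Or.inr ⟨r, h1, h2.trans_le h, h3⟩

theorem ST_inv {e : Epo X} {s : ℕ} {x x' : X} {b b' : β} {c c' : γ} (hS : D.Same s x b c x' b' c') :
    P.ST e s x b c ↔ P.ST e s x' b' c' := by
  unfold ST
  constructor
  · rintro (⟨r, h1, h2, h3⟩ | ⟨r, h1, h2, h3⟩)
    · exact Or.inl ⟨r, h1, h2, (P.th_q e r _ _ _ _ _ _ h1.le (hS.le h2)).1 h3⟩
    · exact Or.inr ⟨r, h1, h2, (P.ts_q e r _ _ _ _ _ _ h1.le (hS.le h2.le)).1 h3⟩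
  · rintro (⟨r, h1, h2, h3⟩ | ⟨r, h1, h2, h3⟩)
    · exact Or.inl ⟨r, h1, h2, (P.th_q e r _ _ _ _ _ _ h1.le (hS.le h2)).2 h3⟩
    · exact Or.inr ⟨r, h1, h2, (P.ts_q e r _ _ _ _ _ _ h1.le (hS.le h2.le)).2 h3⟩

theorem not_ST_old {e : Epo X} {s : ℕ} (h : s ≤ e.t0) (x : X) (b : β) (c : γ) : ¬ P.ST e s x b c := by
  rintro (⟨r, h1, h2, -⟩ | ⟨r, h1, h2, -⟩)
  · omega
  · omega

/-- a new epoch starts at `s+1` -/
theorem ep_cases (s : ℕ) (x : X) (b : β) (c : γ) :
    ((P.ep (s + 1) x b c).t0 = s + 1 ∧ (P.th (P.ep s x b c) (s + 1) x b c ∨ (x ∉ P.KF (P.ep s x b c) (s + 1) x b c ∨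
      x ∉ P.KG (P.ep s x b c) (s + 1) x b c) ∨ P.ts (P.ep s x b c) (s + 1) x b c)) ∨
    (P.ep (s + 1) x b c = P.ep s x b c ∧ ¬ P.th (P.ep s x b c) (s + 1) x b c ∧ x ∈ P.KF (P.ep s x b c) (s + 1) x b c ∧
      x ∈ P.KG (P.ep s x b c) (s + 1) x b c ∧ ¬ P.ts (P.ep s x b c) (s + 1) x b c) := by
  by_cases h : P.th (P.ep s x b c) (s + 1) x b c ∨ (x ∉ P.KF (P.ep s x b c) (s + 1) x b c ∨
      x ∉ P.KG (P.ep s x b c) (s + 1) x b c) ∨ P.ts (P.ep s x b c) (s + 1) x b c
  · exact Or.inl ⟨P.ep_new s x b c h, h⟩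
  · have h1 := P.ep_old s x b c h
    push Not at h
    exact Or.inr ⟨h1, h.1, h.2.1.1, h.2.1.2, h.2.2⟩

/-- no test in the current epoch -/
theorem noT (s : ℕ) (x : X) (b : β) (c : γ) : ∀ r, (P.ep s x b c).t0 ≤ r → r ≤ s → P.ep r x b c = P.ep s x b c ∧
    ((P.ep s x b c).t0 < r → ¬ P.th (P.ep s x b c) r x b c ∧ ¬ P.ts (P.ep s x b c) r x b c) := by
  induction s with
  | zero =>
    intro r h1 h2
    have h3 : r = 0 := by omega
    subst h3
    exact ⟨rfl, fun h => by omega⟩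
  | succ s ih =>
    intro r h1 h2
    rcases P.ep_cases s x b c with ⟨h3, -⟩ | ⟨h3, h4, -, -, h5⟩
    · have h6 : r = s + 1 := by omega
      subst h6
      exact ⟨rfl, fun h => by omega⟩
    · rcases Nat.lt_or_ge r (s + 1) with h6 | h6
      · have := ih r (by rw [h3] at h1; exact h1) (by omega)
        rw [h3]
        exact this
      · have h7 : r = s + 1 := by omega
        subst h7
        exact ⟨rfl, fun _ => by rw [h3]; exact ⟨h4, h5⟩⟩

theorem not_ST_ep (s : ℕ) (x : X) (b : β) (c : γ) : ¬ P.ST (P.ep s x b c) s x b c := by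
  rintro (⟨r, h1, h2, h3⟩ | ⟨r, h1, h2, h3⟩)
  · exact ((P.noT s x b c r h1.le h2).2 h1).1 h3
  · exact ((P.noT s x b c r h1.le h2.le).2 h1).2 h3

theorem ST_succ (s : ℕ) (x : X) (b : β) (c : γ) :
    P.ST (P.ep s x b c) (s + 1) x b c ↔ P.th (P.ep s x b c) (s + 1) x b c := by
  have h0 := P.t0_le s x b c
  constructor
  · rintro (⟨r, h1, h2, h3⟩ | ⟨r, h1, h2, h3⟩)
    · rcases Nat.lt_or_ge r (s + 1) with h4 | h4
      · exact absurd h3 ((P.noT s x b c r h1.le (by omega)).2 h1).1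
      · have h7 : r = s + 1 := by omega
        subst h7
        exact h3
    · exact absurd h3 ((P.noT s x b c r h1.le (by omega)).2 h1).2
  · intro h
    exact Or.inl ⟨s + 1, by omega, le_rfl, h⟩

section sub

variable [Fintype β] [Fintype γ] (P) (q : ℝ)

open Classical in
/-- `E^B(b) ≤ s` for the sub-epoch which starts at `σ` -/
def EBp (e : Epo X) (σ s : ℕ) (x : X) (b : β) (c : γ) : Prop :=
  q / 2 * ((D.cC σ c).card : ℝ) < ((D.cC σ c).filter fun c' => P.ST e s x b c').card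

open Classical in
/-- `E^A ≤ s` for the sub-epoch which starts at `σ` -/
def EAp (e : Epo X) (σ s : ℕ) (x : X) (b : β) (c : γ) : Prop :=
  1 / 4 * (((D.cB σ b).card : ℝ) * ((D.cC σ c).card : ℝ)) <
    ((D.cB σ b ×ˢ D.cC σ c).filter fun z => P.ST e s x z.1 z.2 ∨ P.EBp q e σ s x z.1 z.2).card

variable {P q}

theorem EBp_mono {e : Epo X} {σ s t : ℕ} (h : s ≤ t) {x : X} {b : β} {c : γ} (hs : P.EBp q e σ s x b c) :
    P.EBp q e σ t x b c := by
  classical
  unfold EBp at *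
  refine hs.trans_le ?_
  refine Nat.cast_le.2 (card_le_card (monotone_filter_right _ fun c' _ hz => ?_))
  exact ST_mono h hz

theorem EBp_inv {e : Epo X} {σ s : ℕ} (hσ : σ ≤ s) {x x' : X} {b b' : β} {c c' : γ} (hx : D.qa s x = D.qa s x')
    (hb : D.qb s b = D.qb s b') (hc : D.qc σ c = D.qc σ c') : P.EBp q e σ s x b c ↔ P.EBp q e σ s x' b' c' := by
  classical
  unfold EBp
  rw [D.cC_congr hc]
  have : (D.cC σ c').filter (fun c'' => P.ST e s x b c'') = (D.cC σ c').filter (fun c'' => P.ST e s x' b' c'') :=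
    filter_congr fun c'' _ => ST_inv ⟨hx, hb, rfl⟩
  rw [this]

theorem EAp_mono {e : Epo X} {σ s t : ℕ} (h : s ≤ t) {x : X} {b : β} {c : γ} (hs : P.EAp q e σ s x b c) :
    P.EAp q e σ t x b c := by
  classical
  unfold EAp at *
  refine hs.trans_le ?_
  refine Nat.cast_le.2 (card_le_card (monotone_filter_right _ fun z _ hz => ?_))
  exact hz.imp (ST_mono h) (EBp_mono h)

theorem EAp_inv {e : Epo X} {σ s : ℕ} (hσ : σ ≤ s) {x x' : X} {b b' : β} {c c' : γ} (hx : D.qa s x = D.qa s x')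
    (hb : D.qb σ b = D.qb σ b') (hc : D.qc σ c = D.qc σ c') : P.EAp q e σ s x b c ↔ P.EAp q e σ s x' b' c' := by
  classical
  unfold EAp
  rw [D.cC_congr hc, D.cB_congr hb]
  have : (D.cB σ b' ×ˢ D.cC σ c').filter (fun z => P.ST e s x z.1 z.2 ∨ P.EBp q e σ s x z.1 z.2)
      = (D.cB σ b' ×ˢ D.cC σ c').filter (fun z => P.ST e s x' z.1 z.2 ∨ P.EBp q e σ s x' z.1 z.2) :=
    filter_congr fun z _ => or_congr (ST_inv ⟨hx, rfl, rfl⟩) (EBp_inv hσ hx rfl rfl)
  rw [this]

variable (P q)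

open Classical in
/-- start of the current sub-epoch -/
def sb : ℕ → X → β → γ → ℕ
  | 0, _, _, _ => 0
  | s + 1, x, b, c => if (P.ep (s + 1) x b c).t0 = s + 1 ∨ P.EBp q (P.ep s x b c) (sb s x b c) (s + 1) x b c ∨
      P.EAp q (P.ep s x b c) (sb s x b c) (s + 1) x b c then s + 1 else sb s x b c

/-- the sub-epoch ends at `s+1` by rarity of the surviving paths (possibly together with something else) -/
def Eend (s : ℕ) (x : X) (b : β) (c : γ) : Prop :=
  P.EBp q (P.ep s x b c) (P.sb q s x b c) (s + 1) x b c ∨ P.EAp q (P.ep s x b c) (P.sb q s x b c) (s + 1) x b c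

variable {P q}

theorem sb_cases (s : ℕ) (x : X) (b : β) (c : γ) :
    (P.sb q (s + 1) x b c = s + 1 ∧ ((P.ep (s + 1) x b c).t0 = s + 1 ∨ P.Eend q s x b c)) ∨
    (P.sb q (s + 1) x b c = P.sb q s x b c ∧ P.ep (s + 1) x b c = P.ep s x b c ∧ ¬ P.Eend q s x b c) := by
  classical
  by_cases h : (P.ep (s + 1) x b c).t0 = s + 1 ∨ P.EBp q (P.ep s x b c) (P.sb q s x b c) (s + 1) x b c ∨
      P.EAp q (P.ep s x b c) (P.sb q s x b c) (s + 1) x b c
  · exact Or.inl ⟨by simp only [sb, if_pos h], h⟩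
  · refine Or.inr ⟨by simp only [sb, if_neg h], ?_, fun h' => h (Or.inr h')⟩
    rcases P.ep_cases s x b c with h3 | h3
    · exact absurd (Or.inl h3.1) h
    · exact h3.1

theorem sb_le (s : ℕ) (x : X) (b : β) (c : γ) : P.sb q s x b c ≤ s := by
  induction s with
  | zero => exact le_rfl
  | succ s ih =>
    rcases P.sb_cases (q := q) s x b c with h | h
    · exact h.1.le
    · rw [h.1]; omega

theorem t0_le_sb (s : ℕ) (x : X) (b : β) (c : γ) : (P.ep s x b c).t0 ≤ P.sb q s x b c := by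
  induction s with
  | zero => exact P.t0_le 0 x b c
  | succ s ih =>
    rcases P.sb_cases (q := q) s x b c with h | h
    · rw [h.1]; exact P.t0_le (s + 1) x b c
    · rw [h.1, h.2.1]; exact ih

/-- THE SUB-EPOCH START IS PUBLIC -/
theorem sb_pub (s : ℕ) {x x' : X} {b b' : β} {c c' : γ} (hS : D.Same s x b c x' b' c') (hx : x' ∈ P.U s x b c) :
    P.sb q s x' b' c' = P.sb q s x b c := by
  induction s with
  | zero => rfl
  | succ s ih =>
    have e1 := (P.U_pub hS hx).1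
    have hs := hS.le (Nat.le_succ s)
    by_cases h : (P.ep (s + 1) x b c).t0 = s + 1
    · have h' : (P.ep (s + 1) x' b' c').t0 = s + 1 := by rw [e1]; exact h
      rcases P.sb_cases (q := q) s x b c with h1 | h1
      · rcases P.sb_cases (q := q) s x' b' c' with h2 | h2
        · rw [h1.1, h2.1]
        · have := P.t0_le s x' b' c'
          rw [← h2.2.1, h'] at this
          omega
      · have := P.t0_le s x b c
        rw [← h1.2.1, h] at this
        omega
    · have k1 : P.ep (s + 1) x b c = P.ep s x b c := by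
        rcases P.ep_cases s x b c with h3 | h3
        · exact absurd h3.1 h
        · exact h3.1
      have k2 : P.ep (s + 1) x' b' c' = P.ep s x' b' c' := by
        rcases P.ep_cases s x' b' c' with h3 | h3
        · exact absurd (by rw [← e1]; exact h3.1) h
        · exact h3.1
      have hxU : x' ∈ P.U s x b c := by
        rw [mem_U] at hx ⊢
        rw [k1] at hx
        exact ⟨P.KF_sub _ s (s + 1) x b c (Nat.le_succ s) hx.1, P.KG_sub _ s (s + 1) x b c (Nat.le_succ s) hx.2⟩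
      have e2 := (P.U_pub hs hxU).1
      have e3 := ih hs hxU
      have hle := P.sb_le (q := q) s x b c
      have hE : P.Eend q s x' b' c' ↔ P.Eend q s x b c := by
        unfold Eend
        rw [e2, e3]
        refine or_congr ?_ ?_
        · exact (EBp_inv (by omega) hS.1 hS.2.1 (D.qc_le hle hs.2.2)).symm
        · exact (EAp_inv (by omega) hS.1 (D.qb_le hle hs.2.1) (D.qc_le hle hs.2.2)).symm
      rcases P.sb_cases (q := q) s x b c with h1 | h1
      · rcases P.sb_cases (q := q) s x' b' c' with h2 | h2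
        · rw [h1.1, h2.1]
        · rcases h1.2 with h4 | h4
          · exact absurd h4 h
          · exact absurd (hE.2 h4) h2.2.2
      · rcases P.sb_cases (q := q) s x' b' c' with h2 | h2
        · rcases h2.2 with h4 | h4
          · exact absurd (by rw [← e1]; exact h4) h
          · exact absurd (hE.1 h4) h1.2.2
        · rw [h1.1, h2.1, e3]

/-- inside a sub-epoch -/
theorem run (s : ℕ) (x : X) (b : β) (c : γ) : ∀ r, P.sb q s x b c ≤ r → r ≤ s →
    P.sb q r x b c = P.sb q s x b c ∧ P.ep r x b c = P.ep s x b c ∧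
    (P.sb q s x b c < r → ¬ P.EBp q (P.ep s x b c) (P.sb q s x b c) r x b c ∧
      ¬ P.EAp q (P.ep s x b c) (P.sb q s x b c) r x b c) := by
  induction s with
  | zero =>
    intro r h1 h2
    have h3 : r = 0 := by omega
    subst h3
    exact ⟨rfl, rfl, fun h => by simp [sb] at h⟩
  | succ s ih =>
    intro r h1 h2
    rcases P.sb_cases (q := q) s x b c with h | h
    · have h3 : r = s + 1 := by rw [h.1] at h1; omega
      subst h3
      exact ⟨rfl, rfl, fun h4 => by rw [h.1] at h4; omega⟩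
    · rcases Nat.lt_or_ge r (s + 1) with h6 | h6
      · have := ih r (by rw [h.1] at h1; exact h1) (by omega)
        rw [h.1, h.2.1]
        exact this
      · have h7 : r = s + 1 := by omega
        subst h7
        refine ⟨rfl, rfl, fun _ => ?_⟩
        rw [h.1, h.2.1]
        have h8 := h.2.2
        unfold Eend at h8
        push Not at h8
        exact h8

/-- converse: as long as nothing happens the sub-epoch goes on -/
theorem reach {σ s : ℕ} (hσ : σ ≤ s) {x : X} {b : β} {c : γ} (h0 : P.sb q σ x b c = σ)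
    (h : ∀ r, σ < r → r ≤ s → ¬ P.th (P.ep σ x b c) r x b c ∧ ¬ P.ts (P.ep σ x b c) r x b c ∧
      x ∈ P.KF (P.ep σ x b c) r x b c ∧ x ∈ P.KG (P.ep σ x b c) r x b c ∧
      ¬ P.EBp q (P.ep σ x b c) σ r x b c ∧ ¬ P.EAp q (P.ep σ x b c) σ r x b c) :
    P.ep s x b c = P.ep σ x b c ∧ P.sb q s x b c = σ := by
  induction s, hσ using Nat.le_induction with
  | base => exact ⟨rfl, h0⟩
  | succ n hn ih =>
    obtain ⟨e1, e2⟩ := ih fun r h1 h2 => h r h1 (by omega)
    obtain ⟨k1, k2, k3, k4, k5, k6⟩ := h (n + 1) (by omega) le_rfl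
    have e3 : P.ep (n + 1) x b c = P.ep n x b c := by
      rcases P.ep_cases n x b c with ⟨-, h3⟩ | h3
      · rw [e1] at h3
        exact absurd h3 (by push Not; exact ⟨k1, ⟨k3, k4⟩, k2⟩)
      · exact h3.1
    refine ⟨e3.trans e1, ?_⟩
    rcases P.sb_cases (q := q) n x b c with h3 | h3
    · rcases h3.2 with h4 | h4
      · have := P.t0_le n x b c
        rw [e3] at h4
        omega
      · unfold Eend at h4
        rw [e1, e2] at h4
        rcases h4 with h4 | h4
        · exact absurd h4 k5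
        · exact absurd h4 k6
    · rw [h3.1, e2]

end sub

end Prc

end

end

end Pool.Agent.M3.S3
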