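import Pool.Agent.M3.S3.Acc
import Pool.Agent.M3.S3.Sub

/-!
# M3.S3.Tower: averages over the classes (helper26)

* `unifOn s h : FP α` uniform law on a nonempty finset, `unifOn_E : E = avg s`;
* `sum_avg_cls` : a partition `W` of a finite set: `∑ ω, avg (W ω) g = ∑ ω, g ω`;
* `tower` : for a public family of classes `U σ` (same node and `x' ∈ U` give the same class):
  `E3 g = E3 (fun x b c => avg_{y ∈ U x b c} avg_{b' ∈ cB σ b} avg_{c' ∈ cC σ c} g y b' c')`;
* `Prc.tower` : the same for the classes of a process, with a public event `S` as a weight.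
-/

set_option autoImplicit false
set_option linter.unusedSectionVars false

namespace Pool.Agent.M3.S3

open Finset Pool.Agent.PWZ Pool.Agent.M3

noncomputable section

open Classical in
/-- uniform law on a finset -/
def unifOn {α : Type*} [Fintype α] (s : Finset α) (h : s.Nonempty) : FP α where
  p a := if a ∈ s then (1 : ℝ) / s.card else 0
  nn a := by
    split_ifs
    · positivity
    · exact le_rfl
  tot := by
    rw [Finset.sum_ite_mem, univ_inter, sum_const, nsmul_eq_mul]
    have : (s.card : ℝ) ≠ 0 := by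
      have := h.card_pos
      positivity
    field_simp

theorem unifOn_E {α : Type*} [Fintype α] (s : Finset α) (h : s.Nonempty) (f : α → ℝ) :
    (unifOn s h).E f = avg s f := by
  classical
  unfold FP.E unifOn avg
  simp only [ite_mul, zero_mul]
  rw [Finset.sum_ite_mem, univ_inter, sum_div]
  refine sum_congr rfl fun a _ => ?_
  ring

theorem unifOn_ne {α : Type*} [Fintype α] {s : Finset α} {h : s.Nonempty} {a : α} (ha : (unifOn s h).p a ≠ 0) :
    a ∈ s := by
  classical
  by_contra h1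
  exact ha (by simp only [unifOn, if_neg h1])

/-- a partition of a finite set -/
theorem sum_avg_cls {Om : Type*} [Fintype Om] (W : Om → Finset Om) (hs : ∀ w, w ∈ W w)
    (hp : ∀ w w', w' ∈ W w → W w' = W w) (g : Om → ℝ) : ∑ w, avg (W w) g = ∑ w, g w := by
  classical
  have h1 : ∀ w w', w' ∈ W w ↔ w ∈ W w' := fun w w' =>
    ⟨fun h => by rw [hp w w' h]; exact hs w, fun h => by rw [hp w' w h]; exact hs w'⟩
  unfold avg
  calc ∑ w, (∑ a ∈ W w, g a) / ((W w).card : ℝ)
      = ∑ w, ∑ a, if a ∈ W w then g a / ((W w).card : ℝ) else 0 := by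
        refine sum_congr rfl fun w _ => ?_
        rw [Finset.sum_ite_mem, univ_inter, sum_div]
    _ = ∑ a, ∑ w, if a ∈ W w then g a / ((W w).card : ℝ) else 0 := sum_comm
    _ = ∑ a, ∑ w ∈ W a, g a / ((W a).card : ℝ) := by
        refine sum_congr rfl fun a _ => ?_
        have e1 : ∑ w ∈ W a, g a / ((W a).card : ℝ) = ∑ w, if w ∈ W a then g a / ((W a).card : ℝ) else 0 := by
          rw [Finset.sum_ite_mem, univ_inter]
        rw [e1]
        refine sum_congr rfl fun w _ => ?_
        by_cases h : a ∈ W w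
        · rw [if_pos h, if_pos ((h1 w a).1 h), hp w a h]
        · rw [if_neg h, if_neg (fun h' => h ((h1 w a).2 h'))]
    _ = ∑ a, g a := by
        refine sum_congr rfl fun a _ => ?_
        rw [sum_const, nsmul_eq_mul]
        have : ((W a).card : ℝ) ≠ 0 := by
          have := card_pos.2 ⟨a, hs a⟩
          positivity
        field_simp

theorem avg_prod {α β : Type*} (s : Finset α) (t : Finset β) (g : α → β → ℝ) :
    avg (s ×ˢ t) (fun z => g z.1 z.2) = avg s fun a => avg t fun b => g a b := by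
  unfold avg
  rw [sum_product, card_product, ← sum_div, div_div]
  push_cast
  ring

section

variable {X β γ ι φ : Type*} [Fintype X] [Fintype β] [Fintype γ] {D : Dat X β γ ι φ}

theorem Tw.E3_eq (g : X → β → γ → ℝ) :
    E3 g = (∑ w : X × β × γ, g w.1 w.2.1 w.2.2) / ((Fintype.card X : ℝ) * Fintype.card β * Fintype.card γ) := by
  unfold E3 avg
  simp only [card_univ, Fintype.sum_prod_type, sum_div]
  refine sum_congr rfl fun x _ => sum_congr rfl fun b _ => sum_congr rfl fun c _ => ?_
  ring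

/-- average over the cells of a public family of classes -/
theorem tower (σ : ℕ) (U : X → β → γ → Finset X) (hself : ∀ x b c, x ∈ U x b c)
    (hsub : ∀ x b c y, y ∈ U x b c → D.qa σ y = D.qa σ x)
    (hpub : ∀ x b c x' b' c', D.Same σ x b c x' b' c' → x' ∈ U x b c → U x' b' c' = U x b c)
    (g : X → β → γ → ℝ) :
    E3 (fun x b c => avg (U x b c) fun y => avg (D.cB σ b) fun b' => avg (D.cC σ c) fun c' => g y b' c') = E3 g := by
  classical
  rw [Tw.E3_eq, Tw.E3_eq]
  congr 1
  have key := sum_avg_cls (Om := X × β × γ) (fun w => U w.1 w.2.1 w.2.2 ×ˢ (D.cB σ w.2.1 ×ˢ D.cC σ w.2.2))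
    (fun w => by
      rw [mem_product, mem_product]
      exact ⟨hself _ _ _, D.self_cB _ _, D.self_cC _ _⟩)
    (fun w w' h => by
      rw [mem_product, mem_product, D.mem_cB, D.mem_cC] at h
      have hS : D.Same σ w.1 w.2.1 w.2.2 w'.1 w'.2.1 w'.2.2 := ⟨(hsub _ _ _ _ h.1).symm, h.2.1.symm, h.2.2.symm⟩
      rw [hpub _ _ _ _ _ _ hS h.1, D.cB_congr hS.2.1, D.cC_congr hS.2.2])
    (fun w => g w.1 w.2.1 w.2.2)
  rw [← key]
  refine sum_congr rfl fun w _ => ?_
  rw [avg_prod (U w.1 w.2.1 w.2.2) (D.cB σ w.2.1 ×ˢ D.cC σ w.2.2) (fun y z => g y z.1 z.2)]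
  congr 1
  funext y
  exact (avg_prod (D.cB σ w.2.1) (D.cC σ w.2.2) (fun b' c' => g y b' c')).symm

namespace Prc

variable (P : Prc D)

/-- the classes of a process -/
theorem tower (σ : ℕ) (g : X → β → γ → ℝ) :
    E3 (fun x b c => avg (P.U σ x b c) fun y => avg (D.cB σ b) fun b' => avg (D.cC σ c) fun c' => g y b' c')
      = E3 g :=
  S3.tower (D := D) σ (P.U σ) (P.self_U σ) (fun _ _ _ _ h => P.U_node h)
    (fun _ _ _ _ _ _ hS hx => (P.U_pub hS hx).2) g

/-- the cells of `(x,b,c)` at the time `σ` and a public event -/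
theorem same_of_mem {σ : ℕ} {x y : X} {b b' : β} {c c' : γ} (hy : y ∈ P.U σ x b c) (hb : b' ∈ D.cB σ b)
    (hc : c' ∈ D.cC σ c) : D.Same σ x b c y b' c' :=
  ⟨(P.U_node hy).symm, (D.mem_cB.1 hb).symm, (D.mem_cC.1 hc).symm⟩

end Prc

namespace Tw

theorem avg_congr {α : Type*} {s : Finset α} {f g : α → ℝ} (h : ∀ a ∈ s, f a = g a) : avg s f = avg s g := by
  unfold avg
  rw [sum_congr rfl h]

theorem avg_le_avg {α : Type*} {s : Finset α} {f g : α → ℝ} (h : ∀ a ∈ s, f a ≤ g a) : avg s f ≤ avg s g := by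
  unfold avg
  exact div_le_div_of_nonneg_right (sum_le_sum h) (Nat.cast_nonneg _)

theorem E3_mono {f g : X → β → γ → ℝ} (h : ∀ x b c, f x b c ≤ g x b c) : E3 f ≤ E3 g := by
  unfold E3
  exact avg_le_avg fun x _ => avg_le_avg fun b _ => avg_le_avg fun c _ => h x b c

theorem E3_add (f g : X → β → γ → ℝ) : E3 (fun x b c => f x b c + g x b c) = E3 f + E3 g := by
  rw [E3_eq, E3_eq, E3_eq, ← add_div, ← sum_add_distrib]

theorem E3_smul (a : ℝ) (f : X → β → γ → ℝ) : E3 (fun x b c => a * f x b c) = a * E3 f := by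
  rw [E3_eq, E3_eq, ← mul_sum, mul_div_assoc]

theorem E3_sum {α : Type*} (s : Finset α) (f : α → X → β → γ → ℝ) :
    E3 (fun x b c => ∑ i ∈ s, f i x b c) = ∑ i ∈ s, E3 (f i) := by
  simp only [E3_eq]
  rw [← sum_div, sum_comm]

end Tw

end

end

end Pool.Agent.M3.S3
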